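import Mathlib
set_option autoImplicit false
open Classical Filter Topology

namespace Pool.Agent.Helper759.Chrom

/-- vertices: grid vertex (column x, block k, side e) and two poles -/
abbrev Vx (X m : ℕ) := (Fin X × Fin m × Bool) ⊕ Bool

/-- one-directional adjacency; columns `x` with `L ∣ x` are the path columns -/
def rel (L X m : ℕ) : Vx X m → Vx X m → Prop
  | Sum.inl (x, k, e), Sum.inl (x', k', e') =>
      (k = k' ∧ e = e' ∧ (x' : ℕ) = x + 1) ∨
      (x = x' ∧ k = k' ∧ e = false ∧ e' = true) ∨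
      (x = x' ∧ L ∣ (x : ℕ) ∧ (k' : ℕ) = k + 1 ∧ e = true ∧ e' = false)
  | Sum.inr false, Sum.inl (x, k, e) => L ∣ (x : ℕ) ∧ (k : ℕ) = 0 ∧ e = false
  | Sum.inr true, Sum.inl (x, k, e) => L ∣ (x : ℕ) ∧ (k : ℕ) + 1 = m ∧ e = true
  | _, _ => False

/-- the ladder-braced theta graph: path columns at `0, L, ..., nL` -/
def Gr (n m L : ℕ) : SimpleGraph (Vx (n * L + 1) m) := SimpleGraph.fromRel (rel L (n * L + 1) m)

/-- number of proper `q`-colourings, as a complex number -/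
noncomputable def cnt {V : Type} [Fintype V] (G : SimpleGraph V) (q : ℕ) : ℂ :=
  ∑ c : V → Fin q, if (∀ u v, G.Adj u v → c u ≠ c v) then 1 else 0

/-- Whitney's expansion of the chromatic polynomial -/
noncomputable def whit {V : Type} [Fintype V] (G : SimpleGraph V) (z : ℂ) : ℂ :=
  ∑ S ∈ G.edgeFinset.powerset,
    (-1 : ℂ) ^ S.card * z ^ Nat.card (SimpleGraph.fromEdgeSet (↑S : Set (Sym2 V))).ConnectedComponent

/-- colouring from column data -/
def mk {X m q : ℕ} (ca cb : Fin q) (σ : Fin X → Fin m → Fin q × Fin q) : Vx X m → Fin q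
  | Sum.inl (x, k, false) => (σ x k).1
  | Sum.inl (x, k, true) => (σ x k).2
  | Sum.inr false => ca
  | Sum.inr true => cb

/-- rung weight of a pair -/
noncomputable def om {q : ℕ} (p : Fin q × Fin q) : ℂ := if p.1 ≠ p.2 then 1 else 0
/-- horizontal transfer of a pair -/
noncomputable def mu {q : ℕ} (p p' : Fin q × Fin q) : ℂ :=
  if p.1 ≠ p'.1 ∧ p.2 ≠ p'.2 then 1 else 0
/-- the vertical (path column) condition -/
def Wc {m q : ℕ} (ca cb : Fin q) (s : Fin m → Fin q × Fin q) : Prop :=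
  (∀ k k' : Fin m, (k' : ℕ) = k + 1 → (s k).2 ≠ (s k').1) ∧
  (∀ k : Fin m, (k : ℕ) = 0 → ca ≠ (s k).1) ∧
  (∀ k : Fin m, (k : ℕ) + 1 = m → cb ≠ (s k).2)

/-- `MM w M ℓ` is the transfer over `ℓ+1` steps -/
noncomputable def MM {S : Type} [Fintype S] (w : S → ℂ) (M : S → S → ℂ) : ℕ → S → S → ℂ
  | 0 => M
  | (l + 1) => fun s s'' => ∑ s', MM w M l s s' * w s' * M s' s''

/-- coefficients `(a,b,c)` of the ladder kernel -/
noncomputable def abc (z : ℂ) : ℕ → ℂ × ℂ × ℂ
  | 0 => (0, 0, 0)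
  | (l + 1) =>
    ((z ^ 2 - 3 * z + 3) * (abc z l).1 + (2 * z - 4) * ((abc z l).2.1 + (abc z l).2.2) + 1,
      (2 - z) * (abc z l).2.1 + (abc z l).2.2 - 1,
      (abc z l).2.1 + (2 - z) * (abc z l).2.2)

/-- coefficient of the type `f` term -/
noncomputable def cf (z : ℂ) (l : ℕ) (f : Fin 6) : ℂ :=
  if f = 0 then (abc z l).1 else if f = 1 ∨ f = 2 then (abc z l).2.1
  else if f = 3 ∨ f = 4 then (abc z l).2.2 else 1

/-- the equality condition of type `f` between consecutive path columns -/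
def dl (f : Fin 6) (e11 e22 e12 e21 : Prop) : Prop :=
  (f = 1 ∨ f = 5 → e11) ∧ (f = 2 ∨ f = 5 → e22) ∧ (f = 3 → e12) ∧ (f = 4 → e21)

/-- weight of an equality pattern on the theta graph with extra identifications `φ` -/
noncomputable def Fp (n m : ℕ) (φ : Fin n × Fin m → Fin 6) (E : Vx (n + 1) m → Vx (n + 1) m → Prop) : ℂ :=
  if ((∀ x k, ¬ E (Sum.inl (x, k, false)) (Sum.inl (x, k, true))) ∧
      (∀ x, ∀ k k' : Fin m, (k' : ℕ) = k + 1 → ¬ E (Sum.inl (x, k, true)) (Sum.inl (x, k', false))) ∧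
      (∀ x, ∀ k : Fin m, (k : ℕ) = 0 → ¬ E (Sum.inr false) (Sum.inl (x, k, false))) ∧
      (∀ x, ∀ k : Fin m, (k : ℕ) + 1 = m → ¬ E (Sum.inr true) (Sum.inl (x, k, true)))) ∧
      (∀ ik : Fin n × Fin m, dl (φ ik)
        (E (Sum.inl (ik.1.castSucc, ik.2, false)) (Sum.inl (ik.1.succ, ik.2, false)))
        (E (Sum.inl (ik.1.castSucc, ik.2, true)) (Sum.inl (ik.1.succ, ik.2, true)))
        (E (Sum.inl (ik.1.castSucc, ik.2, false)) (Sum.inl (ik.1.succ, ik.2, true)))
        (E (Sum.inl (ik.1.castSucc, ik.2, true)) (Sum.inl (ik.1.succ, ik.2, false))))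
  then 1 else 0

/-- 3-connectedness as in the frozen statement -/
def Tri {V : Type} [Fintype V] (G : SimpleGraph V) : Prop :=
  4 ≤ Fintype.card V ∧ ∀ S : Finset V, S.card ≤ 2 → (G.induce ((↑S : Set V)ᶜ)).Connected

/-- planarity as in the frozen statement -/
def Pla {V : Type} (G : SimpleGraph V) : Prop :=
  ∃ (f : V → ℂ) (γ : ∀ u v : V, Path (f u) (f v)),
    Function.Injective f ∧
    (∀ u v : V, G.Adj u v →
        Function.Injective ⇑(γ u v) ∧
        ∀ (t : unitInterval) (w : V), γ u v t = f w → w = u ∨ w = v) ∧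
    (∀ u v x y : V, G.Adj u v → G.Adj x y → s(u, v) ≠ s(x, y) →
        ∀ a b : unitInterval, γ u v a = γ x y b → ∃ w : V, γ u v a = f w)


end Pool.Agent.Helper759.Chrom
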