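import Mathlib
import Pool.Agent.Helper759.ChromDefs
set_option autoImplicit false
open Classical Filter Topology

namespace Pool.Agent.Helper759.Chrom

/-- the edge `e` is monochromatic -/
def mono {V : Type} {q : ℕ} (c : V → Fin q) (e : Sym2 V) : Prop := (e.map c).IsDiag

theorem mono_mk {V : Type} {q : ℕ} (c : V → Fin q) (u v : V) : mono c s(u, v) ↔ c u = c v := by
  unfold mono
  rw [Sym2.map_mk, Sym2.mk_isDiag_iff]

/-- colourings constant on the edges of `S` are functions on the components -/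
noncomputable def ccEquiv {V : Type} {q : ℕ} (S : Set (Sym2 V)) :
    {c : V → Fin q // ∀ e ∈ S, mono c e} ≃
      ((SimpleGraph.fromEdgeSet S).ConnectedComponent → Fin q) where
  toFun c := SimpleGraph.ConnectedComponent.lift c.1 (by
    intro v w p hp
    clear hp
    induction p with
    | nil => rfl
    | cons h p ih =>
      refine Eq.trans ?_ ih
      have h1 := c.2 _ ((SimpleGraph.fromEdgeSet_adj _).1 h).1
      exact (mono_mk _ _ _).1 h1)
  invFun f := ⟨fun v => f ((SimpleGraph.fromEdgeSet S).connectedComponentMk v), by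
    intro e
    refine Sym2.ind (fun u v => ?_) e
    intro he
    rw [mono_mk]
    by_cases huv : u = v
    · rw [huv]
    · congr 1
      rw [SimpleGraph.ConnectedComponent.eq]
      have : (SimpleGraph.fromEdgeSet S).Adj u v := (SimpleGraph.fromEdgeSet_adj _).2 ⟨he, huv⟩
      exact this.reachable⟩
  left_inv := by
    intro c
    apply Subtype.ext
    funext v
    rfl
  right_inv := by
    intro f
    funext C
    refine SimpleGraph.ConnectedComponent.ind (fun v => ?_) C
    rfl

theorem sum_mono {V : Type} [Fintype V] (q : ℕ) (S : Finset (Sym2 V)) :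
    (∑ c : V → Fin q, if (∀ e ∈ S, mono c e) then (1 : ℂ) else 0) =
      (q : ℂ) ^ Nat.card (SimpleGraph.fromEdgeSet (↑S : Set (Sym2 V))).ConnectedComponent := by
  rw [Finset.sum_boole]
  have h1 : ((Finset.univ.filter fun c : V → Fin q => ∀ e ∈ S, mono c e).card) =
      Nat.card {c : V → Fin q // ∀ e ∈ (↑S : Set (Sym2 V)), mono c e} := by
    rw [Nat.card_eq_fintype_card, Fintype.card_subtype]
    simp only [Finset.mem_coe]
  rw [h1, Nat.card_congr (ccEquiv (↑S : Set (Sym2 V))), Nat.card_fun, Nat.card_eq_fintype_card,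
    Fintype.card_fin]
  push_cast
  rfl

theorem proper_eq {V : Type} [Fintype V] (G : SimpleGraph V) (q : ℕ) (c : V → Fin q) :
    (if (∀ u v, G.Adj u v → c u ≠ c v) then (1 : ℂ) else 0) =
      ∑ S ∈ G.edgeFinset.powerset, (-1 : ℂ) ^ S.card * if (∀ e ∈ S, mono c e) then 1 else 0 := by
  have h1 : (∏ e ∈ G.edgeFinset, ((-1 : ℂ) * (if mono c e then 1 else 0) + 1)) =
      ∑ S ∈ G.edgeFinset.powerset, (-1 : ℂ) ^ S.card * if (∀ e ∈ S, mono c e) then 1 else 0 := by
    rw [Finset.prod_add]
    refine Finset.sum_congr rfl fun S _ => ?_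
    rw [Finset.prod_mul_distrib, Finset.prod_const, Finset.prod_const_one, mul_one,
      Finset.prod_ite_zero, Finset.prod_const_one]
    congr
  rw [← h1]
  split_ifs with h
  · symm
    apply Finset.prod_eq_one
    intro e he
    have h2 : ¬ mono c e := by
      revert he
      refine Sym2.ind (fun u v => ?_) e
      intro he
      rw [mono_mk]
      rw [SimpleGraph.mem_edgeFinset, SimpleGraph.mem_edgeSet] at he
      exact h u v he
    rw [if_neg h2]
    ring
  · push Not at h
    obtain ⟨u, v, huv, hc⟩ := h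
    symm
    apply Finset.prod_eq_zero (i := s(u, v))
    · rw [SimpleGraph.mem_edgeFinset, SimpleGraph.mem_edgeSet]
      exact huv
    · rw [if_pos ((mono_mk c u v).2 hc)]
      ring

/-- TARGET: Whitney's theorem. -/
theorem whit_nat {V : Type} [Fintype V] (G : SimpleGraph V) (q : ℕ) : whit G (q : ℂ) = cnt G q := by
  unfold whit cnt
  have h1 : (∑ c : V → Fin q, if (∀ u v, G.Adj u v → c u ≠ c v) then (1 : ℂ) else 0) =
      ∑ c : V → Fin q, ∑ S ∈ G.edgeFinset.powerset,
        (-1 : ℂ) ^ S.card * if (∀ e ∈ S, mono c e) then 1 else 0 :=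
    Finset.sum_congr rfl fun c _ => proper_eq G q c
  rw [h1, Finset.sum_comm]
  refine Finset.sum_congr rfl fun S _ => ?_
  rw [← Finset.mul_sum, sum_mono]


theorem pat_count {V : Type} [Fintype V] (E : V → V → Prop) :
    ∃ P : Polynomial ℂ, ∀ q : ℕ, P.eval (q : ℂ) =
      ((Finset.univ.filter (fun C : V → Fin q => (fun u v => C u = C v) = E)).card : ℂ) := by
  by_cases hE : Equivalence E
  · let r : Setoid V := ⟨E, hE⟩
    refine ⟨descPochhammer ℂ (Fintype.card (Quotient r)), fun q => ?_⟩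
    rw [descPochhammer_eval_eq_descFactorial]
    congr 1
    rw [← Fintype.card_fin q]
    conv_rhs => rw [← Fintype.card_subtype]
    rw [← Fintype.card_embedding_eq]
    symm
    rw [Fintype.card_fin q]
    refine Fintype.card_congr ?_
    exact
      { toFun := fun C => ⟨Quotient.lift C.1 (fun a b hab => by
            have h1 : (fun u v => C.1 u = C.1 v) = E := C.2
            have h2 : E a b := hab
            rw [← h1] at h2
            exact h2), by
            intro x y
            refine Quotient.inductionOn₂ x y ?_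
            intro a b hab
            have h1 : (fun u v => C.1 u = C.1 v) = E := C.2
            apply Quotient.sound
            show E a b
            rw [← h1]
            exact hab⟩
        invFun := fun g => ⟨fun v => g (Quotient.mk r v), by
            funext u v
            apply propext
            constructor
            · intro h
              have h3 := g.injective h
              exact Quotient.exact h3
            · intro h
              exact congrArg g (Quotient.sound h)⟩
        left_inv := fun C => by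
            apply Subtype.ext
            funext v
            rfl
        right_inv := fun g => by
            ext x
            refine Quotient.inductionOn x ?_
            intro v
            rfl }
  · refine ⟨0, fun q => ?_⟩
    rw [Polynomial.eval_zero]
    rw [Finset.filter_eq_empty_iff.2]
    · simp
    · intro C _ h
      apply hE
      rw [← h]
      exact ⟨fun _ => rfl, fun h => h.symm, fun h h' => h.trans h'⟩

/-- TARGET. -/
theorem pat_poly {V : Type} [Fintype V] (F : (V → V → Prop) → ℂ) :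
    ∃ P : Polynomial ℂ, ∀ q : ℕ, P.eval (q : ℂ) = ∑ C : V → Fin q, F (fun u v => C u = C v) := by
  choose P hP using (fun E : V → V → Prop => pat_count E)
  refine ⟨∑ E : V → V → Prop, Polynomial.C (F E) * P E, fun q => ?_⟩
  rw [Polynomial.eval_finsetSum]
  rw [← Finset.sum_fiberwise_of_maps_to (s := (Finset.univ : Finset (V → Fin q)))
    (t := (Finset.univ : Finset (V → V → Prop))) (g := fun C => (fun u v => C u = C v))
    (fun _ _ => Finset.mem_univ _)]
  refine Finset.sum_congr rfl fun E _ => ?_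
  rw [Polynomial.eval_mul, Polynomial.eval_C, hP]
  rw [Finset.sum_congr rfl (g := fun _ => F E) (fun C hC => by
    rw [(Finset.mem_filter.1 hC).2])]
  rw [Finset.sum_const, nsmul_eq_mul, mul_comm]



/-- vector recursion -/
noncomputable def cut_vec {S : Type} [Fintype S] (g : ℕ → S → ℂ) (K : ℕ → S → S → ℂ) : ℕ → S → ℂ
  | 0 => g 0
  | (N + 1) => fun s' => (∑ s, cut_vec g K N s * K N s s') * g (N + 1) s'

theorem cut_sum {S : Type} [Fintype S] (g : ℕ → S → ℂ) (K : ℕ → S → S → ℂ) (N : ℕ) :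
    ∀ h : S → ℂ, ∑ s : Fin (N + 1) → S, ((∏ x : Fin (N + 1), g x (s x)) *
      ∏ x : Fin N, K x (s x.castSucc) (s x.succ)) * h (s (Fin.last N)) =
      ∑ s', cut_vec g K N s' * h s' := by
  induction N with
  | zero =>
    intro h
    rw [← (Equiv.funUnique (Fin 1) S).symm.sum_comp]
    apply Finset.sum_congr rfl
    intro s _
    simp [cut_vec]
  | succ N ih =>
    intro h
    rw [← (Fin.snocEquiv (fun _ : Fin (N + 1 + 1) => S)).sum_comp, Fintype.sum_prod_type]
    have h1 : ∀ (a : S) (s : Fin (N + 1) → S),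
        ((∏ x : Fin (N + 1 + 1), g x ((Fin.snocEquiv (fun _ : Fin (N + 1 + 1) => S)) (a, s) x)) *
      ∏ x : Fin (N + 1), K x ((Fin.snocEquiv (fun _ : Fin (N + 1 + 1) => S)) (a, s) x.castSucc)
        ((Fin.snocEquiv (fun _ : Fin (N + 1 + 1) => S)) (a, s) x.succ)) *
        h ((Fin.snocEquiv (fun _ : Fin (N + 1 + 1) => S)) (a, s) (Fin.last (N + 1))) =
        ((∏ x : Fin (N + 1), g x (s x)) * ∏ x : Fin N, K x (s x.castSucc) (s x.succ)) *
          (K N (s (Fin.last N)) a * g (N + 1) a * h a) := by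
      intro a s
      have hc : ∀ x : Fin (N + 1), (Fin.snocEquiv (fun _ : Fin (N + 1 + 1) => S)) (a, s) x.castSucc
          = s x := by
        intro x
        exact Fin.snoc_castSucc (α := fun _ => S) a s x
      have hl : (Fin.snocEquiv (fun _ : Fin (N + 1 + 1) => S)) (a, s) (Fin.last (N + 1)) = a :=
        Fin.snoc_last (α := fun _ => S) a s
      rw [Fin.prod_univ_castSucc]
      simp only [hc, hl]
      have h2 : ∏ x : Fin (N + 1), K x (s x)
          ((Fin.snocEquiv (fun _ : Fin (N + 1 + 1) => S)) (a, s) x.succ) =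
          (∏ x : Fin N, K x (s x.castSucc) (s x.succ)) * K N (s (Fin.last N)) a := by
        rw [Fin.prod_univ_castSucc]
        simp only [Fin.succ_castSucc, Fin.succ_last, hc, hl, Fin.val_castSucc, Fin.val_last]
      rw [h2]
      simp only [Fin.val_castSucc, Fin.val_last]
      ring
    simp only [h1]
    rw [Finset.sum_comm]
    have h3 := ih (fun b => ∑ a, K N b a * g (N + 1) a * h a)
    calc ∑ s : Fin (N + 1) → S, ∑ a, ((∏ x : Fin (N + 1), g x (s x)) *
          ∏ x : Fin N, K x (s x.castSucc) (s x.succ)) *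
          (K N (s (Fin.last N)) a * g (N + 1) a * h a)
        = ∑ s : Fin (N + 1) → S, ((∏ x : Fin (N + 1), g x (s x)) *
          ∏ x : Fin N, K x (s x.castSucc) (s x.succ)) *
          ∑ a, (K N (s (Fin.last N)) a * g (N + 1) a * h a) := by
          apply Finset.sum_congr rfl
          intro s _
          rw [Finset.mul_sum]
      _ = ∑ b, cut_vec g K N b * ∑ a, K N b a * g (N + 1) a * h a := h3
      _ = ∑ b, ∑ a, cut_vec g K N b * (K N b a * g (N + 1) a * h a) := by
          apply Finset.sum_congr rfl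
          intro s _
          rw [Finset.mul_sum]
      _ = ∑ a, ∑ b, cut_vec g K N b * (K N b a * g (N + 1) a * h a) := Finset.sum_comm
      _ = ∑ a, cut_vec g K (N + 1) a * h a := by
          apply Finset.sum_congr rfl
          intro a _
          show _ = ((∑ s, cut_vec g K N s * K N s a) * g (N + 1) a) * h a
          rw [Finset.sum_mul, Finset.sum_mul]
          apply Finset.sum_congr rfl
          intro b _
          ring

theorem cut_blocks {S : Type} [Fintype S] (w W : S → ℂ) (M : S → S → ℂ) (l a : ℕ)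
    (g : ℕ → S → ℂ) (ha : ∀ j, j < l → ∀ s, g (a + j + 1) s = w s) :
    ∀ j, j ≤ l → ∀ s', cut_vec g (fun _ => M) (a + j + 1) s' =
      (∑ s, cut_vec g (fun _ => M) a s * MM w M j s s') * g (a + j + 1) s' := by
  intro j
  induction j with
  | zero =>
    intro _ s'
    rfl
  | succ j ih =>
    intro hj s''
    show (∑ s', cut_vec g (fun _ => M) (a + j + 1) s' * M s' s'') * g (a + (j + 1) + 1) s'' = _
    congr 1
    have h1 := ih (by omega)
    simp only [h1, ha j (by omega)]
    show _ = ∑ s, cut_vec g (fun _ => M) a s * ∑ s', MM w M j s s' * w s' * M s' s''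
    calc ∑ s', ((∑ s, cut_vec g (fun _ => M) a s * MM w M j s s') * w s') * M s' s''
        = ∑ s', ∑ s, cut_vec g (fun _ => M) a s * (MM w M j s s' * w s' * M s' s'') := by
          apply Finset.sum_congr rfl
          intro s' _
          rw [Finset.sum_mul, Finset.sum_mul]
          apply Finset.sum_congr rfl
          intro s _
          ring
      _ = ∑ s, ∑ s', cut_vec g (fun _ => M) a s * (MM w M j s s' * w s' * M s' s'') :=
          Finset.sum_comm
      _ = _ := by
          apply Finset.sum_congr rfl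
          intro s _
          rw [Finset.mul_sum]

theorem cut_vec_eq {S : Type} [Fintype S] (w W : S → ℂ) (M : S → S → ℂ) (l n : ℕ) :
    cut_vec (fun x s => w s * (if (l + 1) ∣ x then W s else 1)) (fun _ => M) (n * (l + 1)) =
      cut_vec (fun _ s => w s * W s) (fun _ => MM w M l) n := by
  induction n with
  | zero =>
    rw [Nat.zero_mul]
    funext s
    show w s * (if (l + 1) ∣ 0 then W s else 1) = w s * W s
    rw [if_pos (dvd_zero _)]
  | succ n ih =>
    funext s'
    have hidx : (n + 1) * (l + 1) = n * (l + 1) + l + 1 := by ring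
    rw [hidx]
    have h1 := cut_blocks w W M l (n * (l + 1))
      (fun x s => w s * (if (l + 1) ∣ x then W s else 1)) (by
        intro j hj s
        have : ¬ (l + 1) ∣ n * (l + 1) + j + 1 := by
          intro hd
          have h2 : (l + 1) ∣ (j + 1) := by
            have h3 : (l + 1) ∣ n * (l + 1) := Dvd.intro_left n rfl
            rw [add_assoc] at hd
            exact (Nat.dvd_add_right h3).mp hd
          have := Nat.le_of_dvd (Nat.succ_pos j) h2
          omega
        show w s * (if (l + 1) ∣ (n * (l + 1) + j + 1) then W s else 1) = w s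
        rw [if_neg this, mul_one]) l le_rfl s'
    rw [h1, ih]
    show _ = (∑ s, cut_vec (fun _ s => w s * W s) (fun _ => MM w M l) n s * MM w M l s s') *
      (w s' * W s')
    congr 1
    show w s' * (if (l + 1) ∣ (n * (l + 1) + l + 1) then W s' else 1) = w s' * W s'
    rw [if_pos (by rw [← hidx]; exact Dvd.intro_left (n + 1) rfl)]

/-- TARGET. -/
theorem cut {S : Type} [Fintype S] (w W : S → ℂ) (M : S → S → ℂ) (l n : ℕ) :
    (∑ s : Fin (n * (l + 1) + 1) → S,
      (∏ x : Fin (n * (l + 1) + 1), (w (s x) * (if (l + 1) ∣ (x : ℕ) then W (s x) else 1))) *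
        ∏ x : Fin (n * (l + 1)), M (s x.castSucc) (s x.succ)) =
    ∑ t : Fin (n + 1) → S,
      (∏ i : Fin (n + 1), (w (t i) * W (t i))) * ∏ i : Fin n, MM w M l (t i.castSucc) (t i.succ) := by
  have h1 := cut_sum (fun x s => w s * (if (l + 1) ∣ x then W s else 1)) (fun _ => M)
    (n * (l + 1)) (fun _ => 1)
  have h2 := cut_sum (fun _ s => w s * W s) (fun _ => MM w M l) n (fun _ => 1)
  rw [cut_vec_eq] at h1
  rw [← h2] at h1
  simpa only [mul_one] using h1



/-- Kronecker delta -/
noncomputable def kd {q : ℕ} (a b : Fin q) : ℂ := if a = b then 1 else 0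

theorem kd_sum {q : ℕ} (f : Fin q → ℂ) (a : Fin q) : ∑ b, f b * kd a b = f a := by simp [kd]

theorem kd_sum' {q : ℕ} (f : Fin q → ℂ) (v : Fin q) : ∑ b, f b * kd b v = f v := by simp [kd]

theorem kd_one {q : ℕ} (a : Fin q) : ∑ b, kd a b = 1 := by simp [kd]

theorem kd_zero {q : ℕ} {x y : Fin q} (h : x ≠ y) (a : Fin q) : kd x a * kd y a = 0 := by
  unfold kd
  by_cases h1 : x = a
  · by_cases h2 : y = a
    · exact absurd (h1.trans h2.symm) h
    · simp [h2]
  · simp [h1]

theorem kern_L1 {q : ℕ} (T : Fin q → Fin q → ℂ) (u v : Fin q) (huv : u ≠ v) :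
    ∑ a, ∑ b, T a b * ((1 - kd a b) * ((1 - kd a u) * (1 - kd b v))) =
      (∑ a, ∑ b, T a b) - (∑ a, T a a) - (∑ b, T u b) - (∑ a, T a v) + T u u + T v v + T u v := by
  have t1 : ∑ a, ∑ b, T a b * kd a b = ∑ a, T a a :=
    Finset.sum_congr rfl fun a _ => kd_sum (fun b => T a b) a
  have t2 : ∑ a, ∑ b, T a b * kd a u = ∑ b, T u b := by
    have h : ∀ a, ∑ b, T a b * kd a u = (∑ b, T a b) * kd a u := fun a => (Finset.sum_mul _ _ _).symm
    simp_rw [h]
    exact kd_sum' (fun a => ∑ b, T a b) u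
  have t3 : ∑ a, ∑ b, T a b * kd b v = ∑ a, T a v :=
    Finset.sum_congr rfl fun a _ => kd_sum' (fun b => T a b) v
  have t4 : ∑ a, ∑ b, T a b * kd a b * kd a u = T u u := by
    have h : ∀ a, ∑ b, T a b * kd a b * kd a u = T a a * kd a u := fun a => by
      rw [← Finset.sum_mul, kd_sum (fun b => T a b) a]
    simp_rw [h]
    exact kd_sum' (fun a => T a a) u
  have t5 : ∑ a, ∑ b, T a b * kd a b * kd b v = T v v := by
    have h : ∀ a, ∑ b, T a b * kd a b * kd b v = T a v * kd a v := fun a =>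
      kd_sum' (fun b => T a b * kd a b) v
    simp_rw [h]
    exact kd_sum' (fun a => T a v) v
  have t6 : ∑ a, ∑ b, T a b * kd a u * kd b v = T u v := by
    have h : ∀ a, ∑ b, T a b * kd a u * kd b v = T a v * kd a u := fun a =>
      kd_sum' (fun b => T a b * kd a u) v
    simp_rw [h]
    exact kd_sum' (fun a => T a v) u
  have t7 : ∑ a, ∑ b, T a b * kd a b * kd a u * kd b v = 0 := by
    have h : ∀ a, ∑ b, T a b * kd a b * kd a u * kd b v = (T a v * kd a v) * kd a u := fun a =>
      kd_sum' (fun b => T a b * kd a b * kd a u) v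
    simp_rw [h]
    rw [kd_sum' (fun a => T a v * kd a v) u]
    have : kd u v = 0 := by simp [kd, huv]
    rw [this, mul_zero]
  have e : ∀ a b, T a b * ((1 - kd a b) * ((1 - kd a u) * (1 - kd b v))) =
      T a b - T a b * kd a b - T a b * kd a u - T a b * kd b v + T a b * kd a b * kd a u +
      T a b * kd a b * kd b v + T a b * kd a u * kd b v - T a b * kd a b * kd a u * kd b v := by
    intro a b; ring
  simp_rw [e]
  simp only [Finset.sum_add_distrib, Finset.sum_sub_distrib]
  rw [t1, t2, t3, t4, t5, t6, t7, sub_zero]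

/-- the kernel function -/
noncomputable def kT {q : ℕ} (A B C : ℂ) (x y a b : Fin q) : ℂ :=
  A + B * (kd x a + kd y b) + C * (kd x b + kd y a) + kd x a * kd y b

theorem kT_sum {q : ℕ} (A B C : ℂ) (x y u v : Fin q) (hxy : x ≠ y) (huv : u ≠ v) :
    ∑ a, ∑ b, kT A B C x y a b * ((1 - kd a b) * ((1 - kd a u) * (1 - kd b v))) =
      kT (((q : ℂ) ^ 2 - 3 * q + 3) * A + (2 * q - 4) * (B + C) + 1)
        ((2 - (q : ℂ)) * B + C - 1) (B + (2 - (q : ℂ)) * C) x y u v := by
  rw [kern_L1 _ u v huv]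
  have hb : ∀ a, ∑ b, kT A B C x y a b =
      q * A + B * (q * kd x a + 1) + C * (1 + q * kd y a) + kd x a := by
    intro a
    unfold kT
    simp only [Finset.sum_add_distrib, ← Finset.mul_sum, kd_one, Finset.sum_const,
      Finset.card_univ, Fintype.card_fin, nsmul_eq_mul]
    ring
  have ha : ∀ b, ∑ a, kT A B C x y a b =
      q * A + B * (1 + q * kd y b) + C * (q * kd x b + 1) + kd y b := by
    intro b
    unfold kT
    simp only [Finset.sum_add_distrib, ← Finset.mul_sum, ← Finset.sum_mul, kd_one,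
      Finset.sum_const, Finset.card_univ, Fintype.card_fin, nsmul_eq_mul]
    ring
  have hab : ∑ a, ∑ b, kT A B C x y a b = q * (q * A) + B * (q + q) + C * (q + q) + 1 := by
    simp_rw [hb]
    simp only [Finset.sum_add_distrib, ← Finset.mul_sum, kd_one, Finset.sum_const,
      Finset.card_univ, Fintype.card_fin, nsmul_eq_mul]
    ring
  have haa : ∑ a, kT A B C x y a a = q * A + B * 2 + C * 2 := by
    unfold kT
    simp_rw [kd_zero hxy]
    simp only [Finset.sum_add_distrib, ← Finset.mul_sum, kd_one, Finset.sum_const,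
      Finset.card_univ, Fintype.card_fin, nsmul_eq_mul]
    ring
  rw [hab, haa, hb, ha]
  unfold kT
  rw [kd_zero hxy u, kd_zero hxy v]
  ring

/-- TARGET. -/
theorem kern {q : ℕ} (l : ℕ) (p p' : Fin q × Fin q) (hp : p.1 ≠ p.2) (hp' : p'.1 ≠ p'.2) :
    MM (om (q := q)) mu l p p' =
      (abc (q : ℂ) (l + 1)).1 +
      (abc (q : ℂ) (l + 1)).2.1 * ((if p.1 = p'.1 then 1 else 0) + (if p.2 = p'.2 then 1 else 0)) +
      (abc (q : ℂ) (l + 1)).2.2 * ((if p.1 = p'.2 then 1 else 0) + (if p.2 = p'.1 then 1 else 0)) +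
      (if p.1 = p'.1 then 1 else 0) * (if p.2 = p'.2 then 1 else 0) := by
  have gen : ∀ (l : ℕ) (p p' : Fin q × Fin q), p.1 ≠ p.2 → p'.1 ≠ p'.2 →
      MM (om (q := q)) mu l p p' = kT (abc (q : ℂ) (l + 1)).1 (abc (q : ℂ) (l + 1)).2.1
        (abc (q : ℂ) (l + 1)).2.2 p.1 p.2 p'.1 p'.2 := by
    intro l
    induction l with
    | zero =>
      intro p p' _ _
      show mu p p' = _
      simp only [abc, kT]
      unfold mu kd
      by_cases h1 : p.1 = p'.1 <;> by_cases h2 : p.2 = p'.2 <;> simp [h1, h2]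
    | succ l ih =>
      intro p p'' hp hp''
      have h1 : MM (om (q := q)) mu (l + 1) p p'' =
          ∑ s', MM (om (q := q)) mu l p s' * om s' * mu s' p'' := rfl
      rw [h1]
      have h2 : ∀ s' : Fin q × Fin q, MM (om (q := q)) mu l p s' * om s' * mu s' p'' =
          kT (abc (q : ℂ) (l + 1)).1 (abc (q : ℂ) (l + 1)).2.1
            (abc (q : ℂ) (l + 1)).2.2 p.1 p.2 s'.1 s'.2 *
            ((1 - kd s'.1 s'.2) * ((1 - kd s'.1 p''.1) * (1 - kd s'.2 p''.2))) := by
        intro s'
        by_cases hs : s'.1 = s'.2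
        · have e1 : om s' = 0 := by simp [om, hs]
          have e2 : kd s'.1 s'.2 = 1 := by simp [kd, hs]
          rw [e1, e2]
          ring
        · rw [ih p s' hp hs]
          have e1 : om s' = 1 := by simp [om, hs]
          have e2 : kd s'.1 s'.2 = 0 := by simp [kd, hs]
          have e3 : mu s' p'' = (1 - kd s'.1 p''.1) * (1 - kd s'.2 p''.2) := by
            unfold mu kd
            by_cases h1 : s'.1 = p''.1 <;> by_cases h2 : s'.2 = p''.2 <;> simp [h1, h2]
          rw [e1, e2, e3]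
          ring
      simp_rw [h2]
      rw [Fintype.sum_prod_type]
      rw [kT_sum _ _ _ _ _ _ _ hp hp'']
      rfl
  rw [gen l p p' hp hp']
  unfold kT kd
  ring




/-- TARGET. -/
theorem mm_prod {T : Type} [Fintype T] (m l : ℕ) (w : T → ℂ) (M : T → T → ℂ) (s s' : Fin m → T) :
    MM (fun s : Fin m → T => ∏ k, w (s k)) (fun s s' => ∏ k, M (s k) (s' k)) l s s' =
      ∏ k, MM w M l (s k) (s' k) := by
  induction l generalizing s' with
  | zero => rfl
  | succ l ih =>
    simp only [MM]
    rw [Finset.prod_univ_sum]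
    simp only [ih, ← Finset.prod_mul_distrib]
    refine Finset.sum_congr ?_ (fun _ _ => rfl)
    ext x
    simp



/-- the equivalence behind `mk` -/
noncomputable def sum_mk_equiv (X m q : ℕ) :
    (Fin q × Fin q × (Fin X → Fin m → Fin q × Fin q)) ≃ (Vx X m → Fin q) where
  toFun p := mk p.1 p.2.1 p.2.2
  invFun C := (C (Sum.inr false), C (Sum.inr true),
    fun x k => (C (Sum.inl (x, k, false)), C (Sum.inl (x, k, true))))
  left_inv p := rfl
  right_inv C := by
    funext v
    rcases v with ⟨x, k, e⟩ | e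
    · cases e <;> rfl
    · cases e <;> rfl

/-- TARGET. -/
theorem sum_mk {X m q : ℕ} (g : (Vx X m → Fin q) → ℂ) :
    ∑ C : Vx X m → Fin q, g C =
      ∑ ca : Fin q, ∑ cb : Fin q, ∑ s : Fin X → Fin m → Fin q × Fin q, g (mk ca cb s) := by
  rw [← Equiv.sum_comp (sum_mk_equiv X m q) g, Fintype.sum_prod_type]
  refine Finset.sum_congr rfl fun ca _ => ?_
  rw [Fintype.sum_prod_type]
  rfl



theorem pm_prod {α : Type} [Fintype α] (p : α → Prop) [∀ i, Decidable (p i)]
    [Decidable (∀ i, p i)] :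
    ∏ i, (if p i then (1:ℂ) else 0) = if ∀ i, p i then 1 else 0 := by
  by_cases h : ∀ i, p i
  · rw [if_pos h]
    exact Finset.prod_eq_one (fun i _ => if_pos (h i))
  · rw [if_neg h]
    push Not at h
    obtain ⟨i, hi⟩ := h
    exact Finset.prod_eq_zero (Finset.mem_univ i) (if_neg hi)

theorem pm_mul (a b : Prop) [Decidable a] [Decidable b] [Decidable (a ∧ b)] :
    (if a then (1:ℂ) else 0) * (if b then (1:ℂ) else 0) = if a ∧ b then 1 else 0 := by
  by_cases ha : a <;> by_cases hb : b <;> simp [ha, hb]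

theorem pm_rel (n m L q : ℕ) (ca cb : Fin q) (s : Fin (n * L + 1) → Fin m → Fin q × Fin q)
    (h1 : ∀ x k, (s x k).1 ≠ (s x k).2)
    (h2 : ∀ x : Fin (n * L + 1), L ∣ (x : ℕ) → Wc ca cb (s x))
    (h3 : ∀ (x : Fin (n * L)) (k : Fin m), (s x.castSucc k).1 ≠ (s x.succ k).1 ∧
      (s x.castSucc k).2 ≠ (s x.succ k).2) (u v : Vx (n * L + 1) m)
    (h : rel L (n * L + 1) m u v) : mk ca cb s u ≠ mk ca cb s v := by
  rcases u with ⟨x, k, e⟩ | b
  · rcases v with ⟨x', k', e'⟩ | b'
    · rcases h with ⟨hk, he, hx⟩ | ⟨hx, hk, he, he'⟩ | ⟨hx, hL, hk, he, he'⟩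
      · subst hk
        subst he
        have hlt : (x : ℕ) < n * L := by have := x'.2; omega
        have e1 : x = (⟨(x : ℕ), hlt⟩ : Fin (n * L)).castSucc := by
          apply Fin.ext; rfl
        have e2 : x' = (⟨(x : ℕ), hlt⟩ : Fin (n * L)).succ := by
          apply Fin.ext; simpa using hx
        have h4 := h3 ⟨(x : ℕ), hlt⟩ k
        rw [← e1, ← e2] at h4
        cases e
        · exact h4.1
        · exact h4.2
      · subst hx
        subst hk
        subst he
        subst he'
        exact h1 x k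
      · subst hx
        subst he
        subst he'
        exact (h2 x hL).1 k k' hk
    · exact h.elim
  · cases b
    · rcases v with ⟨x', k', e'⟩ | b'
      · obtain ⟨hL, hk, he⟩ := h
        subst he
        exact (h2 x' hL).2.1 k' hk
      · exact h.elim
    · rcases v with ⟨x', k', e'⟩ | b'
      · obtain ⟨hL, hk, he⟩ := h
        subst he
        exact (h2 x' hL).2.2 k' hk
      · exact h.elim

theorem pm_iff (n m L q : ℕ) (ca cb : Fin q) (s : Fin (n * L + 1) → Fin m → Fin q × Fin q) :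
    (∀ u v, (Gr n m L).Adj u v → mk ca cb s u ≠ mk ca cb s v) ↔
    ((∀ x : Fin (n * L + 1), (∀ k, (s x k).1 ≠ (s x k).2) ∧ (L ∣ (x : ℕ) → Wc ca cb (s x))) ∧
      ∀ (x : Fin (n * L)) (k : Fin m), (s x.castSucc k).1 ≠ (s x.succ k).1 ∧
      (s x.castSucc k).2 ≠ (s x.succ k).2) := by
  constructor
  · intro h
    refine ⟨fun x => ⟨fun k => ?_, fun hL => ⟨fun k k' hk => ?_, fun k hk => ?_, fun k hk => ?_⟩⟩,
      fun x k => ⟨?_, ?_⟩⟩
    · refine h (Sum.inl (x, k, false)) (Sum.inl (x, k, true)) ?_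
      rw [Gr, SimpleGraph.fromRel_adj]
      refine ⟨by simp, Or.inl (Or.inr (Or.inl ⟨rfl, rfl, rfl, rfl⟩))⟩
    · refine h (Sum.inl (x, k, true)) (Sum.inl (x, k', false)) ?_
      rw [Gr, SimpleGraph.fromRel_adj]
      refine ⟨by simp, Or.inl (Or.inr (Or.inr ⟨rfl, hL, hk, rfl, rfl⟩))⟩
    · refine h (Sum.inr false) (Sum.inl (x, k, false)) ?_
      rw [Gr, SimpleGraph.fromRel_adj]
      refine ⟨by simp, Or.inl ⟨hL, hk, rfl⟩⟩
    · refine h (Sum.inr true) (Sum.inl (x, k, true)) ?_
      rw [Gr, SimpleGraph.fromRel_adj]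
      refine ⟨by simp, Or.inl ⟨hL, hk, rfl⟩⟩
    · refine h (Sum.inl (x.castSucc, k, false)) (Sum.inl (x.succ, k, false)) ?_
      rw [Gr, SimpleGraph.fromRel_adj]
      refine ⟨?_, Or.inl (Or.inl ⟨rfl, rfl, by simp⟩)⟩
      intro h5
      have h6 := congrArg (fun p : Fin (n * L + 1) × Fin m × Bool => (p.1 : ℕ)) (Sum.inl.inj h5)
      simp at h6
    · refine h (Sum.inl (x.castSucc, k, true)) (Sum.inl (x.succ, k, true)) ?_
      rw [Gr, SimpleGraph.fromRel_adj]
      refine ⟨?_, Or.inl (Or.inl ⟨rfl, rfl, by simp⟩)⟩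
      intro h5
      have h6 := congrArg (fun p : Fin (n * L + 1) × Fin m × Bool => (p.1 : ℕ)) (Sum.inl.inj h5)
      simp at h6
  · rintro ⟨h12, h3⟩ u v huv
    rw [Gr, SimpleGraph.fromRel_adj] at huv
    rcases huv.2 with h | h
    · exact pm_rel n m L q ca cb s (fun x => (h12 x).1) (fun x => (h12 x).2) h3 u v h
    · exact (pm_rel n m L q ca cb s (fun x => (h12 x).1) (fun x => (h12 x).2) h3 v u h).symm

/-- TARGET. -/
theorem proper_mk (n m L q : ℕ) (ca cb : Fin q) (s : Fin (n * L + 1) → Fin m → Fin q × Fin q) :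
    (if (∀ u v, (Gr n m L).Adj u v → mk ca cb s u ≠ mk ca cb s v) then (1 : ℂ) else 0) =
      (∏ x : Fin (n * L + 1), ((∏ k, om (s x k)) * (if L ∣ (x : ℕ) then (if Wc ca cb (s x) then 1 else 0) else 1))) *
        ∏ x : Fin (n * L), ∏ k, mu (s x.castSucc k) (s x.succ k) := by
  have e1 : ∀ x : Fin (n * L + 1), (∏ k, om (s x k)) *
      (if L ∣ (x : ℕ) then (if Wc ca cb (s x) then (1:ℂ) else 0) else 1)
      = if ((∀ k, (s x k).1 ≠ (s x k).2) ∧ (L ∣ (x : ℕ) → Wc ca cb (s x))) then (1:ℂ) else 0 := by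
    intro x
    have a1 : (∏ k, om (s x k)) = if (∀ k, (s x k).1 ≠ (s x k).2) then (1:ℂ) else 0 :=
      pm_prod (fun k => (s x k).1 ≠ (s x k).2)
    have a2 : (if L ∣ (x : ℕ) then (if Wc ca cb (s x) then (1:ℂ) else 0) else 1)
        = if (L ∣ (x : ℕ) → Wc ca cb (s x)) then (1:ℂ) else 0 := by
      by_cases hL : L ∣ (x : ℕ) <;> by_cases hW : Wc ca cb (s x) <;> simp [hL, hW]
    rw [a1, a2, pm_mul]
  have e2 : (∏ x : Fin (n * L), ∏ k, mu (s x.castSucc k) (s x.succ k))
      = if (∀ (x : Fin (n * L)) (k : Fin m), (s x.castSucc k).1 ≠ (s x.succ k).1 ∧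
      (s x.castSucc k).2 ≠ (s x.succ k).2) then (1:ℂ) else 0 := by
    have a1 : ∀ x : Fin (n * L), (∏ k, mu (s x.castSucc k) (s x.succ k))
        = if (∀ (k : Fin m), (s x.castSucc k).1 ≠ (s x.succ k).1 ∧
      (s x.castSucc k).2 ≠ (s x.succ k).2) then (1:ℂ) else 0 := by
      intro x
      exact pm_prod (fun k => (s x.castSucc k).1 ≠ (s x.succ k).1 ∧
      (s x.castSucc k).2 ≠ (s x.succ k).2)
    simp only [a1]
    exact pm_prod (fun x : Fin (n * L) => ∀ (k : Fin m), (s x.castSucc k).1 ≠ (s x.succ k).1 ∧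
      (s x.castSucc k).2 ≠ (s x.succ k).2)
  rw [e2]
  simp only [e1]
  rw [pm_prod, pm_mul]
  by_cases h : (∀ u v, (Gr n m L).Adj u v → mk ca cb s u ≠ mk ca cb s v)
  · rw [if_pos h, if_pos ((pm_iff n m L q ca cb s).1 h)]
  · rw [if_neg h, if_neg (fun h' => h ((pm_iff n m L q ca cb s).2 h'))]




/-- proper colouring of a path with `2m` internal vertices -/
def ZPc {m q : ℕ} (ca cb : Fin q) (t : Fin m → Fin q × Fin q) : Prop :=
  (∀ k, (t k).1 ≠ (t k).2) ∧ Wc ca cb t ∧ (m = 0 → ca ≠ cb)

theorem nz_cons {m q : ℕ} (ca cb : Fin q) (p : Fin q × Fin q) (t : Fin m → Fin q × Fin q) :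
    ZPc ca cb (Fin.cons p t : Fin (m + 1) → Fin q × Fin q) ↔
      (ca ≠ p.1 ∧ p.1 ≠ p.2) ∧ ZPc p.2 cb t := by
  constructor
  · rintro ⟨h1, ⟨h2, h3, h4⟩, -⟩
    refine ⟨⟨h3 0 rfl, h1 0⟩, fun k => h1 k.succ, ⟨?_, ?_, ?_⟩, ?_⟩
    · intro k k' hk
      exact h2 k.succ k'.succ (by simp only [Fin.val_succ]; omega)
    · intro k hk
      exact h2 0 k.succ (by simp only [Fin.val_succ, Fin.val_zero]; omega)
    · intro k hk
      exact h4 k.succ (by simp only [Fin.val_succ]; omega)
    · intro hm h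
      exact h4 0 (by simp only [Fin.val_zero]; omega) h.symm
  · rintro ⟨⟨h1, h2⟩, h3, ⟨h4, h5, h6⟩, h7⟩
    refine ⟨?_, ⟨?_, ?_, ?_⟩, ?_⟩
    · intro k
      refine Fin.cases h2 (fun k => h3 k) k
    · intro k k' hk
      revert hk
      refine Fin.cases ?_ (fun k' => ?_) k'
      · intro hk
        simp only [Fin.val_zero] at hk
        omega
      · refine Fin.cases ?_ (fun k => ?_) k
        · intro hk
          exact h5 k' (by simp only [Fin.val_succ, Fin.val_zero] at hk; omega)
        · intro hk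
          exact h4 k k' (by simp only [Fin.val_succ] at hk; omega)
    · intro k hk
      revert hk
      refine Fin.cases ?_ (fun k => ?_) k
      · intro _; exact h1
      · intro hk; simp only [Fin.val_succ] at hk; omega
    · intro k hk
      revert hk
      refine Fin.cases ?_ (fun k => ?_) k
      · intro hk
        simp only [Fin.val_zero] at hk
        exact (h7 (by omega)).symm
      · intro hk
        exact h6 k (by simp only [Fin.val_succ] at hk; omega)
    · intro hm; omega

theorem nz_sum_ne {q : ℕ} (x : Fin q) (g : Fin q → ℂ) :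
    ∑ y : Fin q, (if x ≠ y then g y else 0) = (∑ y, g y) - g x := by
  have h1 : ∀ y, (if x ≠ y then g y else 0) = g y - (if x = y then g y else 0) := by
    intro y
    by_cases h : x = y
    · rw [if_neg (not_not.2 h), if_pos h, sub_self]
    · rw [if_pos h, if_neg h, sub_zero]
  rw [Finset.sum_congr rfl fun y _ => h1 y, Finset.sum_sub_distrib, Finset.sum_ite_eq]
  simp

theorem nz_ind {q : ℕ} (x : Fin q) : ∑ y : Fin q, (if y = x then (1 : ℂ) else 0) = 1 := by
  rw [Finset.sum_ite_eq']; simp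

theorem nz_sum (m q : ℕ) : ∀ ca cb : Fin q,
    (q : ℂ) * ∑ t : Fin m → Fin q × Fin q, (if ZPc ca cb t then (1 : ℂ) else 0) =
      ((q : ℂ) - 1) ^ (2 * m + 1) + (1 - q * if ca = cb then 1 else 0) := by
  induction m with
  | zero =>
    intro ca cb
    rw [Fintype.sum_unique]
    by_cases h : ca = cb
    · rw [if_neg, if_pos h]
      · ring
      · rintro ⟨-, -, h3⟩; exact h3 rfl h
    · rw [if_pos, if_neg h]
      · ring
      · exact ⟨fun k => k.elim0, ⟨fun k => k.elim0, fun k => k.elim0, fun k => k.elim0⟩,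
          fun _ => h⟩
  | succ m ih =>
    intro ca cb
    rw [← (Fin.consEquiv (fun _ : Fin (m + 1) => Fin q × Fin q)).sum_comp, Fintype.sum_prod_type]
    have h1 : ∀ (p : Fin q × Fin q) (t : Fin m → Fin q × Fin q),
        (if ZPc ca cb ((Fin.consEquiv (fun _ : Fin (m + 1) => Fin q × Fin q)) (p, t)) then (1 : ℂ)
          else 0) = (if ca ≠ p.1 then (if p.1 ≠ p.2 then 1 else 0) else 0) *
          (if ZPc p.2 cb t then (1 : ℂ) else 0) := by
      intro p t
      have h2 : ZPc ca cb ((Fin.consEquiv (fun _ : Fin (m + 1) => Fin q × Fin q)) (p, t)) ↔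
        (ca ≠ p.1 ∧ p.1 ≠ p.2) ∧ ZPc p.2 cb t := nz_cons ca cb p t
      by_cases a1 : ca ≠ p.1
      · by_cases a2 : p.1 ≠ p.2
        · by_cases a3 : ZPc p.2 cb t
          · rw [if_pos (h2.2 ⟨⟨a1, a2⟩, a3⟩), if_pos a1, if_pos a2, if_pos a3, one_mul]
          · rw [if_neg (fun h => a3 (h2.1 h).2), if_neg a3, mul_zero]
        · rw [if_neg (fun h => a2 (h2.1 h).1.2), if_pos a1, if_neg a2, zero_mul]
      · rw [if_neg (fun h => a1 (h2.1 h).1.1), if_neg a1, zero_mul]
    rw [Finset.sum_congr rfl fun p _ => Finset.sum_congr rfl fun t _ => h1 p t]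
    rw [Finset.mul_sum]
    have h3 : ∀ p : Fin q × Fin q, (q : ℂ) * ∑ t : Fin m → Fin q × Fin q,
        (if ca ≠ p.1 then (if p.1 ≠ p.2 then (1 : ℂ) else 0) else 0) *
          (if ZPc p.2 cb t then (1 : ℂ) else 0) =
        if ca ≠ p.1 then (if p.1 ≠ p.2 then (((q : ℂ) - 1) ^ (2 * m + 1) +
          (1 - q * if p.2 = cb then 1 else 0)) else 0) else 0 := by
      intro p
      rw [← Finset.mul_sum, ← mul_assoc, mul_comm (q : ℂ), mul_assoc, ih]
      by_cases a1 : ca ≠ p.1
      · by_cases a2 : p.1 ≠ p.2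
        · rw [if_pos a1, if_pos a2, if_pos a1, if_pos a2, one_mul]
        · rw [if_pos a1, if_neg a2, if_pos a1, if_neg a2, zero_mul]
      · rw [if_neg a1, if_neg a1, zero_mul]
    rw [Finset.sum_congr rfl fun p _ => h3 p, Fintype.sum_prod_type]
    have h4 : ∀ x : Fin q, (∑ y : Fin q, if ca ≠ x then (if x ≠ y then (((q : ℂ) - 1) ^ (2 * m + 1) +
          (1 - q * if y = cb then 1 else 0)) else 0) else 0) =
        if ca ≠ x then (((q : ℂ) - 1) * (((q : ℂ) - 1) ^ (2 * m + 1) + 1) - q +
          q * if x = cb then 1 else 0) else 0 := by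
      intro x
      by_cases a1 : ca ≠ x
      · simp only [if_pos a1]
        rw [nz_sum_ne x (fun y => (((q : ℂ) - 1) ^ (2 * m + 1) +
          (1 - q * if y = cb then 1 else 0)))]
        rw [Finset.sum_add_distrib, Finset.sum_sub_distrib, ← Finset.mul_sum, nz_ind]
        simp only [Finset.sum_const, Finset.card_univ, Fintype.card_fin, nsmul_eq_mul]
        ring
      · simp only [if_neg a1, Finset.sum_const_zero]
    rw [Finset.sum_congr rfl fun x _ => h4 x]
    rw [nz_sum_ne ca (fun x => (((q : ℂ) - 1) * (((q : ℂ) - 1) ^ (2 * m + 1) + 1) - q +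
          q * if x = cb then 1 else 0))]
    rw [Finset.sum_add_distrib, ← Finset.mul_sum, nz_ind]
    simp only [Finset.sum_const, Finset.card_univ, Fintype.card_fin, nsmul_eq_mul]
    ring

theorem nz_Fp (n m q : ℕ) (hm : 1 ≤ m) (ca cb : Fin q) (s : Fin (n + 1) → Fin m → Fin q × Fin q) :
    Fp n m (fun _ => 0) (fun u v => mk ca cb s u = mk ca cb s v) =
      ∏ x, (if ZPc ca cb (s x) then (1 : ℂ) else 0) := by
  have hdl : ∀ a b c d : Prop, dl 0 a b c d := by
    intro a b c d
    refine ⟨?_, ?_, ?_, ?_⟩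
    · rintro (h | h) <;> exact absurd h (by decide)
    · rintro (h | h) <;> exact absurd h (by decide)
    · intro h; exact absurd h (by decide)
    · intro h; exact absurd h (by decide)
  by_cases h : ∀ x, ZPc ca cb (s x)
  · rw [Finset.prod_eq_one fun x _ => if_pos (h x)]
    unfold Fp
    rw [if_pos]
    refine ⟨⟨?_, ?_, ?_, ?_⟩, fun ik => hdl _ _ _ _⟩
    · exact fun x k => (h x).1 k
    · exact fun x k k' hk => (h x).2.1.1 k k' hk
    · exact fun x k hk => (h x).2.1.2.1 k hk
    · exact fun x k hk => (h x).2.1.2.2 k hk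
  · push Not at h
    obtain ⟨x, hx⟩ := h
    rw [Finset.prod_eq_zero (Finset.mem_univ x) (if_neg hx)]
    unfold Fp
    rw [if_neg]
    rintro ⟨⟨h1, h2, h3, h4⟩, -⟩
    exact hx ⟨h1 x, ⟨h2 x, h3 x, h4 x⟩, fun h0 => by omega⟩

/-- TARGET. -/
theorem n_zero (n m q : ℕ) (hm : 1 ≤ m) :
    (q : ℂ) ^ (n + 1) * ∑ C : Vx (n + 1) m → Fin q, Fp n m (fun _ => 0) (fun u v => C u = C v) =
      q * (((q : ℂ) - 1) ^ (2 * m + 1) - ((q : ℂ) - 1)) ^ (n + 1) +
      q * ((q : ℂ) - 1) * (((q : ℂ) - 1) ^ (2 * m + 1) + 1) ^ (n + 1) := by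
  rw [sum_mk, Finset.mul_sum]
  have h1 : ∀ ca cb : Fin q, (q : ℂ) ^ (n + 1) * ∑ s : Fin (n + 1) → Fin m → Fin q × Fin q,
      Fp n m (fun _ => 0) (fun u v => mk ca cb s u = mk ca cb s v) =
      (((q : ℂ) - 1) ^ (2 * m + 1) + 1) ^ (n + 1) +
        ((((q : ℂ) - 1) ^ (2 * m + 1) - ((q : ℂ) - 1)) ^ (n + 1) -
          (((q : ℂ) - 1) ^ (2 * m + 1) + 1) ^ (n + 1)) * (if cb = ca then 1 else 0) := by
    intro ca cb
    have h5 := Fintype.sum_pow (fun t : Fin m → Fin q × Fin q =>
      if ZPc ca cb t then (1 : ℂ) else 0) (n + 1)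
    rw [Finset.sum_congr rfl fun s _ => nz_Fp n m q hm ca cb s]
    refine Eq.trans (congrArg (fun w => (q : ℂ) ^ (n + 1) * w) h5.symm) ?_
    rw [← mul_pow, nz_sum]
    by_cases h : ca = cb
    · rw [if_pos h, if_pos h.symm]
      ring
    · rw [if_neg h, if_neg (Ne.symm h)]
      ring
  have h2 : ∀ ca : Fin q, (q : ℂ) ^ (n + 1) * ∑ cb : Fin q, ∑ s : Fin (n + 1) → Fin m → Fin q × Fin q,
      Fp n m (fun _ => 0) (fun u v => mk ca cb s u = mk ca cb s v) =
      q * (((q : ℂ) - 1) ^ (2 * m + 1) + 1) ^ (n + 1) +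
        ((((q : ℂ) - 1) ^ (2 * m + 1) - ((q : ℂ) - 1)) ^ (n + 1) -
          (((q : ℂ) - 1) ^ (2 * m + 1) + 1) ^ (n + 1)) := by
    intro ca
    rw [Finset.mul_sum, Finset.sum_congr rfl fun cb _ => h1 ca cb, Finset.sum_add_distrib,
      ← Finset.mul_sum, nz_ind]
    simp only [Finset.sum_const, Finset.card_univ, Fintype.card_fin, nsmul_eq_mul]
    ring
  rw [Finset.sum_congr rfl fun ca _ => h2 ca]
  simp only [Finset.sum_const, Finset.card_univ, Fintype.card_fin, nsmul_eq_mul]
  ring




end Pool.Agent.Helper759.Chrom
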