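import Mathlib
import Pool.Agent.Helper759.ChromDefs
set_option autoImplicit false
open Classical Filter Topology

namespace Pool.Agent.Helper759.Chrom

/-- TARGET. -/
theorem hurw (F : ℕ → ℂ → ℂ) (f : ℂ → ℂ) (z₁ : ℂ) (r₀ : ℝ) (hr₀ : 0 < r₀)
    (hF : ∀ᶠ n in atTop, DifferentiableOn ℂ (F n) (Metric.ball z₁ r₀))
    (hf : DifferentiableOn ℂ f (Metric.ball z₁ r₀))
    (hc : ∀ ξ ∈ Metric.ball z₁ r₀, Tendsto (fun p : ℕ × ℂ => F p.1 p.2) (atTop ×ˢ 𝓝 ξ) (𝓝 (f ξ)))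
    (h0 : f z₁ = 0) (hne : ¬ ∀ᶠ z in 𝓝 z₁, f z = 0) :
    ∀ ε > 0, ∀ᶠ n in atTop, ∃ z ∈ Metric.ball z₁ ε, F n z = 0 := by
  intro ε hε
  have hz₁ : z₁ ∈ Metric.ball z₁ r₀ := Metric.mem_ball_self hr₀
  have han : AnalyticAt ℂ f z₁ := hf.analyticAt (Metric.ball_mem_nhds z₁ hr₀)
  have hiso := han.eventually_eq_zero_or_eventually_ne_zero.resolve_left hne
  rw [eventually_nhdsWithin_iff, Metric.eventually_nhds_iff_ball] at hiso
  obtain ⟨ρ, hρ, hiso⟩ := hiso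
  set r : ℝ := min ρ (min ε r₀) / 2 with hr
  have hm : 0 < min ρ (min ε r₀) := lt_min hρ (lt_min hε hr₀)
  have hr0 : 0 < r := by positivity
  have hrρ : r < ρ := by have := min_le_left ρ (min ε r₀); linarith
  have hrε : r < ε := by
    have := min_le_right ρ (min ε r₀)
    have := min_le_left ε r₀
    linarith
  have hrr : r < r₀ := by
    have := min_le_right ρ (min ε r₀)
    have := min_le_right ε r₀
    linarith
  have hsub : Metric.closedBall z₁ r ⊆ Metric.ball z₁ r₀ := Metric.closedBall_subset_ball hrr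
  have hsub2 : Metric.sphere z₁ r ⊆ Metric.ball z₁ r₀ :=
    Metric.sphere_subset_closedBall.trans hsub
  obtain ⟨w, hw, hmin⟩ := (isCompact_sphere z₁ r).exists_isMinOn
    (NormedSpace.sphere_nonempty.mpr hr0.le) ((hf.continuousOn.mono hsub2).norm)
  set δ : ℝ := ‖f w‖ with hδ
  have hδ0 : 0 < δ := by
    rw [hδ, norm_pos_iff]
    apply hiso w
    · rw [Metric.mem_ball, Metric.mem_sphere.mp hw]; exact hrρ
    · intro h
      have := Metric.mem_sphere.mp hw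
      rw [h, dist_self] at this
      exact hr0.ne this
  have h1 : ∀ᶠ n in atTop, ∀ z ∈ Metric.sphere z₁ r, δ / 2 < ‖F n z‖ := by
    refine (isCompact_sphere z₁ r).induction_on
      (p := fun s => ∀ᶠ n in atTop, ∀ z ∈ s, δ / 2 < ‖F n z‖) ?_ ?_ ?_ ?_
    · exact Eventually.of_forall (fun n z hz => absurd hz (Set.notMem_empty z))
    · intro s t hst ht
      exact ht.mono (fun n hn z hz => hn z (hst hz))
    · intro s t hs ht
      filter_upwards [hs, ht] with n h1 h2 z hz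
      rcases hz with hz | hz
      · exact h1 z hz
      · exact h2 z hz
    · intro ξ hξ
      have h2 := (hc ξ (hsub2 hξ)).norm
      have h3 : δ / 2 < ‖f ξ‖ := by
        have : δ ≤ ‖f ξ‖ := hmin hξ
        linarith
      have h4 := h2.eventually (lt_mem_nhds h3)
      rw [eventually_prod_iff] at h4
      obtain ⟨pa, ha, pb, hb, h5⟩ := h4
      refine ⟨{z | pb z}, mem_nhdsWithin_of_mem_nhds hb, ?_⟩
      filter_upwards [ha] with n hn z hz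
      exact h5 hn hz
  have h2 : ∀ᶠ n in atTop, ‖F n z₁‖ < δ / 2 := by
    have h3 : Tendsto (fun n : ℕ => (n, z₁)) atTop (atTop ×ˢ 𝓝 z₁) :=
      tendsto_id.prodMk (tendsto_const_nhds)
    have h4 := ((hc z₁ hz₁).comp h3).norm
    rw [h0, norm_zero] at h4
    exact h4.eventually (gt_mem_nhds (by positivity))
  filter_upwards [h1, h2, hF] with n h1 h2 hFn
  by_contra hcon
  push Not at hcon
  have hnz : ∀ z ∈ Metric.closedBall z₁ r, F n z ≠ 0 := fun z hz =>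
    hcon z (Metric.closedBall_subset_ball hrε hz)
  have hd : DiffContOnCl ℂ (fun z => (F n z)⁻¹) (Metric.ball z₁ r) := by
    apply DifferentiableOn.diffContOnCl
    rw [closure_ball z₁ hr0.ne']
    exact (hFn.mono hsub).inv hnz
  have h3 : ‖(F n z₁)⁻¹‖ ≤ (δ / 2)⁻¹ := by
    refine Complex.norm_le_of_forall_mem_frontier_norm_le Metric.isBounded_ball hd ?_
      (subset_closure (Metric.mem_ball_self hr0))
    intro z hz
    rw [frontier_ball z₁ hr0.ne'] at hz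
    rw [norm_inv]
    exact inv_anti₀ (by positivity) (h1 z hz).le
  rw [norm_inv] at h3
  have h4 : 0 < ‖F n z₁‖ := norm_pos_iff.mpr (hnz z₁ (Metric.mem_closedBall_self hr0.le))
  have h5 := (inv_le_inv₀ h4 (by positivity)).mp h3
  linarith



theorem cf_lim_abc_640 (z : ℂ) (h0 : z ≠ 0) (h1 : z - 1 ≠ 0) (h2 : z - 2 ≠ 0) (l : ℕ) :
    (abc z l).2.1 + (abc z l).2.2 = ((3 - z) ^ l - 1) / (z - 2) ∧
    (abc z l).2.1 - (abc z l).2.2 = ((1 - z) ^ l - 1) / z ∧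
    (abc z l).1 = (z ^ 2 - 3 * z + 3) ^ l / (z * (z - 1)) - 2 * (3 - z) ^ l / (z * (z - 2))
      + 1 / ((z - 1) * (z - 2)) := by
  induction l with
  | zero =>
    refine ⟨by simp [abc], by simp [abc], ?_⟩
    simp only [abc, pow_zero]
    field_simp
    ring
  | succ l ih =>
    obtain ⟨hs, hd, ha⟩ := ih
    refine ⟨?_, ?_, ?_⟩
    · have e : (abc z (l + 1)).2.1 + (abc z (l + 1)).2.2
          = (3 - z) * ((abc z l).2.1 + (abc z l).2.2) - 1 := by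
        simp only [abc]; ring
      rw [e, hs, pow_succ]
      field_simp
      ring
    · have e : (abc z (l + 1)).2.1 - (abc z (l + 1)).2.2
          = (1 - z) * ((abc z l).2.1 - (abc z l).2.2) - 1 := by
        simp only [abc]; ring
      rw [e, hd, pow_succ]
      field_simp
      ring
    · have e : (abc z (l + 1)).1
          = (z ^ 2 - 3 * z + 3) * (abc z l).1 + (2 * z - 4) * ((abc z l).2.1 + (abc z l).2.2) + 1 := by
        simp only [abc]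
      rw [e, hs, ha, pow_succ, pow_succ]
      field_simp
      ring

theorem cf_lim_pow_640 (ξ : ℂ) (g : ℂ → ℂ) (hg : ContinuousAt g ξ) (h : ‖g ξ‖ < 1) :
    Tendsto (fun p : ℕ × ℂ => g p.2 ^ (p.1 + 1)) (atTop ×ˢ 𝓝 ξ) (𝓝 0) := by
  obtain ⟨r, hr1, hr2⟩ := exists_between h
  have hr0 : 0 ≤ r := (norm_nonneg _).trans hr1.le
  have hev : ∀ᶠ z in 𝓝 ξ, ‖g z‖ < r := hg.norm.eventually_lt continuousAt_const hr1
  have h1 : ∀ᶠ p : ℕ × ℂ in atTop ×ˢ 𝓝 ξ, ‖g p.2 ^ (p.1 + 1)‖ ≤ r ^ (p.1 + 1) := by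
    filter_upwards [tendsto_snd.eventually hev] with p hp
    rw [norm_pow]
    exact pow_le_pow_left₀ (norm_nonneg _) hp.le _
  have h2 : Tendsto (fun p : ℕ × ℂ => r ^ (p.1 + 1)) (atTop ×ˢ 𝓝 ξ) (𝓝 0) := by
    have h3 : Tendsto (fun n : ℕ => r ^ (n + 1)) atTop (𝓝 0) :=
      (tendsto_pow_atTop_nhds_zero_of_lt_one hr0 hr2).comp (tendsto_add_atTop_nat 1)
    exact h3.comp tendsto_fst
  exact squeeze_zero_norm' h1 h2

theorem cf_lim_mul_640 (ξ : ℂ) (u g : ℂ → ℂ) (hu : ContinuousAt u ξ) (hg : ContinuousAt g ξ)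
    (h : ‖g ξ‖ < 1) :
    Tendsto (fun p : ℕ × ℂ => u p.2 * g p.2 ^ (p.1 + 1)) (atTop ×ˢ 𝓝 ξ) (𝓝 0) := by
  have h1 : Tendsto (fun p : ℕ × ℂ => u p.2) (atTop ×ˢ 𝓝 ξ) (𝓝 (u ξ)) :=
    hu.tendsto.comp tendsto_snd
  have := h1.mul (cf_lim_pow_640 ξ g hg h)
  rwa [mul_zero] at this

/-- TARGET. -/
theorem cf_lim (ξ : ℂ) (h1 : 1 < ‖ξ - 1‖) (h2 : ‖ξ - 1‖ < ‖ξ ^ 2 - 3 * ξ + 3‖)
    (h3 : ‖ξ - 3‖ < ‖ξ ^ 2 - 3 * ξ + 3‖) (f : Fin 6) :
    Tendsto (fun p : ℕ × ℂ => cf p.2 (p.1 + 1) f * (p.2 * (p.2 - 1) / (p.2 ^ 2 - 3 * p.2 + 3) ^ (p.1 + 1)))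
      (atTop ×ˢ 𝓝 ξ) (𝓝 (if f = 0 then 1 else 0)) := by
  have z0 : ξ ≠ 0 := by
    rintro rfl
    simp at h1
  have z1 : ξ - 1 ≠ 0 := by
    intro h
    rw [h] at h1
    simp at h1
    linarith
  have z2 : ξ - 2 ≠ 0 := by
    intro h
    have : ξ - 1 = 1 := by linear_combination h
    rw [this] at h1
    simp at h1
  have hA : 0 < ‖ξ ^ 2 - 3 * ξ + 3‖ := by linarith
  have zA : ξ ^ 2 - 3 * ξ + 3 ≠ 0 := norm_pos_iff.1 hA
  have g1 : ‖(1 : ℂ) / (ξ ^ 2 - 3 * ξ + 3)‖ < 1 := by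
    rw [norm_div, div_lt_one hA, norm_one]
    linarith
  have g2 : ‖(3 - ξ) / (ξ ^ 2 - 3 * ξ + 3)‖ < 1 := by
    rw [norm_div, div_lt_one hA, norm_sub_rev]
    exact h3
  have g3 : ‖(1 - ξ) / (ξ ^ 2 - 3 * ξ + 3)‖ < 1 := by
    rw [norm_div, div_lt_one hA, norm_sub_rev]
    exact h2
  have c1 : ContinuousAt (fun z : ℂ => (1 : ℂ) / (z ^ 2 - 3 * z + 3)) ξ :=
    ContinuousAt.div (by fun_prop) (by fun_prop) zA
  have c2 : ContinuousAt (fun z : ℂ => (3 - z) / (z ^ 2 - 3 * z + 3)) ξ :=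
    ContinuousAt.div (by fun_prop) (by fun_prop) zA
  have c3 : ContinuousAt (fun z : ℂ => (1 - z) / (z ^ 2 - 3 * z + 3)) ξ :=
    ContinuousAt.div (by fun_prop) (by fun_prop) zA
  have ev : ∀ᶠ p : ℕ × ℂ in atTop ×ˢ 𝓝 ξ, p.2 ≠ 0 ∧ p.2 - 1 ≠ 0 ∧ p.2 - 2 ≠ 0 ∧
      p.2 ^ 2 - 3 * p.2 + 3 ≠ 0 := by
    have e0 : ∀ᶠ z : ℂ in 𝓝 ξ, z ≠ 0 := (continuousAt_id (x := ξ)).eventually_ne z0
    have e1 : ∀ᶠ z : ℂ in 𝓝 ξ, z - 1 ≠ 0 :=
      (by fun_prop : ContinuousAt (fun z : ℂ => z - 1) ξ).eventually_ne z1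
    have e2 : ∀ᶠ z : ℂ in 𝓝 ξ, z - 2 ≠ 0 :=
      (by fun_prop : ContinuousAt (fun z : ℂ => z - 2) ξ).eventually_ne z2
    have e3 : ∀ᶠ z : ℂ in 𝓝 ξ, z ^ 2 - 3 * z + 3 ≠ 0 :=
      (by fun_prop : ContinuousAt (fun z : ℂ => z ^ 2 - 3 * z + 3) ξ).eventually_ne zA
    exact tendsto_snd.eventually (e0.and (e1.and (e2.and e3)))
  have lb1 := cf_lim_mul_640 ξ (fun z => z * (z - 1) / 2 * (1 / (z - 2)))
    (fun z : ℂ => (3 - z) / (z ^ 2 - 3 * z + 3))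
    (ContinuousAt.mul (by fun_prop) (ContinuousAt.div (by fun_prop) (by fun_prop) z2)) c2 g2
  have lb2 := cf_lim_mul_640 ξ (fun z => z * (z - 1) / 2 * (1 / (z - 2)))
    (fun z : ℂ => (1 : ℂ) / (z ^ 2 - 3 * z + 3))
    (ContinuousAt.mul (by fun_prop) (ContinuousAt.div (by fun_prop) (by fun_prop) z2)) c1 g1
  have lb3 := cf_lim_mul_640 ξ (fun z => z * (z - 1) / 2 * (1 / z))
    (fun z : ℂ => (1 - z) / (z ^ 2 - 3 * z + 3))
    (ContinuousAt.mul (by fun_prop) (ContinuousAt.div (by fun_prop) (by fun_prop) z0)) c3 g3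
  have lb4 := cf_lim_mul_640 ξ (fun z => z * (z - 1) / 2 * (1 / z))
    (fun z : ℂ => (1 : ℂ) / (z ^ 2 - 3 * z + 3))
    (ContinuousAt.mul (by fun_prop) (ContinuousAt.div (by fun_prop) (by fun_prop) z0)) c1 g1
  have la1 := cf_lim_mul_640 ξ (fun z => 2 * (z - 1) / (z - 2))
    (fun z : ℂ => (3 - z) / (z ^ 2 - 3 * z + 3))
    (ContinuousAt.div (by fun_prop) (by fun_prop) z2) c2 g2
  have la2 := cf_lim_mul_640 ξ (fun z => z / (z - 2))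
    (fun z : ℂ => (1 : ℂ) / (z ^ 2 - 3 * z + 3))
    (ContinuousAt.div (by fun_prop) (by fun_prop) z2) c1 g1
  have l5 := cf_lim_mul_640 ξ (fun z => z * (z - 1))
    (fun z : ℂ => (1 : ℂ) / (z ^ 2 - 3 * z + 3)) (by fun_prop) c1 g1
  have hB : Tendsto (fun p : ℕ × ℂ => (abc p.2 (p.1 + 1)).2.1 *
      (p.2 * (p.2 - 1) / (p.2 ^ 2 - 3 * p.2 + 3) ^ (p.1 + 1))) (atTop ×ˢ 𝓝 ξ) (𝓝 0) := by
    have := ((lb1.sub lb2).add (lb3.sub lb4))
    simp only [sub_zero, add_zero] at this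
    refine this.congr' ?_
    filter_upwards [ev] with p hp
    obtain ⟨p0, p1, p2, pA⟩ := hp
    obtain ⟨hs, hd, -⟩ := cf_lim_abc_640 p.2 p0 p1 p2 (p.1 + 1)
    have hb : (abc p.2 (p.1 + 1)).2.1 = (((3 - p.2) ^ (p.1 + 1) - 1) / (p.2 - 2)
        + ((1 - p.2) ^ (p.1 + 1) - 1) / p.2) / 2 := by
      linear_combination (hs + hd) / 2
    rw [hb, div_pow, div_pow, div_pow, one_pow]
    field_simp
  have hC : Tendsto (fun p : ℕ × ℂ => (abc p.2 (p.1 + 1)).2.2 *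
      (p.2 * (p.2 - 1) / (p.2 ^ 2 - 3 * p.2 + 3) ^ (p.1 + 1))) (atTop ×ˢ 𝓝 ξ) (𝓝 0) := by
    have := ((lb1.sub lb2).sub (lb3.sub lb4))
    simp only [sub_zero] at this
    refine this.congr' ?_
    filter_upwards [ev] with p hp
    obtain ⟨p0, p1, p2, pA⟩ := hp
    obtain ⟨hs, hd, -⟩ := cf_lim_abc_640 p.2 p0 p1 p2 (p.1 + 1)
    have hb : (abc p.2 (p.1 + 1)).2.2 = (((3 - p.2) ^ (p.1 + 1) - 1) / (p.2 - 2)
        - ((1 - p.2) ^ (p.1 + 1) - 1) / p.2) / 2 := by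
      linear_combination (hs - hd) / 2
    rw [hb, div_pow, div_pow, div_pow, one_pow]
    field_simp
  have hA' : Tendsto (fun p : ℕ × ℂ => (abc p.2 (p.1 + 1)).1 *
      (p.2 * (p.2 - 1) / (p.2 ^ 2 - 3 * p.2 + 3) ^ (p.1 + 1))) (atTop ×ˢ 𝓝 ξ) (𝓝 1) := by
    have := ((tendsto_const_nhds (x := (1 : ℂ)) (f := (atTop : Filter ℕ) ×ˢ 𝓝 ξ)).sub la1).add la2
    simp only [sub_zero, add_zero] at this
    refine this.congr' ?_
    filter_upwards [ev] with p hp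
    obtain ⟨p0, p1, p2, pA⟩ := hp
    obtain ⟨-, -, ha⟩ := cf_lim_abc_640 p.2 p0 p1 p2 (p.1 + 1)
    rw [ha, div_pow, div_pow, one_pow]
    have hQ : (p.2 ^ 2 - 3 * p.2 + 3) ^ (p.1 + 1) ≠ 0 := pow_ne_zero _ pA
    generalize (p.2 ^ 2 - 3 * p.2 + 3) ^ (p.1 + 1) = Q at hQ ⊢
    generalize (3 - p.2) ^ (p.1 + 1) = T
    field_simp
  have hO : Tendsto (fun p : ℕ × ℂ => (1 : ℂ) *
      (p.2 * (p.2 - 1) / (p.2 ^ 2 - 3 * p.2 + 3) ^ (p.1 + 1))) (atTop ×ˢ 𝓝 ξ) (𝓝 0) := by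
    refine l5.congr' ?_
    filter_upwards [ev] with p hp
    obtain ⟨p0, p1, p2, pA⟩ := hp
    rw [div_pow, one_pow]
    ring
  fin_cases f
  · simpa [cf] using hA'
  · simpa [cf] using hB
  · simpa [cf] using hB
  · simpa [cf] using hC
  · simpa [cf] using hC
  · simpa [cf] using hO



/-- TARGET. -/
theorem pow_lim {α : Type} (l : Filter α) (x : α → ℂ) (s : α → ℕ) (c : ℂ)
    (hx : Tendsto x l (𝓝 0)) (hsx : Tendsto (fun a => (s a : ℂ) * x a) l (𝓝 c)) :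
    Tendsto (fun a => (1 + x a) ^ (s a)) l (𝓝 (Complex.exp c)) := by
  have hsmall : ∀ᶠ a in l, ‖x a‖ < 1 / 2 := by
    have := (tendsto_zero_iff_norm_tendsto_zero.1 hx)
    exact this.eventually (gt_mem_nhds (by norm_num))
  have h0 : Tendsto (fun a => (s a : ℂ) * (Complex.log (1 + x a) - x a)) l (𝓝 0) := by
    rw [tendsto_zero_iff_norm_tendsto_zero]
    have hb : Tendsto (fun a => ‖(s a : ℂ) * x a‖ * ‖x a‖) l (𝓝 0) := by
      have := hsx.norm.mul hx.norm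
      simpa using this
    refine squeeze_zero' (Eventually.of_forall fun a => norm_nonneg _) ?_ hb
    filter_upwards [hsmall] with a ha
    rw [norm_mul, norm_mul, mul_assoc]
    apply mul_le_mul_of_nonneg_left _ (norm_nonneg _)
    have h1 := Complex.norm_log_one_add_sub_self_le (z := x a) (by linarith)
    refine h1.trans ?_
    have h2 : (1 - ‖x a‖)⁻¹ ≤ 2 := by
      rw [inv_le_comm₀ (by linarith) (by norm_num)]
      linarith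
    have h3 : 0 ≤ ‖x a‖ ^ 2 := by positivity
    nlinarith
  have h1 : Tendsto (fun a => (s a : ℂ) * Complex.log (1 + x a)) l (𝓝 c) := by
    have := hsx.add h0
    rw [add_zero] at this
    refine this.congr fun a => by ring
  have h2 := (Complex.continuous_exp.tendsto c).comp h1
  refine h2.congr' ?_
  filter_upwards [hsmall] with a ha
  have hne : (1 : ℂ) + x a ≠ 0 := by
    intro h
    have : x a = -1 := by linear_combination h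
    rw [this] at ha
    norm_num at ha
  simp only [Function.comp_apply]
  rw [Complex.exp_nat_mul, Complex.exp_log hne]




/-- TARGET. -/
theorem th_conv (z₀ : ℂ) (h : 1 < ‖z₀ - 1‖) (m : ℕ → ℕ) (hm : Tendsto m atTop atTop)
    (s : ℕ → ℕ) (ω : ℂ)
    (hs : Tendsto (fun j => (s j : ℂ) / (z₀ - 1) ^ (2 * m j + 1)) atTop (𝓝 ω)) (ξ : ℂ) :
    Tendsto (fun p : ℕ × ℂ =>
      (1 - (z₀ + p.2 / ((2 * m p.1 + 1 : ℕ) : ℂ)) /
        ((z₀ + p.2 / ((2 * m p.1 + 1 : ℕ) : ℂ) - 1) ^ (2 * m p.1 + 1) + 1)) ^ (s p.1))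
      (atTop ×ˢ 𝓝 ξ) (𝓝 (Complex.exp (-(z₀ * ω * Complex.exp (-(ξ / (z₀ - 1))))))) := by
  have hd : z₀ - 1 ≠ 0 := by
    intro h0
    rw [h0, norm_zero] at h
    linarith
  set d : ℂ := z₀ - 1 with hdd
  set F : Filter (ℕ × ℂ) := atTop ×ˢ 𝓝 ξ with hF
  have hP : Tendsto (fun j : ℕ => 2 * m j + 1) atTop atTop := by
    apply tendsto_atTop_mono (f := m) _ hm
    intro j
    omega
  have hP1 : Tendsto (fun p : ℕ × ℂ => 2 * m p.1 + 1) F atTop := hP.comp tendsto_fst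
  have hζ : Tendsto (fun p : ℕ × ℂ => p.2) F (𝓝 ξ) := tendsto_snd
  have hPinv : Tendsto (fun p : ℕ × ℂ => (((2 * m p.1 + 1 : ℕ) : ℂ))⁻¹) F (𝓝 0) :=
    (tendsto_inv_atTop_nhds_zero_nat (𝕜 := ℂ)).comp hP1
  have hPne : ∀ p : ℕ × ℂ, (((2 * m p.1 + 1 : ℕ) : ℂ)) ≠ 0 := by
    intro p
    exact Nat.cast_ne_zero.2 (by omega)
  have hq : Tendsto (fun p : ℕ × ℂ => p.2 / ((2 * m p.1 + 1 : ℕ) : ℂ)) F (𝓝 0) := by
    have := hζ.mul hPinv
    rw [mul_zero] at this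
    exact this
  have hz : Tendsto (fun p : ℕ × ℂ => z₀ + p.2 / ((2 * m p.1 + 1 : ℕ) : ℂ)) F (𝓝 z₀) := by
    have := hq.const_add z₀
    rwa [add_zero] at this
  have hE : Tendsto (fun p : ℕ × ℂ => (1 + p.2 / ((2 * m p.1 + 1 : ℕ) : ℂ) / d) ^ (2 * m p.1 + 1)) F
      (𝓝 (Complex.exp (ξ / d))) := by
    apply pow_lim F (fun p : ℕ × ℂ => p.2 / ((2 * m p.1 + 1 : ℕ) : ℂ) / d) (fun p => 2 * m p.1 + 1)
    · have := hq.div_const d
      rwa [zero_div] at this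
    · refine (hζ.div_const d).congr ?_
      intro p
      have := hPne p
      field_simp
  have hD : Tendsto (fun p : ℕ × ℂ => ((d ^ (2 * m p.1 + 1)))⁻¹) F (𝓝 0) := by
    have h1 : Tendsto (fun k : ℕ => (d⁻¹) ^ k) atTop (𝓝 0) := by
      apply tendsto_pow_atTop_nhds_zero_of_norm_lt_one
      rw [norm_inv]
      exact inv_lt_one_of_one_lt₀ h
    have h2 := h1.comp hP1
    refine h2.congr ?_
    intro p
    simp only [Function.comp, inv_pow]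
  have hfac : ∀ p : ℕ × ℂ, (z₀ + p.2 / ((2 * m p.1 + 1 : ℕ) : ℂ) - 1) ^ (2 * m p.1 + 1) =
      d ^ (2 * m p.1 + 1) * (1 + p.2 / ((2 * m p.1 + 1 : ℕ) : ℂ) / d) ^ (2 * m p.1 + 1) := by
    intro p
    rw [← mul_pow]
    congr 1
    rw [mul_add, mul_one, mul_div_cancel₀ _ hd, hdd]
    ring
  have hden : Tendsto (fun p : ℕ × ℂ => (1 + p.2 / ((2 * m p.1 + 1 : ℕ) : ℂ) / d) ^ (2 * m p.1 + 1) +
      ((d ^ (2 * m p.1 + 1)))⁻¹) F (𝓝 (Complex.exp (ξ / d))) := by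
    have := hE.add hD
    rwa [add_zero] at this
  have hx : ∀ p : ℕ × ℂ, -((z₀ + p.2 / ((2 * m p.1 + 1 : ℕ) : ℂ)) /
      ((z₀ + p.2 / ((2 * m p.1 + 1 : ℕ) : ℂ) - 1) ^ (2 * m p.1 + 1) + 1)) =
      -(((z₀ + p.2 / ((2 * m p.1 + 1 : ℕ) : ℂ)) * ((d ^ (2 * m p.1 + 1)))⁻¹) /
        ((1 + p.2 / ((2 * m p.1 + 1 : ℕ) : ℂ) / d) ^ (2 * m p.1 + 1) +
          ((d ^ (2 * m p.1 + 1)))⁻¹)) := by
    intro p
    have hdp : d ^ (2 * m p.1 + 1) ≠ 0 := pow_ne_zero _ hd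
    rw [hfac p]
    congr 1
    have e : d ^ (2 * m p.1 + 1) * (1 + p.2 / ((2 * m p.1 + 1 : ℕ) : ℂ) / d) ^ (2 * m p.1 + 1) + 1 =
        d ^ (2 * m p.1 + 1) * ((1 + p.2 / ((2 * m p.1 + 1 : ℕ) : ℂ) / d) ^ (2 * m p.1 + 1) +
          ((d ^ (2 * m p.1 + 1)))⁻¹) := by
      rw [mul_add, mul_inv_cancel₀ hdp]
    rw [e, ← div_div, div_eq_mul_inv (z₀ + _) (d ^ (2 * m p.1 + 1))]
  have h1 : Tendsto (fun p : ℕ × ℂ => -((z₀ + p.2 / ((2 * m p.1 + 1 : ℕ) : ℂ)) /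
      ((z₀ + p.2 / ((2 * m p.1 + 1 : ℕ) : ℂ) - 1) ^ (2 * m p.1 + 1) + 1))) F (𝓝 0) := by
    have t := (((hz.mul hD).div hden (Complex.exp_ne_zero _))).neg
    rw [mul_zero, zero_div, neg_zero] at t
    refine t.congr ?_
    intro p
    exact (hx p).symm
  have h2 : Tendsto (fun p : ℕ × ℂ => ((s p.1 : ℕ) : ℂ) *
      -((z₀ + p.2 / ((2 * m p.1 + 1 : ℕ) : ℂ)) /
      ((z₀ + p.2 / ((2 * m p.1 + 1 : ℕ) : ℂ) - 1) ^ (2 * m p.1 + 1) + 1))) F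
      (𝓝 (-(z₀ * ω * Complex.exp (-(ξ / d))))) := by
    have hs' : Tendsto (fun p : ℕ × ℂ => (s p.1 : ℂ) / d ^ (2 * m p.1 + 1)) F (𝓝 ω) :=
      hs.comp tendsto_fst
    have t := (((hz.mul hs').div hden (Complex.exp_ne_zero _))).neg
    have e : -(z₀ * ω / Complex.exp (ξ / d)) = -(z₀ * ω * Complex.exp (-(ξ / d))) := by
      rw [Complex.exp_neg, div_eq_mul_inv]
    rw [e] at t
    refine t.congr ?_
    intro p
    rw [hx p]
    simp only [Pi.div_apply]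
    simp only [div_eq_mul_inv]
    ring
  have h3 := pow_lim F _ (fun p => s p.1) _ h1 h2
  refine h3.congr ?_
  intro p
  rw [← sub_eq_add_neg]





theorem th_dense_a (z₀ : ℂ) (h : 1 < ‖z₀ - 1‖) :
    ∃ (m s : ℕ → ℕ) (ω : ℂ), Tendsto m atTop atTop ∧ Tendsto s atTop atTop ∧ ‖ω‖ = 1 ∧
      Tendsto (fun j => (s j : ℂ) / (z₀ - 1) ^ (2 * m j + 1)) atTop (𝓝 ω) := by
  have hr0 : 0 < ‖z₀ - 1‖ := by linarith
  obtain ⟨S, hS⟩ : ∃ S : ℕ → ℕ, S = fun j => ⌈‖z₀ - 1‖ ^ (2 * j + 1)⌉₊ := ⟨_, rfl⟩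
  have hP : Tendsto (fun j : ℕ => 2 * j + 1) atTop atTop :=
    tendsto_atTop_mono (fun j => by simp only [id]; omega) tendsto_id
  have hrt : Tendsto (fun j : ℕ => ‖z₀ - 1‖ ^ (2 * j + 1)) atTop atTop :=
    (tendsto_pow_atTop_atTop_of_one_lt h).comp hP
  have hlow : ∀ j, ‖z₀ - 1‖ ^ (2 * j + 1) ≤ (S j : ℝ) := fun j => by
    rw [hS]
    exact Nat.le_ceil _
  have hup : ∀ j, (S j : ℝ) ≤ ‖z₀ - 1‖ ^ (2 * j + 1) + 1 := fun j => by
    rw [hS]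
    exact (Nat.ceil_lt_add_one (by positivity)).le
  have hnorm : ∀ j, ‖(S j : ℂ) / (z₀ - 1) ^ (2 * j + 1)‖ = (S j : ℝ) / ‖z₀ - 1‖ ^ (2 * j + 1) := by
    intro j
    rw [norm_div, norm_pow, Complex.norm_natCast]
  have hpos : ∀ j : ℕ, 0 < ‖z₀ - 1‖ ^ (2 * j + 1) := fun j => by positivity
  have hge : ∀ j : ℕ, 1 ≤ ‖z₀ - 1‖ ^ (2 * j + 1) := fun j => one_le_pow₀ h.le
  have hq1 : ∀ j, 1 ≤ (S j : ℝ) / ‖z₀ - 1‖ ^ (2 * j + 1) := fun j => by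
    rw [le_div_iff₀ (hpos j), one_mul]
    exact hlow j
  have hq2 : ∀ j, (S j : ℝ) / ‖z₀ - 1‖ ^ (2 * j + 1) ≤ 1 + (‖z₀ - 1‖ ^ (2 * j + 1))⁻¹ := fun j => by
    rw [div_le_iff₀ (hpos j), add_mul, one_mul, inv_mul_cancel₀ (hpos j).ne']
    exact hup j
  have hlim : Tendsto (fun j => (S j : ℝ) / ‖z₀ - 1‖ ^ (2 * j + 1)) atTop (𝓝 1) := by
    refine tendsto_of_tendsto_of_tendsto_of_le_of_le tendsto_const_nhds ?_ hq1 hq2
    have h1 : Tendsto (fun j : ℕ => (‖z₀ - 1‖ ^ (2 * j + 1))⁻¹) atTop (𝓝 0) :=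
      tendsto_inv_atTop_zero.comp hrt
    have h2 := h1.const_add (1 : ℝ)
    rw [add_zero] at h2
    exact h2
  have hmem : ∀ j, (fun j => (S j : ℂ) / (z₀ - 1) ^ (2 * j + 1)) j ∈
      Metric.closedBall (0 : ℂ) 2 := by
    intro j
    rw [mem_closedBall_zero_iff]
    change ‖(S j : ℂ) / (z₀ - 1) ^ (2 * j + 1)‖ ≤ 2
    rw [hnorm]
    have h1 : (‖z₀ - 1‖ ^ (2 * j + 1))⁻¹ ≤ 1 := inv_le_one_of_one_le₀ (hge j)
    linarith [hq2 j]
  obtain ⟨ω, _, φ, hφ, hω⟩ := (isCompact_closedBall (0 : ℂ) 2).tendsto_subseq hmem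
  refine ⟨φ, fun j => S (φ j), ω, hφ.tendsto_atTop, ?_, ?_, hω⟩
  · have h1 : Tendsto (fun j => (S j : ℝ)) atTop atTop := tendsto_atTop_mono hlow hrt
    exact (tendsto_natCast_atTop_iff.1 h1).comp hφ.tendsto_atTop
  · have h1 := hω.norm
    have h2 := hlim.comp hφ.tendsto_atTop
    refine tendsto_nhds_unique h1 (h2.congr fun j => ?_)
    exact (hnorm (φ j)).symm

theorem th_dense_b (z₀ ω : ℂ) (h : 1 < ‖z₀ - 1‖) (hω : ‖ω‖ = 1) :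
    ∃ z₁ : ℂ, Complex.exp (-(z₀ * ω * Complex.exp (-(z₁ / (z₀ - 1))))) + (z₀ - 1) = 0 ∧
      ¬ ∀ᶠ z in 𝓝 z₁,
        Complex.exp (-(z₀ * ω * Complex.exp (-(z / (z₀ - 1))))) + (z₀ - 1) = 0 := by
  have hz1 : z₀ - 1 ≠ 0 := by
    intro h0
    rw [h0, norm_zero] at h
    linarith
  have hz0 : z₀ ≠ 0 := by
    rintro rfl
    rw [zero_sub, norm_neg, norm_one] at h
    linarith
  have hω0 : ω ≠ 0 := by
    rintro rfl
    rw [norm_zero] at hω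
    exact zero_ne_one hω
  have hc : z₀ * ω ≠ 0 := mul_ne_zero hz0 hω0
  have h1z : 1 - z₀ ≠ 0 := by
    intro h0
    apply hz1
    rw [← neg_sub, h0, neg_zero]
  have hl : Complex.exp (Complex.log (1 - z₀)) = 1 - z₀ := Complex.exp_log h1z
  have hl0 : Complex.log (1 - z₀) ≠ 0 := by
    intro h0
    rw [h0, Complex.exp_zero] at hl
    apply hz0
    linear_combination hl
  obtain ⟨κ, hκ⟩ : ∃ κ : ℂ, κ = -Complex.log (1 - z₀) / (z₀ * ω) := ⟨_, rfl⟩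
  have hκ0 : κ ≠ 0 := by
    rw [hκ]
    exact div_ne_zero (neg_ne_zero.2 hl0) hc
  refine ⟨-(z₀ - 1) * Complex.log κ, ?_, ?_⟩
  · have e1 : -(-(z₀ - 1) * Complex.log κ / (z₀ - 1)) = Complex.log κ := by
      field_simp
    rw [e1, Complex.exp_log hκ0]
    have e2 : -(z₀ * ω * κ) = Complex.log (1 - z₀) := by
      rw [hκ]
      field_simp
    rw [e2, hl]
    ring
  · intro hev
    obtain ⟨z₁, hz₁⟩ : ∃ z₁ : ℂ, z₁ = -(z₀ - 1) * Complex.log κ := ⟨_, rfl⟩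
    rw [← hz₁] at hev
    have d1 : HasDerivAt (fun z : ℂ => -(z / (z₀ - 1))) (-(1 / (z₀ - 1))) z₁ :=
      ((hasDerivAt_id z₁).div_const (z₀ - 1)).fun_neg
    have d2 := d1.cexp
    have d3 := (d2.const_mul (z₀ * ω)).fun_neg
    have d4 := d3.cexp
    have d5 := d4.add_const (z₀ - 1)
    have d6 : HasDerivAt (fun z : ℂ =>
        Complex.exp (-(z₀ * ω * Complex.exp (-(z / (z₀ - 1))))) + (z₀ - 1)) 0 z₁ :=
      (hasDerivAt_const z₁ (0 : ℂ)).congr_of_eventuallyEq hev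
    have d7 := d5.unique d6
    have hne : Complex.exp (-(z₀ * ω * Complex.exp (-(z₁ / (z₀ - 1))))) *
        -(z₀ * ω * (Complex.exp (-(z₁ / (z₀ - 1))) * -(1 / (z₀ - 1)))) ≠ 0 := by
      refine mul_ne_zero (Complex.exp_ne_zero _) (neg_ne_zero.2 (mul_ne_zero hc
        (mul_ne_zero (Complex.exp_ne_zero _) (neg_ne_zero.2 (one_div_ne_zero hz1)))))
    exact hne d7

theorem th_dense_c (m : ℕ → ℕ) (hm : Tendsto m atTop atTop) :
    Tendsto (fun j => (((2 * m j + 1 : ℕ) : ℝ))⁻¹) atTop (𝓝 0) := by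
  have hP : Tendsto (fun j : ℕ => 2 * m j + 1) atTop atTop :=
    tendsto_atTop_mono (fun j => by omega) hm
  exact tendsto_inv_atTop_zero.comp (tendsto_natCast_atTop_atTop.comp hP)

theorem th_dense_d (z₀ : ℂ) (m : ℕ → ℕ) (hm : Tendsto m atTop atTop) (ξ : ℂ) :
    Tendsto (fun p : ℕ × ℂ => z₀ + p.2 / ((2 * m p.1 + 1 : ℕ) : ℂ) - 1) (atTop ×ˢ 𝓝 ξ)
      (𝓝 (z₀ - 1)) := by
  have h1 : Tendsto (fun j => (((2 * m j + 1 : ℕ) : ℂ))⁻¹) atTop (𝓝 0) := by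
    rw [tendsto_zero_iff_norm_tendsto_zero]
    refine (th_dense_c m hm).congr fun j => ?_
    rw [norm_inv, Complex.norm_natCast]
  have h2 : Tendsto (fun p : ℕ × ℂ => (((2 * m p.1 + 1 : ℕ) : ℂ))⁻¹) (atTop ×ˢ 𝓝 ξ) (𝓝 0) :=
    h1.comp tendsto_fst
  have h3 : Tendsto (fun p : ℕ × ℂ => p.2) (atTop ×ˢ 𝓝 ξ) (𝓝 ξ) := tendsto_snd
  have h4 := ((h3.mul h2).const_add z₀).sub_const 1
  rw [mul_zero, add_zero] at h4
  exact h4

/-- TARGET. -/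
theorem th_dense (z₀ : ℂ) (h : 1 < ‖z₀ - 1‖) (ε : ℝ) (hε : 0 < ε) :
    ∃ n m : ℕ, 2 ≤ n ∧ 1 ≤ m ∧ ∃ z ∈ Metric.ball z₀ ε,
      z * ((z - 1) ^ (2 * m + 1) - (z - 1)) ^ (n + 1) +
      z * (z - 1) * ((z - 1) ^ (2 * m + 1) + 1) ^ (n + 1) = 0 := by
  obtain ⟨m, s, ω, hm, hs, hω, hlim⟩ := th_dense_a z₀ h
  obtain ⟨z₁, hz₁, hnz⟩ := th_dense_b z₀ ω h hω
  have hsmall : ∀ δ : ℝ, 0 < δ → ∀ᶠ j in atTop, (‖z₁‖ + 1) * (((2 * m j + 1 : ℕ) : ℝ))⁻¹ < δ := by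
    intro δ hδ
    have h1 := (th_dense_c m hm).const_mul (‖z₁‖ + 1)
    rw [mul_zero] at h1
    exact h1.eventually_lt_const hδ
  have hdist : ∀ (j : ℕ) (ζ : ℂ), ζ ∈ Metric.ball z₁ 1 →
      ‖ζ / ((2 * m j + 1 : ℕ) : ℂ)‖ ≤ (‖z₁‖ + 1) * (((2 * m j + 1 : ℕ) : ℝ))⁻¹ := by
    intro j ζ hζ
    rw [norm_div, Complex.norm_natCast, div_eq_mul_inv]
    refine mul_le_mul_of_nonneg_right ?_ (by positivity)
    rw [mem_ball_iff_norm] at hζ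
    calc ‖ζ‖ = ‖z₁ + (ζ - z₁)‖ := by rw [add_sub_cancel]
      _ ≤ ‖z₁‖ + ‖ζ - z₁‖ := norm_add_le _ _
      _ ≤ ‖z₁‖ + 1 := by linarith
  have hden : ∀ᶠ j in atTop, ∀ ζ ∈ Metric.ball z₁ 1,
      (z₀ + ζ / ((2 * m j + 1 : ℕ) : ℂ) - 1) ^ (2 * m j + 1) + 1 ≠ 0 := by
    filter_upwards [hsmall (‖z₀ - 1‖ - 1) (by linarith)] with j hj ζ hζ h0
    have h1 := hdist j ζ hζ
    have h2 : 1 < ‖z₀ + ζ / ((2 * m j + 1 : ℕ) : ℂ) - 1‖ := by
      have h3 : ‖z₀ - 1‖ ≤ ‖z₀ + ζ / ((2 * m j + 1 : ℕ) : ℂ) - 1‖ +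
          ‖ζ / ((2 * m j + 1 : ℕ) : ℂ)‖ := by
        calc ‖z₀ - 1‖ = ‖(z₀ + ζ / ((2 * m j + 1 : ℕ) : ℂ) - 1) -
              ζ / ((2 * m j + 1 : ℕ) : ℂ)‖ := by
              congr 1
              ring
          _ ≤ _ := norm_sub_le _ _
      linarith
    have h4 : (z₀ + ζ / ((2 * m j + 1 : ℕ) : ℂ) - 1) ^ (2 * m j + 1) = -1 :=
      eq_neg_of_add_eq_zero_left h0
    have h5 : ‖z₀ + ζ / ((2 * m j + 1 : ℕ) : ℂ) - 1‖ ^ (2 * m j + 1) = 1 := by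
      rw [← norm_pow, h4, norm_neg, norm_one]
    have h6 := one_lt_pow₀ h2 (n := 2 * m j + 1) (by omega)
    linarith
  have hz := hurw (fun j ζ =>
      (1 - (z₀ + ζ / ((2 * m j + 1 : ℕ) : ℂ)) /
        ((z₀ + ζ / ((2 * m j + 1 : ℕ) : ℂ) - 1) ^ (2 * m j + 1) + 1)) ^ (s j) +
        (z₀ + ζ / ((2 * m j + 1 : ℕ) : ℂ) - 1))
    (fun ζ => Complex.exp (-(z₀ * ω * Complex.exp (-(ζ / (z₀ - 1))))) + (z₀ - 1)) z₁ 1 one_pos
    ?_ ?_ ?_ hz₁ hnz 1 one_pos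
  · have hall := hz.and ((hsmall ε hε).and (hden.and
      ((hm.eventually_ge_atTop 1).and (hs.eventually_ge_atTop 3))))
    obtain ⟨j, ⟨ζ, hζ, hG⟩, hj1, hj2, hj3, hj4⟩ := hall.exists
    refine ⟨s j - 1, m j, by omega, hj3, z₀ + ζ / ((2 * m j + 1 : ℕ) : ℂ), ?_, ?_⟩
    · rw [mem_ball_iff_norm, add_sub_cancel_left]
      exact lt_of_le_of_lt (hdist j ζ hζ) hj1
    · have hs1 : s j - 1 + 1 = s j := by omega
      rw [hs1]
      have hne := hj2 ζ hζ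
      obtain ⟨z, hzd⟩ : ∃ z : ℂ, z = z₀ + ζ / ((2 * m j + 1 : ℕ) : ℂ) := ⟨_, rfl⟩

      rw [← hzd] at hne hG ⊢
      obtain ⟨D, hD⟩ : ∃ D : ℂ, D = (z - 1) ^ (2 * m j + 1) + 1 := ⟨_, rfl⟩
      rw [← hD] at hne hG ⊢
      have e1 : (z - 1) ^ (2 * m j + 1) - (z - 1) = D * (1 - z / D) := by
        rw [mul_sub, mul_one, mul_div_cancel₀ _ hne, hD]
        ring
      rw [e1, mul_pow]
      linear_combination z * D ^ s j * hG
  · filter_upwards [hden] with j hj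
    intro ζ hζ
    have h1 : DifferentiableAt ℂ (fun ζ : ℂ => z₀ + ζ / ((2 * m j + 1 : ℕ) : ℂ)) ζ := by fun_prop
    have h2 : DifferentiableAt ℂ
        (fun ζ : ℂ => (z₀ + ζ / ((2 * m j + 1 : ℕ) : ℂ) - 1) ^ (2 * m j + 1) + 1) ζ := by fun_prop
    have h3 := h1.fun_div h2 (hj ζ hζ)
    exact (((h3.const_sub 1).fun_pow (s j)).fun_add (h1.sub_const 1)).differentiableWithinAt
  · intro ζ _
    have h1 : DifferentiableAt ℂ (fun ζ : ℂ =>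
        Complex.exp (-(z₀ * ω * Complex.exp (-(ζ / (z₀ - 1))))) + (z₀ - 1)) ζ := by fun_prop
    exact h1.differentiableWithinAt
  · intro ξ _
    exact (th_conv z₀ h m hm s ω hlim ξ).add (th_dense_d z₀ m hm ξ)



/-- TARGET. -/
theorem region (z : ℂ) (h : 91 / 50 ≤ ‖z - 1‖) :
    1 < ‖z - 1‖ ∧ ‖z - 1‖ < ‖z ^ 2 - 3 * z + 3‖ ∧ ‖z - 3‖ < ‖z ^ 2 - 3 * z + 3‖ := by
  obtain ⟨w, rfl⟩ : ∃ w : ℂ, z = w + 1 := ⟨z - 1, by ring⟩
  have e1 : w + 1 - 1 = w := by ring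
  have e2 : (w + 1) ^ 2 - 3 * (w + 1) + 3 = w * w - w + 1 := by ring
  have e3 : w + 1 - 3 = w - 2 := by ring
  rw [e1] at h
  rw [e1, e2, e3]
  have hs : (91 / 50) ^ 2 ≤ w.re * w.re + w.im * w.im := by
    rw [← Complex.normSq_apply, ← Complex.sq_norm]
    exact pow_le_pow_left₀ (by norm_num) h 2
  obtain ⟨s, hs'⟩ : ∃ s, s = w.re * w.re + w.im * w.im := ⟨_, rfl⟩
  rw [← hs'] at hs
  have hb : Complex.normSq (w * w - w + 1) = s ^ 2 - s + 1 - 2 * (s + 1) * w.re + 4 * w.re ^ 2 := by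
    rw [Complex.normSq_apply, hs']
    simp
    ring
  refine ⟨by linarith, ?_, ?_⟩
  · apply lt_of_pow_lt_pow_left₀ 2 (norm_nonneg _)
    rw [Complex.sq_norm, Complex.sq_norm, hb, Complex.normSq_apply, ← hs']
    nlinarith [sq_nonneg (2 * w.re - (s + 1) / 2), mul_pos (show (0:ℝ) < s - 3 by norm_num at hs; linarith) (show (0:ℝ) < 3 * s - 1 by norm_num at hs; linarith)]
  · apply lt_of_pow_lt_pow_left₀ 2 (norm_nonneg _)
    rw [Complex.sq_norm, Complex.sq_norm, hb]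
    have h2 : Complex.normSq (w - 2) = s - 4 * w.re + 4 := by
      rw [Complex.normSq_apply, hs']
      simp
      ring
    rw [h2]
    norm_num at hs
    nlinarith [sq_nonneg (2 * w.re - (s - 1) / 2), mul_nonneg (sub_nonneg.2 hs) (show (0:ℝ) ≤ s by linarith)]



end Pool.Agent.Helper759.Chrom
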