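import Mathlib
import Pool.Agent.Helper759.ChromDefs
import Pool.Agent.Helper759.ChromA
set_option autoImplicit false
open Classical Filter Topology

namespace Pool.Agent.Helper759.Chrom

section gtri

variable {n m L : ℕ}

/-- a grid vertex -/
def gpt (n m L x : ℕ) (hx : x < n * L + 1) (k : ℕ) (hk : k < m) (e : Bool) : Vx (n * L + 1) m :=
  Sum.inl (⟨x, hx⟩, ⟨k, hk⟩, e)

theorem gadj_row (x : ℕ) (hx : x + 1 < n * L + 1) (k : ℕ) (hk : k < m) (e : Bool) :
    (Gr n m L).Adj (gpt n m L x (by omega) k hk e) (gpt n m L (x + 1) hx k hk e) := by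
  unfold Gr
  rw [SimpleGraph.fromRel_adj]
  refine ⟨?_, Or.inl ?_⟩
  · intro h
    simp [gpt] at h
  · exact Or.inl ⟨rfl, rfl, rfl⟩

theorem gadj_rung (x : ℕ) (hx : x < n * L + 1) (k : ℕ) (hk : k < m) :
    (Gr n m L).Adj (gpt n m L x hx k hk false) (gpt n m L x hx k hk true) := by
  unfold Gr
  rw [SimpleGraph.fromRel_adj]
  refine ⟨?_, Or.inl ?_⟩
  · intro h
    simp [gpt] at h
  · exact Or.inr (Or.inl ⟨rfl, rfl, rfl, rfl⟩)

theorem gadj_col (x : ℕ) (hx : x < n * L + 1) (hL : L ∣ x) (k : ℕ) (hk : k + 1 < m) :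
    (Gr n m L).Adj (gpt n m L x hx k (by omega) true) (gpt n m L x hx (k + 1) hk false) := by
  unfold Gr
  rw [SimpleGraph.fromRel_adj]
  refine ⟨?_, Or.inl ?_⟩
  · intro h
    simp [gpt] at h
  · exact Or.inr (Or.inr ⟨rfl, hL, rfl, rfl, rfl⟩)

theorem gadj_pf (x : ℕ) (hx : x < n * L + 1) (hL : L ∣ x) (k : ℕ) (hk : k < m) (hk0 : k = 0) :
    (Gr n m L).Adj (Sum.inr false) (gpt n m L x hx k hk false) := by
  unfold Gr
  rw [SimpleGraph.fromRel_adj]
  refine ⟨?_, Or.inl ?_⟩
  · intro h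
    simp [gpt] at h
  · exact ⟨hL, hk0, rfl⟩

theorem gadj_pt (x : ℕ) (hx : x < n * L + 1) (hL : L ∣ x) (k : ℕ) (hk : k < m) (hk0 : k + 1 = m) :
    (Gr n m L).Adj (Sum.inr true) (gpt n m L x hx k hk true) := by
  unfold Gr
  rw [SimpleGraph.fromRel_adj]
  refine ⟨?_, Or.inl ?_⟩
  · intro h
    simp [gpt] at h
  · exact ⟨hL, hk0, rfl⟩

/-- connected avoiding `S` -/
def GJ {V : Type} (G : SimpleGraph V) (S : Finset V) : V → V → Prop :=
  Relation.ReflTransGen (fun a b => G.Adj a b ∧ a ∉ S ∧ b ∉ S)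

theorem GJ_symm {V : Type} {G : SimpleGraph V} {S : Finset V} {a b : V} (h : GJ G S a b) :
    GJ G S b a := by
  induction h with
  | refl => exact Relation.ReflTransGen.refl
  | tail _ h2 ih => exact Relation.ReflTransGen.head ⟨h2.1.symm, h2.2.2, h2.2.1⟩ ih

theorem GJ_reach {V : Type} {G : SimpleGraph V} {S : Finset V} {a b : V} (h : GJ G S a b)
    (ha : a ∉ S) : ∃ hb : b ∉ S, (G.induce ((↑S : Set V)ᶜ)).Reachable ⟨a, ha⟩ ⟨b, hb⟩ := by
  induction h with
  | refl => exact ⟨ha, SimpleGraph.Reachable.refl _⟩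
  | tail _ h2 ih =>
    obtain ⟨hb, hr⟩ := ih
    refine ⟨h2.2.2, hr.trans (SimpleGraph.Adj.reachable ?_)⟩
    exact h2.1

theorem GJ_row (S : Finset (Vx (n * L + 1) m)) (k : ℕ) (hk : k < m) (e : Bool) (x d : ℕ) :
    ∀ h : x + d < n * L + 1,
      (∀ y (hy : y < n * L + 1), x ≤ y → y ≤ x + d → gpt n m L y hy k hk e ∉ S) →
      GJ (Gr n m L) S (gpt n m L x (by omega) k hk e) (gpt n m L (x + d) h k hk e) := by
  induction d with
  | zero => intro h _; exact Relation.ReflTransGen.refl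
  | succ d ih =>
    intro h hS
    refine Relation.ReflTransGen.tail
      (ih (by omega) (fun y hy h1 h2 => hS y hy h1 (by omega))) ⟨?_, ?_, ?_⟩
    · exact gadj_row (x + d) h k hk e
    · exact hS _ _ (by omega) (by omega)
    · exact hS _ _ (by omega) (by omega)

theorem GJ_seg (S : Finset (Vx (n * L + 1) m)) (k : ℕ) (hk : k < m) (e : Bool) (x x' : ℕ)
    (hx : x < n * L + 1) (hx' : x' < n * L + 1)
    (hS : ∀ y (hy : y < n * L + 1), min x x' ≤ y → y ≤ max x x' → gpt n m L y hy k hk e ∉ S) :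
    GJ (Gr n m L) S (gpt n m L x hx k hk e) (gpt n m L x' hx' k hk e) := by
  rcases le_total x x' with h | h
  · obtain ⟨d, rfl⟩ := Nat.exists_eq_add_of_le h
    exact GJ_row S k hk e x d hx' (fun y hy h1 h2 => hS y hy (by omega) (by omega))
  · obtain ⟨d, rfl⟩ := Nat.exists_eq_add_of_le h
    exact GJ_symm (GJ_row S k hk e x' d hx (fun y hy h1 h2 => hS y hy (by omega) (by omega)))

theorem GJ_col (S : Finset (Vx (n * L + 1) m)) (x : ℕ) (hx : x < n * L + 1) (hL : L ∣ x)
    (hm : 0 < m) (hS : ∀ k (hk : k < m) e, gpt n m L x hx k hk e ∉ S) (k : ℕ) :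
    ∀ (hk : k < m) (e : Bool),
      GJ (Gr n m L) S (gpt n m L x hx 0 hm false) (gpt n m L x hx k hk e) := by
  induction k with
  | zero =>
    intro hk e
    cases e with
    | false => exact Relation.ReflTransGen.refl
    | true => exact Relation.ReflTransGen.single ⟨gadj_rung x hx 0 hk, hS _ _ _, hS _ _ _⟩
  | succ k ih =>
    intro hk e
    have h1 : GJ (Gr n m L) S (gpt n m L x hx 0 hm false) (gpt n m L x hx (k + 1) hk false) :=
      Relation.ReflTransGen.tail (ih (by omega) true) ⟨gadj_col x hx hL k hk, hS _ _ _, hS _ _ _⟩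
    cases e with
    | false => exact h1
    | true => exact Relation.ReflTransGen.tail h1 ⟨gadj_rung x hx (k + 1) hk, hS _ _ _, hS _ _ _⟩

theorem GJ_exit (S : Finset (Vx (n * L + 1) m)) (x0 : ℕ) (hx0 : x0 < n * L + 1) (hL0 : L ∣ x0)
    (hm : 0 < m) (hS0 : ∀ k (hk : k < m) e, gpt n m L x0 hx0 k hk e ∉ S)
    (k : ℕ) (hk : k < m) (e : Bool)
    (hrow : ∀ v ∈ S, ∃ (y : ℕ) (hy : y < n * L + 1) (e : Bool), v = gpt n m L y hy k hk e)
    (xe : ℕ) (hxe : xe < n * L + 1) (hLe : L ∣ xe) (hsurv : gpt n m L xe hxe k hk e ∉ S) :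
    GJ (Gr n m L) S (gpt n m L xe hxe k hk e) (gpt n m L x0 hx0 0 hm false) := by
  have hcol := GJ_col S x0 hx0 hL0 hm hS0
  have hoff : ∀ (y : ℕ) (hy : y < n * L + 1) (k' : ℕ) (hk' : k' < m) (e' : Bool), k' ≠ k →
      gpt n m L y hy k' hk' e' ∉ S := by
    intro y hy k' hk' e' hne hmem
    obtain ⟨y2, hy2, e2, h2⟩ := hrow _ hmem
    simp only [gpt, Sum.inl.injEq, Prod.mk.injEq, Fin.mk.injEq] at h2
    exact hne h2.2.1
  have hpole : ∀ b : Bool, (Sum.inr b : Vx (n * L + 1) m) ∉ S := by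
    intro b hmem
    obtain ⟨y2, hy2, e2, h2⟩ := hrow _ hmem
    simp [gpt] at h2
  cases e with
  | true =>
    by_cases hk1 : k + 1 < m
    · refine Relation.ReflTransGen.head ⟨gadj_col xe hxe hLe k hk1, hsurv,
        hoff _ _ _ _ _ (by omega)⟩ ?_
      exact (GJ_seg S (k + 1) hk1 false xe x0 hxe hx0
        (fun y hy _ _ => hoff _ _ _ _ _ (by omega))).trans (GJ_symm (hcol (k + 1) hk1 false))
    · refine Relation.ReflTransGen.head ⟨(gadj_pt xe hxe hLe k hk (by omega)).symm, hsurv,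
        hpole true⟩ ?_
      refine Relation.ReflTransGen.head ⟨gadj_pt x0 hx0 hL0 k hk (by omega), hpole true,
        hS0 _ _ _⟩ ?_
      exact GJ_symm (hcol k hk true)
  | false =>
    rcases k with _ | k
    · refine Relation.ReflTransGen.head ⟨(gadj_pf xe hxe hLe 0 hk rfl).symm, hsurv,
        hpole false⟩ ?_
      exact Relation.ReflTransGen.head ⟨gadj_pf x0 hx0 hL0 0 hk rfl, hpole false,
        hS0 _ _ _⟩ Relation.ReflTransGen.refl
    · refine Relation.ReflTransGen.head ⟨(gadj_col xe hxe hLe k hk).symm, hsurv,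
        hoff _ _ _ _ _ (by omega)⟩ ?_
      exact (GJ_seg S k (by omega) true xe x0 hxe hx0
        (fun y hy _ _ => hoff _ _ _ _ _ (by omega))).trans (GJ_symm (hcol k (by omega) true))

end gtri

/-- TARGET. -/
theorem gr_tri (n m L : ℕ) (hn : 2 ≤ n) (hm : 1 ≤ m) (hL : 1 ≤ L) : Tri (Gr n m L) := by
  refine ⟨?_, fun S hS => ?_⟩
  · have h1 : Fintype.card (Vx (n * L + 1) m) = (n * L + 1) * (m * 2) + 2 := by
      simp [Fintype.card_sum, Fintype.card_prod]
    rw [h1]
    have : 0 < (n * L + 1) * (m * 2) := by positivity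
    have h2 : 2 ≤ n * L := by nlinarith
    nlinarith
  ·
    obtain ⟨x0, hx0, hL0, hS0⟩ : ∃ (x0 : ℕ) (hx0 : x0 < n * L + 1), L ∣ x0 ∧
        ∀ k (hk : k < m) e, gpt n m L x0 hx0 k hk e ∉ S := by
      by_contra hcon
      push Not at hcon
      have hlt : ∀ i ∈ Finset.range (n + 1), i * L < n * L + 1 := by
        intro i hi
        have : i ≤ n := by
          rw [Finset.mem_range] at hi
          omega
        exact Nat.lt_succ_of_le (Nat.mul_le_mul_right L this)
      have hch : ∀ i ∈ Finset.range (n + 1), ∃ v ∈ S, ∃ (h : i * L < n * L + 1) (k : Fin m)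
          (e : Bool), v = Sum.inl (⟨i * L, h⟩, k, e) := by
        intro i hi
        obtain ⟨k, hk, e, hmem⟩ := hcon (i * L) (hlt i hi) (dvd_mul_left L i)
        exact ⟨_, hmem, hlt i hi, ⟨k, hk⟩, e, rfl⟩
      choose! f hfS hf using hch
      have hcard := Finset.card_le_card_of_injOn f (fun i hi => hfS i hi) (by
        intro i hi j hj hij
        obtain ⟨h1, k1, e1, hf1⟩ := hf i hi
        obtain ⟨h2, k2, e2, hf2⟩ := hf j hj
        rw [hf1, hf2] at hij
        simp only [Sum.inl.injEq, Prod.mk.injEq, Fin.mk.injEq] at hij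
        exact Nat.eq_of_mul_eq_mul_right (by omega) hij.1)
      rw [Finset.card_range] at hcard
      omega
    have hm0 : 0 < m := hm
    have hcol := GJ_col S x0 hx0 hL0 hm0 hS0
    have key : ∀ v : Vx (n * L + 1) m, v ∉ S →
        GJ (Gr n m L) S v (gpt n m L x0 hx0 0 hm0 false) := by
      intro v hv
      rcases v with ⟨⟨x, hx⟩, ⟨k, hk⟩, e⟩ | b
      ·
        change gpt n m L x hx k hk e ∉ S at hv
        change GJ (Gr n m L) S (gpt n m L x hx k hk e) _
        by_cases hA : ∀ y (hy : y < n * L + 1), min x x0 ≤ y → y ≤ max x x0 →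
            gpt n m L y hy k hk e ∉ S
        · exact (GJ_seg S k hk e x x0 hx hx0 hA).trans (GJ_symm (hcol k hk e))
        by_cases hB : ∀ y (hy : y < n * L + 1), min x x0 ≤ y → y ≤ max x x0 →
            gpt n m L y hy k hk (!e) ∉ S
        · have hrung : (Gr n m L).Adj (gpt n m L x hx k hk e) (gpt n m L x hx k hk (!e)) := by
            cases e with
            | false => exact gadj_rung x hx k hk
            | true => exact (gadj_rung x hx k hk).symm
          refine Relation.ReflTransGen.head ⟨hrung, hv, hB x hx (by omega) (by omega)⟩ ?_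
          exact (GJ_seg S k hk (!e) x x0 hx hx0 hB).trans (GJ_symm (hcol k hk (!e)))
        push Not at hA hB
        obtain ⟨y1, hy1, h11, h12, hd1⟩ := hA
        obtain ⟨y2, hy2, h21, h22, hd2⟩ := hB
        have hy1x : y1 ≠ x := by
          rintro rfl
          exact hv hd1
        have hy1x0 : y1 ≠ x0 := by
          rintro rfl
          exact hS0 _ _ _ hd1
        have hne : gpt n m L y1 hy1 k hk e ≠ gpt n m L y2 hy2 k hk (!e) := by
          intro h
          simp [gpt] at h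
        have hSeq : ∀ w ∈ S, w = gpt n m L y1 hy1 k hk e ∨ w = gpt n m L y2 hy2 k hk (!e) := by
          intro w hw
          by_contra hno
          push Not at hno
          have hsub : ({w, gpt n m L y1 hy1 k hk e, gpt n m L y2 hy2 k hk (!e)} :
              Finset (Vx (n * L + 1) m)) ⊆ S := by
            intro u hu
            simp only [Finset.mem_insert, Finset.mem_singleton] at hu
            rcases hu with rfl | rfl | rfl
            · exact hw
            · exact hd1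
            · exact hd2
          have hc := Finset.card_le_card hsub
          rw [Finset.card_insert_of_notMem, Finset.card_insert_of_notMem,
            Finset.card_singleton] at hc
          · omega
          · simpa using hne
          · simp only [Finset.mem_insert, Finset.mem_singleton, not_or]
            exact hno
        have hrow : ∀ v ∈ S, ∃ (y : ℕ) (hy : y < n * L + 1) (e : Bool),
            v = gpt n m L y hy k hk e := by
          intro w hw
          rcases hSeq w hw with h | h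
          · exact ⟨_, _, _, h⟩
          · exact ⟨_, _, _, h⟩
        have honly : ∀ y (hy : y < n * L + 1), y ≠ y1 → gpt n m L y hy k hk e ∉ S := by
          intro y hy hyne hmem
          rcases hSeq _ hmem with h | h
          · simp only [gpt, Sum.inl.injEq, Prod.mk.injEq, Fin.mk.injEq] at h
            exact hyne h.1
          · simp [gpt] at h
        rcases lt_or_ge x x0 with hlt | hge
        · have h0 : (0:ℕ) < n * L + 1 := by omega
          refine (GJ_seg S k hk e x 0 hx h0 (fun y hy _ h4 => honly y hy (by omega))).trans ?_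
          exact GJ_exit S x0 hx0 hL0 hm0 hS0 k hk e hrow 0 h0 (dvd_zero L)
            (honly 0 h0 (by omega))
        · have h0 : n * L < n * L + 1 := by omega
          refine (GJ_seg S k hk e x (n * L) hx h0
            (fun y hy h3 _ => honly y hy (by omega))).trans ?_
          exact GJ_exit S x0 hx0 hL0 hm0 hS0 k hk e hrow (n * L) h0 (dvd_mul_left L n)
            (honly _ h0 (by omega))
      · cases b with
        | false =>
          exact Relation.ReflTransGen.single ⟨gadj_pf x0 hx0 hL0 0 hm0 rfl, hv, hS0 _ _ _⟩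
        | true =>
          exact Relation.ReflTransGen.head ⟨gadj_pt x0 hx0 hL0 (m - 1) (by omega) (by omega), hv,
            hS0 _ _ _⟩ (GJ_symm (hcol (m - 1) (by omega) true))
    have hbase : gpt n m L x0 hx0 0 hm0 false ∉ S := hS0 _ _ _
    rw [SimpleGraph.connected_iff]
    refine ⟨?_, ⟨⟨gpt n m L x0 hx0 0 hm0 false, hbase⟩⟩⟩
    rintro ⟨u, hu⟩ ⟨v, hv⟩
    have hu' : u ∉ S := hu
    have hv' : v ∉ S := hv
    obtain ⟨_, hr⟩ := GJ_reach ((key u hu').trans (GJ_symm (key v hv'))) hu'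
    exact hr


/-- abscissa of a vertex -/
def gr_pla_X {X m : ℕ} : Vx X m → ℤ
  | Sum.inl (x, _, _) => ((x : ℕ) : ℤ)
  | Sum.inr _ => 0

/-- ordinate of a vertex -/
def gr_pla_Y {X m : ℕ} : Vx X m → ℤ
  | Sum.inl (_, k, e) => -(2 * ((k : ℕ) : ℤ) + if e = true then 1 else 0)
  | Sum.inr false => 1
  | Sum.inr true => -(2 * (m : ℤ))

theorem gr_pla_inj {X m : ℕ} (u v : Vx X m) (hm : 1 ≤ m) (hx : gr_pla_X u = gr_pla_X v)
    (hy : gr_pla_Y u = gr_pla_Y v) : u = v := by
  rcases u with ⟨x, k, e⟩ | b <;> rcases v with ⟨x', k', e'⟩ | b'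
  · simp only [gr_pla_X, gr_pla_Y] at hx hy
    have h1 : x = x' := by
      apply Fin.ext
      exact_mod_cast hx
    have h2 : k = k' ∧ e = e' := by
      cases e <;> cases e' <;> simp at hy ⊢
      · exact Fin.ext (by omega)
      · omega
      · omega
      · exact Fin.ext (by omega)
    rw [h1, h2.1, h2.2]
  · exfalso
    have hk := k.isLt
    cases b' <;> cases e <;> simp [gr_pla_Y] at hy <;> omega
  · exfalso
    have hk := k'.isLt
    cases b <;> cases e' <;> simp [gr_pla_Y] at hy <;> omega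
  · cases b <;> cases b' <;> simp [gr_pla_Y] at hy ⊢ <;> omega

theorem gr_pla_form {L X m : ℕ} (u v : Vx X m) (h : rel L X m u v) :
    (gr_pla_X v = gr_pla_X u + 1 ∧ gr_pla_Y v = gr_pla_Y u) ∨
    (gr_pla_X v = gr_pla_X u ∧ gr_pla_Y v = gr_pla_Y u - 1 ∧ -(2 * (m : ℤ)) + 2 ≤ gr_pla_Y u ∧
      gr_pla_Y u ≤ 0) ∨
    (gr_pla_X u = 0 ∧ gr_pla_Y u = 1 ∧ gr_pla_Y v = 0) ∨
    (gr_pla_X u = 0 ∧ gr_pla_Y u = -(2 * (m : ℤ)) ∧ gr_pla_Y v = -(2 * (m : ℤ)) + 1) := by
  rcases u with ⟨x, k, e⟩ | b <;> rcases v with ⟨x', k', e'⟩ | b'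
  · have hk := k.isLt
    have hk' := k'.isLt
    simp only [rel] at h
    rcases h with ⟨h1, h2, h3⟩ | ⟨h1, h2, h3, h4⟩ | ⟨h1, h2, h3, h4, h5⟩
    · left
      subst h1 h2
      simp only [gr_pla_X, gr_pla_Y]
      refine ⟨?_, trivial⟩
      rw [h3]
      push_cast
      rfl
    · right; left
      subst h1 h2 h3 h4
      simp only [gr_pla_X, gr_pla_Y]
      refine ⟨trivial, ?_, ?_, ?_⟩ <;> simp <;> omega
    · right; left
      subst h1 h4 h5
      simp only [gr_pla_X, gr_pla_Y]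
      refine ⟨trivial, ?_, ?_, ?_⟩ <;> simp <;> omega
  · cases b' <;> simp [rel] at h
  · cases b
    · simp only [rel] at h
      right; right; left
      obtain ⟨h1, h2, h3⟩ := h
      subst h3
      simp only [gr_pla_X, gr_pla_Y]
      refine ⟨trivial, trivial, ?_⟩
      rw [h2]
      simp
    · simp only [rel] at h
      right; right; right
      obtain ⟨h1, h2, h3⟩ := h
      subst h3
      simp only [gr_pla_X, gr_pla_Y]
      refine ⟨trivial, trivial, ?_⟩
      simp
      omega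
  · cases b <;> cases b' <;> simp [rel] at h

theorem gr_pla_fr0 (p q : ℤ) (a : ℝ) (ha : 0 < a) (ha1 : a < 1) (h : (p : ℝ) + a = q) : False := by
  have h1 : (p : ℝ) < q := by linarith
  have h2 : (q : ℝ) < p + 1 := by linarith
  have h3 : p < q := by exact_mod_cast h1
  have h4 : q < p + 1 := by exact_mod_cast h2
  omega

theorem gr_pla_fr (p q : ℤ) (a b : ℝ) (ha : 0 < a) (ha1 : a < 1) (hb : 0 < b) (hb1 : b < 1)
    (h : (p : ℝ) + a = q + b) : p = q := by
  have h1 : (p : ℝ) < q + 1 := by linarith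
  have h2 : (q : ℝ) < p + 1 := by linarith
  have h3 : p < q + 1 := by exact_mod_cast h1
  have h4 : q < p + 1 := by exact_mod_cast h2
  omega

/-- the four types of edges -/
def gr_pla_T (m : ℕ) (X1 Y1 X2 Y2 : ℤ) : Prop :=
  (X2 = X1 + 1 ∧ Y2 = Y1) ∨ (X2 = X1 ∧ Y2 = Y1 - 1 ∧ -(2 * (m : ℤ)) + 2 ≤ Y1 ∧ Y1 ≤ 0) ∨
    (X1 = 0 ∧ Y1 = 1 ∧ Y2 = 0) ∨ (X1 = 0 ∧ Y1 = -(2 * (m : ℤ)) ∧ Y2 = -(2 * (m : ℤ)) + 1)

theorem gr_pla_core (m : ℕ) (hm : 1 ≤ m) (X1 Y1 X2 Y2 X1' Y1' X2' Y2' : ℤ)
    (h : gr_pla_T m X1 Y1 X2 Y2) (h' : gr_pla_T m X1' Y1' X2' Y2') (a b : ℝ) (ha : 0 < a)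
    (ha1 : a < 1) (hb : 0 < b) (hb1 : b < 1)
    (hx : (1 - a) * X1 + a * X2 = (1 - b) * X1' + b * X2')
    (hy : (1 - a) * Y1 + a * Y2 = (1 - b) * Y1' + b * Y2') :
    X1 = X1' ∧ Y1 = Y1' ∧ X2 = X2' ∧ Y2 = Y2' := by
  have hm' : (1 : ℝ) ≤ m := by exact_mod_cast hm
  rcases h with ⟨h1, h2⟩ | ⟨h1, h2, h3, h4⟩ | ⟨h1, h2, h3⟩ | ⟨h1, h2, h3⟩ <;>
  rcases h' with ⟨g1, g2⟩ | ⟨g1, g2, g3, g4⟩ | ⟨g1, g2, g3⟩ | ⟨g1, g2, g3⟩
  ·
    subst h1 h2 g1 g2
    push_cast at hx hy
    have e1 : X1 = X1' := gr_pla_fr X1 X1' a b ha ha1 hb hb1 (by linarith)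
    have e2 : (Y2 : ℝ) = Y2' := by linarith
    have e3 : Y2 = Y2' := by exact_mod_cast e2
    subst e1 e3
    exact ⟨rfl, rfl, rfl, rfl⟩
  · exfalso
    subst h1 h2 g1 g2
    push_cast at hx hy
    exact gr_pla_fr0 X1 X2' a ha ha1 (by linarith)
  · exfalso
    subst h1 h2 g1 g2 g3
    push_cast at hx hy
    exact gr_pla_fr0 Y2 1 b hb hb1 (by push_cast; linarith)
  · exfalso
    subst h1 h2 g1 g2 g3
    push_cast at hx hy
    exact gr_pla_fr0 (-(2 * (m : ℤ))) Y2 b hb hb1 (by push_cast; linarith)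
  · exfalso
    subst h1 h2 g1 g2
    push_cast at hx hy
    exact gr_pla_fr0 X1' X2 b hb hb1 (by linarith)
  · subst h1 h2 g1 g2
    push_cast at hx hy
    have e1 : (X2 : ℝ) = X2' := by linarith
    have e2 : X2 = X2' := by exact_mod_cast e1
    have e3 : Y1 = Y1' := by
      have := gr_pla_fr Y1' Y1 a b ha ha1 hb hb1 (by linarith)
      exact this.symm
    subst e2 e3
    exact ⟨rfl, rfl, rfl, rfl⟩
  · exfalso
    subst h1 h2 g1 g2 g3
    push_cast at hx hy
    have : (Y1 : ℝ) ≤ 0 := by exact_mod_cast h4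
    linarith
  · exfalso
    subst h1 h2 g1 g2 g3
    push_cast at hx hy
    have : -(2 * (m : ℝ)) + 2 ≤ (Y1 : ℝ) := by exact_mod_cast h3
    linarith
  · exfalso
    subst h1 h2 h3 g1 g2
    push_cast at hx hy
    exact gr_pla_fr0 Y2' 1 a ha ha1 (by push_cast; linarith)
  · exfalso
    subst h1 h2 h3 g1 g2
    push_cast at hx hy
    have : (Y1' : ℝ) ≤ 0 := by exact_mod_cast g4
    linarith
  · subst h1 h2 h3 g1 g2 g3
    push_cast at hx hy
    have e1 : a = b := by linarith
    subst e1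
    have e2 : (X2 : ℝ) = X2' := by
      have : a * X2 = a * X2' := by linarith
      exact mul_left_cancel₀ ha.ne' this
    have e3 : X2 = X2' := by exact_mod_cast e2
    exact ⟨rfl, rfl, e3, rfl⟩
  · exfalso
    subst h1 h2 h3 g1 g2 g3
    push_cast at hx hy
    linarith
  · exfalso
    subst h1 h2 h3 g1 g2
    push_cast at hx hy
    exact gr_pla_fr0 (-(2 * (m : ℤ))) Y2' a ha ha1 (by push_cast; linarith)
  · exfalso
    subst h1 h2 h3 g1 g2
    push_cast at hx hy
    have : -(2 * (m : ℝ)) + 2 ≤ (Y1' : ℝ) := by exact_mod_cast g3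
    linarith
  · exfalso
    subst h1 h2 h3 g1 g2 g3
    push_cast at hx hy
    linarith
  · subst h1 h2 h3 g1 g2 g3
    push_cast at hx hy
    have e1 : a = b := by linarith
    subst e1
    have e2 : (X2 : ℝ) = X2' := by
      have : a * X2 = a * X2' := by linarith
      exact mul_left_cancel₀ ha.ne' this
    have e3 : X2 = X2' := by exact_mod_cast e2
    exact ⟨rfl, rfl, e3, rfl⟩

theorem gr_pla_ver (m : ℕ) (X1 Y1 X2 Y2 X Y : ℤ)
    (h : gr_pla_T m X1 Y1 X2 Y2) (a : ℝ) (ha : 0 < a) (ha1 : a < 1)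
    (hx : (1 - a) * X1 + a * X2 = X) (hy : (1 - a) * Y1 + a * Y2 = Y) : False := by
  rcases h with ⟨h1, h2⟩ | ⟨h1, h2, h3, h4⟩ | ⟨h1, h2, h3⟩ | ⟨h1, h2, h3⟩
  · subst h1 h2
    push_cast at hx hy
    exact gr_pla_fr0 X1 X a ha ha1 (by linarith)
  · subst h1 h2
    push_cast at hx hy
    exact gr_pla_fr0 Y Y1 a ha ha1 (by linarith)
  · subst h1 h2 h3
    push_cast at hx hy
    exact gr_pla_fr0 Y 1 a ha ha1 (by push_cast; linarith)
  · subst h1 h2 h3
    push_cast at hx hy
    exact gr_pla_fr0 (-(2 * (m : ℤ))) Y a ha ha1 (by push_cast; linarith)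

/-- position of a vertex -/
noncomputable def gr_pla_f {X m : ℕ} (u : Vx X m) : ℂ := ⟨(gr_pla_X u : ℝ), (gr_pla_Y u : ℝ)⟩

/-- straight segment -/
noncomputable def gr_pla_g {X m : ℕ} (u v : Vx X m) : Path (gr_pla_f u) (gr_pla_f v) where
  toFun t := ((1 - (t : ℝ) : ℝ) : ℂ) * gr_pla_f u + ((t : ℝ) : ℂ) * gr_pla_f v
  continuous_toFun := by fun_prop
  source' := by simp
  target' := by simp

theorem gr_pla_re {X m : ℕ} (u v : Vx X m) (t : unitInterval) :
    (gr_pla_g u v t).re = (1 - (t : ℝ)) * gr_pla_X u + t * gr_pla_X v := by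
  show (((1 - (t : ℝ) : ℝ) : ℂ) * gr_pla_f u + ((t : ℝ) : ℂ) * gr_pla_f v).re = _
  rw [Complex.add_re, Complex.re_ofReal_mul, Complex.re_ofReal_mul]
  rfl

theorem gr_pla_im {X m : ℕ} (u v : Vx X m) (t : unitInterval) :
    (gr_pla_g u v t).im = (1 - (t : ℝ)) * gr_pla_Y u + t * gr_pla_Y v := by
  show (((1 - (t : ℝ) : ℝ) : ℂ) * gr_pla_f u + ((t : ℝ) : ℂ) * gr_pla_f v).im = _
  rw [Complex.add_im, Complex.im_ofReal_mul, Complex.im_ofReal_mul]
  rfl

theorem gr_pla_finj {X m : ℕ} (hm : 1 ≤ m) : Function.Injective (gr_pla_f (X := X) (m := m)) := by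
  intro u v h
  have h1 := congrArg Complex.re h
  have h2 := congrArg Complex.im h
  simp only [gr_pla_f] at h1 h2
  exact gr_pla_inj u v hm (by exact_mod_cast h1) (by exact_mod_cast h2)

/-- oriented version of an edge through a point -/
theorem gr_pla_or {n m L : ℕ} (u v : Vx (n * L + 1) m) (h : (Gr n m L).Adj u v)
    (t : ℝ) (ht : 0 < t) (ht1 : t < 1) :
    ∃ u' v' : Vx (n * L + 1) m, ∃ s : ℝ, 0 < s ∧ s < 1 ∧ s(u, v) = s(u', v') ∧
      gr_pla_T m (gr_pla_X u') (gr_pla_Y u') (gr_pla_X v') (gr_pla_Y v') ∧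
      (1 - t) * gr_pla_X u + t * gr_pla_X v = (1 - s) * gr_pla_X u' + s * gr_pla_X v' ∧
      (1 - t) * gr_pla_Y u + t * gr_pla_Y v = (1 - s) * gr_pla_Y u' + s * gr_pla_Y v' := by
  unfold Gr at h
  rw [SimpleGraph.fromRel_adj] at h
  rcases h.2 with h | h
  · exact ⟨u, v, t, ht, ht1, rfl, gr_pla_form u v h, rfl, rfl⟩
  · exact ⟨v, u, 1 - t, by linarith, by linarith, Sym2.eq_swap, gr_pla_form v u h, by ring, by ring⟩

theorem gr_pla_int {n m L : ℕ} (u v w : Vx (n * L + 1) m) (h : (Gr n m L).Adj u v)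
    (t : unitInterval) (ht : 0 < (t : ℝ)) (ht1 : (t : ℝ) < 1) :
    gr_pla_g u v t ≠ gr_pla_f w := by
  intro he
  obtain ⟨u', v', s, hs, hs1, -, hT, hx, hy⟩ := gr_pla_or u v h t ht ht1
  have h1 := congrArg Complex.re he
  have h2 := congrArg Complex.im he
  rw [gr_pla_re, hx] at h1
  rw [gr_pla_im, hy] at h2
  exact gr_pla_ver m _ _ _ _ _ _ hT s hs hs1 h1 h2

theorem gr_pla_trich (t : unitInterval) : t = 0 ∨ t = 1 ∨ (0 < (t : ℝ) ∧ (t : ℝ) < 1) := by
  rcases eq_or_lt_of_le t.2.1 with h | h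
  · left
    exact Subtype.ext h.symm
  · rcases eq_or_lt_of_le t.2.2 with h' | h'
    · right; left
      exact Subtype.ext h'
    · right; right
      exact ⟨h, h'⟩

/-- TARGET. -/
theorem gr_pla (n m L : ℕ) (hm : 1 ≤ m) (hL : 1 ≤ L) : Pla (Gr n m L) := by
  refine ⟨gr_pla_f, gr_pla_g, gr_pla_finj hm, ?_, ?_⟩
  · intro u v h
    refine ⟨?_, ?_⟩
    · intro s t hst
      have h1 := congrArg Complex.re hst
      have h2 := congrArg Complex.im hst
      rw [gr_pla_re, gr_pla_re] at h1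
      rw [gr_pla_im, gr_pla_im] at h2
      by_contra hne
      have hne' : (s : ℝ) - t ≠ 0 := fun h' => hne (Subtype.ext (by linarith))
      have e1 : ((s : ℝ) - t) * ((gr_pla_X u : ℝ) - gr_pla_X v) = 0 := by linarith
      have e2 : ((s : ℝ) - t) * ((gr_pla_Y u : ℝ) - gr_pla_Y v) = 0 := by linarith
      have f1 : (gr_pla_X u : ℝ) - gr_pla_X v = 0 := (mul_eq_zero.1 e1).resolve_left hne'
      have f2 : (gr_pla_Y u : ℝ) - gr_pla_Y v = 0 := (mul_eq_zero.1 e2).resolve_left hne'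
      have g1 : (gr_pla_X u : ℝ) = gr_pla_X v := by linarith
      have g2 : (gr_pla_Y u : ℝ) = gr_pla_Y v := by linarith
      exact h.ne (gr_pla_inj u v hm (by exact_mod_cast g1) (by exact_mod_cast g2))
    · intro t w hw
      rcases gr_pla_trich t with h0 | h0 | ⟨h0, h1⟩
      · left
        rw [h0, Path.source] at hw
        exact (gr_pla_finj hm hw).symm
      · right
        rw [h0, Path.target] at hw
        exact (gr_pla_finj hm hw).symm
      · exact absurd hw (gr_pla_int u v w h t h0 h1)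
  · intro u v x y h h' hne a b hab
    rcases gr_pla_trich a with h0 | h0 | ⟨ha0, ha1⟩
    · exact ⟨u, by rw [h0, Path.source]⟩
    · exact ⟨v, by rw [h0, Path.target]⟩
    · rcases gr_pla_trich b with h0 | h0 | ⟨hb0, hb1⟩
      · exact ⟨x, by rw [hab, h0, Path.source]⟩
      · exact ⟨y, by rw [hab, h0, Path.target]⟩
      · exfalso
        obtain ⟨u', v', s, hs, hs1, hsym, hT, hx, hy⟩ := gr_pla_or u v h a ha0 ha1
        obtain ⟨x', y', s', hs', hs1', hsym', hT', hx', hy'⟩ := gr_pla_or x y h' b hb0 hb1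
        have h1 := congrArg Complex.re hab
        have h2 := congrArg Complex.im hab
        rw [gr_pla_re, gr_pla_re, hx, hx'] at h1
        rw [gr_pla_im, gr_pla_im, hy, hy'] at h2
        obtain ⟨c1, c2, c3, c4⟩ := gr_pla_core m hm _ _ _ _ _ _ _ _ hT hT' s s' hs hs1 hs' hs1' h1 h2
        apply hne
        rw [hsym, hsym', gr_pla_inj u' x' hm c1 c2, gr_pla_inj v' y' hm c3 c4]



theorem cnt_iso {V W : Type} [Fintype V] [Fintype W] (G : SimpleGraph V) (G' : SimpleGraph W)
    (e : G ≃g G') (q : ℕ) : cnt G q = cnt G' q := by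
  unfold cnt
  refine Fintype.sum_equiv (Equiv.arrowCongr e.toEquiv (Equiv.refl _)) _ _ ?_
  intro c
  have : (∀ u v, G.Adj u v → c u ≠ c v) ↔ (∀ u v, G'.Adj u v →
      (Equiv.arrowCongr e.toEquiv (Equiv.refl (Fin q)) c) u ≠ (Equiv.arrowCongr e.toEquiv (Equiv.refl (Fin q)) c) v) := by
    constructor
    · intro h u v huv
      simp only [Equiv.arrowCongr_apply, Function.comp, Equiv.refl_apply]
      apply h
      have := (e.symm.map_adj_iff (v := u) (w := v)).mpr huv
      exact this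
    · intro h u v huv
      have := h (e u) (e v) (e.map_adj_iff.mpr huv)
      have e1 : e.toEquiv.symm (e u) = u := e.toEquiv.symm_apply_apply u
      have e2 : e.toEquiv.symm (e v) = v := e.toEquiv.symm_apply_apply v
      simp only [Equiv.arrowCongr_apply, Function.comp, Equiv.refl_apply] at this
      rwa [e1, e2] at this
  simp only [this]

noncomputable def whitPoly {V : Type} [Fintype V] (G : SimpleGraph V) : Polynomial ℂ :=
  ∑ S ∈ G.edgeFinset.powerset,
    Polynomial.C ((-1 : ℂ) ^ S.card) * Polynomial.X ^ Nat.card (SimpleGraph.fromEdgeSet (↑S : Set (Sym2 V))).ConnectedComponent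

theorem whitPoly_eval {V : Type} [Fintype V] (G : SimpleGraph V) (z : ℂ) :
    (whitPoly G).eval z = whit G z := by
  unfold whitPoly whit
  rw [Polynomial.eval_finsetSum]
  apply Finset.sum_congr rfl
  intro S _
  rw [Polynomial.eval_mul, Polynomial.eval_C, Polynomial.eval_pow, Polynomial.eval_X]

theorem whit_iso {V W : Type} [Fintype V] [Fintype W] (G : SimpleGraph V) (G' : SimpleGraph W)
    (e : G ≃g G') (z : ℂ) : whit G z = whit G' z := by
  rw [← whitPoly_eval, ← whitPoly_eval]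
  congr 1
  apply Polynomial.eq_of_infinite_eval_eq
  apply Set.Infinite.mono (s := Set.range (fun n : ℕ => (n : ℂ)))
  · rintro _ ⟨n, rfl⟩
    simp only [Set.mem_ofPred_eq]
    rw [whitPoly_eval, whitPoly_eval, whit_nat, whit_nat, cnt_iso G G' e]
  · exact Set.infinite_range_of_injective Nat.cast_injective

/-- TARGET. -/
theorem transport {V : Type} [Fintype V] (G : SimpleGraph V) (z : ℂ) (h1 : Tri G) (h2 : Pla G)
    (h3 : whit G z = 0) :
    ∃ (n : ℕ) (G : SimpleGraph (Fin n)),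
      (4 ≤ n ∧ ∀ S : Finset (Fin n), S.card ≤ 2 →
          (G.induce ((↑S : Set (Fin n))ᶜ)).Connected) ∧
      (∃ (f : Fin n → ℂ) (γ : ∀ u v : Fin n, Path (f u) (f v)),
          Function.Injective f ∧
          (∀ u v : Fin n, G.Adj u v →
              Function.Injective ⇑(γ u v) ∧
              ∀ (t : unitInterval) (w : Fin n), γ u v t = f w → w = u ∨ w = v) ∧
          (∀ u v x y : Fin n, G.Adj u v → G.Adj x y → s(u, v) ≠ s(x, y) →
              ∀ a b : unitInterval, γ u v a = γ x y b → ∃ w : Fin n, γ u v a = f w)) ∧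
      (∑ S ∈ G.edgeFinset.powerset,
          (-1 : ℂ) ^ S.card *
            z ^ Nat.card (SimpleGraph.fromEdgeSet (↑S : Set (Sym2 (Fin n)))).ConnectedComponent) = 0 := by
  set e : V ≃ Fin (Fintype.card V) := Fintype.equivFin V with he
  let G' : SimpleGraph (Fin (Fintype.card V)) := G.comap e.symm
  let i : G' ≃g G := SimpleGraph.Iso.comap e.symm G
  have hadj : ∀ u v, G'.Adj u v ↔ G.Adj (e.symm u) (e.symm v) := fun u v => Iff.rfl
  refine ⟨Fintype.card V, G', ⟨h1.1, ?_⟩, ?_, ?_⟩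
  · intro S hS
    have h := h1.2 (S.map e.symm.toEmbedding) (by rw [Finset.card_map]; exact hS)
    let j : G'.induce ((↑S : Set (Fin (Fintype.card V)))ᶜ) ≃g
        G.induce ((↑(S.map e.symm.toEmbedding) : Set V)ᶜ) :=
      { toEquiv := e.symm.subtypeEquiv (by
          intro a
          simp)
        map_rel_iff' := by
          intro a b
          rfl }
    exact (SimpleGraph.Iso.connected_iff j).mpr h
  · obtain ⟨f, γ, hf, hγ, hd⟩ := h2
    refine ⟨f ∘ e.symm, fun u v => γ (e.symm u) (e.symm v), hf.comp e.symm.injective, ?_, ?_⟩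
    · intro u v huv
      obtain ⟨h1, h2⟩ := hγ _ _ ((hadj u v).mp huv)
      refine ⟨h1, ?_⟩
      intro t w hw
      rcases h2 t (e.symm w) hw with h | h
      · left; exact e.symm.injective h
      · right; exact e.symm.injective h
    · intro u v x y huv hxy hne a b hab
      obtain ⟨w, hw⟩ := hd _ _ _ _ ((hadj u v).mp huv) ((hadj x y).mp hxy) (by
        intro h
        apply hne
        have : Sym2.map e s(e.symm u, e.symm v) = Sym2.map e s(e.symm x, e.symm y) := by rw [h]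
        simpa using this) a b hab
      refine ⟨e w, ?_⟩
      simpa using hw
  · have := whit_iso G' G i z
    rw [h3] at this
    rw [← this]
    unfold whit
    congr!





end Pool.Agent.Helper759.Chrom
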