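import Mathlib
import Pool.Agent.Helper759.ChromDefs
import Pool.Agent.Helper759.ChromA
import Pool.Agent.Helper759.ChromB
set_option autoImplicit false
open Classical Filter Topology

namespace Pool.Agent.Helper759.Chrom






theorem cnt_aux1 {n m q : ℕ} (ca cb : Fin q) (t : Fin (n + 1) → Fin m → Fin q × Fin q) :
    (∏ i : Fin (n + 1), ((∏ k, om (t i k)) * (if Wc ca cb (t i) then (1 : ℂ) else 0))) =
    if ((∀ x k, (t x k).1 ≠ (t x k).2) ∧ ∀ x, Wc ca cb (t x)) then 1 else 0 := by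
  split_ifs with h
  · apply Finset.prod_eq_one
    intro i _
    rw [if_pos (h.2 i), mul_one]
    apply Finset.prod_eq_one
    intro k _
    rw [om, if_pos (h.1 i k)]
  · by_contra h0
    apply h
    have h1 : ∀ i, (∏ k, om (t i k)) * (if Wc ca cb (t i) then (1 : ℂ) else 0) ≠ 0 :=
      fun i => Finset.prod_ne_zero_iff.1 h0 i (Finset.mem_univ i)
    constructor
    · intro x k hk
      have := left_ne_zero_of_mul (h1 x)
      have := Finset.prod_ne_zero_iff.1 this k (Finset.mem_univ k)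
      apply this
      rw [om, if_neg (not_not.2 hk)]
    · intro x
      by_contra hx
      apply right_ne_zero_of_mul (h1 x)
      rw [if_neg hx]

theorem cnt_aux2 {q : ℕ} (l : ℕ) (p p' : Fin q × Fin q) (hp : p.1 ≠ p.2) (hp' : p'.1 ≠ p'.2) :
    MM (om (q := q)) mu l p p' = ∑ f : Fin 6, cf (q : ℂ) (l + 1) f *
      (if dl f (p.1 = p'.1) (p.2 = p'.2) (p.1 = p'.2) (p.2 = p'.1) then 1 else 0) := by
  rw [kern l p p' hp hp', Fin.sum_univ_six]
  have d0 : dl 0 (p.1 = p'.1) (p.2 = p'.2) (p.1 = p'.2) (p.2 = p'.1) ↔ True := by simp [dl]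
  have d1 : dl 1 (p.1 = p'.1) (p.2 = p'.2) (p.1 = p'.2) (p.2 = p'.1) ↔ p.1 = p'.1 := by simp [dl]
  have d2 : dl 2 (p.1 = p'.1) (p.2 = p'.2) (p.1 = p'.2) (p.2 = p'.1) ↔ p.2 = p'.2 := by simp [dl]
  have d3 : dl 3 (p.1 = p'.1) (p.2 = p'.2) (p.1 = p'.2) (p.2 = p'.1) ↔ p.1 = p'.2 := by simp [dl]
  have d4 : dl 4 (p.1 = p'.1) (p.2 = p'.2) (p.1 = p'.2) (p.2 = p'.1) ↔ p.2 = p'.1 := by simp [dl]
  have d5 : dl 5 (p.1 = p'.1) (p.2 = p'.2) (p.1 = p'.2) (p.2 = p'.1) ↔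
      (p.1 = p'.1 ∧ p.2 = p'.2) := by simp [dl]
  have c0 : cf (q : ℂ) (l + 1) 0 = (abc (q : ℂ) (l + 1)).1 := by simp [cf]
  have c1 : cf (q : ℂ) (l + 1) 1 = (abc (q : ℂ) (l + 1)).2.1 := by simp [cf]
  have c2 : cf (q : ℂ) (l + 1) 2 = (abc (q : ℂ) (l + 1)).2.1 := by simp [cf]
  have c3 : cf (q : ℂ) (l + 1) 3 = (abc (q : ℂ) (l + 1)).2.2 := by
    simp only [cf]
    rw [if_neg (by decide), if_neg (by decide), if_pos (by decide)]
  have c4 : cf (q : ℂ) (l + 1) 4 = (abc (q : ℂ) (l + 1)).2.2 := by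
    simp only [cf]
    rw [if_neg (by decide), if_neg (by decide), if_pos (by decide)]
  have c5 : cf (q : ℂ) (l + 1) 5 = 1 := by
    simp only [cf]
    rw [if_neg (by decide), if_neg (by decide), if_neg (by decide)]
  have e5 : (if (p.1 = p'.1 ∧ p.2 = p'.2) then (1 : ℂ) else 0) =
      (if p.1 = p'.1 then 1 else 0) * (if p.2 = p'.2 then 1 else 0) := by
    by_cases h1 : p.1 = p'.1 <;> by_cases h2 : p.2 = p'.2 <;> simp [h1, h2]
  rw [c0, c1, c2, c3, c4, c5]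
  simp only [d0, d1, d2, d3, d4, d5, e5, if_true]
  ring

theorem cnt_aux3 {n m l q : ℕ} (ca cb : Fin q) (t : Fin (n + 1) → Fin m → Fin q × Fin q) :
    (∏ i : Fin (n + 1), ((∏ k, om (t i k)) * (if Wc ca cb (t i) then (1 : ℂ) else 0))) *
      ∏ i : Fin n, MM (fun s : Fin m → Fin q × Fin q => ∏ k, om (s k))
        (fun s s' => ∏ k, mu (s k) (s' k)) l (t i.castSucc) (t i.succ) =
    ∑ φ : Fin n × Fin m → Fin 6, (∏ ik, cf (q : ℂ) (l + 1) (φ ik)) *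
      Fp n m φ (fun u v => mk ca cb t u = mk ca cb t v) := by
  rw [cnt_aux1]
  by_cases hA : ((∀ x k, (t x k).1 ≠ (t x k).2) ∧ ∀ x, Wc ca cb (t x))
  · rw [if_pos hA, one_mul]
    have h1 : ∀ i : Fin n, MM (fun s : Fin m → Fin q × Fin q => ∏ k, om (s k))
        (fun s s' => ∏ k, mu (s k) (s' k)) l (t i.castSucc) (t i.succ) =
        ∏ k, ∑ f : Fin 6, cf (q : ℂ) (l + 1) f *
      (if dl f ((t i.castSucc k).1 = (t i.succ k).1) ((t i.castSucc k).2 = (t i.succ k).2)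
        ((t i.castSucc k).1 = (t i.succ k).2) ((t i.castSucc k).2 = (t i.succ k).1)
          then 1 else 0) := by
      intro i
      rw [mm_prod]
      exact Finset.prod_congr rfl (fun k _ => cnt_aux2 l _ _ (hA.1 _ _) (hA.1 _ _))
    simp_rw [h1]
    rw [← Fintype.prod_prod_type' (f := fun (i : Fin n) (k : Fin m) =>
      ∑ f : Fin 6, cf (q : ℂ) (l + 1) f *
      (if dl f ((t i.castSucc k).1 = (t i.succ k).1) ((t i.castSucc k).2 = (t i.succ k).2)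
        ((t i.castSucc k).1 = (t i.succ k).2) ((t i.castSucc k).2 = (t i.succ k).1)
          then 1 else 0))]
    rw [Finset.prod_univ_sum, Fintype.piFinset_univ]
    apply Finset.sum_congr rfl
    intro φ _
    rw [Finset.prod_mul_distrib]
    congr 1
    unfold Fp
    have hA' : ((∀ x k, ¬ mk ca cb t (Sum.inl (x, k, false)) = mk ca cb t (Sum.inl (x, k, true))) ∧
      (∀ x, ∀ k k' : Fin m, (k' : ℕ) = k + 1 →
        ¬ mk ca cb t (Sum.inl (x, k, true)) = mk ca cb t (Sum.inl (x, k', false))) ∧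
      (∀ x, ∀ k : Fin m, (k : ℕ) = 0 →
        ¬ mk ca cb t (Sum.inr false) = mk ca cb t (Sum.inl (x, k, false))) ∧
      (∀ x, ∀ k : Fin m, (k : ℕ) + 1 = m →
        ¬ mk ca cb t (Sum.inr true) = mk ca cb t (Sum.inl (x, k, true)))) :=
      ⟨fun x k => hA.1 x k, fun x => (hA.2 x).1, fun x => (hA.2 x).2.1, fun x => (hA.2 x).2.2⟩
    by_cases hd : ∀ ik : Fin n × Fin m, dl (φ ik)
        (mk ca cb t (Sum.inl (ik.1.castSucc, ik.2, false)) =
          mk ca cb t (Sum.inl (ik.1.succ, ik.2, false)))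
        (mk ca cb t (Sum.inl (ik.1.castSucc, ik.2, true)) =
          mk ca cb t (Sum.inl (ik.1.succ, ik.2, true)))
        (mk ca cb t (Sum.inl (ik.1.castSucc, ik.2, false)) =
          mk ca cb t (Sum.inl (ik.1.succ, ik.2, true)))
        (mk ca cb t (Sum.inl (ik.1.castSucc, ik.2, true)) =
          mk ca cb t (Sum.inl (ik.1.succ, ik.2, false)))
    · rw [if_pos ⟨hA', hd⟩]
      apply Finset.prod_eq_one
      intro ik _
      exact if_pos (hd ik)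
    · rw [if_neg (fun h => hd h.2)]
      rw [not_forall] at hd
      obtain ⟨ik, hik⟩ := hd
      apply Finset.prod_eq_zero (Finset.mem_univ ik)
      exact if_neg hik
  · rw [if_neg hA, zero_mul]
    symm
    apply Finset.sum_eq_zero
    intro φ _
    unfold Fp
    rw [if_neg, mul_zero]
    rintro ⟨⟨h1, h2, h3, h4⟩, -⟩
    exact hA ⟨fun x k => h1 x k, fun x => ⟨h2 x, h3 x, h4 x⟩⟩

/-- TARGET. -/
theorem cnt_formula (n m l q : ℕ) :
    cnt (Gr n m (l + 1)) q =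
      ∑ φ : Fin n × Fin m → Fin 6, (∏ ik, cf (q : ℂ) (l + 1) (φ ik)) *
        ∑ C : Vx (n + 1) m → Fin q, Fp n m φ (fun u v => C u = C v) := by
  unfold cnt
  refine Eq.trans (Finset.sum_congr (by ext; simp) (fun _ _ => rfl)) (Eq.trans (sum_mk _) ?_)
  have h1 : ∀ φ : Fin n × Fin m → Fin 6, (∏ ik, cf (q : ℂ) (l + 1) (φ ik)) *
        ∑ C : Vx (n + 1) m → Fin q, Fp n m φ (fun u v => C u = C v) =
      ∑ ca : Fin q, ∑ cb : Fin q, ∑ t : Fin (n + 1) → Fin m → Fin q × Fin q,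
        (∏ ik, cf (q : ℂ) (l + 1) (φ ik)) *
          Fp n m φ (fun u v => mk ca cb t u = mk ca cb t v) := by
    intro φ
    rw [sum_mk]
    simp_rw [Finset.mul_sum]
  simp_rw [h1]
  refine Eq.trans ?_ Finset.sum_comm
  apply Finset.sum_congr rfl
  intro ca _
  refine Eq.trans ?_ Finset.sum_comm
  apply Finset.sum_congr rfl
  intro cb _
  refine Eq.trans ?_ Finset.sum_comm
  simp_rw [← cnt_aux3]
  refine Eq.trans ?_ (cut (fun s : Fin m → Fin q × Fin q => ∏ k, om (s k))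
    (fun s => if Wc ca cb s then 1 else 0) (fun s s' => ∏ k, mu (s k) (s' k)) l n)
  apply Finset.sum_congr rfl
  intro s _
  exact proper_mk n m (l + 1) q ca cb s



theorem cf_poly (l : ℕ) (f : Fin 6) : ∃ P : Polynomial ℂ, ∀ z, P.eval z = cf z l f := by
  have key : ∃ P Q R : Polynomial ℂ, ∀ z, P.eval z = (abc z l).1 ∧ Q.eval z = (abc z l).2.1 ∧
      R.eval z = (abc z l).2.2 := by
    induction l with
    | zero => exact ⟨0, 0, 0, fun z => by simp [abc]⟩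
    | succ l ih =>
      obtain ⟨P, Q, R, h⟩ := ih
      refine ⟨(Polynomial.X ^ 2 - 3 * Polynomial.X + 3) * P + (2 * Polynomial.X - 4) * (Q + R) + 1,
        (2 - Polynomial.X) * Q + R - 1, Q + (2 - Polynomial.X) * R, fun z => ?_⟩
      obtain ⟨h1, h2, h3⟩ := h z
      have e2 : Polynomial.eval z (2 : Polynomial ℂ) = 2 := by
        rw [← Polynomial.C_ofNat, Polynomial.eval_C]
      have e3 : Polynomial.eval z (3 : Polynomial ℂ) = 3 := by
        rw [← Polynomial.C_ofNat, Polynomial.eval_C]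
      have e4 : Polynomial.eval z (4 : Polynomial ℂ) = 4 := by
        rw [← Polynomial.C_ofNat, Polynomial.eval_C]
      refine ⟨?_, ?_, ?_⟩ <;>
        simp only [abc, Polynomial.eval_add, Polynomial.eval_mul, Polynomial.eval_sub,
          Polynomial.eval_pow, Polynomial.eval_X, Polynomial.eval_one, h1, h2, h3, e2, e3, e4]
  obtain ⟨P, Q, R, h⟩ := key
  unfold cf
  split_ifs
  · exact ⟨P, fun z => (h z).1⟩
  · exact ⟨Q, fun z => (h z).2.1⟩
  · exact ⟨R, fun z => (h z).2.2⟩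
  · exact ⟨1, fun z => by simp⟩

theorem whit_poly' {V : Type} [Fintype V] (G : SimpleGraph V) :
    ∃ P : Polynomial ℂ, ∀ z, P.eval z = whit G z := by
  refine ⟨∑ S ∈ G.edgeFinset.powerset, Polynomial.C ((-1 : ℂ) ^ S.card) *
    Polynomial.X ^ Nat.card (SimpleGraph.fromEdgeSet (↑S : Set (Sym2 V))).ConnectedComponent, fun z => ?_⟩
  simp [whit, Polynomial.eval_finsetSum]

theorem whit_formula (n m : ℕ) :
    ∃ NP : (Fin n × Fin m → Fin 6) → Polynomial ℂ,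
      (∀ φ (q : ℕ), (NP φ).eval (q : ℂ) = ∑ C : Vx (n + 1) m → Fin q, Fp n m φ (fun u v => C u = C v)) ∧
      ∀ (l : ℕ) (z : ℂ), whit (Gr n m (l + 1)) z =
        ∑ φ : Fin n × Fin m → Fin 6, (∏ ik, cf z (l + 1) (φ ik)) * (NP φ).eval z := by
  have hex : ∀ φ : Fin n × Fin m → Fin 6, ∃ P : Polynomial ℂ, ∀ q : ℕ, P.eval (q : ℂ) =
      ∑ C : Vx (n + 1) m → Fin q, Fp n m φ (fun u v => C u = C v) := by
    intro φ
    obtain ⟨P, h⟩ := pat_poly (Fp n m φ)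
    refine ⟨P, fun q => ?_⟩
    rw [h q]
    refine Finset.sum_congr ?_ (fun _ _ => rfl)
    ext x
    simp
  choose NP hNP' using hex
  refine ⟨NP, hNP', fun l z => ?_⟩
  have hcp : ∀ f : Fin 6, ∃ P : Polynomial ℂ, ∀ z, P.eval z = cf z (l + 1) f :=
    fun f => cf_poly (l + 1) f
  choose CP hCP using hcp
  obtain ⟨W, hW⟩ := whit_poly' (Gr n m (l + 1))
  have heq : W = ∑ φ : Fin n × Fin m → Fin 6, (∏ ik, CP (φ ik)) * NP φ := by
    apply Polynomial.eq_of_infinite_eval_eq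
    refine Set.Infinite.mono (s := Set.range (fun q : ℕ => (q : ℂ))) ?_
      (Set.infinite_range_of_injective Nat.cast_injective)
    rintro _ ⟨q, rfl⟩
    simp only [Set.mem_ofPred_eq, Polynomial.eval_finsetSum, Polynomial.eval_mul,
      Polynomial.eval_prod, hW, whit_nat, cnt_formula, hCP, hNP']
  rw [← hW, heq]
  simp only [Polynomial.eval_finsetSum, Polynomial.eval_mul, Polynomial.eval_prod, hCP]






theorem j26182_diff {V : Type} [Fintype V] (G : SimpleGraph V) :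
    Differentiable ℂ (fun z => whit G z) := by
  unfold whit
  fun_prop

theorem j26182_poly (n m : ℕ) (hm : 1 ≤ m) (P0 : Polynomial ℂ)
    (h : ∀ q : ℕ, P0.eval (q : ℂ) =
      ∑ C : Vx (n + 1) m → Fin q, Fp n m (fun _ => 0) (fun u v => C u = C v)) (z : ℂ) :
    z ^ (n + 1) * P0.eval z = z * ((z - 1) ^ (2 * m + 1) - (z - 1)) ^ (n + 1) +
      z * (z - 1) * ((z - 1) ^ (2 * m + 1) + 1) ^ (n + 1) := by
  have h1 : (Polynomial.X ^ (n + 1) * P0 : Polynomial ℂ) =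
      Polynomial.X * ((Polynomial.X - 1) ^ (2 * m + 1) - (Polynomial.X - 1)) ^ (n + 1) +
      Polynomial.X * (Polynomial.X - 1) * ((Polynomial.X - 1) ^ (2 * m + 1) + 1) ^ (n + 1) := by
    refine Polynomial.eq_of_infinite_eval_eq _ _ ?_
    refine Set.Infinite.mono ?_ (Set.infinite_range_of_injective (Nat.cast_injective (R := ℂ)))
    rintro _ ⟨q, rfl⟩
    show Polynomial.eval (q : ℂ) _ = Polynomial.eval (q : ℂ) _
    have h2 := n_zero n m q hm
    rw [← h q] at h2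
    simp only [Polynomial.eval_add, Polynomial.eval_mul, Polynomial.eval_pow, Polynomial.eval_sub,
      Polynomial.eval_X, Polynomial.eval_one]
    exact h2
  have h3 := congrArg (Polynomial.eval z) h1
  simpa only [Polynomial.eval_add, Polynomial.eval_mul, Polynomial.eval_pow, Polynomial.eval_sub,
    Polynomial.eval_X, Polynomial.eval_one] using h3

theorem j26182_ne (n m : ℕ) (P0 : Polynomial ℂ)
    (h : ∀ z : ℂ, z ^ (n + 1) * P0.eval z = z * ((z - 1) ^ (2 * m + 1) - (z - 1)) ^ (n + 1) +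
      z * (z - 1) * ((z - 1) ^ (2 * m + 1) + 1) ^ (n + 1)) : P0 ≠ 0 := by
  rintro rfl
  have h1 := h 3
  rw [Polynomial.eval_zero, mul_zero] at h1
  have h2 : (0 : ℝ) = 3 * ((3 - 1) ^ (2 * m + 1) - (3 - 1)) ^ (n + 1) +
      3 * (3 - 1) * ((3 - 1) ^ (2 * m + 1) + 1) ^ (n + 1) := by
    exact_mod_cast h1
  have h3 : (2 : ℝ) ≤ (3 - 1) ^ (2 * m + 1) := by
    have h4 : (1 : ℝ) ≤ 2 ^ (2 * m) := one_le_pow₀ (by norm_num)
    have h5 : ((3 : ℝ) - 1) ^ (2 * m + 1) = 2 ^ (2 * m) * 2 := by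
      norm_num [pow_succ]
    rw [h5]
    linarith
  have h6 : (0 : ℝ) ≤ 3 * ((3 - 1) ^ (2 * m + 1) - (3 - 1)) ^ (n + 1) := by
    refine mul_nonneg (by norm_num) (pow_nonneg ?_ _)
    linarith
  have h7 : (0 : ℝ) < 3 * (3 - 1) * ((3 - 1) ^ (2 * m + 1) + 1) ^ (n + 1) := by
    refine mul_pos (by norm_num) (pow_pos ?_ _)
    linarith
  linarith

theorem j26182_lim (n m : ℕ) (NP : (Fin n × Fin m → Fin 6) → Polynomial ℂ)
    (hNP : ∀ (l : ℕ) (z : ℂ), whit (Gr n m (l + 1)) z =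
        ∑ φ : Fin n × Fin m → Fin 6, (∏ ik, cf z (l + 1) (φ ik)) * (NP φ).eval z)
    (ξ : ℂ) (h1 : 1 < ‖ξ - 1‖) (h2 : ‖ξ - 1‖ < ‖ξ ^ 2 - 3 * ξ + 3‖)
    (h3 : ‖ξ - 3‖ < ‖ξ ^ 2 - 3 * ξ + 3‖) :
    Tendsto (fun p : ℕ × ℂ => whit (Gr n m (p.1 + 1)) p.2 *
      (p.2 * (p.2 - 1) / (p.2 ^ 2 - 3 * p.2 + 3) ^ (p.1 + 1)) ^ (n * m))
      (atTop ×ˢ 𝓝 ξ) (𝓝 ((NP (fun _ => 0)).eval ξ)) := by
  have e1 : (fun p : ℕ × ℂ => whit (Gr n m (p.1 + 1)) p.2 *
      (p.2 * (p.2 - 1) / (p.2 ^ 2 - 3 * p.2 + 3) ^ (p.1 + 1)) ^ (n * m)) =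
      fun p : ℕ × ℂ => ∑ φ : Fin n × Fin m → Fin 6,
        (∏ ik, cf p.2 (p.1 + 1) (φ ik) *
          (p.2 * (p.2 - 1) / (p.2 ^ 2 - 3 * p.2 + 3) ^ (p.1 + 1))) * (NP φ).eval p.2 := by
    funext p
    rw [hNP, Finset.sum_mul]
    refine Finset.sum_congr rfl fun φ _ => ?_
    rw [Finset.prod_mul_distrib, Finset.prod_const, Finset.card_univ, Fintype.card_prod,
      Fintype.card_fin, Fintype.card_fin]
    ring
  have e2 : (NP (fun _ => 0)).eval ξ = ∑ φ : Fin n × Fin m → Fin 6,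
      (∏ ik, (if φ ik = 0 then (1 : ℂ) else 0)) * (NP φ).eval ξ := by
    rw [Finset.sum_eq_single (fun _ => 0)]
    · simp
    · intro φ _ hφ
      obtain ⟨ik, hik⟩ := Function.ne_iff.1 hφ
      rw [Finset.prod_eq_zero (Finset.mem_univ ik) (if_neg hik), zero_mul]
    · intro h
      exact absurd (Finset.mem_univ _) h
  rw [e1, e2]
  refine tendsto_finset_sum _ fun φ _ => ?_
  refine Tendsto.mul ?_ ?_
  · refine tendsto_finset_prod _ fun ik _ => ?_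
    exact cf_lim ξ h1 h2 h3 (φ ik)
  · exact ((NP φ).continuous.tendsto ξ).comp tendsto_snd

/-- TARGET. -/
theorem ladder_limit (n m : ℕ) (hm : 1 ≤ m) (z₁ : ℂ) (h1 : 1 < ‖z₁ - 1‖)
    (h2 : ‖z₁ - 1‖ < ‖z₁ ^ 2 - 3 * z₁ + 3‖) (h3 : ‖z₁ - 3‖ < ‖z₁ ^ 2 - 3 * z₁ + 3‖)
    (hz : z₁ * ((z₁ - 1) ^ (2 * m + 1) - (z₁ - 1)) ^ (n + 1) +
      z₁ * (z₁ - 1) * ((z₁ - 1) ^ (2 * m + 1) + 1) ^ (n + 1) = 0) (ε : ℝ) (hε : 0 < ε) :
    ∃ l : ℕ, ∃ z ∈ Metric.ball z₁ ε, whit (Gr n m (l + 1)) z = 0 := by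
  obtain ⟨NP, hNP1, hNP2⟩ := whit_formula n m
  have hP := j26182_poly n m hm (NP (fun _ => 0)) (hNP1 _)
  have hPne := j26182_ne n m _ hP
  have hz0 : ∀ z : ℂ, 1 < ‖z - 1‖ → z ≠ 0 := by
    rintro z hz rfl
    simp at hz
  have hz1 : ∀ z : ℂ, 1 < ‖z - 1‖ → z - 1 ≠ 0 := by
    intro z hz h
    rw [h, norm_zero] at hz
    linarith
  have hD : ∀ z : ℂ, 1 < ‖z - 1‖ → ‖z - 1‖ < ‖z ^ 2 - 3 * z + 3‖ →
      z ^ 2 - 3 * z + 3 ≠ 0 := by
    intro z hz hz' h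
    rw [h, norm_zero] at hz'
    linarith
  have hroot : (NP (fun _ => 0)).eval z₁ = 0 := by
    have h4 := hP z₁
    rw [hz] at h4
    rcases mul_eq_zero.1 h4 with h5 | h5
    · exact absurd h5 (pow_ne_zero _ (hz0 z₁ h1))
    · exact h5
  have hopen : IsOpen {ξ : ℂ | 1 < ‖ξ - 1‖ ∧ ‖ξ - 1‖ < ‖ξ ^ 2 - 3 * ξ + 3‖ ∧
      ‖ξ - 3‖ < ‖ξ ^ 2 - 3 * ξ + 3‖} := by
    have o1 : IsOpen {ξ : ℂ | 1 < ‖ξ - 1‖} := isOpen_lt (by fun_prop) (by fun_prop)
    have o2 : IsOpen {ξ : ℂ | ‖ξ - 1‖ < ‖ξ ^ 2 - 3 * ξ + 3‖} :=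
      isOpen_lt (by fun_prop) (by fun_prop)
    have o3 : IsOpen {ξ : ℂ | ‖ξ - 3‖ < ‖ξ ^ 2 - 3 * ξ + 3‖} :=
      isOpen_lt (by fun_prop) (by fun_prop)
    exact o1.inter (o2.inter o3)
  obtain ⟨r₀, hr₀, hball⟩ := Metric.isOpen_iff.1 hopen z₁ ⟨h1, h2, h3⟩
  have hne : ¬ ∀ᶠ z in 𝓝 z₁, (NP (fun _ => 0)).eval z = 0 := by
    intro h
    apply hPne
    refine Polynomial.eq_zero_of_infinite_isRoot _ ?_
    exact infinite_of_mem_nhds z₁ h
  have hur := hurw (fun l z => whit (Gr n m (l + 1)) z *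
      (z * (z - 1) / (z ^ 2 - 3 * z + 3) ^ (l + 1)) ^ (n * m))
    (fun z => (NP (fun _ => 0)).eval z) z₁ r₀ hr₀
    (Eventually.of_forall fun l => by
      refine (j26182_diff _).differentiableOn.mul ?_
      refine DifferentiableOn.pow ?_ _
      refine DifferentiableOn.div (by fun_prop) (by fun_prop) ?_
      intro z hz
      obtain ⟨hz2, hz3, _⟩ := hball hz
      exact pow_ne_zero _ (hD z hz2 hz3))
    (NP (fun _ => 0)).differentiable.differentiableOn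
    (fun ξ hξ => by
      obtain ⟨hz2, hz3, hz4⟩ := hball hξ
      exact j26182_lim n m NP hNP2 ξ hz2 hz3 hz4) hroot hne (min ε r₀) (lt_min hε hr₀)
  obtain ⟨l, z, hzb, hzF⟩ := hur.exists
  have hzε : z ∈ Metric.ball z₁ ε := Metric.ball_subset_ball (min_le_left _ _) hzb
  have hzr : z ∈ Metric.ball z₁ r₀ := Metric.ball_subset_ball (min_le_right _ _) hzb
  obtain ⟨hz2, hz3, _⟩ := hball hzr
  refine ⟨l, z, hzε, ?_⟩
  rcases mul_eq_zero.1 hzF with h | h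
  · exact h
  · exfalso
    exact (pow_ne_zero _ (div_ne_zero (mul_ne_zero (hz0 z hz2) (hz1 z hz2))
      (pow_ne_zero _ (hD z hz2 hz3)))) h




end Pool.Agent.Helper759.Chrom
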