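import Mathlib
import Pool.Agent.Helper759.ChromDefs
set_option autoImplicit false
open Classical Filter Topology

namespace Pool.Agent.Helper759.Chrom

/-- one-directional adjacency after adding fans: for every `i` a path with `N` inner vertices
from `t i` to `t' i`, all inner vertices joined to `r i` -/
def relF {V I : Type} (H : SimpleGraph V) (r t t' : I → V) (N : ℕ) :
    V ⊕ (I × Fin N) → V ⊕ (I × Fin N) → Prop
  | Sum.inl u, Sum.inl v => H.Adj u v
  | Sum.inl u, Sum.inr (i, k) => u = r i ∨ (u = t i ∧ (k : ℕ) = 0) ∨ (u = t' i ∧ (k : ℕ) + 1 = N)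
  | Sum.inr (i, k), Sum.inr (i', k') => i = i' ∧ (k' : ℕ) = k + 1
  | Sum.inr _, Sum.inl _ => False

/-- the graph `H` with fans of length `N` added -/
def Fan {V I : Type} (H : SimpleGraph V) (r t t' : I → V) (N : ℕ) :
    SimpleGraph (V ⊕ (I × Fin N)) := SimpleGraph.fromRel (relF H r t t' N)

/-- coefficients `(α, β)` of a fan with `N` inner vertices -/
noncomputable def fa (z : ℂ) : ℕ → ℂ × ℂ
  | 0 => (1, -1)
  | (N + 1) => ((z - 2) * (fa z N).1 + (fa z N).2, -(fa z N).2)

/-- vertices of the base graph: path vertices `v i j`, apexes `s i j`, poles -/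
abbrev V0 (n m : ℕ) := (Fin (n + 1) × Fin (2 * m + 2)) ⊕ ((Fin (n + 1) × Fin (2 * m + 3)) ⊕ Bool)

/-- one-directional adjacency of the base graph: a theta graph with `n+1` paths of `2m+3` edges
between the poles `inr (inr false)` and `inr (inr true)`, with a triangle on every path edge -/
def rel0 (n m : ℕ) : V0 n m → V0 n m → Prop
  | Sum.inl (i, j), Sum.inl (i', j') => i = i' ∧ (j' : ℕ) = j + 1
  | Sum.inr (Sum.inr false), Sum.inl (_, j) => (j : ℕ) = 0
  | Sum.inr (Sum.inr true), Sum.inl (_, j) => (j : ℕ) + 1 = 2 * m + 2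
  | Sum.inr (Sum.inl (i, j)), Sum.inl (i', j') => i = i' ∧ ((j' : ℕ) = j ∨ (j' : ℕ) + 1 = j)
  | Sum.inr (Sum.inr false), Sum.inr (Sum.inl (_, j)) => (j : ℕ) = 0
  | Sum.inr (Sum.inr true), Sum.inr (Sum.inl (_, j)) => (j : ℕ) = 2 * m + 2
  | _, _ => False

/-- the base graph -/
def H0 (n m : ℕ) : SimpleGraph (V0 n m) := SimpleGraph.fromRel (rel0 n m)

/-- index type of the fans: one around every path vertex, one around the pole `false` between
consecutive paths -/
abbrev I0 (n m : ℕ) := (Fin (n + 1) × Fin (2 * m + 2)) ⊕ Fin n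

/-- hubs of the fans -/
def fr (n m : ℕ) : I0 n m → V0 n m
  | Sum.inl (i, j) => Sum.inl (i, j)
  | Sum.inr _ => Sum.inr (Sum.inr false)
/-- first ends of the fans -/
def ft (n m : ℕ) : I0 n m → V0 n m
  | Sum.inl (i, j) => Sum.inr (Sum.inl (i, j.castSucc))
  | Sum.inr i => Sum.inr (Sum.inl (i.castSucc, 0))
/-- last ends of the fans -/
def ft' (n m : ℕ) : I0 n m → V0 n m
  | Sum.inl (i, j) => Sum.inr (Sum.inl (i, j.succ))
  | Sum.inr i => Sum.inl (i.succ, 0)

/-- the fan-braced theta graph -/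
def FG (n m N : ℕ) : SimpleGraph (V0 n m ⊕ (I0 n m × Fin N)) := Fan (H0 n m) (fr n m) (ft n m) (ft' n m) N


end Pool.Agent.Helper759.Chrom
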