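import Mathlib
import Pool.Agent.Helper759.ChromDefs
import Pool.Agent.Helper759.ChromA
import Pool.Agent.Helper759.ChromB
import Pool.Agent.Helper759.FanDefs
set_option autoImplicit false
open Classical Filter Topology

namespace Pool.Agent.Helper759.Chrom

/-- `u` is a walk from `x` to `y` avoiding `ρ` -/
def fan_count_P {q : ℕ} (N : ℕ) (ρ x y : Fin q) (u : Fin (N + 1) → Fin q) : Prop :=
  (∀ k, u k ≠ ρ) ∧ x ≠ u 0 ∧ (∀ k : Fin N, u k.castSucc ≠ u k.succ) ∧ y ≠ u (Fin.last N)

theorem fan_count_cons {q : ℕ} (N : ℕ) (ρ x y a : Fin q) (w : Fin (N + 1) → Fin q) :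
    fan_count_P (N + 1) ρ x y (Fin.cons a w : Fin (N + 2) → Fin q) ↔
      (a ≠ ρ ∧ x ≠ a) ∧ fan_count_P N ρ a y w := by
  unfold fan_count_P
  have e1 : (∀ k : Fin (N + 2), (Fin.cons a w : Fin (N + 2) → Fin q) k ≠ ρ)
      ↔ a ≠ ρ ∧ ∀ k, w k ≠ ρ := by
    rw [Fin.forall_fin_succ]
    simp only [Fin.cons_zero, Fin.cons_succ]
  have e2 : (∀ k : Fin (N + 1), (Fin.cons a w : Fin (N + 2) → Fin q) k.castSucc
      ≠ (Fin.cons a w : Fin (N + 2) → Fin q) k.succ)
      ↔ a ≠ w 0 ∧ ∀ k : Fin N, w k.castSucc ≠ w k.succ := by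
    rw [Fin.forall_fin_succ]
    simp only [Fin.castSucc_zero, Fin.cons_zero, Fin.cons_succ, ← Fin.succ_castSucc]
  rw [e1, e2, ← Fin.succ_last, Fin.cons_succ, Fin.cons_zero]
  tauto

theorem fan_count_ev {q : ℕ} (ρ x y : Fin q) (hx : x ≠ ρ) (hy : y ≠ ρ) (A B : ℂ) :
    (∑ a : Fin q, if (a ≠ ρ ∧ x ≠ a) then (A + if a = y then B else 0) else 0)
      = ((q : ℂ) - 2) * A + B - (if x = y then B else 0) := by
  have e : ∀ a : Fin q, (if (a ≠ ρ ∧ x ≠ a) then (A + if a = y then B else 0) else 0)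
      = (A + if a = y then B else 0) - (if a = ρ then A else 0)
        - (if a = x then (A + if x = y then B else 0) else 0) := by
    intro a
    by_cases h1 : a = ρ
    · have h2 : a ≠ y := fun h => hy (h ▸ h1)
      have h3 : a ≠ x := fun h => hx (h ▸ h1)
      rw [if_neg (by tauto), if_neg h2, if_pos h1, if_neg h3]
      ring
    · by_cases h2 : a = x
      · subst h2
        rw [if_neg (by tauto), if_neg h1, if_pos rfl]
        ring
      · rw [if_pos ⟨h1, fun h => h2 h.symm⟩, if_neg h1, if_neg h2]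
        ring
  rw [Finset.sum_congr rfl (fun a _ => e a), Finset.sum_sub_distrib, Finset.sum_sub_distrib,
    Finset.sum_add_distrib, Finset.sum_ite_eq' Finset.univ y, Finset.sum_ite_eq' Finset.univ ρ,
    Finset.sum_ite_eq' Finset.univ x, Finset.sum_const, Finset.card_univ, Fintype.card_fin]
  simp only [Finset.mem_univ, if_true, nsmul_eq_mul]
  ring

theorem fan_count_W (q : ℕ) : ∀ (N : ℕ) (ρ x y : Fin q), x ≠ ρ → y ≠ ρ →
    (∑ u : Fin (N + 1) → Fin q, if fan_count_P N ρ x y u then (1 : ℂ) else 0)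
      = (fa (q : ℂ) (N + 1)).1 + (if x = y then (fa (q : ℂ) (N + 1)).2 else 0) := by
  intro N
  induction N with
  | zero =>
    intro ρ x y hx hy
    have e1 : (∑ u : Fin (0 + 1) → Fin q, if fan_count_P 0 ρ x y u then (1 : ℂ) else 0)
        = ∑ a : Fin q, if (a ≠ ρ ∧ x ≠ a) then ((1 : ℂ) + if a = y then (-1 : ℂ) else 0) else 0 := by
      refine Fintype.sum_equiv (Equiv.funUnique (Fin 1) (Fin q)) _ _ ?_
      intro u
      have e2 : (Equiv.funUnique (Fin 1) (Fin q)) u = u 0 := rfl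
      rw [e2]
      have e3 : fan_count_P 0 ρ x y u ↔ (u 0 ≠ ρ ∧ x ≠ u 0) ∧ y ≠ u 0 := by
        unfold fan_count_P
        have e4 : (∀ k : Fin (0 + 1), u k ≠ ρ) ↔ u 0 ≠ ρ := by
          rw [Fin.forall_fin_one]
        rw [e4]
        constructor
        · rintro ⟨h1, h2, _, h4⟩; exact ⟨⟨h1, h2⟩, h4⟩
        · rintro ⟨⟨h1, h2⟩, h4⟩; exact ⟨h1, h2, fun k => k.elim0, h4⟩
      by_cases h1 : u 0 ≠ ρ ∧ x ≠ u 0
      · rw [if_pos h1]
        by_cases h2 : u 0 = y
        · rw [if_neg (by rw [e3]; tauto), if_pos h2]; ring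
        · rw [if_pos (by rw [e3]; exact ⟨h1, fun h => h2 h.symm⟩), if_neg h2]; ring
      · rw [if_neg h1, if_neg (by rw [e3]; tauto)]
    rw [e1, fan_count_ev ρ x y hx hy]
    simp only [fa]
    split_ifs <;> ring
  | succ N ih =>
    intro ρ x y hx hy
    have e1 : (∑ u : Fin (N + 1 + 1) → Fin q, if fan_count_P (N + 1) ρ x y u then (1 : ℂ) else 0)
        = ∑ a : Fin q, if (a ≠ ρ ∧ x ≠ a) then ((fa (q : ℂ) (N + 1)).1
          + if a = y then (fa (q : ℂ) (N + 1)).2 else 0) else 0 := by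
      rw [← (Fin.consEquiv (fun _ : Fin (N + 2) => Fin q)).sum_comp, Fintype.sum_prod_type]
      refine Finset.sum_congr rfl ?_
      intro a _
      by_cases h1 : a ≠ ρ ∧ x ≠ a
      · rw [if_pos h1, ← ih ρ a y h1.1 hy]
        refine Finset.sum_congr rfl ?_
        intro w _
        have e2 := fan_count_cons N ρ x y a w
        change (if fan_count_P (N + 1) ρ x y (Fin.cons a w : Fin (N + 2) → Fin q) then (1 : ℂ)
          else 0) = _
        by_cases h3 : fan_count_P N ρ a y w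
        · rw [if_pos (e2.2 ⟨h1, h3⟩), if_pos h3]
        · rw [if_neg (fun h => h3 (e2.1 h).2), if_neg h3]
      · rw [if_neg h1]
        refine Finset.sum_eq_zero ?_
        intro w _
        exact if_neg (fun h => h1 ((fan_count_cons N ρ x y a w).1 h).1)
    rw [e1, fan_count_ev ρ x y hx hy]
    simp only [fa]
    split_ifs <;> ring

theorem fan_count_proper {V I : Type} (H : SimpleGraph V) (r t t' : I → V) (N q : ℕ)
    (c : V ⊕ (I × Fin (N + 1)) → Fin q) :
    (∀ u v, (Fan H r t t' (N + 1)).Adj u v → c u ≠ c v) ↔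
      (∀ u v, H.Adj u v → c (Sum.inl u) ≠ c (Sum.inl v)) ∧
      ∀ i, fan_count_P N (c (Sum.inl (r i))) (c (Sum.inl (t i))) (c (Sum.inl (t' i)))
        (fun k => c (Sum.inr (i, k))) := by
  constructor
  · intro h
    have h' : ∀ u v, u ≠ v → relF H r t t' (N + 1) u v → c u ≠ c v := by
      intro u v h1 h2
      refine h u v ?_
      rw [Fan, SimpleGraph.fromRel_adj]
      exact ⟨h1, Or.inl h2⟩
    refine ⟨fun u v huv => h' _ _ ?_ huv, fun i => ⟨fun k => ?_, ?_, fun k => ?_, ?_⟩⟩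
    · intro he; exact huv.ne (Sum.inl.inj he)
    · exact (h' (Sum.inl (r i)) (Sum.inr (i, k)) (by simp) (Or.inl rfl)).symm
    · exact h' (Sum.inl (t i)) (Sum.inr (i, 0)) (by simp) (Or.inr (Or.inl ⟨rfl, rfl⟩))
    · refine h' (Sum.inr (i, k.castSucc)) (Sum.inr (i, k.succ)) ?_ ⟨rfl, by simp⟩
      intro he
      have := congrArg Fin.val (Prod.ext_iff.mp (Sum.inr.inj he)).2
      simp at this
    · exact h' (Sum.inl (t' i)) (Sum.inr (i, Fin.last N)) (by simp) (Or.inr (Or.inr ⟨rfl, by simp⟩))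
  · rintro ⟨hA, hB⟩ u v huv
    have key : ∀ u v, relF H r t t' (N + 1) u v → c u ≠ c v := by
      intro u v h
      rcases u with u | ⟨i, k⟩
      · rcases v with v | ⟨i', k'⟩
        · exact hA u v h
        · rcases h with h | ⟨h, hk⟩ | ⟨h, hk⟩
          · rw [h]; exact ((hB i').1 k').symm
          · have hk0 : k' = 0 := Fin.ext hk
            rw [h, hk0]; exact (hB i').2.1
          · have hk0 : k' = Fin.last N := Fin.ext (by simp at hk ⊢; omega)
            rw [h, hk0]; exact (hB i').2.2.2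
      · rcases v with v | ⟨i', k'⟩
        · exact h.elim
        · obtain ⟨hi, hk⟩ := h
          subst hi
          have hkN : (k : ℕ) < N := by have := k'.2; omega
          have h1 := (hB i).2.2.1 ⟨k, hkN⟩
          have e1 : (⟨(k : ℕ), hkN⟩ : Fin N).castSucc = k := Fin.ext rfl
          have e2 : (⟨(k : ℕ), hkN⟩ : Fin N).succ = k' := Fin.ext (by simp [hk])
          simp only [e1, e2] at h1
          exact h1
    rw [Fan, SimpleGraph.fromRel_adj] at huv
    rcases huv.2 with h | h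
    · exact key u v h
    · exact (key v u h).symm

theorem fan_count_sumEq {α β : Type} (i1 : Fintype α) (i2 : Fintype β) (e : α ≃ β) (f : α → ℂ)
    (g : β → ℂ) (h : ∀ x, f x = g (e x)) :
    (@Finset.univ α i1).sum f = (@Finset.univ β i2).sum g :=
  Fintype.sum_equiv e f g h

/-- TARGET. -/
theorem fan_count {V I : Type} [Fintype V] [Fintype I] (H : SimpleGraph V) (r t t' : I → V)
    (h1 : ∀ i, H.Adj (r i) (t i)) (h2 : ∀ i, H.Adj (r i) (t' i)) (N q : ℕ) :
    cnt (Fan H r t t' (N + 1)) q =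
      ∑ φ : I → Bool, (∏ i, if φ i then (fa (q : ℂ) (N + 1)).2 else (fa (q : ℂ) (N + 1)).1) *
        ∑ c : V → Fin q, if ((∀ u v, H.Adj u v → c u ≠ c v) ∧ ∀ i, φ i = true → c (t i) = c (t' i))
          then 1 else 0 := by
  have step1 : cnt (Fan H r t t' (N + 1)) q
      = ∑ c : V → Fin q, ∑ d : I → Fin (N + 1) → Fin q,
        if ((∀ u v, H.Adj u v → c u ≠ c v) ∧
          ∀ i, fan_count_P N (c (r i)) (c (t i)) (c (t' i)) (d i)) then (1 : ℂ) else 0 := by
    unfold cnt
    refine Eq.trans (fan_count_sumEq _ inferInstance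
      (Equiv.sumArrowEquivProdArrow V (I × Fin (N + 1)) (Fin q)) _
      (fun p => if ((∀ u v, H.Adj u v → p.1 u ≠ p.1 v) ∧
          ∀ i, fan_count_P N (p.1 (r i)) (p.1 (t i)) (p.1 (t' i)) (fun k => p.2 (i, k)))
            then (1 : ℂ) else 0) ?_) ?_
    · intro c
      have e := fan_count_proper H r t t' N q c
      by_cases hp : ∀ u v, (Fan H r t t' (N + 1)).Adj u v → c u ≠ c v
      · rw [if_pos hp]
        exact (if_pos (e.1 hp)).symm
      · rw [if_neg hp]
        exact (if_neg (fun h => hp (e.2 h))).symm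
    · rw [Fintype.sum_prod_type]
      refine Finset.sum_congr rfl ?_
      intro c _
      refine fan_count_sumEq _ _ (Equiv.curry I (Fin (N + 1)) (Fin q)) _ _ ?_
      intro d
      rfl
  have step2 : ∀ c : V → Fin q, (∑ d : I → Fin (N + 1) → Fin q,
        if ((∀ u v, H.Adj u v → c u ≠ c v) ∧
          ∀ i, fan_count_P N (c (r i)) (c (t i)) (c (t' i)) (d i)) then (1 : ℂ) else 0)
      = ∑ φ : I → Bool, (∏ i, if φ i then (fa (q : ℂ) (N + 1)).2 else (fa (q : ℂ) (N + 1)).1) *
        (if ((∀ u v, H.Adj u v → c u ≠ c v) ∧ ∀ i, φ i = true → c (t i) = c (t' i))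
          then 1 else 0) := by
    intro c
    by_cases hc : ∀ u v, H.Adj u v → c u ≠ c v
    · have e1 : (∑ d : I → Fin (N + 1) → Fin q,
          if ((∀ u v, H.Adj u v → c u ≠ c v) ∧
            ∀ i, fan_count_P N (c (r i)) (c (t i)) (c (t' i)) (d i)) then (1 : ℂ) else 0)
          = ∑ d : I → Fin (N + 1) → Fin q, ∏ i,
            (if fan_count_P N (c (r i)) (c (t i)) (c (t' i)) (d i) then (1 : ℂ) else 0) := by
        refine Finset.sum_congr rfl ?_
        intro d _
        by_cases hd : ∀ i, fan_count_P N (c (r i)) (c (t i)) (c (t' i)) (d i)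
        · rw [if_pos ⟨hc, hd⟩]
          symm
          exact Finset.prod_eq_one (fun i _ => if_pos (hd i))
        · rw [if_neg (fun h => hd h.2)]
          push Not at hd
          obtain ⟨i, hi⟩ := hd
          symm
          exact Finset.prod_eq_zero (Finset.mem_univ i) (if_neg hi)
      have e2 : (∑ d : I → Fin (N + 1) → Fin q, ∏ i,
            (if fan_count_P N (c (r i)) (c (t i)) (c (t' i)) (d i) then (1 : ℂ) else 0))
          = ∏ i, ∑ u : Fin (N + 1) → Fin q,
            (if fan_count_P N (c (r i)) (c (t i)) (c (t' i)) u then (1 : ℂ) else 0) := by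
        rw [Finset.prod_univ_sum, Fintype.piFinset_univ]
      have e3 : ∀ i, (∑ u : Fin (N + 1) → Fin q,
            (if fan_count_P N (c (r i)) (c (t i)) (c (t' i)) u then (1 : ℂ) else 0))
          = ∑ b : Bool, (if b then (if c (t i) = c (t' i) then (fa (q : ℂ) (N + 1)).2 else 0)
              else (fa (q : ℂ) (N + 1)).1) := by
        intro i
        rw [fan_count_W q N _ _ _ (hc _ _ (h1 i)).symm (hc _ _ (h2 i)).symm, Fintype.sum_bool]
        simp only [if_true, Bool.false_eq_true, if_false]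
        ring
      rw [e1, e2, Finset.prod_congr rfl (fun i _ => e3 i), Finset.prod_univ_sum,
        Fintype.piFinset_univ]
      refine Finset.sum_congr rfl ?_
      intro φ _
      by_cases hφ : ∀ i, φ i = true → c (t i) = c (t' i)
      · rw [if_pos ⟨hc, hφ⟩, mul_one]
        refine Finset.prod_congr rfl ?_
        intro i _
        by_cases hi : φ i = true
        · rw [if_pos hi, if_pos hi, if_pos (hφ i hi)]
        · rw [if_neg hi, if_neg hi]
      · rw [if_neg (fun h => hφ h.2), mul_zero]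
        push Not at hφ
        obtain ⟨i, hi, hne⟩ := hφ
        refine Finset.prod_eq_zero (Finset.mem_univ i) ?_
        rw [if_pos hi, if_neg hne]
    · rw [Finset.sum_eq_zero (fun d _ => if_neg (fun h => hc h.1))]
      symm
      refine Finset.sum_eq_zero ?_
      intro φ _
      rw [if_neg (fun h => hc h.1), mul_zero]
  rw [step1, Finset.sum_congr rfl (fun c _ => step2 c), Finset.sum_comm]
  refine Finset.sum_congr rfl ?_
  intro φ _
  rw [Finset.mul_sum]





theorem fw_poly_ext (P Q : Polynomial ℂ) (h : ∀ q : ℕ, P.eval (q : ℂ) = Q.eval (q : ℂ)) :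
    ∀ z, P.eval z = Q.eval z := by
  have hPQ : P = Q := by
    apply Polynomial.eq_of_infinite_eval_eq
    refine (Set.infinite_range_of_injective (Nat.cast_injective (R := ℂ))).mono ?_
    rintro _ ⟨q, rfl⟩
    exact h q
  intro z
  rw [hPQ]

theorem fw_fa (N : ℕ) : ∃ P1 P2 : Polynomial ℂ, ∀ z, (fa z N).1 = P1.eval z ∧
    (fa z N).2 = P2.eval z := by
  induction N with
  | zero => exact ⟨1, -1, fun z => by simp [fa]⟩
  | succ N ih =>
    obtain ⟨P1, P2, h⟩ := ih
    refine ⟨(Polynomial.X - 2) * P1 + P2, -P2, fun z => ⟨?_, ?_⟩⟩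
    · show (z - 2) * (fa z N).1 + (fa z N).2 = _
      rw [(h z).1, (h z).2]
      simp
    · show -(fa z N).2 = _
      rw [(h z).2]
      simp

theorem fw_whit {V : Type} [Fintype V] (G : SimpleGraph V) :
    ∃ W : Polynomial ℂ, ∀ z, whit G z = W.eval z := by
  refine ⟨∑ S ∈ G.edgeFinset.powerset, Polynomial.C ((-1 : ℂ) ^ S.card) * Polynomial.X ^
    Nat.card (SimpleGraph.fromEdgeSet (↑S : Set (Sym2 V))).ConnectedComponent, fun z => ?_⟩
  rw [Polynomial.eval_finsetSum]
  unfold whit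
  refine Finset.sum_congr rfl fun S _ => ?_
  rw [Polynomial.eval_mul, Polynomial.eval_C, Polynomial.eval_pow, Polynomial.eval_X]

/-- TARGET. -/
theorem fan_whit {V I : Type} [Fintype V] [Fintype I] (H : SimpleGraph V) (r t t' : I → V)
    (h1 : ∀ i, H.Adj (r i) (t i)) (h2 : ∀ i, H.Adj (r i) (t' i)) :
    ∃ NP : (I → Bool) → Polynomial ℂ, (∀ z, (NP (fun _ => false)).eval z = whit H z) ∧
      ∀ (N : ℕ) (z : ℂ), whit (Fan H r t t' (N + 1)) z =
        ∑ φ : I → Bool, (∏ i, if φ i then (fa z (N + 1)).2 else (fa z (N + 1)).1) * (NP φ).eval z := by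
  choose NP hNP using fun φ : I → Bool => pat_poly (V := V)
    (fun E => if (∀ u v, H.Adj u v → ¬ E u v) ∧ ∀ i, φ i = true → E (t i) (t' i) then 1 else 0)
  refine ⟨NP, ?_, ?_⟩
  · obtain ⟨W, hW⟩ := fw_whit H
    intro z
    rw [hW]
    refine fw_poly_ext _ _ (fun q => ?_) z
    rw [← hW, whit_nat, hNP]
    unfold cnt
    refine Finset.sum_congr rfl fun c _ => ?_
    by_cases h : ∀ u v, H.Adj u v → c u ≠ c v
    · rw [if_pos h, if_pos ⟨h, fun i hi => absurd hi (by simp)⟩]
    · rw [if_neg h, if_neg (fun h' => h h'.1)]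
  · intro N
    obtain ⟨W, hW⟩ := fw_whit (Fan H r t t' (N + 1))
    obtain ⟨P1, P2, hP⟩ := fw_fa (N + 1)
    have hQ : ∀ z, (∑ φ : I → Bool, (∏ i, if φ i then P2 else P1) * NP φ).eval z =
        ∑ φ : I → Bool, (∏ i, if φ i then (fa z (N + 1)).2 else (fa z (N + 1)).1) *
          (NP φ).eval z := by
      intro z
      rw [Polynomial.eval_finsetSum]
      refine Finset.sum_congr rfl fun φ _ => ?_
      rw [Polynomial.eval_mul, Polynomial.eval_prod]
      congr 1
      refine Finset.prod_congr rfl fun i _ => ?_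
      rw [(hP z).1, (hP z).2]
      split_ifs <;> rfl
    intro z
    rw [← hQ, hW]
    refine fw_poly_ext _ _ (fun q => ?_) z
    rw [hQ, ← hW, whit_nat, fan_count H r t t' h1 h2 N q]
    refine Finset.sum_congr rfl fun φ _ => ?_
    rw [hNP]
    congr 1
    refine Finset.sum_congr rfl fun c _ => ?_
    by_cases h : (∀ u v, H.Adj u v → c u ≠ c v) ∧ ∀ i, φ i = true → c (t i) = c (t' i)
    · rw [if_pos h, if_pos h]
    · rw [if_neg h, if_neg h]





theorem j29789_beta (z : ℂ) (N : ℕ) : (fa z N).2 = (-1) ^ (N + 1) := by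
  induction N with
  | zero => simp [fa]
  | succ N ih =>
    simp only [fa]
    rw [ih]
    ring

theorem j29789_alpha (z : ℂ) (N : ℕ) :
    (z - 1) * (fa z N).1 = (z - 2) ^ (N + 1) - (-1) ^ (N + 1) := by
  induction N with
  | zero => simp [fa]; ring
  | succ N ih =>
    simp only [fa]
    rw [j29789_beta z N]
    have : (z - 1) * ((z - 2) * (fa z N).1 + (-1) ^ (N + 1)) =
        (z - 2) * ((z - 1) * (fa z N).1) + (z - 1) * (-1) ^ (N + 1) := by ring
    rw [this, ih]
    ring

theorem j29789_pow (g : ℂ → ℂ) (ξ : ℂ) (hg : ContinuousAt g ξ) (h1 : ‖g ξ‖ < 1) :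
    Tendsto (fun p : ℕ × ℂ => g p.2 ^ (p.1 + 2)) (atTop ×ˢ 𝓝 ξ) (𝓝 0) := by
  obtain ⟨ρ, h2, h3⟩ := exists_between h1
  have hρ0 : 0 ≤ ρ := (norm_nonneg _).trans h2.le
  have hev : ∀ᶠ z in 𝓝 ξ, ‖g z‖ < ρ := hg.norm.eventually_lt_const h2
  have hev2 : ∀ᶠ p : ℕ × ℂ in atTop ×ˢ 𝓝 ξ, ‖g p.2 ^ (p.1 + 2)‖ ≤ ρ ^ (p.1 + 2) := by
    have := (tendsto_snd (f := (atTop : Filter ℕ)) (g := 𝓝 ξ)).eventually hev
    filter_upwards [this] with p hp
    rw [norm_pow]
    exact pow_le_pow_left₀ (norm_nonneg _) hp.le _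
  have hlim : Tendsto (fun p : ℕ × ℂ => ρ ^ (p.1 + 2)) (atTop ×ˢ 𝓝 ξ) (𝓝 0) := by
    have h4 : Tendsto (fun n : ℕ => ρ ^ (n + 2)) atTop (𝓝 0) :=
      (tendsto_add_atTop_iff_nat 2).mpr (tendsto_pow_atTop_nhds_zero_of_lt_one hρ0 h3)
    exact h4.comp tendsto_fst
  exact squeeze_zero_norm' hev2 hlim

theorem j29789_cnt {V : Type} [Fintype V] (H : SimpleGraph V) :
    cnt H (Fintype.card V) ≠ 0 := by
  unfold cnt
  rw [Finset.sum_boole]
  rw [Nat.cast_ne_zero]
  apply Finset.card_ne_zero_of_mem (a := fun v => Fintype.equivFin V v)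
  rw [Finset.mem_filter]
  refine ⟨Finset.mem_univ _, ?_⟩
  intro u v huv he
  exact huv.ne ((Fintype.equivFin V).injective he)

/-- TARGET. -/
theorem fan_limit {V I : Type} [Fintype V] [Fintype I] (H : SimpleGraph V) (r t t' : I → V)
    (h1 : ∀ i, H.Adj (r i) (t i)) (h2 : ∀ i, H.Adj (r i) (t' i)) (z₁ : ℂ) (hz : 1 < ‖z₁ - 2‖)
    (h0 : whit H z₁ = 0) (ε : ℝ) (hε : 0 < ε) :
    ∃ N : ℕ, ∃ z ∈ Metric.ball z₁ ε, whit (Fan H r t t' (N + 1)) z = 0 := by
  obtain ⟨NP, hNP0, hNP⟩ := fan_whit H r t t' h1 h2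
  set r₀ : ℝ := ‖z₁ - 2‖ - 1 with hr₀def
  have hr₀ : 0 < r₀ := by rw [hr₀def]; linarith
  have hball : ∀ z ∈ Metric.ball z₁ r₀, 1 < ‖z - 2‖ := by
    intro z hz'
    rw [Metric.mem_ball, dist_eq_norm] at hz'
    have h3 : ‖z₁ - 2‖ ≤ ‖z - 2‖ + ‖z - z₁‖ := by
      have : z₁ - 2 = (z - 2) - (z - z₁) := by ring
      rw [this]
      exact norm_sub_le _ _
    linarith
  have hne2 : ∀ z ∈ Metric.ball z₁ r₀, z - 2 ≠ 0 := by
    intro z hz' h
    have := hball z hz'
    rw [h, norm_zero] at this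
    linarith
  have hne1 : ∀ z ∈ Metric.ball z₁ r₀, z - 1 ≠ 0 := by
    intro z hz' h
    have h3 := hball z hz'
    have h4 : z = 1 := by linear_combination h
    rw [h4] at h3
    norm_num at h3
  let g : ℂ → ℂ := fun z => -(z - 2)⁻¹
  let F : ℕ → ℂ → ℂ := fun N z =>
    ∑ φ : I → Bool, (∏ i, if φ i then (z - 1) * g z ^ (N + 2) else 1 - g z ^ (N + 2)) *
      (NP φ).eval z
  have hgd : DifferentiableOn ℂ g (Metric.ball z₁ r₀) := by
    intro z hz'
    have h3 : DifferentiableAt ℂ (fun z : ℂ => z - 2) z := by fun_prop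
    exact ((h3.inv (hne2 z hz')).neg).differentiableWithinAt
  have hF : ∀ᶠ n in atTop, DifferentiableOn ℂ (F n) (Metric.ball z₁ r₀) := by
    refine Eventually.of_forall fun n => ?_
    apply DifferentiableOn.fun_sum
    intro φ _
    apply DifferentiableOn.mul
    · apply DifferentiableOn.fun_finsetProd
      intro i _
      by_cases hφ : φ i = true
      · simp only [hφ, if_true]
        exact (by fun_prop : DifferentiableOn ℂ (fun z : ℂ => z - 1) _).mul (hgd.pow _)
      · simp only [hφ]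
        exact (differentiableOn_const _).sub (hgd.pow _)
    · exact (Polynomial.differentiable _).differentiableOn
  have hf : DifferentiableOn ℂ (whit H) (Metric.ball z₁ r₀) := by
    have : whit H = fun z => (NP (fun _ => false)).eval z := by
      funext z; exact (hNP0 z).symm
    rw [this]
    exact (Polynomial.differentiable _).differentiableOn
  have hc : ∀ ξ ∈ Metric.ball z₁ r₀,
      Tendsto (fun p : ℕ × ℂ => F p.1 p.2) (atTop ×ˢ 𝓝 ξ) (𝓝 (whit H ξ)) := by
    intro ξ hξ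
    have hgc : ContinuousAt g ξ :=
      (hgd.differentiableAt (Metric.isOpen_ball.mem_nhds hξ)).continuousAt
    have hg1 : ‖g ξ‖ < 1 := by
      simp only [g, norm_neg, norm_inv]
      exact inv_lt_one_of_one_lt₀ (hball ξ hξ)
    have hp := j29789_pow g ξ hgc hg1
    have hz1 : Tendsto (fun p : ℕ × ℂ => p.2 - 1) (atTop ×ˢ 𝓝 ξ) (𝓝 (ξ - 1)) :=
      (tendsto_snd).sub_const 1
    have hB : Tendsto (fun p : ℕ × ℂ => (p.2 - 1) * g p.2 ^ (p.1 + 2)) (atTop ×ˢ 𝓝 ξ) (𝓝 0) := by
      have := hz1.mul hp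
      rwa [mul_zero] at this
    have hA : Tendsto (fun p : ℕ × ℂ => 1 - g p.2 ^ (p.1 + 2)) (atTop ×ˢ 𝓝 ξ) (𝓝 1) := by
      have := (tendsto_const_nhds (x := (1 : ℂ)) (f := (atTop : Filter ℕ) ×ˢ 𝓝 ξ)).sub hp
      rwa [sub_zero] at this
    have hlim : Tendsto (fun p : ℕ × ℂ => F p.1 p.2) (atTop ×ˢ 𝓝 ξ)
        (𝓝 (∑ φ : I → Bool, (∏ i, if φ i then (0 : ℂ) else 1) * (NP φ).eval ξ)) := by
      apply tendsto_finsetSum
      intro φ _
      apply Tendsto.mul
      · apply tendsto_finsetProd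
        intro i _
        by_cases hφ : φ i = true
        · simp only [hφ, if_true]; exact hB
        · simp only [hφ]; exact hA
      · exact ((Polynomial.continuous _).tendsto ξ).comp tendsto_snd
    have hval : (∑ φ : I → Bool, (∏ i, if φ i then (0 : ℂ) else 1) * (NP φ).eval ξ) = whit H ξ := by
      rw [Finset.sum_eq_single (fun _ => false)]
      · simp [hNP0]
      · intro φ _ hφ
        have : ∃ i, φ i = true := by
          by_contra hcon
          push Not at hcon
          apply hφ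
          funext i
          simpa using hcon i
        obtain ⟨i, hi⟩ := this
        rw [Finset.prod_eq_zero (Finset.mem_univ i) (by simp [hi]), zero_mul]
      · intro h; exact absurd (Finset.mem_univ _) h
    rw [hval] at hlim
    exact hlim
  have hne : ¬ ∀ᶠ z in 𝓝 z₁, whit H z = 0 := by
    intro hev
    have hinf : Set.Infinite {z : ℂ | whit H z = 0} := infinite_of_mem_nhds z₁ hev
    have hP : NP (fun _ => false) = 0 := by
      apply Polynomial.eq_zero_of_infinite_isRoot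
      apply hinf.mono
      intro z hz'
      show (NP (fun _ => false)).eval z = 0
      rw [hNP0]
      exact hz'
    have h3 : whit H ((Fintype.card V : ℕ) : ℂ) = 0 := by
      rw [← hNP0, hP]; simp
    rw [whit_nat] at h3
    exact j29789_cnt H h3
  have key := hurw F (whit H) z₁ r₀ hr₀ hF hf hc h0 hne (min ε r₀) (lt_min hε hr₀)
  obtain ⟨N, z, hzb, hFz⟩ := key.exists
  have hzε : z ∈ Metric.ball z₁ ε := Metric.ball_subset_ball (min_le_left _ _) hzb
  have hzr : z ∈ Metric.ball z₁ r₀ := Metric.ball_subset_ball (min_le_right _ _) hzb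
  refine ⟨N, z, hzε, ?_⟩
  have hz2 := hne2 z hzr
  have hz1 := hne1 z hzr
  have hcne : (z - 1) / (z - 2) ^ (N + 2) ≠ 0 := div_ne_zero hz1 (pow_ne_zero _ hz2)
  have hgp : g z ^ (N + 2) = (-1) ^ (N + 2) / (z - 2) ^ (N + 2) := by
    simp only [g]
    rw [neg_eq_neg_one_mul, mul_pow, inv_pow, div_eq_mul_inv]
  have hrel : F N z = whit (Fan H r t t' (N + 1)) z *
      ((z - 1) / (z - 2) ^ (N + 2)) ^ (Fintype.card I) := by
    simp only [F]
    rw [hNP, Finset.sum_mul]
    apply Finset.sum_congr rfl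
    intro φ _
    have hprod : (∏ i, if φ i then (z - 1) * g z ^ (N + 2) else 1 - g z ^ (N + 2)) =
        (∏ i, if φ i then (fa z (N + 1)).2 else (fa z (N + 1)).1) *
          ((z - 1) / (z - 2) ^ (N + 2)) ^ (Fintype.card I) := by
      rw [← Finset.card_univ, ← Finset.prod_const, ← Finset.prod_mul_distrib]
      apply Finset.prod_congr rfl
      intro i _
      have hpne : (z - 2) ^ (N + 2) ≠ 0 := pow_ne_zero _ hz2
      by_cases hφ : φ i = true
      · simp only [hφ, if_true]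
        rw [j29789_beta, hgp]
        field_simp
      · simp only [hφ]
        rw [hgp]
        have hα := j29789_alpha z (N + 1)
        show 1 - (-1) ^ (N + 2) / (z - 2) ^ (N + 2) = (fa z (N + 1)).1 * ((z - 1) / (z - 2) ^ (N + 2))
        rw [mul_div_assoc', mul_comm (fa z (N + 1)).1, hα, sub_div, div_self hpne]
    rw [hprod]
    ring
  rw [hrel] at hFz
  rcases mul_eq_zero.mp hFz with h | h
  · exact h
  · exact absurd h (pow_ne_zero _ hcne)



end Pool.Agent.Helper759.Chrom
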