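import Mathlib
import Pool.Agent.Helper759.ChromDefs
import Pool.Agent.Helper759.ChromA
import Pool.Agent.Helper759.FanDefs
set_option autoImplicit false
open Classical Filter Topology

namespace Pool.Agent.Helper759.Chrom

/-- values along a path with ends `x`, `y` and inner values `v` -/
def WW {q k : ℕ} (v : Fin k → Fin q) (x y : Fin q) : ℕ → Fin q
  | 0 => x
  | (j + 1) => if h : j < k then v ⟨j, h⟩ else y

theorem WW_lt {q k : ℕ} (v : Fin k → Fin q) (x y : Fin q) {j : ℕ} (h : j < k) :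
    WW v x y (j + 1) = v ⟨j, h⟩ := by
  simp [WW, h]

theorem WW_ge {q k : ℕ} (v : Fin k → Fin q) (x y : Fin q) {j : ℕ} (h : ¬ j < k) :
    WW v x y (j + 1) = y := by
  simp [WW, h]

/-- indicator -/
noncomputable def bi (P : Prop) : ℂ := if P then 1 else 0

theorem bi_true {P : Prop} (h : P) : bi P = 1 := by simp [bi, h]
theorem bi_false {P : Prop} (h : ¬ P) : bi P = 0 := by simp [bi, h]

theorem bi_congr {P Q : Prop} (h : P ↔ Q) : bi P = bi Q := by
  by_cases hP : P
  · rw [bi_true hP, bi_true (h.1 hP)]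
  · rw [bi_false hP, bi_false (fun hq => hP (h.2 hq))]

theorem bi_forall {ι : Type} [Fintype ι] (P : ι → Prop) : bi (∀ i, P i) = ∏ i, bi (P i) := by
  by_cases h : ∀ i, P i
  · rw [bi_true h]
    symm
    exact Finset.prod_eq_one fun i _ => bi_true (h i)
  · rw [bi_false h]
    push Not at h
    obtain ⟨i, hi⟩ := h
    symm
    exact Finset.prod_eq_zero (Finset.mem_univ i) (bi_false hi)

/-- number of proper colourings of a path with `k` inner vertices and prescribed ends -/
noncomputable def pc (q k : ℕ) (x y : Fin q) : ℂ :=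
  ∑ v : Fin k → Fin q, ∏ j : Fin (k + 1), bi (WW v x y j ≠ WW v x y (j + 1))

theorem WW_cons {q k : ℕ} (z : Fin q) (v : Fin k → Fin q) (x y : Fin q) (j : ℕ) :
    WW (Fin.cons z v : Fin (k + 1) → Fin q) x y (j + 1) = WW v z y j := by
  cases j with
  | zero => rw [WW_lt _ _ _ (Nat.succ_pos k)]; rfl
  | succ j =>
    by_cases h : j < k
    · rw [WW_lt _ _ _ (Nat.succ_lt_succ h), WW_lt _ _ _ h]
      rfl
    · rw [WW_ge _ _ _ (by omega), WW_ge _ _ _ h]

theorem pc_succ (q k : ℕ) (x y : Fin q) : pc q (k + 1) x y = ∑ z, bi (x ≠ z) * pc q k z y := by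
  unfold pc
  rw [← (Fin.consEquiv (fun _ : Fin (k + 1) => Fin q)).sum_comp, Fintype.sum_prod_type]
  apply Finset.sum_congr rfl
  intro z _
  rw [Finset.mul_sum]
  apply Finset.sum_congr rfl
  intro v _
  rw [Fin.prod_univ_succ]
  have e0 : (Fin.consEquiv (fun _ : Fin (k + 1) => Fin q)) (z, v) = (Fin.cons z v : Fin (k + 1) → Fin q) := rfl
  rw [e0]
  congr 1
  apply Finset.prod_congr rfl
  intro j _
  rw [Fin.val_succ, WW_cons, WW_cons]

theorem pc_eq (q k : ℕ) (x y : Fin q) : (q : ℂ) * pc q k x y =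
    if x = y then ((q : ℂ) - 1) ^ (k + 1) + (-1) ^ (k + 1) * ((q : ℂ) - 1)
      else ((q : ℂ) - 1) ^ (k + 1) - (-1) ^ (k + 1) := by
  induction k generalizing x y with
  | zero =>
    have h : pc q 0 x y = bi (x ≠ y) := by
      unfold pc
      rw [Fintype.sum_unique, Fin.prod_univ_one]
      apply bi_congr
      rw [show (((0 : Fin (0 + 1)) : ℕ) + 1) = 0 + 1 from rfl, WW_ge _ _ _ (by omega)]
      rfl
    rw [h]
    by_cases hxy : x = y
    · rw [if_pos hxy, bi_false (by simpa using hxy)]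
      ring
    · rw [if_neg hxy, bi_true hxy]
      ring
  | succ k ih =>
    rw [pc_succ, Finset.mul_sum]
    have h : ∀ z : Fin q, (q : ℂ) * (bi (x ≠ z) * pc q k z y) =
        (((q : ℂ) - 1) ^ (k + 1) - (-1) ^ (k + 1)) + (if z = y then (-1) ^ (k + 1) * (q : ℂ) else 0)
          - (if z = x then (((q : ℂ) - 1) ^ (k + 1) - (-1) ^ (k + 1)) +
            (if x = y then (-1) ^ (k + 1) * (q : ℂ) else 0) else 0) := by
      intro z
      have h1 : (q : ℂ) * (bi (x ≠ z) * pc q k z y) = bi (x ≠ z) * ((q : ℂ) * pc q k z y) := by ring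
      rw [h1, ih]
      by_cases hz : z = x
      · subst hz
        rw [bi_false (by simp)]
        simp
      · rw [bi_true (fun h => hz h.symm), if_neg hz]
        by_cases hy : z = y
        · rw [if_pos hy, if_pos hy]
          ring
        · rw [if_neg hy, if_neg hy]
          ring
    rw [Finset.sum_congr rfl fun z _ => h z, Finset.sum_sub_distrib, Finset.sum_add_distrib,
      Finset.sum_ite_eq' Finset.univ y, Finset.sum_ite_eq' Finset.univ x]
    simp only [Finset.mem_univ, if_true, Finset.sum_const, Finset.card_univ, Fintype.card_fin,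
      nsmul_eq_mul]
    by_cases hxy : x = y
    · rw [if_pos hxy, if_pos hxy]
      ring
    · rw [if_neg hxy, if_neg hxy]
      ring

theorem apex (q : ℕ) (x y : Fin q) :
    ∑ s : Fin q, bi (x ≠ y ∧ s ≠ x ∧ s ≠ y) = bi (x ≠ y) * ((q : ℂ) - 2) := by
  by_cases hxy : x = y
  · rw [bi_false (by simpa using hxy), zero_mul]
    exact Finset.sum_eq_zero fun s _ => bi_false (by simp [hxy])
  · rw [bi_true hxy, one_mul]
    have h : ∀ s : Fin q, bi (x ≠ y ∧ s ≠ x ∧ s ≠ y) =
        1 - (if s = x then 1 else 0) - (if s = y then (1:ℂ) else 0) := by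
      intro s
      by_cases h1 : s = x
      · subst h1
        rw [bi_false (by simp), if_pos rfl, if_neg hxy]
        ring
      · by_cases h2 : s = y
        · subst h2
          rw [bi_false (by simp), if_pos rfl, if_neg h1]
          ring
        · rw [bi_true ⟨hxy, h1, h2⟩, if_neg h1, if_neg h2]
          ring
    rw [Finset.sum_congr rfl fun s _ => h s, Finset.sum_sub_distrib, Finset.sum_sub_distrib,
      Finset.sum_ite_eq' Finset.univ y, Finset.sum_ite_eq' Finset.univ x]
    simp only [Finset.mem_univ, if_true, Finset.sum_const, Finset.card_univ, Fintype.card_fin,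
      nsmul_eq_mul]
    ring

/-- weight of one path -/
noncomputable def GG (q k : ℕ) (x y : Fin q) (t : (Fin k → Fin q) × (Fin (k + 1) → Fin q)) : ℂ :=
  ∏ j : Fin (k + 1), bi (WW t.1 x y j ≠ WW t.1 x y (j + 1) ∧ t.2 j ≠ WW t.1 x y j ∧
    t.2 j ≠ WW t.1 x y (j + 1))

theorem GG_sum (q k : ℕ) (x y : Fin q) :
    ∑ t, GG q k x y t = pc q k x y * ((q : ℂ) - 2) ^ (k + 1) := by
  rw [Fintype.sum_prod_type]
  unfold pc
  rw [Finset.sum_mul]
  apply Finset.sum_congr rfl
  intro v _
  have h := Finset.prod_univ_sum (fun _ : Fin (k + 1) => (Finset.univ : Finset (Fin q)))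
    (fun (j : Fin (k + 1)) (s : Fin q) => bi (WW v x y j ≠ WW v x y (j + 1) ∧ s ≠ WW v x y j ∧ s ≠ WW v x y (j + 1)))
  rw [Fintype.piFinset_univ] at h
  have e : ∑ s : Fin (k + 1) → Fin q, GG q k x y (v, s) =
      ∑ p : Fin (k + 1) → Fin q, ∏ j : Fin (k + 1), bi (WW v x y j ≠ WW v x y (j + 1) ∧
        p j ≠ WW v x y j ∧ p j ≠ WW v x y (j + 1)) := rfl
  rw [e, ← h, Finset.prod_congr rfl fun j _ => apex q _ _, Finset.prod_mul_distrib,
    Finset.prod_const, Finset.card_univ, Fintype.card_fin]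

/-- colourings of the base graph -/
def EE (n m q : ℕ) :
    ((Fin q × Fin q) × (Fin (n + 1) → (Fin (2 * m + 2) → Fin q) × (Fin (2 * m + 3) → Fin q))) ≃
      (V0 n m → Fin q) where
  toFun p := fun u => match u with
    | Sum.inl (i, j) => (p.2 i).1 j
    | Sum.inr (Sum.inl (i, j)) => (p.2 i).2 j
    | Sum.inr (Sum.inr false) => p.1.1
    | Sum.inr (Sum.inr true) => p.1.2
  invFun c := ((c (Sum.inr (Sum.inr false)), c (Sum.inr (Sum.inr true))),
    fun i => (fun j => c (Sum.inl (i, j)), fun j => c (Sum.inr (Sum.inl (i, j)))))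
  left_inv p := rfl
  right_inv c := by
    funext u
    rcases u with ⟨i, j⟩ | ⟨i, j⟩ | _ | _ <;> rfl

theorem rel0_irrefl (n m : ℕ) (u : V0 n m) : ¬ rel0 n m u u := by
  rcases u with ⟨i, j⟩ | ⟨i, j⟩ | _ | _
  · rintro ⟨_, h⟩
    omega
  · exact id
  · exact id
  · exact id

theorem proper_iff (n m q : ℕ) (a b : Fin q)
    (t : Fin (n + 1) → (Fin (2 * m + 2) → Fin q) × (Fin (2 * m + 3) → Fin q)) :
    (∀ u v, (H0 n m).Adj u v → EE n m q ((a, b), t) u ≠ EE n m q ((a, b), t) v) ↔
      ∀ i : Fin (n + 1), ∀ j : Fin (2 * m + 2 + 1),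
        (WW (t i).1 a b j ≠ WW (t i).1 a b (j + 1) ∧ (t i).2 j ≠ WW (t i).1 a b j ∧
          (t i).2 j ≠ WW (t i).1 a b (j + 1)) := by
  constructor
  · intro h i j
    have h' : ∀ u v, rel0 n m u v → EE n m q ((a, b), t) u ≠ EE n m q ((a, b), t) v := by
      intro u v huv
      apply h
      refine ⟨?_, Or.inl huv⟩
      rintro rfl
      exact rel0_irrefl n m u huv
    obtain ⟨j, hj⟩ := j
    refine ⟨?_, ?_, ?_⟩
    · cases j with
      | zero =>
        show WW (t i).1 a b 0 ≠ WW (t i).1 a b (0 + 1)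
        rw [WW_lt _ _ _ (by omega : 0 < 2 * m + 2)]
        exact h' (Sum.inr (Sum.inr false)) (Sum.inl (i, ⟨0, by omega⟩)) rfl
      | succ j =>
        show WW (t i).1 a b (j + 1) ≠ WW (t i).1 a b (j + 1 + 1)
        rw [WW_lt _ _ _ (by omega : j < 2 * m + 2)]
        by_cases hj2 : j + 1 < 2 * m + 2
        · rw [WW_lt _ _ _ hj2]
          exact h' (Sum.inl (i, ⟨j, by omega⟩)) (Sum.inl (i, ⟨j + 1, hj2⟩)) ⟨rfl, rfl⟩
        · rw [WW_ge _ _ _ hj2]
          exact (h' (Sum.inr (Sum.inr true)) (Sum.inl (i, ⟨j, by omega⟩))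
            (by show j + 1 = 2 * m + 2; omega)).symm
    · cases j with
      | zero =>
        exact (h' (Sum.inr (Sum.inr false)) (Sum.inr (Sum.inl (i, ⟨0, by omega⟩))) rfl).symm
      | succ j =>
        show (t i).2 ⟨j + 1, hj⟩ ≠ WW (t i).1 a b (j + 1)
        rw [WW_lt _ _ _ (by omega : j < 2 * m + 2)]
        exact h' (Sum.inr (Sum.inl (i, ⟨j + 1, hj⟩))) (Sum.inl (i, ⟨j, by omega⟩)) ⟨rfl, Or.inr rfl⟩
    · show (t i).2 ⟨j, hj⟩ ≠ WW (t i).1 a b (j + 1)
      by_cases hj2 : j < 2 * m + 2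
      · rw [WW_lt _ _ _ hj2]
        exact h' (Sum.inr (Sum.inl (i, ⟨j, hj⟩))) (Sum.inl (i, ⟨j, hj2⟩)) ⟨rfl, Or.inl rfl⟩
      · rw [WW_ge _ _ _ hj2]
        exact (h' (Sum.inr (Sum.inr true)) (Sum.inr (Sum.inl (i, ⟨j, hj⟩)))
            (by show j = 2 * m + 2; omega)).symm
  · intro h
    have h' : ∀ u v, rel0 n m u v → EE n m q ((a, b), t) u ≠ EE n m q ((a, b), t) v := by
      intro u v huv
      rcases u with ⟨i, j, hj⟩ | ⟨i, j, hj⟩ | _ | _ <;> rcases v with ⟨i', j', hj'⟩ | ⟨i', j', hj'⟩ | _ | _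
      · obtain ⟨rfl, h2⟩ := huv
        change j' = j + 1 at h2
        subst h2
        have := (h i ⟨j + 1, by omega⟩).1
        change WW (t i).1 a b (j + 1) ≠ WW (t i).1 a b (j + 1 + 1) at this
        rw [WW_lt _ _ _ hj, WW_lt _ _ _ hj'] at this
        exact this
      · exact absurd huv id
      · exact absurd huv id
      · exact absurd huv id
      · obtain ⟨rfl, h2⟩ := huv
        rcases h2 with h2 | h2
        · change j' = j at h2
          subst h2
          have := (h i ⟨j', by omega⟩).2.2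
          change _ ≠ WW (t i).1 a b (j' + 1) at this
          rw [WW_lt _ _ _ hj'] at this
          exact this
        · change j' + 1 = j at h2
          subst h2
          have := (h i ⟨j' + 1, by omega⟩).2.1
          change _ ≠ WW (t i).1 a b (j' + 1) at this
          rw [WW_lt _ _ _ hj'] at this
          exact this
      · exact absurd huv id
      · exact absurd huv id
      · exact absurd huv id
      · change j' = 0 at huv
        subst huv
        have := (h i' ⟨0, by omega⟩).1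
        change WW (t i').1 a b 0 ≠ WW (t i').1 a b (0 + 1) at this
        rw [WW_lt _ _ _ hj'] at this
        exact this
      · change j' = 0 at huv
        subst huv
        have := (h i' ⟨0, by omega⟩).2.1
        exact this.symm
      · exact absurd huv id
      · exact absurd huv id
      · change j' + 1 = 2 * m + 2 at huv
        have := (h i' ⟨j' + 1, by omega⟩).1
        change WW (t i').1 a b (j' + 1) ≠ WW (t i').1 a b (j' + 1 + 1) at this
        rw [WW_lt _ _ _ hj', WW_ge _ _ _ (by omega)] at this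
        exact this.symm
      · change j' = 2 * m + 2 at huv
        have := (h i' ⟨j', by omega⟩).2.2
        change _ ≠ WW (t i').1 a b (j' + 1) at this
        rw [WW_ge _ _ _ (by omega)] at this
        exact this.symm
      · exact absurd huv id
      · exact absurd huv id
    rintro u v ⟨-, huv | huv⟩
    · exact h' u v huv
    · exact (h' v u huv).symm

theorem cnt_eq (n m q : ℕ) : cnt (H0 n m) q =
    ∑ a : Fin q, ∑ b : Fin q, (pc q (2 * m + 2) a b * ((q : ℂ) - 2) ^ (2 * m + 3)) ^ (n + 1) := by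
  have e1 : cnt (H0 n m) q = ∑ c : V0 n m → Fin q, bi (∀ u v, (H0 n m).Adj u v → c u ≠ c v) := by
    unfold cnt bi
    refine Finset.sum_congr ?_ (fun x _ => ?_)
    · ext x
      simp
    · by_cases h : ∀ u v, (H0 n m).Adj u v → x u ≠ x v
      · rw [if_pos h, if_pos h]
      · rw [if_neg h, if_neg h]
  rw [e1, ← (EE n m q).sum_comp, Fintype.sum_prod_type, Fintype.sum_prod_type]
  apply Finset.sum_congr rfl
  intro a _
  apply Finset.sum_congr rfl
  intro b _
  rw [← GG_sum, Fintype.sum_pow]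
  apply Finset.sum_congr rfl
  intro t _
  rw [bi_congr (proper_iff n m q a b t), bi_forall]
  apply Finset.prod_congr rfl
  intro i _
  rw [bi_forall]
  rfl

/-- TARGET. -/
theorem base_count (n m q : ℕ) :
    (q : ℂ) ^ (n + 1) * cnt (H0 n m) q =
      ((q : ℂ) - 2) ^ ((n + 1) * (2 * m + 3)) *
        (q * (((q : ℂ) - 1) ^ (2 * m + 3) - ((q : ℂ) - 1)) ^ (n + 1) +
          q * ((q : ℂ) - 1) * (((q : ℂ) - 1) ^ (2 * m + 3) + 1) ^ (n + 1)) := by
  rw [cnt_eq, Finset.mul_sum]
  have h1 : ∀ a : Fin q, (q : ℂ) ^ (n + 1) * ∑ b : Fin q, (pc q (2 * m + 2) a b *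
      ((q : ℂ) - 2) ^ (2 * m + 3)) ^ (n + 1) =
      ((q : ℂ) - 2) ^ ((n + 1) * (2 * m + 3)) *
        ((((q : ℂ) - 1) ^ (2 * m + 3) - ((q : ℂ) - 1)) ^ (n + 1) +
          ((q : ℂ) - 1) * (((q : ℂ) - 1) ^ (2 * m + 3) + 1) ^ (n + 1)) := by
    intro a
    rw [Finset.mul_sum]
    have h2 : ∀ b : Fin q, (q : ℂ) ^ (n + 1) * (pc q (2 * m + 2) a b *
        ((q : ℂ) - 2) ^ (2 * m + 3)) ^ (n + 1) =
        ((q : ℂ) - 2) ^ ((n + 1) * (2 * m + 3)) * ((((q : ℂ) - 1) ^ (2 * m + 3) + 1) ^ (n + 1) +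
          (if b = a then (((q : ℂ) - 1) ^ (2 * m + 3) - ((q : ℂ) - 1)) ^ (n + 1) -
            (((q : ℂ) - 1) ^ (2 * m + 3) + 1) ^ (n + 1) else 0)) := by
      intro b
      have h3 : (q : ℂ) ^ (n + 1) * (pc q (2 * m + 2) a b *
        ((q : ℂ) - 2) ^ (2 * m + 3)) ^ (n + 1) =
          ((q : ℂ) - 2) ^ ((n + 1) * (2 * m + 3)) * ((q : ℂ) * pc q (2 * m + 2) a b) ^ (n + 1) := by
        rw [mul_comm (n + 1) (2 * m + 3), pow_mul, mul_pow, mul_pow]
        ring
      rw [h3, pc_eq]
      have h4 : (-1 : ℂ) ^ (2 * m + 2 + 1) = -1 := by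
        apply Odd.neg_one_pow
        exact ⟨m + 1, by ring⟩
      rw [h4]
      by_cases hab : a = b
      · rw [if_pos hab, if_pos hab.symm]
        ring
      · rw [if_neg hab, if_neg (fun h => hab h.symm)]
        ring
    rw [Finset.sum_congr rfl fun b _ => h2 b, ← Finset.mul_sum, Finset.sum_add_distrib,
      Finset.sum_ite_eq' Finset.univ a]
    simp only [Finset.mem_univ, if_true, Finset.sum_const, Finset.card_univ, Fintype.card_fin,
      nsmul_eq_mul]
    ring
  rw [Finset.sum_congr rfl fun a _ => h1 a, Finset.sum_const, Finset.card_univ, Fintype.card_fin,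
    nsmul_eq_mul]
  ring





lemma whit_poly833 {V : Type} [Fintype V] (G : SimpleGraph V) :
    ∃ W : Polynomial ℂ, ∀ z : ℂ, W.eval z = whit G z := by
  refine ⟨∑ S ∈ G.edgeFinset.powerset, Polynomial.C ((-1 : ℂ) ^ S.card) *
    Polynomial.X ^ Nat.card (SimpleGraph.fromEdgeSet (↑S : Set (Sym2 V))).ConnectedComponent, ?_⟩
  intro z
  unfold whit
  rw [Polynomial.eval_finsetSum]
  refine Finset.sum_congr rfl (fun S _ => ?_)
  rw [Polynomial.eval_mul, Polynomial.eval_C, Polynomial.eval_pow, Polynomial.eval_X]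

/-- TARGET. -/
theorem base_root (n m : ℕ) (z : ℂ) (hz : z ≠ 0)
    (h : z * ((z - 1) ^ (2 * m + 3) - (z - 1)) ^ (n + 1) +
      z * (z - 1) * ((z - 1) ^ (2 * m + 3) + 1) ^ (n + 1) = 0) : whit (H0 n m) z = 0 := by
  obtain ⟨W, hW⟩ := whit_poly833 (H0 n m)
  obtain ⟨Q, hQ⟩ : ∃ Q : Polynomial ℂ, ∀ x : ℂ, Q.eval x =
      (x - 2) ^ ((n + 1) * (2 * m + 3)) *
        (x * ((x - 1) ^ (2 * m + 3) - (x - 1)) ^ (n + 1) +
          x * (x - 1) * ((x - 1) ^ (2 * m + 3) + 1) ^ (n + 1)) := by
    refine ⟨(Polynomial.X - Polynomial.C 2) ^ ((n + 1) * (2 * m + 3)) *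
        (Polynomial.X * ((Polynomial.X - Polynomial.C 1) ^ (2 * m + 3)
          - (Polynomial.X - Polynomial.C 1)) ^ (n + 1) +
          Polynomial.X * (Polynomial.X - Polynomial.C 1)
            * ((Polynomial.X - Polynomial.C 1) ^ (2 * m + 3) + Polynomial.C 1) ^ (n + 1)), ?_⟩
    intro x
    simp only [Polynomial.eval_mul, Polynomial.eval_add, Polynomial.eval_sub,
      Polynomial.eval_pow, Polynomial.eval_X, Polynomial.eval_C]
  have hpq : Polynomial.X ^ (n + 1) * W = Q := by
    apply Polynomial.eq_of_infinite_eval_eq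
    have hsub : Set.range (fun q : ℕ => (q : ℂ)) ⊆
        {x | Polynomial.eval x (Polynomial.X ^ (n + 1) * W) = Polynomial.eval x Q} := by
      rintro x ⟨q, rfl⟩
      show Polynomial.eval (q : ℂ) (Polynomial.X ^ (n + 1) * W) = Polynomial.eval (q : ℂ) Q
      rw [Polynomial.eval_mul, Polynomial.eval_pow, Polynomial.eval_X, hW, whit_nat, hQ]
      exact base_count n m q
    refine Set.Infinite.mono hsub ?_
    exact Set.infinite_range_of_injective Nat.cast_injective
  have h1 : Polynomial.eval z (Polynomial.X ^ (n + 1) * W) = Polynomial.eval z Q := by rw [hpq]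
  rw [Polynomial.eval_mul, Polynomial.eval_pow, Polynomial.eval_X, hW, hQ, h, mul_zero] at h1
  rcases mul_eq_zero.mp h1 with h2 | h2
  · exact absurd (pow_eq_zero_iff (Nat.succ_ne_zero n) |>.mp h2) hz
  · exact h2



end Pool.Agent.Helper759.Chrom
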