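import Mathlib
import Pool.Agent.Helper759.ChromDefs
import Pool.Agent.Helper759.FanDefs
set_option autoImplicit false
open Classical Filter Topology

namespace Pool.Agent.Helper759.Chrom

/-- joined in the complement of `S` -/
def tj {V : Type} (G : SimpleGraph V) (S : Finset V) (x y : V) : Prop :=
  ∃ (hx : x ∈ (↑S : Set V)ᶜ) (hy : y ∈ (↑S : Set V)ᶜ),
    (G.induce ((↑S : Set V)ᶜ)).Reachable ⟨x, hx⟩ ⟨y, hy⟩

theorem tj_symm {V : Type} {G : SimpleGraph V} {S : Finset V} {x y : V} (h : tj G S x y) :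
    tj G S y x := by
  obtain ⟨hx, hy, h⟩ := h
  exact ⟨hy, hx, h.symm⟩

theorem tj_trans {V : Type} {G : SimpleGraph V} {S : Finset V} {x y z : V} (h : tj G S x y)
    (h' : tj G S y z) : tj G S x z := by
  obtain ⟨hx, hy, h⟩ := h
  obtain ⟨hy', hz, h'⟩ := h'
  exact ⟨hx, hz, h.trans h'⟩

theorem tj_refl {V : Type} {G : SimpleGraph V} {S : Finset V} {x : V} (hx : x ∉ S) :
    tj G S x x :=
  ⟨fun h => hx (Finset.mem_coe.1 h), fun h => hx (Finset.mem_coe.1 h),
    SimpleGraph.Reachable.refl _⟩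

theorem tj_adj {V : Type} {G : SimpleGraph V} {S : Finset V} {x y : V} (hx : x ∉ S) (hy : y ∉ S)
    (h : G.Adj x y) : tj G S x y :=
  ⟨fun h => hx (Finset.mem_coe.1 h), fun h => hy (Finset.mem_coe.1 h),
    SimpleGraph.Adj.reachable (SimpleGraph.comap_adj.2 h)⟩

/-- the vertex type -/
abbrev VT (n m N : ℕ) := V0 n m ⊕ (I0 n m × Fin N)

/-- column of a vertex -/
def col {n m N : ℕ} : VT n m N → Option (Fin (n + 1) × Bool)
  | Sum.inl (Sum.inl (i, _)) => some (i, false)
  | Sum.inl (Sum.inr (Sum.inl (i, _))) => some (i, true)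
  | Sum.inl (Sum.inr (Sum.inr _)) => none
  | Sum.inr (Sum.inl (i, _), _) => some (i, true)
  | Sum.inr (Sum.inr _, _) => none

/-- height of a vertex in its column -/
def ht {n m N : ℕ} : VT n m N → ℕ
  | Sum.inl (Sum.inl (_, j)) => (j : ℕ) + 1
  | Sum.inl (Sum.inr (Sum.inl (_, j))) => (j : ℕ) * (N + 1) + 1
  | Sum.inl (Sum.inr (Sum.inr _)) => 0
  | Sum.inr (Sum.inl (_, j), k) => (j : ℕ) * (N + 1) + 1 + ((k : ℕ) + 1)
  | Sum.inr (Sum.inr _, _) => 0

/-- first vertex of a column -/
def tp {n m N : ℕ} : Fin (n + 1) × Bool → VT n m N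
  | (i, false) => Sum.inl (Sum.inl (i, 0))
  | (i, true) => Sum.inl (Sum.inr (Sum.inl (i, 0)))

/-- last vertex of a column -/
def bt {n m N : ℕ} : Fin (n + 1) × Bool → VT n m N
  | (i, false) => Sum.inl (Sum.inl (i, Fin.last (2 * m + 1)))
  | (i, true) => Sum.inl (Sum.inr (Sum.inl (i, Fin.last (2 * m + 2))))

/-- first pole -/
def pa {n m N : ℕ} : VT n m N := Sum.inl (Sum.inr (Sum.inr false))

/-- second pole -/
def pb {n m N : ℕ} : VT n m N := Sum.inl (Sum.inr (Sum.inr true))

/-- fan vertices around the first pole -/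
def ff {n m N : ℕ} (i : Fin n) (k : Fin N) : VT n m N := Sum.inr (Sum.inr i, k)

theorem adj_ll {n m N : ℕ} {u v : V0 n m} (hne : u ≠ v) (h : rel0 n m u v ∨ rel0 n m v u) :
    (FG n m N).Adj (Sum.inl u) (Sum.inl v) := by
  unfold FG Fan
  rw [SimpleGraph.fromRel_adj]
  refine ⟨fun h => hne (Sum.inl_injective h), Or.inl ?_⟩
  change (H0 n m).Adj u v
  unfold H0
  rw [SimpleGraph.fromRel_adj]
  exact ⟨hne, h⟩

theorem adj_lr {n m N : ℕ} {u : V0 n m} {i : I0 n m} {k : Fin N}
    (h : u = fr n m i ∨ (u = ft n m i ∧ (k : ℕ) = 0) ∨ (u = ft' n m i ∧ (k : ℕ) + 1 = N)) :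
    (FG n m N).Adj (Sum.inl u) (Sum.inr (i, k)) := by
  unfold FG Fan
  rw [SimpleGraph.fromRel_adj]
  exact ⟨Sum.inl_ne_inr, Or.inl h⟩

theorem adj_rr {n m N : ℕ} {i : I0 n m} {k k' : Fin N} (h : (k' : ℕ) = k + 1) :
    (FG n m N).Adj (Sum.inr (i, k)) (Sum.inr (i, k')) := by
  unfold FG Fan
  rw [SimpleGraph.fromRel_adj]
  refine ⟨?_, Or.inl ⟨rfl, h⟩⟩
  intro he
  have h1 : k = k' := (Prod.mk.inj (Sum.inr_injective he)).2
  rw [h1] at h
  omega

theorem col_tp {n m N : ℕ} (c : Fin (n + 1) × Bool) : col (tp c : VT n m N) = some c := by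
  obtain ⟨i, e⟩ := c
  cases e <;> rfl

theorem col_bt {n m N : ℕ} (c : Fin (n + 1) × Bool) : col (bt c : VT n m N) = some c := by
  obtain ⟨i, e⟩ := c
  cases e <;> rfl

theorem adj_tp {n m N : ℕ} (c : Fin (n + 1) × Bool) : (FG n m N).Adj pa (tp c) := by
  obtain ⟨i, e⟩ := c
  cases e
  · exact adj_ll (by simp) (Or.inl rfl)
  · exact adj_ll (by simp) (Or.inl rfl)

theorem adj_bt {n m N : ℕ} (c : Fin (n + 1) × Bool) : (FG n m N).Adj pb (bt c) := by
  obtain ⟨i, e⟩ := c
  cases e
  · exact adj_ll (by simp) (Or.inl rfl)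
  · exact adj_ll (by simp) (Or.inl rfl)

theorem dn_step {n m N : ℕ} (hN : 1 ≤ N) (x : VT n m N) (c : Fin (n + 1) × Bool)
    (hc : col x = some c) :
    x = bt c ∨ ∃ x', (FG n m N).Adj x x' ∧ col x' = some c ∧ ht x' = ht x + 1 := by
  rcases x with ((⟨i, j⟩ | (⟨i, j⟩ | b)) | ⟨(⟨i, j⟩ | i), k⟩)
  · obtain rfl : (i, false) = c := Option.some.inj hc
    by_cases h : (j : ℕ) + 1 < 2 * m + 2
    · right
      refine ⟨Sum.inl (Sum.inl (i, ⟨j + 1, h⟩)), adj_ll ?_ (Or.inl ⟨rfl, rfl⟩), rfl, rfl⟩
      intro he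
      have h1 : j = ⟨j + 1, h⟩ := (Prod.mk.inj (Sum.inl_injective he)).2
      have h2 := congrArg Fin.val h1
      simp at h2
    · left
      have h1 : j = Fin.last (2 * m + 1) := by
        apply Fin.ext
        have := j.2
        rw [Fin.val_last]
        omega
      rw [h1]
      rfl
  · obtain rfl : (i, true) = c := Option.some.inj hc
    by_cases h : (j : ℕ) < 2 * m + 2
    · right
      refine ⟨Sum.inr (Sum.inl (i, ⟨j, h⟩), ⟨0, hN⟩),
        adj_lr (Or.inr (Or.inl ⟨rfl, rfl⟩)), rfl, ?_⟩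
      rfl
    · left
      have h1 : j = Fin.last (2 * m + 2) := by
        apply Fin.ext
        have := j.2
        rw [Fin.val_last]
        omega
      rw [h1]
      rfl
  · exact absurd hc (by simp [col])
  · obtain rfl : (i, true) = c := Option.some.inj hc
    right
    by_cases h : (k : ℕ) + 1 < N
    · exact ⟨Sum.inr (Sum.inl (i, j), ⟨k + 1, h⟩), adj_rr rfl, rfl, rfl⟩
    · have hk : (k : ℕ) + 1 = N := by
        have := k.2
        omega
      refine ⟨Sum.inl (Sum.inr (Sum.inl (i, j.succ))),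
        (adj_lr (Or.inr (Or.inr ⟨rfl, hk⟩))).symm, rfl, ?_⟩
      change ((j.succ : Fin (2 * m + 3)) : ℕ) * (N + 1) + 1 =
        (j : ℕ) * (N + 1) + 1 + ((k : ℕ) + 1) + 1
      rw [Fin.val_succ, hk, Nat.succ_mul]
      omega
  · exact absurd hc (by simp [col])

theorem up_step {n m N : ℕ} (hN : 1 ≤ N) (x : VT n m N) (c : Fin (n + 1) × Bool)
    (hc : col x = some c) :
    x = tp c ∨ ∃ x', (FG n m N).Adj x x' ∧ col x' = some c ∧ ht x' + 1 = ht x := by
  rcases x with ((⟨i, j⟩ | (⟨i, j⟩ | b)) | ⟨(⟨i, j⟩ | i), k⟩)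
  · obtain rfl : (i, false) = c := Option.some.inj hc
    by_cases h : (j : ℕ) = 0
    · left
      have h1 : j = 0 := Fin.ext h
      rw [h1]
      rfl
    · right
      have hj : (j : ℕ) - 1 < 2 * m + 2 := by
        have := j.2
        omega
      refine ⟨Sum.inl (Sum.inl (i, ⟨j - 1, hj⟩)), adj_ll ?_ (Or.inr ⟨rfl, ?_⟩), rfl, ?_⟩
      · intro he
        have h1 : j = ⟨j - 1, hj⟩ := (Prod.mk.inj (Sum.inl_injective he)).2
        have h2 := congrArg Fin.val h1
        change (j : ℕ) = (j : ℕ) - 1 at h2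
        omega
      · change (j : ℕ) = (j : ℕ) - 1 + 1
        omega
      · change (j : ℕ) - 1 + 1 + 1 = (j : ℕ) + 1
        omega
  · obtain rfl : (i, true) = c := Option.some.inj hc
    by_cases h : (j : ℕ) = 0
    · left
      have h1 : j = 0 := Fin.ext h
      rw [h1]
      rfl
    · right
      have hj : (j : ℕ) - 1 < 2 * m + 2 := by
        have := j.2
        omega
      have hjs : j = Fin.succ (⟨j - 1, hj⟩ : Fin (2 * m + 2)) := by
        apply Fin.ext
        rw [Fin.val_succ]
        change (j : ℕ) = (j : ℕ) - 1 + 1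
        omega
      have hk : N - 1 < N := by omega
      refine ⟨Sum.inr (Sum.inl (i, ⟨j - 1, hj⟩), ⟨N - 1, hk⟩),
        adj_lr (Or.inr (Or.inr ⟨?_, ?_⟩)), rfl, ?_⟩
      · change Sum.inr (Sum.inl (i, j)) =
          (Sum.inr (Sum.inl (i, Fin.succ (⟨j - 1, hj⟩ : Fin (2 * m + 2)))) : V0 n m)
        rw [← hjs]
      · change N - 1 + 1 = N
        omega
      · change ((j : ℕ) - 1) * (N + 1) + 1 + (N - 1 + 1) + 1 = (j : ℕ) * (N + 1) + 1
        obtain ⟨j', hj'⟩ : ∃ j', (j : ℕ) = j' + 1 := ⟨j - 1, by omega⟩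
        rw [hj', Nat.add_sub_cancel, Nat.succ_mul]
        omega
  · exact absurd hc (by simp [col])
  · obtain rfl : (i, true) = c := Option.some.inj hc
    right
    by_cases h : (k : ℕ) = 0
    · refine ⟨Sum.inl (Sum.inr (Sum.inl (i, j.castSucc))),
        (adj_lr (Or.inr (Or.inl ⟨rfl, h⟩))).symm, rfl, ?_⟩
      change ((j.castSucc : Fin (2 * m + 3)) : ℕ) * (N + 1) + 1 + 1 =
        (j : ℕ) * (N + 1) + 1 + ((k : ℕ) + 1)
      rw [h, Fin.val_castSucc]
    · have hk : (k : ℕ) - 1 < N := by
        have := k.2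
        omega
      refine ⟨Sum.inr (Sum.inl (i, j), ⟨k - 1, hk⟩), (adj_rr ?_).symm, rfl, ?_⟩
      · change (k : ℕ) = (k : ℕ) - 1 + 1
        omega
      · change (j : ℕ) * (N + 1) + 1 + ((k : ℕ) - 1 + 1) + 1 =
          (j : ℕ) * (N + 1) + 1 + ((k : ℕ) + 1)
        omega
  · exact absurd hc (by simp [col])

theorem cr_step {n m N : ℕ} (x : VT n m N) (i : Fin (n + 1)) (e : Bool)
    (hc : col x = some (i, e)) :
    ∃ x', (FG n m N).Adj x x' ∧ col x' = some (i, !e) := by
  rcases x with ((⟨i', j⟩ | (⟨i', j⟩ | b)) | ⟨(⟨i', j⟩ | i'), k⟩)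
  · obtain ⟨rfl, rfl⟩ := Prod.mk.inj (Option.some.inj hc)
    exact ⟨Sum.inl (Sum.inr (Sum.inl (i', j.castSucc))), adj_ll (by simp)
      (Or.inr ⟨rfl, Or.inl rfl⟩), rfl⟩
  · obtain ⟨rfl, rfl⟩ := Prod.mk.inj (Option.some.inj hc)
    by_cases h : (j : ℕ) < 2 * m + 2
    · exact ⟨Sum.inl (Sum.inl (i', ⟨j, h⟩)), adj_ll (by simp) (Or.inl ⟨rfl, Or.inl rfl⟩), rfl⟩
    · refine ⟨Sum.inl (Sum.inl (i', Fin.last (2 * m + 1))), adj_ll (by simp)
        (Or.inl ⟨rfl, Or.inr ?_⟩), rfl⟩
      have := j.2
      rw [Fin.val_last]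
      omega
  · exact absurd hc (by simp [col])
  · obtain ⟨rfl, rfl⟩ := Prod.mk.inj (Option.some.inj hc)
    exact ⟨Sum.inl (Sum.inl (i', j)), (adj_lr (Or.inl rfl)).symm, rfl⟩
  · exact absurd hc (by simp [col])

theorem tri_down {n m N : ℕ} (hN : 1 ≤ N) (S : Finset (VT n m N)) (c : Fin (n + 1) × Bool)
    (d : ℕ) : ∀ x : VT n m N, (Finset.univ.sup (ht : VT n m N → ℕ)) - ht x = d → x ∉ S →
    col x = some c → (∀ y ∈ S, col y = some c → ht y ≤ ht x) → tj (FG n m N) S x (bt c) := by
  induction d using Nat.strong_induction_on with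
  | _ d ih =>
    intro x hd hx hc hS
    rcases dn_step hN x c hc with h | ⟨x', h1, h2, h3⟩
    · rw [← h]
      exact tj_refl hx
    · have hx' : x' ∉ S := by
        intro hx'
        have := hS x' hx' h2
        omega
      have hle : ht x' ≤ Finset.univ.sup (ht : VT n m N → ℕ) := Finset.le_sup (Finset.mem_univ x')
      exact tj_trans (tj_adj hx hx' h1) (ih _ (by omega) x' rfl hx' h2
        (fun y hy hyc => (hS y hy hyc).trans (by omega)))

theorem tri_up {n m N : ℕ} (hN : 1 ≤ N) (S : Finset (VT n m N)) (c : Fin (n + 1) × Bool)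
    (d : ℕ) : ∀ x : VT n m N, ht x = d → x ∉ S →
    col x = some c → (∀ y ∈ S, col y = some c → ht x ≤ ht y) → tj (FG n m N) S x (tp c) := by
  induction d using Nat.strong_induction_on with
  | _ d ih =>
    intro x hd hx hc hS
    rcases up_step hN x c hc with h | ⟨x', h1, h2, h3⟩
    · rw [← h]
      exact tj_refl hx
    · have hx' : x' ∉ S := by
        intro hx'
        have := hS x' hx' h2
        omega
      exact tj_trans (tj_adj hx hx' h1) (ih _ (by omega) x' rfl hx' h2
        (fun y hy hyc => le_trans (by omega) (hS y hy hyc)))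

theorem tri_right {n m N : ℕ} (S : Finset (VT n m N)) (i : Fin n) (d : ℕ) :
    ∀ k : Fin N, N - (k : ℕ) = d → ff i k ∉ S → (∀ k' : Fin N, k < k' → ff i k' ∉ S) →
    tp (i.succ, false) ∉ S → tj (FG n m N) S (ff i k) (tp (i.succ, false)) := by
  induction d using Nat.strong_induction_on with
  | _ d ih =>
    intro k hd hk hS ht
    by_cases h : (k : ℕ) + 1 < N
    · have hlt : k < (⟨k + 1, h⟩ : Fin N) := Nat.lt_succ_self _
      have hk' := hS ⟨k + 1, h⟩ hlt
      have hkN := k.2
      refine tj_trans (tj_adj hk hk' (adj_rr rfl)) (ih (N - (k + 1)) (by omega) ⟨k + 1, h⟩ rfl hk'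
        (fun k'' hk'' => hS k'' (hlt.trans hk'')) ht)
    · have hkN := k.2
      have hkN' : (k : ℕ) + 1 = N := by omega
      exact tj_adj hk ht (adj_lr (Or.inr (Or.inr ⟨rfl, hkN'⟩))).symm

theorem tri_left {n m N : ℕ} (S : Finset (VT n m N)) (i : Fin n) (d : ℕ) :
    ∀ k : Fin N, (k : ℕ) = d → ff i k ∉ S → (∀ k' : Fin N, k' < k → ff i k' ∉ S) →
    tp (i.castSucc, true) ∉ S → tj (FG n m N) S (ff i k) (tp (i.castSucc, true)) := by
  induction d using Nat.strong_induction_on with
  | _ d ih =>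
    intro k hd hk hS ht
    have hkN := k.2
    by_cases h : (k : ℕ) = 0
    · exact tj_adj hk ht (adj_lr (Or.inr (Or.inl ⟨rfl, h⟩))).symm
    · have hk1 : (k : ℕ) - 1 < N := by omega
      have hlt : (⟨k - 1, hk1⟩ : Fin N) < k := by
        change (k : ℕ) - 1 < k
        omega
      have hk' := hS ⟨k - 1, hk1⟩ hlt
      refine tj_trans (tj_adj hk hk' (adj_rr ?_).symm) (ih (k - 1) (by omega) ⟨k - 1, hk1⟩ rfl hk'
        (fun k'' hk'' => hS k'' (hk''.trans hlt)) ht)
      change (k : ℕ) = (k : ℕ) - 1 + 1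
      omega

theorem tri_two {V : Type} {S : Finset V} (hS : S.card ≤ 2) {y1 y2 : V} (h1 : y1 ∈ S)
    (h2 : y2 ∈ S) (hne : y1 ≠ y2) : ∀ y ∈ S, y = y1 ∨ y = y2 := by
  have hsub : ({y1, y2} : Finset V) ⊆ S := by
    intro y hy
    rcases Finset.mem_insert.1 hy with h | h
    · rw [h]
      exact h1
    · rw [Finset.mem_singleton.1 h]
      exact h2
  have he : ({y1, y2} : Finset V) = S := by
    refine Finset.eq_of_subset_of_card_le hsub ?_
    rw [Finset.card_pair hne]
    exact hS
  intro y hy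
  rw [← he] at hy
  rcases Finset.mem_insert.1 hy with h | h
  · exact Or.inl h
  · exact Or.inr (Finset.mem_singleton.1 h)

theorem tri_col_pa {n m N : ℕ} (c : Fin (n + 1) × Bool) : col (pa : VT n m N) ≠ some c :=
  fun h => Option.some_ne_none _ (Eq.symm h)

theorem tri_col_pb {n m N : ℕ} (c : Fin (n + 1) × Bool) : col (pb : VT n m N) ≠ some c :=
  fun h => Option.some_ne_none _ (Eq.symm h)

theorem tri_col_ff {n m N : ℕ} (i : Fin n) (k : Fin N) (c : Fin (n + 1) × Bool) :
    col (ff i k : VT n m N) ≠ some c :=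
  fun h => Option.some_ne_none _ (Eq.symm h)

theorem tri_root {n m N : ℕ} (hn : 2 ≤ n) (hN : 1 ≤ N) (S : Finset (VT n m N))
    (hS : S.card ≤ 2) : ∃ r : VT n m N, r ∉ S ∧ ∀ x, x ∉ S → tj (FG n m N) S x r := by
  have down : ∀ (x : VT n m N) (c : Fin (n + 1) × Bool), x ∉ S → col x = some c →
      (∀ y ∈ S, col y = some c → ht y ≤ ht x) → tj (FG n m N) S x (bt c) :=
    fun x c hx hc h => tri_down hN S c _ x rfl hx hc h
  have up : ∀ (x : VT n m N) (c : Fin (n + 1) × Bool), x ∉ S → col x = some c →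
      (∀ y ∈ S, col y = some c → ht x ≤ ht y) → tj (FG n m N) S x (tp c) :=
    fun x c hx hc h => tri_up hN S c _ x rfl hx hc h
  have hbe : ∀ (i : Fin (n + 1)) (e : Bool), (i, e) ≠ (i, !e) := by
    intro i e h
    have := (Prod.mk.inj h).2
    cases e <;> simp at this
  have cross : ∀ (x : VT n m N) (i : Fin (n + 1)) (e : Bool), x ∉ S → col x = some (i, e) →
      (∀ y ∈ S, col y ≠ some (i, !e)) →
      ∃ x', x' ∉ S ∧ col x' = some (i, !e) ∧ tj (FG n m N) S x x' := by
    intro x i e hx hc h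
    obtain ⟨x', h1, h2⟩ := cr_step x i e hc
    have hx' : x' ∉ S := fun hx' => h x' hx' h2
    exact ⟨x', hx', h2, tj_adj hx hx' h1⟩
  have crossD : ∀ (x : VT n m N) (i : Fin (n + 1)) (e : Bool), x ∉ S → col x = some (i, e) →
      (∀ y ∈ S, col y ≠ some (i, !e)) → pb ∉ S → tj (FG n m N) S x pb := by
    intro x i e hx hc h hb
    obtain ⟨x', h1, h2, h3⟩ := cross x i e hx hc h
    have h4 := down x' (i, !e) h1 h2 (fun y hy hyc => absurd hyc (h y hy))
    have h5 : bt (i, !e) ∉ S := fun hh => h _ hh (col_bt _)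
    exact tj_trans h3 (tj_trans h4 (tj_symm (tj_adj hb h5 (adj_bt _))))
  have crossU : ∀ (x : VT n m N) (i : Fin (n + 1)) (e : Bool), x ∉ S → col x = some (i, e) →
      (∀ y ∈ S, col y ≠ some (i, !e)) → pa ∉ S → tj (FG n m N) S x pa := by
    intro x i e hx hc h ha
    obtain ⟨x', h1, h2, h3⟩ := cross x i e hx hc h
    have h4 := up x' (i, !e) h1 h2 (fun y hy hyc => absurd hyc (h y hy))
    have h5 : tp (i, !e) ∉ S := fun hh => h _ hh (col_tp _)
    exact tj_trans h3 (tj_trans h4 (tj_symm (tj_adj ha h5 (adj_tp _))))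
  have toB : ∀ (x : VT n m N) (c : Fin (n + 1) × Bool), x ∉ S → col x = some c →
      (∀ y ∈ S, col y = some c → ht y ≤ ht x) → pb ∉ S → tj (FG n m N) S x pb := by
    intro x c hx hc h hb
    have h4 := down x c hx hc h
    have h5 : bt c ∉ S := fun hh => h4.2.1 (Finset.mem_coe.2 hh)
    exact tj_trans h4 (tj_symm (tj_adj hb h5 (adj_bt _)))
  have toA : ∀ (x : VT n m N) (c : Fin (n + 1) × Bool), x ∉ S → col x = some c →
      (∀ y ∈ S, col y = some c → ht x ≤ ht y) → pa ∉ S → tj (FG n m N) S x pa := by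
    intro x c hx hc h ha
    have h4 := up x c hx hc h
    have h5 : tp c ∉ S := fun hh => h4.2.1 (Finset.mem_coe.2 hh)
    exact tj_trans h4 (tj_symm (tj_adj ha h5 (adj_tp _)))
  have hffa : ∀ (i : Fin n) (k : Fin N), ff i k ∉ S → pa ∉ S → tj (FG n m N) S (ff i k) pa :=
    fun i k h ha => tj_adj h ha (adj_lr (Or.inl rfl)).symm
  have hab : (pa : VT n m N) ≠ pb := by
    intro h
    have h1 := Sum.inr_injective (Sum.inr_injective (Sum.inl_injective h))
    exact Bool.false_ne_true h1
  have hcases : ∀ x : VT n m N, (∃ i e, col x = some (i, e)) ∨ x = pa ∨ x = pb ∨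
      ∃ i k, x = ff i k := by
    rintro ((⟨i, j⟩ | (⟨i, j⟩ | b)) | ⟨(⟨i, j⟩ | i), k⟩)
    · exact Or.inl ⟨i, false, rfl⟩
    · exact Or.inl ⟨i, true, rfl⟩
    · cases b
      · exact Or.inr (Or.inl rfl)
      · exact Or.inr (Or.inr (Or.inl rfl))
    · exact Or.inl ⟨i, true, rfl⟩
    · exact Or.inr (Or.inr (Or.inr ⟨i, k, rfl⟩))
  by_cases ha : (pa : VT n m N) ∈ S
  · by_cases hb : (pb : VT n m N) ∈ S
    ·
      have hS2 := tri_two hS ha hb hab
      have hno : ∀ y ∈ S, ∀ c, col y ≠ some c := by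
        intro y hy c
        rcases hS2 y hy with h | h
        · rw [h]
          exact tri_col_pa c
        · rw [h]
          exact tri_col_pb c
      have hcolS : ∀ (x : VT n m N) c, col x = some c → x ∉ S := fun x c hc hx => hno x hx c hc
      have hffS : ∀ (i : Fin n) (k : Fin N), (ff i k : VT n m N) ∉ S := by
        intro i k hh
        rcases hS2 _ hh with h | h
        · exact Sum.inr_ne_inl h
        · exact Sum.inr_ne_inl h
      have hxtp : ∀ (x : VT n m N) c, col x = some c → tj (FG n m N) S x (tp c) :=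
        fun x c hc => up x c (hcolS x c hc) hc (fun y hy hyc => absurd hyc (hno y hy c))
      have htt : ∀ i : Fin (n + 1), tj (FG n m N) S (tp (i, true)) (tp (i, false)) := by
        intro i
        obtain ⟨x', h1, h2, h3⟩ := cross (tp (i, true)) i true (hcolS _ _ (col_tp _)) (col_tp _)
          (fun y hy => hno y hy _)
        exact tj_trans h3 (hxtp x' _ h2)
      have hstep : ∀ i : Fin n, tj (FG n m N) S (tp (i.succ, false)) (tp (i.castSucc, false)) := by
        intro i
        have h1 := tri_right S i _ ⟨0, hN⟩ rfl (hffS _ _) (fun _ _ => hffS _ _)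
          (hcolS _ _ (col_tp _))
        have h2 := tri_left S i _ ⟨0, hN⟩ rfl (hffS _ _) (fun _ _ => hffS _ _)
          (hcolS _ _ (col_tp _))
        exact tj_trans (tj_symm h1) (tj_trans h2 (htt _))
      have hall : ∀ i : Fin (n + 1), tj (FG n m N) S (tp (i, false)) (tp (0, false)) := by
        intro i
        induction i using Fin.induction with
        | zero => exact tj_refl (hcolS _ _ (col_tp _))
        | succ i ih => exact tj_trans (hstep i) ih
      refine ⟨tp (0, false), hcolS _ _ (col_tp _), fun x hx => ?_⟩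
      rcases hcases x with ⟨i, e, hc⟩ | h | h | ⟨i, k, h⟩
      · cases e
        · exact tj_trans (hxtp x _ hc) (hall i)
        · exact tj_trans (hxtp x _ hc) (tj_trans (htt i) (hall i))
      · exact absurd ha (h ▸ hx)
      · exact absurd hb (h ▸ hx)
      · rw [h]
        have h1 := tri_right S i _ k rfl (hffS _ _) (fun _ _ => hffS _ _)
          (hcolS _ _ (col_tp _))
        exact tj_trans h1 (hall _)
    ·
      refine ⟨pb, hb, fun x hx => ?_⟩
      rcases hcases x with ⟨i, e, hc⟩ | h | h | ⟨i, k, h⟩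
      · by_cases hbl : ∀ y ∈ S, col y = some (i, e) → ht y ≤ ht x
        · exact toB x _ hx hc hbl hb
        · push Not at hbl
          obtain ⟨y1, hy1, hc1, -⟩ := hbl
          have hne : pa ≠ y1 := by
            intro he
            rw [← he] at hc1
            first | exact tri_col_pa _ hc1 | exact tri_col_pb _ hc1
          have hS2 := tri_two hS ha hy1 hne
          refine crossD x i e hx hc (fun y hy hyc => ?_) hb
          rcases hS2 y hy with h | h
          · rw [h] at hyc
            first | exact tri_col_pa _ hyc | exact tri_col_pb _ hyc | exact tri_col_ff _ _ _ hyc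
          · rw [h, hc1] at hyc
            exact hbe i e (Option.some.inj hyc)
      · exact absurd ha (h ▸ hx)
      · rw [h]
        exact tj_refl hb
      · subst h
        by_cases hd : ∃ d ∈ S, (∃ k' : Fin N, k < k' ∧ d = ff i k') ∨ col d = some (i.succ, false)
        · obtain ⟨d, hdS, hd⟩ := hd
          have hne : pa ≠ d := by
            rintro rfl
            rcases hd with ⟨k', _, h⟩ | h
            · exact Sum.inl_ne_inr h
            · first | exact tri_col_pa _ h | exact tri_col_pb _ h | exact tri_col_ff _ _ _ h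
          have hS2 := tri_two hS ha hdS hne
          have hcol : ∀ y ∈ S, col y ≠ some (i.castSucc, true) := by
            intro y hy hyc
            rcases hS2 y hy with h | h
            · rw [h] at hyc
              first | exact tri_col_pa _ hyc | exact tri_col_pb _ hyc | exact tri_col_ff _ _ _ hyc
            · rw [h] at hyc
              rcases hd with ⟨k', _, h'⟩ | h'
              · rw [h'] at hyc
                first | exact tri_col_pa _ hyc | exact tri_col_pb _ hyc | exact tri_col_ff _ _ _ hyc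
              · rw [h'] at hyc
                have := (Prod.mk.inj (Option.some.inj hyc)).2
                exact Bool.false_ne_true this
          have htpS : (tp (i.castSucc, true) : VT n m N) ∉ S := fun hh => hcol _ hh (col_tp _)
          have h1 := tri_left S i _ k rfl hx (fun k' hk' hh => ?_) htpS
          · exact tj_trans h1 (toB _ _ htpS (col_tp _)
              (fun y hy hyc => absurd hyc (hcol y hy)) hb)
          · rcases hS2 _ hh with h | h
            · exact Sum.inr_ne_inl h
            · rcases hd with ⟨k'', hk'', h'⟩ | h'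
              · rw [h'] at h
                have h2 : k' = k'' := (Prod.mk.inj (Sum.inr_injective h)).2
                rw [h2] at hk'
                exact lt_asymm hk' hk''
              · rw [← h] at h'
                first | exact tri_col_pa _ h' | exact tri_col_pb _ h' | exact tri_col_ff _ _ _ h'
        · push Not at hd
          have htpS : (tp (i.succ, false) : VT n m N) ∉ S :=
            fun hh => (hd _ hh).2 (col_tp _)
          have h1 := tri_right S i _ k rfl hx (fun k' hk' hh => (hd _ hh).1 k' hk' rfl) htpS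
          exact tj_trans h1 (toB _ _ htpS (col_tp _)
              (fun y hy hyc => absurd hyc (hd y hy).2) hb)
  · by_cases hb : (pb : VT n m N) ∈ S
    ·
      refine ⟨pa, ha, fun x hx => ?_⟩
      rcases hcases x with ⟨i, e, hc⟩ | h | h | ⟨i, k, h⟩
      · by_cases hbl : ∀ y ∈ S, col y = some (i, e) → ht x ≤ ht y
        · exact toA x _ hx hc hbl ha
        · push Not at hbl
          obtain ⟨y1, hy1, hc1, -⟩ := hbl
          have hne : pb ≠ y1 := by
            intro he
            rw [← he] at hc1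
            first | exact tri_col_pa _ hc1 | exact tri_col_pb _ hc1
          have hS2 := tri_two hS hb hy1 hne
          refine crossU x i e hx hc (fun y hy hyc => ?_) ha
          rcases hS2 y hy with h | h
          · rw [h] at hyc
            first | exact tri_col_pa _ hyc | exact tri_col_pb _ hyc | exact tri_col_ff _ _ _ hyc
          · rw [h, hc1] at hyc
            exact hbe i e (Option.some.inj hyc)
      · rw [h]
        exact tj_refl ha
      · exact absurd hb (h ▸ hx)
      · subst h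
        exact hffa i k hx ha
    ·
      obtain ⟨o, ho, hoS⟩ := Finset.exists_mem_notMem_of_card_lt_card
        (s := S.image (fun y => (col y).map Prod.fst))
        (t := (Finset.univ : Finset (Fin (n + 1))).image some) (by
          rw [Finset.card_image_of_injective _ (Option.some_injective _), Finset.card_univ,
            Fintype.card_fin]
          exact lt_of_le_of_lt (Finset.card_image_le.trans hS) (by omega))
      obtain ⟨i0, -, rfl⟩ := Finset.mem_image.1 ho
      have hfree : ∀ y ∈ S, ∀ e, col y ≠ some (i0, e) := by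
        intro y hy e hyc
        apply hoS
        refine Finset.mem_image.2 ⟨y, hy, ?_⟩
        rw [hyc]
        rfl
      have hJab : tj (FG n m N) S pb pa := by
        have h1 : (tp (i0, false) : VT n m N) ∉ S := fun hh => hfree _ hh _ (col_tp _)
        have h2 := toB (tp (i0, false)) (i0, false) h1 (col_tp _)
          (fun y hy hyc => absurd hyc (hfree y hy _)) hb
        have h3 := toA (tp (i0, false)) (i0, false) h1 (col_tp _)
          (fun y hy hyc => absurd hyc (hfree y hy _)) ha
        exact tj_trans (tj_symm h2) h3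
      refine ⟨pa, ha, fun x hx => ?_⟩
      rcases hcases x with ⟨i, e, hc⟩ | h | h | ⟨i, k, h⟩
      · by_cases hbl : ∀ y ∈ S, col y = some (i, e) → ht x ≤ ht y
        · exact toA x _ hx hc hbl ha
        · by_cases hbl' : ∀ y ∈ S, col y = some (i, e) → ht y ≤ ht x
          · exact tj_trans (toB x _ hx hc hbl' hb) hJab
          · push Not at hbl hbl'
            obtain ⟨y1, hy1, hc1, hh1⟩ := hbl
            obtain ⟨y2, hy2, hc2, hh2⟩ := hbl'
            have hne : y1 ≠ y2 := by
              rintro rfl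
              omega
            have hS2 := tri_two hS hy1 hy2 hne
            refine crossU x i e hx hc (fun y hy hyc => ?_) ha
            rcases hS2 y hy with h | h
            · rw [h, hc1] at hyc
              exact hbe i e (Option.some.inj hyc)
            · rw [h, hc2] at hyc
              exact hbe i e (Option.some.inj hyc)
      · rw [h]
        exact tj_refl ha
      · rw [h]
        exact hJab
      · subst h
        exact hffa i k hx ha

/-- TARGET. -/
theorem fg_tri (n m N : ℕ) (hn : 2 ≤ n) (hN : 1 ≤ N) : Tri (FG n m N) := by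
  refine ⟨?_, fun S hS => ?_⟩
  · rw [Fintype.card_sum, Fintype.card_sum, Fintype.card_prod, Fintype.card_fin, Fintype.card_fin]
    have h1 : 3 * 2 ≤ (n + 1) * (2 * m + 2) := Nat.mul_le_mul (by omega) (by omega)
    omega
  · obtain ⟨r, hr, hall⟩ := tri_root hn hN S hS
    have hne : Nonempty ((↑S : Set (VT n m N))ᶜ : Set (VT n m N)) :=
      ⟨⟨r, fun h => hr (Finset.mem_coe.1 h)⟩⟩
    refine { preconnected := ?_, nonempty := hne }
    rintro ⟨x, hx⟩ ⟨y, hy⟩
    obtain ⟨_, _, h1⟩ := hall x (fun h => hx (Finset.mem_coe.2 h))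
    obtain ⟨_, _, h2⟩ := hall y (fun h => hy (Finset.mem_coe.2 h))
    exact h1.trans h2.symm



end Pool.Agent.Helper759.Chrom
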