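import Mathlib
import Pool.Agent.Helper759.ChromDefs
import Pool.Agent.Helper759.FanDefs
set_option autoImplicit false
open Classical Filter Topology

namespace Pool.Agent.Helper759.Chrom

/-- total height -/
def plH (m N : ℕ) : ℤ := (2 * m + 2) * (N + 1)

/-- heights of the path vertices -/
def plh (m N : ℕ) (j : ℤ) : ℤ :=
  if j < 2 * m + 1 then -(j * (N + 1)) else -plH m N

/-- the segments of the drawing, with their type -/
inductive PlT (m N : ℕ) : ℕ → ℤ → ℤ → ℤ → ℤ → Prop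
  | t1 (x : ℤ) : PlT m N 1 0 1 x 0
  | t2 (x : ℤ) : PlT m N 2 0 (-plH m N - 1) x (-plH m N)
  | t3 (x : ℤ) (hx : ¬ ((N : ℤ) + 2) ∣ x) : PlT m N 3 x 0 (x + 1) 0
  | t4 (i j : ℤ) (hj0 : 0 ≤ j) (hj : j + 1 ≤ 2 * m + 1) :
      PlT m N 4 (i * (N + 2)) (plh m N j) (i * (N + 2)) (plh m N (j + 1))
  | t5 (i y : ℤ) (hy : -plH m N ≤ y - 1) (hy' : y ≤ 0) :
      PlT m N 5 (i * (N + 2) + 1) y (i * (N + 2) + 1) (y - 1)
  | t6 (i j y : ℤ) (hj0 : 0 ≤ j) (hj : j ≤ 2 * m + 1) (hy : -((j + 1) * (N + 1)) ≤ y)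
      (hy' : y ≤ -(j * (N + 1))) : PlT m N 6 (i * (N + 2)) (plh m N j) (i * (N + 2) + 1) y

theorem plH_pos (m N : ℕ) : 0 < plH m N := by unfold plH; positivity

theorem plh_bd (m N : ℕ) (j : ℤ) (h0 : 0 ≤ j) : plh m N j ≤ 0 ∧ -plH m N ≤ plh m N j := by
  have hH := plH_pos m N
  unfold plh
  split_ifs with h
  · constructor
    · have : 0 ≤ j * ((N : ℤ) + 1) := by positivity
      linarith
    · unfold plH
      nlinarith [mul_le_mul_of_nonneg_right (show j ≤ 2 * (m : ℤ) + 2 by linarith)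
        (show (0 : ℤ) ≤ (N : ℤ) + 1 by positivity)]
  · constructor <;> linarith

theorem plh_anti (m N : ℕ) (j j' : ℤ) (h : j < j') (h' : j' ≤ 2 * m + 1) :
    plh m N j' < plh m N j := by
  have hN : (0 : ℤ) < (N : ℤ) + 1 := by positivity
  unfold plh
  rw [if_pos (show j < 2 * (m : ℤ) + 1 by linarith)]
  split_ifs with h1
  · nlinarith [mul_lt_mul_of_pos_right h hN]
  · unfold plH
    nlinarith [mul_lt_mul_of_pos_right (show j < 2 * (m : ℤ) + 2 by linarith) hN]

theorem pl_dm (D a a' i i' : ℤ) (h0 : 0 ≤ a) (h1 : a < D) (h0' : 0 ≤ a') (h1' : a' < D)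
    (h : i * D + a = i' * D + a') : i = i' ∧ a = a' := by
  have h2 : (i - i') * D = a' - a := by linarith
  have h3 : i = i' := by
    by_contra hne
    rcases lt_or_gt_of_ne hne with hlt | hlt
    · have : (i - i') * D ≤ -1 * D := by
        apply mul_le_mul_of_nonneg_right _ (by linarith)
        omega
      linarith
    · have : 1 * D ≤ (i - i') * D := by
        apply mul_le_mul_of_nonneg_right _ (by linarith)
        omega
      linarith
  refine ⟨h3, ?_⟩
  rw [h3] at h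
  linarith

/-- the type of an interior point -/
noncomputable def plk (m N : ℕ) (X Y : ℝ) : ℕ :=
  if 0 < Y then 1 else if Y < -(plH m N : ℝ) then 2 else if X = ⌊X⌋ then
    (if ((N : ℤ) + 2) ∣ ⌊X⌋ then 4 else 5) else (if ((N : ℤ) + 2) ∣ ⌊X⌋ then 6 else 3)

theorem plk_eq (m N : ℕ) (k : ℕ) (a b c d : ℤ) (h : PlT m N k a b c d) (t : ℝ) (ht0 : 0 < t)
    (ht1 : t < 1) : plk m N ((1 - t) * a + t * c) ((1 - t) * b + t * d) = k := by
  have hH : (0 : ℝ) < plH m N := by exact_mod_cast plH_pos m N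
  have hfl : ∀ x : ℤ, ⌊(x : ℝ) + t⌋ = x := by
    intro x
    rw [Int.floor_eq_iff]
    constructor <;> linarith
  have hnd : ∀ i : ℤ, ¬ ((N : ℤ) + 2) ∣ i * (N + 2) + 1 := by
    intro i hi
    have h1 : ((N : ℤ) + 2) ∣ 1 := (dvd_add_right (Dvd.intro_left i rfl)).1 hi
    have h2 := Int.le_of_dvd one_pos h1
    have : (0 : ℤ) ≤ (N : ℤ) := by positivity
    linarith
  unfold plk
  cases h with
  | t1 x =>
    rw [if_pos]
    push_cast
    linarith
  | t2 x =>
    have e : (1 - t) * (((-plH m N - 1 : ℤ)) : ℝ) + t * ((-plH m N : ℤ) : ℝ) =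
        -(plH m N : ℝ) - (1 - t) := by push_cast; ring
    rw [e, if_neg (by linarith), if_pos (by linarith)]
  | t3 x hx =>
    have e : (1 - t) * (a : ℝ) + t * ((a + 1 : ℤ) : ℝ) = (a : ℝ) + t := by push_cast; ring
    have e2 : (1 - t) * (((0:ℤ)) : ℝ) + t * ((0 : ℤ) : ℝ) = 0 := by push_cast; ring
    rw [e, e2, hfl a, if_neg (lt_irrefl _), if_neg (by linarith), if_neg (by
      intro h; linarith), if_neg hx]
  | t4 i j hj0 hj =>
    obtain ⟨h1, h2⟩ := plh_bd m N j hj0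
    obtain ⟨h3, h4⟩ := plh_bd m N (j + 1) (by linarith)
    have h1' : (plh m N j : ℝ) ≤ 0 := by exact_mod_cast h1
    have h2' : -(plH m N : ℝ) ≤ plh m N j := by exact_mod_cast h2
    have h3' : (plh m N (j + 1) : ℝ) ≤ 0 := by exact_mod_cast h3
    have h4' : -(plH m N : ℝ) ≤ plh m N (j + 1) := by exact_mod_cast h4
    have e : (1 - t) * ((i * (N + 2) : ℤ) : ℝ) + t * ((i * (N + 2) : ℤ) : ℝ) =
        ((i * (N + 2) : ℤ) : ℝ) := by ring
    rw [if_neg (by nlinarith), if_neg (by nlinarith), e, Int.floor_intCast, if_pos rfl,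
      if_pos (Dvd.intro_left i rfl)]
  | t5 i y hy hy' =>
    have h1' : (b : ℝ) ≤ 0 := by exact_mod_cast hy'
    have h2' : -(plH m N : ℝ) ≤ b - 1 := by exact_mod_cast hy
    have e : (1 - t) * ((i * (N + 2) + 1 : ℤ) : ℝ) + t * ((i * (N + 2) + 1 : ℤ) : ℝ) =
        ((i * (N + 2) + 1 : ℤ) : ℝ) := by ring
    have e2 : (1 - t) * (b : ℝ) + t * ((b - 1 : ℤ) : ℝ) = b - t := by push_cast; ring
    rw [e2, if_neg (by linarith), if_neg (by linarith), e, Int.floor_intCast, if_pos rfl,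
      if_neg (hnd i)]
  | t6 i j y hj0 hj hy hy' =>
    obtain ⟨h1, h2⟩ := plh_bd m N j hj0
    have h1' : (plh m N j : ℝ) ≤ 0 := by exact_mod_cast h1
    have h2' : -(plH m N : ℝ) ≤ plh m N j := by exact_mod_cast h2
    have h3 : d ≤ 0 := by
      have : 0 ≤ j * ((N : ℤ) + 1) := by positivity
      linarith
    have h4 : -plH m N ≤ d := by
      have : (j + 1) * ((N : ℤ) + 1) ≤ (2 * m + 2) * (N + 1) :=
        mul_le_mul_of_nonneg_right (by linarith) (by positivity)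
      unfold plH
      linarith
    have h3' : (d : ℝ) ≤ 0 := by exact_mod_cast h3
    have h4' : -(plH m N : ℝ) ≤ d := by exact_mod_cast h4
    have e : (1 - t) * ((i * (N + 2) : ℤ) : ℝ) + t * ((i * (N + 2) + 1 : ℤ) : ℝ) =
        ((i * (N + 2) : ℤ) : ℝ) + t := by push_cast; ring
    rw [if_neg (by nlinarith), if_neg (by nlinarith), e, hfl, if_neg (by intro h; linarith),
      if_pos (Dvd.intro_left i rfl)]


theorem plT_uniq (m N : ℕ) (k k' : ℕ) (a b c d a' b' c' d' : ℤ) (h : PlT m N k a b c d)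
    (h' : PlT m N k' a' b' c' d') (t t' : ℝ) (ht0 : 0 < t) (ht1 : t < 1) (ht0' : 0 < t')
    (ht1' : t' < 1) (hX : (1 - t) * (a : ℝ) + t * c = (1 - t') * (a' : ℝ) + t' * c')
    (hY : (1 - t) * (b : ℝ) + t * d = (1 - t') * (b' : ℝ) + t' * d') :
    a = a' ∧ b = b' ∧ c = c' ∧ d = d' := by
  have hk : k = k' := by
    rw [← plk_eq m N k a b c d h t ht0 ht1, ← plk_eq m N k' a' b' c' d' h' t' ht0' ht1', hX, hY]
  subst hk
  have hfr : ∀ x x' : ℤ, (x : ℝ) + t = x' + t' → x = x' ∧ t = t' := by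
    intro x x' hxx
    have h1 : x = x' := by
      have h2 : (x : ℝ) < x' + 1 := by linarith
      have h3 : (x' : ℝ) < x + 1 := by linarith
      have h2' : x < x' + 1 := by exact_mod_cast h2
      have h3' : x' < x + 1 := by exact_mod_cast h3
      omega
    refine ⟨h1, ?_⟩
    rw [h1] at hxx
    linarith
  cases h with
  | t1 x =>
    cases h' with
    | t1 x' =>
      have h1 : t = t' := by push_cast at hY; linarith
      subst h1
      have h2 : (c : ℝ) = c' := by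
        have h3 : t * (c : ℝ) = t * c' := by push_cast at hX; linarith
        exact mul_left_cancel₀ ht0.ne' h3
      have h3 : c = c' := by exact_mod_cast h2
      exact ⟨rfl, rfl, h3, rfl⟩
  | t2 x =>
    cases h' with
    | t2 x' =>
      have h1 : t = t' := by push_cast at hY; linarith
      subst h1
      have h2 : (c : ℝ) = c' := by
        have h3 : t * (c : ℝ) = t * c' := by push_cast at hX; linarith
        exact mul_left_cancel₀ ht0.ne' h3
      have h3 : c = c' := by exact_mod_cast h2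
      exact ⟨rfl, rfl, h3, rfl⟩
  | t3 x hx =>
    cases h' with
    | t3 x' hx' =>
      have h1 : (a : ℝ) + t = a' + t' := by push_cast at hX; linarith
      have h2 := (hfr a a' h1).1
      subst h2
      exact ⟨rfl, rfl, rfl, rfl⟩
  | t4 i j hj0 hj =>
    cases h' with
    | t4 i' j' hj0' hj' =>
      have h1 : ((i * (N + 2) : ℤ) : ℝ) = ((i' * (N + 2) : ℤ) : ℝ) := by linarith
      have h2 : i * ((N : ℤ) + 2) = i' * (N + 2) := by exact_mod_cast h1
      have h3 : j = j' := by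
        have hd : ∀ (j j' : ℤ) (t t' : ℝ), 0 < t → t < 1 → 0 < t' → t' < 1 → 0 ≤ j →
            j' + 1 ≤ 2 * m + 1 → j < j' →
            (1 - t) * (plh m N j : ℝ) + t * plh m N (j + 1) =
              (1 - t') * (plh m N j' : ℝ) + t' * plh m N (j' + 1) → False := by
          intro j j' t t' ht0 ht1 ht0' ht1' hj0 hj' hlt he
          have h4 : plh m N (j' + 1) < plh m N j' := plh_anti m N j' (j' + 1) (by linarith) hj'
          have h5 : plh m N j' ≤ plh m N (j + 1) := by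
            rcases eq_or_lt_of_le (show j + 1 ≤ j' by omega) with h6 | h6
            · rw [h6]
            · exact (plh_anti m N (j + 1) j' h6 (by linarith)).le
          have h7 : plh m N (j + 1) < plh m N j := plh_anti m N j (j + 1) (by linarith) (by linarith)
          have h4' : (plh m N (j' + 1) : ℝ) < plh m N j' := by exact_mod_cast h4
          have h5' : (plh m N j' : ℝ) ≤ plh m N (j + 1) := by exact_mod_cast h5
          have h7' : (plh m N (j + 1) : ℝ) < plh m N j := by exact_mod_cast h7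
          nlinarith [mul_pos ht0' (sub_pos.2 h4'), mul_pos (sub_pos.2 ht1) (sub_pos.2 h7')]
        rcases lt_trichotomy j j' with h4 | h4 | h4
        · exact (hd j j' t t' ht0 ht1 ht0' ht1' hj0 hj' h4 hY).elim
        · exact h4
        · exact (hd j' j t' t ht0' ht1' ht0 ht1 hj0' hj h4 hY.symm).elim
      rw [h2, h3]
      exact ⟨rfl, rfl, rfl, rfl⟩
  | t5 i y hy hy' =>
    cases h' with
    | t5 i' y' hz hz' =>
      have h1 : ((i * (N + 2) + 1 : ℤ) : ℝ) = ((i' * (N + 2) + 1 : ℤ) : ℝ) := by linarith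
      have h2 : i * ((N : ℤ) + 2) + 1 = i' * (N + 2) + 1 := by exact_mod_cast h1
      have h3 : b = b' := by
        have h4 : (b : ℝ) - t = b' - t' := by push_cast at hY; linarith
        have h5 : (b : ℝ) < b' + 1 := by linarith
        have h6 : (b' : ℝ) < b + 1 := by linarith
        have h5' : b < b' + 1 := by exact_mod_cast h5
        have h6' : b' < b + 1 := by exact_mod_cast h6
        omega
      rw [h2, h3]
      exact ⟨rfl, rfl, rfl, rfl⟩
  | t6 i j y hj0 hj hy hy' =>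
    cases h' with
    | t6 i' j' y' hj0' hj' hz hz' =>
      have h1 : ((i * (N + 2) : ℤ) : ℝ) + t = ((i' * (N + 2) : ℤ) : ℝ) + t' := by
        push_cast at hX ⊢
        linarith
      obtain ⟨h2, h3⟩ := hfr _ _ h1
      subst h3
      have h4 : j = j' := by
        have hd : ∀ (j j' d d' : ℤ), 0 ≤ j → j' ≤ 2 * m + 1 → j < j' →
            -((j + 1) * (N + 1)) ≤ d → d' ≤ -(j' * (N + 1)) →
            (1 - t) * (plh m N j : ℝ) + t * d = (1 - t) * (plh m N j' : ℝ) + t * d' → False := by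
          intro j j' d d' hj0 hj' hlt hd hd' he
          have h5 : plh m N j' < plh m N j := plh_anti m N j j' hlt hj'
          have h6 : d' ≤ d := by
            have : (j + 1) * ((N : ℤ) + 1) ≤ j' * (N + 1) :=
              mul_le_mul_of_nonneg_right (by linarith) (by positivity)
            linarith
          have h5' : (plh m N j' : ℝ) < plh m N j := by exact_mod_cast h5
          have h6' : (d' : ℝ) ≤ d := by exact_mod_cast h6
          nlinarith [mul_pos (sub_pos.2 ht1) (sub_pos.2 h5'), mul_nonneg ht0.le (sub_nonneg.2 h6')]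
        rcases lt_trichotomy j j' with h5 | h5 | h5
        · exact (hd j j' d d' hj0 hj' h5 hy hz' hY).elim
        · exact h5
        · exact (hd j' j d' d hj0' hj h5 hz hy' hY.symm).elim
      subst h4
      have h5 : (d : ℝ) = d' := by
        have h6 : t * (d : ℝ) = t * d' := by linarith
        exact mul_left_cancel₀ ht0.ne' h6
      have h6 : d = d' := by exact_mod_cast h5
      rw [h2, h6]
      exact ⟨rfl, rfl, rfl, rfl⟩

/-- code of a vertex: column, offset, level, sublevel -/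
def plcI (n m N : ℕ) : V0 n m ⊕ (I0 n m × Fin N) → ℤ
  | Sum.inl (Sum.inl (i, _)) => (i : ℕ)
  | Sum.inl (Sum.inr (Sum.inl (i, _))) => (i : ℕ)
  | Sum.inl (Sum.inr (Sum.inr _)) => 0
  | Sum.inr (Sum.inl (i, _), _) => (i : ℕ)
  | Sum.inr (Sum.inr i, _) => (i : ℕ)

def plcA (n m N : ℕ) : V0 n m ⊕ (I0 n m × Fin N) → ℤ
  | Sum.inl (Sum.inl _) => 0
  | Sum.inl (Sum.inr (Sum.inl _)) => 1
  | Sum.inl (Sum.inr (Sum.inr _)) => 0
  | Sum.inr (Sum.inl _, _) => 1
  | Sum.inr (Sum.inr _, k) => 2 + (k : ℕ)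

def plcJ (n m N : ℕ) : V0 n m ⊕ (I0 n m × Fin N) → ℤ
  | Sum.inl (Sum.inl (_, j)) => if ((j : ℕ) : ℤ) < 2 * m + 1 then (j : ℕ) else 2 * m + 2
  | Sum.inl (Sum.inr (Sum.inl (_, j))) => (j : ℕ)
  | Sum.inl (Sum.inr (Sum.inr false)) => -1
  | Sum.inl (Sum.inr (Sum.inr true)) => 2 * m + 2
  | Sum.inr (Sum.inl (_, j), _) => (j : ℕ)
  | Sum.inr (Sum.inr _, _) => 0

def plcR (n m N : ℕ) : V0 n m ⊕ (I0 n m × Fin N) → ℤ
  | Sum.inl (Sum.inl _) => 0
  | Sum.inl (Sum.inr (Sum.inl _)) => 0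
  | Sum.inl (Sum.inr (Sum.inr false)) => N
  | Sum.inl (Sum.inr (Sum.inr true)) => 1
  | Sum.inr (Sum.inl _, k) => 1 + (k : ℕ)
  | Sum.inr (Sum.inr _, _) => 0

def plx (n m N : ℕ) (w : V0 n m ⊕ (I0 n m × Fin N)) : ℤ := plcI n m N w * (N + 2) + plcA n m N w
def ply (n m N : ℕ) (w : V0 n m ⊕ (I0 n m × Fin N)) : ℤ :=
  -(plcJ n m N w * (N + 1) + plcR n m N w)

theorem plcA_bd (n m N : ℕ) (w : V0 n m ⊕ (I0 n m × Fin N)) :
    0 ≤ plcA n m N w ∧ plcA n m N w < N + 2 := by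
  rcases w with (_ | _ | _) | ⟨_ | _, k⟩
  · exact ⟨le_refl 0, by show (0:ℤ) < N + 2; omega⟩
  · exact ⟨zero_le_one, by show (1:ℤ) < N + 2; have := (Nat.cast_nonneg N : (0:ℤ) ≤ N); omega⟩
  · exact ⟨le_refl 0, by show (0:ℤ) < N + 2; omega⟩
  · exact ⟨zero_le_one, by show (1:ℤ) < N + 2; omega⟩
  · have := k.2
    exact ⟨by show (0:ℤ) ≤ 2 + (k : ℕ); omega, by show 2 + ((k : ℕ) : ℤ) < N + 2; omega⟩

theorem plcR_bd (n m N : ℕ) (hN : 1 ≤ N) (w : V0 n m ⊕ (I0 n m × Fin N)) :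
    0 ≤ plcR n m N w ∧ plcR n m N w < N + 1 := by
  rcases w with (_ | _ | _ | _) | ⟨_ | _, k⟩
  · exact ⟨le_refl 0, by show (0:ℤ) < N + 1; omega⟩
  · exact ⟨le_refl 0, by show (0:ℤ) < N + 1; omega⟩
  · exact ⟨by show (0:ℤ) ≤ N; omega, by show (N:ℤ) < N + 1; omega⟩
  · exact ⟨zero_le_one, by show (1:ℤ) < N + 1; omega⟩
  · have := k.2
    exact ⟨by show (0:ℤ) ≤ 1 + (k : ℕ); omega, by show 1 + ((k : ℕ) : ℤ) < N + 1; omega⟩
  · exact ⟨le_refl 0, by show (0:ℤ) < N + 1; omega⟩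

theorem plc_inj (n m N : ℕ) (w w' : V0 n m ⊕ (I0 n m × Fin N))
    (hI : plcI n m N w = plcI n m N w') (hA : plcA n m N w = plcA n m N w')
    (hJ : plcJ n m N w = plcJ n m N w') (hR : plcR n m N w = plcR n m N w') : w = w' := by
  rcases w with (⟨i, j⟩ | ⟨i, j⟩ | _ | _) | ⟨⟨i, j⟩ | i, k⟩ <;>
  rcases w' with (⟨i', j'⟩ | ⟨i', j'⟩ | _ | _) | ⟨⟨i', j'⟩ | i', k'⟩ <;>
  simp only [plcI, plcA, plcJ, plcR] at hI hA hJ hR <;>
  first
  | rfl
  | (exfalso; omega)
  | (exfalso; have hj := j.2; split_ifs at hJ <;> omega)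
  | (exfalso; have hj := j'.2; split_ifs at hJ <;> omega)
  | (have h1 : i = i' := Fin.ext (by omega)
     have h2 : j = j' := Fin.ext (by have hj := j.2; have hj' := j'.2; split_ifs at hJ <;> omega)
     subst h1; subst h2; rfl)
  | (have h1 : i = i' := Fin.ext (by omega)
     have h2 : j = j' := Fin.ext (by omega)
     subst h1; subst h2; rfl)
  | (have h1 : i = i' := Fin.ext (by omega)
     have h2 : j = j' := Fin.ext (by omega)
     have h3 : k = k' := Fin.ext (by omega)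
     subst h1; subst h2; subst h3; rfl)
  | (have h1 : i = i' := Fin.ext (by omega)
     have h3 : k = k' := Fin.ext (by omega)
     subst h1; subst h3; rfl)
  | skip

theorem pl_pos_inj (n m N : ℕ) (hN : 1 ≤ N) (w w' : V0 n m ⊕ (I0 n m × Fin N))
    (hx : plx n m N w = plx n m N w') (hy : ply n m N w = ply n m N w') : w = w' := by
  unfold plx at hx
  unfold ply at hy
  obtain ⟨h1, h2⟩ := plcA_bd n m N w
  obtain ⟨h3, h4⟩ := plcA_bd n m N w'
  obtain ⟨h5, h6⟩ := plcR_bd n m N hN w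
  obtain ⟨h7, h8⟩ := plcR_bd n m N hN w'
  obtain ⟨h9, h10⟩ := pl_dm _ _ _ _ _ h1 h2 h3 h4 hx
  obtain ⟨h11, h12⟩ := pl_dm _ _ _ _ _ h5 h6 h7 h8 (neg_injective hy)
  exact plc_inj n m N w w' h9 h10 h11 h12

theorem plx_v (n m N : ℕ) (i : Fin (n + 1)) (j : Fin (2 * m + 2)) :
    plx n m N (Sum.inl (Sum.inl (i, j))) = (i : ℕ) * (N + 2) ∧
    ply n m N (Sum.inl (Sum.inl (i, j))) = plh m N (j : ℕ) := by
  constructor
  · show ((i : ℕ) : ℤ) * (N + 2) + 0 = _
    ring
  · show -((if ((j : ℕ) : ℤ) < 2 * m + 1 then ((j : ℕ) : ℤ) else 2 * m + 2) * (N + 1) + 0) = _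
    unfold plh plH
    split_ifs <;> ring

theorem plx_s (n m N : ℕ) (i : Fin (n + 1)) (j : Fin (2 * m + 3)) :
    plx n m N (Sum.inl (Sum.inr (Sum.inl (i, j)))) = (i : ℕ) * (N + 2) + 1 ∧
    ply n m N (Sum.inl (Sum.inr (Sum.inl (i, j)))) = -(((j : ℕ) : ℤ) * (N + 1)) := by
  constructor
  · rfl
  · show -(((j : ℕ) : ℤ) * (N + 1) + 0) = _
    ring

theorem plx_f (n m N : ℕ) :
    plx n m N (Sum.inl (Sum.inr (Sum.inr false))) = 0 ∧
    ply n m N (Sum.inl (Sum.inr (Sum.inr false))) = 1 := by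
  constructor
  · show (0 : ℤ) * (N + 2) + 0 = _
    ring
  · show -((-1 : ℤ) * (N + 1) + N) = _
    ring

theorem plx_t (n m N : ℕ) :
    plx n m N (Sum.inl (Sum.inr (Sum.inr true))) = 0 ∧
    ply n m N (Sum.inl (Sum.inr (Sum.inr true))) = -plH m N - 1 := by
  constructor
  · show (0 : ℤ) * (N + 2) + 0 = _
    ring
  · show -((2 * m + 2 : ℤ) * (N + 1) + 1) = _
    unfold plH
    ring

theorem plx_l (n m N : ℕ) (i : Fin (n + 1)) (j : Fin (2 * m + 2)) (k : Fin N) :
    plx n m N (Sum.inr (Sum.inl (i, j), k)) = (i : ℕ) * (N + 2) + 1 ∧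
    ply n m N (Sum.inr (Sum.inl (i, j), k)) = -(((j : ℕ) : ℤ) * (N + 1) + (1 + (k : ℕ))) :=
  ⟨rfl, rfl⟩

theorem plx_r (n m N : ℕ) (i : Fin n) (k : Fin N) :
    plx n m N (Sum.inr (Sum.inr i, k)) = (i : ℕ) * (N + 2) + (2 + (k : ℕ)) ∧
    ply n m N (Sum.inr (Sum.inr i, k)) = 0 := by
  constructor
  · rfl
  · show -((0 : ℤ) * (N + 1) + 0) = 0
    ring

theorem plm1 {m N : ℕ} {a b c d : ℤ} (h1 : a = 0) (h2 : b = 1) (h3 : d = 0) : PlT m N 1 a b c d := by
  subst h1 h2 h3; exact PlT.t1 c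

theorem plm2 {m N : ℕ} {a b c d : ℤ} (h1 : a = 0) (h2 : b = -plH m N - 1) (h3 : d = -plH m N) :
    PlT m N 2 a b c d := by
  subst h1 h2 h3; exact PlT.t2 c

theorem plm3 {m N : ℕ} {a b c d : ℤ} (h1 : b = 0) (h2 : d = 0) (h3 : c = a + 1)
    (h4 : ∃ i r : ℤ, a = i * (N + 2) + r ∧ 0 < r ∧ r < N + 2) : PlT m N 3 a b c d := by
  subst h1 h2 h3
  refine PlT.t3 a ?_
  obtain ⟨i, r, rfl, h5, h6⟩ := h4
  intro h7
  have h8 : ((N : ℤ) + 2) ∣ r := (dvd_add_right (Dvd.intro_left i rfl)).1 h7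
  have h9 := Int.le_of_dvd h5 h8
  linarith

theorem plm4 {m N : ℕ} {a b c d : ℤ} (i j : ℤ) (h1 : a = i * (N + 2)) (h2 : c = i * (N + 2))
    (h3 : b = plh m N j) (h4 : d = plh m N (j + 1)) (h5 : 0 ≤ j) (h6 : j + 1 ≤ 2 * m + 1) :
    PlT m N 4 a b c d := by
  subst h1 h2 h3 h4; exact PlT.t4 i j h5 h6

theorem plm5 {m N : ℕ} {a b c d : ℤ} (i j r : ℤ) (h1 : a = i * (N + 2) + 1)
    (h2 : c = i * (N + 2) + 1) (h3 : b = -(j * (N + 1) + r)) (h4 : d = b - 1) (h5 : 0 ≤ j)
    (h6 : j ≤ 2 * m + 1) (h7 : 0 ≤ r) (h8 : r ≤ N) : PlT m N 5 a b c d := by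
  subst h1 h2 h4
  refine PlT.t5 i b ?_ ?_
  · rw [h3]
    have : j * ((N : ℤ) + 1) ≤ (2 * m + 1) * (N + 1) :=
      mul_le_mul_of_nonneg_right h6 (by positivity)
    unfold plH
    linarith
  · rw [h3]
    have : 0 ≤ j * ((N : ℤ) + 1) := by positivity
    linarith

theorem plm6 {m N : ℕ} {a b c d : ℤ} (i j r : ℤ) (h1 : a = i * (N + 2))
    (h2 : c = i * (N + 2) + 1) (h3 : b = plh m N j) (h4 : d = -(j * (N + 1) + r)) (h5 : 0 ≤ j)
    (h6 : j ≤ 2 * m + 1) (h7 : 0 ≤ r) (h8 : r ≤ N + 1) : PlT m N 6 a b c d := by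
  subst h1 h2 h3
  refine PlT.t6 i j d h5 h6 ?_ ?_
  · rw [h4]
    linarith
  · rw [h4]
    linarith

/-- the segment of `u`, `v` or `v`, `u` is in the list -/
def PlS (n m N : ℕ) (u v : V0 n m ⊕ (I0 n m × Fin N)) : Prop :=
  ∃ k, PlT m N k (plx n m N u) (ply n m N u) (plx n m N v) (ply n m N v) ∨
    PlT m N k (plx n m N v) (ply n m N v) (plx n m N u) (ply n m N u)

theorem PlS.symm {n m N : ℕ} {u v : V0 n m ⊕ (I0 n m × Fin N)} (h : PlS n m N u v) :
    PlS n m N v u := by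
  obtain ⟨k, h | h⟩ := h
  · exact ⟨k, Or.inr h⟩
  · exact ⟨k, Or.inl h⟩

theorem plS_rel0 (n m N : ℕ) (u v : V0 n m) (h : rel0 n m u v) :
    PlS n m N (Sum.inl u) (Sum.inl v) := by
  rcases u with ⟨i, j⟩ | ⟨i, j⟩ | _ | _ <;> rcases v with ⟨i', j'⟩ | ⟨i', j'⟩ | _ | _ <;>
    try exact (h : False).elim
  ·
    obtain ⟨rfl, h2⟩ : i = i' ∧ (j' : ℕ) = j + 1 := h
    have := j'.2
    refine ⟨4, Or.inl (plm4 (i : ℕ) (j : ℕ) (plx_v ..).1 (plx_v ..).1 (plx_v ..).2 ?_ ?_ ?_)⟩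
    · rw [(plx_v ..).2, h2]
      push_cast
      rfl
    · positivity
    · omega
  ·
    obtain ⟨rfl, h2⟩ : i = i' ∧ ((j' : ℕ) = j ∨ (j' : ℕ) + 1 = j) := h
    have h3 := j'.2
    rcases h2 with h2 | h2
    · refine ⟨6, Or.inr (plm6 (i : ℕ) (j' : ℕ) 0 (plx_v ..).1 (plx_s ..).1 (plx_v ..).2 ?_ ?_ ?_ ?_ ?_)⟩
      · rw [(plx_s ..).2, h2]
        ring
      · positivity
      · omega
      · exact le_rfl
      · positivity
    · refine ⟨6, Or.inr (plm6 (i : ℕ) (j' : ℕ) (N + 1) (plx_v ..).1 (plx_s ..).1 (plx_v ..).2 ?_ ?_ ?_ ?_ ?_)⟩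
      · rw [(plx_s ..).2, ← h2]
        push_cast
        ring
      · positivity
      · omega
      · positivity
      · exact le_rfl
  ·
    have h2 : (j' : ℕ) = 0 := h
    refine ⟨1, Or.inl (plm1 (plx_f ..).1 (plx_f ..).2 ?_)⟩
    rw [(plx_v ..).2, h2]
    unfold plh
    rw [if_pos (by push_cast; omega)]
    push_cast
    ring
  ·
    have h2 : (j' : ℕ) = 0 := h
    refine ⟨1, Or.inl (plm1 (plx_f ..).1 (plx_f ..).2 ?_)⟩
    rw [(plx_s ..).2, h2]
    push_cast
    ring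
  ·
    have h2 : (j' : ℕ) + 1 = 2 * m + 2 := h
    refine ⟨2, Or.inl (plm2 (plx_t ..).1 (plx_t ..).2 ?_)⟩
    rw [(plx_v ..).2]
    unfold plh
    rw [if_neg (by omega)]
  ·
    have h2 : (j' : ℕ) = 2 * m + 2 := h
    refine ⟨2, Or.inl (plm2 (plx_t ..).1 (plx_t ..).2 ?_)⟩
    rw [(plx_s ..).2, h2]
    unfold plH
    push_cast
    ring

theorem plS_relF (n m N : ℕ) (hN : 1 ≤ N) (u v : V0 n m ⊕ (I0 n m × Fin N))
    (h : relF (H0 n m) (fr n m) (ft n m) (ft' n m) N u v) : PlS n m N u v := by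
  rcases u with u | ⟨iu, k⟩ <;> rcases v with v | ⟨iv, k'⟩
  · have h1 : (H0 n m).Adj u v := h
    unfold H0 at h1
    rw [SimpleGraph.fromRel_adj] at h1
    rcases h1.2 with h2 | h2
    · exact plS_rel0 n m N u v h2
    · exact (plS_rel0 n m N v u h2).symm
  · have hk := k'.2
    rcases h with h1 | ⟨h1, h2⟩ | ⟨h1, h2⟩
    · subst h1
      rcases iv with ⟨i, j⟩ | i
      · have hj := j.2
        refine ⟨6, Or.inl (plm6 (i : ℕ) (j : ℕ) (1 + (k' : ℕ)) (plx_v ..).1 (plx_l ..).1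
          (plx_v ..).2 (plx_l ..).2 ?_ ?_ ?_ ?_)⟩
        · positivity
        · omega
        · positivity
        · omega
      · exact ⟨1, Or.inl (plm1 (plx_f ..).1 (plx_f ..).2 (plx_r ..).2)⟩
    · subst h1
      rcases iv with ⟨i, j⟩ | i
      · have hj := j.2
        refine ⟨5, Or.inl (plm5 (i : ℕ) (j : ℕ) 0 (plx_s ..).1 (plx_l ..).1
          ?_ ?_ ?_ ?_ ?_ ?_)⟩
        · show ply n m N (Sum.inl (Sum.inr (Sum.inl (i, j.castSucc)))) = _
          rw [(plx_s ..).2]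
          rw [Fin.val_castSucc]
          ring
        · show _ = ply n m N (Sum.inl (Sum.inr (Sum.inl (i, j.castSucc)))) - 1
          rw [(plx_s ..).2, (plx_l ..).2, h2, Fin.val_castSucc]
          push_cast
          ring
        · positivity
        · omega
        · exact le_rfl
        · positivity
      · refine ⟨3, Or.inl (plm3 ?_ (plx_r ..).2 ?_ ?_)⟩
        · show ply n m N (Sum.inl (Sum.inr (Sum.inl (i.castSucc, 0)))) = _
          rw [(plx_s ..).2]
          simp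
        · show _ = plx n m N (Sum.inl (Sum.inr (Sum.inl (i.castSucc, 0)))) + 1
          rw [(plx_s ..).1, (plx_r ..).1, h2, Fin.val_castSucc]
          push_cast
          ring
        · exact ⟨((i.castSucc : Fin (n + 1)) : ℕ), 1, (plx_s ..).1, one_pos, by omega⟩
    · subst h1
      rcases iv with ⟨i, j⟩ | i
      · have hj := j.2
        refine ⟨5, Or.inr (plm5 (i : ℕ) (j : ℕ) (1 + (k' : ℕ)) (plx_l ..).1 (plx_s ..).1
          (plx_l ..).2 ?_ ?_ ?_ ?_ ?_)⟩
        · show ply n m N (Sum.inl (Sum.inr (Sum.inl (i, j.succ)))) = _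
          rw [(plx_s ..).2, (plx_l ..).2, Fin.val_succ]
          have h3 : (((k' : ℕ) : ℤ)) + 1 = N := by exact_mod_cast h2
          push_cast
          linarith
        · positivity
        · omega
        · positivity
        · omega
      · refine ⟨3, Or.inr (plm3 (plx_r ..).2 ?_ ?_ ?_)⟩
        · show ply n m N (Sum.inl (Sum.inl (i.succ, 0))) = _
          rw [(plx_v ..).2]
          unfold plh
          rw [if_pos (by simp)]
          simp
        · show plx n m N (Sum.inl (Sum.inl (i.succ, 0))) = _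
          rw [(plx_v ..).1, (plx_r ..).1, Fin.val_succ]
          have h3 : (((k' : ℕ) : ℤ)) + 1 = N := by exact_mod_cast h2
          push_cast
          linarith
        · exact ⟨((i : Fin n) : ℕ), 2 + (k' : ℕ), (plx_r ..).1, by positivity, by omega⟩
  · exact absurd h (by simp [relF])
  · obtain ⟨rfl, h2⟩ : iu = iv ∧ (k' : ℕ) = k + 1 := h
    have hk := k'.2
    rcases iu with ⟨i, j⟩ | i
    · have hj := j.2
      refine ⟨5, Or.inl (plm5 (i : ℕ) (j : ℕ) (1 + (k : ℕ)) (plx_l ..).1 (plx_l ..).1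
        (plx_l ..).2 ?_ ?_ ?_ ?_ ?_)⟩
      · rw [(plx_l ..).2, (plx_l ..).2, h2]
        push_cast
        ring
      · positivity
      · omega
      · positivity
      · omega
    · refine ⟨3, Or.inl (plm3 (plx_r ..).2 (plx_r ..).2 ?_ ?_)⟩
      · rw [(plx_r ..).1, (plx_r ..).1, h2]
        push_cast
        ring
      · exact ⟨((i : Fin n) : ℕ), 2 + (k : ℕ), (plx_r ..).1, by positivity, by omega⟩

theorem plS_adj (n m N : ℕ) (hN : 1 ≤ N) (u v : V0 n m ⊕ (I0 n m × Fin N))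
    (h : (FG n m N).Adj u v) : PlS n m N u v := by
  unfold FG Fan at h
  rw [SimpleGraph.fromRel_adj] at h
  rcases h.2 with h2 | h2
  · exact plS_relF n m N hN u v h2
  · exact (plS_relF n m N hN v u h2).symm

theorem pl_avoid (n m N : ℕ) (k : ℕ) (a b c d : ℤ) (h : PlT m N k a b c d)
    (w : V0 n m ⊕ (I0 n m × Fin N)) (t : ℝ) (ht0 : 0 < t) (ht1 : t < 1)
    (hX : (1 - t) * (a : ℝ) + t * c = plx n m N w) (hY : (1 - t) * (b : ℝ) + t * d = ply n m N w) :
    False := by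
  have hint : ∀ x y : ℤ, (x : ℝ) + t = y → False := by
    intro x y hxy
    have h1 : (x : ℝ) < y := by linarith
    have h2 : (y : ℝ) < x + 1 := by linarith
    have h1' : x < y := by exact_mod_cast h1
    have h2' : y < x + 1 := by exact_mod_cast h2
    omega
  cases h with
  | t1 x =>
    refine hint (ply n m N w - 1) 0 ?_
    push_cast at hY ⊢
    linarith
  | t2 x =>
    refine hint (-plH m N - 1) (ply n m N w) ?_
    push_cast at hY ⊢
    linarith
  | t3 x hx =>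
    refine hint a (plx n m N w) ?_
    push_cast at hX ⊢
    linarith
  | t5 i y hy hy' =>
    refine hint (ply n m N w) b ?_
    push_cast at hY ⊢
    linarith
  | t6 i j y hj0 hj hy hy' =>
    refine hint (i * (N + 2)) (plx n m N w) ?_
    push_cast at hX ⊢
    linarith
  | t4 i j hj0 hj =>
    have h1 : ((i * (N + 2) : ℤ) : ℝ) = plx n m N w := by linarith
    have h2 : plx n m N w = i * ((N : ℤ) + 2) + 0 := by
      have : i * ((N : ℤ) + 2) = plx n m N w := by exact_mod_cast h1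
      linarith
    have h3 := plh_anti m N j (j + 1) (by linarith) hj
    have h3' : (plh m N (j + 1) : ℝ) < plh m N j := by exact_mod_cast h3
    have h4 : (ply n m N w : ℝ) < plh m N j := by nlinarith
    have h5 : (plh m N (j + 1) : ℝ) < ply n m N w := by nlinarith
    have h4' : ply n m N w < plh m N j := by exact_mod_cast h4
    have h5' : plh m N (j + 1) < ply n m N w := by exact_mod_cast h5
    obtain ⟨h6, h7⟩ := plh_bd m N j hj0
    obtain ⟨h8, h9⟩ := plh_bd m N (j + 1) (by linarith)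
    obtain ⟨hA1, hA2⟩ := plcA_bd n m N w
    have hA : plcA n m N w = 0 := by
      have h10 : plcI n m N w * ((N : ℤ) + 2) + plcA n m N w = i * (N + 2) + 0 := h2
      exact (pl_dm _ _ _ _ _ hA1 hA2 le_rfl (by positivity) h10).2
    rcases w with (⟨i', j'⟩ | ⟨i', j'⟩ | _ | _) | ⟨⟨i', j'⟩ | i', k'⟩
    · rw [(plx_v ..).2] at h4' h5'
      have hj' := j'.2
      rcases lt_trichotomy ((j' : ℕ) : ℤ) j with h10 | h10 | h10
      · have := plh_anti m N _ _ h10 (by linarith)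
        linarith
      · rw [h10] at h4'
        linarith
      · rcases eq_or_lt_of_le (show j + 1 ≤ ((j' : ℕ) : ℤ) by omega) with h11 | h11
        · rw [← h11] at h5'
          linarith
        · have := plh_anti m N _ _ h11 (by omega)
          linarith
    · exact absurd hA (by simp [plcA])
    · rw [(plx_f ..).2] at h4' h5'
      linarith
    · rw [(plx_t ..).2] at h4' h5'
      linarith
    · exact absurd hA (by simp [plcA])
    · have : (2 : ℤ) + (k' : ℕ) = 0 := hA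
      omega


/-- straight segment -/
noncomputable def plSeg (z w : ℂ) : Path z w where
  toFun := fun t => ((1 - (t : ℝ) : ℝ) : ℂ) * z + (((t : ℝ) : ℝ) : ℂ) * w
  continuous_toFun := by fun_prop
  source' := by simp
  target' := by simp

theorem plSeg_re (z w : ℂ) (t : unitInterval) :
    (plSeg z w t).re = (1 - (t : ℝ)) * z.re + (t : ℝ) * w.re := by
  show (((1 - (t : ℝ) : ℝ) : ℂ) * z + (((t : ℝ) : ℝ) : ℂ) * w).re = _
  rw [Complex.add_re, Complex.re_ofReal_mul, Complex.re_ofReal_mul]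

theorem plSeg_im (z w : ℂ) (t : unitInterval) :
    (plSeg z w t).im = (1 - (t : ℝ)) * z.im + (t : ℝ) * w.im := by
  show (((1 - (t : ℝ) : ℝ) : ℂ) * z + (((t : ℝ) : ℝ) : ℂ) * w).im = _
  rw [Complex.add_im, Complex.im_ofReal_mul, Complex.im_ofReal_mul]

/-- position of the vertices -/
noncomputable def plf (n m N : ℕ) (w : V0 n m ⊕ (I0 n m × Fin N)) : ℂ :=
  ⟨(plx n m N w : ℝ), (ply n m N w : ℝ)⟩

theorem plf_inj (n m N : ℕ) (hN : 1 ≤ N) : Function.Injective (plf n m N) := by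
  intro u v h
  have h1 : (plx n m N u : ℝ) = plx n m N v := congrArg Complex.re h
  have h2 : (ply n m N u : ℝ) = ply n m N v := congrArg Complex.im h
  exact pl_pos_inj n m N hN u v (by exact_mod_cast h1) (by exact_mod_cast h2)

theorem plSeg_inj (z w : ℂ) (h : z ≠ w) : Function.Injective ⇑(plSeg z w) := by
  intro s t hst
  have h1 : ((1 - (s : ℝ) : ℝ) : ℂ) * z + (((s : ℝ) : ℝ) : ℂ) * w =
      ((1 - (t : ℝ) : ℝ) : ℂ) * z + (((t : ℝ) : ℝ) : ℂ) * w := hst
  have h2 : (((s : ℝ) : ℂ) - ((t : ℝ) : ℂ)) * (w - z) = 0 := by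
    push_cast at h1
    linear_combination h1
  rcases mul_eq_zero.1 h2 with h3 | h3
  · apply Subtype.ext
    have := sub_eq_zero.1 h3
    exact_mod_cast this
  · exact absurd (sub_eq_zero.1 h3).symm h

theorem pl_or (n m N : ℕ) (u v : V0 n m ⊕ (I0 n m × Fin N)) (h : PlS n m N u v) (t : ℝ)
    (ht0 : 0 < t) (ht1 : t < 1) : ∃ (k : ℕ) (p q : V0 n m ⊕ (I0 n m × Fin N)) (t' : ℝ),
      PlT m N k (plx n m N p) (ply n m N p) (plx n m N q) (ply n m N q) ∧ 0 < t' ∧ t' < 1 ∧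
      s(p, q) = s(u, v) ∧
      (1 - t) * (plx n m N u : ℝ) + t * plx n m N v = (1 - t') * plx n m N p + t' * plx n m N q ∧
      (1 - t) * (ply n m N u : ℝ) + t * ply n m N v = (1 - t') * ply n m N p + t' * ply n m N q := by
  obtain ⟨k, h | h⟩ := h
  · exact ⟨k, u, v, t, h, ht0, ht1, rfl, rfl, rfl⟩
  · exact ⟨k, v, u, 1 - t, h, by linarith, by linarith, Sym2.eq_swap, by ring, by ring⟩

theorem pl_unit (a : unitInterval) (h0 : a ≠ 0) (h1 : a ≠ 1) : 0 < (a : ℝ) ∧ (a : ℝ) < 1 := by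
  refine ⟨lt_of_le_of_ne a.2.1 fun h => h0 (Subtype.ext h.symm), lt_of_le_of_ne a.2.2 fun h =>
    h1 (Subtype.ext h)⟩

/-- TARGET. -/
theorem fg_pla (n m N : ℕ) (hN : 1 ≤ N) : Pla (FG n m N) := by
  refine ⟨plf n m N, fun u v => plSeg (plf n m N u) (plf n m N v), plf_inj n m N hN, ?_, ?_⟩
  · intro u v huv
    refine ⟨plSeg_inj _ _ fun h => huv.ne (plf_inj n m N hN h), fun t w h => ?_⟩
    by_cases h0 : t = 0
    · subst h0
      rw [Path.source] at h
      exact Or.inl (plf_inj n m N hN h).symm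
    by_cases h1 : t = 1
    · subst h1
      rw [Path.target] at h
      exact Or.inr (plf_inj n m N hN h).symm
    exfalso
    obtain ⟨h2, h3⟩ := pl_unit t h0 h1
    obtain ⟨k, p, q, t', hT, ht0, ht1, _, hX, hY⟩ :=
      pl_or n m N u v (plS_adj n m N hN u v huv) t h2 h3
    have h4 := congrArg Complex.re h
    have h5 := congrArg Complex.im h
    rw [plSeg_re] at h4
    rw [plSeg_im] at h5
    exact pl_avoid n m N k _ _ _ _ hT w t' ht0 ht1 (hX.symm.trans h4) (hY.symm.trans h5)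
  · intro u v x y huv hxy hne a b hab
    by_cases ha0 : a = 0
    · exact ⟨u, by rw [ha0, Path.source]⟩
    by_cases ha1 : a = 1
    · exact ⟨v, by rw [ha1, Path.target]⟩
    by_cases hb0 : b = 0
    · exact ⟨x, by rw [hab, hb0, Path.source]⟩
    by_cases hb1 : b = 1
    · exact ⟨y, by rw [hab, hb1, Path.target]⟩
    exfalso
    obtain ⟨h2, h3⟩ := pl_unit a ha0 ha1
    obtain ⟨h2', h3'⟩ := pl_unit b hb0 hb1
    obtain ⟨k, p, q, t, hT, ht0, ht1, hs, hX, hY⟩ :=
      pl_or n m N u v (plS_adj n m N hN u v huv) a h2 h3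
    obtain ⟨k', p', q', t', hT', ht0', ht1', hs', hX', hY'⟩ :=
      pl_or n m N x y (plS_adj n m N hN x y hxy) b h2' h3'
    have h4 := congrArg Complex.re hab
    have h5 := congrArg Complex.im hab
    rw [plSeg_re, plSeg_re] at h4
    rw [plSeg_im, plSeg_im] at h5
    obtain ⟨h6, h7, h8, h9⟩ := plT_uniq m N k k' _ _ _ _ _ _ _ _ hT hT' t t' ht0 ht1 ht0' ht1'
      (hX.symm.trans (h4.trans hX')) (hY.symm.trans (h5.trans hY'))
    have hp := pl_pos_inj n m N hN p p' h6 h7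
    have hq := pl_pos_inj n m N hN q q' h8 h9
    apply hne
    rw [← hs, ← hs', hp, hq]



end Pool.Agent.Helper759.Chrom
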