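import Mathlib
import Pool.Agent.Helper759.ChromDefs
import Pool.Agent.Helper759.ChromA
import Pool.Agent.Helper759.ChromB
import Pool.Agent.Helper759.ChromC
import Pool.Agent.Helper759.FanDefs
import Pool.Agent.Helper759.FanA
import Pool.Agent.Helper759.FanB
import Pool.Agent.Helper759.FanC
import Pool.Agent.Helper759.FanD
set_option autoImplicit false
open Classical Filter Topology

namespace Pool.Agent.Helper759.Chrom


theorem fan_dense (z₀ : ℂ) (h1 : 1 < ‖z₀ - 1‖) (h2 : 1 < ‖z₀ - 2‖) :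
    z₀ ∈ closure {z : ℂ | ∃ (n : ℕ) (G : SimpleGraph (Fin n)),
      (4 ≤ n ∧ ∀ S : Finset (Fin n), S.card ≤ 2 →
          (G.induce ((↑S : Set (Fin n))ᶜ)).Connected) ∧
      (∃ (f : Fin n → ℂ) (γ : ∀ u v : Fin n, Path (f u) (f v)),
          Function.Injective f ∧
          (∀ u v : Fin n, G.Adj u v →
              Function.Injective ⇑(γ u v) ∧
              ∀ (t : unitInterval) (w : Fin n), γ u v t = f w → w = u ∨ w = v) ∧
          (∀ u v x y : Fin n, G.Adj u v → G.Adj x y → s(u, v) ≠ s(x, y) →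
              ∀ a b : unitInterval, γ u v a = γ x y b → ∃ w : Fin n, γ u v a = f w)) ∧
      (∑ S ∈ G.edgeFinset.powerset,
          (-1 : ℂ) ^ S.card *
            z ^ Nat.card (SimpleGraph.fromEdgeSet (↑S : Set (Sym2 (Fin n)))).ConnectedComponent) = 0} := by
  rw [Metric.mem_closure_iff]
  intro ε hε
  have hop : ∀ᶠ z in 𝓝 z₀, 1 < ‖z - 1‖ ∧ 1 < ‖z - 2‖ := by
    have c1 : Continuous fun z : ℂ => ‖z - 1‖ := by fun_prop
    have c3 : Continuous fun z : ℂ => ‖z - 2‖ := by fun_prop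
    exact (continuous_const.continuousAt.eventually_lt c1.continuousAt h1).and
      (continuous_const.continuousAt.eventually_lt c3.continuousAt h2)
  obtain ⟨δ, hδ, hball⟩ := Metric.eventually_nhds_iff_ball.1 hop
  obtain ⟨n, m, hn, hm, z₁, hz₁, hroot⟩ :=
    th_dense z₀ h1 (min δ (ε / 2)) (lt_min hδ (by positivity))
  have hz₁δ : z₁ ∈ Metric.ball z₀ δ := Metric.ball_subset_ball (min_le_left _ _) hz₁
  have hz₁ε : z₁ ∈ Metric.ball z₀ (ε / 2) := Metric.ball_subset_ball (min_le_right _ _) hz₁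
  obtain ⟨k1, k2⟩ := hball z₁ hz₁δ
  obtain ⟨m, rfl⟩ : ∃ m', m = m' + 1 := ⟨m - 1, by omega⟩
  have hne : z₁ ≠ 0 := by
    rintro rfl
    simp at k1
  have hb : whit (H0 n m) z₁ = 0 := base_root n m z₁ hne hroot
  have a1 : ∀ i, (H0 n m).Adj (fr n m i) (ft n m i) := by
    rintro (⟨i, j⟩ | i)
    · simp [H0, SimpleGraph.fromRel_adj, rel0, fr, ft]
    · simp [H0, SimpleGraph.fromRel_adj, rel0, fr, ft]
  have a2 : ∀ i, (H0 n m).Adj (fr n m i) (ft' n m i) := by
    rintro (⟨i, j⟩ | i)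
    · simp [H0, SimpleGraph.fromRel_adj, rel0, fr, ft']
    · simp [H0, SimpleGraph.fromRel_adj, rel0, fr, ft']
  obtain ⟨N, z, hz, hw⟩ := fan_limit (H0 n m) (fr n m) (ft n m) (ft' n m) a1 a2 z₁ k2 hb (ε / 2)
    (by positivity)
  refine ⟨z, transport (FG n m (N + 1)) z (fg_tri n m (N + 1) hn (Nat.succ_pos N))
    (fg_pla n m (N + 1) (Nat.succ_pos N)) hw, ?_⟩
  rw [Metric.mem_ball] at hz hz₁ε
  calc dist z₀ z ≤ dist z₀ z₁ + dist z₁ z := dist_triangle _ _ _
    _ < ε / 2 + ε / 2 := by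
        rw [dist_comm z₀ z₁, dist_comm z₁ z]; exact add_lt_add hz₁ε hz
    _ = ε := by ring

end Pool.Agent.Helper759.Chrom
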