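import Mathlib
set_option autoImplicit false
open Classical Filter Topology

namespace Pool.Agent.Helper759.Chrom.Ring

/-- vertices: ring vertices, ladder vertices `(i, k, e)` (ladder `i`, column `k`, side `e`), and two
special vertices: the hub `inr (inr false)` and the extra ring vertex `inr (inr true)` -/
abbrev VR (L b N : ℕ) := Fin (L + 1) ⊕ ((Fin b × Fin N × Bool) ⊕ Bool)

/-- one-directional adjacency: ring vertices `i`, `i+1` are joined by an edge if `b ≤ i` and by a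
ladder with `N` columns if `i < b`; both ends of the lower side of each ladder, all ring vertices and
the extra ring vertex are joined to the hub -/
def relR (L b N : ℕ) : VR L b N → VR L b N → Prop
  | Sum.inl i, Sum.inl j => b ≤ (i : ℕ) ∧ (j : ℕ) = i + 1
  | Sum.inl j, Sum.inr (Sum.inl (i, k, e)) =>
      e = false ∧ (((j : ℕ) = i ∧ (k : ℕ) = 0) ∨ ((j : ℕ) = i + 1 ∧ (k : ℕ) + 1 = N))
  | Sum.inr (Sum.inl (i, k, e)), Sum.inr (Sum.inl (i', k', e')) =>
      i = i' ∧ ((e = e' ∧ (k' : ℕ) = k + 1) ∨ (k = k' ∧ e = false ∧ e' = true))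
  | Sum.inr (Sum.inr false), Sum.inl _ => True
  | Sum.inr (Sum.inr false), Sum.inr (Sum.inl (_, k, e)) => e = true ∧ ((k : ℕ) = 0 ∨ (k : ℕ) + 1 = N)
  | Sum.inr (Sum.inr false), Sum.inr (Sum.inr true) => True
  | Sum.inr (Sum.inr true), Sum.inl j => (j : ℕ) = 0 ∨ (j : ℕ) = L
  | _, _ => False

/-- the ring of ladders around a hub -/
def RG (L b N : ℕ) : SimpleGraph (VR L b N) := SimpleGraph.fromRel (relR L b N)

/-- `2 z` times the trivial eigenvalue of a ladder block -/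
noncomputable def F0 (z : ℂ) (n : ℕ) : ℂ :=
  2 * (z ^ 2 - 3 * z + 3) ^ n + z * (1 - z) ^ n + (z - 2) * (3 - z) ^ n
/-- `2 z (z - 2)` times the second eigenvalue of a ladder block -/
noncomputable def F1 (z : ℂ) (n : ℕ) : ℂ :=
  (z - 2) * (1 - z) ^ n + z * (3 - z) ^ n + 2 * (z ^ 2 - 3 * z + 1)

/-- number of fillings of a ladder with `N` columns, end ring vertices coloured `c`, `c'`, hub `h` -/
noncomputable def LB (q N : ℕ) (h c c' : Fin q) : ℂ :=
  ∑ s : Fin N → Fin q × Fin q,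
    if ((∀ k, (s k).1 ≠ (s k).2) ∧
        (∀ k k' : Fin N, (k' : ℕ) = k + 1 → (s k).1 ≠ (s k').1 ∧ (s k).2 ≠ (s k').2) ∧
        (∀ k : Fin N, (k : ℕ) = 0 → c ≠ (s k).1 ∧ h ≠ (s k).2) ∧
        (∀ k : Fin N, (k : ℕ) + 1 = N → c' ≠ (s k).1 ∧ h ≠ (s k).2)) then 1 else 0


end Pool.Agent.Helper759.Chrom.Ring
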