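import Mathlib
import Pool.Agent.Helper759.ChromDefs
import Pool.Agent.Helper759.ChromA
import Pool.Agent.Helper759.RingDefs
set_option autoImplicit false
open Classical Filter Topology

namespace Pool.Agent.Helper759.Chrom.Ring
/-- conditions on the fillings -/
def lb_MM_P {q : ℕ} (N : ℕ) (a z : Fin q × Fin q) (s : Fin N → Fin q × Fin q) : Prop :=
  (∀ k, (s k).1 ≠ (s k).2) ∧
    (∀ k k' : Fin N, (k' : ℕ) = k + 1 → (s k).1 ≠ (s k').1 ∧ (s k).2 ≠ (s k').2) ∧
    (∀ k : Fin N, (k : ℕ) = 0 → a.1 ≠ (s k).1 ∧ a.2 ≠ (s k).2) ∧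
    (∀ k : Fin N, (k : ℕ) + 1 = N → z.1 ≠ (s k).1 ∧ z.2 ≠ (s k).2)

theorem lb_MM_snoc {q l : ℕ} (a z x : Fin q × Fin q) (t : Fin (l + 1) → Fin q × Fin q) :
    lb_MM_P (l + 2) a z (Fin.snoc (α := fun _ => Fin q × Fin q) t x) ↔
      lb_MM_P (l + 1) a x t ∧ x.1 ≠ x.2 ∧ (x.1 ≠ z.1 ∧ x.2 ≠ z.2) := by
  have hc : ∀ k : Fin (l + 1),
      (Fin.snoc (α := fun _ => Fin q × Fin q) t x : Fin (l + 2) → Fin q × Fin q) k.castSucc = t k :=
    fun k => Fin.snoc_castSucc (α := fun _ => Fin q × Fin q) x t k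
  have hl : (Fin.snoc (α := fun _ => Fin q × Fin q) t x : Fin (l + 2) → Fin q × Fin q)
      (Fin.last (l + 1)) = x := Fin.snoc_last (α := fun _ => Fin q × Fin q) x t
  constructor
  · rintro ⟨h1, h2, h3, h4⟩
    refine ⟨⟨fun k => ?_, fun k k' hk => ?_, fun k hk => ?_, fun k hk => ?_⟩, ?_, ?_⟩
    · have := h1 k.castSucc
      rwa [hc] at this
    · have := h2 k.castSucc k'.castSucc hk
      rwa [hc, hc] at this
    · have := h3 k.castSucc hk
      rwa [hc] at this
    · have := h2 k.castSucc (Fin.last (l + 1)) (by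
        rw [Fin.val_last, Fin.val_castSucc]
        exact hk.symm)
      rw [hc, hl] at this
      exact ⟨this.1.symm, this.2.symm⟩
    · have := h1 (Fin.last (l + 1))
      rwa [hl] at this
    · have := h4 (Fin.last (l + 1)) (by rw [Fin.val_last])
      rw [hl] at this
      exact ⟨this.1.symm, this.2.symm⟩
  · rintro ⟨⟨h1, h2, h3, h4⟩, h5, h6⟩
    refine ⟨fun k => ?_, fun k k' hk => ?_, fun k hk => ?_, fun k hk => ?_⟩
    · refine Fin.lastCases ?_ (fun k => ?_) k
      · rw [hl]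
        exact h5
      · rw [hc]
        exact h1 k
    · revert hk
      refine Fin.lastCases ?_ (fun k => ?_) k
      · intro hk
        rw [Fin.val_last] at hk
        have := k'.2
        omega
      · refine Fin.lastCases ?_ (fun k' => ?_) k'
        · intro hk
          rw [Fin.val_last, Fin.val_castSucc] at hk
          rw [hc, hl]
          have := h4 k hk.symm
          exact ⟨this.1.symm, this.2.symm⟩
        · intro hk
          rw [hc, hc]
          exact h2 k k' hk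
    · revert hk
      refine Fin.lastCases ?_ (fun k => ?_) k
      · intro hk
        rw [Fin.val_last] at hk
        omega
      · intro hk
        rw [hc]
        exact h3 k hk
    · revert hk
      refine Fin.lastCases ?_ (fun k => ?_) k
      · intro _
        rw [hl]
        exact ⟨h6.1.symm, h6.2.symm⟩
      · intro hk
        rw [Fin.val_castSucc] at hk
        have := k.2
        omega

theorem lb_MM_gen {q : ℕ} (l : ℕ) (a z : Fin q × Fin q) :
    ∑ s : Fin (l + 1) → Fin q × Fin q, (if lb_MM_P (l + 1) a z s then (1 : ℂ) else 0) =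
      MM (om (q := q)) mu (l + 1) a z := by
  induction l generalizing z with
  | zero =>
    show ∑ s : Fin 1 → Fin q × Fin q, (if lb_MM_P 1 a z s then (1 : ℂ) else 0) =
      ∑ x, mu a x * om x * mu x z
    rw [← Equiv.sum_comp (Equiv.funUnique (Fin 1) (Fin q × Fin q)).symm]
    refine Finset.sum_congr rfl fun x _ => ?_
    have h2 : lb_MM_P 1 a z ((Equiv.funUnique (Fin 1) (Fin q × Fin q)).symm x) ↔
        (a.1 ≠ x.1 ∧ a.2 ≠ x.2) ∧ x.1 ≠ x.2 ∧ (x.1 ≠ z.1 ∧ x.2 ≠ z.2) := by
      have h3 : ∀ k, (Equiv.funUnique (Fin 1) (Fin q × Fin q)).symm x k = x := fun k => rfl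
      unfold lb_MM_P
      simp only [h3]
      constructor
      · rintro ⟨k1, k2, k3, k4⟩
        have k5 := k3 0 rfl
        have k6 := k4 0 rfl
        exact ⟨k5, k1 0, k6.1.symm, k6.2.symm⟩
      · rintro ⟨k1, k2, k3⟩
        refine ⟨fun _ => k2, fun k k' hk => ?_, fun _ _ => k1, fun _ _ => ⟨k3.1.symm, k3.2.symm⟩⟩
        have := k.2
        have := k'.2
        omega
    unfold mu om
    by_cases c1 : a.1 ≠ x.1 ∧ a.2 ≠ x.2
    · by_cases c2 : x.1 ≠ x.2
      · by_cases c3 : x.1 ≠ z.1 ∧ x.2 ≠ z.2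
        · rw [if_pos (h2.2 ⟨c1, c2, c3⟩), if_pos c1, if_pos c2, if_pos c3]
          norm_num
        · rw [if_neg fun h => c3 (h2.1 h).2.2, if_neg c3, mul_zero]
      · rw [if_neg fun h => c2 (h2.1 h).2.1, if_neg c2, mul_zero, zero_mul]
    · rw [if_neg fun h => c1 (h2.1 h).1, if_neg c1, zero_mul, zero_mul]
  | succ l ih =>
    have h1 : MM (om (q := q)) mu (l + 1 + 1) a z =
      ∑ x, MM (om (q := q)) mu (l + 1) a x * om x * mu x z := rfl
    rw [h1, ← Equiv.sum_comp (Fin.snocEquiv (fun _ : Fin (l + 1 + 1) => Fin q × Fin q)),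
      Fintype.sum_prod_type]
    refine Finset.sum_congr rfl fun x _ => ?_
    rw [← ih x, Finset.sum_mul, Finset.sum_mul]
    refine Finset.sum_congr rfl fun t _ => ?_
    have h2 := lb_MM_snoc a z x t
    have h3 : (Fin.snocEquiv (fun _ : Fin (l + 1 + 1) => Fin q × Fin q)) (x, t) =
      Fin.snoc (α := fun _ => Fin q × Fin q) t x := rfl
    rw [h3]
    unfold mu om
    by_cases c1 : lb_MM_P (l + 1) a x t
    · by_cases c2 : x.1 ≠ x.2
      · by_cases c3 : x.1 ≠ z.1 ∧ x.2 ≠ z.2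
        · rw [if_pos (h2.2 ⟨c1, c2, c3⟩), if_pos c1, if_pos c2, if_pos c3]
          norm_num
        · rw [if_neg fun h => c3 (h2.1 h).2.2, if_neg c3, mul_zero]
      · rw [if_neg fun h => c2 (h2.1 h).2.1, if_neg c2, mul_zero, zero_mul]
    · rw [if_neg fun h => c1 (h2.1 h).1, if_neg c1, zero_mul, zero_mul]

/-- TARGET. -/
theorem lb_MM (q l : ℕ) (h c c' : Fin q) :
    LB q (l + 1) h c c' = MM (om (q := q)) mu (l + 1) (c, h) (c', h) := by
  rw [← lb_MM_gen l (c, h) (c', h)]
  unfold LB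
  refine Finset.sum_congr rfl fun s _ => ?_
  exact if_congr Iff.rfl rfl rfl



/-- TARGET. -/
theorem abc_closed (z : ℂ) (n : ℕ) :
    2 * z * (z - 2) * ((abc z n).2.1 + 1) = F1 z n ∧
    2 * z * ((abc z n).2.1 + 1 + (z - 1) * ((abc z n).1 + (abc z n).2.1)) = F0 z n := by
  have key : ∀ n : ℕ, z * ((abc z n).2.1 - (abc z n).2.2) = (1 - z) ^ n - 1 ∧
      (z - 2) * ((abc z n).2.1 + (abc z n).2.2) = (3 - z) ^ n - 1 ∧
      z * (z - 1) * (abc z n).1 = (z ^ 2 - 3 * z + 3) ^ n - 1 -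
        2 * (z - 1) * ((abc z n).2.1 + (abc z n).2.2) := by
    intro n
    induction n with
    | zero => simp [abc]
    | succ n ih =>
      obtain ⟨h1, h2, h3⟩ := ih
      simp only [abc]
      refine ⟨?_, ?_, ?_⟩
      · rw [pow_succ]
        linear_combination (1 - z) * h1
      · rw [pow_succ]
        linear_combination (3 - z) * h2
      · rw [pow_succ]
        linear_combination (z ^ 2 - 3 * z + 3) * h3
  obtain ⟨h1, h2, h3⟩ := key n
  unfold F1 F0
  constructor
  · linear_combination (z - 2) * h1 + z * h2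
  · linear_combination 2 * h3 + z * h1 + (z - 2) * h2





/-- TARGET. -/
theorem lb_val (q N : ℕ) (hq : 3 ≤ q) (hN : 1 ≤ N) (h c c' : Fin q) (hc : c ≠ h) (hc' : c' ≠ h) :
    LB q N h c c' =
      (F1 (q : ℂ) (N + 1) / (2 * q * ((q : ℂ) - 2))) * (if c = c' then 1 else 0) +
      (((q : ℂ) - 2) * F0 (q : ℂ) (N + 1) - F1 (q : ℂ) (N + 1)) /
        (2 * q * ((q : ℂ) - 1) * ((q : ℂ) - 2)) := by
  obtain ⟨l, rfl⟩ : ∃ l, N = l + 1 := ⟨N - 1, by omega⟩
  have hz0 : (q : ℂ) ≠ 0 := by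
    have : q ≠ 0 := by omega
    exact_mod_cast this
  have hz1 : (q : ℂ) - 1 ≠ 0 := by
    rw [sub_ne_zero]
    have : q ≠ 1 := by omega
    exact_mod_cast this
  have hz2 : (q : ℂ) - 2 ≠ 0 := by
    rw [sub_ne_zero]
    have : q ≠ 2 := by omega
    exact_mod_cast this
  obtain ⟨h1, h2⟩ := abc_closed (q : ℂ) (l + 1 + 1)
  rw [lb_MM, kern (l + 1) (c, h) (c', h) hc hc', ← h1, ← h2]
  simp only [if_neg hc, if_neg (Ne.symm hc'), if_true]
  generalize (abc (q : ℂ) (l + 1 + 1)).1 = a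
  generalize (abc (q : ℂ) (l + 1 + 1)).2.1 = b
  generalize (if c = c' then (1 : ℂ) else 0) = δ
  field_simp
  ring


theorem ind_prod {ι : Type} [Fintype ι] (p : ι → Prop) [∀ i, Decidable (p i)]
    [Decidable (∀ i, p i)] :
    (∏ i, (if p i then (1 : ℂ) else 0)) = if (∀ i, p i) then 1 else 0 := by
  by_cases h : ∀ i, p i
  · rw [if_pos h]
    exact Finset.prod_eq_one (fun i _ => if_pos (h i))
  · rw [if_neg h]
    push Not at h
    obtain ⟨i, hi⟩ := h
    exact Finset.prod_eq_zero (Finset.mem_univ i) (if_neg hi)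

/-- the colouring built from its parts -/
def bld {L b N q : ℕ} (t : Fin q × (Fin (L + 1) → Fin q) × Fin q × (Fin b → Fin N → Fin q × Fin q)) :
    VR L b N → Fin q
  | Sum.inl i => t.2.1 i
  | Sum.inr (Sum.inl (i, k, false)) => (t.2.2.2 i k).1
  | Sum.inr (Sum.inl (i, k, true)) => (t.2.2.2 i k).2
  | Sum.inr (Sum.inr false) => t.1
  | Sum.inr (Sum.inr true) => t.2.2.1

/-- the parts of a colouring -/
def prt {L b N q : ℕ} (c : VR L b N → Fin q) :
    Fin q × (Fin (L + 1) → Fin q) × Fin q × (Fin b → Fin N → Fin q × Fin q) :=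
  (c (Sum.inr (Sum.inr false)), fun i => c (Sum.inl i), c (Sum.inr (Sum.inr true)),
    fun i k => (c (Sum.inr (Sum.inl (i, k, false))), c (Sum.inr (Sum.inl (i, k, true)))))

/-- the equivalence -/
def bij (L b N q : ℕ) :
    (Fin q × (Fin (L + 1) → Fin q) × Fin q × (Fin b → Fin N → Fin q × Fin q)) ≃
      (VR L b N → Fin q) where
  toFun := bld
  invFun := prt
  left_inv := fun t => rfl
  right_inv := fun c => by
    funext v
    rcases v with i | ⟨i, k, e⟩ | e
    · rfl
    · cases e <;> rfl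
    · cases e <;> rfl

theorem relR_ne {L b N : ℕ} (u v : VR L b N) (h : relR L b N u v) : u ≠ v := by
  rintro rfl
  rcases u with i | ⟨i, k, e⟩ | e
  · simp only [relR] at h
    omega
  · simp only [relR] at h
    obtain ⟨_, h | h⟩ := h
    · omega
    · rw [h.2.1] at h
      exact absurd h.2.2 (by decide)
  · cases e <;> simp [relR] at h

/-- the local condition -/
def QQ {q N : ℕ} (h c c' : Fin q) (s : Fin N → Fin q × Fin q) : Prop :=
  (∀ k, (s k).1 ≠ (s k).2) ∧
        (∀ k k' : Fin N, (k' : ℕ) = k + 1 → (s k).1 ≠ (s k').1 ∧ (s k).2 ≠ (s k').2) ∧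
        (∀ k : Fin N, (k : ℕ) = 0 → c ≠ (s k).1 ∧ h ≠ (s k).2) ∧
        (∀ k : Fin N, (k : ℕ) + 1 = N → c' ≠ (s k).1 ∧ h ≠ (s k).2)

theorem key (b m N q : ℕ) (h : Fin q) (g : Fin (b + m + 1) → Fin q) (w : Fin q)
    (s : Fin b → Fin N → Fin q × Fin q) :
    (∀ u v, (RG (b + m) b N).Adj u v → bij (b + m) b N q (h, g, w, s) u ≠
      bij (b + m) b N q (h, g, w, s) v) ↔
    ((h ≠ w ∧ (∀ i, h ≠ g i) ∧ w ≠ g 0 ∧ w ≠ g (Fin.last (b + m))) ∧
      (∀ j : Fin m, g (Fin.natAdd b j).castSucc ≠ g (Fin.natAdd b j).succ) ∧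
      ∀ i : Fin b, QQ h (g (Fin.castAdd m i).castSucc) (g (Fin.castAdd m i).succ) (s i)) := by
  have h0 : (∀ u v, (RG (b + m) b N).Adj u v → bij (b + m) b N q (h, g, w, s) u ≠
      bij (b + m) b N q (h, g, w, s) v) ↔
      ∀ u v, relR (b + m) b N u v → bij (b + m) b N q (h, g, w, s) u ≠
      bij (b + m) b N q (h, g, w, s) v := by
    constructor
    · intro H u v huv
      apply H u v
      rw [RG, SimpleGraph.fromRel_adj]
      exact ⟨relR_ne u v huv, Or.inl huv⟩
    · intro H u v huv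
      rw [RG, SimpleGraph.fromRel_adj] at huv
      rcases huv.2 with h1 | h1
      · exact H u v h1
      · exact (H v u h1).symm
  rw [h0]
  constructor
  · intro H
    refine ⟨⟨?_, ?_, ?_, ?_⟩, ?_, ?_⟩
    · exact H (Sum.inr (Sum.inr false)) (Sum.inr (Sum.inr true)) trivial
    · intro i
      exact H (Sum.inr (Sum.inr false)) (Sum.inl i) trivial
    · exact H (Sum.inr (Sum.inr true)) (Sum.inl 0) (Or.inl rfl)
    · exact H (Sum.inr (Sum.inr true)) (Sum.inl (Fin.last (b + m))) (Or.inr rfl)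
    · intro j
      exact H (Sum.inl (Fin.natAdd b j).castSucc) (Sum.inl (Fin.natAdd b j).succ)
        ⟨by simp, by simp⟩
    · intro i
      refine ⟨?_, ?_, ?_, ?_⟩
      · intro k
        exact H (Sum.inr (Sum.inl (i, k, false))) (Sum.inr (Sum.inl (i, k, true)))
          ⟨rfl, Or.inr ⟨rfl, rfl, rfl⟩⟩
      · intro k k' hk
        exact ⟨H (Sum.inr (Sum.inl (i, k, false))) (Sum.inr (Sum.inl (i, k', false)))
          ⟨rfl, Or.inl ⟨rfl, hk⟩⟩, H (Sum.inr (Sum.inl (i, k, true)))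
          (Sum.inr (Sum.inl (i, k', true))) ⟨rfl, Or.inl ⟨rfl, hk⟩⟩⟩
      · intro k hk
        exact ⟨H (Sum.inl (Fin.castAdd m i).castSucc) (Sum.inr (Sum.inl (i, k, false)))
          ⟨rfl, Or.inl ⟨by simp, hk⟩⟩, H (Sum.inr (Sum.inr false))
          (Sum.inr (Sum.inl (i, k, true))) ⟨rfl, Or.inl hk⟩⟩
      · intro k hk
        exact ⟨H (Sum.inl (Fin.castAdd m i).succ) (Sum.inr (Sum.inl (i, k, false)))
          ⟨rfl, Or.inr ⟨by simp, hk⟩⟩, H (Sum.inr (Sum.inr false))
          (Sum.inr (Sum.inl (i, k, true))) ⟨rfl, Or.inr hk⟩⟩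
  · rintro ⟨⟨a1, a2, a3, a4⟩, hB, hQ⟩ u v huv
    rcases u with i | ⟨i, k, e⟩ | e
    · rcases v with j | ⟨j, l, e'⟩ | e'
      · obtain ⟨h1, h2⟩ := huv
        have hj := j.isLt
        have e1 : i = (Fin.natAdd b (⟨(i : ℕ) - b, by omega⟩ : Fin m)).castSucc := by
          apply Fin.ext; simp; omega
        have e2 : j = (Fin.natAdd b (⟨(i : ℕ) - b, by omega⟩ : Fin m)).succ := by
          apply Fin.ext; simp; omega
        show g i ≠ g j
        have h3 := congrArg g e1
        have h4 := congrArg g e2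
        intro hcon
        exact hB _ (h3.symm.trans (hcon.trans h4))
      · obtain ⟨rfl, h1 | h1⟩ := huv
        · have e1 : i = (Fin.castAdd m j).castSucc := by
            apply Fin.ext; simp; omega
          show g i ≠ (s j l).1
          rw [e1]
          exact ((hQ j).2.2.1 l h1.2).1
        · have e1 : i = (Fin.castAdd m j).succ := by
            apply Fin.ext; simp; omega
          show g i ≠ (s j l).1
          rw [e1]
          exact ((hQ j).2.2.2 l h1.2).1
      · exact absurd huv (by cases e' <;> simp [relR])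
    · rcases v with j | ⟨j, l, e'⟩ | e'
      · exact absurd huv (by simp [relR])
      · obtain ⟨rfl, h1 | h1⟩ := huv
        · obtain ⟨rfl, h2⟩ := h1
          cases e
          · exact ((hQ i).2.1 k l h2).1
          · exact ((hQ i).2.1 k l h2).2
        · obtain ⟨rfl, rfl, rfl⟩ := h1
          exact (hQ i).1 k
      · exact absurd huv (by cases e' <;> simp [relR])
    · cases e
      · rcases v with j | ⟨j, l, e'⟩ | e'
        · exact a2 j
        · obtain ⟨rfl, h1 | h1⟩ := huv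
          · exact ((hQ j).2.2.1 l h1).2
          · exact ((hQ j).2.2.2 l h1).2
        · cases e'
          · exact absurd huv (by simp [relR])
          · exact a1
      · rcases v with j | ⟨j, l, e'⟩ | e'
        · rcases huv with h1 | h1
          · have e1 : j = 0 := Fin.ext h1
            rw [e1]
            exact a3
          · have e1 : j = Fin.last (b + m) := Fin.ext h1
            rw [e1]
            exact a4
        · exact absurd huv (by simp [relR])
        · exact absurd huv (by cases e' <;> simp [relR])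

/-- TARGET. -/
theorem ring_fact (L b N q : ℕ) (hb : b ≤ L) (hN : 1 ≤ N) :
    cnt (RG L b N) q = ∑ h : Fin q, ∑ g : Fin (L + 1) → Fin q, ∑ w : Fin q,
      if (h ≠ w ∧ (∀ i, h ≠ g i) ∧ w ≠ g 0 ∧ w ≠ g (Fin.last L)) then
        ∏ i : Fin L, (if (i : ℕ) < b then LB q N h (g i.castSucc) (g i.succ)
          else if g i.castSucc ≠ g i.succ then 1 else 0)
      else 0 := by
  obtain ⟨m, rfl⟩ := Nat.exists_eq_add_of_le hb
  unfold cnt
  have hS := (bij (b + m) b N q).sum_comp
    (fun c => if (∀ u v, (RG (b + m) b N).Adj u v → c u ≠ c v) then (1 : ℂ) else 0)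
  refine Eq.trans ?_ (hS.symm.trans ?_)
  · refine Finset.sum_congr (by ext x; simp) (fun c _ => ?_)
    by_cases hc : (∀ u v, (RG (b + m) b N).Adj u v → c u ≠ c v)
    · simp only [if_pos hc]
    · simp only [if_neg hc]
  rw [Fintype.sum_prod_type]
  refine Finset.sum_congr rfl (fun h _ => ?_)
  rw [Fintype.sum_prod_type]
  refine Finset.sum_congr rfl (fun g _ => ?_)
  rw [Fintype.sum_prod_type]
  refine Finset.sum_congr rfl (fun w _ => ?_)
  have hkey := key b m N q h g w
  by_cases hA : (h ≠ w ∧ (∀ i, h ≠ g i) ∧ w ≠ g 0 ∧ w ≠ g (Fin.last (b + m)))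
  · rw [if_pos hA, Fin.prod_univ_add]
    have e2 : ∀ i : Fin b, (if ((Fin.castAdd m i : Fin (b + m)) : ℕ) < b then
        LB q N h (g (Fin.castAdd m i).castSucc) (g (Fin.castAdd m i).succ)
          else if g (Fin.castAdd m i).castSucc ≠ g (Fin.castAdd m i).succ then 1 else 0) =
        LB q N h (g (Fin.castAdd m i).castSucc) (g (Fin.castAdd m i).succ) :=
      fun i => if_pos (by simp)
    have e1 : ∀ j : Fin m, (if ((Fin.natAdd b j : Fin (b + m)) : ℕ) < b then
        LB q N h (g (Fin.natAdd b j).castSucc) (g (Fin.natAdd b j).succ)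
          else if g (Fin.natAdd b j).castSucc ≠ g (Fin.natAdd b j).succ then 1 else 0) =
        if g (Fin.natAdd b j).castSucc ≠ g (Fin.natAdd b j).succ then (1 : ℂ) else 0 :=
      fun j => if_neg (by simp)
    rw [Finset.prod_congr rfl (fun i _ => e2 i), Finset.prod_congr rfl (fun j _ => e1 j)]
    rw [ind_prod (fun j : Fin m => g (Fin.natAdd b j).castSucc ≠ g (Fin.natAdd b j).succ)]
    by_cases hB : ∀ j : Fin m, g (Fin.natAdd b j).castSucc ≠ g (Fin.natAdd b j).succ
    · rw [if_pos hB, mul_one]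
      unfold LB
      rw [Finset.prod_univ_sum, Fintype.piFinset_univ]
      refine Finset.sum_congr rfl (fun s _ => ?_)
      rw [ind_prod]
      by_cases hQ : ∀ i : Fin b,
          QQ h (g (Fin.castAdd m i).castSucc) (g (Fin.castAdd m i).succ) (s i)
      · rw [if_pos ((hkey s).mpr ⟨hA, hB, hQ⟩)]
        exact (if_pos hQ).symm
      · rw [if_neg (fun hh => hQ ((hkey s).mp hh).2.2)]
        exact (if_neg hQ).symm
    · rw [if_neg hB, mul_zero]
      exact Finset.sum_eq_zero (fun s _ => if_neg (fun hh => hB ((hkey s).mp hh).2.1))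
  · rw [if_neg hA]
    exact Finset.sum_eq_zero (fun s _ => if_neg (fun hh => hA ((hkey s).mp hh).1))


theorem kern705 {S : Type} [Fintype S] (L : ℕ) : ∀ (α β : Fin L → ℂ) (φ ψ : S → ℂ),
    (Fintype.card S : ℂ) * (∑ g : Fin (L + 1) → S, φ (g 0) *
        (∏ i : Fin L, (α i * (if g i.castSucc = g i.succ then 1 else 0) + β i)) *
          ψ (g (Fin.last L))) =
      (Fintype.card S : ℂ) * (∏ i, α i) * (∑ x, φ x * ψ x) +
        ((∏ i, (α i + (Fintype.card S : ℂ) * β i)) - ∏ i, α i) * ((∑ x, φ x) * (∑ x, ψ x)) := by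
  induction L with
  | zero =>
    intro α β φ ψ
    have h := Equiv.sum_comp (Equiv.funUnique (Fin 1) S).symm
      (fun g : Fin 1 → S => φ (g 0) *
        (∏ i : Fin 0, (α i * (if g i.castSucc = g i.succ then 1 else 0) + β i)) *
          ψ (g (Fin.last 0)))
    rw [← h]
    simp
  | succ L ih =>
    intro α β φ ψ
    have h := Equiv.sum_comp (Fin.consEquiv (fun _ : Fin (L + 2) => S))
      (fun g : Fin (L + 2) → S => φ (g 0) *
        (∏ i : Fin (L + 1), (α i * (if g i.castSucc = g i.succ then 1 else 0) + β i)) *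
          ψ (g (Fin.last (L + 1))))
    rw [← h, Fintype.sum_prod_type, Finset.sum_comm]
    have h2 : ∀ g' : Fin (L + 1) → S,
        (∑ y : S, φ ((Fin.consEquiv (fun _ : Fin (L + 2) => S)) (y, g') 0) *
        (∏ i : Fin (L + 1), (α i * (if (Fin.consEquiv (fun _ : Fin (L + 2) => S)) (y, g') i.castSucc
          = (Fin.consEquiv (fun _ : Fin (L + 2) => S)) (y, g') i.succ then 1 else 0) + β i)) *
          ψ ((Fin.consEquiv (fun _ : Fin (L + 2) => S)) (y, g') (Fin.last (L + 1)))) =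
        (fun x => α 0 * φ x + β 0 * ∑ y, φ y) (g' 0) *
        (∏ i : Fin L, (α i.succ * (if g' i.castSucc = g' i.succ then 1 else 0) + β i.succ)) *
          ψ (g' (Fin.last L)) := by
      intro g'
      have h3 : ∀ y : S, φ ((Fin.consEquiv (fun _ : Fin (L + 2) => S)) (y, g') 0) *
        (∏ i : Fin (L + 1), (α i * (if (Fin.consEquiv (fun _ : Fin (L + 2) => S)) (y, g') i.castSucc
          = (Fin.consEquiv (fun _ : Fin (L + 2) => S)) (y, g') i.succ then 1 else 0) + β i)) *
          ψ ((Fin.consEquiv (fun _ : Fin (L + 2) => S)) (y, g') (Fin.last (L + 1))) =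
          (φ y * (α 0 * (if y = g' 0 then 1 else 0) + β 0)) *
        ((∏ i : Fin L, (α i.succ * (if g' i.castSucc = g' i.succ then 1 else 0) + β i.succ)) *
          ψ (g' (Fin.last L))) := by
        intro y
        rw [Fin.prod_univ_succ]
        have e0 : (Fin.consEquiv (fun _ : Fin (L + 2) => S)) (y, g') 0 = y := rfl
        have es : ∀ j : Fin (L + 1),
            (Fin.consEquiv (fun _ : Fin (L + 2) => S)) (y, g') j.succ = g' j := fun j => rfl
        have ec : (Fin.consEquiv (fun _ : Fin (L + 2) => S)) (y, g') (Fin.castSucc 0) = y := rfl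
        have ecs : ∀ j : Fin L,
            (Fin.consEquiv (fun _ : Fin (L + 2) => S)) (y, g') (Fin.castSucc j.succ)
              = g' j.castSucc := fun j => rfl
        have el : (Fin.consEquiv (fun _ : Fin (L + 2) => S)) (y, g') (Fin.last (L + 1))
              = g' (Fin.last L) := rfl
        rw [e0, ec, el]
        simp only [es, ecs]
        ring
      rw [Finset.sum_congr rfl (fun y _ => h3 y), ← Finset.sum_mul]
      have h4 : ∑ y : S, φ y * (α 0 * (if y = g' 0 then 1 else 0) + β 0) =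
          α 0 * φ (g' 0) + β 0 * ∑ y, φ y := by
        have : ∀ y : S, φ y * (α 0 * (if y = g' 0 then 1 else 0) + β 0) =
            (if y = g' 0 then α 0 * φ y else 0) + β 0 * φ y := by
          intro y
          split_ifs <;> ring
        rw [Finset.sum_congr rfl (fun y _ => this y), Finset.sum_add_distrib, ← Finset.mul_sum]
        simp
      rw [h4]
      ring
    rw [Finset.sum_congr rfl (fun g' _ => h2 g')]
    rw [ih (fun i => α i.succ) (fun i => β i.succ) (fun x => α 0 * φ x + β 0 * ∑ y, φ y) ψ]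
    have h5 : ∑ x, (α 0 * φ x + β 0 * ∑ y, φ y) * ψ x =
        α 0 * (∑ x, φ x * ψ x) + β 0 * ((∑ x, φ x) * (∑ x, ψ x)) := by
      generalize (∑ y, φ y) = T
      calc ∑ x, (α 0 * φ x + β 0 * T) * ψ x
          = ∑ x, (α 0 * (φ x * ψ x) + β 0 * T * ψ x) := by
            apply Finset.sum_congr rfl
            intro x _
            ring
        _ = α 0 * (∑ x, φ x * ψ x) + β 0 * (T * (∑ x, ψ x)) := by
            rw [Finset.sum_add_distrib, ← Finset.mul_sum, ← Finset.mul_sum]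
            ring
    have h6 : ∑ x, (α 0 * φ x + β 0 * ∑ y, φ y) =
        (α 0 + (Fintype.card S : ℂ) * β 0) * ∑ x, φ x := by
      rw [Finset.sum_add_distrib, ← Finset.mul_sum, Finset.sum_const, Finset.card_univ, nsmul_eq_mul]
      ring
    simp only [h5, h6]
    rw [Fin.prod_univ_succ, Fin.prod_univ_succ]
    ring

/-- TARGET. -/
theorem cyc {S : Type} [Fintype S] (L : ℕ) (α β : Fin L → ℂ) :
    (∑ g : Fin (L + 1) → S, ∑ w : S, if (w ≠ g 0 ∧ w ≠ g (Fin.last L)) then
        ∏ i : Fin L, (α i * (if g i.castSucc = g i.succ then 1 else 0) + β i) else 0) =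
      ((Fintype.card S : ℂ) - 1) ^ 2 * (∏ i, (α i + (Fintype.card S : ℂ) * β i)) * (1 : ℂ) +
        ((Fintype.card S : ℂ) - 1) * ∏ i, α i := by
  rcases isEmpty_or_nonempty S with hS | hS
  · have hc : (Fintype.card S : ℂ) = 0 := by
      rw [Fintype.card_eq_zero]; simp
    rw [hc]
    have hE : IsEmpty (Fin (L + 1) → S) := ⟨fun g => hS.false (g 0)⟩
    rw [Fintype.sum_empty]
    simp
  · have hm : (Fintype.card S : ℂ) ≠ 0 := by
      exact_mod_cast Fintype.card_ne_zero
    rw [Finset.sum_comm]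
    have hw : ∀ w : S, (Fintype.card S : ℂ) *
        (∑ g : Fin (L + 1) → S, if (w ≠ g 0 ∧ w ≠ g (Fin.last L)) then
        ∏ i : Fin L, (α i * (if g i.castSucc = g i.succ then 1 else 0) + β i) else 0) =
        (Fintype.card S : ℂ) * (∏ i, α i) * ((Fintype.card S : ℂ) - 1) +
        ((∏ i, (α i + (Fintype.card S : ℂ) * β i)) - ∏ i, α i) *
          (((Fintype.card S : ℂ) - 1) * ((Fintype.card S : ℂ) - 1)) := by
      intro w
      have hk := kern705 L α β (fun x : S => if w ≠ x then (1 : ℂ) else 0)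
        (fun x : S => if w ≠ x then (1 : ℂ) else 0)
      have h1 : ∑ x : S, (if w ≠ x then (1 : ℂ) else 0) = (Fintype.card S : ℂ) - 1 := by
        have : ∀ x : S, (if w ≠ x then (1 : ℂ) else 0) = 1 - (if w = x then 1 else 0) := by
          intro x
          split_ifs <;> simp_all
        rw [Finset.sum_congr rfl (fun x _ => this x), Finset.sum_sub_distrib]
        simp
      have h2 : ∑ x : S, (if w ≠ x then (1 : ℂ) else 0) * (if w ≠ x then (1 : ℂ) else 0) =
          (Fintype.card S : ℂ) - 1 := by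
        rw [← h1]
        apply Finset.sum_congr rfl
        intro x _
        split_ifs <;> simp
      simp only [h1, h2] at hk
      rw [← hk]
      congr 1
      apply Finset.sum_congr rfl
      intro g _
      by_cases ha : w ≠ g 0 <;> by_cases hb : w ≠ g (Fin.last L)
      · rw [if_pos ⟨ha, hb⟩, if_pos ha, if_pos hb]; ring
      · rw [if_neg (fun h => hb h.2), if_neg hb]; ring
      · rw [if_neg (fun h => ha h.1), if_neg ha]; ring
      · rw [if_neg (fun h => ha h.1), if_neg ha]; ring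
    apply mul_left_cancel₀ hm
    rw [Finset.mul_sum, Finset.sum_congr rfl (fun w _ => hw w), Finset.sum_const,
      Finset.card_univ, nsmul_eq_mul]
    ring





theorem rc_prod (b m : ℕ) (x y : ℂ) :
    ∏ i : Fin (b + m), (if (i : ℕ) < b then x else y) = x ^ b * y ^ m := by
  rw [Fin.prod_univ_eq_prod_range (fun i : ℕ => if i < b then x else y) (b + m),
    Finset.prod_range_add]
  congr 1
  · rw [← Finset.card_range b, ← Finset.prod_const, Finset.card_range]
    apply Finset.prod_congr rfl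
    intro i hi
    rw [if_pos (Finset.mem_range.mp hi)]
  · have h1 : ∏ i ∈ Finset.range m, (if b + i < b then x else y) = ∏ i ∈ Finset.range m, y := by
      apply Finset.prod_congr rfl
      intro i _
      rw [if_neg (by omega)]
    rw [h1, Finset.prod_const, Finset.card_range]

theorem rc_h (L b N q : ℕ) (hq : 3 ≤ q) (hN : 1 ≤ N) (h : Fin q) (A0 B0 : ℂ)
    (hA0 : A0 = F1 (q : ℂ) (N + 1) / (2 * q * ((q : ℂ) - 2)))
    (hB0 : B0 = (((q : ℂ) - 2) * F0 (q : ℂ) (N + 1) - F1 (q : ℂ) (N + 1)) /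
        (2 * q * ((q : ℂ) - 1) * ((q : ℂ) - 2))) :
    (∑ g : Fin (L + 1) → Fin q, ∑ w : Fin q,
      if (h ≠ w ∧ (∀ i, h ≠ g i) ∧ w ≠ g 0 ∧ w ≠ g (Fin.last L)) then
        ∏ i : Fin L, (if (i : ℕ) < b then LB q N h (g i.castSucc) (g i.succ)
          else if g i.castSucc ≠ g i.succ then 1 else 0)
      else 0) =
      ((q : ℂ) - 2) ^ 2 * (∏ i : Fin L, (if (i : ℕ) < b then (A0 + ((q : ℂ) - 1) * B0)
        else ((q : ℂ) - 2))) +
      ((q : ℂ) - 2) * ∏ i : Fin L, (if (i : ℕ) < b then A0 else (-1 : ℂ)) := by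
  have hcard : (Fintype.card {c : Fin q // c ≠ h} : ℂ) = (q : ℂ) - 1 := by
    have h1 : Fintype.card {c : Fin q // c ≠ h} = q - 1 := by simp
    rw [h1, Nat.cast_sub (by omega), Nat.cast_one]
  have hc := cyc (S := {c : Fin q // c ≠ h}) L (fun i => if (i : ℕ) < b then A0 else (-1 : ℂ))
    (fun i => if (i : ℕ) < b then B0 else (1 : ℂ))
  rw [hcard] at hc
  have e1 : ((q : ℂ) - 1 - 1) = (q : ℂ) - 2 := by ring
  have e2 : ∏ i : Fin L, ((if (i : ℕ) < b then A0 else (-1 : ℂ)) +
      ((q : ℂ) - 1) * (if (i : ℕ) < b then B0 else (1 : ℂ))) =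
      ∏ i : Fin L, (if (i : ℕ) < b then (A0 + ((q : ℂ) - 1) * B0) else ((q : ℂ) - 2)) := by
    apply Finset.prod_congr rfl
    intro i _
    by_cases hi : (i : ℕ) < b
    · rw [if_pos hi, if_pos hi, if_pos hi]
    · rw [if_neg hi, if_neg hi, if_neg hi]
      ring
  rw [e1, e2, mul_one] at hc
  rw [← hc]
  obtain ⟨e, he⟩ : ∃ e : (Fin (L + 1) → {c : Fin q // c ≠ h}) → (Fin (L + 1) → Fin q),
      ∀ g i, e g i = (g i).1 := ⟨fun g i => (g i).1, fun g i => rfl⟩
  have heinj : Function.Injective e := by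
    intro g g' hgg
    funext i
    apply Subtype.ext
    rw [← he g i, ← he g' i, hgg]
  symm
  refine Fintype.sum_of_injective e heinj _ _ ?_ ?_
  · intro g hg
    apply Finset.sum_eq_zero
    intro w _
    rw [if_neg]
    rintro ⟨_, h2, _⟩
    apply hg
    refine ⟨fun i => ⟨g i, fun h3 => h2 i h3.symm⟩, ?_⟩
    funext i
    rw [he]
  · intro g
    refine Fintype.sum_of_injective (fun w : {c : Fin q // c ≠ h} => w.1)
      Subtype.val_injective _ _ ?_ ?_
    · intro w hw
      rw [if_neg]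
      rintro ⟨h1, _⟩
      apply hw
      exact ⟨⟨w, fun h3 => h1 h3.symm⟩, rfl⟩
    · intro w
      by_cases hcond : w ≠ g 0 ∧ w ≠ g (Fin.last L)
      · rw [if_pos hcond, if_pos]
        · apply Finset.prod_congr rfl
          intro i _
          rw [he, he]
          by_cases hi : (i : ℕ) < b
          · rw [if_pos hi, if_pos hi, if_pos hi, lb_val q N hq hN h _ _ (g i.castSucc).2
              (g i.succ).2, ← hA0, ← hB0]
            by_cases hgi : g i.castSucc = g i.succ
            · rw [if_pos hgi, if_pos (congrArg Subtype.val hgi)]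
            · rw [if_neg hgi, if_neg (fun h3 => hgi (Subtype.ext h3))]
          · rw [if_neg hi, if_neg hi, if_neg hi]
            by_cases hgi : g i.castSucc = g i.succ
            · rw [if_pos hgi, if_neg (fun h3 => h3 (congrArg Subtype.val hgi))]
              ring
            · rw [if_neg hgi, if_pos (fun h3 => hgi (Subtype.ext h3))]
              ring
        · refine ⟨fun h3 => w.2 h3.symm, fun i h3 => (g i).2 ?_, fun h3 => hcond.1 ?_,
            fun h3 => hcond.2 ?_⟩
          · exact (h3.trans (he g i)).symm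
          · apply Subtype.ext
            rw [h3, he]
          · apply Subtype.ext
            rw [h3, he]
      · rw [if_neg hcond, if_neg]
        rintro ⟨_, _, h3, h4⟩
        apply hcond
        refine ⟨fun h5 => h3 ?_, fun h5 => h4 ?_⟩
        · rw [he, h5]
        · rw [he, h5]

/-- TARGET. -/
theorem ring_count (L b N q : ℕ) (hb : b ≤ L) (hN : 1 ≤ N) (hq : 3 ≤ q) :
    (2 * (q : ℂ) * ((q : ℂ) - 2)) ^ b * cnt (RG L b N) q =
      (q : ℂ) * ((q : ℂ) - 2) * (((q : ℂ) - 2) ^ (L + 1) * F0 (q : ℂ) (N + 1) ^ b +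
        (-1) ^ (L + b) * F1 (q : ℂ) (N + 1) ^ b) := by
  obtain ⟨m, rfl⟩ : ∃ m, L = b + m := ⟨L - b, by omega⟩
  have hq0 : (q : ℂ) ≠ 0 := by
    have : q ≠ 0 := by omega
    exact_mod_cast this
  have hq1 : (q : ℂ) - 1 ≠ 0 := by
    intro h
    have h1 : (q : ℂ) = ((1 : ℕ) : ℂ) := by
      rw [Nat.cast_one]
      exact sub_eq_zero.mp h
    have h2 : q = 1 := by exact_mod_cast h1
    omega
  have hq2 : (q : ℂ) - 2 ≠ 0 := by
    intro h
    have h1 : (q : ℂ) = ((2 : ℕ) : ℂ) := by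
      push_cast
      exact sub_eq_zero.mp h
    have h2 : q = 2 := by exact_mod_cast h1
    omega
  obtain ⟨f0, hf0⟩ : ∃ f0 : ℂ, f0 = F0 (q : ℂ) (N + 1) := ⟨_, rfl⟩
  obtain ⟨f1, hf1⟩ : ∃ f1 : ℂ, f1 = F1 (q : ℂ) (N + 1) := ⟨_, rfl⟩
  rw [ring_fact (b + m) b N q hb hN]
  rw [Finset.sum_congr rfl (fun h _ => rc_h (b + m) b N q hq hN h _ _ rfl rfl)]
  rw [Finset.sum_const, Finset.card_univ, Fintype.card_fin, nsmul_eq_mul, rc_prod, rc_prod,
    ← hf0, ← hf1]
  have e1 : f1 / (2 * q * ((q : ℂ) - 2)) + ((q : ℂ) - 1) * ((((q : ℂ) - 2) * f0 - f1) /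
      (2 * q * ((q : ℂ) - 1) * ((q : ℂ) - 2))) = f0 / (2 * q) := by
    field_simp
    ring
  rw [e1]
  have e2 : (2 * (q : ℂ) * ((q : ℂ) - 2)) ^ b * (f0 / (2 * q)) ^ b =
      ((q : ℂ) - 2) ^ b * f0 ^ b := by
    rw [← mul_pow, ← mul_pow]
    congr 1
    field_simp
  have e3 : (2 * (q : ℂ) * ((q : ℂ) - 2)) ^ b * (f1 / (2 * q * ((q : ℂ) - 2))) ^ b = f1 ^ b := by
    rw [← mul_pow]
    congr 1
    field_simp
  have e4 : (-1 : ℂ) ^ (b + m + b) = (-1) ^ m := by
    have : b + m + b = 2 * b + m := by ring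
    rw [this, pow_add, pow_mul]
    norm_num
  rw [e4]
  calc (2 * (q : ℂ) * ((q : ℂ) - 2)) ^ b * ((q : ℂ) * (((q : ℂ) - 2) ^ 2 * ((f0 / (2 * q)) ^ b *
        ((q : ℂ) - 2) ^ m) + ((q : ℂ) - 2) * ((f1 / (2 * q * ((q : ℂ) - 2))) ^ b * (-1) ^ m)))
      = (q : ℂ) * (((q : ℂ) - 2) ^ 2 * ((2 * (q : ℂ) * ((q : ℂ) - 2)) ^ b * (f0 / (2 * q)) ^ b) *
        ((q : ℂ) - 2) ^ m + ((q : ℂ) - 2) * ((2 * (q : ℂ) * ((q : ℂ) - 2)) ^ b *
          (f1 / (2 * q * ((q : ℂ) - 2))) ^ b) * (-1) ^ m) := by ring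
    _ = (q : ℂ) * ((q : ℂ) - 2) * (((q : ℂ) - 2) ^ (b + m + 1) * f0 ^ b + (-1) ^ m * f1 ^ b) := by
        rw [e2, e3]
        ring




theorem whit_poly {V : Type} [Fintype V] (G : SimpleGraph V) :
    ∃ W : Polynomial ℂ, ∀ z, W.eval z = whit G z := by
  refine ⟨∑ S ∈ G.edgeFinset.powerset,
    Polynomial.C ((-1 : ℂ) ^ S.card) *
      Polynomial.X ^ Nat.card (SimpleGraph.fromEdgeSet (↑S : Set (Sym2 V))).ConnectedComponent, fun z => ?_⟩
  rw [Polynomial.eval_finset_sum]
  unfold whit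
  apply Finset.sum_congr rfl
  intro S _
  rw [Polynomial.eval_mul, Polynomial.eval_C, Polynomial.eval_pow, Polynomial.eval_X]

theorem F0_poly (n : ℕ) : ∃ W : Polynomial ℂ, ∀ z, W.eval z = F0 z n := by
  refine ⟨2 * (Polynomial.X ^ 2 - 3 * Polynomial.X + 3) ^ n + Polynomial.X * (1 - Polynomial.X) ^ n
    + (Polynomial.X - 2) * (3 - Polynomial.X) ^ n, fun z => ?_⟩
  simp [F0]

theorem F1_poly (n : ℕ) : ∃ W : Polynomial ℂ, ∀ z, W.eval z = F1 z n := by
  refine ⟨(Polynomial.X - 2) * (1 - Polynomial.X) ^ n + Polynomial.X * (3 - Polynomial.X) ^ n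
    + 2 * (Polynomial.X ^ 2 - 3 * Polynomial.X + 1), fun z => ?_⟩
  simp [F1]

/-- TARGET. -/
theorem ring_root (L b N : ℕ) (hb : b ≤ L) (hN : 1 ≤ N) (z : ℂ) (hz0 : z ≠ 0) (hz2 : z ≠ 2)
    (h : (z - 2) ^ (L + 1) * F0 z (N + 1) ^ b + (-1) ^ (L + b) * F1 z (N + 1) ^ b = 0) :
    whit (RG L b N) z = 0 := by
  obtain ⟨W, hW⟩ := whit_poly (RG L b N)
  obtain ⟨W0, hW0⟩ := F0_poly (N + 1)
  obtain ⟨W1, hW1⟩ := F1_poly (N + 1)
  let P : Polynomial ℂ := (2 * Polynomial.X * (Polynomial.X - 2)) ^ b * W -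
    Polynomial.X * (Polynomial.X - 2) * ((Polynomial.X - 2) ^ (L + 1) * W0 ^ b + (-1) ^ (L + b) * W1 ^ b)
  have hP : ∀ z, P.eval z = (2 * z * (z - 2)) ^ b * whit (RG L b N) z -
      z * (z - 2) * ((z - 2) ^ (L + 1) * F0 z (N + 1) ^ b + (-1) ^ (L + b) * F1 z (N + 1) ^ b) := by
    intro z
    simp [P, hW, hW0, hW1]
  have hP0 : P = 0 := by
    apply Polynomial.eq_zero_of_infinite_isRoot
    apply Set.infinite_of_injective_forall_mem (f := fun n : ℕ => ((n + 3 : ℕ) : ℂ))
    · intro a c hac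
      have hac' : ((a + 3 : ℕ) : ℂ) = ((c + 3 : ℕ) : ℂ) := hac
      have : a + 3 = c + 3 := by exact_mod_cast hac'
      omega
    · intro n
      show P.eval ((n + 3 : ℕ) : ℂ) = 0
      rw [hP, whit_nat]
      have := ring_count L b N (n + 3) hb hN (by omega)
      rw [this]
      ring
  have h1 := hP z
  rw [hP0, h, Polynomial.eval_zero, mul_zero, sub_zero] at h1
  have h2 : (2 * z * (z - 2)) ^ b ≠ 0 := by
    apply pow_ne_zero
    apply mul_ne_zero (mul_ne_zero two_ne_zero hz0)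
    exact sub_ne_zero.2 hz2
  rcases mul_eq_zero.1 h1.symm with h3 | h3
  · exact absurd h3 h2
  · exact h3


end Pool.Agent.Helper759.Chrom.Ring
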