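import Mathlib
import Pool.Agent.Helper759.ChromDefs
import Pool.Agent.Helper759.ChromA
import Pool.Agent.Helper759.RingDefs
set_option autoImplicit false
open Classical Filter Topology

namespace Pool.Agent.Helper759.Chrom.Ring
section RgTriAux

variable {L b N : ℕ}

/-- ladder vertex -/
abbrev rtLad (L : ℕ) {b N : ℕ} (i : Fin b) (k : Fin N) (e : Bool) : VR L b N :=
  Sum.inr (Sum.inl (i, k, e))
/-- ring vertex -/
abbrev rtRing {L : ℕ} (b N : ℕ) (i : Fin (L + 1)) : VR L b N := Sum.inl i
/-- hub -/
abbrev rtHub (L b N : ℕ) : VR L b N := Sum.inr (Sum.inr false)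
/-- extra vertex -/
abbrev rtExt (L b N : ℕ) : VR L b N := Sum.inr (Sum.inr true)

theorem rt_adj_ring (i j : Fin (L + 1)) (h1 : b ≤ (i : ℕ)) (h2 : (j : ℕ) = i + 1) :
    (RG L b N).Adj (rtRing b N i) (rtRing b N j) := by
  rw [RG, SimpleGraph.fromRel_adj]
  refine ⟨?_, Or.inl ⟨h1, h2⟩⟩
  intro h
  have : i = j := Sum.inl.inj h
  rw [this] at h2
  omega

theorem rt_adj_up0 (j : Fin (L + 1)) (i : Fin b) (k : Fin N) (h1 : (j : ℕ) = i) (h2 : (k : ℕ) = 0) :
    (RG L b N).Adj (rtRing b N j) (rtLad L i k false) := by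
  rw [RG, SimpleGraph.fromRel_adj]
  exact ⟨by simp, Or.inl ⟨rfl, Or.inl ⟨h1, h2⟩⟩⟩

theorem rt_adj_upN (j : Fin (L + 1)) (i : Fin b) (k : Fin N) (h1 : (j : ℕ) = i + 1)
    (h2 : (k : ℕ) + 1 = N) :
    (RG L b N).Adj (rtRing b N j) (rtLad L i k false) := by
  rw [RG, SimpleGraph.fromRel_adj]
  exact ⟨by simp, Or.inl ⟨rfl, Or.inr ⟨h1, h2⟩⟩⟩

theorem rt_adj_side (i : Fin b) (k k' : Fin N) (e : Bool) (h : (k' : ℕ) = k + 1) :
    (RG L b N).Adj (rtLad L i k e) (rtLad L i k' e) := by
  rw [RG, SimpleGraph.fromRel_adj]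
  refine ⟨?_, Or.inl ⟨rfl, Or.inl ⟨rfl, h⟩⟩⟩
  intro h'
  have : k = k' := by simpa using h'
  rw [this] at h
  omega

theorem rt_adj_rung (i : Fin b) (k : Fin N) :
    (RG L b N).Adj (rtLad L i k false) (rtLad L i k true) := by
  rw [RG, SimpleGraph.fromRel_adj]
  exact ⟨by simp, Or.inl ⟨rfl, Or.inr ⟨rfl, rfl, rfl⟩⟩⟩

theorem rt_adj_hub_ring (j : Fin (L + 1)) : (RG L b N).Adj (rtHub L b N) (rtRing b N j) := by
  rw [RG, SimpleGraph.fromRel_adj]
  exact ⟨by simp, Or.inl trivial⟩

theorem rt_adj_hub_low (i : Fin b) (k : Fin N) (h : (k : ℕ) = 0 ∨ (k : ℕ) + 1 = N) :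
    (RG L b N).Adj (rtHub L b N) (rtLad L i k true) := by
  rw [RG, SimpleGraph.fromRel_adj]
  exact ⟨by simp, Or.inl ⟨rfl, h⟩⟩

theorem rt_adj_hub_ext : (RG L b N).Adj (rtHub L b N) (rtExt L b N) := by
  rw [RG, SimpleGraph.fromRel_adj]
  exact ⟨by simp, Or.inl trivial⟩

theorem rt_adj_ext (j : Fin (L + 1)) (h : (j : ℕ) = 0 ∨ (j : ℕ) = L) :
    (RG L b N).Adj (rtExt L b N) (rtRing b N j) := by
  rw [RG, SimpleGraph.fromRel_adj]
  exact ⟨by simp, Or.inl h⟩

/-- reachability avoiding `S` -/
def RRt (S : Finset (VR L b N)) (x y : VR L b N) : Prop :=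
  ∃ (hx : x ∈ ((↑S : Set (VR L b N))ᶜ)) (hy : y ∈ ((↑S : Set (VR L b N))ᶜ)),
    ((RG L b N).induce ((↑S : Set (VR L b N))ᶜ)).Reachable ⟨x, hx⟩ ⟨y, hy⟩

variable {S : Finset (VR L b N)}

theorem rt_mem {x : VR L b N} (hx : x ∉ S) : x ∈ ((↑S : Set (VR L b N))ᶜ) := by
  simpa using hx

theorem RRt.rfl' {x : VR L b N} (hx : x ∉ S) : RRt S x x :=
  ⟨rt_mem hx, rt_mem hx, SimpleGraph.Reachable.refl _⟩

theorem RRt.symm' {x y : VR L b N} (h : RRt S x y) : RRt S y x := by
  obtain ⟨hx, hy, h⟩ := h
  exact ⟨hy, hx, h.symm⟩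

theorem RRt.trans' {x y z : VR L b N} (h : RRt S x y) (h' : RRt S y z) : RRt S x z := by
  obtain ⟨hx, hy, h⟩ := h
  obtain ⟨hy', hz, h'⟩ := h'
  exact ⟨hx, hz, h.trans h'⟩

theorem rt_adj {x y : VR L b N} (h : (RG L b N).Adj x y) (hx : x ∉ S) (hy : y ∉ S) :
    RRt S x y := by
  refine ⟨rt_mem hx, rt_mem hy, SimpleGraph.Adj.reachable ?_⟩
  exact h

theorem rt_conn (root : VR L b N) (hr : root ∉ S) (h : ∀ x, x ∉ S → RRt S x root) :
    ((RG L b N).induce ((↑S : Set (VR L b N))ᶜ)).Connected := by
  rw [SimpleGraph.connected_iff_exists_forall_reachable]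
  refine ⟨⟨root, rt_mem hr⟩, ?_⟩
  rintro ⟨x, hx⟩
  have hx' : x ∉ S := by simpa using hx
  obtain ⟨_, _, h1⟩ := h x hx'
  exact h1.symm

theorem rt_side (i : Fin b) (e : Bool) : ∀ (n : ℕ) (k k' : Fin N), (k' : ℕ) = k + n →
    (∀ m : Fin N, (k : ℕ) ≤ m → (m : ℕ) ≤ k' → rtLad L i m e ∉ S) →
    RRt S (rtLad L i k e) (rtLad L i k' e) := by
  intro n
  induction n with
  | zero =>
    intro k k' h hS
    have : k' = k := Fin.ext (by omega)
    subst this
    exact RRt.rfl' (hS _ le_rfl le_rfl)
  | succ n ih =>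
    intro k k' h hS
    have hlt : (k : ℕ) + n < N := by have := k'.2; omega
    have h1 := ih k ⟨(k : ℕ) + n, hlt⟩ rfl (fun m hm1 hm2 => hS m hm1 (by
      simp only at hm2; omega))
    refine h1.trans' (rt_adj (rt_adj_side i _ _ e (by simp only; omega)) ?_ ?_)
    · exact hS _ (by simp) (by simp only; omega)
    · exact hS _ (by omega) le_rfl

theorem rt_seg (hN : 2 ≤ N) : ∀ (n : ℕ) (a c : Fin (L + 1)), (c : ℕ) = a + n →
    (∀ j : Fin (L + 1), (a : ℕ) ≤ j → (j : ℕ) ≤ c → rtRing b N j ∉ S) →
    (∀ i : Fin b, (a : ℕ) ≤ i → (i : ℕ) < c → ∀ k, rtLad L i k false ∉ S) →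
    RRt S (rtRing b N a) (rtRing b N c) := by
  intro n
  induction n with
  | zero =>
    intro a c h hS hS'
    have : c = a := Fin.ext (by omega)
    subst this
    exact RRt.rfl' (hS _ le_rfl le_rfl)
  | succ n ih =>
    intro a c h hS hS'
    have hlt : (a : ℕ) + n < L + 1 := by have := c.2; omega
    have h1 := ih a ⟨(a : ℕ) + n, hlt⟩ rfl
      (fun m hm1 hm2 => hS m hm1 (by simp only at hm2; omega))
      (fun i hi1 hi2 => hS' i hi1 (by simp only at hi2; omega))
    refine h1.trans' ?_
    have hc' : rtRing b N (⟨(a : ℕ) + n, hlt⟩ : Fin (L + 1)) ∉ S :=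
      hS _ (by simp) (by simp only; omega)
    have hc : rtRing b N c ∉ S := hS _ (by omega) le_rfl
    by_cases hb : b ≤ (a : ℕ) + n
    · exact rt_adj (rt_adj_ring _ _ hb (by simp only; omega)) hc' hc
    · have hi : (a : ℕ) + n < b := by omega
      have hall : ∀ k, rtLad L (⟨(a : ℕ) + n, hi⟩ : Fin b) k false ∉ S :=
        hS' _ (by simp) (by simp only; omega)
      have h2 : RRt S (rtRing b N (⟨(a : ℕ) + n, hlt⟩ : Fin (L + 1)))
          (rtLad L (⟨(a : ℕ) + n, hi⟩ : Fin b) (⟨0, by omega⟩ : Fin N) false) :=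
        rt_adj (rt_adj_up0 _ _ _ rfl rfl) hc' (hall _)
      have h3 : RRt S (rtLad L (⟨(a : ℕ) + n, hi⟩ : Fin b) (⟨0, by omega⟩ : Fin N) false)
          (rtLad L (⟨(a : ℕ) + n, hi⟩ : Fin b) (⟨N - 1, by omega⟩ : Fin N) false) :=
        rt_side _ false (N - 1) _ _ (by simp) (fun m _ _ => hall m)
      have h4 : RRt S (rtRing b N c)
          (rtLad L (⟨(a : ℕ) + n, hi⟩ : Fin b) (⟨N - 1, by omega⟩ : Fin N) false) :=
        rt_adj (rt_adj_upN _ _ _ (by simp only; omega) (by simp only; omega)) hc (hall _)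
      exact (h2.trans' h3).trans' h4.symm'

theorem rt_two (hS : S.card ≤ 2) {s1 s2 : VR L b N} (h1 : s1 ∈ S) (h2 : s2 ∈ S) (hne : s1 ≠ s2)
    (x : VR L b N) (hx : x ∈ S) : x = s1 ∨ x = s2 := by
  have hsub : ({s1, s2} : Finset (VR L b N)) ⊆ S := by
    intro y hy
    rw [Finset.mem_insert, Finset.mem_singleton] at hy
    rcases hy with rfl | rfl <;> assumption
  have heq := Finset.eq_of_subset_of_card_le hsub (by rw [Finset.card_pair hne]; exact hS)
  rw [← heq, Finset.mem_insert, Finset.mem_singleton] at hx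
  exact hx

/-- left end of the upper side -/
theorem rt_upL (hN : 2 ≤ N) (hb : b ≤ L) (i : Fin b) (k : Fin N)
    (h1 : ∀ m : Fin N, (m : ℕ) ≤ k → rtLad L i m false ∉ S)
    (h2 : rtRing b N (⟨i, by have := i.2; omega⟩ : Fin (L + 1)) ∉ S) :
    RRt S (rtLad L i k false) (rtRing b N (⟨i, by have := i.2; omega⟩ : Fin (L + 1))) := by
  have h3 : RRt S (rtLad L i (⟨0, by omega⟩ : Fin N) false) (rtLad L i k false) :=
    rt_side i false (k : ℕ) _ _ (by simp) (fun m _ hm => h1 m hm)
  have h4 : RRt S (rtRing b N (⟨i, by have := i.2; omega⟩ : Fin (L + 1)))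
      (rtLad L i (⟨0, by omega⟩ : Fin N) false) :=
    rt_adj (rt_adj_up0 _ _ _ rfl rfl) h2 (h1 _ (by simp))
  exact (h4.trans' h3).symm'

/-- right end of the upper side -/
theorem rt_upR (hN : 2 ≤ N) (hb : b ≤ L) (i : Fin b) (k : Fin N)
    (h1 : ∀ m : Fin N, (k : ℕ) ≤ m → rtLad L i m false ∉ S)
    (h2 : rtRing b N (⟨i + 1, by have := i.2; omega⟩ : Fin (L + 1)) ∉ S) :
    RRt S (rtLad L i k false) (rtRing b N (⟨i + 1, by have := i.2; omega⟩ : Fin (L + 1))) := by
  have hk := k.2
  have h3 : RRt S (rtLad L i k false) (rtLad L i (⟨N - 1, by omega⟩ : Fin N) false) :=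
    rt_side i false (N - 1 - k) _ _ (by simp only; omega) (fun m hm _ => h1 m hm)
  have h4 : RRt S (rtRing b N (⟨i + 1, by have := i.2; omega⟩ : Fin (L + 1)))
      (rtLad L i (⟨N - 1, by omega⟩ : Fin N) false) :=
    rt_adj (rt_adj_upN _ _ _ rfl (by simp only; omega)) h2 (h1 _ (by simp only; omega))
  exact h3.trans' h4.symm'

/-- left end of the lower side -/
theorem rt_lowL (hN : 2 ≤ N) (i : Fin b) (k : Fin N)
    (h1 : ∀ m : Fin N, (m : ℕ) ≤ k → rtLad L i m true ∉ S)
    (h2 : rtHub L b N ∉ S) :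
    RRt S (rtLad L i k true) (rtHub L b N) := by
  have h3 : RRt S (rtLad L i (⟨0, by omega⟩ : Fin N) true) (rtLad L i k true) :=
    rt_side i true (k : ℕ) _ _ (by simp) (fun m _ hm => h1 m hm)
  have h4 : RRt S (rtHub L b N) (rtLad L i (⟨0, by omega⟩ : Fin N) true) :=
    rt_adj (rt_adj_hub_low _ _ (Or.inl rfl)) h2 (h1 _ (by simp))
  exact (h4.trans' h3).symm'

/-- right end of the lower side -/
theorem rt_lowR (hN : 2 ≤ N) (i : Fin b) (k : Fin N)
    (h1 : ∀ m : Fin N, (k : ℕ) ≤ m → rtLad L i m true ∉ S)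
    (h2 : rtHub L b N ∉ S) :
    RRt S (rtLad L i k true) (rtHub L b N) := by
  have hk := k.2
  have h3 : RRt S (rtLad L i k true) (rtLad L i (⟨N - 1, by omega⟩ : Fin N) true) :=
    rt_side i true (N - 1 - k) _ _ (by simp only; omega) (fun m hm _ => h1 m hm)
  have h4 : RRt S (rtHub L b N) (rtLad L i (⟨N - 1, by omega⟩ : Fin N) true) :=
    rt_adj (rt_adj_hub_low _ _ (Or.inr (by simp only; omega))) h2 (h1 _ (by simp only; omega))
  exact h3.trans' h4.symm'

theorem rt_hub_case (hN : 2 ≤ N) (hb : b ≤ L) (hS : S.card ≤ 2) (hh : rtHub L b N ∉ S) :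
    ∀ x, x ∉ S → RRt S x (rtHub L b N) := by
  intro x hx
  rcases x with j | ⟨i, k, e⟩ | c
  · exact (rt_adj (rt_adj_hub_ring j) hh hx).symm'
  · have hxl : rtLad L i k e ∉ S := hx
    cases e with
    | true =>
      by_cases hl : ∀ m : Fin N, (m : ℕ) ≤ k → rtLad L i m true ∉ S
      · exact rt_lowL hN i k hl hh
      by_cases hr : ∀ m : Fin N, (k : ℕ) ≤ m → rtLad L i m true ∉ S
      · exact rt_lowR hN i k hr hh
      push Not at hl hr
      obtain ⟨m1, hm1, hs1⟩ := hl
      obtain ⟨m2, hm2, hs2⟩ := hr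
      have hk1 : (m1 : ℕ) ≠ k := by
        intro h
        have : m1 = k := Fin.ext h
        rw [this] at hs1
        exact hxl hs1
      have hk2 : (m2 : ℕ) ≠ k := by
        intro h
        have : m2 = k := Fin.ext h
        rw [this] at hs2
        exact hxl hs2
      have hne : rtLad L i m1 true ≠ rtLad L i m2 true := by
        intro h
        have : m1 = m2 := by simpa using h
        rw [this] at hm1 hk1
        omega
      have two := rt_two hS hs1 hs2 hne
      have hup : ∀ m : Fin N, rtLad L i m false ∉ S := by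
        intro m hm
        rcases two _ hm with h | h <;> simp at h
      have hring : ∀ j : Fin (L + 1), rtRing b N j ∉ S := by
        intro j hm
        rcases two _ hm with h | h <;> simp at h
      have g1 : RRt S (rtLad L i k true) (rtLad L i k false) :=
        (rt_adj (rt_adj_rung i k) (hup k) hxl).symm'
      have g2 := rt_upL hN hb i k (fun m _ => hup m) (hring _)
      exact (g1.trans' g2).trans' (rt_adj (rt_adj_hub_ring _) hh (hring _)).symm'
    | false =>
      by_cases hl : (∀ m : Fin N, (m : ℕ) ≤ k → rtLad L i m false ∉ S) ∧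
          rtRing b N (⟨i, by have := i.2; omega⟩ : Fin (L + 1)) ∉ S
      · exact (rt_upL hN hb i k hl.1 hl.2).trans' (rt_adj (rt_adj_hub_ring _) hh hl.2).symm'
      by_cases hr : (∀ m : Fin N, (k : ℕ) ≤ m → rtLad L i m false ∉ S) ∧
          rtRing b N (⟨i + 1, by have := i.2; omega⟩ : Fin (L + 1)) ∉ S
      · exact (rt_upR hN hb i k hr.1 hr.2).trans' (rt_adj (rt_adj_hub_ring _) hh hr.2).symm'
      have hl' : ∃ s1 ∈ S, (∃ m : Fin N, (m : ℕ) < k ∧ s1 = rtLad L i m false) ∨
          s1 = rtRing b N (⟨i, by have := i.2; omega⟩ : Fin (L + 1)) := by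
        by_contra hcon
        push Not at hcon
        apply hl
        refine ⟨?_, ?_⟩
        · intro m hm hmS
          rcases Nat.lt_or_ge (m : ℕ) k with h | h
          · exact (hcon _ hmS).1 m h rfl
          · have : m = k := Fin.ext (by omega)
            rw [this] at hmS
            exact hxl hmS
        · intro hmS
          exact (hcon _ hmS).2 rfl
      have hr' : ∃ s2 ∈ S, (∃ m : Fin N, (k : ℕ) < m ∧ s2 = rtLad L i m false) ∨
          s2 = rtRing b N (⟨i + 1, by have := i.2; omega⟩ : Fin (L + 1)) := by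
        by_contra hcon
        push Not at hcon
        apply hr
        refine ⟨?_, ?_⟩
        · intro m hm hmS
          rcases Nat.lt_or_ge (k : ℕ) m with h | h
          · exact (hcon _ hmS).1 m h rfl
          · have : m = k := Fin.ext (by omega)
            rw [this] at hmS
            exact hxl hmS
        · intro hmS
          exact (hcon _ hmS).2 rfl
      obtain ⟨s1, hs1, c1⟩ := hl'
      obtain ⟨s2, hs2, c2⟩ := hr'
      have hne : s1 ≠ s2 := by
        rintro rfl
        rcases c1 with ⟨m, hm, e1⟩ | e1 <;> rcases c2 with ⟨m', hm', e2⟩ | e2 <;>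
          rw [e1] at e2 <;> simp at e2
        rw [e2] at hm
        omega
      have two := rt_two hS hs1 hs2 hne
      have hlow : ∀ m : Fin N, rtLad L i m true ∉ S := by
        intro m hm
        rcases two _ hm with h | h
        · rw [h] at hm
          rcases c1 with ⟨m', hm', e1⟩ | e1 <;> rw [e1] at h <;> simp at h
        · rcases c2 with ⟨m', hm', e1⟩ | e1 <;> rw [e1] at h <;> simp at h
      exact (rt_adj (rt_adj_rung i k) hxl (hlow k)).trans' (rt_lowL hN i k (fun m _ => hlow m) hh)
  · cases c with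
    | true => exact (rt_adj rt_adj_hub_ext hh hx).symm'
    | false => exact RRt.rfl' hx

theorem rt_hub_in (hN : 2 ≤ N) (hb : b ≤ L) (hS : S.card ≤ 2) (hh : rtHub L b N ∈ S) :
    ∃ root, root ∉ S ∧ ∀ x, x ∉ S → RRt S x root := by
  by_cases hP : (∀ j : Fin (L + 1), rtRing b N j ∉ S) ∧ (∀ i k, rtLad L i k false ∉ S)
  · obtain ⟨hP1, hP2⟩ := hP
    have hring : ∀ j : Fin (L + 1), RRt S (rtRing b N j) (rtRing b N (0 : Fin (L + 1))) := by
      intro j
      exact (rt_seg hN (j : ℕ) 0 j (by simp) (fun j' _ _ => hP1 j')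
        (fun i _ _ k => hP2 i k)).symm'
    have hup : ∀ (i : Fin b) (k : Fin N), RRt S (rtLad L i k false)
        (rtRing b N (0 : Fin (L + 1))) := by
      intro i k
      exact (rt_upL hN hb i k (fun m _ => hP2 i m) (hP1 _)).trans' (hring _)
    refine ⟨rtRing b N (0 : Fin (L + 1)), hP1 _, ?_⟩
    intro x hx
    rcases x with j | ⟨i, k, e⟩ | c
    · exact hring j
    · cases e with
      | true => exact (rt_adj (rt_adj_rung i k) (hP2 i k) hx).symm'.trans' (hup i k)
      | false => exact hup i k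
    · cases c with
      | true => exact rt_adj (rt_adj_ext _ (Or.inl rfl)) hx (hP1 _)
      | false => exact absurd hh hx
  · -- something on the ring cycle is deleted
    have hd : (∃ m : Fin (L + 1), rtRing b N m ∈ S) ∨
        (∃ (m : Fin b) (l : Fin N), rtLad L m l false ∈ S) := by
      by_contra hcon
      push Not at hcon
      exact hP ⟨hcon.1, hcon.2⟩
    -- it is enough to treat ring vertices and upper vertices
    have fin : rtExt L b N ∉ S → (∀ i k, rtLad L i k true ∉ S) →
        (∀ j : Fin (L + 1), rtRing b N j ∉ S → RRt S (rtRing b N j) (rtExt L b N)) →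
        (∀ i k, rtLad L i k false ∉ S → RRt S (rtLad L i k false) (rtExt L b N)) →
        (∀ (i : Fin b) (k : Fin N), rtLad L i k false ∈ S →
          ∃ k' : Fin N, ((k' : ℕ) = k + 1 ∨ (k : ℕ) = k' + 1) ∧ rtLad L i k' false ∉ S) →
        ∃ root, root ∉ S ∧ ∀ x, x ∉ S → RRt S x root := by
      intro h1 h2 h3 h4 h5
      refine ⟨rtExt L b N, h1, ?_⟩
      intro x hx
      rcases x with j | ⟨i, k, e⟩ | c
      · exact h3 j hx
      · cases e with
        | true =>
          by_cases hf : rtLad L i k false ∉ S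
          · exact (rt_adj (rt_adj_rung i k) hf hx).symm'.trans' (h4 i k hf)
          · rw [not_not] at hf
            obtain ⟨k', hk', hkS⟩ := h5 i k hf
            have g1 : RRt S (rtLad L i k true) (rtLad L i k' true) := by
              rcases hk' with h | h
              · exact rt_adj (rt_adj_side i k k' true h) hx (h2 i k')
              · exact (rt_adj (rt_adj_side i k' k true h) (h2 i k') hx).symm'
            exact (g1.trans' (rt_adj (rt_adj_rung i k') hkS (h2 i k')).symm').trans' (h4 i k' hkS)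
        | false => exact h4 i k hx
      · cases c with
        | true => exact RRt.rfl' hx
        | false => exact absurd hh hx
    rcases hd with ⟨m, hm⟩ | ⟨m, l, hm⟩
    · have two := rt_two hS hh hm (by simp)
      have hext : rtExt L b N ∉ S := by
        intro h; rcases two _ h with h | h <;> simp at h
      have hlad : ∀ i k e, rtLad L i k e ∉ S := by
        intro i k e h; rcases two _ h with h | h <;> simp at h
      have hring : ∀ j : Fin (L + 1), (j : ℕ) ≠ m → rtRing b N j ∉ S := by
        intro j hj h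
        rcases two _ h with h | h
        · simp at h
        · have : j = m := by simpa using h
          rw [this] at hj
          exact hj rfl
      have h3 : ∀ j : Fin (L + 1), rtRing b N j ∉ S →
          RRt S (rtRing b N j) (rtExt L b N) := by
        intro j hj
        have hjm : (j : ℕ) ≠ m := by
          intro h
          have : j = m := Fin.ext h
          rw [this] at hj
          exact hj hm
        rcases Nat.lt_or_ge (j : ℕ) m with h | h
        · have g := rt_seg (S := S) hN (j : ℕ) 0 j (by simp)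
            (fun j' _ hj' => hring j' (by omega)) (fun i _ _ k => hlad i k false)
          refine g.symm'.trans' (rt_adj (rt_adj_ext _ (Or.inl rfl)) hext (hring _ ?_)).symm'
          simp only [Fin.val_zero]; omega
        · have hjL := j.2
          have g := rt_seg (S := S) hN (L - (j : ℕ)) j (Fin.last L)
            (by simp only [Fin.val_last]; omega)
            (fun j' hj' _ => hring j' (by omega)) (fun i _ _ k => hlad i k false)
          refine g.trans' (rt_adj (rt_adj_ext _ (Or.inr rfl)) hext (hring _ ?_)).symm'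
          simp only [Fin.val_last]; omega
      refine fin hext (fun i k => hlad i k true) h3 ?_ (fun i k h => absurd h (hlad i k false))
      intro i k _
      by_cases hi : (i : ℕ) = m
      · have : rtRing b N (⟨i + 1, by have := i.2; omega⟩ : Fin (L + 1)) ∉ S :=
          hring _ (by simp only; omega)
        exact (rt_upR hN hb i k (fun m' _ => hlad i m' false) this).trans' (h3 _ this)
      · have : rtRing b N (⟨i, by have := i.2; omega⟩ : Fin (L + 1)) ∉ S :=
          hring _ (by simp only; omega)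
        exact (rt_upL hN hb i k (fun m' _ => hlad i m' false) this).trans' (h3 _ this)
    · have two := rt_two hS hh hm (by simp)
      have hext : rtExt L b N ∉ S := by
        intro h; rcases two _ h with h | h <;> simp at h
      have hlow : ∀ i k, rtLad L i k true ∉ S := by
        intro i k h; rcases two _ h with h | h <;> simp at h
      have hring : ∀ j : Fin (L + 1), rtRing b N j ∉ S := by
        intro j h; rcases two _ h with h | h <;> simp at h
      have hup : ∀ (i : Fin b) (k : Fin N), ((i : ℕ) ≠ m ∨ (k : ℕ) ≠ l) →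
          rtLad L i k false ∉ S := by
        intro i k hik h
        rcases two _ h with h | h
        · simp at h
        · simp only [Sum.inr.injEq, Sum.inl.injEq, Prod.mk.injEq, and_true] at h
          rw [h.1, h.2] at hik
          simp at hik
      have h3 : ∀ j : Fin (L + 1), rtRing b N j ∉ S →
          RRt S (rtRing b N j) (rtExt L b N) := by
        intro j hj
        rcases Nat.lt_or_ge (m : ℕ) j with h | h
        · have hjL := j.2
          have g := rt_seg (S := S) hN (L - (j : ℕ)) j (Fin.last L)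
            (by simp only [Fin.val_last]; omega)
            (fun j' _ _ => hring j') (fun i hi _ k => hup i k (Or.inl (by omega)))
          exact g.trans' (rt_adj (rt_adj_ext _ (Or.inr rfl)) hext (hring _)).symm'
        · have g := rt_seg (S := S) hN (j : ℕ) 0 j (by simp)
            (fun j' _ _ => hring j') (fun i _ hi k => hup i k (Or.inl (by omega)))
          exact g.symm'.trans' (rt_adj (rt_adj_ext _ (Or.inl rfl)) hext (hring _)).symm'
      refine fin hext hlow h3 ?_ ?_
      · intro i k hik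
        by_cases hi : (i : ℕ) = m
        · have hkl : (k : ℕ) ≠ l := by
            intro h
            have e1 : i = m := Fin.ext hi
            have e2 : k = l := Fin.ext h
            rw [e1, e2] at hik
            exact hik hm
          rcases Nat.lt_or_ge (k : ℕ) l with h | h
          · exact (rt_upL hN hb i k (fun m' hm' => hup i m' (Or.inr (by omega)))
              (hring _)).trans' (h3 _ (hring _))
          · exact (rt_upR hN hb i k (fun m' hm' => hup i m' (Or.inr (by omega)))
              (hring _)).trans' (h3 _ (hring _))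
        · exact (rt_upL hN hb i k (fun m' hm' => hup i m' (Or.inl hi))
              (hring _)).trans' (h3 _ (hring _))
      · intro i k hik
        have hkl : (k : ℕ) = l := by
          by_contra h
          exact hup i k (Or.inr h) hik
        have hk := k.2
        rcases Nat.lt_or_ge ((k : ℕ) + 1) N with h | h
        · exact ⟨⟨k + 1, h⟩, Or.inl rfl, hup i _ (Or.inr (by simp only; omega))⟩
        · exact ⟨⟨k - 1, by omega⟩, Or.inr (by simp only; omega),
            hup i _ (Or.inr (by simp only; omega))⟩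

end RgTriAux

/-- TARGET. -/
theorem rg_tri (L b N : ℕ) (hL : 1 ≤ L) (hb : b ≤ L) (hN : 2 ≤ N) : Tri (RG L b N) := by
  refine ⟨?_, ?_⟩
  · simp only [Fintype.card_sum, Fintype.card_prod, Fintype.card_fin, Fintype.card_bool]
    omega
  · intro S hS
    by_cases hh : rtHub L b N ∈ S
    · obtain ⟨root, hr, h⟩ := rt_hub_in hN hb hS hh
      exact rt_conn root hr h
    · exact rt_conn (rtHub L b N) hh (rt_hub_case hN hb hS hh)


end Pool.Agent.Helper759.Chrom.Ring
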