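import Mathlib
import Pool.Agent.Helper759.ChromDefs
import Pool.Agent.Helper759.ChromA
import Pool.Agent.Helper759.RingDefs
set_option autoImplicit false
open Classical Filter Topology

namespace Pool.Agent.Helper759.Chrom.Ring
/-! ### straight-line drawing -/

theorem rg_div (q r q' r' N : ℕ) (hr : r ≤ N) (hr' : r' ≤ N)
    (h : (q : ℤ) * (N + 1) + r = q' * (N + 1) + r') : q = q' ∧ r = r' := by
  have h' : q * (N + 1) + r = q' * (N + 1) + r' := by exact_mod_cast h
  have hq : q = q' := by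
    rcases lt_trichotomy q q' with hlt | heq | hlt
    · exfalso
      have : (q + 1) * (N + 1) ≤ q' * (N + 1) := Nat.mul_le_mul_right _ hlt
      nlinarith
    · exact heq
    · exfalso
      have : (q' + 1) * (N + 1) ≤ q * (N + 1) := Nat.mul_le_mul_right _ hlt
      nlinarith
  subst hq
  exact ⟨rfl, by omega⟩

/-- real part -/
def rgX {L b N : ℕ} : VR L b N → ℤ
  | Sum.inl _ => 2
  | Sum.inr (Sum.inl (_, _, false)) => 2
  | Sum.inr (Sum.inl (_, _, true)) => 1
  | Sum.inr (Sum.inr false) => 0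
  | Sum.inr (Sum.inr true) => -1

/-- slope -/
def rgS {L b N : ℕ} : VR L b N → ℤ
  | Sum.inl i => ((i : ℕ) : ℤ) * (N + 1)
  | Sum.inr (Sum.inl (i, k, _)) => ((i : ℕ) : ℤ) * (N + 1) + (((k : ℕ) + 1 : ℕ) : ℤ)
  | Sum.inr (Sum.inr false) => 0
  | Sum.inr (Sum.inr true) => 1

/-- hub -/
abbrev rgH {L b N : ℕ} : VR L b N := Sum.inr (Sum.inr false)
/-- extra vertex -/
abbrev rgE {L b N : ℕ} : VR L b N := Sum.inr (Sum.inr true)

theorem rg_inj {L b N : ℕ} (u v : VR L b N) (hX : rgX u = rgX v) (hS : rgS u = rgS v) :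
    u = v := by
  rcases u with i | ⟨i, k, e⟩ | e <;> rcases v with i' | ⟨i', k', e'⟩ | e'
  · simp only [rgS] at hS
    have := rg_div i 0 i' 0 N (Nat.zero_le _) (Nat.zero_le _) (by push_cast; linarith)
    rw [Fin.ext this.1]
  · cases e'
    · simp only [rgS] at hS
      have := rg_div i 0 i' (k' + 1) N (Nat.zero_le _) (by omega) (by push_cast at hS ⊢; linarith)
      omega
    · simp [rgX] at hX
  · cases e' <;> simp [rgX] at hX
  · cases e
    · simp only [rgS] at hS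
      have := rg_div i (k + 1) i' 0 N (by omega) (Nat.zero_le _) (by push_cast at hS ⊢; linarith)
      omega
    · simp [rgX] at hX
  · simp only [rgS] at hS
    have h1 := rg_div i (k + 1) i' (k' + 1) N (by omega) (by omega)
      (by push_cast at hS ⊢; linarith)
    have hi : i = i' := Fin.ext h1.1
    have hk : k = k' := Fin.ext (by omega)
    subst hi; subst hk
    cases e <;> cases e' <;> simp [rgX] at hX ⊢
  · cases e <;> cases e' <;> simp [rgX] at hX
  · cases e <;> simp [rgX] at hX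
  · cases e <;> cases e' <;> simp [rgX] at hX
  · cases e <;> cases e' <;> simp [rgX] at hX ⊢

/-- facts about vertices -/
theorem rg_vert {L b N : ℕ} (hb : b ≤ L) (w : VR L b N) :
    (rgX w = 2 ∧ 0 ≤ rgS w ∧ rgS w ≤ (L : ℤ) * (N + 1) ∧
      ((∃ i : ℕ, rgS w = (i : ℤ) * (N + 1)) ∨
        ∃ i k : ℕ, i < b ∧ k + 1 ≤ N ∧ rgS w = (i : ℤ) * (N + 1) + ((k + 1 : ℕ) : ℤ))) ∨
    (rgX w = 1 ∧ 0 ≤ rgS w ∧ rgS w ≤ (L : ℤ) * (N + 1) ∧
        ∃ i k : ℕ, i < b ∧ k + 1 ≤ N ∧ rgS w = (i : ℤ) * (N + 1) + ((k + 1 : ℕ) : ℤ)) ∨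
    w = rgH ∨ w = rgE := by
  have hlad : ∀ (i : Fin b) (k : Fin N), (0 : ℤ) ≤ ((i : ℕ) : ℤ) * (N + 1) + (((k : ℕ) + 1 : ℕ) : ℤ) ∧
      ((i : ℕ) : ℤ) * (N + 1) + (((k : ℕ) + 1 : ℕ) : ℤ) ≤ (L : ℤ) * (N + 1) := by
    intro i k
    constructor
    · positivity
    · have h1 : (i : ℕ) + 1 ≤ L := by omega
      have h2 : ((i : ℕ) + 1) * (N + 1) ≤ L * (N + 1) := Nat.mul_le_mul_right _ h1
      have h3 : (i : ℕ) * (N + 1) + ((k : ℕ) + 1) ≤ L * (N + 1) := by
        have := k.isLt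
        nlinarith
      exact_mod_cast h3
  rcases w with i | ⟨i, k, e⟩ | e
  · left
    refine ⟨rfl, by simp only [rgS]; positivity, ?_, Or.inl ⟨i, rfl⟩⟩
    simp only [rgS]
    have h1 : (i : ℕ) ≤ L := by omega
    have h2 : (i : ℕ) * (N + 1) ≤ L * (N + 1) := Nat.mul_le_mul_right _ h1
    exact_mod_cast h2
  · cases e
    · left
      exact ⟨rfl, (hlad i k).1, (hlad i k).2, Or.inr ⟨i, k, i.isLt, k.isLt, rfl⟩⟩
    · right; left
      exact ⟨rfl, (hlad i k).1, (hlad i k).2, ⟨i, k, i.isLt, k.isLt, rfl⟩⟩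
  · cases e
    · right; right; left; rfl
    · right; right; right; rfl

theorem rg_kinds {L b N : ℕ} (u v : VR L b N) (h : relR L b N u v) :
    (rgX u = 2 ∧ rgX v = 2 ∧ (rgS v = rgS u + 1 ∨ rgS u = rgS v + 1 ∨
      ∃ i : ℕ, b ≤ i ∧ rgS u = (i : ℤ) * (N + 1) ∧ rgS v = ((i : ℤ) + 1) * (N + 1))) ∨
    (rgX u = 1 ∧ rgX v = 1 ∧ rgS v = rgS u + 1) ∨
    (rgX u = 2 ∧ rgX v = 1 ∧ rgS u = rgS v) ∨
    (u = rgH ∧ rgX v = 2 ∧ ∃ i : ℕ, rgS v = (i : ℤ) * (N + 1)) ∨
    (u = rgH ∧ rgX v = 1) ∨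
    (u = rgH ∧ v = rgE) ∨
    (u = rgE ∧ rgX v = 2 ∧ rgS v = 0) ∨
    (u = rgE ∧ rgX v = 2 ∧ rgS v = (L : ℤ) * (N + 1)) := by
  rcases u with i | ⟨i, k, e⟩ | e <;> rcases v with i' | ⟨i', k', e'⟩ | e'
  · simp only [relR] at h
    left
    refine ⟨rfl, rfl, Or.inr (Or.inr ⟨i, h.1, rfl, ?_⟩)⟩
    simp only [rgS]; rw [h.2]; push_cast; ring
  · simp only [relR] at h
    obtain ⟨rfl, h⟩ := h
    left
    refine ⟨rfl, rfl, ?_⟩
    simp only [rgS]
    rcases h with ⟨h1, h2⟩ | ⟨h1, h2⟩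
    · left; rw [h1, h2]; push_cast; ring
    · right; left; rw [h1, h2]; push_cast; ring
  · cases e' <;> simp [relR] at h
  · cases e <;> simp [relR] at h
  · simp only [relR] at h
    obtain ⟨rfl, h⟩ := h
    rcases h with ⟨rfl, h⟩ | ⟨rfl, rfl, rfl⟩
    · cases e
      · left
        refine ⟨rfl, rfl, Or.inl ?_⟩
        simp only [rgS]; rw [h]; push_cast; ring
      · right; left
        refine ⟨rfl, rfl, ?_⟩
        simp only [rgS]; rw [h]; push_cast; ring
    · right; right; left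
      exact ⟨rfl, rfl, rfl⟩
  · cases e <;> cases e' <;> simp [relR] at h
  · cases e
    · right; right; right; left
      exact ⟨rfl, rfl, i', rfl⟩
    · simp only [relR] at h
      right; right; right; right; right; right
      rcases h with h | h
      · left; refine ⟨rfl, rfl, ?_⟩
        simp only [rgS]; rw [h]; simp
      · right; refine ⟨rfl, rfl, ?_⟩
        simp only [rgS]; rw [h]
  · cases e
    · simp only [relR] at h
      obtain ⟨rfl, h⟩ := h
      right; right; right; right; left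
      exact ⟨rfl, rfl⟩
    · simp [relR] at h
  · cases e <;> cases e'
    · simp [relR] at h
    · right; right; right; right; right; left
      exact ⟨rfl, rfl⟩
    · simp [relR] at h
    · simp [relR] at h

theorem rgXH {L b N : ℕ} : rgX (rgH : VR L b N) = 0 := rfl
theorem rgSH {L b N : ℕ} : rgS (rgH : VR L b N) = 0 := rfl
theorem rgXE {L b N : ℕ} : rgX (rgE : VR L b N) = -1 := rfl
theorem rgSE {L b N : ℕ} : rgS (rgE : VR L b N) = 1 := rfl

/-- an integer `m` with `n ≤ m ≤ n + 1` (as reals) -/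
theorem rg_int2 (m n : ℤ) (h1 : (n : ℝ) ≤ m) (h2 : (m : ℝ) ≤ n + 1) : m = n ∨ m = n + 1 := by
  have a1 : n ≤ m := by exact_mod_cast h1
  have a2 : m ≤ n + 1 := by exact_mod_cast h2
  omega

/-- no vertex inside an edge -/
theorem rg_A {L b N : ℕ} (hL : 1 ≤ L) (hb : b ≤ L) (hN : 2 ≤ N) (u v w : VR L b N)
    (h : relR L b N u v) (t : ℝ) (ht0 : 0 ≤ t) (ht1 : t ≤ 1)
    (hx : (rgX w : ℝ) = (1 - t) * rgX u + t * rgX v)
    (hy : (rgX w : ℝ) * rgS w = (1 - t) * (rgX u * rgS u) + t * (rgX v * rgS v)) :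
    w = u ∨ w = v := by
  have hM : (3 : ℝ) ≤ (L : ℝ) * (N + 1) := by
    have h1 : (1 : ℝ) ≤ L := by exact_mod_cast hL
    have h2 : (2 : ℝ) ≤ N := by exact_mod_cast hN
    nlinarith
  have hw := rg_vert hb w
  rcases rg_kinds u v h with ⟨hu, hv, hk⟩ | ⟨hu, hv, hk⟩ | ⟨hu, hv, hk⟩ | ⟨rfl, hv, i, hk⟩ |
    ⟨rfl, hv⟩ | ⟨rfl, rfl⟩ | ⟨rfl, hv, hk⟩ | ⟨rfl, hv, hk⟩
  · -- vertical line 2
    rw [hu, hv] at hx hy
    push_cast at hx hy
    have hwX : rgX w = 2 := by
      have : (rgX w : ℝ) = 2 := by linarith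
      exact_mod_cast this
    rw [hwX] at hy
    push_cast at hy
    have hs : (rgS w : ℝ) = (1 - t) * rgS u + t * rgS v := by linarith
    rcases hk with hk | hk | ⟨i, hbi, hk1, hk2⟩
    · have hkR : (rgS v : ℝ) = rgS u + 1 := by rw [hk]; push_cast; ring
      rcases rg_int2 (rgS w) (rgS u) (by rw [hs, hkR]; nlinarith) (by rw [hs, hkR]; nlinarith) with h1 | h1
      · left; exact rg_inj _ _ (by rw [hwX, hu]) h1
      · right; exact rg_inj _ _ (by rw [hwX, hv]) (by rw [h1, hk])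
    · have hkR : (rgS u : ℝ) = rgS v + 1 := by rw [hk]; push_cast; ring
      rcases rg_int2 (rgS w) (rgS v) (by rw [hs, hkR]; nlinarith) (by rw [hs, hkR]; nlinarith) with h1 | h1
      · right; exact rg_inj _ _ (by rw [hwX, hv]) h1
      · left; exact rg_inj _ _ (by rw [hwX, hu]) (by rw [h1, hk])
    · have e1 : (rgS u : ℝ) = (i : ℝ) * (N + 1) := by rw [hk1]; push_cast; ring
      have e2 : (rgS v : ℝ) = ((i : ℝ) + 1) * (N + 1) := by rw [hk2]; push_cast; ring
      have hNpos : (0 : ℝ) < (N : ℝ) + 1 := by positivity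
      have l1 : ((i : ℤ) * (N + 1) : ℤ) ≤ rgS w := by
        have : (i : ℝ) * (N + 1) ≤ rgS w := by rw [hs, e1, e2]; nlinarith
        exact_mod_cast this
      have l2 : rgS w ≤ (((i : ℤ) + 1) * (N + 1) : ℤ) := by
        have : (rgS w : ℝ) ≤ ((i : ℝ) + 1) * (N + 1) := by rw [hs, e1, e2]; nlinarith
        exact_mod_cast this
      rcases hw with ⟨-, -, -, ⟨j, hj⟩ | ⟨i', k', hi', hk', hj⟩⟩ | ⟨h1, -⟩ | rfl | rfl
      · rw [hj] at l1 l2
        have hN1 : (0 : ℤ) < (N : ℤ) + 1 := by positivity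
        have m1 : (i : ℤ) ≤ j := le_of_mul_le_mul_right l1 hN1
        have m2 : (j : ℤ) ≤ i + 1 := le_of_mul_le_mul_right l2 hN1
        have m3 : (j : ℤ) = i ∨ (j : ℤ) = i + 1 := by omega
        rcases m3 with m3 | m3
        · left; exact rg_inj _ _ (by rw [hwX, hu]) (by rw [hj, hk1, m3])
        · right; exact rg_inj _ _ (by rw [hwX, hv]) (by rw [hj, hk2, m3])
      · exfalso
        rw [hj] at l1
        have n1 : i * (N + 1) ≤ i' * (N + 1) + (k' + 1) := by exact_mod_cast l1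
        have n2 : (i' + 1) * (N + 1) ≤ i * (N + 1) := Nat.mul_le_mul_right _ (by omega)
        nlinarith
      · rw [hwX] at h1; norm_num at h1
      · rw [rgXH] at hwX; norm_num at hwX
      · rw [rgXE] at hwX; norm_num at hwX
  · -- vertical line 1
    rw [hu, hv] at hx hy
    push_cast at hx hy
    have hwX : rgX w = 1 := by
      have : (rgX w : ℝ) = 1 := by linarith
      exact_mod_cast this
    rw [hwX] at hy
    push_cast at hy
    have hs : (rgS w : ℝ) = (1 - t) * rgS u + t * rgS v := by linarith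
    have hkR : (rgS v : ℝ) = rgS u + 1 := by rw [hk]; push_cast; ring
    rcases rg_int2 (rgS w) (rgS u) (by rw [hs, hkR]; nlinarith) (by rw [hs, hkR]; nlinarith) with h1 | h1
    · left; exact rg_inj _ _ (by rw [hwX, hu]) h1
    · right; exact rg_inj _ _ (by rw [hwX, hv]) (by rw [h1, hk])
  · -- rung
    rw [hu, hv] at hx hy
    push_cast at hx hy
    have hxw : (rgX w : ℝ) = 2 - t := by linarith
    have hkR : (rgS u : ℝ) = rgS v := by rw [hk]
    have h0 : (rgX w : ℝ) * (rgS w - rgS v) = 0 := by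
      rw [hkR] at hy
      have : (rgX w : ℝ) * rgS w = (2 - t) * rgS v := by linarith
      rw [← hxw] at this
      linarith
    have h1 : (rgS w : ℝ) = rgS v := by
      rcases mul_eq_zero.1 h0 with h2 | h2
      · rw [hxw] at h2; linarith
      · linarith
    have h2 : rgS w = rgS v := by exact_mod_cast h1
    rcases hw with ⟨h3, -⟩ | ⟨h3, -⟩ | rfl | rfl
    · left; exact rg_inj _ _ (by rw [h3, hu]) (by rw [h2, hk])
    · right; exact rg_inj _ _ (by rw [h3, hv]) h2
    · rw [rgXH] at hxw; push_cast at hxw; linarith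
    · rw [rgXE] at hxw; push_cast at hxw; linarith
  · -- hub - ring
    rw [hv] at hx hy
    simp only [rgXH, rgSH, rgXE, rgSE] at hx hy
    push_cast at hx hy
    have hxw : (rgX w : ℝ) = 2 * t := by linarith
    rcases hw with ⟨h3, -, -, -⟩ | ⟨h3, -, -, i', k', hi', hk', hj⟩ | rfl | rfl
    · have ht : t = 1 := by rw [h3] at hxw; push_cast at hxw; linarith
      right
      rw [ht, h3] at hy
      push_cast at hy
      have h1 : (rgS w : ℝ) = rgS v := by linarith
      exact rg_inj _ _ (by rw [h3, hv]) (by exact_mod_cast h1)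
    · exfalso
      have ht : t = 1 / 2 := by rw [h3] at hxw; push_cast at hxw; linarith
      rw [ht, h3] at hy
      push_cast at hy
      have h1 : (rgS w : ℝ) = rgS v := by linarith
      have h2 : rgS w = rgS v := by exact_mod_cast h1
      rw [hk, hj] at h2
      have := rg_div i' (k' + 1) i 0 N hk' (Nat.zero_le _) (by push_cast at h2 ⊢; linarith)
      omega
    · left; rfl
    · rw [rgXE] at hxw; push_cast at hxw; linarith
  · -- hub - lower side
    rw [hv] at hx hy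
    simp only [rgXH, rgSH, rgXE, rgSE] at hx hy
    push_cast at hx hy
    have hxw : (rgX w : ℝ) = t := by linarith
    rcases hw with ⟨h3, -, -, -⟩ | ⟨h3, -, -, i', k', hi', hk', hj⟩ | rfl | rfl
    · rw [h3] at hxw; push_cast at hxw; linarith
    · have ht : t = 1 := by rw [h3] at hxw; push_cast at hxw; linarith
      right
      rw [ht, h3] at hy
      push_cast at hy
      have h1 : (rgS w : ℝ) = rgS v := by linarith
      exact rg_inj _ _ (by rw [h3, hv]) (by exact_mod_cast h1)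
    · left; rfl
    · rw [rgXE] at hxw; push_cast at hxw; linarith
  · -- hub - extra
    simp only [rgXH, rgSH, rgXE, rgSE] at hx hy
    push_cast at hx hy
    rcases hw with ⟨h3, -, -, -⟩ | ⟨h3, -, -, -⟩ | rfl | rfl
    · rw [h3] at hx; push_cast at hx; linarith
    · rw [h3] at hx; push_cast at hx; linarith
    · left; rfl
    · right; rfl
  · -- extra - ring 0
    rw [hv, hk] at hy
    rw [hv] at hx
    simp only [rgXH, rgSH, rgXE, rgSE] at hx hy
    push_cast at hx hy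
    rcases hw with ⟨h3, -, -, -⟩ | ⟨h3, h4, -, -⟩ | rfl | rfl
    · have ht : t = 1 := by rw [h3] at hx; push_cast at hx; linarith
      right
      rw [ht, h3] at hy
      push_cast at hy
      have h1 : (rgS w : ℝ) = 0 := by linarith
      exact rg_inj _ _ (by rw [h3, hv]) (by rw [hk]; exact_mod_cast h1)
    · exfalso
      have ht : t = 2 / 3 := by rw [h3] at hx; push_cast at hx; linarith
      rw [ht, h3] at hy
      push_cast at hy
      have : (0 : ℝ) ≤ rgS w := by exact_mod_cast h4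
      linarith
    · exfalso
      simp [rgXH, rgSH] at hx hy
      linarith
    · left; rfl
  · -- extra - ring L
    have hkR : (rgS v : ℝ) = (L : ℝ) * (N + 1) := by rw [hk]; push_cast; ring
    rw [hv] at hx hy
    rw [hkR] at hy
    simp only [rgXH, rgSH, rgXE, rgSE] at hx hy
    push_cast at hx hy
    rcases hw with ⟨h3, -, -, -⟩ | ⟨h3, h4, h5, -⟩ | rfl | rfl
    · have ht : t = 1 := by rw [h3] at hx; push_cast at hx; linarith
      right
      rw [ht, h3] at hy
      push_cast at hy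
      have h1 : (rgS w : ℝ) = rgS v := by rw [hkR]; linarith
      exact rg_inj _ _ (by rw [h3, hv]) (by exact_mod_cast h1)
    · exfalso
      have ht : t = 2 / 3 := by rw [h3] at hx; push_cast at hx; linarith
      rw [ht, h3] at hy
      push_cast at hy
      have : (rgS w : ℝ) ≤ (L : ℝ) * (N + 1) := by exact_mod_cast h5
      linarith
    · exfalso
      simp [rgXH, rgSH] at hx hy
      have ht : t = 1 / 3 := by linarith
      rw [ht] at hy
      linarith
    · left; rfl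

/-- class of an interior point -/
theorem rg_cls {L b N : ℕ} (hL : 1 ≤ L) (hb : b ≤ L) (hN : 2 ≤ N) (u v : VR L b N)
    (h : relR L b N u v) (t a c : ℝ) (ht0 : 0 < t) (ht1 : t < 1)
    (hx : a = (1 - t) * rgX u + t * rgX v)
    (hy : c = (1 - t) * (rgX u * rgS u) + t * (rgX v * rgS v)) :
    (a = 2 ∧ rgX u = 2 ∧ rgX v = 2 ∧ rgS u ≠ rgS v) ∨
    (a = 1 ∧ 0 ≤ c ∧ c ≤ (L : ℝ) * (N + 1) * a ∧ rgX u = 1 ∧ rgX v = 1 ∧ rgS v = rgS u + 1 ∧
      (rgS u : ℝ) < c ∧ c < rgS u + 1) ∨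
    (0 < a ∧ a < 2 ∧ 0 ≤ c ∧ c ≤ (L : ℝ) * (N + 1) * a ∧ c = rgS v * a ∧
      ((rgX u = 2 ∧ rgX v = 1 ∧ rgS u = rgS v ∧ 1 < a) ∨
       (u = rgH ∧ rgX v = 2 ∧ ∃ i : ℕ, rgS v = (i : ℤ) * (N + 1)) ∨
       (u = rgH ∧ rgX v = 1 ∧ a < 1))) ∨
    (-1 < a ∧ a < 0 ∧ c = a ∧ u = rgH ∧ v = rgE) ∨
    (-1 < a ∧ a < 2 ∧ c < 0 ∧ 3 * c = a - 2 ∧ u = rgE ∧ rgX v = 2 ∧ rgS v = 0) ∨
    (-1 < a ∧ a < 2 ∧ (L : ℝ) * (N + 1) * a < c ∧ a < c ∧ a - 2 < 3 * c ∧ u = rgE ∧
      rgX v = 2 ∧ rgS v = (L : ℤ) * (N + 1)) := by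
  have hM : (3 : ℝ) ≤ (L : ℝ) * (N + 1) := by
    have h1 : (1 : ℝ) ≤ L := by exact_mod_cast hL
    have h2 : (2 : ℝ) ≤ N := by exact_mod_cast hN
    nlinarith
  have hvert : ∀ w : VR L b N, (rgX w = 1 ∨ rgX w = 2) →
      (0 : ℝ) ≤ rgS w ∧ (rgS w : ℝ) ≤ (L : ℝ) * (N + 1) := by
    intro w hw
    rcases rg_vert hb w with ⟨-, h1, h2, -⟩ | ⟨-, h1, h2, -⟩ | rfl | rfl
    · exact ⟨by exact_mod_cast h1, by exact_mod_cast h2⟩
    · exact ⟨by exact_mod_cast h1, by exact_mod_cast h2⟩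
    · rw [rgXH] at hw; norm_num at hw
    · rw [rgXE] at hw; norm_num at hw
  rcases rg_kinds u v h with ⟨hu, hv, hk⟩ | ⟨hu, hv, hk⟩ | ⟨hu, hv, hk⟩ | ⟨rfl, hv, i, hk⟩ |
    ⟨rfl, hv⟩ | ⟨rfl, rfl⟩ | ⟨rfl, hv, hk⟩ | ⟨rfl, hv, hk⟩
  · left
    refine ⟨?_, hu, hv, ?_⟩
    · rw [hx, hu, hv]; push_cast; ring
    · rcases hk with hk | hk | ⟨i, -, h1, h2⟩
      · omega
      · omega
      · rw [h1, h2]
        intro h3
        have : ((i : ℤ) + 1) * (N + 1) - (i : ℤ) * (N + 1) = N + 1 := by ring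
        omega
  · right; left
    have h1 := hvert u (Or.inl hu)
    have h2 := hvert v (Or.inl hv)
    have hkR : (rgS v : ℝ) = rgS u + 1 := by rw [hk]; push_cast; ring
    have ha : a = 1 := by rw [hx, hu, hv]; push_cast; ring
    have hc : c = rgS u + t := by rw [hy, hu, hv, hkR]; push_cast; ring
    refine ⟨ha, ?_, ?_, hu, hv, hk, ?_, ?_⟩
    · rw [hc]; linarith [h1.1]
    · rw [ha, hc, mul_one]
      rw [hkR] at h2
      linarith [h2.2]
    · rw [hc]; linarith
    · rw [hc]; linarith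
  · right; right; left
    have h2 := hvert v (Or.inl hv)
    have hkR : (rgS u : ℝ) = rgS v := by rw [hk]
    have ha : a = 2 - t := by rw [hx, hu, hv]; push_cast; ring
    have hc : c = rgS v * a := by rw [hy, hu, hv, hkR, ha]; push_cast; ring
    have ha0 : 0 < a := by linarith
    refine ⟨ha0, by linarith, ?_, ?_, hc, Or.inl ⟨hu, hv, hk, by linarith⟩⟩
    · rw [hc]; exact mul_nonneg h2.1 ha0.le
    · rw [hc]; exact mul_le_mul_of_nonneg_right h2.2 ha0.le
  · right; right; left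
    have h2 := hvert v (Or.inr hv)
    have ha : a = 2 * t := by rw [hx, rgXH, hv]; push_cast; ring
    have hc : c = rgS v * a := by rw [hy, rgXH, rgSH, hv, ha]; push_cast; ring
    have ha0 : 0 < a := by linarith
    refine ⟨ha0, by linarith, ?_, ?_, hc, Or.inr (Or.inl ⟨rfl, hv, i, hk⟩)⟩
    · rw [hc]; exact mul_nonneg h2.1 ha0.le
    · rw [hc]; exact mul_le_mul_of_nonneg_right h2.2 ha0.le
  · right; right; left
    have h2 := hvert v (Or.inl hv)
    have ha : a = t := by rw [hx, rgXH, hv]; push_cast; ring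
    have hc : c = rgS v * a := by rw [hy, rgXH, rgSH, hv, ha]; push_cast; ring
    have ha0 : 0 < a := by linarith
    refine ⟨ha0, by linarith, ?_, ?_, hc, Or.inr (Or.inr ⟨rfl, hv, by linarith⟩)⟩
    · rw [hc]; exact mul_nonneg h2.1 ha0.le
    · rw [hc]; exact mul_le_mul_of_nonneg_right h2.2 ha0.le
  · right; right; right; left
    have ha : a = -t := by rw [hx, rgXH, rgXE]; push_cast; ring
    have hc : c = a := by rw [hy, rgXH, rgSH, rgXE, rgSE, ha]; push_cast; ring
    exact ⟨by linarith, by linarith, hc, rfl, rfl⟩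
  · right; right; right; right; left
    have ha : a = 3 * t - 1 := by rw [hx, rgXE, hv]; push_cast; ring
    have hc : c = t - 1 := by rw [hy, rgXE, rgSE, hv, hk]; push_cast; ring
    exact ⟨by linarith, by linarith, by linarith, by linarith, rfl, hv, hk⟩
  · right; right; right; right; right
    have hkR : (rgS v : ℝ) = (L : ℝ) * (N + 1) := by rw [hk]; push_cast; ring
    have ha : a = 3 * t - 1 := by rw [hx, rgXE, hv]; push_cast; ring
    have hc : c = t - 1 + 2 * ((L : ℝ) * (N + 1)) * t := by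
      rw [hy, rgXE, rgSE, hv, hkR]; push_cast; ring
    generalize (L : ℝ) * (N + 1) = M at hM hc
    have e1 : 0 < (M - 1) * (1 - t) := mul_pos (by linarith) (by linarith)
    have e2 : 0 < (M - 1) * t := mul_pos (by linarith) ht0
    have e3 : 0 < M * t := mul_pos (by linarith) ht0
    refine ⟨by linarith, by linarith, ?_, ?_, ?_, rfl, hv, hk⟩
    · rw [ha, hc]; nlinarith
    · rw [ha, hc]; nlinarith
    · rw [ha, hc]; nlinarith

/-- `z` is not strictly between `p` and `q` -/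
def rgNb (p q z : ℝ) : Prop :=
  ∀ τ : ℝ, 0 ≤ τ → τ ≤ 1 → z = (1 - τ) * p + τ * q → z = p ∨ z = q

theorem rgNb_symm {p q z : ℝ} (h : rgNb p q z) : rgNb q p z := by
  intro τ h0 h1 hz
  exact (h (1 - τ) (by linarith) (by linarith) (by rw [hz]; ring)).symm

theorem rgNb_out {p q z : ℝ} (h : rgNb p q z) (hpq : p < q) : z ≤ p ∨ q ≤ z := by
  by_contra hcon
  push Not at hcon
  obtain ⟨h1, h2⟩ := hcon
  have hpos : 0 < q - p := by linarith
  rcases h ((z - p) / (q - p)) (div_nonneg (by linarith) hpos.le)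
    (by rw [div_le_one hpos]; linarith) (by field_simp; ring) with h3 | h3 <;> linarith

theorem rg_seg_lt {p q p' q' m : ℝ} (hpq : p < q) (hpq' : p' < q')
    (hm1 : p < m) (hm2 : m < q) (hm1' : p' < m) (hm2' : m < q')
    (h1 : rgNb p q p') (h2 : rgNb p q q') (h3 : rgNb p' q' p) (h4 : rgNb p' q' q) :
    p = p' ∧ q = q' := by
  rcases rgNb_out h1 hpq with a1 | a1 <;> rcases rgNb_out h2 hpq with a2 | a2 <;>
    rcases rgNb_out h3 hpq' with a3 | a3 <;> rcases rgNb_out h4 hpq' with a4 | a4 <;>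
    first
    | exact ⟨by linarith, by linarith⟩
    | (exfalso; linarith)

theorem rg_seg {p q p' q' t t' : ℝ} (hpq : p ≠ q) (hpq' : p' ≠ q')
    (ht0 : 0 < t) (ht1 : t < 1) (ht0' : 0 < t') (ht1' : t' < 1)
    (hm : (1 - t) * p + t * q = (1 - t') * p' + t' * q')
    (h1 : rgNb p q p') (h2 : rgNb p q q') (h3 : rgNb p' q' p) (h4 : rgNb p' q' q) :
    (p = p' ∧ q = q') ∨ (p = q' ∧ q = p') := by
  rcases lt_or_gt_of_ne hpq with hl | hl <;> rcases lt_or_gt_of_ne hpq' with hl' | hl'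
  · left
    exact rg_seg_lt (m := (1 - t) * p + t * q) hl hl' (by nlinarith) (by nlinarith)
      (by rw [hm]; nlinarith) (by rw [hm]; nlinarith) h1 h2 h3 h4
  · right
    have := rg_seg_lt (m := (1 - t) * p + t * q) hl hl' (by nlinarith) (by nlinarith)
      (by rw [hm]; nlinarith) (by rw [hm]; nlinarith) h2 h1 (rgNb_symm h3) (rgNb_symm h4)
    exact this
  · right
    have := rg_seg_lt (m := (1 - t) * p + t * q) hl hl' (by nlinarith) (by nlinarith)
      (by rw [hm]; nlinarith) (by rw [hm]; nlinarith) (rgNb_symm h1) (rgNb_symm h2) h4 h3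
    exact ⟨this.2, this.1⟩
  · left
    have := rg_seg_lt (m := (1 - t) * p + t * q) hl hl' (by nlinarith) (by nlinarith)
      (by rw [hm]; nlinarith) (by rw [hm]; nlinarith) (rgNb_symm h2) (rgNb_symm h1)
      (rgNb_symm h4) (rgNb_symm h3)
    exact ⟨this.2, this.1⟩

/-- edges meet only in vertices -/
theorem rg_B {L b N : ℕ} (hL : 1 ≤ L) (hb : b ≤ L) (hN : 2 ≤ N) (u v x y : VR L b N)
    (h : relR L b N u v) (h' : relR L b N x y) (t t' a c : ℝ) (ht0 : 0 < t) (ht1 : t < 1)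
    (ht0' : 0 < t') (ht1' : t' < 1)
    (hx : a = (1 - t) * rgX u + t * rgX v)
    (hy : c = (1 - t) * (rgX u * rgS u) + t * (rgX v * rgS v))
    (hx' : a = (1 - t') * rgX x + t' * rgX y)
    (hy' : c = (1 - t') * (rgX x * rgS x) + t' * (rgX y * rgS y)) :
    (u = x ∧ v = y) ∨ (u = y ∧ v = x) := by
  have hno : ∀ w : VR L b N, rgX w = 1 → ∀ i : ℕ, rgS w ≠ (i : ℤ) * (N + 1) := by
    intro w hw i hi
    rcases rg_vert hb w with ⟨h1, -⟩ | ⟨-, -, -, i', k', -, hk', hj⟩ | rfl | rfl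
    · omega
    · rw [hj] at hi
      have := rg_div i' (k' + 1) i 0 N hk' (Nat.zero_le _) (by push_cast at hi ⊢; linarith)
      omega
    · rw [rgXH] at hw; norm_num at hw
    · rw [rgXE] at hw; norm_num at hw
  rcases rg_cls hL hb hN u v h t a c ht0 ht1 hx hy with ⟨ha, hu, hv, hne⟩ |
    ⟨ha, hc0, hcM, hu, hv, hs, hl, hr⟩ | ⟨ha0, ha2, hc0, hcM, hca, hk⟩ | ⟨ha1, ha0, hca, hu, hv⟩ |
    ⟨ha1, ha2, hc0, hca, hu, hv, hs⟩ | ⟨ha1, ha2, hcM, hca, hc3, hu, hv, hs⟩ <;>
  rcases rg_cls hL hb hN x y h' t' a c ht0' ht1' hx' hy' with ⟨ga, gu, gv, gne⟩ |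
    ⟨ga, gc0, gcM, gu, gv, gs, gl, gr⟩ | ⟨ga0, ga2, gc0, gcM, gca, gk⟩ | ⟨ga1, ga0, gca, gu, gv⟩ |
    ⟨ga1, ga2, gc0, gca, gu, gv, gs⟩ | ⟨ga1, ga2, gcM, gca, gc3, gu, gv, gs⟩ <;>
  try (exfalso; linarith)
  · -- both on the line 2
    have e1 : (1 - t) * (rgS u : ℝ) + t * rgS v = (1 - t') * rgS x + t' * rgS y := by
      rw [hu, hv] at hy
      rw [gu, gv] at hy'
      push_cast at hy hy'
      linarith
    have nb : ∀ (u v w : VR L b N), relR L b N u v → rgX u = 2 → rgX v = 2 → rgX w = 2 →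
        rgNb (rgS u) (rgS v) (rgS w) := by
      intro u v w huv h1 h2 h3 τ hτ0 hτ1 hz
      rcases rg_A hL hb hN u v w huv τ hτ0 hτ1 (by rw [h1, h2, h3]; push_cast; ring)
        (by rw [h1, h2, h3, hz]; push_cast; ring) with h4 | h4
      · left; rw [h4]
      · right; rw [h4]
    rcases rg_seg (by exact_mod_cast hne) (by exact_mod_cast gne) ht0 ht1 ht0' ht1' e1
      (nb u v x h hu hv gu) (nb u v y h hu hv gv) (nb x y u h' gu gv hu) (nb x y v h' gu gv hv)
      with ⟨f1, f2⟩ | ⟨f1, f2⟩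
    · left
      exact ⟨rg_inj _ _ (by rw [hu, gu]) (by exact_mod_cast f1),
        rg_inj _ _ (by rw [hv, gv]) (by exact_mod_cast f2)⟩
    · right
      exact ⟨rg_inj _ _ (by rw [hu, gv]) (by exact_mod_cast f1),
        rg_inj _ _ (by rw [hv, gu]) (by exact_mod_cast f2)⟩
  · -- both on the line 1
    have e1 : (rgS u : ℝ) < rgS x + 1 := by linarith
    have e2 : (rgS x : ℝ) < rgS u + 1 := by linarith
    have e3 : rgS u < rgS x + 1 := by exact_mod_cast e1
    have e4 : rgS x < rgS u + 1 := by exact_mod_cast e2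
    have e5 : rgS u = rgS x := by omega
    left
    exact ⟨rg_inj _ _ (by rw [hu, gu]) e5, rg_inj _ _ (by rw [hv, gv]) (by rw [hs, gs, e5])⟩
  · -- line 1 and a ray
    exfalso
    rw [ha, mul_one] at gca
    rw [gca] at hl hr
    have e3 : rgS u < rgS y := by exact_mod_cast hl
    have e4 : rgS y < rgS u + 1 := by exact_mod_cast hr
    omega
  · -- a ray and line 1
    exfalso
    rw [ga, mul_one] at hca
    rw [hca] at gl gr
    have e3 : rgS x < rgS v := by exact_mod_cast gl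
    have e4 : rgS v < rgS x + 1 := by exact_mod_cast gr
    omega
  · -- two rays
    have e1 : (rgS v : ℝ) = rgS y := by
      have : (rgS v : ℝ) * a = rgS y * a := by rw [← hca, ← gca]
      exact mul_right_cancel₀ ha0.ne' this
    have e2 : rgS v = rgS y := by exact_mod_cast e1
    rcases hk with ⟨hu, hv, hs, h1⟩ | ⟨hu, hv, i, hs⟩ | ⟨hu, hv, h1⟩ <;>
      rcases gk with ⟨gu, gv, gs, g1⟩ | ⟨gu, gv, j, gs⟩ | ⟨gu, gv, g1⟩
    · left
      exact ⟨rg_inj _ _ (by rw [hu, gu]) (by rw [hs, gs, e2]), rg_inj _ _ (by rw [hv, gv]) e2⟩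
    · exact absurd (e2.trans gs) (hno v hv j)
    · exfalso; linarith
    · exact absurd (e2.symm.trans hs) (hno y gv i)
    · left
      exact ⟨by rw [hu, gu], rg_inj _ _ (by rw [hv, gv]) e2⟩
    · exact absurd (e2.symm.trans hs) (hno y gv i)
    · exfalso; linarith
    · exact absurd (e2.trans gs) (hno v hv j)
    · left
      exact ⟨by rw [hu, gu], rg_inj _ _ (by rw [hv, gv]) e2⟩
  · left; exact ⟨by rw [hu, gu], by rw [hv, gv]⟩
  · left; exact ⟨by rw [hu, gu], rg_inj _ _ (by rw [hv, gv]) (by rw [hs, gs])⟩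
  · left; exact ⟨by rw [hu, gu], rg_inj _ _ (by rw [hv, gv]) (by rw [hs, gs])⟩

/-- the drawing -/
noncomputable def rgf {L b N : ℕ} (v : VR L b N) : ℂ :=
  ⟨(rgX v : ℝ), (rgX v : ℝ) * (rgS v : ℝ)⟩

/-- straight path -/
noncomputable def rgPath (p q : ℂ) : Path p q where
  toFun t := ((1 - (t : ℝ) : ℝ) : ℂ) * p + ((t : ℝ) : ℂ) * q
  continuous_toFun := by fun_prop
  source' := by simp
  target' := by simp

theorem rgPath_re (p q : ℂ) (t : unitInterval) :
    (rgPath p q t).re = (1 - (t : ℝ)) * p.re + (t : ℝ) * q.re := by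
  change (((1 - (t : ℝ) : ℝ) : ℂ) * p + ((t : ℝ) : ℂ) * q).re = _
  rw [Complex.add_re, Complex.re_ofReal_mul, Complex.re_ofReal_mul]

theorem rgPath_im (p q : ℂ) (t : unitInterval) :
    (rgPath p q t).im = (1 - (t : ℝ)) * p.im + (t : ℝ) * q.im := by
  change (((1 - (t : ℝ) : ℝ) : ℂ) * p + ((t : ℝ) : ℂ) * q).im = _
  rw [Complex.add_im, Complex.im_ofReal_mul, Complex.im_ofReal_mul]

theorem rgf_inj {L b N : ℕ} (hb : b ≤ L) : Function.Injective (rgf (L := L) (b := b) (N := N)) := by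
  intro u v huv
  have h1 : (rgX u : ℝ) = rgX v := congrArg Complex.re huv
  have h2 : (rgX u : ℝ) * rgS u = rgX v * rgS v := congrArg Complex.im huv
  have h3 : rgX u = rgX v := by exact_mod_cast h1
  by_cases h0 : rgX u = 0
  · have hz : ∀ w : VR L b N, rgX w = 0 → w = rgH := by
      intro w hw
      rcases rg_vert hb w with ⟨h, -⟩ | ⟨h, -⟩ | h | h
      · omega
      · omega
      · exact h
      · rw [h, rgXE] at hw; norm_num at hw
    rw [hz u h0, hz v (by rw [← h3]; exact h0)]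
  · have h4 : (rgS u : ℝ) = rgS v := by
      rw [h1] at h2
      have h5 : (rgX v : ℝ) ≠ 0 := by
        intro h6
        apply h0
        rw [h3]
        exact_mod_cast h6
      exact mul_left_cancel₀ h5 h2
    exact rg_inj _ _ h3 (by exact_mod_cast h4)

theorem rg_B' {L b N : ℕ} (hL : 1 ≤ L) (hb : b ≤ L) (hN : 2 ≤ N) (u v x y : VR L b N)
    (h : relR L b N u v ∨ relR L b N v u) (h' : relR L b N x y ∨ relR L b N y x) (t t' : ℝ)
    (ht0 : 0 < t) (ht1 : t < 1) (ht0' : 0 < t') (ht1' : t' < 1)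
    (hx : (1 - t) * (rgX u : ℝ) + t * rgX v = (1 - t') * rgX x + t' * rgX y)
    (hy : (1 - t) * ((rgX u : ℝ) * rgS u) + t * (rgX v * rgS v) =
      (1 - t') * (rgX x * rgS x) + t' * (rgX y * rgS y)) : s(u, v) = s(x, y) := by
  rcases h with h | h <;> rcases h' with h' | h'
  · rcases rg_B hL hb hN u v x y h h' t t' _ _ ht0 ht1 ht0' ht1' rfl rfl hx hy with
      ⟨rfl, rfl⟩ | ⟨rfl, rfl⟩
    · rfl
    · exact Sym2.eq_swap
  · rcases rg_B hL hb hN u v y x h h' t (1 - t') _ _ ht0 ht1 (by linarith) (by linarith) rfl rfl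
      (by rw [hx]; ring) (by rw [hy]; ring) with ⟨rfl, rfl⟩ | ⟨rfl, rfl⟩
    · exact Sym2.eq_swap
    · rfl
  · rcases rg_B hL hb hN v u x y h h' (1 - t) t' ((1 - t) * (rgX u : ℝ) + t * rgX v)
      ((1 - t) * ((rgX u : ℝ) * rgS u) + t * (rgX v * rgS v)) (by linarith) (by linarith) ht0' ht1'
      (by ring) (by ring) hx hy with ⟨rfl, rfl⟩ | ⟨rfl, rfl⟩
    · exact Sym2.eq_swap
    · rfl
  · rcases rg_B hL hb hN v u y x h h' (1 - t) (1 - t') ((1 - t) * (rgX u : ℝ) + t * rgX v)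
      ((1 - t) * ((rgX u : ℝ) * rgS u) + t * (rgX v * rgS v)) (by linarith) (by linarith)
      (by linarith) (by linarith)
      (by ring) (by ring) (by rw [hx]; ring) (by rw [hy]; ring) with ⟨rfl, rfl⟩ | ⟨rfl, rfl⟩
    · rfl
    · exact Sym2.eq_swap

/-- TARGET. -/
theorem rg_pla (L b N : ℕ) (hL : 1 ≤ L) (hb : b ≤ L) (hN : 2 ≤ N) : Pla (RG L b N) := by
  refine ⟨rgf, fun u v => rgPath (rgf u) (rgf v), rgf_inj hb, ?_, ?_⟩
  · intro u v huv
    have hadj : u ≠ v ∧ (relR L b N u v ∨ relR L b N v u) := (SimpleGraph.fromRel_adj _ _ _).1 huv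
    refine ⟨?_, ?_⟩
    · intro t t' htt
      have h1 := congrArg Complex.re htt
      have h2 := congrArg Complex.im htt
      simp only [rgPath_re, rgPath_im] at h1 h2
      have h3 : ((t : ℝ) - t') * ((rgf v).re - (rgf u).re) = 0 := by linarith
      have h4 : ((t : ℝ) - t') * ((rgf v).im - (rgf u).im) = 0 := by linarith
      by_contra hne
      have h5 : (t : ℝ) - t' ≠ 0 := by
        intro h6
        exact hne (Subtype.ext (by linarith))
      have h6 := (mul_eq_zero.1 h3).resolve_left h5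
      have h7 := (mul_eq_zero.1 h4).resolve_left h5
      apply hadj.1
      apply rgf_inj hb
      apply Complex.ext <;> linarith
    · intro t w htw
      have h1 := congrArg Complex.re htw
      have h2 := congrArg Complex.im htw
      simp only [rgPath_re, rgPath_im] at h1 h2
      simp only [rgf] at h1 h2
      rcases hadj.2 with h | h
      · exact rg_A hL hb hN u v w h t t.2.1 t.2.2 h1.symm h2.symm
      · have := rg_A hL hb hN v u w h (1 - t) (by linarith [t.2.2]) (by linarith [t.2.1])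
          (by rw [← h1]; ring) (by rw [← h2]; ring)
        exact this.symm
  · intro u v x y huv hxy hne a c hac
    have hadj : u ≠ v ∧ (relR L b N u v ∨ relR L b N v u) := (SimpleGraph.fromRel_adj _ _ _).1 huv
    have hadj' : x ≠ y ∧ (relR L b N x y ∨ relR L b N y x) := (SimpleGraph.fromRel_adj _ _ _).1 hxy
    rcases eq_or_lt_of_le a.2.1 with ha | ha
    · refine ⟨u, ?_⟩
      have : a = 0 := Subtype.ext ha.symm
      rw [this]
      exact Path.source _
    rcases eq_or_lt_of_le a.2.2 with ha1 | ha1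
    · refine ⟨v, ?_⟩
      have : a = 1 := Subtype.ext ha1
      rw [this]
      exact Path.target _
    rcases eq_or_lt_of_le c.2.1 with hc | hc
    · refine ⟨x, ?_⟩
      have : c = 0 := Subtype.ext hc.symm
      rw [hac, this]
      exact Path.source _
    rcases eq_or_lt_of_le c.2.2 with hc1 | hc1
    · refine ⟨y, ?_⟩
      have : c = 1 := Subtype.ext hc1
      rw [hac, this]
      exact Path.target _
    exfalso
    apply hne
    have h1 := congrArg Complex.re hac
    have h2 := congrArg Complex.im hac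
    simp only [rgPath_re, rgPath_im] at h1 h2
    simp only [rgf] at h1 h2
    exact rg_B' hL hb hN u v x y hadj.2 hadj'.2 a c ha ha1 hc hc1 h1 h2


end Pool.Agent.Helper759.Chrom.Ring
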