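import Mathlib
import Pool.Agent.Helper759.ChromDefs
import Pool.Agent.Helper759.ChromA
import Pool.Agent.Helper759.RingDefs
set_option autoImplicit false
open Classical Filter Topology

namespace Pool.Agent.Helper759.Chrom.Ring
/-- TARGET. -/
theorem ana_log (G H : ℂ → ℂ) (z₀ : ℂ) (hG : AnalyticAt ℂ G z₀) (hH : AnalyticAt ℂ H z₀)
    (α β : ℝ) (hα : 0 < α) (hβ : 0 < β) (hre : β * (G z₀).re + α * (H z₀).re = 0)
    (hne : ¬ ∀ᶠ z in 𝓝 z₀, (β : ℂ) * G z + (α : ℂ) * H z = (β : ℂ) * G z₀ + (α : ℂ) * H z₀)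
    (ε : ℝ) (hε : 0 < ε) :
    ∃ p b : ℕ, 1 ≤ p ∧ 1 ≤ b ∧ ∃ z ∈ Metric.ball z₀ ε, ∃ k : ℤ,
      (p : ℂ) * G z + (b : ℂ) * H z = 2 * Real.pi * Complex.I * k := by
  have hGe := hG.eventually_analyticAt
  have hHe := hH.eventually_analyticAt
  obtain ⟨h, hh⟩ : ∃ h : ℂ → ℂ, h = fun z => (β : ℂ) * G z + (α : ℂ) * H z := ⟨_, rfl⟩
  have hhz : ∀ z, h z = (β : ℂ) * G z + (α : ℂ) * H z := fun z => by rw [hh]
  have hha : AnalyticAt ℂ h z₀ := by
    rw [hh]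
    exact (analyticAt_const.mul hG).add (analyticAt_const.mul hH)
  have hne2 : ∀ᶠ z in 𝓝[≠] z₀, h z ≠ h z₀ := by
    rcases AnalyticAt.eventually_eq_or_eventually_ne hha
      (analyticAt_const (v := h z₀)) with h1 | h1
    · exfalso
      apply hne
      filter_upwards [h1] with z hz
      rw [← hhz, ← hhz]
      exact hz
    · exact h1
  rw [eventually_nhdsWithin_iff] at hne2
  obtain ⟨R, hR, hball⟩ := Metric.eventually_nhds_iff_ball.1 ((hGe.and hHe).and hne2)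
  obtain ⟨r, hr⟩ : ∃ r, r = min (R / 2) (ε / 2) := ⟨_, rfl⟩
  have hr0 : 0 < r := by rw [hr]; exact lt_min (by linarith) (by linarith)
  have hrR : r < R := by
    have := min_le_left (R / 2) (ε / 2)
    rw [← hr] at this
    linarith
  have hre' : r < ε := by
    have := min_le_right (R / 2) (ε / 2)
    rw [← hr] at this
    linarith
  have hcb : Metric.closedBall z₀ r ⊆ Metric.ball z₀ R := Metric.closedBall_subset_ball hrR
  have hGc : ContinuousOn G (Metric.closedBall z₀ r) :=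
    fun z hz => ((hball z (hcb hz)).1.1).continuousAt.continuousWithinAt
  have hHc : ContinuousOn H (Metric.closedBall z₀ r) :=
    fun z hz => ((hball z (hcb hz)).1.2).continuousAt.continuousWithinAt
  have hhc : ContinuousOn h (Metric.closedBall z₀ r) := by
    rw [hh]
    exact (continuousOn_const.mul hGc).add (continuousOn_const.mul hHc)
  obtain ⟨CG, hCG⟩ := (isCompact_closedBall z₀ r).exists_bound_of_continuousOn hGc
  obtain ⟨CH, hCH⟩ := (isCompact_closedBall z₀ r).exists_bound_of_continuousOn hHc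
  have hz0 : z₀ ∈ Metric.closedBall z₀ r := Metric.mem_closedBall_self hr0.le
  have hCG0 : 0 ≤ CG := (norm_nonneg _).trans (hCG z₀ hz0)
  have hCH0 : 0 ≤ CH := (norm_nonneg _).trans (hCH z₀ hz0)
  have hsph : (Metric.sphere z₀ r).Nonempty := NormedSpace.sphere_nonempty.2 hr0.le
  have hsc : Metric.sphere z₀ r ⊆ Metric.closedBall z₀ r := Metric.sphere_subset_closedBall
  obtain ⟨w, hw, hmin⟩ := (isCompact_sphere z₀ r).exists_isMinOn hsph
    (f := fun z => ‖h z - h z₀‖) (((hhc.mono hsc).sub continuousOn_const).norm)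
  have hwne : h w ≠ h z₀ := by
    apply (hball w (hcb (hsc hw))).2
    intro h0
    have h0' : w = z₀ := h0
    rw [h0', Metric.mem_sphere, dist_self] at hw
    linarith
  obtain ⟨m, hm⟩ : ∃ m, m = ‖h w - h z₀‖ := ⟨_, rfl⟩
  have hm0 : 0 < m := by rw [hm]; exact norm_pos_iff.2 (sub_ne_zero.2 hwne)
  have hmle : ∀ z ∈ Metric.sphere z₀ r, m ≤ ‖h z - h z₀‖ := by
    intro z hz
    rw [hm]
    exact hmin hz
  obtain ⟨C, hC⟩ : ∃ C, C = CG + CH := ⟨_, rfl⟩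
  have hC0 : 0 ≤ C := by rw [hC]; linarith
  have hpi := Real.pi_pos
  obtain ⟨t, ht⟩ := exists_nat_gt ((4 * C + 2 * Real.pi) / m + 1 / β + 1 / α)
  have hq1 : 0 < (4 * C + 2 * Real.pi) / m := by positivity
  have hq2 : 0 < 1 / β := by positivity
  have hq3 : 0 < 1 / α := by positivity
  have htm : 4 * C + 2 * Real.pi < t * m := by
    have : (4 * C + 2 * Real.pi) / m < t := by linarith
    rwa [div_lt_iff₀ hm0] at this
  have htβ : 1 ≤ (t : ℝ) * β := by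
    have : 1 / β < t := by linarith
    rw [div_lt_iff₀ hβ] at this
    exact this.le
  have htα : 1 ≤ (t : ℝ) * α := by
    have : 1 / α < t := by linarith
    rw [div_lt_iff₀ hα] at this
    exact this.le
  obtain ⟨p, hp⟩ : ∃ p : ℕ, p = ⌊(t : ℝ) * β⌋₊ := ⟨_, rfl⟩
  obtain ⟨b, hb⟩ : ∃ b : ℕ, b = ⌊(t : ℝ) * α⌋₊ := ⟨_, rfl⟩
  have hp1 : 1 ≤ p := by rw [hp]; exact Nat.le_floor (by simpa using htβ)
  have hb1 : 1 ≤ b := by rw [hb]; exact Nat.le_floor (by simpa using htα)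
  have hpl : |(p : ℝ) - t * β| ≤ 1 := by
    have h1 := Nat.floor_le (show 0 ≤ (t : ℝ) * β by linarith)
    have h2 := Nat.lt_floor_add_one ((t : ℝ) * β)
    rw [← hp] at h1 h2
    rw [abs_le]
    constructor <;> linarith
  have hbl : |(b : ℝ) - t * α| ≤ 1 := by
    have h1 := Nat.floor_le (show 0 ≤ (t : ℝ) * α by linarith)
    have h2 := Nat.lt_floor_add_one ((t : ℝ) * α)
    rw [← hb] at h1 h2
    rw [abs_le]
    constructor <;> linarith
  obtain ⟨f, hf⟩ : ∃ f : ℂ → ℂ, f = fun z => (p : ℂ) * G z + (b : ℂ) * H z := ⟨_, rfl⟩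
  have hfz : ∀ z, f z = (p : ℂ) * G z + (b : ℂ) * H z := fun z => by rw [hf]
  obtain ⟨E, hE⟩ : ∃ E : ℂ → ℂ, E = fun z => (((p : ℝ) - t * β : ℝ) : ℂ) * G z
      + (((b : ℝ) - t * α : ℝ) : ℂ) * H z := ⟨_, rfl⟩
  have hEz : ∀ z, E z = (((p : ℝ) - t * β : ℝ) : ℂ) * G z
      + (((b : ℝ) - t * α : ℝ) : ℂ) * H z := fun z => by rw [hE]
  have hfE : ∀ z, f z = t * h z + E z := by
    intro z
    rw [hfz, hhz, hEz]
    push_cast
    ring
  have hEb : ∀ z ∈ Metric.closedBall z₀ r, ‖E z‖ ≤ C := by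
    intro z hz
    rw [hEz, hC]
    refine (norm_add_le _ _).trans (add_le_add ?_ ?_)
    · rw [norm_mul, Complex.norm_real, Real.norm_eq_abs]
      calc |(p : ℝ) - t * β| * ‖G z‖ ≤ 1 * ‖G z‖ :=
            mul_le_mul_of_nonneg_right hpl (norm_nonneg _)
        _ ≤ CG := by rw [one_mul]; exact hCG z hz
    · rw [norm_mul, Complex.norm_real, Real.norm_eq_abs]
      calc |(b : ℝ) - t * α| * ‖H z‖ ≤ 1 * ‖H z‖ :=
            mul_le_mul_of_nonneg_right hbl (norm_nonneg _)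
        _ ≤ CH := by rw [one_mul]; exact hCH z hz
  have hsphf : ∀ z ∈ Metric.sphere z₀ r, t * m - 2 * C ≤ ‖f z - f z₀‖ := by
    intro z hz
    have h1 : f z - f z₀ = t * (h z - h z₀) + (E z - E z₀) := by
      rw [hfE, hfE]; ring
    have h2 : ‖(t : ℂ) * (h z - h z₀)‖ ≤ ‖f z - f z₀‖ + ‖E z - E z₀‖ := by
      have h3 : (t : ℂ) * (h z - h z₀) = (f z - f z₀) - (E z - E z₀) := by
        rw [h1]; ring
      rw [h3]
      exact norm_sub_le _ _
    have h4 : ‖E z - E z₀‖ ≤ 2 * C := by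
      refine (norm_sub_le _ _).trans ?_
      have h5 := hEb z (hsc hz)
      have h6 := hEb z₀ hz0
      linarith
    have h7 : (t : ℝ) * m ≤ ‖(t : ℂ) * (h z - h z₀)‖ := by
      rw [norm_mul, Complex.norm_natCast]
      exact mul_le_mul_of_nonneg_left (hmle z hz) (Nat.cast_nonneg _)
    linarith
  have hfa : ∀ z ∈ Metric.ball z₀ R, AnalyticAt ℂ f z := by
    intro z hz
    rw [hf]
    exact (analyticAt_const.mul (hball z hz).1.1).add (analyticAt_const.mul (hball z hz).1.2)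
  have hdc : DiffContOnCl ℂ f (Metric.ball z₀ r) := by
    constructor
    · intro z hz
      exact (hfa z (hcb (Metric.ball_subset_closedBall hz))).differentiableAt.differentiableWithinAt
    · intro z hz
      have hz' := Metric.closure_ball_subset_closedBall hz
      exact (hfa z (hcb hz')).continuousAt.continuousWithinAt
  have hfreq : ∃ᶠ z in 𝓝 z₀, f z ≠ f z₀ := by
    intro hcon
    have hcon' : f =ᶠ[𝓝 z₀] fun _ => f z₀ := by
      filter_upwards [hcon] with z hz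
      by_contra h0
      exact hz h0
    have hon : AnalyticOnNhd ℂ f (Metric.ball z₀ R) := fun z hz => hfa z hz
    have hid := hon.eqOn_of_preconnected_of_eventuallyEq
      (analyticOnNhd_const (v := f z₀) (s := Metric.ball z₀ R))
      (convex_ball z₀ R).isPreconnected (Metric.mem_ball_self hR) hcon'
    have h1 := hid (hcb (hsc hw))
    have h2 := hsphf w hw
    have h3 : f w - f z₀ = 0 := by
      have h4 : f w = f z₀ := h1
      rw [h4, sub_self]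
    rw [h3, norm_zero] at h2
    linarith
  have hsub := hdc.ball_subset_image_closedBall hr0 hsphf hfreq
  obtain ⟨k, hk⟩ : ∃ k : ℤ, k = round ((f z₀).im / (2 * Real.pi)) := ⟨_, rfl⟩
  have hk1 : |(f z₀).im / (2 * Real.pi) - k| ≤ 1 / 2 := by
    rw [hk]; exact abs_sub_round _
  have hk2 : |(f z₀).im - 2 * Real.pi * k| ≤ Real.pi := by
    have h1 : (f z₀).im - 2 * Real.pi * k = (2 * Real.pi) * ((f z₀).im / (2 * Real.pi) - k) := by
      field_simp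
    rw [h1, abs_mul, abs_of_pos (by positivity : (0 : ℝ) < 2 * Real.pi)]
    nlinarith
  have hre2 : |(f z₀).re| ≤ C := by
    have h1 : (h z₀).re = 0 := by
      rw [hhz]
      simpa using hre
    have h2 : (f z₀).re = (E z₀).re := by
      rw [hfE]
      simp [h1]
    rw [h2]
    exact (Complex.abs_re_le_norm _).trans (hEb z₀ hz0)
  have hmem : (2 * Real.pi * Complex.I * k : ℂ) ∈ Metric.ball (f z₀) ((t * m - 2 * C) / 2) := by
    rw [Metric.mem_ball, dist_comm, dist_eq_norm]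
    have h1 : ‖f z₀ - 2 * Real.pi * Complex.I * k‖ ≤
        |(f z₀ - 2 * Real.pi * Complex.I * k).re| + |(f z₀ - 2 * Real.pi * Complex.I * k).im| :=
      Complex.norm_le_abs_re_add_abs_im _
    have h2 : (f z₀ - 2 * Real.pi * Complex.I * k).re = (f z₀).re := by
      simp
    have h3 : (f z₀ - 2 * Real.pi * Complex.I * k).im = (f z₀).im - 2 * Real.pi * k := by
      simp
    rw [h2, h3] at h1
    linarith
  obtain ⟨z, hz, hzk⟩ := hsub hmem
  refine ⟨p, b, hp1, hb1, z, ?_, k, ?_⟩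
  · rw [Metric.mem_ball]
    rw [Metric.mem_closedBall] at hz
    linarith
  · rw [← hfz]
    exact hzk



theorem ana_branch (g : ℂ → ℂ) (z₀ : ℂ) (hg : AnalyticAt ℂ g z₀) (hg0 : g z₀ ≠ 0) :
    ∃ G : ℂ → ℂ, AnalyticAt ℂ G z₀ ∧ (∀ᶠ z in 𝓝 z₀, Complex.exp (G z) = g z) ∧
      (G z₀).re = Real.log ‖g z₀‖ ∧ ∀ᶠ z in 𝓝 z₀, HasDerivAt G (deriv g z / g z) z := by
  have hq : AnalyticAt ℂ (fun z => g z / g z₀) z₀ := hg.div analyticAt_const hg0
  have h1 : (fun z => g z / g z₀) z₀ ∈ Complex.slitPlane := by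
    simp only [div_self hg0]
    exact Complex.one_mem_slitPlane
  have hev : ∀ᶠ z in 𝓝 z₀, g z / g z₀ ∈ Complex.slitPlane :=
    hq.continuousAt.eventually_mem (Complex.isOpen_slitPlane.mem_nhds h1)
  have hev0 : ∀ᶠ z in 𝓝 z₀, g z ≠ 0 := hg.continuousAt.eventually_ne hg0
  refine ⟨fun z => Complex.log (g z / g z₀) + Complex.log (g z₀), (hq.clog h1).add analyticAt_const,
    ?_, ?_, ?_⟩
  · filter_upwards [hev0] with z hz
    rw [Complex.exp_add, Complex.exp_log (div_ne_zero hz hg0), Complex.exp_log hg0]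
    field_simp
  · simp only [div_self hg0, Complex.log_one, zero_add, Complex.log_re]
  · filter_upwards [hev, hev0, hg.eventually_analyticAt] with z hz hz0 hza
    have h2 : HasDerivAt (fun w => g w / g z₀) (deriv g z / g z₀) z :=
      hza.differentiableAt.hasDerivAt.div_const _
    have h3 := (h2.clog hz).add_const (Complex.log (g z₀))
    refine h3.congr_deriv ?_
    field_simp

/-- TARGET. -/
theorem ana (g R : ℂ → ℂ) (z₀ : ℂ) (hg : AnalyticAt ℂ g z₀) (hR : AnalyticAt ℂ R z₀)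
    (hg0 : g z₀ ≠ 0) (hR0 : R z₀ ≠ 0)
    (hcase : (‖g z₀‖ < 1 ∧ 1 < ‖R z₀‖) ∨ (1 < ‖g z₀‖ ∧ ‖R z₀‖ < 1))
    (hne : ∀ α β : ℝ, 0 < α → 0 < β →
      ¬ ∀ᶠ z in 𝓝 z₀, (β : ℂ) * (deriv g z / g z) + (α : ℂ) * (deriv R z / R z) = 0)
    (ε : ℝ) (hε : 0 < ε) :
    ∃ p b : ℕ, 1 ≤ p ∧ 1 ≤ b ∧ ∃ z ∈ Metric.ball z₀ ε, g z ^ p * R z ^ b = 1 := by
  obtain ⟨G, hG, hGe, hGr, hGd⟩ := ana_branch g z₀ hg hg0
  obtain ⟨H, hH, hHe, hHr, hHd⟩ := ana_branch R z₀ hR hR0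
  have hng : 0 < ‖g z₀‖ := norm_pos_iff.2 hg0
  have hnR : 0 < ‖R z₀‖ := norm_pos_iff.2 hR0
  obtain ⟨α, β, hα, hβ, hsum⟩ : ∃ α β : ℝ, 0 < α ∧ 0 < β ∧
      β * Real.log ‖g z₀‖ + α * Real.log ‖R z₀‖ = 0 := by
    rcases hcase with ⟨h1, h2⟩ | ⟨h1, h2⟩
    · refine ⟨-Real.log ‖g z₀‖, Real.log ‖R z₀‖, ?_, Real.log_pos h2, by ring⟩
      have := Real.log_neg hng h1
      linarith
    · refine ⟨Real.log ‖g z₀‖, -Real.log ‖R z₀‖, Real.log_pos h1, ?_, by ring⟩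
      have := Real.log_neg hnR h2
      linarith
  have hnc : ¬ ∀ᶠ z in 𝓝 z₀, (β : ℂ) * G z + (α : ℂ) * H z
      = (β : ℂ) * G z₀ + (α : ℂ) * H z₀ := by
    intro hc
    apply hne α β hα hβ
    filter_upwards [hc.eventually_nhds, hGd, hHd] with y hy h1 h2
    have h3 : HasDerivAt (fun z => (β : ℂ) * G z + (α : ℂ) * H z)
        ((β : ℂ) * (deriv g y / g y) + (α : ℂ) * (deriv R y / R y)) y :=
      (h1.const_mul (β : ℂ)).add (h2.const_mul (α : ℂ))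
    have h4 : HasDerivAt (fun z => (β : ℂ) * G z + (α : ℂ) * H z) 0 y :=
      (hasDerivAt_const y ((β : ℂ) * G z₀ + (α : ℂ) * H z₀)).congr_of_eventuallyEq hy
    exact h3.unique h4
  obtain ⟨δ, hδ, hball⟩ := Metric.eventually_nhds_iff_ball.1 (hGe.and hHe)
  obtain ⟨p, b, hp, hb, z, hz, k, hk⟩ := ana_log G H z₀ hG hH α β hα hβ
    (by rw [hGr, hHr]; exact hsum) hnc (min ε δ) (lt_min hε hδ)
  refine ⟨p, b, hp, hb, z, Metric.ball_subset_ball (min_le_left _ _) hz, ?_⟩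
  obtain ⟨e1, e2⟩ := hball z (Metric.ball_subset_ball (min_le_right _ _) hz)
  rw [← e1, ← e2, ← Complex.exp_nat_mul, ← Complex.exp_nat_mul, ← Complex.exp_add, hk,
    Complex.exp_eq_one_iff]
  exact ⟨k, by ring⟩


/-- derivative of `F0` -/
noncomputable def A0x (z : ℂ) (n : ℕ) : ℂ :=
  2 * (n * (z ^ 2 - 3 * z + 3) ^ (n - 1) * (2 * z - 3)) + ((1 - z) ^ n - z * (n * (1 - z) ^ (n - 1)))
    + ((3 - z) ^ n - (z - 2) * (n * (3 - z) ^ (n - 1)))
/-- derivative of `F1` -/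
noncomputable def A1x (z : ℂ) (n : ℕ) : ℂ :=
  ((1 - z) ^ n - (z - 2) * (n * (1 - z) ^ (n - 1))) + ((3 - z) ^ n - z * (n * (3 - z) ^ (n - 1)))
    + 2 * (2 * z - 3)

theorem hd_quad (z : ℂ) : HasDerivAt (fun z : ℂ => z ^ 2 - 3 * z + 3) (2 * z - 3) z := by
  have h1 : HasDerivAt (fun z : ℂ => z ^ 2) (2 * z) z := by
    simpa using hasDerivAt_pow 2 z
  have h2 : HasDerivAt (fun z : ℂ => 3 * z) 3 z := by
    simpa using (hasDerivAt_id z).const_mul (3:ℂ)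
  exact (h1.sub h2).add_const 3

theorem hd_F0 (z : ℂ) (n : ℕ) : HasDerivAt (fun z : ℂ => F0 z n) (A0x z n) z := by
  have hq := (hd_quad z).pow n
  have h1 : HasDerivAt (fun z : ℂ => 1 - z) (-1) z := by
    simpa using (hasDerivAt_id z).const_sub (1:ℂ)
  have h3 : HasDerivAt (fun z : ℂ => 3 - z) (-1) z := by
    simpa using (hasDerivAt_id z).const_sub (3:ℂ)
  have h2 : HasDerivAt (fun z : ℂ => z - 2) 1 z := by
    simpa using (hasDerivAt_id z).sub_const (2:ℂ)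
  have hz : HasDerivAt (fun z : ℂ => z) 1 z := hasDerivAt_id z
  have := ((hq.const_mul (2:ℂ)).add (hz.mul (h1.pow n))).add (h2.mul (h3.pow n))
  unfold F0
  refine HasDerivAt.congr_deriv (f' := _) this ?_
  unfold A0x
  simp only [Pi.pow_apply]
  ring

theorem hd_F1 (z : ℂ) (n : ℕ) : HasDerivAt (fun z : ℂ => F1 z n) (A1x z n) z := by
  have hq : HasDerivAt (fun z : ℂ => z ^ 2 - 3 * z + 1) (2 * z - 3) z := by
    have h1 : HasDerivAt (fun z : ℂ => z ^ 2) (2 * z) z := by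
      simpa using hasDerivAt_pow 2 z
    have h2 : HasDerivAt (fun z : ℂ => 3 * z) 3 z := by
      simpa using (hasDerivAt_id z).const_mul (3:ℂ)
    exact (h1.sub h2).add_const 1
  have h1 : HasDerivAt (fun z : ℂ => 1 - z) (-1) z := by
    simpa using (hasDerivAt_id z).const_sub (1:ℂ)
  have h3 : HasDerivAt (fun z : ℂ => 3 - z) (-1) z := by
    simpa using (hasDerivAt_id z).const_sub (3:ℂ)
  have h2 : HasDerivAt (fun z : ℂ => z - 2) 1 z := by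
    simpa using (hasDerivAt_id z).sub_const (2:ℂ)
  have hz : HasDerivAt (fun z : ℂ => z) 1 z := hasDerivAt_id z
  have := ((h2.mul (h1.pow n)).add (hz.mul (h3.pow n))).add (hq.const_mul (2:ℂ))
  unfold F1
  refine HasDerivAt.congr_deriv (f' := _) this ?_
  unfold A1x
  simp only [Pi.pow_apply]
  ring

/-- TARGET. -/
theorem nonconst (z₀ : ℂ) (n : ℕ) (hn : 2 ≤ n) (hz : z₀ ≠ 2) (h0 : F0 z₀ n ≠ 0) (h1 : F1 z₀ n ≠ 0)
    (α β : ℝ) (hα : 0 < α) (hβ : 0 < β) :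
    ¬ ∀ᶠ z in 𝓝 z₀, (β : ℂ) * (deriv (fun z : ℂ => 2 - z) z / (2 - z)) +
      (α : ℂ) * (deriv (fun z : ℂ => (z - 2) * F0 z n / F1 z n) z / ((z - 2) * F0 z n / F1 z n)) = 0 := by
  intro hev
  obtain ⟨Φ, hΦ⟩ : ∃ Φ : ℂ → ℂ, Φ = fun z => ((β : ℂ) + α) * (F0 z n * F1 z n) +
    (α : ℂ) * (z - 2) * (A0x z n * F1 z n - F0 z n * A1x z n) := ⟨_, rfl⟩
  have dF0 : Differentiable ℂ (fun z => F0 z n) := fun z => (hd_F0 z n).differentiableAt
  have dF1 : Differentiable ℂ (fun z => F1 z n) := fun z => (hd_F1 z n).differentiableAt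
  have dA0 : Differentiable ℂ (fun z => A0x z n) := by unfold A0x; fun_prop
  have dA1 : Differentiable ℂ (fun z => A1x z n) := by unfold A1x; fun_prop
  have dΦ : Differentiable ℂ Φ := by
    rw [hΦ]
    fun_prop
  have e1 : ∀ᶠ z in 𝓝 z₀, z ≠ 2 := isOpen_ne.mem_nhds hz
  have e2 : ∀ᶠ z in 𝓝 z₀, F0 z n ≠ 0 := dF0.continuous.continuousAt.eventually_ne h0
  have e3 : ∀ᶠ z in 𝓝 z₀, F1 z n ≠ 0 := dF1.continuous.continuousAt.eventually_ne h1
  have hzero : Φ =ᶠ[𝓝 z₀] (fun _ => (0:ℂ)) := by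
    filter_upwards [hev, e1, e2, e3] with z hz1 hz2 hz3 hz4
    have h2 : HasDerivAt (fun z : ℂ => z - 2) 1 z := by
      simpa using (hasDerivAt_id z).sub_const (2:ℂ)
    have h2' : HasDerivAt (fun z : ℂ => 2 - z) (-1) z := by
      simpa using (hasDerivAt_id z).const_sub (2:ℂ)
    have hg : HasDerivAt (fun z : ℂ => (z - 2) * F0 z n / F1 z n)
        (((1 * F0 z n + (z - 2) * A0x z n) * F1 z n - (z - 2) * F0 z n * A1x z n) / (F1 z n) ^ 2) z :=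
      (h2.mul (hd_F0 z n)).div (hd_F1 z n) hz4
    rw [h2'.deriv, hg.deriv] at hz1
    have hz2' : z - 2 ≠ 0 := sub_ne_zero.2 hz2
    have hz2'' : 2 - z ≠ 0 := sub_ne_zero.2 (Ne.symm hz2)
    rw [hΦ]
    have : ((β : ℂ) * (-1 / (2 - z)) + (α : ℂ) * (((1 * F0 z n + (z - 2) * A0x z n) * F1 z n -
      (z - 2) * F0 z n * A1x z n) / (F1 z n) ^ 2 / ((z - 2) * F0 z n / F1 z n))) *
      ((z - 2) * F0 z n * F1 z n) = ((β : ℂ) + α) * (F0 z n * F1 z n) +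
    (α : ℂ) * (z - 2) * (A0x z n * F1 z n - F0 z n * A1x z n) := by
      have e : (-1 : ℂ) / (2 - z) = 1 / (z - 2) := by
        rw [div_eq_div_iff hz2'' hz2']; ring
      rw [e]
      field_simp
      ring
    show ((β : ℂ) + α) * (F0 z n * F1 z n) +
      (α : ℂ) * (z - 2) * (A0x z n * F1 z n - F0 z n * A1x z n) = 0
    rw [← this, hz1, zero_mul]
  have han : AnalyticOnNhd ℂ Φ Set.univ := fun z _ => dΦ.analyticAt z
  have hall : Φ = fun _ => (0:ℂ) := han.eq_of_eventuallyEq (fun z _ => analyticAt_const) hzero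
  have h1v := congrFun hall 1
  rw [hΦ] at h1v
  obtain ⟨m, rfl⟩ : ∃ m, n = m + 2 := ⟨n - 2, by omega⟩
  have hF0 : F0 1 (m + 2) = 2 - 2 ^ (m + 2) := by
    unfold F0; norm_num; ring
  have hF1 : F1 1 (m + 2) = 2 ^ (m + 2) - 2 := by
    unfold F1; norm_num; ring
  have hA0 : A0x 1 (m + 2) = -2 * (m + 2) + 2 ^ (m + 2) + (m + 2) * 2 ^ (m + 1) := by
    unfold A0x; norm_num [show m + 2 - 1 = m + 1 by omega]; ring
  have hA1 : A1x 1 (m + 2) = 2 ^ (m + 2) - (m + 2) * 2 ^ (m + 1) - 2 := by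
    unfold A1x; norm_num [show m + 2 - 1 = m + 1 by omega]; ring
  simp only [hF0, hF1, hA0, hA1] at h1v
  have hR : ((-( (β + α) * (2 ^ (m + 2) - 2) ^ 2) - α * (2 ^ (m + 2) - 2) * (2 * 2 ^ (m + 2) - 2 * (m + 2) - 2) : ℝ) : ℂ) = 0 := by
    rw [← h1v]
    push_cast
    ring
  have hR' := Complex.ofReal_eq_zero.1 hR
  have hpow : (m : ℝ) + 3 ≤ 2 ^ (m + 2) := by
    have : ∀ m : ℕ, m + 3 ≤ 2 ^ (m + 2) := by
      intro m
      induction m with
      | zero => norm_num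
      | succ k ih => rw [show k + 1 + 2 = (k + 2) + 1 by ring, pow_succ]; omega
    exact_mod_cast this m
  have hm0 : (0:ℝ) ≤ m := Nat.cast_nonneg m
  have hp1 : (0:ℝ) < 2 ^ (m + 2) - 2 := by linarith
  have hp2 : (0:ℝ) ≤ 2 * 2 ^ (m + 2) - 2 * (m + 2) - 2 := by linarith
  have t1 : 0 < (β + α) * ((2:ℝ) ^ (m + 2) - 2) ^ 2 := by positivity
  have t2 : 0 ≤ α * ((2:ℝ) ^ (m + 2) - 2) * (2 * 2 ^ (m + 2) - 2 * (m + 2) - 2) :=
    mul_nonneg (mul_nonneg hα.le hp1.le) hp2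
  linarith




theorem rd_analytic0 (n : ℕ) (z₀ : ℂ) : AnalyticAt ℂ (fun z => F0 z n) z₀ := by
  unfold F0
  fun_prop

theorem rd_analytic1 (n : ℕ) (z₀ : ℂ) : AnalyticAt ℂ (fun z => F1 z n) z₀ := by
  unfold F1
  fun_prop

/-- TARGET. -/
theorem ring_dense (z₀ : ℂ) (n : ℕ) (hn : 2 ≤ n) (hz0 : z₀ ≠ 0) (hz : z₀ ≠ 2)
    (h0 : F0 z₀ n ≠ 0) (h1 : F1 z₀ n ≠ 0)
    (hcase : (‖z₀ - 2‖ < 1 ∧ ‖F1 z₀ n‖ < ‖z₀ - 2‖ * ‖F0 z₀ n‖) ∨
      (1 < ‖z₀ - 2‖ ∧ ‖z₀ - 2‖ * ‖F0 z₀ n‖ < ‖F1 z₀ n‖))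
    (ε : ℝ) (hε : 0 < ε) :
    ∃ L b : ℕ, 1 ≤ L ∧ b ≤ L ∧ ∃ z ∈ Metric.ball z₀ ε, z ≠ 0 ∧ z ≠ 2 ∧
      (z - 2) ^ (L + 1) * F0 z n ^ b + (-1) ^ (L + b) * F1 z n ^ b = 0 := by
  have hF1pos : 0 < ‖F1 z₀ n‖ := norm_pos_iff.mpr h1
  have hev : ∀ᶠ z in 𝓝 z₀, z ≠ 0 ∧ z ≠ 2 ∧ F1 z n ≠ 0 := by
    refine (isOpen_ne.eventually_mem hz0).and ((isOpen_ne.eventually_mem hz).and ?_)
    exact (rd_analytic1 n z₀).continuousAt.eventually_ne h1
  obtain ⟨δ, hδ, hball⟩ := Metric.eventually_nhds_iff_ball.mp hev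
  have hz2 : z₀ - 2 ≠ 0 := sub_ne_zero.mpr hz
  have hz2' : 2 - z₀ ≠ 0 := sub_ne_zero.mpr hz.symm
  have hgn : ‖2 - z₀‖ = ‖z₀ - 2‖ := norm_sub_rev _ _
  have hRn : ‖(z₀ - 2) * F0 z₀ n / F1 z₀ n‖ = ‖z₀ - 2‖ * ‖F0 z₀ n‖ / ‖F1 z₀ n‖ := by
    rw [norm_div, norm_mul]
  have hR0 : (z₀ - 2) * F0 z₀ n / F1 z₀ n ≠ 0 := div_ne_zero (mul_ne_zero hz2 h0) h1
  have hgA : AnalyticAt ℂ (fun z : ℂ => 2 - z) z₀ := by fun_prop
  have hRA : AnalyticAt ℂ (fun z : ℂ => (z - 2) * F0 z n / F1 z n) z₀ := by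
    have a0 := rd_analytic0 n z₀
    have a1 := rd_analytic1 n z₀
    exact (AnalyticAt.mul (by fun_prop) a0).div a1 h1
  obtain ⟨p, b, hp, hb, z, hzb, heq⟩ := ana (fun z : ℂ => 2 - z)
    (fun z : ℂ => (z - 2) * F0 z n / F1 z n) z₀ hgA hRA hz2' hR0
    (by
      show (‖2 - z₀‖ < 1 ∧ 1 < ‖(z₀ - 2) * F0 z₀ n / F1 z₀ n‖) ∨
        (1 < ‖2 - z₀‖ ∧ ‖(z₀ - 2) * F0 z₀ n / F1 z₀ n‖ < 1)
      rw [hgn, hRn]
      rcases hcase with ⟨c1, c2⟩ | ⟨c1, c2⟩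
      · left
        refine ⟨c1, ?_⟩
        rw [one_lt_div hF1pos]; exact c2
      · right
        refine ⟨c1, ?_⟩
        rw [div_lt_one hF1pos]; exact c2)
    (fun α β hα hβ => nonconst z₀ n hn hz h0 h1 α β hα hβ)
    (min ε δ) (lt_min hε hδ)
  have hzε : z ∈ Metric.ball z₀ ε := Metric.ball_subset_ball (min_le_left _ _) hzb
  have hzδ : z ∈ Metric.ball z₀ δ := Metric.ball_subset_ball (min_le_right _ _) hzb
  obtain ⟨w0, w2, w1⟩ := hball z hzδ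
  obtain ⟨p', rfl⟩ : ∃ p', p = p' + 1 := ⟨p - 1, by omega⟩
  refine ⟨p' + b, b, by omega, by omega, z, hzε, w0, w2, ?_⟩
  have hF1b : F1 z n ^ b ≠ 0 := pow_ne_zero _ w1
  have e1 : F1 z n ^ b = (2 - z) ^ (p' + 1) * ((z - 2) ^ b * F0 z n ^ b) := by
    rw [div_pow, mul_pow] at heq
    field_simp at heq
    rw [← heq]
    ring
  have e2 : (2 - z) ^ (p' + 1) = (-1) ^ (p' + 1) * (z - 2) ^ (p' + 1) := by
    rw [← mul_pow]; congr 1; ring
  have e3 : (-1 : ℂ) ^ (p' + b + b) = (-1) ^ p' := by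
    rw [add_assoc, ← two_mul, pow_add, pow_mul]; simp
  rw [e3, e1, e2]
  have e4 : (-1 : ℂ) ^ p' * (-1) ^ (p' + 1) = -1 := by
    rw [← pow_add, show p' + (p' + 1) = 2 * p' + 1 by ring, pow_succ, pow_mul]; simp
  have e5 : (z - 2) ^ (p' + b + 1) = (z - 2) ^ (p' + 1) * (z - 2) ^ b := by
    rw [← pow_add]; congr 1; ring
  rw [e5]
  linear_combination ((z - 2) ^ (p' + 1) * (z - 2) ^ b * F0 z n ^ b) * e4



theorem freq_one (t : ℂ) (ht : ‖t‖ = 1) : ∃ᶠ n : ℕ in atTop, ‖t ^ n - 1‖ < 1 / 4 := by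
  have hc : t ∈ Submonoid.unitSphere ℂ := by
    simpa [Submonoid.unitSphere] using ht
  let x : Circle := ⟨t, hc⟩
  have h := mapClusterPt_one_atTop_pow x
  have hp : ∀ᶠ y : Circle in 𝓝 1, ‖(y : ℂ) - 1‖ < 1 / 4 := by
    have hcont : Continuous fun y : Circle => ‖(y : ℂ) - 1‖ := by fun_prop
    have h0 : ‖((1 : Circle) : ℂ) - 1‖ < 1 / 4 := by simp
    exact hcont.continuousAt.eventually_lt continuousAt_const h0
  have h2 := h.frequently hp
  refine h2.mono ?_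
  intro n hn
  have : ((x ^ n : Circle) : ℂ) = t ^ n := by
    rw [Circle.coe_pow]
  rwa [this] at hn

theorem freq_main (t u : ℂ) (h1 : 0 < u.re) : ∃ᶠ n : ℕ in atTop, 3 / 2 < ‖2 * t ^ n + (2 + u)‖ := by
  have h2u : 2 < ‖2 + u‖ := by
    have := Complex.re_le_norm (2 + u)
    simp at this
    linarith
  rcases lt_trichotomy ‖t‖ 1 with h | h | h
  · apply Filter.Eventually.frequently
    have h3 : Tendsto (fun n : ℕ => ‖2 * t ^ n + (2 + u)‖) atTop (𝓝 ‖2 * 0 + (2 + u)‖) :=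
      ((tendsto_const_nhds.mul (tendsto_pow_atTop_nhds_zero_of_norm_lt_one h)).add
        tendsto_const_nhds).norm
    have h4 : 3 / 2 < ‖(2 : ℂ) * 0 + (2 + u)‖ := by
      rw [mul_zero, zero_add]; linarith
    exact h3.eventually (lt_mem_nhds h4)
  · refine (freq_one t h).mono ?_
    intro n hn
    have h4u : 4 < ‖4 + u‖ := by
      have := Complex.re_le_norm (4 + u)
      simp at this
      linarith
    have e : (4 : ℂ) + u = (2 * t ^ n + (2 + u)) - 2 * (t ^ n - 1) := by ring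
    have h5 : ‖4 + u‖ ≤ ‖2 * t ^ n + (2 + u)‖ + ‖2 * (t ^ n - 1)‖ := by
      rw [e]; exact norm_sub_le _ _
    have h6 : ‖2 * (t ^ n - 1)‖ = 2 * ‖t ^ n - 1‖ := by
      rw [norm_mul]; simp
    rw [h6] at h5
    linarith
  · apply Filter.Eventually.frequently
    have h3 : Tendsto (fun n : ℕ => ‖t‖ ^ n) atTop atTop := tendsto_pow_atTop_atTop_of_one_lt h
    filter_upwards [h3.eventually_gt_atTop (‖2 + u‖ + 2)] with n hn
    have h5 : ‖2 * t ^ n‖ ≤ ‖2 * t ^ n + (2 + u)‖ + ‖2 + u‖ := by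
      have : 2 * t ^ n = (2 * t ^ n + (2 + u)) - (2 + u) := by ring
      calc ‖2 * t ^ n‖ = ‖(2 * t ^ n + (2 + u)) - (2 + u)‖ := by rw [← this]
        _ ≤ _ := norm_sub_le _ _
    have h6 : ‖2 * t ^ n‖ = 2 * ‖t‖ ^ n := by
      rw [norm_mul, norm_pow]; simp
    rw [h6] at h5
    have h7 : 0 ≤ ‖2 + u‖ := norm_nonneg _
    linarith

/-- TARGET. -/
theorem reg1 (z : ℂ) (h1 : 2 < z.re) (h2 : ‖z - 2‖ < 1) :
    ∃ N : ℕ, 2 ≤ N ∧ F0 z (N + 1) ≠ 0 ∧ F1 z (N + 1) ≠ 0 ∧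
      ‖F1 z (N + 1)‖ < ‖z - 2‖ * ‖F0 z (N + 1)‖ := by
  obtain ⟨u, hu⟩ : ∃ u : ℂ, u = z - 2 := ⟨_, rfl⟩
  have hz : z = 2 + u := by rw [hu]; ring
  have hur : 0 < u.re := by
    rw [hu]; simp; exact h1
  have hu0 : u ≠ 0 := by
    rintro rfl; simp at hur
  have hun : 0 < ‖u‖ := norm_pos_iff.2 hu0
  obtain ⟨a, ha⟩ : ∃ a : ℂ, a = -(1 + u) := ⟨_, rfl⟩
  have ha1 : 1 < ‖a‖ := by
    rw [ha, norm_neg]
    have := Complex.re_le_norm (1 + u)
    simp at this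
    linarith
  have ha0 : a ≠ 0 := by
    rintro rfl; simp at ha1; linarith
  have hb : ‖(1 - u) / a‖ < 1 := by
    rw [norm_div, div_lt_one (by linarith), ha, norm_neg]
    have e1 : ‖1 - u‖ ^ 2 < ‖1 + u‖ ^ 2 := by
      rw [Complex.sq_norm, Complex.sq_norm, Complex.normSq_apply, Complex.normSq_apply]
      simp
      nlinarith
    exact lt_of_pow_lt_pow_left₀ 2 (norm_nonneg _) e1
  have hpb : Tendsto (fun n : ℕ => ((1 - u) / a) ^ n) atTop (𝓝 0) :=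
    tendsto_pow_atTop_nhds_zero_of_norm_lt_one hb
  have hpa : Tendsto (fun n : ℕ => (1 / a) ^ n) atTop (𝓝 0) := by
    apply tendsto_pow_atTop_nhds_zero_of_norm_lt_one
    rw [norm_div, norm_one, div_lt_one (by linarith)]
    exact ha1
  have hF0 : ∀ n, F0 z n = a ^ n * ((2 * ((1 + u + u ^ 2) / a) ^ n + (2 + u)) +
      u * ((1 - u) / a) ^ n) := by
    intro n
    have e1 : a ^ n ≠ 0 := pow_ne_zero _ ha0
    unfold F0
    rw [div_pow, div_pow]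
    field_simp
    rw [hz, ha]
    ring
  have hF1 : ∀ n, F1 z n = a ^ n * (u + (2 + u) * ((1 - u) / a) ^ n +
      2 * (u ^ 2 + u - 1) * (1 / a) ^ n) := by
    intro n
    have e1 : a ^ n ≠ 0 := pow_ne_zero _ ha0
    unfold F1
    rw [div_pow, div_pow, one_pow]
    field_simp
    rw [hz, ha]
    ring
  have hlim : Tendsto (fun n : ℕ => u + (2 + u) * ((1 - u) / a) ^ n +
      2 * (u ^ 2 + u - 1) * (1 / a) ^ n) atTop (𝓝 u) := by
    have := (tendsto_const_nhds (x := u)).add ((tendsto_const_nhds (x := 2 + u)).mul hpb)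
    have h3 := this.add ((tendsto_const_nhds (x := 2 * (u ^ 2 + u - 1))).mul hpa)
    simpa using h3
  have E1 : ∀ᶠ n : ℕ in atTop, ‖u + (2 + u) * ((1 - u) / a) ^ n +
      2 * (u ^ 2 + u - 1) * (1 / a) ^ n‖ < ‖u‖ * (5 / 4) :=
    hlim.norm.eventually (gt_mem_nhds (by linarith))
  have E2 : ∀ᶠ n : ℕ in atTop, 0 < ‖u + (2 + u) * ((1 - u) / a) ^ n +
      2 * (u ^ 2 + u - 1) * (1 / a) ^ n‖ :=
    hlim.norm.eventually (lt_mem_nhds hun)
  have E3 : ∀ᶠ n : ℕ in atTop, ‖u * ((1 - u) / a) ^ n‖ < 1 / 8 := by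
    have h3 : Tendsto (fun n : ℕ => ‖u * ((1 - u) / a) ^ n‖) atTop (𝓝 ‖u * 0‖) :=
      (tendsto_const_nhds.mul hpb).norm
    rw [mul_zero, norm_zero] at h3
    exact h3.eventually (gt_mem_nhds (by norm_num))
  obtain ⟨n, hn, hn1, hn2, hn3, hn4⟩ := ((freq_main ((1 + u + u ^ 2) / a) u hur).and_eventually
    (E1.and (E2.and (E3.and (eventually_ge_atTop 3))))).exists
  obtain ⟨N, rfl⟩ : ∃ N, n = N + 1 := ⟨n - 1, by omega⟩
  have ean : 0 < ‖a ^ (N + 1)‖ := norm_pos_iff.2 (pow_ne_zero _ ha0)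
  have hlow : 11 / 8 < ‖(2 * ((1 + u + u ^ 2) / a) ^ (N + 1) + (2 + u)) +
      u * ((1 - u) / a) ^ (N + 1)‖ := by
    have h5 : ‖2 * ((1 + u + u ^ 2) / a) ^ (N + 1) + (2 + u)‖ ≤
        ‖(2 * ((1 + u + u ^ 2) / a) ^ (N + 1) + (2 + u)) + u * ((1 - u) / a) ^ (N + 1)‖ +
        ‖u * ((1 - u) / a) ^ (N + 1)‖ := by
      have e := norm_sub_le ((2 * ((1 + u + u ^ 2) / a) ^ (N + 1) + (2 + u)) +
        u * ((1 - u) / a) ^ (N + 1)) (u * ((1 - u) / a) ^ (N + 1))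
      rwa [add_sub_cancel_right] at e
    linarith
  refine ⟨N, by omega, ?_, ?_, ?_⟩
  · rw [hF0, ← norm_pos_iff, norm_mul]
    apply mul_pos ean
    linarith
  · rw [hF1, ← norm_pos_iff, norm_mul]
    exact mul_pos ean hn2
  · rw [hF0, hF1, norm_mul, norm_mul, ← hu]
    have h6 : ‖u + (2 + u) * ((1 - u) / a) ^ (N + 1) + 2 * (u ^ 2 + u - 1) * (1 / a) ^ (N + 1)‖ <
        ‖u‖ * ‖(2 * ((1 + u + u ^ 2) / a) ^ (N + 1) + (2 + u)) + u * ((1 - u) / a) ^ (N + 1)‖ := by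
      refine hn1.trans ?_
      apply mul_lt_mul_of_pos_left _ hun
      linarith
    calc _ < ‖a ^ (N + 1)‖ * (‖u‖ * ‖(2 * ((1 + u + u ^ 2) / a) ^ (N + 1) + (2 + u)) +
          u * ((1 - u) / a) ^ (N + 1)‖) := mul_lt_mul_of_pos_left h6 ean
      _ = _ := by ring


/-- TARGET. -/
theorem reg2 (z : ℂ) (h1 : ‖z - 1‖ < 1) (h2 : 1 < ‖z - 2‖) (h3 : ‖z - 2‖ ^ 2 < ‖z‖) :
    ∃ N : ℕ, 2 ≤ N ∧ F0 z (N + 1) ≠ 0 ∧ F1 z (N + 1) ≠ 0 ∧
      ‖z - 2‖ * ‖F0 z (N + 1)‖ < ‖F1 z (N + 1)‖ := by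
  have hz1 : (z.re - 1) ^ 2 + z.im ^ 2 < 1 := by
    have h4 : ‖z - 1‖ ^ 2 < 1 := by nlinarith [norm_nonneg (z - 1)]
    rw [Complex.sq_norm, Complex.normSq_apply] at h4
    simp only [Complex.sub_re, Complex.one_re, Complex.sub_im, Complex.one_im, sub_zero] at h4
    nlinarith [h4]
  have hw1 : 1 < ‖3 - z‖ := by
    have h5 : ‖(2 : ℂ)‖ - ‖z - 1‖ ≤ ‖(2 : ℂ) - (z - 1)‖ := norm_sub_norm_le _ _
    have h6 : (2 : ℂ) - (z - 1) = 3 - z := by ring
    rw [h6] at h5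
    have h7 : ‖(2 : ℂ)‖ = 2 := by simp
    rw [h7] at h5
    linarith
  have hw0 : (3 - z) ≠ 0 := by
    intro h
    rw [h, norm_zero] at hw1
    linarith
  have hn1 : ‖(1 : ℂ) - z‖ < ‖3 - z‖ := by
    rw [norm_sub_rev]
    linarith
  have hn2 : ‖z ^ 2 - 3 * z + 3‖ < ‖3 - z‖ := by
    apply lt_of_pow_lt_pow_left₀ 2 (norm_nonneg _)
    rw [Complex.sq_norm, Complex.sq_norm, Complex.normSq_apply, Complex.normSq_apply]
    have e1 : (z ^ 2 - 3 * z + 3).re = z.re ^ 2 - z.im ^ 2 - 3 * z.re + 3 := by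
      simp [pow_two]
    have e2 : (z ^ 2 - 3 * z + 3).im = 2 * z.re * z.im - 3 * z.im := by
      simp [pow_two]
      ring
    have e3 : (3 - z).re = 3 - z.re := by simp
    have e4 : (3 - z).im = - z.im := by simp
    rw [e1, e2, e3, e4]
    set x := z.re - 1 with hx
    set y := z.im with hy
    have hzr : z.re = x + 1 := by rw [hx]; ring
    rw [hzr]
    have hs : 0 < 1 - (x ^ 2 + y ^ 2) := by linarith
    have key : 0 < (1 - (x ^ 2 + y ^ 2)) * ((x - 1) ^ 2 + 2) + y ^ 2 * (5 - (x ^ 2 + y ^ 2)) := by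
      have k1 : 0 < (1 - (x ^ 2 + y ^ 2)) * ((x - 1) ^ 2 + 2) := by positivity
      have k2 : 0 ≤ y ^ 2 * (5 - (x ^ 2 + y ^ 2)) := by
        apply mul_nonneg (sq_nonneg _)
        linarith
      linarith
    nlinarith [key]
  have hz2 : z - 2 ≠ 0 := by
    intro h
    rw [h, norm_zero] at h2
    linarith
  have hz0 : z ≠ 0 := by
    intro h
    rw [h, norm_zero] at h3
    have := sq_nonneg ‖(0 : ℂ) - 2‖
    linarith
  have hwn : 0 < ‖3 - z‖ := norm_pos_iff.mpr hw0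
  have r1 : ‖(z ^ 2 - 3 * z + 3) / (3 - z)‖ < 1 := by
    rw [norm_div, div_lt_one hwn]; exact hn2
  have r2 : ‖(1 - z) / (3 - z)‖ < 1 := by
    rw [norm_div, div_lt_one hwn]; exact hn1
  have r3 : ‖1 / (3 - z)‖ < 1 := by
    rw [norm_div, div_lt_one hwn, norm_one]; exact hw1
  have t1 := tendsto_pow_atTop_nhds_zero_of_norm_lt_one r1
  have t2 := tendsto_pow_atTop_nhds_zero_of_norm_lt_one r2
  have t3 := tendsto_pow_atTop_nhds_zero_of_norm_lt_one r3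
  have T0 : Tendsto (fun n : ℕ => 2 * ((z ^ 2 - 3 * z + 3) / (3 - z)) ^ n + z * ((1 - z) / (3 - z)) ^ n
      + (z - 2)) atTop (𝓝 (z - 2)) := by
    have h := ((t1.const_mul 2).add (t2.const_mul z)).add_const (z - 2)
    simpa using h
  have T1 : Tendsto (fun n : ℕ => (z - 2) * ((1 - z) / (3 - z)) ^ n + z
      + 2 * (z ^ 2 - 3 * z + 1) * (1 / (3 - z)) ^ n) atTop (𝓝 z) := by
    have h := ((t2.const_mul (z - 2)).add_const z).add (t3.const_mul (2 * (z ^ 2 - 3 * z + 1)))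
    simpa using h
  have E0 : ∀ n : ℕ, F0 z n = (3 - z) ^ n * (2 * ((z ^ 2 - 3 * z + 3) / (3 - z)) ^ n
      + z * ((1 - z) / (3 - z)) ^ n + (z - 2)) := by
    intro n
    have hp : (3 - z) ^ n ≠ 0 := pow_ne_zero _ hw0
    unfold F0
    rw [div_pow, div_pow]
    field_simp
  have E1 : ∀ n : ℕ, F1 z n = (3 - z) ^ n * ((z - 2) * ((1 - z) / (3 - z)) ^ n + z
      + 2 * (z ^ 2 - 3 * z + 1) * (1 / (3 - z)) ^ n) := by
    intro n
    have hp : (3 - z) ^ n ≠ 0 := pow_ne_zero _ hw0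
    unfold F1
    rw [div_pow, div_pow, one_pow]
    field_simp
  have ev0 := T0.eventually_ne hz2
  have ev1 := T1.eventually_ne hz0
  have ev2 : ∀ᶠ n : ℕ in atTop, ‖z - 2‖ * ‖2 * ((z ^ 2 - 3 * z + 3) / (3 - z)) ^ n
      + z * ((1 - z) / (3 - z)) ^ n + (z - 2)‖ < ‖(z - 2) * ((1 - z) / (3 - z)) ^ n + z
      + 2 * (z ^ 2 - 3 * z + 1) * (1 / (3 - z)) ^ n‖ := by
    apply Filter.Tendsto.eventually_lt (T0.norm.const_mul ‖z - 2‖) T1.norm
    rw [← pow_two]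
    exact h3
  obtain ⟨n, ⟨⟨hn0, hn1'⟩, hn2'⟩, hn3⟩ := (((ev0.and ev1).and ev2).and (eventually_ge_atTop 3)).exists
  refine ⟨n - 1, by omega, ?_, ?_, ?_⟩
  · rw [Nat.sub_add_cancel (by omega), E0]
    exact mul_ne_zero (pow_ne_zero _ hw0) hn0
  · rw [Nat.sub_add_cancel (by omega), E1]
    exact mul_ne_zero (pow_ne_zero _ hw0) hn1'
  · rw [Nat.sub_add_cancel (by omega), E0, E1, norm_mul, norm_mul, norm_pow]
    have hp : 0 < ‖3 - z‖ ^ n := pow_pos hwn n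
    have := mul_lt_mul_of_pos_left hn2' hp
    linarith [this]


end Pool.Agent.Helper759.Chrom.Ring
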