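import Mathlib
import Pool.Agent.Helper759.ChromDefs
import Pool.Agent.Helper759.ChromC
import Pool.Agent.Helper759.FanE
import Pool.Agent.Helper759.RingDefs
import Pool.Agent.Helper759.RingA
import Pool.Agent.Helper759.RingB
import Pool.Agent.Helper759.RingC
import Pool.Agent.Helper759.RingD
set_option autoImplicit false
open Classical Filter Topology

namespace Pool.Agent.Helper759.Chrom.Ring

theorem ring_main (z₀ : ℂ) (N : ℕ) (hN : 2 ≤ N) (hz0 : z₀ ≠ 0) (hz : z₀ ≠ 2)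
    (h0 : F0 z₀ (N + 1) ≠ 0) (h1 : F1 z₀ (N + 1) ≠ 0)
    (hcase : (‖z₀ - 2‖ < 1 ∧ ‖F1 z₀ (N + 1)‖ < ‖z₀ - 2‖ * ‖F0 z₀ (N + 1)‖) ∨
      (1 < ‖z₀ - 2‖ ∧ ‖z₀ - 2‖ * ‖F0 z₀ (N + 1)‖ < ‖F1 z₀ (N + 1)‖)) :
    z₀ ∈ closure {z : ℂ | ∃ (n : ℕ) (G : SimpleGraph (Fin n)),
      (4 ≤ n ∧ ∀ S : Finset (Fin n), S.card ≤ 2 →
          (G.induce ((↑S : Set (Fin n))ᶜ)).Connected) ∧
      (∃ (f : Fin n → ℂ) (γ : ∀ u v : Fin n, Path (f u) (f v)),
          Function.Injective f ∧
          (∀ u v : Fin n, G.Adj u v →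
              Function.Injective ⇑(γ u v) ∧
              ∀ (t : unitInterval) (w : Fin n), γ u v t = f w → w = u ∨ w = v) ∧
          (∀ u v x y : Fin n, G.Adj u v → G.Adj x y → s(u, v) ≠ s(x, y) →
              ∀ a b : unitInterval, γ u v a = γ x y b → ∃ w : Fin n, γ u v a = f w)) ∧
      (∑ S ∈ G.edgeFinset.powerset,
          (-1 : ℂ) ^ S.card *
            z ^ Nat.card (SimpleGraph.fromEdgeSet (↑S : Set (Sym2 (Fin n)))).ConnectedComponent) = 0} := by
  rw [Metric.mem_closure_iff]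
  intro ε hε
  obtain ⟨L, b, hL, hb, z, hzb, hz0', hz2', heq⟩ :=
    ring_dense z₀ (N + 1) (by omega) hz0 hz h0 h1 hcase ε hε
  refine ⟨z, transport (RG L b N) z (rg_tri L b N hL hb hN) (rg_pla L b N hL hb hN)
    (ring_root L b N hb (by omega) z hz0' hz2' heq), ?_⟩
  rw [dist_comm]
  exact hzb

theorem disc_dense (z : ℂ) (h1 : ‖z - 1‖ < 1) (h2 : 1 < ‖z - 2‖) (h3 : ‖z - 2‖ ^ 2 < ‖z‖) :
    z ∈ closure {z : ℂ | ∃ (n : ℕ) (G : SimpleGraph (Fin n)),
      (4 ≤ n ∧ ∀ S : Finset (Fin n), S.card ≤ 2 →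
          (G.induce ((↑S : Set (Fin n))ᶜ)).Connected) ∧
      (∃ (f : Fin n → ℂ) (γ : ∀ u v : Fin n, Path (f u) (f v)),
          Function.Injective f ∧
          (∀ u v : Fin n, G.Adj u v →
              Function.Injective ⇑(γ u v) ∧
              ∀ (t : unitInterval) (w : Fin n), γ u v t = f w → w = u ∨ w = v) ∧
          (∀ u v x y : Fin n, G.Adj u v → G.Adj x y → s(u, v) ≠ s(x, y) →
              ∀ a b : unitInterval, γ u v a = γ x y b → ∃ w : Fin n, γ u v a = f w)) ∧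
      (∑ S ∈ G.edgeFinset.powerset,
          (-1 : ℂ) ^ S.card *
            z ^ Nat.card (SimpleGraph.fromEdgeSet (↑S : Set (Sym2 (Fin n)))).ConnectedComponent) = 0} := by
  obtain ⟨N, hN, a, b, c⟩ := reg2 z h1 h2 h3
  refine ring_main z N hN ?_ ?_ a b (Or.inr ⟨h2, c⟩)
  · rintro rfl
    simp at h1
  · rintro rfl
    simp at h2
    linarith

theorem half_dense' (z : ℂ) (h1 : 2 < z.re) (h2 : ‖z - 2‖ ≠ 1) :
    z ∈ closure {z : ℂ | ∃ (n : ℕ) (G : SimpleGraph (Fin n)),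
      (4 ≤ n ∧ ∀ S : Finset (Fin n), S.card ≤ 2 →
          (G.induce ((↑S : Set (Fin n))ᶜ)).Connected) ∧
      (∃ (f : Fin n → ℂ) (γ : ∀ u v : Fin n, Path (f u) (f v)),
          Function.Injective f ∧
          (∀ u v : Fin n, G.Adj u v →
              Function.Injective ⇑(γ u v) ∧
              ∀ (t : unitInterval) (w : Fin n), γ u v t = f w → w = u ∨ w = v) ∧
          (∀ u v x y : Fin n, G.Adj u v → G.Adj x y → s(u, v) ≠ s(x, y) →
              ∀ a b : unitInterval, γ u v a = γ x y b → ∃ w : Fin n, γ u v a = f w)) ∧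
      (∑ S ∈ G.edgeFinset.powerset,
          (-1 : ℂ) ^ S.card *
            z ^ Nat.card (SimpleGraph.fromEdgeSet (↑S : Set (Sym2 (Fin n)))).ConnectedComponent) = 0} := by
  rcases lt_or_gt_of_ne h2 with h | h
  · obtain ⟨N, hN, a, b, c⟩ := reg1 z h1 h
    refine ring_main z N hN ?_ ?_ a b (Or.inl ⟨h, c⟩)
    · rintro rfl
      simp at h1
      linarith
    · rintro rfl
      simp at h1
  · refine fan_dense z ?_ h
    have := Complex.re_le_norm (z - 1)
    simp at this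
    linarith

theorem half_dense (z : ℂ) (h1 : 2 ≤ z.re) :
    z ∈ closure {z : ℂ | ∃ (n : ℕ) (G : SimpleGraph (Fin n)),
      (4 ≤ n ∧ ∀ S : Finset (Fin n), S.card ≤ 2 →
          (G.induce ((↑S : Set (Fin n))ᶜ)).Connected) ∧
      (∃ (f : Fin n → ℂ) (γ : ∀ u v : Fin n, Path (f u) (f v)),
          Function.Injective f ∧
          (∀ u v : Fin n, G.Adj u v →
              Function.Injective ⇑(γ u v) ∧
              ∀ (t : unitInterval) (w : Fin n), γ u v t = f w → w = u ∨ w = v) ∧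
          (∀ u v x y : Fin n, G.Adj u v → G.Adj x y → s(u, v) ≠ s(x, y) →
              ∀ a b : unitInterval, γ u v a = γ x y b → ∃ w : Fin n, γ u v a = f w)) ∧
      (∑ S ∈ G.edgeFinset.powerset,
          (-1 : ℂ) ^ S.card *
            z ^ Nat.card (SimpleGraph.fromEdgeSet (↑S : Set (Sym2 (Fin n)))).ConnectedComponent) = 0} := by
  set R : Set ℂ := {z : ℂ | ∃ (n : ℕ) (G : SimpleGraph (Fin n)),
      (4 ≤ n ∧ ∀ S : Finset (Fin n), S.card ≤ 2 →
          (G.induce ((↑S : Set (Fin n))ᶜ)).Connected) ∧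
      (∃ (f : Fin n → ℂ) (γ : ∀ u v : Fin n, Path (f u) (f v)),
          Function.Injective f ∧
          (∀ u v : Fin n, G.Adj u v →
              Function.Injective ⇑(γ u v) ∧
              ∀ (t : unitInterval) (w : Fin n), γ u v t = f w → w = u ∨ w = v) ∧
          (∀ u v x y : Fin n, G.Adj u v → G.Adj x y → s(u, v) ≠ s(x, y) →
              ∀ a b : unitInterval, γ u v a = γ x y b → ∃ w : Fin n, γ u v a = f w)) ∧
      (∑ S ∈ G.edgeFinset.powerset,
          (-1 : ℂ) ^ S.card *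
            z ^ Nat.card (SimpleGraph.fromEdgeSet (↑S : Set (Sym2 (Fin n)))).ConnectedComponent) = 0} with hR
  -- the points `z + t`
  have key : ∀ᶠ t : ℝ in 𝓝[>] (0 : ℝ), z + (t : ℂ) ∈ closure R := by
    have hmono : ∀ t : ℝ, 0 < t → ‖z - 2‖ < ‖z + (t : ℂ) - 2‖ := by
      intro t ht
      have e1 : ‖z - 2‖ ^ 2 = (z.re - 2) ^ 2 + z.im ^ 2 := by
        rw [← Complex.normSq_eq_norm_sq, Complex.normSq_apply]
        simp
        ring
      have e2 : ‖z + (t : ℂ) - 2‖ ^ 2 = (z.re + t - 2) ^ 2 + z.im ^ 2 := by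
        rw [← Complex.normSq_eq_norm_sq, Complex.normSq_apply]
        simp
        ring
      have : ‖z - 2‖ ^ 2 < ‖z + (t : ℂ) - 2‖ ^ 2 := by
        rw [e1, e2]
        nlinarith
      exact lt_of_pow_lt_pow_left₀ 2 (norm_nonneg _) this
    have hne : ∀ᶠ t : ℝ in 𝓝[>] (0 : ℝ), ‖z + (t : ℂ) - 2‖ ≠ 1 := by
      rcases lt_or_ge ‖z - 2‖ 1 with h | h
      · have hc : ContinuousAt (fun t : ℝ => ‖z + (t : ℂ) - 2‖) 0 := by fun_prop
        have h' : (fun t : ℝ => ‖z + (t : ℂ) - 2‖) 0 < 1 := by simpa using h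
        have := hc.eventually_lt continuousAt_const h'
        filter_upwards [nhdsWithin_le_nhds this] with t ht
        exact ht.ne
      · filter_upwards [self_mem_nhdsWithin] with t ht
        exact (lt_of_le_of_lt h (hmono t ht)).ne'
    filter_upwards [hne, self_mem_nhdsWithin] with t ht ht0
    refine half_dense' (z + (t : ℂ)) ?_ ht
    have : (0 : ℝ) < t := ht0
    simp
    linarith
  have ht : Tendsto (fun t : ℝ => z + (t : ℂ)) (𝓝[>] (0 : ℝ)) (𝓝 z) := by
    have hc : ContinuousAt (fun t : ℝ => z + (t : ℂ)) 0 := by fun_prop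
    have := hc.tendsto
    simp only [Complex.ofReal_zero, add_zero] at this
    exact this.mono_left nhdsWithin_le_nhds
  exact isClosed_closure.mem_of_tendsto ht key

end Pool.Agent.Helper759.Chrom.Ring
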