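import Mathlib

/-!
# Yao-Yao graphs: definitions
-/

namespace Pool.Agent.Helper759.YaoYao

/-- Cones at a point.  The `k` rays that start at a point and have the directions
`θ + 2 π i / k` (`i = 0, …, k - 1`) split the plane around the point into `k` half-open cones.
`coneIdx k θ z` is the index (in `{0, …, k - 1}`) of the cone that contains the displacement
`z ≠ 0`. -/
noncomputable def coneIdx (k : ℕ) (θ : ℝ) (z : ℂ) : ℤ :=
  ⌊(k : ℝ) * (z.arg - θ) / (2 * Real.pi)⌋ % k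

/-- Comparison of segments: the segment `e` comes before the segment `f` if it is shorter, or if
both have the same length and the tie-breaking rule `lt` puts `e` before `f`. -/
def Before (lt : ℂ × ℂ → ℂ × ℂ → Prop) (e f : ℂ × ℂ) : Prop :=
  dist e.1 e.2 < dist f.1 f.2 ∨ (dist e.1 e.2 = dist f.1 f.2 ∧ lt e f)

/-- The directed edges `u → v` of the Yao graph `Y_k(P)`.  The cones at the point `u` are
oriented by `θ u`, so each point has its own orientation.  The edge `u → v` is present iff `v` is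
the nearest point of `P` to `u` in its cone at `u`, ties being broken by `lt`. -/
def YaoEdge (k : ℕ) (P : Finset ℂ) (θ : ℂ → ℝ) (lt : ℂ × ℂ → ℂ × ℂ → Prop) (u v : ℂ) : Prop :=
  u ∈ P ∧ v ∈ P ∧ v ≠ u ∧
    ∀ w ∈ P, w ≠ u → w ≠ v → coneIdx k (θ u) (w - u) = coneIdx k (θ u) (v - u) →
      Before lt (u, v) (u, w)

/-- The directed edges `v → u` of `Y_k(P)` that are kept at `u`: among the edges of `Y_k(P)` that
enter `u` from one cone at `u`, only the shortest one is kept, ties being broken by `lt`. -/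
def YaoYaoEdge (k : ℕ) (P : Finset ℂ) (θ : ℂ → ℝ) (lt : ℂ × ℂ → ℂ × ℂ → Prop) (v u : ℂ) : Prop :=
  YaoEdge k P θ lt v u ∧
    ∀ w, YaoEdge k P θ lt w u → w ≠ v → coneIdx k (θ u) (w - u) = coneIdx k (θ u) (v - u) →
      Before lt (v, u) (w, u)

/-- The Yao-Yao graph `YY_k(P)`, an undirected graph on the point set `P`. -/
def YaoYao (k : ℕ) (P : Finset ℂ) (θ : ℂ → ℝ) (lt : ℂ × ℂ → ℂ × ℂ → Prop) :
    SimpleGraph {p : ℂ // p ∈ P} :=
  SimpleGraph.fromRel fun v u => YaoYaoEdge k P θ lt v.1 u.1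

/-- The Euclidean length of a walk: the sum of the lengths of its edges. -/
noncomputable def walkLength {P : Finset ℂ} {G : SimpleGraph {p : ℂ // p ∈ P}}
    {u v : {p : ℂ // p ∈ P}} (p : G.Walk u v) : ℝ :=
  (p.darts.map fun d => dist d.fst.1 d.snd.1).sum

/-- `G` is a `t`-spanner of its point set: any two points `u`, `v` are joined by a walk of length
at most `t |uv|`. -/
def IsSpanner (t : ℝ) {P : Finset ℂ} (G : SimpleGraph {p : ℂ // p ∈ P}) : Prop :=
  ∀ u v : {p : ℂ // p ∈ P}, ∃ p : G.Walk u v, walkLength p ≤ t * dist u.1 v.1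

/-! Sanity checks of the definitions: if the tie-breaking rule is a strict total order, then every
nonempty cone contains an out-neighbour in the Yao graph, at most one, and every cone with an
incoming edge keeps exactly one. -/

lemma Before.trans {lt : ℂ × ℂ → ℂ × ℂ → Prop} [IsStrictTotalOrder (ℂ × ℂ) lt] {e f g : ℂ × ℂ}
    (h1 : Before lt e f) (h2 : Before lt f g) : Before lt e g := by
  rcases h1 with h1 | ⟨h1, h1'⟩ <;> rcases h2 with h2 | ⟨h2, h2'⟩
  · exact Or.inl (h1.trans h2)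
  · exact Or.inl (h2 ▸ h1)
  · exact Or.inl (h1.symm ▸ h2)
  · exact Or.inr ⟨h1.trans h2, _root_.trans h1' h2'⟩

lemma Before.total {lt : ℂ × ℂ → ℂ × ℂ → Prop} [IsStrictTotalOrder (ℂ × ℂ) lt] {e f : ℂ × ℂ}
    (h : e ≠ f) : Before lt e f ∨ Before lt f e := by
  rcases lt_trichotomy (dist e.1 e.2) (dist f.1 f.2) with h1 | h1 | h1
  · exact Or.inl (Or.inl h1)
  · rcases trichotomous_of lt e f with h2 | h2 | h2
    · exact Or.inl (Or.inr ⟨h1, h2⟩)
    · exact absurd h2 h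
    · exact Or.inr (Or.inr ⟨h1.symm, h2⟩)
  · exact Or.inr (Or.inl h1)

lemma Before.irrefl {lt : ℂ × ℂ → ℂ × ℂ → Prop} [IsStrictTotalOrder (ℂ × ℂ) lt] {e : ℂ × ℂ}
    (h : Before lt e e) : False := by
  rcases h with h | ⟨_, h⟩
  · exact lt_irrefl _ h
  · exact irrefl_of lt e h

lemma exists_first (lt : ℂ × ℂ → ℂ × ℂ → Prop) [IsStrictTotalOrder (ℂ × ℂ) lt]
    (T : Finset (ℂ × ℂ)) (hT : T.Nonempty) : ∃ e ∈ T, ∀ f ∈ T, f ≠ e → Before lt e f := by
  classical
  induction hT using Finset.Nonempty.cons_induction with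
  | singleton a =>
    refine ⟨a, Finset.mem_singleton_self a, ?_⟩
    intro f hf hne
    exact absurd (Finset.mem_singleton.1 hf) hne
  | cons a s ha hs ih =>
    obtain ⟨e, he, hmin⟩ := ih
    have hne : a ≠ e := by rintro rfl; exact ha he
    rcases Before.total (lt := lt) hne with h | h
    · refine ⟨a, Finset.mem_cons_self a s, ?_⟩
      intro f hf hfa
      rcases Finset.mem_cons.1 hf with rfl | hf
      · exact absurd rfl hfa
      · by_cases hfe : f = e
        · rw [hfe]; exact h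
        · exact h.trans (hmin f hf hfe)
    · refine ⟨e, Finset.mem_cons.2 (Or.inr he), ?_⟩
      intro f hf hfe
      rcases Finset.mem_cons.1 hf with rfl | hf
      · exact h
      · exact hmin f hf hfe

/-- Every nonempty cone at `u` contains exactly one out-neighbour of `u` in the Yao graph. -/
theorem yaoEdge_existsUnique (k : ℕ) (P : Finset ℂ) (θ : ℂ → ℝ) (lt : ℂ × ℂ → ℂ × ℂ → Prop)
    [IsStrictTotalOrder (ℂ × ℂ) lt] {u v : ℂ} (hu : u ∈ P) (hv : v ∈ P) (hne : v ≠ u) :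
    ∃! w, YaoEdge k P θ lt u w ∧ coneIdx k (θ u) (w - u) = coneIdx k (θ u) (v - u) := by
  classical
  obtain ⟨e, he, hmin⟩ := exists_first lt
    ((P.filter fun w => w ≠ u ∧ coneIdx k (θ u) (w - u) = coneIdx k (θ u) (v - u)).image
      fun w => (u, w)) ⟨(u, v), Finset.mem_image.2 ⟨v, by simp [hv, hne], rfl⟩⟩
  obtain ⟨w, hw, rfl⟩ := Finset.mem_image.1 he
  obtain ⟨hwP, hwu, hwc⟩ := Finset.mem_filter.1 hw
  refine ⟨w, ⟨⟨hu, hwP, hwu, ?_⟩, hwc⟩, ?_⟩
  · intro x hx hxu hxw hxc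
    exact hmin (u, x) (Finset.mem_image.2 ⟨x, Finset.mem_filter.2 ⟨hx, hxu, hxc.trans hwc⟩, rfl⟩)
      (fun h => hxw (Prod.mk.inj h).2)
  · rintro x ⟨⟨_, hxP, hxu, hx⟩, hxc⟩
    by_contra hxw
    have h1 := hx w hwP hwu (Ne.symm hxw) (hwc.trans hxc.symm)
    have h2 := hmin (u, x) (Finset.mem_image.2 ⟨x, Finset.mem_filter.2 ⟨hxP, hxu, hxc⟩, rfl⟩)
      (fun h => hxw (Prod.mk.inj h).2)
    exact (h1.trans h2).irrefl

/-- If an edge `w → u` of the Yao graph enters `u` from some cone at `u`, then exactly one of the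
edges that enter `u` from this cone is kept in the Yao-Yao graph. -/
theorem yaoYaoEdge_existsUnique (k : ℕ) (P : Finset ℂ) (θ : ℂ → ℝ)
    (lt : ℂ × ℂ → ℂ × ℂ → Prop) [IsStrictTotalOrder (ℂ × ℂ) lt] {u w : ℂ}
    (h : YaoEdge k P θ lt w u) :
    ∃! v, YaoYaoEdge k P θ lt v u ∧ coneIdx k (θ u) (v - u) = coneIdx k (θ u) (w - u) := by
  classical
  obtain ⟨e, he, hmin⟩ := exists_first lt
    ((P.filter fun v => YaoEdge k P θ lt v u ∧
      coneIdx k (θ u) (v - u) = coneIdx k (θ u) (w - u)).image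
      fun v => (v, u)) ⟨(w, u), Finset.mem_image.2 ⟨w, by simp [h, h.1], rfl⟩⟩
  obtain ⟨v, hv, rfl⟩ := Finset.mem_image.1 he
  obtain ⟨hvP, hvY, hvc⟩ := Finset.mem_filter.1 hv
  refine ⟨v, ⟨⟨hvY, ?_⟩, hvc⟩, ?_⟩
  · intro x hx hxv hxc
    exact hmin (x, u) (Finset.mem_image.2 ⟨x, Finset.mem_filter.2 ⟨hx.1, hx, hxc.trans hvc⟩, rfl⟩)
      (fun h => hxv (Prod.mk.inj h).1)
  · rintro x ⟨⟨hxY, hx⟩, hxc⟩
    by_contra hxv
    have h1 := hx v hvY (Ne.symm hxv) (hvc.trans hxc.symm)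
    have h2 := hmin (x, u) (Finset.mem_image.2 ⟨x, Finset.mem_filter.2 ⟨hxY.1, hxY, hxc⟩, rfl⟩)
      (fun h => hxv (Prod.mk.inj h).1)
    exact (h1.trans h2).irrefl

end Pool.Agent.Helper759.YaoYao
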