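import Mathlib
import Pool.Agent.Helper759.YaoYaoDefs

/-!
# Yao-Yao graphs are never spanners when every point chooses the orientation of its cones

Sketch.  Put `α = π / (6 k)`.  The point set is the vertex set of a fractal zigzag: a polyline with
`M` sides of directions `± α` is subdivided; some of the pieces are frozen, the other pieces are
replaced by small copies of the previous polyline, turned by `± α`.  The stretch of the polyline
grows without bound.  At a vertex of an innermost copy of direction `e α` the cones are turned by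
`(e + 3) α + arctan b`, where the small slope `b` is tuned.  Seen from a vertex, the part of the
polyline of a given level that lies ahead is contained in one cone, except when a boundary ray of
the cones runs through the sector that contains it.  The slope `b` is chosen such that such a ray
crosses the next side of the polyline strictly inside a frozen piece.  Then the nearest point on
the far side of the ray is the end of this frozen piece, and the Yao edge to it is deleted in the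
second step, because the frozen piece itself is a shorter edge from the same cone.  So every edge
of the Yao-Yao graph joins two points whose distance along the polyline is at most their
distance.
-/

namespace Pool.Agent.Helper759.YaoYao

section SecY1
lemma coneIdx_polar (k : ℕ) (hk : 0 < k) (θ φ r : ℝ) (hr : 0 < r) :
    coneIdx k θ (r * Complex.exp (φ * Complex.I)) = ⌊(k : ℝ) * (φ - θ) / (2 * Real.pi)⌋ % k := by
  unfold coneIdx
  have h1 : (r * Complex.exp (φ * Complex.I)).arg = toIocMod Real.two_pi_pos (-Real.pi) φ := by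
    rw [Complex.arg_real_mul _ hr, Complex.arg_exp_mul_I]
  have h2 : toIocMod Real.two_pi_pos (-Real.pi) φ
      = φ - (toIocDiv Real.two_pi_pos (-Real.pi) φ : ℤ) • (2 * Real.pi) := rfl
  rw [h1, h2]
  set n := toIocDiv Real.two_pi_pos (-Real.pi) φ
  have h3 : (k : ℝ) * (φ - n • (2 * Real.pi) - θ) / (2 * Real.pi)
      = (k : ℝ) * (φ - θ) / (2 * Real.pi) - ((k * n : ℤ) : ℝ) := by
    have := Real.pi_pos
    push_cast
    field_simp
    simp only [zsmul_eq_mul]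
    ring
  rw [h3, Int.floor_sub_intCast]
  exact Int.sub_mul_emod_self_left _ _ _

/-- constants -/
structure Cst where
  k : ℕ
  M : ℤ
  α : ℝ
  a : ℝ
  κ : ℝ
  τ : ℝ
  w : ℝ
  T : ℝ
  hk : 2 ≤ k
  hα : α = Real.pi / (6 * k)
  ha : a = Real.tan α
  ha0 : 0 < a
  ha1 : a ≤ 3 / 10
  hκ0 : 0 < κ
  hκ1 : κ ≤ 1 / 16
  hτ : 64 * τ = a * κ
  hw0 : 0 < w
  hw : w ≤ τ * κ
  hM : w * M = 1 - 2 * κ
  hM6 : 6 ≤ M
  hMe : Even M
  hT : T = (a + τ) / (1 - a * τ)

namespace Cst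
variable (c : Cst)

lemma τ0 : 0 < c.τ := by
  have := c.hτ; have := mul_pos c.ha0 c.hκ0; linarith

lemma τ1 : c.τ ≤ c.a / 1024 := by
  have := c.hτ; have := c.hκ1; have := c.ha0; nlinarith

lemma aτ1 : c.a * c.τ ≤ 1/1000 := by
  have := c.τ0; have := c.τ1; have := c.ha0; have := c.ha1; nlinarith

lemma kpos : (0:ℝ) < c.k := by
  have := c.hk; positivity

lemma α0 : 0 < c.α := by
  rw [c.hα]; have := Real.pi_pos; have := c.kpos; positivity

lemma αk : 12 * c.α * c.k = 2 * Real.pi := by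
  rw [c.hα]; have := c.kpos; field_simp; ring

lemma α1 : c.α ≤ Real.pi / 12 := by
  rw [c.hα]
  have h : (2:ℝ) ≤ c.k := by exact_mod_cast c.hk
  apply div_le_div_of_nonneg_left Real.pi_pos.le (by norm_num) (by linarith)

lemma arctan_a : Real.arctan c.a = c.α := by
  rw [c.ha]
  apply Real.arctan_tan
  · have := c.α0; have := Real.pi_pos; linarith
  · have := c.α1; have := Real.pi_pos; linarith

lemma T0 : 0 < c.T := by
  rw [c.hT]; have := c.τ0; have := c.ha0; have := c.aτ1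
  apply div_pos <;> linarith

lemma T_le : c.T ≤ c.a + 2 * c.τ := by
  rw [c.hT]; have := c.τ0; have := c.ha0; have := c.aτ1; have := c.ha1
  rw [div_le_iff₀ (by linarith)]
  have h1 : c.a * c.a ≤ 1/10 := by nlinarith
  have h2 : 0 ≤ c.τ * (1 - c.a * c.a - 2 * (c.a * c.τ)) := mul_nonneg c.τ0.le (by linarith)
  nlinarith

lemma le_T : c.a + c.τ ≤ c.T := by
  rw [c.hT]; have := c.τ0; have := c.ha0; have := c.aτ1; have := c.ha1
  rw [le_div_iff₀ (by linarith)]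
  nlinarith [mul_pos c.ha0 c.τ0]

lemma arctan_T : Real.arctan c.T = c.α + Real.arctan c.τ := by
  rw [← c.arctan_a, Real.arctan_add (by have := c.aτ1; linarith), c.hT]

end Cst

/-- the forward cone of slope `t` -/
def FC (t : ℝ) (z : ℂ) : Prop := |z.im| ≤ t * z.re

lemma FC.add {t : ℝ} {z w : ℂ} (hz : FC t z) (hw : FC t w) : FC t (z + w) := by
  unfold FC at *
  simp only [Complex.add_im, Complex.add_re]
  calc |z.im + w.im| ≤ |z.im| + |w.im| := abs_add_le _ _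
    _ ≤ _ := by linarith

lemma FC.re_nonneg {t : ℝ} (ht : 0 < t) {z : ℂ} (hz : FC t z) : 0 ≤ z.re := by
  unfold FC at hz
  have := (abs_nonneg z.im).trans hz
  exact nonneg_of_mul_nonneg_right this ht

lemma FC.mono {t t' : ℝ} (ht : t ≤ t') {z : ℂ} (h0 : 0 ≤ z.re) (hz : FC t z) : FC t' z := by
  unfold FC at *
  exact hz.trans (mul_le_mul_of_nonneg_right ht h0)

/-- the angle of a forward vector -/
noncomputable def ang (z : ℂ) : ℝ := Real.arctan (z.im / z.re)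

lemma polar {z : ℂ} (hz : 0 < z.re) : z = ‖z‖ * Complex.exp (ang z * Complex.I) := by
  have h1 : z.arg = ang z := by
    unfold ang
    rw [← Complex.tan_arg, Real.arctan_tan]
    · have := (Complex.abs_arg_lt_pi_div_two_iff.2 (Or.inl hz))
      linarith [(abs_lt.1 this).1]
    · have := (Complex.abs_arg_lt_pi_div_two_iff.2 (Or.inl hz))
      exact (abs_lt.1 this).2
  rw [← h1]
  exact (Complex.norm_mul_exp_arg_mul_I z).symm

/-- the unit of a placement -/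
noncomputable def Ut (c : Cst) (ρ : ℝ) (e : ℤ) : ℂ := ρ * Complex.exp ((e * c.α : ℝ) * Complex.I)

lemma norm_Ut (c : Cst) {ρ : ℝ} (hρ : 0 < ρ) (e : ℤ) : ‖Ut c ρ e‖ = ρ := by
  unfold Ut
  rw [norm_mul, Complex.norm_exp_ofReal_mul_I, Complex.norm_real, Real.norm_of_nonneg hρ.le, mul_one]

lemma Ut_neg (c : Cst) (ρ : ℝ) (e : ℤ) : Ut c ρ (e + 6 * c.k) = - Ut c ρ e := by
  unfold Ut
  have : (((e + 6 * c.k : ℤ) : ℝ) * c.α : ℝ) = (e * c.α : ℝ) + Real.pi := by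
    have := c.αk; push_cast; linarith
  rw [this]
  push_cast
  rw [add_mul, Complex.exp_add, Complex.exp_pi_mul_I]; ring

lemma cone_fwd (c : Cst) {ρ : ℝ} (hρ : 0 < ρ) (e R : ℤ) (b : ℝ) {z : ℂ} (hz : 0 < z.re) :
    coneIdx c.k ((e + R : ℤ) * c.α + Real.arctan b) (Ut c ρ e * z)
      = ⌊(ang z - Real.arctan b - R * c.α) / (12 * c.α)⌋ % c.k := by
  have hzn : 0 < ‖z‖ := norm_pos_iff.2 (by rintro rfl; simp at hz)
  have h1 : Ut c ρ e * z = (ρ * ‖z‖ : ℝ) * Complex.exp ((e * c.α + ang z : ℝ) * Complex.I) := by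
    conv_lhs => rw [polar hz]
    unfold Ut
    push_cast
    rw [add_mul, Complex.exp_add]; ring
  have hk : 0 < c.k := by have := c.hk; omega
  rw [h1, coneIdx_polar _ hk _ _ _ (mul_pos hρ hzn)]
  congr 2
  have h2 : (c.k : ℝ) / (2 * Real.pi) = 1 / (12 * c.α) := by
    rw [← c.αk]; have := c.α0; have := c.kpos; field_simp
  have h3 : (c.k : ℝ) * (↑e * c.α + ang z - (((e + R : ℤ) : ℝ) * c.α + Real.arctan b)) / (2 * Real.pi)
      = (c.k : ℝ) / (2 * Real.pi) * (ang z - Real.arctan b - R * c.α) := by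
    push_cast; ring
  rw [h3, h2]; ring
end SecY1

section SecY2
lemma ang_le (c : Cst) {z : ℂ} (hz : 0 < z.re) (h : FC c.T z) :
    ang z ≤ c.α + Real.arctan c.τ := by
  rw [← c.arctan_T]
  apply Real.arctan_strictMono.monotone
  rw [div_le_iff₀ hz]
  exact (le_abs_self _).trans h

lemma le_ang (c : Cst) {z : ℂ} (hz : 0 < z.re) (h : FC c.T z) :
    -(c.α + Real.arctan c.τ) ≤ ang z := by
  rw [← c.arctan_T, ← Real.arctan_neg]
  apply Real.arctan_strictMono.monotone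
  rw [le_div_iff₀ hz]
  have := neg_abs_le z.im
  have h' : |z.im| ≤ c.T * z.re := h
  linarith

lemma arctan_small (c : Cst) {b : ℝ} (h1 : b ≤ 4 * c.τ) (h0 : 0 < b) :
    Real.arctan c.τ + Real.arctan b < c.α := by
  have h3 := c.τ0
  have h4 := c.τ1
  have h5 := c.ha0
  have h6 := c.ha1
  have h7 : c.τ * b ≤ 1/1000 := by nlinarith
  rw [Real.arctan_add (by linarith), ← c.arctan_a]
  apply Real.arctan_strictMono
  rw [div_lt_iff₀ (by linarith)]
  nlinarith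

lemma floor_eq (c : Cst) {x : ℝ} {R : ℤ} {n : ℤ} (h1 : 12 * c.α * n ≤ x - (R % 12 : ℤ) * c.α)
    (h2 : x - (R % 12 : ℤ) * c.α < 12 * c.α * (n + 1)) :
    ⌊(x - R * c.α) / (12 * c.α)⌋ = n - R / 12 := by
  have h0 := c.α0
  have h3 : (R : ℝ) = 12 * ((R / 12 : ℤ) : ℝ) + ((R % 12 : ℤ) : ℝ) := by
    exact_mod_cast (Int.mul_ediv_add_emod R 12).symm
  rw [Int.floor_eq_iff]
  constructor
  · rw [le_div_iff₀ (by positivity), h3]
    push_cast
    nlinarith
  · rw [div_lt_iff₀ (by positivity), h3]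
    push_cast
    nlinarith

lemma floor_mid (c : Cst) {z : ℂ} (hz : 0 < z.re) (h : FC c.T z) {R : ℤ} {b : ℝ}
    (hb0 : c.τ < b) (hb1 : b ≤ 4 * c.τ) (hR1 : 1 ≤ R % 12) (hR2 : R % 12 ≤ 10) :
    ⌊(ang z - Real.arctan b - R * c.α) / (12 * c.α)⌋ = -1 - R / 12 := by
  have h1 := ang_le c hz h
  have h2 := le_ang c hz h
  have h3 := arctan_small c hb1 (c.τ0.trans hb0)
  have h4 : Real.arctan c.τ < Real.arctan b := Real.arctan_strictMono hb0
  have h0 := c.α0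
  have h5 : (1:ℝ) ≤ ((R % 12 : ℤ) : ℝ) := by exact_mod_cast hR1
  have h6 : ((R % 12 : ℤ) : ℝ) ≤ 10 := by exact_mod_cast hR2
  apply floor_eq c
  · push_cast at *; nlinarith
  · push_cast at *; nlinarith

lemma up_iff (b : ℝ) {z : ℂ} (hz : 0 < z.re) : b * z.re ≤ z.im ↔ Real.arctan b ≤ ang z := by
  unfold ang
  rw [Real.arctan_strictMono.le_iff_le, le_div_iff₀ hz]

lemma floor_zero_up (c : Cst) {z : ℂ} (hz : 0 < z.re) (h : FC c.T z) {R : ℤ} {b : ℝ}
    (hb0 : c.τ < b) (hR : R % 12 = 0) (hu : b * z.re ≤ z.im) :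
    ⌊(ang z - Real.arctan b - R * c.α) / (12 * c.α)⌋ = 0 - R / 12 := by
  have h1 := ang_le c hz h
  have h4 : Real.arctan c.τ < Real.arctan b := Real.arctan_strictMono hb0
  have h0 := c.α0
  rw [up_iff b hz] at hu
  apply floor_eq c
  · rw [hR]; push_cast; linarith
  · rw [hR]; push_cast; linarith

lemma floor_zero_dn (c : Cst) {z : ℂ} (hz : 0 < z.re) (h : FC c.T z) {R : ℤ} {b : ℝ}
    (hb0 : c.τ < b) (hb1 : b ≤ 4 * c.τ) (hR : R % 12 = 0) (hu : z.im < b * z.re) :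
    ⌊(ang z - Real.arctan b - R * c.α) / (12 * c.α)⌋ = -1 - R / 12 := by
  have h2 := le_ang c hz h
  have h3 := arctan_small c hb1 (c.τ0.trans hb0)
  have h0 := c.α0
  rw [← not_le, up_iff b hz, not_le] at hu
  apply floor_eq c
  · rw [hR]; push_cast; linarith
  · rw [hR]; push_cast; linarith

lemma up11_iff (c : Cst) {b : ℝ} (hb0 : 0 < b) {z : ℂ} (hz : 0 < z.re) :
    (b - c.a) * z.re ≤ (1 + c.a * b) * z.im ↔ Real.arctan b - c.α ≤ ang z := by
  unfold ang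
  have h1 := c.ha0
  have h2 : 0 < 1 + c.a * b := by positivity
  have h3 : Real.arctan b - c.α = Real.arctan ((b - c.a) / (1 + c.a * b)) := by
    rw [← c.arctan_a, sub_eq_add_neg, ← Real.arctan_neg, Real.arctan_add (by nlinarith)]
    congr 2; ring
  rw [h3, Real.arctan_strictMono.le_iff_le, div_le_div_iff₀ h2 hz]
  constructor
  · intro h; linarith
  · intro h; linarith

lemma floor_eleven_up (c : Cst) {z : ℂ} (hz : 0 < z.re) (h : FC c.T z) {R : ℤ} {b : ℝ}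
    (hb0 : c.τ < b) (hb1 : b ≤ 4 * c.τ) (hR : R % 12 = 11)
    (hu : (b - c.a) * z.re ≤ (1 + c.a * b) * z.im) :
    ⌊(ang z - Real.arctan b - R * c.α) / (12 * c.α)⌋ = -1 - R / 12 := by
  have h1 := ang_le c hz h
  have h3 := arctan_small c hb1 (c.τ0.trans hb0)
  have h4 : Real.arctan c.τ < Real.arctan b := Real.arctan_strictMono hb0
  have h0 := c.α0
  rw [up11_iff c (c.τ0.trans hb0) hz] at hu
  apply floor_eq c
  · rw [hR]; push_cast; linarith
  · rw [hR]; push_cast; linarith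

lemma floor_eleven_dn (c : Cst) {z : ℂ} (hz : 0 < z.re) (h : FC c.T z) {R : ℤ} {b : ℝ}
    (hb0 : c.τ < b) (hb1 : b ≤ 4 * c.τ) (hR : R % 12 = 11)
    (hu : (1 + c.a * b) * z.im < (b - c.a) * z.re) :
    ⌊(ang z - Real.arctan b - R * c.α) / (12 * c.α)⌋ = -2 - R / 12 := by
  have h2 := le_ang c hz h
  have h3 := arctan_small c hb1 (c.τ0.trans hb0)
  have h4 : Real.arctan c.τ < Real.arctan b := Real.arctan_strictMono hb0
  have h0 := c.α0
  rw [← not_le, up11_iff c (c.τ0.trans hb0) hz, not_le] at hu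
  apply floor_eq c
  · rw [hR]; push_cast; linarith
  · rw [hR]; push_cast; linarith

/-- same cone, for displacements in the frame of a placement -/
def SC (c : Cst) (ρ : ℝ) (e R : ℤ) (b : ℝ) (z z' : ℂ) : Prop :=
  coneIdx c.k ((e + R : ℤ) * c.α + Real.arctan b) (Ut c ρ e * z)
    = coneIdx c.k ((e + R : ℤ) * c.α + Real.arctan b) (Ut c ρ e * z')

lemma sc_mid (c : Cst) {ρ : ℝ} (hρ : 0 < ρ) {e R : ℤ} {b : ℝ} (hb0 : c.τ < b) (hb1 : b ≤ 4 * c.τ)
    (hR1 : 1 ≤ R % 12) (hR2 : R % 12 ≤ 10) {z z' : ℂ} (hz : 0 < z.re) (h : FC c.T z)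
    (hz' : 0 < z'.re) (h' : FC c.T z') : SC c ρ e R b z z' := by
  unfold SC
  rw [cone_fwd c hρ _ _ _ hz, cone_fwd c hρ _ _ _ hz', floor_mid c hz h hb0 hb1 hR1 hR2,
    floor_mid c hz' h' hb0 hb1 hR1 hR2]

lemma sc_zero (c : Cst) {ρ : ℝ} (hρ : 0 < ρ) {e R : ℤ} {b : ℝ} (hb0 : c.τ < b) (hb1 : b ≤ 4 * c.τ)
    (hR : R % 12 = 0) {z z' : ℂ} (hz : 0 < z.re) (h : FC c.T z)
    (hz' : 0 < z'.re) (h' : FC c.T z') (hs : b * z.re ≤ z.im ↔ b * z'.re ≤ z'.im) :
    SC c ρ e R b z z' := by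
  unfold SC
  rw [cone_fwd c hρ _ _ _ hz, cone_fwd c hρ _ _ _ hz']
  by_cases hu : b * z.re ≤ z.im
  · rw [floor_zero_up c hz h hb0 hR hu, floor_zero_up c hz' h' hb0 hR (hs.1 hu)]
  · rw [floor_zero_dn c hz h hb0 hb1 hR (not_le.1 hu),
      floor_zero_dn c hz' h' hb0 hb1 hR (not_le.1 (mt hs.2 hu))]

lemma sc_eleven (c : Cst) {ρ : ℝ} (hρ : 0 < ρ) {e R : ℤ} {b : ℝ} (hb0 : c.τ < b)
    (hb1 : b ≤ 4 * c.τ)
    (hR : R % 12 = 11) {z z' : ℂ} (hz : 0 < z.re) (h : FC c.T z)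
    (hz' : 0 < z'.re) (h' : FC c.T z')
    (hs : (b - c.a) * z.re ≤ (1 + c.a * b) * z.im ↔ (b - c.a) * z'.re ≤ (1 + c.a * b) * z'.im) :
    SC c ρ e R b z z' := by
  unfold SC
  rw [cone_fwd c hρ _ _ _ hz, cone_fwd c hρ _ _ _ hz']
  by_cases hu : (b - c.a) * z.re ≤ (1 + c.a * b) * z.im
  · rw [floor_eleven_up c hz h hb0 hb1 hR hu, floor_eleven_up c hz' h' hb0 hb1 hR (hs.1 hu)]
  · rw [floor_eleven_dn c hz h hb0 hb1 hR (not_le.1 hu),
      floor_eleven_dn c hz' h' hb0 hb1 hR (not_le.1 (mt hs.2 hu))]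

/-- turning the frame by a half turn -/
lemma SC_rev (c : Cst) (ρ : ℝ) (e R : ℤ) (b : ℝ) (z z' : ℂ) :
    SC c ρ (e + 6 * c.k) (R - 6 * c.k) b z z' ↔ SC c ρ e R b (-z) (-z') := by
  unfold SC
  rw [Ut_neg, show e + 6 * (c.k : ℤ) + (R - 6 * c.k) = e + R by ring]
  simp only [mul_neg, neg_mul]

/-- backward and forward vectors are in different cones -/
lemma not_sc_fb (c : Cst) {ρ : ℝ} (hρ : 0 < ρ) {e R : ℤ} {b : ℝ} (hb0 : c.τ < b)
    (hb1 : b ≤ 4 * c.τ) (hR : R % 6 = 3) {z z' : ℂ} (hz : 0 < z.re) (h : FC c.T z)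
    (hz' : 0 < z'.re) (h' : FC c.T z') : ¬ SC c ρ e R b z (-z') := by
  unfold SC
  have hk := c.hk
  have e1 : Ut c ρ e * -z' = Ut c ρ (e + 6 * c.k) * z' := by rw [Ut_neg]; ring
  have e2 : e + R = (e + 6 * (c.k : ℤ)) + (R - 6 * c.k) := by ring
  rw [e1, cone_fwd c hρ _ _ _ hz, e2, cone_fwd c hρ _ _ _ hz',
    floor_mid c hz h hb0 hb1 (by omega) (by omega),
    floor_mid c hz' h' hb0 hb1 (by omega) (by omega)]
  intro hh
  have h4 : (c.k : ℤ) ∣ (-1 - R / 12) - (-1 - (R - 6 * c.k) / 12) :=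
    Int.ModEq.dvd (n := (c.k:ℤ)) hh.symm
  have h5 : (-1 - R / 12) - (-1 - (R - 6 * c.k) / 12) = (R - 6 * c.k) / 12 - R / 12 := by ring
  rw [h5] at h4
  have h6 : (R - 6 * c.k) / 12 - R / 12 < 0 := by omega
  have h7 : -(c.k : ℤ) < (R - 6 * c.k) / 12 - R / 12 := by omega
  have := Int.le_of_dvd (a := c.k) (b := -((R - 6 * c.k) / 12 - R / 12)) (by omega) (by rwa [dvd_neg])
  omega
end SecY2

section SecY3
/-- `v` is a nearest point of `W` in its cone, as seen from `p`. -/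
def NN (k : ℕ) (W : Set ℂ) (θ : ℂ → ℝ) (p v : ℂ) : Prop :=
  ∀ w ∈ W, w ≠ p → coneIdx k (θ p) (w - p) = coneIdx k (θ p) (v - p) → ‖v - p‖ ≤ ‖w - p‖

def SNN (k : ℕ) (W : Set ℂ) (θ : ℂ → ℝ) (p v : ℂ) : Prop :=
  ∀ w ∈ W, w ≠ p → w ≠ v → coneIdx k (θ p) (w - p) = coneIdx k (θ p) (v - p) → ‖v - p‖ < ‖w - p‖

def Killed (k : ℕ) (W : Set ℂ) (θ : ℂ → ℝ) (p v : ℂ) : Prop :=
  ∃ w ∈ W, w ≠ v ∧ SNN k W θ w v ∧ coneIdx k (θ v) (w - v) = coneIdx k (θ v) (p - v) ∧
    ‖w - v‖ < ‖p - v‖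

/-- displacement along a side of slope sign `ε`. -/
def SD (c : Cst) (ε : ℤ) (z : ℂ) : Prop :=
  0 ≤ z.re ∧ (c.a - 2 * c.τ) * z.re ≤ ε * z.im ∧ ε * z.im ≤ (c.a + 2 * c.τ) * z.re

lemma SD.add {c : Cst} {ε : ℤ} {z w : ℂ} (hz : SD c ε z) (hw : SD c ε w) : SD c ε (z + w) := by
  obtain ⟨h1, h2, h3⟩ := hz
  obtain ⟨h4, h5, h6⟩ := hw
  refine ⟨?_, ?_, ?_⟩ <;> simp only [Complex.add_re, Complex.add_im] <;> nlinarith

lemma SD.zero (c : Cst) (ε : ℤ) : SD c ε 0 := by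
  refine ⟨?_, ?_, ?_⟩ <;> simp

/-- direction of a side -/
noncomputable def dir (c : Cst) (ε : ℤ) (r : ℝ) : ℂ := ⟨c.w * r, c.w * r * (ε * c.a)⟩

lemma dir_mul_re (c : Cst) (ε : ℤ) (r : ℝ) (ζ : ℂ) :
    (dir c ε r * ζ).re = c.w * r * (ζ.re - ε * c.a * ζ.im) := by
  simp [dir]; ring

lemma dir_mul_im (c : Cst) (ε : ℤ) (r : ℝ) (ζ : ℂ) :
    (dir c ε r * ζ).im = c.w * r * (ζ.im + ε * c.a * ζ.re) := by
  simp [dir]; ring

lemma dir_props (c : Cst) {ε : ℤ} (hε : ε = 1 ∨ ε = -1) {r : ℝ} (hr : 0 < r) {ζ : ℂ}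
    (h0 : 0 < ζ.re) (h : FC c.τ ζ) :
    0 < (dir c ε r * ζ).re ∧ FC c.T (dir c ε r * ζ) ∧ SD c ε (dir c ε r * ζ) := by
  have hτ := c.τ0
  have hτ1 := c.τ1
  have ha := c.ha0
  have ha1 := c.ha1
  have haτ := c.aτ1
  have hT := c.T_le
  have hT0 := c.T0
  have hTd : c.T * (1 - c.a * c.τ) = c.a + c.τ := by
    rw [c.hT]; field_simp [show (1 - c.a * c.τ) ≠ 0 by linarith]
  have hw : 0 < c.w * r := mul_pos c.hw0 hr
  have hi := abs_le.1 (show |ζ.im| ≤ c.τ * ζ.re from h)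
  obtain ⟨hi1, hi2⟩ := hi
  -- basic real inequality for ε = 1 applied to ±
  have key : ∀ x y : ℝ, 0 < x → -(c.τ * x) ≤ y → y ≤ c.τ * x →
      0 < x - c.a * y ∧ y + c.a * x ≤ c.T * (x - c.a * y) ∧
      (c.a - 2 * c.τ) * (x - c.a * y) ≤ y + c.a * x ∧ 0 ≤ y + c.a * x := by
    intro x y hx hy1 hy2
    have e1 : c.a * y ≤ c.a * (c.τ * x) := by nlinarith
    have e2 : -(c.a * (c.τ * x)) ≤ c.a * y := by nlinarith
    have e3 : c.a * (c.τ * x) = (c.a * c.τ) * x := by ring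
    have e4 : (c.a * c.τ) * x ≤ 1/1000 * x := by nlinarith
    refine ⟨by linarith, ?_, ?_, ?_⟩
    · -- y + a x ≤ T (x - a y)
      have f1 : c.T * (x - c.a * y) - (y + c.a * x)
          = (c.T * (1 - c.a * c.τ) - (c.a + c.τ)) * x + (1 + c.T * c.a) * (c.τ * x - y) := by ring
      have f2 : 0 ≤ (1 + c.T * c.a) * (c.τ * x - y) :=
        mul_nonneg (by positivity) (by linarith)
      rw [hTd] at f1
      linarith
    · -- lower
      have f1 : y + c.a * x - (c.a - 2 * c.τ) * (x - c.a * y)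
          = (1 + c.a * (c.a - 2 * c.τ)) * (y + c.τ * x)
            + c.τ * x * (2 - (1 + c.a * (c.a - 2 * c.τ))) := by ring
      have f2 : 0 ≤ c.a - 2 * c.τ := by linarith
      have f3 : c.a * (c.a - 2 * c.τ) ≤ 1 := by nlinarith
      have f4 : 0 ≤ (1 + c.a * (c.a - 2 * c.τ)) * (y + c.τ * x) :=
        mul_nonneg (by positivity) (by linarith)
      have f5 : 0 ≤ c.τ * x * (2 - (1 + c.a * (c.a - 2 * c.τ))) :=
        mul_nonneg (by positivity) (by linarith)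
      linarith
    · nlinarith
  unfold FC SD
  rw [dir_mul_re, dir_mul_im]
  rcases hε with rfl | rfl
  · obtain ⟨k1, k2, k3, k4⟩ := key ζ.re ζ.im h0 hi1 hi2
    push_cast
    have e1 : ζ.re - 1 * c.a * ζ.im = ζ.re - c.a * ζ.im := by ring
    have e2 : ζ.im + 1 * c.a * ζ.re = ζ.im + c.a * ζ.re := by ring
    rw [e1, e2]
    have k5 : ζ.im + c.a * ζ.re ≤ (c.a + 2 * c.τ) * (ζ.re - c.a * ζ.im) :=
      k2.trans (mul_le_mul_of_nonneg_right hT k1.le)
    refine ⟨mul_pos hw k1, ?_, (mul_pos hw k1).le, ?_, ?_⟩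
    · rw [abs_of_nonneg (mul_nonneg hw.le k4)]; nlinarith
    · nlinarith
    · nlinarith
  · obtain ⟨k1, k2, k3, k4⟩ := key ζ.re (-ζ.im) h0 (by linarith) (by linarith)
    push_cast
    have e1 : ζ.re - (-1) * c.a * ζ.im = ζ.re - c.a * -ζ.im := by ring
    have e2 : ζ.im + (-1) * c.a * ζ.re = -(-ζ.im + c.a * ζ.re) := by ring
    rw [e1, e2]
    have k5 : -ζ.im + c.a * ζ.re ≤ (c.a + 2 * c.τ) * (ζ.re - c.a * -ζ.im) :=
      k2.trans (mul_le_mul_of_nonneg_right hT k1.le)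
    refine ⟨mul_pos hw k1, ?_, (mul_pos hw k1).le, ?_, ?_⟩
    · rw [mul_neg, abs_neg, abs_of_nonneg (mul_nonneg hw.le k4)]; nlinarith
    · nlinarith
    · nlinarith

lemma dir_one (c : Cst) {ε : ℤ} (hε : ε = 1 ∨ ε = -1) {r : ℝ} (hr : 0 ≤ r) :
    SD c ε (dir c ε r) := by
  rcases hr.eq_or_lt with rfl | hr
  · have : dir c ε 0 = 0 := by apply Complex.ext <;> simp [dir]
    rw [this]; exact SD.zero c ε
  · have := (dir_props c hε hr (ζ := 1) (by simp) (by simp [FC, c.τ0.le])).2.2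
    simpa using this

lemma norm_lt_add (c : Cst) {z w : ℂ} (hz : 0 < z.re) (h : FC c.T z) (hw : 0 < w.re)
    (h' : FC c.T w) : ‖z‖ < ‖z + w‖ := by
  have hT := c.T_le
  have hT0 := c.T0
  have hτ1 := c.τ1
  have ha := c.ha0
  have ha1 := c.ha1
  have hT1 : c.T ≤ 1/2 := by linarith
  have h1 : |z.im| ≤ 1/2 * z.re := h.trans (by nlinarith)
  have h2 : |w.im| ≤ 1/2 * w.re := h'.trans (by nlinarith)
  have h3 : -(1/4 * (z.re * w.re)) ≤ z.im * w.im := by
    have : |z.im * w.im| ≤ (1/2 * z.re) * (1/2 * w.re) := by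
      rw [abs_mul]; exact mul_le_mul h1 h2 (abs_nonneg _) (by positivity)
    have := neg_abs_le (z.im * w.im)
    linarith
  rw [← sq_lt_sq₀ (norm_nonneg _) (norm_nonneg _), Complex.sq_norm, Complex.sq_norm,
    Complex.normSq_apply, Complex.normSq_apply]
  simp only [Complex.add_re, Complex.add_im]
  have := mul_pos hz hw
  nlinarith [sq_nonneg w.im, mul_pos hw hw]
end SecY3

section SecY4
/-- crossing: the ray of slope `b` from `p` crosses the next side strictly inside the frozen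
piece `x' y'`. -/
def Crs (S : Set ℝ) (A : ℝ → ℝ → Prop) (Q : ℝ → ℂ) (ε : ℤ) (j : ℤ) (p : ℂ) (b : ℝ) : Prop :=
  ∃ x' y', x' ∈ S ∧ y' ∈ S ∧ x' < y' ∧ (j : ℝ) + 1 ≤ x' ∧ y' ≤ j + 2 ∧
    (∀ s ∈ S, s ≤ x' ∨ y' ≤ s) ∧ ¬ A x' y' ∧
    0 < ε * ((Q x' - p).im - b * (Q x' - p).re) ∧ ε * ((Q y' - p).im - b * (Q y' - p).re) < 0

structure Fr (c : Cst) (W : Set ℂ) (θ : ℂ → ℝ) where
  ρ : ℝ
  e : ℤ
  z0 : ℂ
  RB : ℤ
  Q : ℝ → ℂ
  m : ℤ
  n : ℤ
  ε : ℤ → ℤ
  S : Set ℝ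
  A : ℝ → ℝ → Prop
  sub : ℂ → ℤ → Prop
  hρ : 0 < ρ
  hmn : m ≤ n
  mono : ∀ s s' : ℝ, (m:ℝ) - 1 ≤ s → s < s' → s' ≤ n + 1 → 0 < (Q s' - Q s).re ∧ FC c.a (Q s' - Q s)
  εv : ∀ j, ε j = 1 ∨ ε j = -1
  εs : ∀ j, ε (j+1) = - ε j
  lin : ∀ j : ℤ, m ≤ j → j < n → ∀ s s' : ℝ, (j:ℝ) ≤ s → s ≤ j+1 → (j:ℝ) ≤ s' → s' ≤ j+1 →
    Q s' - Q s = dir c (ε j) (s'-s)
  low : ∀ j : ℤ, m ≤ j → j < n → ε j = 1 → ∀ s : ℝ, (m:ℝ)-1 ≤ s → s ≤ n+1 → (Q j).im ≤ (Q s).im
  Sfin : S.Finite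
  Sint : ∀ j:ℤ, m - 1 ≤ j → j ≤ n + 1 → (j:ℝ) ∈ S
  Sdom : ∀ s∈S, s = m-1 ∨ ((m:ℝ) ≤ s ∧ s ≤ n) ∨ s = n+1
  Ax : ∀ x y, A x y → x∈S ∧ y∈S ∧ x<y ∧ (∀s∈S, s≤x ∨ y ≤ s) ∧ m+2 ≤ ⌊x⌋ ∧ ⌊x⌋ ≤ n-3 ∧
    (⌊x⌋:ℝ)+c.κ≤x ∧ y≤ ⌊x⌋+1-c.κ
  thin : ∀ ζ d, sub ζ d → 0<ζ.re ∧ ζ.re<1 ∧ FC c.τ ζ ∧ FC c.τ (1-ζ)
  comp : ∀ ζ d, sub ζ d → (RB+d)%12=0 → ∃ ζ' d', sub ζ' d' ∧ 0<(ζ'-ζ).re ∧ FC c.T (ζ'-ζ) ∧
    4*c.τ*(ζ'-ζ).re < (ζ'-ζ).im ∧ ‖ζ'-ζ‖<‖1-ζ‖
  RBv : RB % 6 = 3
  wS : ∀ s ∈ S, (m:ℝ) ≤ s → s ≤ n → z0 + Ut c ρ e * Q s ∈ W ∧ ∃ b, 2*c.τ ≤ b ∧ b≤4*c.τ ∧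
    θ (z0 + Ut c ρ e * Q s) = (e+RB : ℤ) * c.α + Real.arctan b
  wE : ∀ s : ℝ, (s = m-1 ∨ s = n+1) → z0 + Ut c ρ e * Q s ∈ W → ∃ (b:ℝ) (d:ℤ), |d| ≤ 1 ∧ 2*c.τ ≤ b ∧
    b≤4*c.τ ∧ θ (z0 + Ut c ρ e * Q s) = (e+(RB+d) : ℤ) * c.α + Real.arctan b
  wA : ∀ x y ζ d, A x y → sub ζ d → z0 + Ut c ρ e * (Q x + (Q y - Q x) * ζ) ∈ W ∧
    ∃ b, 2*c.τ ≤ b ∧ b≤4*c.τ ∧ θ (z0 + Ut c ρ e * (Q x + (Q y - Q x) * ζ))
      = (e+(RB+ε ⌊x⌋ + d) : ℤ) * c.α + Real.arctan b ∧
      ((RB+ε ⌊x⌋ + d) % 12 = 0 → Crs S A Q (ε ⌊x⌋) ⌊x⌋ (Q x + (Q y - Q x) * ζ) b)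
  out : ∀ o ∈ W, (∃ s ∈ S, o = z0 + Ut c ρ e * Q s) ∨
    (∃ x y ζ d, A x y ∧ sub ζ d ∧ o = z0 + Ut c ρ e * (Q x + (Q y - Q x) * ζ)) ∨
    (∀ s ∈ S, (m:ℝ) ≤ s → s ≤ n → ρ * c.κ ≤ ‖o - (z0 + Ut c ρ e * Q s)‖)

namespace Fr
variable {c : Cst} {W : Set ℂ} {θ : ℂ → ℝ} (F : Fr c W θ)

/-- location of a closed vertex -/
def Loc (l h : ℝ) (v : ℂ) : Prop :=
  (l ∈ F.S ∧ h = l ∧ v = F.Q l) ∨ (F.A l h ∧ ∃ ζ d, F.sub ζ d ∧ v = F.Q l + (F.Q h - F.Q l) * ζ)

noncomputable def pt (v : ℂ) : ℂ := F.z0 + Ut c F.ρ F.e * v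

lemma pt_sub (v p : ℂ) : F.pt v - F.pt p = Ut c F.ρ F.e * (v - p) := by unfold pt; ring

lemma norm_pt_sub (v p : ℂ) : ‖F.pt v - F.pt p‖ = F.ρ * ‖v - p‖ := by
  rw [pt_sub, norm_mul, norm_Ut c F.hρ]

lemma pt_inj {v p : ℂ} (h : F.pt v = F.pt p) : v = p := by
  have h1 := F.norm_pt_sub v p
  rw [h, sub_self, norm_zero] at h1
  rcases mul_eq_zero.1 h1.symm with h | h
  · exact absurd h F.hρ.ne'
  · exact sub_eq_zero.1 (norm_eq_zero.1 h)

lemma Loc_mem {l h : ℝ} {v : ℂ} (H : F.Loc l h v) :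
    l ∈ F.S ∧ h ∈ F.S ∧ l ≤ h ∧ (∀ s ∈ F.S, s ≤ l ∨ h ≤ s) := by
  rcases H with ⟨h1, rfl, -⟩ | ⟨h1, -⟩
  · exact ⟨h1, h1, le_rfl, fun s _ => le_total _ _⟩
  · obtain ⟨h2, h3, h4, h5, -⟩ := F.Ax _ _ h1
    exact ⟨h2, h3, h4.le, h5⟩

lemma S_dom {s : ℝ} (hs : s ∈ F.S) : (F.m:ℝ) - 1 ≤ s ∧ s ≤ F.n + 1 := by
  have hmn : (F.m:ℝ) ≤ F.n := by exact_mod_cast F.hmn
  rcases F.Sdom s hs with h | h | h
  · constructor <;> linarith
  · constructor <;> linarith
  · constructor <;> linarith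

lemma A_dir {x y : ℝ} (h : F.A x y) : F.Q y - F.Q x = dir c (F.ε ⌊x⌋) (y - x) := by
  obtain ⟨h2, h3, h4, h5, h6, h7, h8, h9⟩ := F.Ax _ _ h
  have := c.hκ0
  exact F.lin _ (by omega) (by omega) _ _ (by linarith) (by linarith) (by linarith) (by linarith)

lemma Q_fwd {s s' : ℝ} (h1 : (F.m:ℝ) - 1 ≤ s) (h2 : s < s') (h3 : s' ≤ F.n + 1) :
    0 < (F.Q s' - F.Q s).re ∧ FC c.T (F.Q s' - F.Q s) := by
  obtain ⟨h4, h5⟩ := F.mono s s' h1 h2 h3
  have := c.le_T
  have := c.τ0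
  exact ⟨h4, h5.mono (by linarith) h4.le⟩

lemma add_fwd {z w : ℂ} (hz : 0 < z.re ∧ FC c.T z) (hw : 0 < w.re ∧ FC c.T w) :
    0 < (z + w).re ∧ FC c.T (z + w) :=
  ⟨by rw [Complex.add_re]; linarith [hz.1, hw.1], hz.2.add hw.2⟩

lemma sub_l {x y : ℝ} {ζ : ℂ} {d : ℤ} (h : F.A x y) (hs : F.sub ζ d) :
    0 < ((F.Q y - F.Q x) * ζ).re ∧ FC c.T ((F.Q y - F.Q x) * ζ) ∧
      SD c (F.ε ⌊x⌋) ((F.Q y - F.Q x) * ζ) := by
  obtain ⟨h2, h3, h4, h5, h6, h7, h8, h9⟩ := F.Ax _ _ h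
  obtain ⟨t1, t2, t3, t4⟩ := F.thin _ _ hs
  rw [F.A_dir h]
  exact dir_props c (F.εv _) (by linarith) t1 t3

lemma sub_r {x y : ℝ} {ζ : ℂ} {d : ℤ} (h : F.A x y) (hs : F.sub ζ d) :
    0 < ((F.Q y - F.Q x) * (1 - ζ)).re ∧ FC c.T ((F.Q y - F.Q x) * (1 - ζ)) ∧
      SD c (F.ε ⌊x⌋) ((F.Q y - F.Q x) * (1 - ζ)) := by
  obtain ⟨h2, h3, h4, h5, h6, h7, h8, h9⟩ := F.Ax _ _ h
  obtain ⟨t1, t2, t3, t4⟩ := F.thin _ _ hs
  rw [F.A_dir h]
  exact dir_props c (F.εv _) (by linarith) (by simp; linarith) t4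

lemma disp_fwd {l h s : ℝ} {v : ℂ} (H : F.Loc l h v) (h1 : (F.m:ℝ) - 1 ≤ s) (h2 : s ≤ l)
    (h3 : v ≠ F.Q s) : 0 < (v - F.Q s).re ∧ FC c.T (v - F.Q s) := by
  have hl := F.S_dom (F.Loc_mem H).1
  rcases H with ⟨_, _, rfl⟩ | ⟨hA, ζ, d, hs, rfl⟩
  · rcases h2.eq_or_lt with rfl | h2
    · exact absurd rfl h3
    · exact F.Q_fwd h1 h2 hl.2
  · obtain ⟨g1, g2, -⟩ := F.sub_l hA hs
    rcases h2.eq_or_lt with rfl | h2
    · rw [add_sub_cancel_left]; exact ⟨g1, g2⟩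
    · have := add_fwd (F.Q_fwd h1 h2 hl.2) ⟨g1, g2⟩
      rw [show F.Q l + (F.Q h - F.Q l) * ζ - F.Q s = (F.Q l - F.Q s) + (F.Q h - F.Q l) * ζ by ring]
      exact this

lemma disp_bwd {l h s : ℝ} {v : ℂ} (H : F.Loc l h v) (h1 : h ≤ s) (h2 : s ≤ F.n + 1)
    (h3 : v ≠ F.Q s) : 0 < (F.Q s - v).re ∧ FC c.T (F.Q s - v) := by
  have hl := F.S_dom (F.Loc_mem H).2.1
  rcases H with ⟨_, rfl, rfl⟩ | ⟨hA, ζ, d, hs, rfl⟩
  · rcases h1.eq_or_lt with rfl | h1
    · exact absurd rfl h3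
    · exact F.Q_fwd hl.1 h1 h2
  · obtain ⟨g1, g2, -⟩ := F.sub_r hA hs
    rcases h1.eq_or_lt with rfl | h1
    · rw [show F.Q h - (F.Q l + (F.Q h - F.Q l) * ζ) = (F.Q h - F.Q l) * (1 - ζ) by ring]
      exact ⟨g1, g2⟩
    · have := add_fwd (F.Q_fwd hl.1 h1 h2) ⟨g1, g2⟩
      rw [show F.Q s - (F.Q l + (F.Q h - F.Q l) * ζ)
        = (F.Q s - F.Q h) + (F.Q h - F.Q l) * (1 - ζ) by ring]
      exact this

/-- `Q` along a side -/
lemma Q_side {j : ℤ} (hj : F.m ≤ j) (hj' : j < F.n) {s s' : ℝ} (h1 : (j:ℝ) ≤ s) (h2 : s ≤ s')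
    (h3 : s' ≤ j + 1) : SD c (F.ε j) (F.Q s' - F.Q s) := by
  rw [F.lin j hj hj' s s' h1 (by linarith) (by linarith) h3]
  exact dir_one c (F.εv _) (by linarith)

lemma floor_side {l h : ℝ} (hA : F.A l h) {j : ℤ} (h1 : (j:ℝ) ≤ l) (h2 : h ≤ j + 1) : ⌊l⌋ = j := by
  obtain ⟨_, _, h4, _⟩ := F.Ax _ _ hA
  rw [Int.floor_eq_iff]; constructor <;> linarith

lemma side_fwd {j : ℤ} (hj : F.m ≤ j) (hj' : j < F.n) {l h s : ℝ} {v : ℂ} (H : F.Loc l h v)
    (h1 : (j:ℝ) ≤ s) (h2 : s ≤ l) (h3 : h ≤ j + 1) : SD c (F.ε j) (v - F.Q s) := by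
  have hm := F.Loc_mem H
  rcases H with ⟨_, rfl, rfl⟩ | ⟨hA, ζ, d, hs, rfl⟩
  · exact F.Q_side hj hj' h1 h2 h3
  · obtain ⟨_, _, g1⟩ := F.sub_l hA hs
    rw [F.floor_side hA (h1.trans h2) h3] at g1
    have := (F.Q_side hj hj' h1 h2 (hm.2.2.1.trans h3)).add g1
    rw [show F.Q l + (F.Q h - F.Q l) * ζ - F.Q s = (F.Q l - F.Q s) + (F.Q h - F.Q l) * ζ by ring]
    exact this

lemma side_bwd {j : ℤ} (hj : F.m ≤ j) (hj' : j < F.n) {l h s : ℝ} {v : ℂ} (H : F.Loc l h v)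
    (h1 : (j:ℝ) ≤ l) (h2 : h ≤ s) (h3 : s ≤ j + 1) : SD c (F.ε j) (F.Q s - v) := by
  have hm := F.Loc_mem H
  rcases H with ⟨_, rfl, rfl⟩ | ⟨hA, ζ, d, hs, rfl⟩
  · exact F.Q_side hj hj' h1 h2 h3
  · obtain ⟨_, _, g1⟩ := F.sub_r hA hs
    rw [F.floor_side hA h1 (h2.trans h3)] at g1
    have := (F.Q_side hj hj' (h1.trans hm.2.2.1) h2 h3).add g1
    rw [show F.Q s - (F.Q l + (F.Q h - F.Q l) * ζ)
      = (F.Q s - F.Q h) + (F.Q h - F.Q l) * (1 - ζ) by ring]
    exact this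

lemma split_int {l h : ℝ} {v : ℂ} (H : F.Loc l h v) {j : ℤ} (h1 : F.m - 1 ≤ j) (h2 : j ≤ F.n + 1) :
    h ≤ j ∨ (j:ℝ) ≤ l := by
  rcases (F.Loc_mem H).2.2.2 j (F.Sint j h1 h2) with h | h
  · exact Or.inr h
  · exact Or.inl h

lemma NN_use {p v v' : ℂ} {R : ℤ} {b : ℝ} (hW : F.pt v' ∈ W) (hne : v' ≠ p)
    (hθ : θ (F.pt p) = (F.e + R : ℤ) * c.α + Real.arctan b)
    (hs : SC c F.ρ F.e R b (v' - p) (v - p)) (hN : NN c.k W θ (F.pt p) (F.pt v)) :
    ‖v - p‖ ≤ ‖v' - p‖ := by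
  have h1 := hN (F.pt v') hW (fun h => hne (F.pt_inj h)) (by
    rw [hθ, pt_sub, pt_sub]; exact hs)
  rw [norm_pt_sub, norm_pt_sub] at h1
  exact le_of_mul_le_mul_left h1 F.hρ

end Fr
end SecY4

section SecY5
lemma norm_dir_lt (c : Cst) {ε : ℤ} (hε : ε = 1 ∨ ε = -1) {r : ℝ} (h0 : 0 ≤ r) (h1 : r ≤ 1) :
    ‖dir c ε r‖ < c.κ := by
  have hw := c.hw
  have hw0 := c.hw0
  have hτ1 := c.τ1
  have ha := c.ha0
  have ha1 := c.ha1
  have hκ := c.hκ0
  have hτ0 := c.τ0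
  have h2 : ‖dir c ε r‖ ≤ |(dir c ε r).re| + |(dir c ε r).im| := Complex.norm_le_abs_re_add_abs_im _
  have h3 : |(dir c ε r).re| = c.w * r := by
    simp only [dir]; exact abs_of_nonneg (by positivity)
  have h4 : |(dir c ε r).im| = c.w * r * c.a := by
    simp only [dir]
    rw [abs_mul, abs_of_nonneg (by positivity : 0 ≤ c.w * r), abs_mul, abs_of_pos ha]
    rcases hε with rfl | rfl <;> simp
  have h5 : c.w * r ≤ c.w := by nlinarith
  have h6 : c.w * r * c.a ≤ c.w := by nlinarith [mul_nonneg hw0.le h0]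
  have h7 : c.τ * c.κ < c.κ / 4 := by nlinarith
  linarith

namespace Fr
variable {c : Cst} {W : Set ℂ} {θ : ℂ → ℝ} (F : Fr c W θ)

lemma frozen_kill {x' y' : ℝ} (hx : x' ∈ F.S) (hy : y' ∈ F.S) (hxy : x' < y') {j : ℤ}
    (hj1 : F.m ≤ j) (hj2 : j < F.n)
    (hjx : (j:ℝ) ≤ x') (hyj : y' ≤ j + 1) (hcon : ∀ s ∈ F.S, s ≤ x' ∨ y' ≤ s) (hA : ¬ F.A x' y')
    {p : ℂ} (hp0 : 0 < (F.Q x' - p).re) (hp : FC c.T (F.Q x' - p)) :
    Killed c.k W θ (F.pt p) (F.pt (F.Q y')) := by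
  have hm1 : (F.m:ℝ) ≤ j := by exact_mod_cast hj1
  have hm2 : (j:ℝ) + 1 ≤ F.n := by exact_mod_cast hj2
  have hτ := c.τ0
  have hf := F.Q_fwd (s := x') (s' := y') (by linarith) hxy (by linarith)
  obtain ⟨hWx, b, hb0, hb1, hθx⟩ := F.wS x' hx (by linarith) (by linarith)
  obtain ⟨hWy, b', hb0', hb1', hθy⟩ := F.wS y' hy (by linarith) (by linarith)
  have hRB := F.RBv
  refine ⟨F.pt (F.Q x'), hWx, ?_, ?_, ?_, ?_⟩
  · intro h
    have := F.pt_inj h
    rw [this, sub_self] at hf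
    simp at hf
  · intro o ho hox hoy hcone
    have hcone' : ∀ v : ℂ, o = F.pt v → SC c F.ρ F.e F.RB b (v - F.Q x') (F.Q y' - F.Q x') := by
      intro v hv
      rw [hv, pt_sub, pt_sub] at hcone
      have hθx' : θ (F.pt (F.Q x')) = (F.e + F.RB : ℤ) * c.α + Real.arctan b := hθx
      rw [hθx'] at hcone
      exact hcone
    have back : ∀ v : ℂ, o = F.pt v → 0 < (F.Q x' - v).re ∧ FC c.T (F.Q x' - v) → False := by
      intro v hv ⟨h1, h2⟩
      have h3 := hcone' v hv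
      rw [← neg_sub (F.Q x') v] at h3
      exact not_sc_fb c F.hρ (by linarith) hb1 hRB hf.1 hf.2 h1 h2 h3.symm
    have far : ∀ v : ℂ, o = F.pt v → 0 < (v - F.Q y').re ∧ FC c.T (v - F.Q y') →
        ‖F.pt (F.Q y') - F.pt (F.Q x')‖ < ‖o - F.pt (F.Q x')‖ := by
      intro v hv ⟨h1, h2⟩
      rw [hv, norm_pt_sub, norm_pt_sub]
      apply mul_lt_mul_of_pos_left _ F.hρ
      have := norm_lt_add c hf.1 hf.2 h1 h2
      rwa [show F.Q y' - F.Q x' + (v - F.Q y') = v - F.Q x' by ring] at this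
    rcases F.out o ho with ⟨s, hs, rfl⟩ | ⟨x, y, ζ, d, hAxy, hsub, rfl⟩ | hfar
    · rcases lt_trichotomy s x' with h | rfl | h
      · exact (back (F.Q s) rfl (F.Q_fwd (F.S_dom hs).1 h (by linarith))).elim
      · exact absurd rfl hox
      · have h1 : y' ≤ s := (hcon s hs).resolve_left (not_le.2 h)
        rcases h1.eq_or_lt with rfl | h1
        · exact absurd rfl hoy
        · exact far (F.Q s) rfl (F.Q_fwd (by linarith) h1 (F.S_dom hs).2)
    · have hL : F.Loc x y (F.Q x + (F.Q y - F.Q x) * ζ) := Or.inr ⟨hAxy, ζ, d, hsub, rfl⟩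
      obtain ⟨a1, a2, a3, a4, -⟩ := F.Ax _ _ hAxy
      rcases a4 x' hx with h | h
      · rcases h.eq_or_lt with rfl | h
        · exfalso
          have h1 : y ≤ y' := (a4 y' hy).resolve_left (not_le.2 hxy)
          have h2 : y' ≤ y := (hcon y a2).resolve_left (not_le.2 a3)
          rw [le_antisymm h1 h2] at hAxy
          exact hA hAxy
        · have h1 : y' ≤ x := (hcon x a1).resolve_left (not_le.2 h)
          refine far _ rfl (F.disp_fwd hL (by linarith) h1 ?_)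
          intro h2
          apply hoy
          unfold pt
          rw [h2]
      · refine (back _ rfl (F.disp_bwd hL h (by linarith) ?_)).elim
        intro h2
        apply hox
        unfold pt
        rw [h2]
    · have h1 := hfar x' hx (by linarith) (by linarith)
      refine lt_of_lt_of_le ?_ h1
      rw [norm_pt_sub]
      apply mul_lt_mul_of_pos_left _ F.hρ
      rw [F.lin j hj1 hj2 x' y' hjx (by linarith) (by linarith) hyj]
      exact norm_dir_lt c (F.εv j) (by linarith) (by linarith)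
  · have hθy' : θ (F.pt (F.Q y')) = (F.e + F.RB : ℤ) * c.α + Real.arctan b' := hθy
    rw [hθy', pt_sub, pt_sub]
    have h1 : SC c F.ρ F.e F.RB b' (-(F.Q y' - F.Q x')) (-(F.Q y' - p)) := by
      rw [← SC_rev]
      have h2 := add_fwd hf ⟨hp0, hp⟩
      rw [show F.Q y' - F.Q x' + (F.Q x' - p) = F.Q y' - p by ring] at h2
      exact sc_mid c F.hρ (by linarith) hb1' (by omega) (by omega) hf.1 hf.2 h2.1 h2.2
    rw [neg_sub, neg_sub] at h1
    exact h1
  · rw [norm_pt_sub, norm_pt_sub]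
    apply mul_lt_mul_of_pos_left _ F.hρ
    have := norm_lt_add c hf.1 hf.2 hp0 hp
    rw [show F.Q y' - F.Q x' + (F.Q x' - p) = F.Q y' - p by ring] at this
    rwa [norm_sub_rev (F.Q x'), norm_sub_rev p]

lemma exists_next {s t : ℝ} (ht : t ∈ F.S) (hst : s < t) :
    ∃ s' ∈ F.S, s < s' ∧ ∀ r ∈ F.S, r ≤ s ∨ s' ≤ r := by
  have hfin : (F.S ∩ Set.Ioi s).Finite := F.Sfin.subset Set.inter_subset_left
  obtain ⟨s', hs', hmin⟩ := hfin.exists_minimalFor id _ ⟨t, ht, hst⟩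
  refine ⟨s', hs'.1, hs'.2, fun r hr => ?_⟩
  by_contra hc
  push Not at hc
  have := hmin (j := r) ⟨hr, hc.1⟩ hc.2.le
  simp only [id] at this
  linarith [hc.2]

theorem fwd_bp {s : ℝ} (hs : s ∈ F.S) (hW : F.pt (F.Q s) ∈ W) {l h : ℝ} {v : ℂ}
    (hL : F.Loc l h v) (hsl : s ≤ l) (hv : v ≠ F.Q s)
    (hN : NN c.k W θ (F.pt (F.Q s)) (F.pt v)) :
    ∃ s' ∈ F.S, s < s' ∧ (∀ r ∈ F.S, r ≤ s ∨ s' ≤ r) ∧ (v = F.Q s' ∨ (l = s ∧ h = s' ∧ F.A s s')) := by
  have hτ := c.τ0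
  have hRB := F.RBv
  obtain ⟨m1, m2, m3, m4⟩ := F.Loc_mem hL
  -- there is a larger element
  have hex : ∃ t ∈ F.S, s < t := by
    rcases hL with ⟨_, rfl, rfl⟩ | ⟨hA, _⟩
    · exact ⟨h, m1, lt_of_le_of_ne hsl (fun h => hv (by rw [h]))⟩
    · obtain ⟨_, a2, a3, _⟩ := F.Ax _ _ hA
      exact ⟨h, a2, lt_of_le_of_lt hsl a3⟩
  obtain ⟨t, ht, hst⟩ := hex
  obtain ⟨s', hs', hss', hcon⟩ := F.exists_next ht hst
  refine ⟨s', hs', hss', hcon, ?_⟩
  by_cases hls : l < s'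
  · right
    have hl : l = s := le_antisymm ((hcon l m1).resolve_right (not_le.2 hls)) hsl
    subst hl
    rcases hL with ⟨_, rfl, rfl⟩ | ⟨hA, _⟩
    · exact absurd rfl hv
    · have h1 : h ≤ s' := (m4 s' hs').resolve_left (not_le.2 hss')
      have h2 : s' ≤ h := (hcon h m2).resolve_left (not_le.2 (F.Ax _ _ hA).2.2.1)
      have := le_antisymm h1 h2
      subst this
      exact ⟨rfl, rfl, hA⟩
  · left
    push Not at hls
    by_contra hne
    have hsd := F.S_dom hs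
    have hsd' := F.S_dom hs'
    have g1 := F.Q_fwd hsd.1 hss' hsd'.2
    have g2 := F.disp_fwd hL (by linarith) hls hne
    have g3 := F.disp_fwd hL hsd.1 hsl hv
    have hWs' : F.pt (F.Q s') ∈ W := by
      rcases F.Sdom s' hs' with h1 | h1 | h1
      · linarith
      · exact (F.wS s' hs' h1.1 h1.2).1
      · exfalso
        have hl : l = s' := le_antisymm (by have := (F.S_dom m1).2; linarith) hls
        subst hl
        rcases hL with ⟨_, rfl, rfl⟩ | ⟨hA, _⟩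
        · exact hne rfl
        · have := (F.Ax _ _ hA).2.2.1
          have := (F.S_dom m2).2
          linarith
    -- orientation at s
    have hor : ∃ (b : ℝ) (d : ℤ), |d| ≤ 1 ∧ 2*c.τ ≤ b ∧ b ≤ 4*c.τ ∧
        θ (F.pt (F.Q s)) = (F.e+(F.RB+d) : ℤ) * c.α + Real.arctan b := by
      rcases F.Sdom s hs with h1 | h1 | h1
      · exact F.wE s (Or.inl h1) hW
      · obtain ⟨_, b, hb⟩ := F.wS s hs h1.1 h1.2
        exact ⟨b, 0, by simp, hb.1, hb.2.1, by rw [add_zero]; exact hb.2.2⟩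
      · exact F.wE s (Or.inr h1) hW
    obtain ⟨b, d, hd, hb0, hb1, hθ⟩ := hor
    have hd' := abs_le.1 hd
    have hsc : SC c F.ρ F.e (F.RB + d) b (F.Q s' - F.Q s) (v - F.Q s) :=
      sc_mid c F.hρ (by linarith) hb1 (by omega) (by omega) g1.1 g1.2 g3.1 g3.2
    have hne' : F.Q s' ≠ F.Q s := by
      intro h; rw [h, sub_self] at g1; simp at g1
    have h1 := F.NN_use hWs' hne' hθ hsc hN
    have h2 := norm_lt_add c g1.1 g1.2 g2.1 g2.2
    rw [show F.Q s' - F.Q s + (v - F.Q s') = v - F.Q s by ring] at h2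
    linarith

end Fr
end SecY5

section SecY6
lemma real11 (c : Cst) {b X0 Y0 X Y : ℝ} (hb0 : 2 * c.τ ≤ b) (hb1 : b ≤ 4 * c.τ)
    (hX0 : c.w * c.κ ≤ X0) (hY0 : (c.a - 2 * c.τ) * X0 ≤ Y0) (hX : 0 ≤ X)
    (hY : -((c.a + 2 * c.τ) * X) ≤ Y) (hY' : -(c.w * (c.a + c.τ)) ≤ Y) :
    (b - c.a) * (X0 + X) ≤ (1 + c.a * b) * (Y0 + Y) := by
  have hτ := c.τ0
  have hτ1 := c.τ1
  have ha := c.ha0
  have ha1 := c.ha1
  have hκ := c.hκ0
  have hw := c.hw0
  have hτκ := c.hτ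
  have haτ := c.aτ1
  have hwκ : 0 < c.w * c.κ := by positivity
  have hX00 : 0 < X0 := by linarith
  have hb : 0 < b := by linarith
  have hab : 0 < c.a * b := by positivity
  have hab1 : c.a * b ≤ 1/100 := by nlinarith
  have hY00 : 0 ≤ Y0 := le_trans (by have : 0 ≤ c.a - 2 * c.τ := by linarith
                                     positivity) hY0
  have h1 : c.a * X0 ≤ (1 + c.a * b) * Y0 + (c.a - b) * X0 := by
    have h2 : Y0 ≤ (1 + c.a * b) * Y0 := by nlinarith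
    have h3 : c.a * X0 ≤ (c.a - 2 * c.τ) * X0 + (c.a - b) * X0 := by nlinarith
    linarith
  have h4 : 64 * c.τ * c.w ≤ c.a * X0 := by
    have : c.a * (c.w * c.κ) = 64 * c.τ * c.w := by rw [hτκ]; ring
    rw [← this]; exact mul_le_mul_of_nonneg_left hX0 ha.le
  have h5 : -(64 * c.τ * c.w) ≤ (1 + c.a * b) * Y + (c.a - b) * X := by
    rcases le_total X (2 * c.w) with h | h
    · have h6 : -((1 + c.a * b) * ((c.a + 2 * c.τ) * X)) ≤ (1 + c.a * b) * Y := by nlinarith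
      have h7 : (1 + c.a * b) * (c.a + 2 * c.τ) - (c.a - b) ≤ 8 * c.τ := by
        have e1 : c.a * b * c.a ≤ 4 * c.τ * (1/10) := by
          have : c.a * b * c.a = b * (c.a * c.a) := by ring
          rw [this]
          have : c.a * c.a ≤ 1/10 := by nlinarith
          exact mul_le_mul hb1 this (by positivity) (by positivity)
        have e2 : c.a * b * (2 * c.τ) ≤ 1/100 * (2 * c.τ) := by nlinarith
        nlinarith
      have h8 : ((1 + c.a * b) * (c.a + 2 * c.τ) - (c.a - b)) * X ≤ 8 * c.τ * X := by nlinarith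
      have h9 : 8 * c.τ * X ≤ 16 * (c.τ * c.w) := by nlinarith
      have h10 : 0 < c.τ * c.w := by positivity
      nlinarith
    · have h6 : -((1 + c.a * b) * (c.w * (c.a + c.τ))) ≤ (1 + c.a * b) * Y := by nlinarith
      have h7 : (c.a - b) * (2 * c.w) ≤ (c.a - b) * X := by
        apply mul_le_mul_of_nonneg_left h; linarith
      have h8 : (1 + c.a * b) * (c.a + c.τ) ≤ 2 * (c.a - b) := by nlinarith
      have h9 : ((1 + c.a * b) * (c.a + c.τ)) * c.w ≤ 2 * (c.a - b) * c.w :=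
        mul_le_mul_of_nonneg_right h8 hw.le
      have h10 : 0 < c.τ * c.w := by positivity
      nlinarith
  nlinarith

namespace Fr
variable {c : Cst} {W : Set ℂ} {θ : ℂ → ℝ} (F : Fr c W θ)

lemma im_low {l h : ℝ} {v : ℂ} (hL : F.Loc l h v) {j : ℤ} (h1 : F.m ≤ j) (h2 : j < F.n)
    (hε : F.ε j = 1) : (F.Q j).im - c.w * c.τ ≤ v.im := by
  have hw := c.hw0
  have hτ := c.τ0
  obtain ⟨m1, m2, m3, m4⟩ := F.Loc_mem hL
  have d1 := F.S_dom m1
  have d2 := F.S_dom m2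
  have e1 := F.low j h1 h2 hε l d1.1 d1.2
  have e2 := F.low j h1 h2 hε h d2.1 d2.2
  rcases hL with ⟨_, rfl, rfl⟩ | ⟨hA, ζ, d, hs, rfl⟩
  · have : 0 < c.w * c.τ := by positivity
    linarith
  · obtain ⟨_, _, a3, _, _, _, a7, a8⟩ := F.Ax _ _ hA
    have hκ := c.hκ0
    have hd := F.A_dir hA
    have hre : (F.Q h - F.Q l).re = c.w * (h - l) := by rw [hd]; simp [dir]
    obtain ⟨t1, t2, t3, t4⟩ := F.thin _ _ hs
    have t3' := (abs_le.1 (show |ζ.im| ≤ c.τ * ζ.re from t3)).1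
    have e3 : (F.Q l + (F.Q h - F.Q l) * ζ).im
        = (F.Q l).im * (1 - ζ.re) + (F.Q h).im * ζ.re + c.w * (h - l) * ζ.im := by
      rw [← hre]; simp; ring
    rw [e3]
    have e4 : (F.Q j).im * (1 - ζ.re) ≤ (F.Q l).im * (1 - ζ.re) :=
      mul_le_mul_of_nonneg_right e1 (by linarith)
    have e5 : (F.Q j).im * ζ.re ≤ (F.Q h).im * ζ.re := mul_le_mul_of_nonneg_right e2 t1.le
    have e6 : -(c.w * c.τ) ≤ c.w * (h - l) * ζ.im := by
      have f1 : c.w * (h - l) ≤ c.w := by nlinarith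
      have f2 : 0 ≤ c.w * (h - l) := by apply mul_nonneg hw.le; linarith
      have f3 : -c.τ ≤ ζ.im := by nlinarith
      nlinarith
    nlinarith

lemma up11_far {x y : ℝ} {ζ : ℂ} {d : ℤ} (hA : F.A x y) (hs : F.sub ζ d) (hε : F.ε ⌊x⌋ = 1)
    {l h : ℝ} {v : ℂ} (hL : F.Loc l h v) (hyl : y ≤ l) {b : ℝ} (hb0 : 2 * c.τ ≤ b)
    (hb1 : b ≤ 4 * c.τ) :
    (b - c.a) * (v - (F.Q x + (F.Q y - F.Q x) * ζ)).re
      ≤ (1 + c.a * b) * (v - (F.Q x + (F.Q y - F.Q x) * ζ)).im := by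
  have hτ := c.τ0
  have hτ1 := c.τ1
  have ha := c.ha0
  have hκ := c.hκ0
  have hw := c.hw0
  obtain ⟨a1, a2, a3, a4, a5, a6, a7, a8⟩ := F.Ax _ _ hA
  set j := ⌊x⌋ with hj
  set p := F.Q x + (F.Q y - F.Q x) * ζ with hp
  obtain ⟨g1, g2, g3⟩ := F.sub_r hA hs
  have hpy : F.Q y - p = (F.Q y - F.Q x) * (1 - ζ) := by rw [hp]; ring
  rw [← hpy] at g1 g2 g3
  rw [← hj, hε] at g3
  rcases F.split_int hL (j := j + 1) (by omega) (by omega) with h1 | h1
  · push_cast at h1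
    have h2 := F.side_fwd (j := j) (by omega) (by omega) hL (s := y) (by linarith) hyl h1
    rw [hε] at h2
    have h3 := h2.add g3
    rw [show v - F.Q y + (F.Q y - p) = v - p by ring] at h3
    obtain ⟨h4, h5, h6⟩ := h3
    push_cast at h5
    have h7 : 0 ≤ (v - p).im := by
      have : 0 ≤ (c.a - 2 * c.τ) * (v - p).re := mul_nonneg (by linarith) h4
      linarith
    have h8 : 0 ≤ (1 + c.a * b) * (v - p).im := mul_nonneg (by nlinarith) h7
    have h9 : (b - c.a) * (v - p).re ≤ 0 := mul_nonpos_of_nonpos_of_nonneg (by linarith) h4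
    linarith
  · have hm1 : (F.m:ℝ) + 2 ≤ j := by exact_mod_cast a5
    have hm2 : (j:ℝ) ≤ F.n - 3 := by exact_mod_cast a6
    set C := F.Q ((j:ℝ) + 1) with hC
    have k1 : SD c 1 (C - F.Q y) := by
      have := F.Q_side (j := j) (by omega) (by omega) (s := y) (s' := (j:ℝ) + 1) (by linarith)
        (by linarith) le_rfl
      rwa [hε] at this
    have k2 : c.w * c.κ ≤ (C - F.Q y).re := by
      rw [hC, F.lin j (by omega) (by omega) y ((j:ℝ)+1) (by linarith) (by linarith) (by linarith)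
        le_rfl]
      simp only [dir]
      nlinarith
    have k3 := k1.add g3
    rw [show C - F.Q y + (F.Q y - p) = C - p by ring] at k3
    have k4 : (C - p).re = (C - F.Q y).re + (F.Q y - p).re := by simp
    have k5 : C.im = (F.Q j).im + c.w * c.a := by
      have := F.lin j (by omega) (by omega) j ((j:ℝ)+1) le_rfl (by linarith) (by linarith) le_rfl
      have h2 := congrArg Complex.im this
      rw [hε] at h2
      simp only [dir, Complex.sub_im] at h2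
      push_cast at h2
      linarith
    have k6 := F.im_low hL (j := j) (by omega) (by omega) hε
    have k7 : 0 ≤ (v - C).re ∧ -((c.a + 2 * c.τ) * (v - C).re) ≤ (v - C).im := by
      by_cases hvC : v = C
      · rw [hvC, sub_self]; simp
      · push_cast at h1
        obtain ⟨q1, q2⟩ := F.disp_fwd hL (s := (j:ℝ) + 1) (by linarith) h1 hvC
        refine ⟨q1.le, ?_⟩
        have q3 := (abs_le.1 (show |(v - C).im| ≤ c.T * (v - C).re from q2)).1
        have q4 : c.T * (v - C).re ≤ (c.a + 2 * c.τ) * (v - C).re :=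
          mul_le_mul_of_nonneg_right c.T_le q1.le
        linarith
    have k8 := k3.2.1
    push_cast at k8
    have k9 := real11 c hb0 hb1 (X0 := (C - p).re) (Y0 := (C - p).im) (X := (v - C).re)
      (Y := (v - C).im) (by linarith) (by linarith) k7.1 k7.2 (by
        rw [Complex.sub_im]; linarith)
    have e1 : (v - p).re = (C - p).re + (v - C).re := by simp
    have e2 : (v - p).im = (C - p).im + (v - C).im := by simp
    rw [e1, e2]
    exact k9

theorem fwd_sub {x y : ℝ} {ζ : ℂ} {d : ℤ} (hA : F.A x y) (hs : F.sub ζ d)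
    {l h : ℝ} {v : ℂ} (hL : F.Loc l h v) (hyl : y ≤ l) (hv : v ≠ F.Q y)
    (hN : NN c.k W θ (F.pt (F.Q x + (F.Q y - F.Q x) * ζ)) (F.pt v)) :
    Killed c.k W θ (F.pt (F.Q x + (F.Q y - F.Q x) * ζ)) (F.pt v) := by
  have hτ := c.τ0
  have hτ1 := c.τ1
  have ha := c.ha0
  have ha1 := c.ha1
  have hκ := c.hκ0
  have hw := c.hw0
  have hRB := F.RBv
  obtain ⟨a1, a2, a3, a4, a5, a6, a7, a8⟩ := F.Ax _ _ hA
  obtain ⟨m1, m2, m3, m4⟩ := F.Loc_mem hL
  obtain ⟨hW, b, hb0, hb1, hθ, hcrs⟩ := F.wA x y ζ d hA hs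
  set j := ⌊x⌋ with hj
  have hm1 : (F.m:ℝ) + 2 ≤ j := by exact_mod_cast a5
  have hm2 : (j:ℝ) ≤ F.n - 3 := by exact_mod_cast a6
  have hcomp : (F.RB + d) % 12 = 0 → ∃ ζ' d', F.sub ζ' d' ∧ 0<(ζ'-ζ).re ∧ FC c.T (ζ'-ζ) ∧
    4*c.τ*(ζ'-ζ).re < (ζ'-ζ).im ∧ ‖ζ'-ζ‖<‖1-ζ‖ := F.comp ζ d hs
  obtain ⟨g1, g2, g3⟩ := F.sub_r hA hs
  have hAd := F.A_dir hA
  rw [← hj] at g3 hAd
  set p := F.Q x + (F.Q y - F.Q x) * ζ with hp
  have hpy : F.Q y - p = (F.Q y - F.Q x) * (1 - ζ) := by rw [hp]; ring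
  rw [← hpy] at g1 g2 g3
  have hθ' : θ (F.pt p) = (F.e+(F.RB+F.ε j + d) : ℤ) * c.α + Real.arctan b := hθ
  have hv1 := F.disp_fwd hL (s := y) (by linarith) hyl hv
  have hv2 := add_fwd (⟨g1, g2⟩ : _ ∧ _) hv1
  have hv3 := norm_lt_add c g1 g2 hv1.1 hv1.2
  rw [show F.Q y - p + (v - F.Q y) = v - p by ring] at hv2 hv3
  have hWy : F.pt (F.Q y) ∈ W := (F.wS y a2 (by linarith) (by linarith)).1
  have hne : ∀ z : ℂ, 0 < (z - p).re → z ≠ p := by
    intro z hz h; rw [h, sub_self] at hz; simp at hz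
  have nope : ¬ SC c F.ρ F.e (F.RB+F.ε j + d) b (F.Q y - p) (v - p) := by
    intro h
    have := F.NN_use hWy (hne _ g1) hθ' h hN
    linarith
  have hb : 0 < b := by linarith
  have ha2 : b ≤ c.a - 2 * c.τ := by linarith
  by_cases hR0 : (F.RB+F.ε j + d) % 12 = 0
  · -- the ray passes through the sector
    obtain ⟨x', y', hx', hy', hxy', hjx, hyj, hcon, hnA, hc1, hc2⟩ := hcrs hR0
    -- status
    have hst : ¬ (b * (F.Q y - p).re ≤ (F.Q y - p).im ↔ b * (v - p).re ≤ (v - p).im) := by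
      intro h
      exact nope (sc_zero c F.hρ (by linarith) hb1 hR0 g1 g2 hv2.1 hv2.2 h)
    have hstSD : ∀ z : ℂ, 0 < z.re → SD c (F.ε j) z → (b * z.re ≤ z.im ↔ F.ε j = 1) := by
      intro z hz hzz
      obtain ⟨_, q2, _⟩ := hzz
      rcases F.εv j with h | h
      · rw [h] at q2 ⊢
        push_cast at q2
        simp only [iff_true]
        nlinarith
      · rw [h] at q2 ⊢
        push_cast at q2
        constructor
        · intro h1; exfalso; nlinarith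
        · intro h1; omega
    have hyl' : y' ≤ l := by
      by_contra hc
      push Not at hc
      have hlx : l ≤ x' := (hcon l m1).resolve_right (not_le.2 hc)
      have hhx : h ≤ x' := by
        rcases m4 x' hx' with h1 | h1
        · have hl : l = x' := le_antisymm hlx h1
          subst hl
          rcases hL with ⟨_, rfl, rfl⟩ | ⟨hA', _⟩
          · exact le_rfl
          · exfalso
            have h2 : h ≤ y' := (m4 y' hy').resolve_left (not_le.2 hxy')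
            have h3 : y' ≤ h := (hcon h m2).resolve_left (not_le.2 (F.Ax _ _ hA').2.2.1)
            rw [le_antisymm h2 h3] at hA'
            exact hnA hA'
        · exact h1
      apply hst
      rw [hstSD _ g1 g3]
      rcases F.split_int hL (j := j + 1) (by omega) (by omega) with h1 | h1
      · push_cast at h1
        have h2 := F.side_fwd (j := j) (by omega) (by omega) hL (s := y) (by linarith) hyl h1
        have h3 := h2.add g3
        rw [show v - F.Q y + (F.Q y - p) = v - p by ring] at h3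
        rw [hstSD _ hv2.1 h3]
      · have h2 := F.side_bwd (j := j + 1) (by omega) (by omega) hL (s := x') h1 hhx
          (by push_cast; linarith)
        rw [F.εs] at h2
        obtain ⟨q1, q2, q3⟩ := h2
        have e1 : (v - p).re = (F.Q x' - p).re - (F.Q x' - v).re := by simp
        have e2 : (v - p).im = (F.Q x' - p).im - (F.Q x' - v).im := by simp
        rcases F.εv j with h | h
        · rw [h] at q2 hc1 ⊢
          push_cast at q2 hc1
          simp only [true_iff]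
          nlinarith
        · rw [h] at q2 hc1 ⊢
          push_cast at q2 hc1
          constructor
          · intro h1; omega
          · intro h1; exfalso; nlinarith
    have hsty : b * (F.Q y' - p).re ≤ (F.Q y' - p).im ↔ b * (v - p).re ≤ (v - p).im := by
      have h1 : ¬ (b * (F.Q y' - p).re ≤ (F.Q y' - p).im ↔
          b * (F.Q y - p).re ≤ (F.Q y - p).im) := by
        rw [hstSD _ g1 g3]
        rcases F.εv j with h | h
        · rw [h] at hc2 ⊢
          push_cast at hc2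
          simp only [iff_true]
          linarith
        · rw [h] at hc2 ⊢
          push_cast at hc2
          intro h1
          have := h1.1 (by linarith)
          omega
      tauto
    have hjy : y ≤ x' := by linarith
    have g4 : 0 < (F.Q x' - p).re ∧ FC c.T (F.Q x' - p) := by
      rcases hjy.eq_or_lt with h | h
      · rw [← h]; exact ⟨g1, g2⟩
      · have := add_fwd (F.Q_fwd (s := y) (s' := x') (by linarith) h (by linarith)) ⟨g1, g2⟩
        rwa [show F.Q x' - F.Q y + (F.Q y - p) = F.Q x' - p by ring] at this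
    by_cases hvy : v = F.Q y'
    · rw [hvy]
      exact F.frozen_kill hx' hy' hxy' (j := j + 1) (by omega) (by omega)
        (by push_cast; linarith) (by push_cast; linarith) hcon hnA g4.1 g4.2
    · exfalso
      have h1 := F.disp_fwd hL (s := y') (by linarith) hyl' hvy
      have h2 := add_fwd (F.Q_fwd (s := x') (s' := y') (by linarith) hxy' (by linarith)) g4
      rw [show F.Q y' - F.Q x' + (F.Q x' - p) = F.Q y' - p by ring] at h2
      have h3 := norm_lt_add c h2.1 h2.2 h1.1 h1.2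
      rw [show F.Q y' - p + (v - F.Q y') = v - p by ring] at h3
      have h4 := F.NN_use (F.wS y' hy' (by linarith) (by linarith)).1 (hne _ h2.1) hθ'
        (sc_zero c F.hρ (by linarith) hb1 hR0 h2.1 h2.2 hv2.1 hv2.2 hsty) hN
      linarith
  by_cases hR11 : (F.RB+F.ε j + d) % 12 = 11
  · exfalso
    rcases F.εv j with h | h
    · -- everything is above the ray
      apply nope
      apply sc_eleven c F.hρ (by linarith) hb1 hR11 g1 g2 hv2.1 hv2.2
      have h1 := F.up11_far hA hs h hL hyl hb0 hb1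
      rw [← hp] at h1
      refine iff_of_true ?_ h1
      obtain ⟨q1, q2, q3⟩ := g3
      rw [h] at q2
      push_cast at q2
      have h7 : 0 ≤ (F.Q y - p).im := by
        have : 0 ≤ (c.a - 2 * c.τ) * (F.Q y - p).re := mul_nonneg (by linarith) q1
        linarith
      have h8 : 0 ≤ (1 + c.a * b) * (F.Q y - p).im := mul_nonneg (by positivity) h7
      have h9 : (b - c.a) * (F.Q y - p).re ≤ 0 :=
        mul_nonpos_of_nonpos_of_nonneg (by linarith) q1
      linarith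
    · have hB : ¬ ((b - c.a) * (F.Q y - p).re ≤ (1 + c.a * b) * (F.Q y - p).im) := by
        obtain ⟨q1, q2, q3⟩ := g3
        rw [h] at q2
        push_cast at q2
        have h1 : (1 + c.a * b) * (F.Q y - p).im
            ≤ (1 + c.a * b) * (-((c.a - 2 * c.τ) * (F.Q y - p).re)) :=
          mul_le_mul_of_nonneg_left (by linarith) (by positivity)
        have h2 : (1 + c.a * b) * (-((c.a - 2 * c.τ) * (F.Q y - p).re))
            = (-(c.a - 2 * c.τ) * (1 + c.a * b)) * (F.Q y - p).re := by ring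
        have h3 : (-(c.a - 2 * c.τ) * (1 + c.a * b)) < b - c.a := by
          have : 0 < c.a * b * (c.a - 2 * c.τ) := by
            apply mul_pos (by positivity); linarith
          nlinarith
        have h4 := mul_lt_mul_of_pos_right h3 g1
        intro h5
        linarith
      by_cases hvup : (b - c.a) * (v - p).re ≤ (1 + c.a * b) * (v - p).im
      · obtain ⟨ζ', d', hs', c1, c2, c3, c4⟩ := hcomp (by rw [h] at hR11; omega)
        have hW' := (F.wA x y ζ' d' hA hs').1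
        set p' := F.Q x + (F.Q y - F.Q x) * ζ' with hp'
        have hpp : p' - p = dir c (-1) (y - x) * (ζ' - ζ) := by
          rw [hp', hp, ← h, ← hAd]; ring
        set z := ζ' - ζ with hz
        have hr : 0 < c.w * (y - x) := mul_pos hw (by linarith)
        have r1 : (p' - p).re = c.w * (y - x) * (z.re + c.a * z.im) := by
          rw [hpp, dir_mul_re]; push_cast; ring
        have r2 : (p' - p).im = c.w * (y - x) * (z.im - c.a * z.re) := by
          rw [hpp, dir_mul_im]; push_cast; ring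
        have zi0 : 0 < z.im := lt_trans (by positivity) c3
        have zi1 : z.im ≤ c.T * z.re := (le_abs_self _).trans c2
        have hT := c.le_T
        have hT0 := c.T0
        have p0 : 0 < (p' - p).re := by rw [r1]; positivity
        have p1 : FC c.T (p' - p) := by
          unfold FC
          rw [r1, r2]
          have e : |z.im - c.a * z.re| ≤ c.T * (z.re + c.a * z.im) := by
            have u1 := mul_pos ha zi0
            have u2 := mul_pos hT0 u1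
            have u3 : c.a * z.re ≤ c.T * z.re := mul_le_mul_of_nonneg_right (by linarith) c1.le
            have u4 := mul_pos ha c1
            rw [abs_le]
            constructor <;> nlinarith
          calc |c.w * (y - x) * (z.im - c.a * z.re)|
              = c.w * (y - x) * |z.im - c.a * z.re| := by rw [abs_mul, abs_of_pos hr]
            _ ≤ c.w * (y - x) * (c.T * (z.re + c.a * z.im)) := mul_le_mul_of_nonneg_left e hr.le
            _ = _ := by ring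
        have p2 : (b - c.a) * (p' - p).re ≤ (1 + c.a * b) * (p' - p).im := by
          rw [r1, r2]
          have h3 : b * z.re ≤ z.im := by nlinarith
          have h4 : (b - c.a) * (z.re + c.a * z.im) ≤ (1 + c.a * b) * (z.im - c.a * z.re) := by
            have : (1 + c.a * b) * (z.im - c.a * z.re) - (b - c.a) * (z.re + c.a * z.im)
              = (1 + c.a * c.a) * (z.im - b * z.re) := by ring
            have : 0 ≤ (1 + c.a * c.a) * (z.im - b * z.re) :=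
              mul_nonneg (by positivity) (by linarith)
            linarith
          have := mul_le_mul_of_nonneg_left h4 hr.le
          linarith
        have p3 : ‖p' - p‖ < ‖F.Q y - p‖ := by
          rw [hpp, hpy, hAd, h, norm_mul, norm_mul]
          apply mul_lt_mul_of_pos_left c4
          rw [norm_pos_iff]
          intro h0
          have := congrArg Complex.re h0
          simp only [dir, Complex.zero_re] at this
          linarith
        have p4 := F.NN_use (v' := p') hW' (hne _ p0) hθ'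
          (sc_eleven c F.hρ (by linarith) hb1 hR11 p0 p1 hv2.1 hv2.2 (iff_of_true p2 hvup)) hN
        linarith
      · exact nope (sc_eleven c F.hρ (by linarith) hb1 hR11 g1 g2 hv2.1 hv2.2
          (iff_of_false hB hvup))
  · exfalso
    exact nope (sc_mid c F.hρ (by linarith) hb1 (by omega) (by omega) g1 g2 hv2.1 hv2.2)

end Fr
end SecY6

section SecY7
/-- distance to the nearest even integer -/
noncomputable def tri (s : ℝ) : ℝ := |s - 2 * round (s / 2)|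

lemma tri_nonneg (s : ℝ) : 0 ≤ tri s := abs_nonneg _

lemma tri_le (s : ℝ) (r : ℤ) : tri s ≤ |s - 2 * r| := by
  unfold tri
  have h := round_le (s / 2) r
  have e1 : s - 2 * (round (s/2) : ℝ) = 2 * (s / 2 - round (s / 2)) := by ring
  have e2 : s - 2 * (r : ℝ) = 2 * (s / 2 - r) := by ring
  rw [e1, e2, abs_mul, abs_mul]
  exact mul_le_mul_of_nonneg_left h (abs_nonneg _)

lemma tri_lip (s t : ℝ) : |tri s - tri t| ≤ |s - t| := by
  have key : ∀ s t : ℝ, tri s - tri t ≤ |s - t| := by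
    intro s t
    have h1 := tri_le s (round (t / 2))
    have h2 : |s - 2 * (round (t/2) : ℝ)| ≤ |s - t| + |t - 2 * round (t / 2)| := by
      have := abs_add_le (s - t) (t - 2 * (round (t/2) : ℝ))
      rwa [show s - t + (t - 2 * (round (t/2) : ℝ)) = s - 2 * (round (t/2) : ℝ) by ring] at this
    have h3 : tri t = |t - 2 * round (t / 2)| := rfl
    linarith
  rw [abs_le]
  have h1 := key s t
  have h2 := key t s
  rw [abs_sub_comm] at h2
  constructor <;> linarith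

lemma tri_le_one (s : ℝ) : tri s ≤ 1 := by
  unfold tri
  have h := abs_sub_round (s / 2)
  have e1 : s - 2 * (round (s/2) : ℝ) = 2 * (s / 2 - round (s / 2)) := by ring
  rw [e1, abs_mul]
  norm_num
  linarith

lemma tri_even {j : ℤ} (hj : Even j) {s : ℝ} (h1 : (j:ℝ) ≤ s) (h2 : s ≤ j + 1) :
    tri s = s - j := by
  obtain ⟨m, rfl⟩ := hj
  push_cast at *
  apply le_antisymm
  · have := tri_le s m
    rw [abs_of_nonneg (by linarith)] at this
    linarith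
  · unfold tri
    set r := round (s / 2)
    rcases le_or_gt r m with h | h
    · have h' : (r : ℝ) ≤ m := by exact_mod_cast h
      rw [abs_of_nonneg (by linarith)]; linarith
    · have h' : (m : ℝ) + 1 ≤ r := by exact_mod_cast h
      rw [abs_of_nonpos (by linarith)]; linarith

lemma tri_odd {j : ℤ} (hj : ¬ Even j) {s : ℝ} (h1 : (j:ℝ) ≤ s) (h2 : s ≤ j + 1) :
    tri s = j + 1 - s := by
  rw [Int.not_even_iff_odd] at hj
  obtain ⟨m, rfl⟩ := hj
  push_cast at *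
  apply le_antisymm
  · have := tri_le s (m + 1)
    push_cast at this
    rw [abs_of_nonpos (by linarith)] at this
    linarith
  · unfold tri
    set r := round (s / 2)
    rcases le_or_gt r m with h | h
    · have h' : (r : ℝ) ≤ m := by exact_mod_cast h
      rw [abs_of_nonneg (by linarith)]; linarith
    · have h' : (m : ℝ) + 1 ≤ r := by exact_mod_cast h
      rw [abs_of_nonpos (by linarith)]; linarith

/-- sign of the sides -/
def eps (j : ℤ) : ℤ := if Even j then 1 else -1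

lemma eps_v (j : ℤ) : eps j = 1 ∨ eps j = -1 := by unfold eps; split_ifs <;> simp

lemma eps_s (j : ℤ) : eps (j + 1) = - eps j := by
  unfold eps
  by_cases h : Even j
  · rw [if_neg (by rw [Int.even_add_one]; simpa using h), if_pos h]
  · rw [if_pos (by rw [Int.even_add_one]; exact h), if_neg h]; rfl

lemma eps_rev (j : ℤ) : eps (-j - 1) = - eps j := by
  unfold eps
  by_cases h : Even j
  · rw [if_neg, if_pos h]
    intro h2
    obtain ⟨r, hr⟩ := h; obtain ⟨q, hq⟩ := h2; omega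
  · rw [if_pos, if_neg h]; · rfl
    rw [Int.not_even_iff_odd] at h
    obtain ⟨r, hr⟩ := h
    exact ⟨-r - 1, by omega⟩

/-- clamping to `[0, M]` -/
noncomputable def cl (M : ℤ) (s : ℝ) : ℝ := max 0 (min s M)

lemma cl_mono (M : ℤ) {s t : ℝ} (h : s ≤ t) : cl M s ≤ cl M t :=
  max_le_max le_rfl (min_le_min h le_rfl)

lemma cl_lip (M : ℤ) {s t : ℝ} (h : s ≤ t) : cl M t - cl M s ≤ t - s := by
  simp only [cl, max_def, min_def]
  split_ifs <;> linarith

lemma cl_id (M : ℤ) {s : ℝ} (h0 : 0 ≤ s) (h : s ≤ M) : cl M s = s := by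
  unfold cl; rw [min_eq_left h, max_eq_right h0]

lemma cl_nonneg (M : ℤ) (s : ℝ) : 0 ≤ cl M s := le_max_left _ _

lemma cl_le (M : ℤ) (hM : 0 ≤ M) (s : ℝ) : cl M s ≤ M :=
  max_le (by exact_mod_cast hM) (min_le_right _ _)

/-- the polyline -/
noncomputable def Qc (c : Cst) (s : ℝ) : ℂ :=
  ⟨c.κ + c.w * cl c.M s + c.κ * (s - cl c.M s), c.w * c.a * tri (cl c.M s)⟩

lemma w_lt_κ (c : Cst) : c.w < c.κ / 4 := by
  have hw := c.hw
  have hτ1 := c.τ1
  have ha1 := c.ha1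
  have hκ := c.hκ0
  nlinarith

lemma Qc_mono (c : Cst) {s t : ℝ} (h : s < t) :
    0 < (Qc c t - Qc c s).re ∧ FC c.a (Qc c t - Qc c s) := by
  have h1 := cl_mono c.M h.le
  have h2 := cl_lip c.M h.le
  have hw := c.hw0
  have hκ := w_lt_κ c
  have ha := c.ha0
  have e1 : (Qc c t - Qc c s).re = c.w * (cl c.M t - cl c.M s)
      + c.κ * ((t - s) - (cl c.M t - cl c.M s)) := by
    simp [Qc]; ring
  have e2 : (Qc c t - Qc c s).im = c.w * c.a * (tri (cl c.M t) - tri (cl c.M s)) := by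
    simp [Qc]; ring
  have h3 := tri_lip (cl c.M t) (cl c.M s)
  rw [abs_of_nonneg (sub_nonneg.2 h1)] at h3
  constructor
  · rw [e1]
    have : c.w * ((t - s) - (cl c.M t - cl c.M s)) ≤ c.κ * ((t - s) - (cl c.M t - cl c.M s)) :=
      mul_le_mul_of_nonneg_right (by linarith) (by linarith)
    have : 0 < c.w * (t - s) := mul_pos hw (by linarith)
    linarith
  · unfold FC
    rw [e1, e2, abs_mul, abs_of_pos (mul_pos hw ha)]
    have f1 : c.w * c.a * |tri (cl c.M t) - tri (cl c.M s)| ≤ c.w * c.a * (cl c.M t - cl c.M s) :=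
      mul_le_mul_of_nonneg_left h3 (mul_pos hw ha).le
    have f2 : 0 ≤ c.a * (c.κ * ((t - s) - (cl c.M t - cl c.M s))) := by
      apply mul_nonneg ha.le (mul_nonneg (by linarith) (by linarith))
    nlinarith

lemma Qc_lin (c : Cst) {j : ℤ} (hj : 0 ≤ j) (hj' : j < c.M) {s t : ℝ} (h1 : (j:ℝ) ≤ s)
    (h2 : s ≤ j + 1) (h3 : (j:ℝ) ≤ t) (h4 : t ≤ j + 1) :
    Qc c t - Qc c s = dir c (eps j) (t - s) := by
  have g1 : (0:ℝ) ≤ j := by exact_mod_cast hj
  have g2 : (j:ℝ) + 1 ≤ c.M := by exact_mod_cast hj'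
  unfold Qc dir
  rw [cl_id c.M (by linarith : 0 ≤ s) (by linarith), cl_id c.M (by linarith : 0 ≤ t) (by linarith)]
  apply Complex.ext
  · simp; ring
  · simp only [Complex.sub_im]
    unfold eps
    split_ifs with he
    · rw [tri_even he h1 h2, tri_even he h3 h4]; push_cast; ring
    · rw [tri_odd he h1 h2, tri_odd he h3 h4]; push_cast; ring

lemma Qc_low (c : Cst) {j : ℤ} (hj : 0 ≤ j) (hj' : j ≤ c.M) (he : Even j) (s : ℝ) :
    (Qc c j).im ≤ (Qc c s).im := by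
  have g1 : (0:ℝ) ≤ j := by exact_mod_cast hj
  have g2 : (j:ℝ) ≤ c.M := by exact_mod_cast hj'
  have hw := c.hw0
  have ha := c.ha0
  have h0 := tri_nonneg (cl c.M s)
  simp only [Qc]
  rw [cl_id c.M g1 g2, tri_even he le_rfl (by linarith), sub_self, mul_zero]
  positivity

lemma Qc_high (c : Cst) {j : ℤ} (hj : 0 ≤ j) (hj' : j ≤ c.M) (he : ¬ Even j) (s : ℝ) :
    (Qc c s).im ≤ (Qc c j).im := by
  have g1 : (0:ℝ) ≤ j := by exact_mod_cast hj
  have g2 : (j:ℝ) ≤ c.M := by exact_mod_cast hj'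
  have hw := c.hw0
  have ha := c.ha0
  have h0 := tri_le_one (cl c.M s)
  simp only [Qc]
  rw [cl_id c.M g1 g2, tri_odd he le_rfl (by linarith)]
  apply mul_le_mul_of_nonneg_left _ (by positivity)
  linarith

lemma Qc_left (c : Cst) : Qc c (-1) = 0 := by
  have : cl c.M (-1) = 0 := by
    unfold cl
    have := c.hM6
    have h : (-1:ℝ) ≤ c.M := by
      have : (6:ℝ) ≤ c.M := by exact_mod_cast this
      linarith
    rw [min_eq_left h, max_eq_left (by norm_num)]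
  unfold Qc
  rw [this]
  have h := tri_even (j := 0) (by simp) (s := 0) (by simp) (by simp)
  apply Complex.ext
  · simp
  · simp [h]

lemma Qc_right (c : Cst) : Qc c (c.M + 1) = 1 := by
  have h6 : (6:ℝ) ≤ c.M := by exact_mod_cast c.hM6
  have : cl c.M (c.M + 1) = c.M := by
    unfold cl
    rw [min_eq_right (by linarith), max_eq_right (by linarith)]
  unfold Qc
  rw [this]
  have h := tri_even (j := c.M) c.hMe (s := c.M) le_rfl (by linarith)
  apply Complex.ext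
  · simp; have := c.hM; linarith
  · simp [h]

lemma Qc_re (c : Cst) {s : ℝ} (h0 : 0 ≤ s) (h1 : s ≤ c.M) : (Qc c s).re = c.κ + c.w * s := by
  simp [Qc, cl_id c.M h0 h1]
end SecY7

section SecY8
structure Gad where
  ι : Type
  fin : Finite ι
  pos : ι → ℂ
  d : ι → ℤ
  lo : ι → ℝ
  hi : ι → ℝ
  F : ι → ℝ
  L : ℝ

/-- closed vertices with their potential -/
def Gad.Cl (G : Gad) (v : ℂ) (f : ℝ) : Prop :=
  (∃ i, v = G.pos i ∧ f = G.F i) ∨ (v = 0 ∧ f = 0) ∨ (v = 1 ∧ f = G.L)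

structure Placed (c : Cst) (G : Gad) (W : Set ℂ) (θ : ℂ → ℝ) (ρ : ℝ) (e : ℤ) (z0 : ℂ) : Prop where
  hρ : 0 < ρ
  H1 : ∀ i, z0 + Ut c ρ e * G.pos i ∈ W ∧ ∃ b, G.lo i ≤ b ∧ b ≤ G.hi i ∧
    θ (z0 + Ut c ρ e * G.pos i) = (e + (3 + G.d i) : ℤ) * c.α + Real.arctan b
  H2 : ∀ v : ℂ, (v = 0 ∨ v = 1) → z0 + Ut c ρ e * v ∈ W → ∃ (b:ℝ) (d:ℤ), |d| ≤ 1 ∧ 2*c.τ ≤ b ∧
    b ≤ 4*c.τ ∧ θ (z0 + Ut c ρ e * v) = (e + (3 + d) : ℤ) * c.α + Real.arctan b
  H3 : ∀ o ∈ W, (∃ v f, G.Cl v f ∧ o = z0 + Ut c ρ e * v) ∨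
    ∀ v f, G.Cl v f → ρ * ‖v‖ ≤ ‖o - (z0 + Ut c ρ e * v)‖ ∨ ρ * ‖1 - v‖ ≤ ‖o - (z0 + Ut c ρ e * v)‖

structure Good (c : Cst) (G : Gad) : Prop where
  win : ∀ i, 2 * c.τ ≤ G.lo i ∧ G.lo i < G.hi i ∧ G.hi i ≤ 4 * c.τ
  thin : ∀ i, 0 < (G.pos i).re ∧ (G.pos i).re < 1 ∧ FC c.τ (G.pos i) ∧ FC c.τ (1 - G.pos i)
  inj : Function.Injective G.pos
  compP : ∀ i, (3 + G.d i) % 12 = 0 → ∃ i', 0 < (G.pos i' - G.pos i).re ∧
    FC c.T (G.pos i' - G.pos i) ∧ 4 * c.τ * (G.pos i' - G.pos i).re < (G.pos i' - G.pos i).im ∧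
    ‖G.pos i' - G.pos i‖ < ‖1 - G.pos i‖
  compN : ∀ i, (3 - 6 * (c.k : ℤ) + G.d i) % 12 = 0 → ∃ i', 0 < (G.pos i - G.pos i').re ∧
    FC c.T (G.pos i - G.pos i') ∧ 4 * c.τ * (G.pos i - G.pos i').re < (G.pos i - G.pos i').im ∧
    ‖G.pos i - G.pos i'‖ < ‖G.pos i‖
  claim : ∀ W θ ρ e z0, Placed c G W θ ρ e z0 → ∀ v f v' f', G.Cl v f → G.Cl v' f' →
    z0 + Ut c ρ e * v ∈ W → z0 + Ut c ρ e * v' ∈ W → v ≠ v' →
    NN c.k W θ (z0 + Ut c ρ e * v) (z0 + Ut c ρ e * v') →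
    |f - f'| ≤ ‖v - v'‖ ∨ Killed c.k W θ (z0 + Ut c ρ e * v) (z0 + Ut c ρ e * v')

def exS (c : Cst) (S : Finset ℝ) : Set ℝ := {s | s ∈ S ∨ s = -1 ∨ s = c.M + 1}
def exA (A : Finset (ℝ × ℝ)) : ℝ → ℝ → Prop := fun x y => (x, y) ∈ A
def ngS (S : Set ℝ) : Set ℝ := {s | -s ∈ S}
def ngA (A : ℝ → ℝ → Prop) : ℝ → ℝ → Prop := fun x y => A (-y) (-x)
def ngQ (Q : ℝ → ℂ) : ℝ → ℂ := fun s => -Q (-s)

structure Comb (c : Cst) (G : Gad) where
  S : Finset ℝ
  A : Finset (ℝ × ℝ)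
  lo : ℝ → ℝ → G.ι → ℝ
  hi : ℝ → ℝ → G.ι → ℝ
  Ft : ℝ → ℝ
  L : ℝ
  S01 : ∀ j : ℤ, 0 ≤ j → j ≤ c.M → (j:ℝ) ∈ S
  Sdom : ∀ s ∈ S, 0 ≤ s ∧ s ≤ c.M
  Ax : ∀ x y, (x,y) ∈ A → x ∈ S ∧ y ∈ S ∧ x < y ∧ (∀ s ∈ S, s ≤ x ∨ y ≤ s) ∧ 2 ≤ ⌊x⌋ ∧
    ⌊x⌋ ≤ c.M - 3 ∧ (⌊x⌋:ℝ) + c.κ ≤ x ∧ y ≤ ⌊x⌋ + 1 - c.κ
  win : ∀ x y, (x,y) ∈ A → ∀ i, G.lo i ≤ lo x y i ∧ lo x y i < hi x y i ∧ hi x y i ≤ G.hi i
  crsP : ∀ x y, (x,y) ∈ A → ∀ i b, lo x y i ≤ b → b ≤ hi x y i →
    (3 + eps ⌊x⌋ + G.d i) % 12 = 0 →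
    Crs (exS c S) (exA A) (Qc c) (eps ⌊x⌋) ⌊x⌋ (Qc c x + (Qc c y - Qc c x) * G.pos i) b
  crsN : ∀ x y, (x,y) ∈ A → ∀ i b, lo x y i ≤ b → b ≤ hi x y i →
    (3 - 6 * (c.k:ℤ) + eps ⌊x⌋ + G.d i) % 12 = 0 →
    Crs (ngS (exS c S)) (ngA (exA A)) (ngQ (Qc c)) (eps ⌊x⌋) (-⌊x⌋ - 1)
      (-(Qc c x + (Qc c y - Qc c x) * G.pos i)) b
  Ft0 : Ft (-1) = 0
  Ft1 : Ft (c.M + 1) = L
  Ftf : ∀ s ∈ exS c S, ∀ s' ∈ exS c S, s < s' → (∀ r ∈ exS c S, r ≤ s ∨ s' ≤ r) → (s, s') ∉ A →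
    |Ft s' - Ft s| ≤ ‖Qc c s' - Qc c s‖
  Fta : ∀ x y, (x,y) ∈ A → Ft y = Ft x + ‖Qc c y - Qc c x‖ * G.L

namespace Comb
variable {c : Cst} {G : Gad} (C : Comb c G)

noncomputable def gad : Gad where
  ι := {s // s ∈ C.S} ⊕ ({π // π ∈ C.A} × G.ι)
  fin := by
    have := G.fin
    infer_instance
  pos := Sum.elim (fun s => Qc c s.1)
    (fun q => Qc c q.1.1.1 + (Qc c q.1.1.2 - Qc c q.1.1.1) * G.pos q.2)
  d := Sum.elim (fun _ => 0) (fun q => eps ⌊q.1.1.1⌋ + G.d q.2)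
  lo := Sum.elim (fun _ => 2 * c.τ) (fun q => C.lo q.1.1.1 q.1.1.2 q.2)
  hi := Sum.elim (fun _ => 4 * c.τ) (fun q => C.hi q.1.1.1 q.1.1.2 q.2)
  F := Sum.elim (fun s => C.Ft s.1)
    (fun q => C.Ft q.1.1.1 + ‖Qc c q.1.1.2 - Qc c q.1.1.1‖ * G.F q.2)
  L := C.L

/-- location of closed vertices of the composite -/
def LocG (l h : ℝ) (v : ℂ) (f : ℝ) : Prop :=
  (l ∈ exS c C.S ∧ h = l ∧ v = Qc c l ∧ f = C.Ft l) ∨
  ((l, h) ∈ C.A ∧ ∃ i, v = Qc c l + (Qc c h - Qc c l) * G.pos i ∧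
    f = C.Ft l + ‖Qc c h - Qc c l‖ * G.F i)

lemma cl_loc {v : ℂ} {f : ℝ} (h : C.gad.Cl v f) : ∃ l h, C.LocG l h v f := by
  rcases h with ⟨i, hv, hf⟩ | ⟨rfl, rfl⟩ | ⟨rfl, rfl⟩
  · rcases i with s | q
    · exact ⟨s.1, s.1, Or.inl ⟨Or.inl s.2, rfl, hv, hf⟩⟩
    · exact ⟨q.1.1.1, q.1.1.2, Or.inr ⟨q.1.2, q.2, hv, hf⟩⟩
  · exact ⟨-1, -1, Or.inl ⟨Or.inr (Or.inl rfl), rfl, (Qc_left c).symm, C.Ft0.symm⟩⟩
  · exact ⟨c.M + 1, c.M + 1, Or.inl ⟨Or.inr (Or.inr rfl), rfl, (Qc_right c).symm, C.Ft1.symm⟩⟩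

lemma loc_cl {l h : ℝ} {v : ℂ} {f : ℝ} (H : C.LocG l h v f) : C.gad.Cl v f := by
  rcases H with ⟨hl, rfl, rfl, rfl⟩ | ⟨hA, i, rfl, rfl⟩
  · rcases hl with hl | rfl | rfl
    · exact Or.inl ⟨Sum.inl ⟨_, hl⟩, rfl, rfl⟩
    · exact Or.inr (Or.inl ⟨Qc_left c, C.Ft0⟩)
    · exact Or.inr (Or.inr ⟨Qc_right c, C.Ft1⟩)
  · exact Or.inl ⟨Sum.inr (⟨_, hA⟩, i), rfl, rfl⟩

lemma Ax' {x y : ℝ} (h : (x, y) ∈ C.A) : x ∈ exS c C.S ∧ y ∈ exS c C.S ∧ x < y ∧
    (∀ s ∈ exS c C.S, s ≤ x ∨ y ≤ s) ∧ 2 ≤ ⌊x⌋ ∧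
    ⌊x⌋ ≤ c.M - 3 ∧ (⌊x⌋:ℝ) + c.κ ≤ x ∧ y ≤ ⌊x⌋ + 1 - c.κ := by
  obtain ⟨h1, h2, h3, h4, h5, h6, h7, h8⟩ := C.Ax x y h
  refine ⟨Or.inl h1, Or.inl h2, h3, ?_, h5, h6, h7, h8⟩
  intro s hs
  have g1 := C.Sdom x h1
  have g2 := C.Sdom y h2
  rcases hs with hs | rfl | rfl
  · exact h4 s hs
  · left; linarith
  · right; linarith

lemma A_dir {x y : ℝ} (h : (x, y) ∈ C.A) : Qc c y - Qc c x = dir c (eps ⌊x⌋) (y - x) := by
  obtain ⟨h1, h2, h3, h4, h5, h6, h7, h8⟩ := C.Ax x y h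
  have := c.hκ0
  exact Qc_lin c (by omega) (by omega) (by linarith) (by linarith) (by linarith) (by linarith)

end Comb
end SecY8

section SecY9
namespace Comb
variable {c : Cst} {G : Gad} (C : Comb c G)

lemma exS_fin : (exS c C.S).Finite := by
  have : exS c C.S = (C.S : Set ℝ) ∪ {-1, (c.M:ℝ) + 1} := by
    ext s; simp [exS]; tauto
  rw [this]
  exact (Finset.finite_toSet _).union (Set.toFinite _)

lemma M6 : (6:ℝ) ≤ c.M := by exact_mod_cast c.hM6

lemma exS_mem {s : ℝ} (hs : s ∈ exS c C.S) (h0 : 0 ≤ s) (h1 : s ≤ c.M) : s ∈ C.S := by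
  rcases hs with hs | rfl | rfl
  · exact hs
  · linarith
  · linarith

lemma exS_int (j : ℤ) (h0 : -1 ≤ j) (h1 : j ≤ c.M + 1) : (j:ℝ) ∈ exS c C.S := by
  by_cases h : j = -1
  · right; left; rw [h]; push_cast; ring
  · by_cases h' : j = c.M + 1
    · right; right; rw [h']; push_cast; ring
    · left; exact C.S01 j (by omega) (by omega)

variable {W : Set ℂ} {θ : ℂ → ℝ} {ρ : ℝ} {e : ℤ} {z0 : ℂ}

lemma κ_le_norm {s : ℝ} (h0 : 0 ≤ s) (h1 : s ≤ c.M) :
    c.κ ≤ ‖Qc c s‖ ∧ c.κ ≤ ‖1 - Qc c s‖ := by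
  have h := Qc_re c h0 h1
  have hw := c.hw0
  have hM := c.hM
  have h2 := Complex.re_le_norm (Qc c s)
  have h3 := Complex.re_le_norm (1 - Qc c s)
  rw [Complex.sub_re, Complex.one_re] at h3
  have h4 : c.w * s ≤ c.w * c.M := mul_le_mul_of_nonneg_left h1 hw.le
  have h5 : 0 ≤ c.w * s := mul_nonneg hw.le h0
  constructor <;> linarith

noncomputable def frP (hG : Good c G) (hP : Placed c C.gad W θ ρ e z0) : Fr c W θ where
  ρ := ρ
  e := e
  z0 := z0
  RB := 3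
  Q := Qc c
  m := 0
  n := c.M
  ε := eps
  S := exS c C.S
  A := exA C.A
  sub := fun ζ d => ∃ i, ζ = G.pos i ∧ d = G.d i
  hρ := hP.hρ
  hmn := by have := c.hM6; omega
  mono := fun s s' _ h _ => Qc_mono c h
  εv := eps_v
  εs := eps_s
  lin := fun j h1 h2 s s' h3 h4 h5 h6 => Qc_lin c h1 h2 h3 h4 h5 h6
  low := by
    intro j h1 h2 he s _ _
    refine Qc_low c h1 (by omega) ?_ s
    by_contra h
    simp [eps, h] at he
  Sfin := C.exS_fin
  Sint := fun j h1 h2 => C.exS_int j (by omega) h2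
  Sdom := by
    intro s hs
    rcases hs with hs | rfl | rfl
    · right; left
      have := C.Sdom s hs
      push_cast
      exact this
    · left; push_cast; ring
    · right; right; rfl
  Ax := by
    intro x y h
    obtain ⟨h1, h2, h3, h4, h5, h6, h7, h8⟩ := C.Ax' h
    exact ⟨h1, h2, h3, h4, by omega, h6, h7, h8⟩
  thin := by
    rintro ζ d ⟨i, rfl, rfl⟩
    exact hG.thin i
  comp := by
    rintro ζ d ⟨i, rfl, rfl⟩ h
    obtain ⟨i', h1, h2, h3, h4⟩ := hG.compP i h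
    exact ⟨_, _, ⟨i', rfl, rfl⟩, h1, h2, h3, h4⟩
  RBv := by norm_num
  wS := by
    intro s hs h0 h1
    push_cast at h0
    obtain ⟨h2, b, h3, h4, h5⟩ := hP.H1 (Sum.inl ⟨s, C.exS_mem hs h0 h1⟩)
    exact ⟨h2, b, h3, h4, h5⟩
  wE := by
    intro s hs hW
    have : Qc c s = 0 ∨ Qc c s = 1 := by
      rcases hs with rfl | rfl
      · left; rw [← Qc_left c]; congr 1; push_cast; ring
      · right; exact Qc_right c
    exact hP.H2 _ this hW
  wA := by
    rintro x y ζ d hA ⟨i, rfl, rfl⟩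
    obtain ⟨h2, b, h3, h4, h5⟩ := hP.H1 (Sum.inr (⟨(x, y), hA⟩, i))
    have hw := hG.win i
    have hw' := C.win x y hA i
    have h3' : C.lo x y i ≤ b := h3
    have h4' : b ≤ C.hi x y i := h4
    refine ⟨h2, b, by linarith, by linarith, ?_, ?_⟩
    · refine h5.trans ?_
      have : (C.gad).d (Sum.inr (⟨(x, y), hA⟩, i)) = eps ⌊x⌋ + G.d i := rfl
      rw [this, add_assoc 3]
    · exact fun h => C.crsP x y hA i b h3' h4' h
  out := by
    intro o ho
    rcases hP.H3 o ho with ⟨v, f, hv, rfl⟩ | h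
    · obtain ⟨l, h, H⟩ := C.cl_loc hv
      rcases H with ⟨h1, _, rfl, _⟩ | ⟨h1, i, rfl, _⟩
      · exact Or.inl ⟨l, h1, rfl⟩
      · exact Or.inr (Or.inl ⟨l, h, _, _, h1, ⟨i, rfl, rfl⟩, rfl⟩)
    · right; right
      intro s hs h0 h1
      push_cast at h0
      obtain ⟨k1, k2⟩ := κ_le_norm (c := c) h0 h1
      have hρ := hP.hρ
      rcases h _ _ (C.loc_cl (Or.inl ⟨hs, rfl, rfl, rfl⟩)) with h3 | h3
      · exact le_trans (mul_le_mul_of_nonneg_left k1 hρ.le) h3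
      · exact le_trans (mul_le_mul_of_nonneg_left k2 hρ.le) h3

lemma floor_neg_A {x y : ℝ} (h : (x, y) ∈ C.A) : ⌊-y⌋ = -⌊x⌋ - 1 := by
  obtain ⟨h1, h2, h3, h4, h5, h6, h7, h8⟩ := C.Ax x y h
  have := c.hκ0
  rw [Int.floor_eq_iff]
  push_cast
  constructor <;> linarith

noncomputable def frN (hG : Good c G) (hP : Placed c C.gad W θ ρ e z0) : Fr c W θ where
  ρ := ρ
  e := e + 6 * c.k
  z0 := z0
  RB := 3 - 6 * c.k
  Q := ngQ (Qc c)
  m := -c.M
  n := 0
  ε := fun j => eps (-j - 1)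
  S := ngS (exS c C.S)
  A := ngA (exA C.A)
  sub := fun ζ d => ∃ i, ζ = 1 - G.pos i ∧ d = G.d i
  hρ := hP.hρ
  hmn := by have := c.hM6; omega
  mono := by
    intro s s' _ h _
    have := Qc_mono c (neg_lt_neg h)
    simp only [ngQ]
    rwa [show -Qc c (-s') - -Qc c (-s) = Qc c (-s) - Qc c (-s') by ring]
  εv := fun j => eps_v _
  εs := by
    intro j
    have h1 := eps_s (-(j+1) - 1)
    rw [show -(j+1) - 1 + 1 = -j - 1 by ring] at h1
    rw [h1, neg_neg]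
  lin := by
    intro j h1 h2 s s' h3 h4 h5 h6
    have := Qc_lin c (j := -j - 1) (by omega) (by omega) (s := -s') (t := -s) (by push_cast; linarith)
      (by push_cast; linarith) (by push_cast; linarith) (by push_cast; linarith)
    simp only [ngQ]
    rw [show -Qc c (-s') - -Qc c (-s) = Qc c (-s) - Qc c (-s') by ring, this]
    congr 1; ring
  low := by
    intro j h1 h2 he s _ _
    have hj : ¬ Even (-j) := by
      intro h
      have h3 : ¬ Even (-j - 1) := by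
        intro h4
        obtain ⟨r, hr⟩ := h; obtain ⟨q, hq⟩ := h4; omega
      simp [eps, h3] at he
    have := Qc_high c (j := -j) (by omega) (by omega) hj (-s)
    simp only [ngQ, Complex.neg_im]
    push_cast at this
    linarith
  Sfin := by
    have : ngS (exS c C.S) = (fun s => -s) ⁻¹' (exS c C.S) := rfl
    rw [this]
    exact C.exS_fin.preimage (neg_injective.injOn)
  Sint := by
    intro j h1 h2
    have := C.exS_int (-j) (by omega) (by omega)
    simp only [ngS, Set.mem_ofPred_eq]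
    push_cast at this
    exact this
  Sdom := by
    intro s hs
    simp only [ngS, Set.mem_ofPred_eq] at hs
    rcases hs with hs | hs | hs
    · right; left
      have := C.Sdom _ hs
      push_cast
      constructor <;> linarith
    · right; right; push_cast; linarith
    · left; push_cast; linarith
  Ax := by
    intro x y h
    have hA : (-y, -x) ∈ C.A := h
    obtain ⟨h1, h2, h3, h4, h5, h6, h7, h8⟩ := C.Ax' hA
    have hf := C.floor_neg_A hA
    rw [neg_neg] at hf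
    refine ⟨h2, h1, by linarith, ?_, by omega, by omega, ?_, ?_⟩
    · intro s hs
      rcases h4 (-s) hs with h | h
      · right; linarith
      · left; linarith
    · rw [hf]; push_cast; linarith
    · rw [hf]; push_cast; linarith
  thin := by
    rintro ζ d ⟨i, rfl, rfl⟩
    obtain ⟨h1, h2, h3, h4⟩ := hG.thin i
    refine ⟨by simp; linarith, by simp; linarith, h4, ?_⟩
    rwa [sub_sub_cancel]
  comp := by
    rintro ζ d ⟨i, rfl, rfl⟩ h
    obtain ⟨i', h1, h2, h3, h4⟩ := hG.compN i h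
    refine ⟨_, _, ⟨i', rfl, rfl⟩, ?_⟩
    rw [show 1 - G.pos i' - (1 - G.pos i) = G.pos i - G.pos i' by ring, sub_sub_cancel]
    exact ⟨h1, h2, h3, h4⟩
  RBv := by omega
  wS := by
    intro s hs h0 h1
    push_cast at h0 h1
    obtain ⟨h2, b, h3, h4, h5⟩ := hP.H1 (Sum.inl ⟨-s, C.exS_mem hs (by linarith) (by linarith)⟩)
    have e1 : z0 + Ut c ρ (e + 6 * c.k) * ngQ (Qc c) s = z0 + Ut c ρ e * Qc c (-s) := by
      rw [Ut_neg]; simp only [ngQ]; ring
    rw [e1]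
    refine ⟨h2, b, h3, h4, ?_⟩
    refine h5.trans ?_
    have : (C.gad).d (Sum.inl ⟨-s, C.exS_mem hs (by linarith) (by linarith)⟩) = 0 := rfl
    rw [this]; push_cast; ring
  wE := by
    intro s hs hW
    have e1 : z0 + Ut c ρ (e + 6 * c.k) * ngQ (Qc c) s = z0 + Ut c ρ e * Qc c (-s) := by
      rw [Ut_neg]; simp only [ngQ]; ring
    rw [e1] at hW ⊢
    have : Qc c (-s) = 0 ∨ Qc c (-s) = 1 := by
      rcases hs with rfl | rfl
      · right; rw [← Qc_right c]; congr 1; push_cast; ring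
      · left; rw [← Qc_left c]; congr 1; push_cast; ring
    obtain ⟨b, d, h1, h2, h3, h4⟩ := hP.H2 _ this hW
    refine ⟨b, d, h1, h2, h3, h4.trans ?_⟩
    push_cast; ring
  wA := by
    rintro x y ζ d hA ⟨i, rfl, rfl⟩
    have hA' : (-y, -x) ∈ C.A := hA
    have hf := C.floor_neg_A hA'
    rw [neg_neg] at hf
    have hff : -⌊x⌋ - 1 = ⌊-y⌋ := by omega
    obtain ⟨h2, b, h3, h4, h5⟩ := hP.H1 (Sum.inr (⟨(-y, -x), hA'⟩, i))
    have hw := hG.win i
    have hw' := C.win _ _ hA' i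
    have h3' : C.lo (-y) (-x) i ≤ b := h3
    have h4' : b ≤ C.hi (-y) (-x) i := h4
    have e0 : ngQ (Qc c) x + (ngQ (Qc c) y - ngQ (Qc c) x) * (1 - G.pos i)
        = -(Qc c (-y) + (Qc c (-x) - Qc c (-y)) * G.pos i) := by
      simp only [ngQ]; ring
    have e1 : z0 + Ut c ρ (e + 6 * c.k) * (ngQ (Qc c) x + (ngQ (Qc c) y - ngQ (Qc c) x) * (1 - G.pos i))
        = z0 + Ut c ρ e * (Qc c (-y) + (Qc c (-x) - Qc c (-y)) * G.pos i) := by
      rw [Ut_neg, e0]; ring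
    rw [e1, e0, hff]
    refine ⟨h2, b, by linarith, by linarith, ?_, ?_⟩
    · refine h5.trans ?_
      have : (C.gad).d (Sum.inr (⟨(-y, -x), hA'⟩, i)) = eps ⌊-y⌋ + G.d i := rfl
      rw [this]; push_cast; ring
    · intro h
      have := C.crsN (-y) (-x) hA' i b h3' h4' h
      rwa [show -⌊-y⌋ - 1 = ⌊x⌋ by omega] at this
  out := by
    intro o ho
    rcases hP.H3 o ho with ⟨v, f, hv, rfl⟩ | h
    · obtain ⟨l, h, H⟩ := C.cl_loc hv
      rcases H with ⟨h1, _, rfl, _⟩ | ⟨h1, i, rfl, _⟩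
      · refine Or.inl ⟨-l, ?_, ?_⟩
        · simp only [ngS, Set.mem_ofPred_eq, neg_neg]; exact h1
        · rw [Ut_neg]; simp only [ngQ, neg_neg]; ring
      · refine Or.inr (Or.inl ⟨-h, -l, _, _, ?_, ⟨i, rfl, rfl⟩, ?_⟩)
        · simp only [ngA, neg_neg]; exact h1
        · rw [Ut_neg]; simp only [ngQ, neg_neg]; ring
    · right; right
      intro s hs h0 h1
      push_cast at h0 h1
      have e1 : z0 + Ut c ρ (e + 6 * c.k) * ngQ (Qc c) s = z0 + Ut c ρ e * Qc c (-s) := by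
        rw [Ut_neg]; simp only [ngQ]; ring
      rw [e1]
      obtain ⟨k1, k2⟩ := κ_le_norm (c := c) (s := -s) (by linarith) (by linarith)
      have hρ := hP.hρ
      rcases h _ _ (C.loc_cl (Or.inl ⟨hs, rfl, rfl, rfl⟩)) with h3 | h3
      · exact le_trans (mul_le_mul_of_nonneg_left k1 hρ.le) h3
      · exact le_trans (mul_le_mul_of_nonneg_left k2 hρ.le) h3

end Comb
end SecY9

section SecY10
lemma dir_polar (c : Cst) {ε : ℤ} (hε : ε = 1 ∨ ε = -1) {r : ℝ} (hr : 0 < r) :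
    dir c ε r = ‖dir c ε r‖ * Complex.exp ((ε * c.α : ℝ) * Complex.I) := by
  have hre : 0 < (dir c ε r).re := by simp only [dir]; exact mul_pos c.hw0 hr
  have h1 := polar hre
  have h2 : ang (dir c ε r) = ε * c.α := by
    unfold ang
    have : (dir c ε r).im / (dir c ε r).re = ε * c.a := by
      have hw := c.hw0
      simp only [dir]; field_simp
    rw [this, ← c.arctan_a]
    rcases hε with rfl | rfl
    · push_cast; rw [one_mul, one_mul]
    · push_cast; rw [neg_one_mul, neg_one_mul, Real.arctan_neg]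
  rw [h2] at h1
  exact h1

lemma Ut_mul_dir (c : Cst) (ρ : ℝ) (e : ℤ) {ε : ℤ} (hε : ε = 1 ∨ ε = -1) {r : ℝ} (hr : 0 < r) :
    Ut c ρ e * dir c ε r = Ut c (ρ * ‖dir c ε r‖) (e + ε) := by
  conv_lhs => rw [dir_polar c hε hr]
  unfold Ut
  push_cast
  rw [add_mul (e:ℂ), add_mul, Complex.exp_add]
  ring

lemma norm_le_of_fwd (c : Cst) {z w : ℂ} (hz : z = 0 ∨ (0 < z.re ∧ FC c.T z))
    (hw : w = 0 ∨ (0 < w.re ∧ FC c.T w)) : ‖z‖ ≤ ‖z + w‖ := by
  rcases hw with rfl | hw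
  · simp
  · rcases hz with rfl | hz
    · simp
    · exact (norm_lt_add c hz.1 hz.2 hw.1 hw.2).le

namespace Comb
variable {c : Cst} {G : Gad} (C : Comb c G)
variable {W : Set ℂ} {θ : ℂ → ℝ} {ρ : ℝ} {e : ℤ} {z0 : ℂ}

lemma Qc_fwd {s t : ℝ} (h : s ≤ t) :
    Qc c t - Qc c s = 0 ∨ (0 < (Qc c t - Qc c s).re ∧ FC c.T (Qc c t - Qc c s)) := by
  rcases h.eq_or_lt with rfl | h
  · left; simp
  · right
    obtain ⟨h1, h2⟩ := Qc_mono c h
    have := c.le_T
    have := c.τ0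
    exact ⟨h1, h2.mono (by linarith) h1.le⟩

/-- closed vertices of a copy, relative to the left end -/
lemma cl_l (hG : Good c G) {x y : ℝ} (hA : (x, y) ∈ C.A) {v : ℂ} {f : ℝ} (hv : G.Cl v f) :
    (Qc c y - Qc c x) * v = 0 ∨
      (0 < ((Qc c y - Qc c x) * v).re ∧ FC c.T ((Qc c y - Qc c x) * v)) := by
  rcases hv with ⟨i, rfl, _⟩ | ⟨rfl, _⟩ | ⟨rfl, _⟩
  · right
    obtain ⟨t1, t2, t3, t4⟩ := hG.thin i
    have h3 := (C.Ax x y hA).2.2.1
    rw [C.A_dir hA]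
    obtain ⟨g1, g2, _⟩ := dir_props c (eps_v ⌊x⌋) (sub_pos.2 h3) t1 t3
    exact ⟨g1, g2⟩
  · left; simp
  · rw [mul_one]
    exact Qc_fwd (C.Ax x y hA).2.2.1.le

lemma cl_r (hG : Good c G) {x y : ℝ} (hA : (x, y) ∈ C.A) {v : ℂ} {f : ℝ} (hv : G.Cl v f) :
    (Qc c y - Qc c x) * (1 - v) = 0 ∨
      (0 < ((Qc c y - Qc c x) * (1 - v)).re ∧ FC c.T ((Qc c y - Qc c x) * (1 - v))) := by
  rcases hv with ⟨i, rfl, _⟩ | ⟨rfl, _⟩ | ⟨rfl, _⟩
  · right
    obtain ⟨t1, t2, t3, t4⟩ := hG.thin i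
    have h3 := (C.Ax x y hA).2.2.1
    rw [C.A_dir hA]
    obtain ⟨g1, g2, _⟩ := dir_props c (eps_v ⌊x⌋) (sub_pos.2 h3) (by simp; linarith) t4
    exact ⟨g1, g2⟩
  · rw [sub_zero, mul_one]
    exact Qc_fwd (C.Ax x y hA).2.2.1.le
  · left; simp

/-- a closed vertex is between its location bounds -/
lemma loc_l (hG : Good c G) {l h : ℝ} {v : ℂ} {f : ℝ} (H : C.LocG l h v f) :
    v - Qc c l = 0 ∨ (0 < (v - Qc c l).re ∧ FC c.T (v - Qc c l)) := by
  rcases H with ⟨_, _, rfl, _⟩ | ⟨hA, i, rfl, _⟩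
  · left; simp
  · rw [add_sub_cancel_left]
    exact C.cl_l hG hA (Or.inl ⟨i, rfl, rfl⟩)

lemma loc_r (hG : Good c G) {l h : ℝ} {v : ℂ} {f : ℝ} (H : C.LocG l h v f) :
    Qc c h - v = 0 ∨ (0 < (Qc c h - v).re ∧ FC c.T (Qc c h - v)) := by
  rcases H with ⟨_, rfl, rfl, _⟩ | ⟨hA, i, rfl, _⟩
  · left; simp
  · rw [show Qc c h - (Qc c l + (Qc c h - Qc c l) * G.pos i)
      = (Qc c h - Qc c l) * (1 - G.pos i) by ring]
    exact C.cl_r hG hA (Or.inl ⟨i, rfl, rfl⟩)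

lemma fwd_add' {z w : ℂ} (hz : z = 0 ∨ (0 < z.re ∧ FC c.T z))
    (hw : w = 0 ∨ (0 < w.re ∧ FC c.T w)) : z + w = 0 ∨ (0 < (z + w).re ∧ FC c.T (z + w)) := by
  rcases hz with rfl | hz
  · rw [zero_add]; exact hw
  · rcases hw with rfl | hw
    · rw [add_zero]; exact Or.inr hz
    · right; exact Fr.add_fwd hz hw

lemma loc_S {l h : ℝ} {v : ℂ} {f : ℝ} (H : C.LocG l h v f) :
    l ∈ exS c C.S ∧ h ∈ exS c C.S ∧ l ≤ h ∧ ∀ s ∈ exS c C.S, s ≤ l ∨ h ≤ s := by
  rcases H with ⟨h1, rfl, _, _⟩ | ⟨hA, _⟩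
  · exact ⟨h1, h1, le_rfl, fun s _ => le_total _ _⟩
  · obtain ⟨h1, h2, h3, h4, _⟩ := C.Ax' hA
    exact ⟨h1, h2, h3.le, h4⟩

lemma exS_dom {s : ℝ} (hs : s ∈ exS c C.S) : -1 ≤ s ∧ s ≤ c.M + 1 := by
  have := M6 (c := c)
  rcases hs with hs | rfl | rfl
  · have := C.Sdom s hs
    constructor <;> linarith
  · constructor <;> linarith
  · constructor <;> linarith

theorem placed_copy (hG : Good c G) (hP : Placed c C.gad W θ ρ e z0) {x y : ℝ}
    (hA : (x, y) ∈ C.A) :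
    Placed c G W θ (ρ * ‖Qc c y - Qc c x‖) (e + eps ⌊x⌋) (z0 + Ut c ρ e * Qc c x) ∧
    Ut c (ρ * ‖Qc c y - Qc c x‖) (e + eps ⌊x⌋) = Ut c ρ e * (Qc c y - Qc c x) := by
  obtain ⟨a1, a2, a3, a4, a5, a6, a7, a8⟩ := C.Ax' hA
  obtain ⟨b1, b2, _⟩ := C.Ax x y hA
  have hU : Ut c (ρ * ‖Qc c y - Qc c x‖) (e + eps ⌊x⌋) = Ut c ρ e * (Qc c y - Qc c x) := by
    rw [C.A_dir hA, Ut_mul_dir c ρ e (eps_v _) (by linarith)]
  have hρ := hP.hρ
  have hn : 0 < ‖Qc c y - Qc c x‖ := by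
    rw [norm_pos_iff]
    intro h
    have := (Qc_mono c a3).1
    rw [h] at this; simp at this
  have hfx := Qc_fwd (c := c) a3.le
  refine ⟨⟨mul_pos hρ hn, ?_, ?_, ?_⟩, hU⟩
  · intro i
    rw [hU]
    obtain ⟨h2, b, h3, h4, h5⟩ := hP.H1 (Sum.inr (⟨(x, y), hA⟩, i))
    have hw' := C.win x y hA i
    have h3' : C.lo x y i ≤ b := h3
    have h4' : b ≤ C.hi x y i := h4
    have e1 : z0 + Ut c ρ e * Qc c x + Ut c ρ e * (Qc c y - Qc c x) * G.pos i
        = z0 + Ut c ρ e * (Qc c x + (Qc c y - Qc c x) * G.pos i) := by ring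
    rw [e1]
    refine ⟨h2, b, by linarith, by linarith, h5.trans ?_⟩
    have : (C.gad).d (Sum.inr (⟨(x, y), hA⟩, i)) = eps ⌊x⌋ + G.d i := rfl
    rw [this]; push_cast; ring
  · intro v hv hW
    rw [hU] at hW ⊢
    -- both ends are breakpoints
    have hb : ∃ s ∈ C.S, z0 + Ut c ρ e * Qc c x + Ut c ρ e * (Qc c y - Qc c x) * v
        = z0 + Ut c ρ e * Qc c s := by
      rcases hv with rfl | rfl
      · exact ⟨x, b1, by ring⟩
      · exact ⟨y, b2, by ring⟩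
    obtain ⟨s, hs, hse⟩ := hb
    rw [hse]
    obtain ⟨h2, b, h3, h4, h5⟩ := hP.H1 (Sum.inl ⟨s, hs⟩)
    refine ⟨b, -eps ⌊x⌋, ?_, h3, h4, h5.trans ?_⟩
    · rcases eps_v ⌊x⌋ with h | h <;> rw [h] <;> simp
    · have : (C.gad).d (Sum.inl ⟨s, hs⟩) = 0 := rfl
      rw [this]; push_cast; ring
  · intro o ho
    rw [hU]
    have hnorm : ∀ z : ℂ, ρ * ‖Qc c y - Qc c x‖ * ‖z‖ = ρ * ‖(Qc c y - Qc c x) * z‖ := by
      intro z; rw [norm_mul]; ring
    have hpt : ∀ v : ℂ, z0 + Ut c ρ e * Qc c x + Ut c ρ e * (Qc c y - Qc c x) * v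
        = z0 + Ut c ρ e * (Qc c x + (Qc c y - Qc c x) * v) := by intro v; ring
    have hd : ∀ v v' : ℂ, ‖z0 + Ut c ρ e * v - (z0 + Ut c ρ e * v')‖ = ρ * ‖v - v'‖ := by
      intro v v'
      rw [show z0 + Ut c ρ e * v - (z0 + Ut c ρ e * v') = Ut c ρ e * (v - v') by ring, norm_mul,
        norm_Ut c hρ]
    rcases hP.H3 o ho with ⟨v, f, hv, rfl⟩ | hfar
    · obtain ⟨l, h, H⟩ := C.cl_loc hv
      obtain ⟨m1, m2, m3, m4⟩ := C.loc_S H
      -- in the copy, before or after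
      by_cases hbef : h ≤ x
      · right
        intro v1 f1 hv1
        left
        rw [hpt, hd, hnorm]
        apply mul_le_mul_of_nonneg_left _ hρ.le
        have g1 := C.cl_l hG hA hv1
        have g2 := fwd_add' (Qc_fwd (c := c) hbef) (C.loc_r hG H)
        have g3 := norm_le_of_fwd c g1 g2
        rw [norm_sub_rev v]
        refine g3.trans (le_of_eq ?_)
        congr 1; ring
      · by_cases haft : y ≤ l
        · right
          intro v1 f1 hv1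
          right
          rw [hpt, hd, hnorm]
          apply mul_le_mul_of_nonneg_left _ hρ.le
          have g1 := C.cl_r hG hA hv1
          have g2 := fwd_add' (Qc_fwd (c := c) haft) (C.loc_l hG H)
          have g3 := norm_le_of_fwd c g1 g2
          refine g3.trans (le_of_eq ?_)
          congr 1; ring
        · left
          push Not at hbef haft
          have k1 : l ≤ x := (a4 l m1).resolve_right (not_le.2 haft)
          have k2 : y ≤ h := (a4 h m2).resolve_left (not_le.2 hbef)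
          rcases H with ⟨_, rfl, _⟩ | ⟨hA', i, rfl, _⟩
          · exfalso; linarith
          · have k3 : x ≤ l := (m4 x a1).resolve_right (not_le.2 hbef)
            have k4 : h ≤ y := (m4 y a2).resolve_left (not_le.2 haft)
            have e1 := le_antisymm k1 k3
            have e2 := le_antisymm k2 k4
            subst e1 e2
            exact ⟨G.pos i, G.F i, Or.inl ⟨i, rfl, rfl⟩, by rw [hpt]⟩
    · right
      intro v1 f1 hv1
      rw [hpt]
      -- the point of the copy is a closed vertex of the composite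
      have hcl : ∃ f, C.gad.Cl (Qc c x + (Qc c y - Qc c x) * v1) f := by
        rcases hv1 with ⟨i, rfl, _⟩ | ⟨rfl, _⟩ | ⟨rfl, _⟩
        · exact ⟨_, C.loc_cl (Or.inr ⟨hA, i, rfl, rfl⟩)⟩
        · exact ⟨_, C.loc_cl (Or.inl ⟨a1, rfl, by ring, rfl⟩)⟩
        · exact ⟨_, C.loc_cl (Or.inl ⟨a2, rfl, by ring, rfl⟩)⟩
      obtain ⟨f, hf⟩ := hcl
      have g1 := C.cl_l hG hA hv1
      have g2 := C.cl_r hG hA hv1
      have d1 := C.exS_dom a1
      have d2 := C.exS_dom a2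
      rcases hfar _ f hf with h | h
      · left
        refine le_trans ?_ h
        rw [hnorm]
        apply mul_le_mul_of_nonneg_left _ hρ.le
        have g3 := Qc_fwd (c := c) d1.1
        rw [Qc_left, sub_zero] at g3
        refine (norm_le_of_fwd c g1 g3).trans (le_of_eq ?_)
        congr 1; ring
      · right
        refine le_trans ?_ h
        rw [hnorm]
        apply mul_le_mul_of_nonneg_left _ hρ.le
        have g3 := Qc_fwd (c := c) d2.2
        rw [Qc_right] at g3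
        refine (norm_le_of_fwd c g2 g3).trans (le_of_eq ?_)
        congr 1; ring

end Comb
end SecY10

section SecY11
namespace Comb
variable {c : Cst} {G : Gad} (C : Comb c G)
variable {W : Set ℂ} {θ : ℂ → ℝ} {ρ : ℝ} {e : ℤ} {z0 : ℂ}

lemma Qc_inj {s t : ℝ} (h : Qc c s = Qc c t) : s = t := by
  rcases lt_trichotomy s t with h1 | h1 | h1
  · have := (Qc_mono c h1).1
    rw [h, sub_self] at this; simp at this
  · exact h1
  · have := (Qc_mono c h1).1
    rw [h, sub_self] at this; simp at this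

lemma sub_strict (hG : Good c G) {x y : ℝ} (hA : (x, y) ∈ C.A) (i : G.ι) :
    (Qc c x).re < (Qc c x + (Qc c y - Qc c x) * G.pos i).re ∧
    (Qc c x + (Qc c y - Qc c x) * G.pos i).re < (Qc c y).re := by
  obtain ⟨t1, t2, t3, t4⟩ := hG.thin i
  have h3 := (C.Ax x y hA).2.2.1
  have g1 := (dir_props c (eps_v ⌊x⌋) (sub_pos.2 h3) t1 t3).1
  have g2 := (dir_props c (eps_v ⌊x⌋) (sub_pos.2 h3) (ζ := 1 - G.pos i) (by simp; linarith) t4).1
  rw [← C.A_dir hA] at g1 g2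
  constructor
  · rw [Complex.add_re]; linarith
  · have : (Qc c y).re - (Qc c x + (Qc c y - Qc c x) * G.pos i).re
        = ((Qc c y - Qc c x) * (1 - G.pos i)).re := by
      rw [← Complex.sub_re]; congr 1; ring
    linarith

lemma Qc_re_le {s t : ℝ} (h : s ≤ t) : (Qc c s).re ≤ (Qc c t).re := by
  rcases h.eq_or_lt with rfl | h
  · exact le_rfl
  · have := (Qc_mono c h).1
    rw [Complex.sub_re] at this; linarith

lemma loc_unique (hG : Good c G) {l h s : ℝ} {v : ℂ} {f : ℝ} (H : C.LocG l h v f)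
    (hs : s ∈ exS c C.S) (hv : v = Qc c s) : f = C.Ft s := by
  have m4 := (C.loc_S H).2.2.2
  rcases H with ⟨_, _, rfl, rfl⟩ | ⟨hA, i, rfl, _⟩
  · rw [Qc_inj hv]
  · exfalso
    obtain ⟨g1, g2⟩ := C.sub_strict hG hA i
    rw [hv] at g1 g2
    rcases m4 s hs with h1 | h1
    · have := Qc_re_le (c := c) h1; linarith
    · have := Qc_re_le (c := c) h1; linarith

def InCopy (x y : ℝ) (v : ℂ) (f : ℝ) : Prop :=
  ∃ v1 f1, G.Cl v1 f1 ∧ v = Qc c x + (Qc c y - Qc c x) * v1 ∧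
    f = C.Ft x + ‖Qc c y - Qc c x‖ * f1

lemma inCopy_l {x y : ℝ} : C.InCopy x y (Qc c x) (C.Ft x) :=
  ⟨0, 0, Or.inr (Or.inl ⟨rfl, rfl⟩), by ring, by ring⟩

lemma inCopy_r {x y : ℝ} (hA : (x, y) ∈ C.A) : C.InCopy x y (Qc c y) (C.Ft y) :=
  ⟨1, G.L, Or.inr (Or.inr ⟨rfl, rfl⟩), by ring, C.Fta x y hA⟩

lemma copy_case (hG : Good c G) (hP : Placed c C.gad W θ ρ e z0) {x y : ℝ}
    (hA : (x, y) ∈ C.A) {v v' : ℂ} {f f' : ℝ} (h1 : C.InCopy x y v f) (h2 : C.InCopy x y v' f')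
    (hW : z0 + Ut c ρ e * v ∈ W) (hW' : z0 + Ut c ρ e * v' ∈ W) (hne : v ≠ v')
    (hN : NN c.k W θ (z0 + Ut c ρ e * v) (z0 + Ut c ρ e * v')) :
    |f - f'| ≤ ‖v - v'‖ ∨ Killed c.k W θ (z0 + Ut c ρ e * v) (z0 + Ut c ρ e * v') := by
  obtain ⟨hp, hU⟩ := C.placed_copy hG hP hA
  obtain ⟨v1, f1, c1, rfl, rfl⟩ := h1
  obtain ⟨v2, f2, c2, rfl, rfl⟩ := h2
  have hpt : ∀ v : ℂ, z0 + Ut c ρ e * Qc c x + Ut c ρ e * (Qc c y - Qc c x) * v
      = z0 + Ut c ρ e * (Qc c x + (Qc c y - Qc c x) * v) := by intro v; ring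
  have h := hG.claim W θ _ _ _ hp v1 f1 v2 f2 c1 c2 (by rw [hU, hpt]; exact hW)
    (by rw [hU, hpt]; exact hW') (by rintro rfl; exact hne rfl) (by rw [hU, hpt, hpt]; exact hN)
  rw [hU, hpt, hpt] at h
  rcases h with h | h
  · left
    rw [show C.Ft x + ‖Qc c y - Qc c x‖ * f1 - (C.Ft x + ‖Qc c y - Qc c x‖ * f2)
      = ‖Qc c y - Qc c x‖ * (f1 - f2) by ring, abs_mul, abs_of_nonneg (norm_nonneg _),
      show Qc c x + (Qc c y - Qc c x) * v1 - (Qc c x + (Qc c y - Qc c x) * v2)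
      = (Qc c y - Qc c x) * (v1 - v2) by ring, norm_mul]
    exact mul_le_mul_of_nonneg_left h (norm_nonneg _)
  · exact Or.inr h

theorem claim_comp (hG : Good c G) : ∀ W θ ρ e z0, Placed c C.gad W θ ρ e z0 →
    ∀ v f v' f', C.gad.Cl v f → C.gad.Cl v' f' →
    z0 + Ut c ρ e * v ∈ W → z0 + Ut c ρ e * v' ∈ W → v ≠ v' →
    NN c.k W θ (z0 + Ut c ρ e * v) (z0 + Ut c ρ e * v') →
    |f - f'| ≤ ‖v - v'‖ ∨ Killed c.k W θ (z0 + Ut c ρ e * v) (z0 + Ut c ρ e * v') := by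
  intro W θ ρ e z0 hP v f v' f' hv hv' hW hW' hne hN
  obtain ⟨l, h, H⟩ := C.cl_loc hv
  obtain ⟨l', h', H'⟩ := C.cl_loc hv'
  obtain ⟨m1, m2, m3, m4⟩ := C.loc_S H
  obtain ⟨m1', m2', m3', m4'⟩ := C.loc_S H'
  by_cases hf : h ≤ l'
  · -- forward
    have hL' : (C.frP hG hP).Loc l' h' v' := by
      rcases H' with ⟨q1, q2, q3, _⟩ | ⟨q1, i, q2, _⟩
      · exact Or.inl ⟨q1, q2, q3⟩
      · exact Or.inr ⟨q1, G.pos i, G.d i, ⟨i, rfl, rfl⟩, q2⟩
    rcases H with ⟨q1, rfl, rfl, rfl⟩ | ⟨hA, i, rfl, rfl⟩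
    · obtain ⟨s', hs', hss', hcon, hor⟩ := (C.frP hG hP).fwd_bp (s := h) q1 hW hL' hf
        (fun h => hne h.symm) hN
      rcases hor with hor | ⟨rfl, rfl, hA⟩
      · have hf' := C.loc_unique hG H' hs' hor
        subst hf'
        have hor' : v' = Qc c s' := hor
        subst hor'
        by_cases hA : (h, s') ∈ C.A
        · exact C.copy_case hG hP hA C.inCopy_l (C.inCopy_r hA) hW hW' hne hN
        · left
          rw [abs_sub_comm, norm_sub_rev]
          exact C.Ftf h q1 s' hs' hss' hcon hA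
      · have hA' : (l', h') ∈ C.A := hA
        rcases H' with ⟨_, rfl, _⟩ | ⟨_, i, rfl, rfl⟩
        · exact absurd hss' (lt_irrefl _)
        · exact C.copy_case hG hP hA' C.inCopy_l ⟨_, _, Or.inl ⟨i, rfl, rfl⟩, rfl, rfl⟩ hW hW' hne hN
    · by_cases hvh : v' = Qc c h
      · have hf' := C.loc_unique hG H' m2 hvh
        subst hf' hvh
        exact C.copy_case hG hP hA ⟨_, _, Or.inl ⟨i, rfl, rfl⟩, rfl, rfl⟩ (C.inCopy_r hA) hW hW' hne hN
      · right
        exact (C.frP hG hP).fwd_sub (x := l) (y := h) (ζ := G.pos i) (d := G.d i) hA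
          ⟨i, rfl, rfl⟩ hL' hf hvh hN
  by_cases hb : h' ≤ l
  · -- backward
    have hpt : ∀ v : ℂ, (C.frN hG hP).pt (-v) = z0 + Ut c ρ e * v := by
      intro v
      show z0 + Ut c ρ (e + 6 * c.k) * (-v) = _
      rw [Ut_neg]; ring
    have hQ : ∀ s : ℝ, (C.frN hG hP).Q s = -Qc c (-s) := fun s => rfl
    have hL' : (C.frN hG hP).Loc (-h') (-l') (-v') := by
      rcases H' with ⟨q1, rfl, rfl, _⟩ | ⟨q1, i, rfl, _⟩
      · refine Or.inl ⟨?_, rfl, ?_⟩
        · show - -h' ∈ exS c C.S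
          rw [neg_neg]; exact q1
        · rw [hQ, neg_neg]
      · refine Or.inr ⟨?_, 1 - G.pos i, G.d i, ⟨i, rfl, rfl⟩, ?_⟩
        · show (- -l', - -h') ∈ C.A
          rw [neg_neg, neg_neg]; exact q1
        · rw [hQ, hQ, neg_neg, neg_neg]; ring
    rcases H with ⟨q1, rfl, rfl, rfl⟩ | ⟨hA, i, rfl, rfl⟩
    · have hWh : (C.frN hG hP).pt ((C.frN hG hP).Q (-h)) ∈ W := by
        rw [hQ, hpt, neg_neg]; exact hW
      have hNh : NN c.k W θ ((C.frN hG hP).pt ((C.frN hG hP).Q (-h))) ((C.frN hG hP).pt (-v')) := by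
        rw [hQ, hpt, hpt, neg_neg]; exact hN
      obtain ⟨s', hs', hss', hcon, hor⟩ := (C.frN hG hP).fwd_bp (s := -h)
        (by show - -h ∈ exS c C.S; rw [neg_neg]; exact q1) hWh hL' (by linarith)
        (by rw [hQ, neg_neg]; intro h; exact hne (neg_injective h).symm) hNh
      have hs'' : -s' ∈ exS c C.S := hs'
      rcases hor with hor | ⟨e1, e2, hA⟩
      · rw [hQ] at hor
        have hor' : v' = Qc c (-s') := neg_injective hor
        have hf' := C.loc_unique hG H' hs'' hor'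
        subst hf' hor'
        by_cases hA : (-s', h) ∈ C.A
        · exact C.copy_case hG hP hA (C.inCopy_r hA) C.inCopy_l hW hW' hne hN
        · left
          refine C.Ftf (-s') hs'' h q1 (by linarith) ?_ hA
          intro r hr
          rcases hcon (-r) (by show - -r ∈ exS c C.S; rw [neg_neg]; exact hr) with h | h
          · right; linarith
          · left; linarith
      · have hA' : (- s', - -h) ∈ C.A := hA
        have e2' : l' = -s' := by linarith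
        have e1' : h' = h := by linarith
        rw [neg_neg] at hA'
        subst e2' e1'
        rcases H' with ⟨_, rfl, _⟩ | ⟨_, i, rfl, rfl⟩
        · exfalso; linarith
        · exact C.copy_case hG hP hA' (C.inCopy_r hA') ⟨_, _, Or.inl ⟨i, rfl, rfl⟩, rfl, rfl⟩ hW hW' hne hN
    · by_cases hvh : v' = Qc c l
      · have hf' := C.loc_unique hG H' m1 hvh
        subst hf' hvh
        exact C.copy_case hG hP hA ⟨_, _, Or.inl ⟨i, rfl, rfl⟩, rfl, rfl⟩ C.inCopy_l hW hW' hne hN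
      · right
        have e0 : (C.frN hG hP).Q (-h) + ((C.frN hG hP).Q (-l) - (C.frN hG hP).Q (-h)) * (1 - G.pos i)
            = -(Qc c l + (Qc c h - Qc c l) * G.pos i) := by
          rw [hQ, hQ, neg_neg, neg_neg]; ring
        have := (C.frN hG hP).fwd_sub (x := -h) (y := -l) (ζ := 1 - G.pos i) (d := G.d i)
          (by show (- -l, - -h) ∈ C.A; rw [neg_neg, neg_neg]; exact hA)
          ⟨i, rfl, rfl⟩ hL' (by linarith)
          (by rw [hQ, neg_neg]; intro h; exact hvh (neg_injective h))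
          (by rw [e0, hpt, hpt]; exact hN)
        rw [e0, hpt, hpt] at this
        exact this
  · -- both in the same copy
    push Not at hf hb
    have k1 : l' ≤ l := (m4 l' m1').resolve_right (not_le.2 hf)
    have k2 : l ≤ l' := (m4' l m1).resolve_right (not_le.2 hb)
    have k3 : h ≤ h' := (m4 h' m2').resolve_left (not_le.2 hb)
    have k4 : h' ≤ h := (m4' h m2).resolve_left (not_le.2 hf)
    have e1 := le_antisymm k1 k2
    have e2 := le_antisymm k3 k4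
    subst e1 e2
    rcases H with ⟨_, rfl, _⟩ | ⟨hA, i, rfl, rfl⟩
    · exact absurd hf (lt_irrefl _)
    · rcases H' with ⟨_, rfl, _⟩ | ⟨_, i', rfl, rfl⟩
      · exact absurd hf (lt_irrefl _)
      · exact C.copy_case hG hP hA ⟨_, _, Or.inl ⟨i, rfl, rfl⟩, rfl, rfl⟩
          ⟨_, _, Or.inl ⟨i', rfl, rfl⟩, rfl, rfl⟩ hW hW' hne hN

end Comb
end SecY11

section SecY12
lemma wa_small (c : Cst) : c.w * (c.a + c.T) ≤ c.τ * c.κ ∧ c.w * c.a ≤ c.τ * c.κ := by
  have hw := c.hw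
  have hw0 := c.hw0
  have ha := c.ha0
  have ha1 := c.ha1
  have hT := c.T_le
  have hT0 := c.T0
  have hτ1 := c.τ1
  have h1 : c.a + c.T ≤ 1 := by linarith
  constructor
  · calc c.w * (c.a + c.T) ≤ c.w * 1 := mul_le_mul_of_nonneg_left h1 hw0.le
      _ ≤ _ := by linarith
  · calc c.w * c.a ≤ c.w * 1 := mul_le_mul_of_nonneg_left (by linarith) hw0.le
      _ ≤ _ := by linarith

lemma Qc_im (c : Cst) (s : ℝ) : 0 ≤ (Qc c s).im ∧ (Qc c s).im ≤ c.w * c.a := by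
  have hw := c.hw0
  have ha := c.ha0
  have h1 := tri_nonneg (cl c.M s)
  have h2 := tri_le_one (cl c.M s)
  have h3 : 0 < c.w * c.a := by positivity
  simp only [Qc]
  constructor
  · positivity
  · nlinarith

namespace Comb
variable {c : Cst} {G : Gad} (C : Comb c G)

lemma x_dom {x y : ℝ} (hA : (x, y) ∈ C.A) : 0 ≤ x ∧ y ≤ c.M ∧ y - x ≤ 1 := by
  obtain ⟨h1, h2, h3, h4, h5, h6, h7, h8⟩ := C.Ax x y hA
  have g1 := C.Sdom x h1
  have g2 := C.Sdom y h2
  have := c.hκ0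
  exact ⟨g1.1, g2.2, by linarith⟩

lemma thin_comp (hG : Good c G) : ∀ i, 0 < (C.gad.pos i).re ∧ (C.gad.pos i).re < 1 ∧
    FC c.τ (C.gad.pos i) ∧ FC c.τ (1 - C.gad.pos i) := by
  have hκ := c.hκ0
  have hτ := c.τ0
  have hw := c.hw0
  have hM := c.hM
  obtain ⟨hwa1, hwa2⟩ := wa_small c
  -- general criterion
  have key : ∀ v : ℂ, c.κ ≤ v.re → v.re ≤ 1 - c.κ → |v.im| ≤ c.τ * c.κ →
      0 < v.re ∧ v.re < 1 ∧ FC c.τ v ∧ FC c.τ (1 - v) := by
    intro v h1 h2 h3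
    refine ⟨by linarith, by linarith, h3.trans (mul_le_mul_of_nonneg_left h1 hτ.le), ?_⟩
    unfold FC
    have e1 : (1 - v).im = -v.im := by simp
    have e2 : (1 - v).re = 1 - v.re := by simp
    rw [e1, e2, abs_neg]
    exact h3.trans (mul_le_mul_of_nonneg_left (by linarith) hτ.le)
  have hre : ∀ s : ℝ, 0 ≤ s → s ≤ c.M → c.κ ≤ (Qc c s).re ∧ (Qc c s).re ≤ 1 - c.κ := by
    intro s h0 h1
    rw [Qc_re c h0 h1]
    have h4 : c.w * s ≤ c.w * c.M := mul_le_mul_of_nonneg_left h1 hw.le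
    have h5 : 0 ≤ c.w * s := mul_nonneg hw.le h0
    constructor <;> linarith
  intro i
  rcases i with ⟨s, hs⟩ | ⟨⟨⟨x, y⟩, hA⟩, i⟩
  · show 0 < (Qc c s).re ∧ (Qc c s).re < 1 ∧ FC c.τ (Qc c s) ∧ FC c.τ (1 - Qc c s)
    obtain ⟨d1, d2⟩ := C.Sdom s hs
    obtain ⟨g1, g2⟩ := hre s d1 d2
    obtain ⟨g3, g4⟩ := Qc_im c s
    exact key _ g1 g2 (by rw [abs_of_nonneg g3]; linarith)
  · show 0 < (Qc c x + (Qc c y - Qc c x) * G.pos i).re ∧ _
    obtain ⟨d1, d2, d3⟩ := C.x_dom hA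
    have hxy := (C.Ax x y hA).2.2.1
    obtain ⟨g1, g2⟩ := C.sub_strict hG hA i
    have g3 := (hre x d1 (by linarith)).1
    have g4 := (hre y (by linarith) d2).2
    refine key _ (by linarith) (by linarith) ?_
    obtain ⟨g5, g6⟩ := Qc_im c x
    have g7 := C.cl_l hG hA (Or.inl ⟨i, rfl, rfl⟩ : G.Cl (G.pos i) (G.F i))
    have g8 : |((Qc c y - Qc c x) * G.pos i).im| ≤ c.T * c.w := by
      have q0 : (Qc c y).re - (Qc c x).re = c.w * (y - x) := by
        rw [Qc_re c d1 (by linarith), Qc_re c (by linarith) d2]; ring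
      have q1 : ((Qc c y - Qc c x) * G.pos i).re ≤ c.w := by
        rw [Complex.add_re] at g2
        have : c.w * (y - x) ≤ c.w := by nlinarith
        linarith
      have hT0 := c.T0
      rcases g7 with g7 | g7
      · rw [g7]; simp; positivity
      · exact (show |_| ≤ _ from g7.2).trans (mul_le_mul_of_nonneg_left q1 hT0.le)
    rw [Complex.add_im]
    have g9 := abs_add_le (Qc c x).im ((Qc c y - Qc c x) * G.pos i).im
    rw [abs_of_nonneg g5] at g9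
    linarith

lemma inj_comp (hG : Good c G) : Function.Injective C.gad.pos := by
  have hsub : ∀ (s : ℝ) (_ : s ∈ C.S) (x y : ℝ) (_ : (x, y) ∈ C.A) (i : G.ι),
      Qc c s = Qc c x + (Qc c y - Qc c x) * G.pos i → False := by
    intro s hs x y hA i h
    obtain ⟨g1, g2⟩ := C.sub_strict hG hA i
    rw [← h] at g1 g2
    rcases (C.Ax x y hA).2.2.2.1 s hs with h1 | h1
    · have := Qc_re_le (c := c) h1; linarith
    · have := Qc_re_le (c := c) h1; linarith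
  rintro (⟨s, hs⟩ | ⟨⟨⟨x, y⟩, hA⟩, i⟩) (⟨s', hs'⟩ | ⟨⟨⟨x', y'⟩, hA'⟩, i'⟩) h
  · have : s = s' := Qc_inj h
    subst this; rfl
  · exact (hsub s hs x' y' hA' i' h).elim
  · exact (hsub s' hs' x y hA i h.symm).elim
  · have h' : Qc c x + (Qc c y - Qc c x) * G.pos i
        = Qc c x' + (Qc c y' - Qc c x') * G.pos i' := h
    obtain ⟨g1, g2⟩ := C.sub_strict hG hA i
    obtain ⟨g1', g2'⟩ := C.sub_strict hG hA' i'
    rw [h'] at g1 g2
    obtain ⟨m1, m2, m3, m4, _⟩ := C.Ax x y hA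
    obtain ⟨n1, n2, n3, n4, _⟩ := C.Ax x' y' hA'
    have k1 : x' < y := by
      by_contra hc
      have := Qc_re_le (c := c) (not_lt.1 hc); linarith
    have k2 : x < y' := by
      by_contra hc
      have := Qc_re_le (c := c) (not_lt.1 hc); linarith
    have e1 : x' ≤ x := (m4 x' n1).resolve_right (not_le.2 k1)
    have e2 : x ≤ x' := (n4 x m1).resolve_right (not_le.2 k2)
    have e3 : y' ≤ y := (n4 y m2).resolve_left (not_le.2 k1)
    have e4 : y ≤ y' := (m4 y' n2).resolve_left (not_le.2 k2)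
    have f1 := le_antisymm e1 e2
    have f2 := le_antisymm e3 e4
    subst f1 f2
    have hne : Qc c y' - Qc c x' ≠ 0 := by
      intro h0
      have := (Qc_mono c m3).1
      rw [h0] at this; simp at this
    have h3 : G.pos i = G.pos i' := mul_left_cancel₀ hne (add_left_cancel h')
    rw [hG.inj h3]

lemma win_comp (hG : Good c G) : ∀ i, 2 * c.τ ≤ C.gad.lo i ∧ C.gad.lo i < C.gad.hi i ∧
    C.gad.hi i ≤ 4 * c.τ := by
  have hτ := c.τ0
  rintro (⟨s, hs⟩ | ⟨⟨⟨x, y⟩, hA⟩, i⟩)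
  · show 2 * c.τ ≤ 2 * c.τ ∧ 2 * c.τ < 4 * c.τ ∧ 4 * c.τ ≤ 4 * c.τ
    exact ⟨le_rfl, by linarith, le_rfl⟩
  · show 2 * c.τ ≤ C.lo x y i ∧ C.lo x y i < C.hi x y i ∧ C.hi x y i ≤ 4 * c.τ
    obtain ⟨w1, w2, w3⟩ := C.win x y hA i
    obtain ⟨v1, v2, v3⟩ := hG.win i
    exact ⟨by linarith, w2, by linarith⟩

/-- displacements from a vertex of a copy to the ends of the piece -/
lemma sub_ends (hG : Good c G) {x y : ℝ} (hA : (x, y) ∈ C.A) (i : G.ι) :
    (0 < (Qc c x + (Qc c y - Qc c x) * G.pos i - Qc c x).re ∧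
      FC c.T (Qc c x + (Qc c y - Qc c x) * G.pos i - Qc c x) ∧
      SD c (eps ⌊x⌋) (Qc c x + (Qc c y - Qc c x) * G.pos i - Qc c x)) ∧
    (0 < (Qc c y - (Qc c x + (Qc c y - Qc c x) * G.pos i)).re ∧
      FC c.T (Qc c y - (Qc c x + (Qc c y - Qc c x) * G.pos i)) ∧
      SD c (eps ⌊x⌋) (Qc c y - (Qc c x + (Qc c y - Qc c x) * G.pos i))) := by
  obtain ⟨t1, t2, t3, t4⟩ := hG.thin i
  have h3 := (C.Ax x y hA).2.2.1
  have g1 := dir_props c (eps_v ⌊x⌋) (sub_pos.2 h3) t1 t3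
  have g2 := dir_props c (eps_v ⌊x⌋) (sub_pos.2 h3) (ζ := 1 - G.pos i) (by simp; linarith) t4
  rw [← C.A_dir hA] at g1 g2
  rw [add_sub_cancel_left,
    show Qc c y - (Qc c x + (Qc c y - Qc c x) * G.pos i) = (Qc c y - Qc c x) * (1 - G.pos i) by ring]
  exact ⟨g1, g2⟩

lemma Qc_side {j : ℤ} (hj : 0 ≤ j) (hj' : j < c.M) {s s' : ℝ} (h1 : (j:ℝ) ≤ s) (h2 : s ≤ s')
    (h3 : s' ≤ j + 1) : SD c (eps j) (Qc c s' - Qc c s) := by
  rw [Qc_lin c hj hj' h1 (by linarith) (by linarith) h3]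
  exact dir_one c (eps_v _) (by linarith)

lemma compP_comp (hG : Good c G) : ∀ i, (3 + C.gad.d i) % 12 = 0 → ∃ i',
    0 < (C.gad.pos i' - C.gad.pos i).re ∧
    FC c.T (C.gad.pos i' - C.gad.pos i) ∧
    4 * c.τ * (C.gad.pos i' - C.gad.pos i).re < (C.gad.pos i' - C.gad.pos i).im ∧
    ‖C.gad.pos i' - C.gad.pos i‖ < ‖1 - C.gad.pos i‖ := by
  have hτ := c.τ0
  have hτ1 := c.τ1
  have ha := c.ha0
  have hκ := c.hκ0
  have hw := c.hw0
  have hτκ := c.hτ
  rintro (⟨s, hs⟩ | ⟨⟨⟨x, y⟩, hA⟩, i⟩) hR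
  · exfalso
    have : (3 + (0:ℤ)) % 12 = 0 := hR
    norm_num at this
  · obtain ⟨a1, a2, a3, a4, a5, a6, a7, a8⟩ := C.Ax x y hA
    obtain ⟨⟨g1, g2, g3⟩, ⟨g4, g5, g6⟩⟩ := C.sub_ends hG hA i
    obtain ⟨s1, s2⟩ := C.sub_strict hG hA i
    set p := Qc c x + (Qc c y - Qc c x) * G.pos i with hp
    set j := ⌊x⌋ with hj
    have hm1 : (2:ℝ) ≤ j := by exact_mod_cast a5
    have hm2 : (j:ℝ) ≤ c.M - 3 := by exact_mod_cast a6
    have end1 : ∀ s : ℝ, s < c.M + 1 → 0 < (Qc c s - p).re → FC c.T (Qc c s - p) →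
        ‖Qc c s - p‖ < ‖1 - p‖ := by
      intro s hs h1 h2
      have h3 := Qc_mono c hs
      rw [Qc_right] at h3
      have hT := c.le_T
      have := norm_lt_add c h1 h2 h3.1 (h3.2.mono (by linarith) h3.1.le)
      rwa [show Qc c s - p + (1 - Qc c s) = 1 - p by ring] at this
    rcases eps_v j with he | he
    · -- the adjacent corner
      refine ⟨Sum.inl ⟨((j + 1 : ℤ) : ℝ), C.S01 (j+1) (by omega) (by omega)⟩, ?_⟩
      show 0 < (Qc c ((j + 1 : ℤ) : ℝ) - p).re ∧ FC c.T (Qc c ((j + 1 : ℤ) : ℝ) - p) ∧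
        4 * c.τ * (Qc c ((j + 1 : ℤ) : ℝ) - p).re < (Qc c ((j + 1 : ℤ) : ℝ) - p).im ∧
        ‖Qc c ((j + 1 : ℤ) : ℝ) - p‖ < ‖1 - p‖
      push_cast
      have q1 := Qc_side (c := c) (j := j) (by omega) (by omega) (s := y) (s' := (j:ℝ)+1)
        (by linarith) (by linarith) le_rfl
      have q2 := Qc_mono c (show y < (j:ℝ) + 1 by linarith)
      have hT := c.le_T
      have q3 := Fr.add_fwd ⟨q2.1, q2.2.mono (by linarith) q2.1.le⟩ ⟨g4, g5⟩
      rw [he] at q1 g6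
      have q4 := q1.add g6
      rw [show Qc c ((j:ℝ)+1) - Qc c y + (Qc c y - p) = Qc c ((j:ℝ)+1) - p by ring] at q3 q4
      refine ⟨q3.1, q3.2, ?_, end1 _ (by linarith) q3.1 q3.2⟩
      have q5 := q4.2.1
      push_cast at q5
      have : 4 * c.τ * (Qc c ((j:ℝ) + 1) - p).re < (c.a - 2 * c.τ) * (Qc c ((j:ℝ) + 1) - p).re :=
        mul_lt_mul_of_pos_right (by linarith) q3.1
      linarith
    · refine ⟨Sum.inl ⟨((j + 2 : ℤ) : ℝ), C.S01 (j+2) (by omega) (by omega)⟩, ?_⟩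
      show 0 < (Qc c ((j + 2 : ℤ) : ℝ) - p).re ∧ FC c.T (Qc c ((j + 2 : ℤ) : ℝ) - p) ∧
        4 * c.τ * (Qc c ((j + 2 : ℤ) : ℝ) - p).re < (Qc c ((j + 2 : ℤ) : ℝ) - p).im ∧
        ‖Qc c ((j + 2 : ℤ) : ℝ) - p‖ < ‖1 - p‖
      push_cast
      have q2 := Qc_mono c (show y < (j:ℝ) + 2 by linarith)
      have hT := c.le_T
      have q3 := Fr.add_fwd ⟨q2.1, q2.2.mono (by linarith) q2.1.le⟩ ⟨g4, g5⟩
      rw [show Qc c ((j:ℝ)+2) - Qc c y + (Qc c y - p) = Qc c ((j:ℝ)+2) - p by ring] at q3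
      refine ⟨q3.1, q3.2, ?_, end1 _ (by linarith) q3.1 q3.2⟩
      have hodd : ¬ Even j := by
        intro h; simp [eps, h] at he
      have hodd2 : ¬ Even (j + 2) := by
        intro h; apply hodd
        obtain ⟨r, hr⟩ := h; exact ⟨r - 1, by omega⟩
      have e1 : (Qc c ((j:ℝ) + 2)).im = c.w * c.a := by
        simp only [Qc]
        rw [cl_id c.M (by linarith) (by linarith)]
        have := tri_odd hodd2 (s := (j:ℝ) + 2) (by push_cast; linarith) (by push_cast; linarith)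
        rw [this]; push_cast; ring
      have e2 : (Qc c x).im = c.w * c.a * (j + 1 - x) := by
        simp only [Qc]
        rw [cl_id c.M (by linarith) (by linarith), tri_odd hodd (by linarith) (by linarith)]
      have e3 : p.im ≤ (Qc c x).im := by
        obtain ⟨r1, r2, r3⟩ := g3
        rw [he] at r2
        push_cast at r2
        rw [Complex.sub_im] at r2
        have : 0 ≤ (c.a - 2 * c.τ) * (p - Qc c x).re := mul_nonneg (by linarith) r1
        linarith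
      have e4 : (Qc c ((j:ℝ) + 2) - p).re ≤ 2 * c.w := by
        rw [Complex.sub_re, Qc_re c (by linarith) (by linarith)]
        rw [Qc_re c (by linarith) (by linarith)] at s1
        nlinarith
      have e5 : c.w * c.a * c.κ ≤ (Qc c ((j:ℝ) + 2) - p).im := by
        rw [Complex.sub_im, e1]
        have : c.w * c.a * (j + 1 - x) ≤ c.w * c.a * (1 - c.κ) :=
          mul_le_mul_of_nonneg_left (by linarith) (by positivity)
        rw [e2] at e3
        linarith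
      have e6 : c.w * c.a * c.κ = 64 * (c.τ * c.w) := by
        rw [mul_assoc, ← hτκ]; ring
      have e7 : 0 < c.τ * c.w := by positivity
      have e8 : 4 * c.τ * (Qc c ((j:ℝ) + 2) - p).re ≤ 4 * c.τ * (2 * c.w) :=
        mul_le_mul_of_nonneg_left e4 (by positivity)
      linarith

lemma compN_comp (hG : Good c G) : ∀ i, (3 - 6 * (c.k : ℤ) + C.gad.d i) % 12 = 0 → ∃ i',
    0 < (C.gad.pos i - C.gad.pos i').re ∧
    FC c.T (C.gad.pos i - C.gad.pos i') ∧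
    4 * c.τ * (C.gad.pos i - C.gad.pos i').re < (C.gad.pos i - C.gad.pos i').im ∧
    ‖C.gad.pos i - C.gad.pos i'‖ < ‖C.gad.pos i‖ := by
  have hτ := c.τ0
  have hτ1 := c.τ1
  have ha := c.ha0
  have hκ := c.hκ0
  have hw := c.hw0
  have hτκ := c.hτ
  rintro (⟨s, hs⟩ | ⟨⟨⟨x, y⟩, hA⟩, i⟩) hR
  · exfalso
    have : (3 - 6 * (c.k:ℤ) + (0:ℤ)) % 12 = 0 := hR
    omega
  · obtain ⟨a1, a2, a3, a4, a5, a6, a7, a8⟩ := C.Ax x y hA
    obtain ⟨⟨g1, g2, g3⟩, ⟨g4, g5, g6⟩⟩ := C.sub_ends hG hA i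
    obtain ⟨s1, s2⟩ := C.sub_strict hG hA i
    set p := Qc c x + (Qc c y - Qc c x) * G.pos i with hp
    set j := ⌊x⌋ with hj
    have hm1 : (2:ℝ) ≤ j := by exact_mod_cast a5
    have hm2 : (j:ℝ) ≤ c.M - 3 := by exact_mod_cast a6
    have end1 : ∀ s : ℝ, -1 < s → 0 < (p - Qc c s).re → FC c.T (p - Qc c s) →
        ‖p - Qc c s‖ < ‖p‖ := by
      intro s hs h1 h2
      have h3 := Qc_mono c hs
      rw [Qc_left, sub_zero] at h3
      have hT := c.le_T
      have := norm_lt_add c h1 h2 h3.1 (h3.2.mono (by linarith) h3.1.le)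
      rwa [show p - Qc c s + Qc c s = p by ring] at this
    rcases eps_v j with he | he
    · refine ⟨Sum.inl ⟨(j : ℝ), C.S01 j (by omega) (by omega)⟩, ?_⟩
      show 0 < (p - Qc c (j : ℝ)).re ∧ FC c.T (p - Qc c (j : ℝ)) ∧
        4 * c.τ * (p - Qc c (j : ℝ)).re < (p - Qc c (j : ℝ)).im ∧
        ‖p - Qc c (j : ℝ)‖ < ‖p‖
      have q1 := Qc_side (c := c) (j := j) (by omega) (by omega) (s := (j:ℝ)) (s' := x)
        le_rfl (by linarith) (by linarith)
      have q2 := Qc_mono c (show (j:ℝ) < x by linarith)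
      have hT := c.le_T
      have q3 := Fr.add_fwd ⟨g1, g2⟩ ⟨q2.1, q2.2.mono (by linarith) q2.1.le⟩
      rw [he] at q1 g3
      have q4 := g3.add q1
      rw [show p - Qc c x + (Qc c x - Qc c (j:ℝ)) = p - Qc c (j:ℝ) by ring] at q3 q4
      refine ⟨q3.1, q3.2, ?_, end1 _ (by linarith) q3.1 q3.2⟩
      have q5 := q4.2.1
      push_cast at q5
      have : 4 * c.τ * (p - Qc c (j:ℝ)).re < (c.a - 2 * c.τ) * (p - Qc c (j:ℝ)).re :=
        mul_lt_mul_of_pos_right (by linarith) q3.1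
      linarith
    · refine ⟨Sum.inl ⟨((j - 1 : ℤ) : ℝ), C.S01 (j-1) (by omega) (by omega)⟩, ?_⟩
      show 0 < (p - Qc c ((j - 1 : ℤ) : ℝ)).re ∧ FC c.T (p - Qc c ((j - 1 : ℤ) : ℝ)) ∧
        4 * c.τ * (p - Qc c ((j - 1 : ℤ) : ℝ)).re < (p - Qc c ((j - 1 : ℤ) : ℝ)).im ∧
        ‖p - Qc c ((j - 1 : ℤ) : ℝ)‖ < ‖p‖
      push_cast
      have q2 := Qc_mono c (show (j:ℝ) - 1 < x by linarith)
      have hT := c.le_T
      have q3 := Fr.add_fwd ⟨g1, g2⟩ ⟨q2.1, q2.2.mono (by linarith) q2.1.le⟩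
      rw [show p - Qc c x + (Qc c x - Qc c ((j:ℝ) - 1)) = p - Qc c ((j:ℝ) - 1) by ring] at q3
      refine ⟨q3.1, q3.2, ?_, end1 _ (by linarith) q3.1 q3.2⟩
      have hodd : ¬ Even j := by
        intro h; simp [eps, h] at he
      have hev2 : Even (j - 1) := by
        rw [Int.not_even_iff_odd] at hodd
        obtain ⟨r, hr⟩ := hodd; exact ⟨r, by omega⟩
      have e1 : (Qc c ((j:ℝ) - 1)).im = 0 := by
        simp only [Qc]
        rw [cl_id c.M (by linarith) (by linarith)]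
        have := tri_even hev2 (s := (j:ℝ) - 1) (by push_cast; linarith) (by push_cast; linarith)
        rw [this]; push_cast; ring
      have e2 : (Qc c y).im = c.w * c.a * (j + 1 - y) := by
        simp only [Qc]
        rw [cl_id c.M (by linarith) (by linarith), tri_odd hodd (by linarith) (by linarith)]
      have e3 : (Qc c y).im ≤ p.im := by
        obtain ⟨r1, r2, r3⟩ := g6
        rw [he] at r2
        push_cast at r2
        rw [Complex.sub_im] at r2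
        have : 0 ≤ (c.a - 2 * c.τ) * (Qc c y - p).re := mul_nonneg (by linarith) r1
        linarith
      have e4 : (p - Qc c ((j:ℝ) - 1)).re ≤ 2 * c.w := by
        rw [Complex.sub_re, Qc_re c (by linarith) (by linarith)]
        rw [Qc_re c (by linarith) (by linarith)] at s2
        nlinarith
      have e5 : c.w * c.a * c.κ ≤ (p - Qc c ((j:ℝ) - 1)).im := by
        rw [Complex.sub_im, e1]
        have : c.w * c.a * c.κ ≤ c.w * c.a * (j + 1 - y) :=
          mul_le_mul_of_nonneg_left (by linarith) (by positivity)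
        rw [e2] at e3
        linarith
      have e6 : c.w * c.a * c.κ = 64 * (c.τ * c.w) := by
        rw [mul_assoc, ← hτκ]; ring
      have e7 : 0 < c.τ * c.w := by positivity
      have e8 : 4 * c.τ * (p - Qc c ((j:ℝ) - 1)).re ≤ 4 * c.τ * (2 * c.w) :=
        mul_le_mul_of_nonneg_left e4 (by positivity)
      linarith

theorem good_comp (hG : Good c G) : Good c C.gad where
  win := C.win_comp hG
  thin := C.thin_comp hG
  inj := C.inj_comp hG
  compP := C.compP_comp hG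
  compN := C.compN_comp hG
  claim := C.claim_comp hG

end Comb
end SecY12

section SecY13
lemma hit_real {G : ℝ → ℝ} {C0 C1 A B : ℝ} {N : ℕ} (hN : 0 < N) (hC0 : 0 < C0) (hC1 : 0 < C1)
    (hdec : ∀ t t', 0 ≤ t → t < t' → t' ≤ 1 → C0 * (t' - t) ≤ G t - G t' ∧
      G t - G t' ≤ C1 * (t' - t))
    (h0 : B ≤ G 0) (h1 : G 1 ≤ A) (hAB : 2 * C1 / N ≤ B - A) :
    ∃ n < N, G (n / N) ≤ B ∧ A ≤ G ((n + 1) / N) := by
  have hNr : (0:ℝ) < N := by exact_mod_cast hN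
  have hpos : 0 < C1 / N := by positivity
  have hAB' : 2 * (C1 / N) ≤ B - A := by rw [← mul_div_assoc]; exact hAB
  have step : ∀ n : ℕ, n < N → G (n / N) - G ((n + 1) / N) ≤ C1 / N := by
    intro n hn
    have hn' : (n:ℝ) + 1 ≤ N := by exact_mod_cast hn
    have := (hdec (n / N) ((n + 1) / N) (by positivity)
      (div_lt_div_of_pos_right (by linarith) hNr) (by rw [div_le_one hNr]; exact hn')).2
    refine this.trans (le_of_eq ?_)
    field_simp
    ring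
  have hex : ∃ n : ℕ, G (n / N) ≤ B := ⟨N, by rw [div_self hNr.ne']; linarith⟩
  classical
  obtain ⟨n0, hn0, hmin⟩ : ∃ n0 : ℕ, G (n0 / N) ≤ B ∧ ∀ m < n0, ¬ G (m / N) ≤ B :=
    ⟨Nat.find hex, Nat.find_spec hex, fun m hm => Nat.find_min hex hm⟩
  have hn0N : n0 ≤ N := by
    by_contra hc
    push Not at hc
    apply hmin N hc
    rw [div_self hNr.ne']; linarith
  have hlow : B - C1 / N ≤ G (n0 / N) := by
    rcases Nat.eq_zero_or_pos n0 with h | h
    · subst h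
      simp only [Nat.cast_zero, zero_div] at hn0 ⊢
      linarith
    · obtain ⟨m, rfl⟩ : ∃ m, n0 = m + 1 := ⟨n0 - 1, by omega⟩
      have h2 := hmin m (by omega)
      have h3 := step m (by omega)
      push_cast
      push Not at h2
      linarith
  have hlt : n0 < N := by
    rcases lt_or_eq_of_le hn0N with h | h
    · exact h
    · exfalso
      rw [h, div_self hNr.ne'] at hlow
      linarith
  refine ⟨n0, hlt, hn0, ?_⟩
  have := step n0 hlt
  linarith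

/-- the point at parameter `t` on the neighbouring side, as seen from the vertex -/
noncomputable def zt (c : Cst) (ε : ℤ) (zC : ℂ) (t : ℝ) : ℂ := zC + dir c (-ε) t

noncomputable def C0 (c : Cst) : ℝ := c.a * c.κ / 4
noncomputable def C1 (c : Cst) : ℝ := 3 * c.a / (c.κ * c.κ)

lemma C0_pos (c : Cst) : 0 < C0 c := by
  have := c.ha0; have := c.hκ0; unfold C0; positivity
lemma C1_pos (c : Cst) : 0 < C1 c := by
  have := c.ha0; have := c.hκ0; unfold C1; positivity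

lemma hit (c : Cst) {ε : ℤ} (hε : ε = 1 ∨ ε = -1) {zC : ℂ} (hSD : SD c ε zC)
    (hX0 : c.w * c.κ ≤ zC.re) (hX1 : zC.re ≤ c.w * (1 - c.κ)) {N : ℕ} (hN : 0 < N)
    (fx fy : ℕ → ℝ) (hf : ∀ n < N, (n:ℝ) / N ≤ fx n ∧ fx n + c.κ / N ≤ fy n ∧ fy n ≤ (n + 1) / N)
    {lo hi : ℝ} (hlo : 2 * c.τ ≤ lo) (hhi : hi ≤ 4 * c.τ) (hw : 2 * C1 c / N ≤ hi - lo) :
    ∃ n < N, ∃ lo' hi', lo ≤ lo' ∧ lo' < hi' ∧ hi' ≤ hi ∧ C0 c * c.κ / (3 * N) ≤ hi' - lo' ∧
      ∀ b, lo' ≤ b → b ≤ hi' →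
        0 < ε * ((zt c ε zC (fx n)).im - b * (zt c ε zC (fx n)).re) ∧
        ε * ((zt c ε zC (fy n)).im - b * (zt c ε zC (fy n)).re) < 0 := by
  have hτ := c.τ0
  have hτ1 := c.τ1
  have ha := c.ha0
  have ha1 := c.ha1
  have hκ := c.hκ0
  have hκ1 := c.hκ1
  have hw0 := c.hw0
  have hτκ := c.hτ
  have hC0 := C0_pos c
  have hC1 := C1_pos c
  have hNr : (0:ℝ) < N := by exact_mod_cast hN
  obtain ⟨s1, s2, s3⟩ := hSD
  have hε2 : (ε:ℝ) * ε = 1 := by rcases hε with rfl | rfl <;> norm_num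
  have hwκ : 0 < c.w * c.κ := by positivity
  set X := zC.re with hX
  set Y := (ε:ℝ) * zC.im with hY
  have hre : ∀ t, (zt c ε zC t).re = X + c.w * t := by intro t; simp [zt, dir, hX]
  have him : ∀ t, (ε:ℝ) * (zt c ε zC t).im = Y - c.w * c.a * t := by
    intro t
    simp only [zt, dir, Complex.add_im, hY]
    push_cast
    linear_combination (-(c.w * t * c.a)) * hε2
  have hrepos : ∀ t, 0 ≤ t → 0 < X + c.w * t := by
    intro t ht; have := mul_nonneg hw0.le ht; linarith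
  set G : ℝ → ℝ := fun t => (Y - c.w * c.a * t) / (X + c.w * t) with hG
  -- the constant D
  set D := c.a * X + Y with hD
  have hD0 : c.a * (c.w * c.κ) ≤ D := by nlinarith
  have hD1 : D ≤ 3 * c.a * c.w := by nlinarith
  have hdiff : ∀ t t', 0 ≤ t → 0 ≤ t' → G t - G t'
      = c.w * (t' - t) * D / ((X + c.w * t) * (X + c.w * t')) := by
    intro t t' ht ht'
    have h1 := (hrepos t ht).ne'
    have h2 := (hrepos t' ht').ne'
    simp only [hG]
    rw [div_sub_div _ _ h1 h2]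
    congr 1
    rw [hD]; ring
  have hdec : ∀ t t', 0 ≤ t → t < t' → t' ≤ 1 → C0 c * (t' - t) ≤ G t - G t' ∧
      G t - G t' ≤ C1 c * (t' - t) := by
    intro t t' ht htt ht'
    have h1 := hrepos t ht
    have h2 := hrepos t' (by linarith)
    rw [hdiff t t' ht (by linarith)]
    have h3 : 0 < t' - t := by linarith
    have hP : 0 < (X + c.w * t) * (X + c.w * t') := mul_pos h1 h2
    have u1 : X + c.w * t ≤ 2 * c.w := by nlinarith
    have u2 : X + c.w * t' ≤ 2 * c.w := by nlinarith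
    have l1 : c.w * c.κ ≤ X + c.w * t := by nlinarith
    have l2 : c.w * c.κ ≤ X + c.w * t' := by nlinarith
    constructor
    · rw [le_div_iff₀ hP]
      have e1 : (X + c.w * t) * (X + c.w * t') ≤ (2 * c.w) * (2 * c.w) :=
        mul_le_mul u1 u2 h2.le (by positivity)
      calc C0 c * (t' - t) * ((X + c.w * t) * (X + c.w * t'))
          ≤ C0 c * (t' - t) * ((2 * c.w) * (2 * c.w)) :=
            mul_le_mul_of_nonneg_left e1 (by positivity)
        _ = c.w * (t' - t) * (c.a * (c.w * c.κ)) := by unfold C0; ring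
        _ ≤ _ := mul_le_mul_of_nonneg_left hD0 (by positivity)
    · rw [div_le_iff₀ hP]
      have e1 : (c.w * c.κ) * (c.w * c.κ) ≤ (X + c.w * t) * (X + c.w * t') :=
        mul_le_mul l1 l2 hwκ.le h1.le
      calc c.w * (t' - t) * D ≤ c.w * (t' - t) * (3 * c.a * c.w) :=
            mul_le_mul_of_nonneg_left hD1 (by positivity)
        _ = C1 c * (t' - t) * ((c.w * c.κ) * (c.w * c.κ)) := by unfold C1; field_simp
        _ ≤ _ := mul_le_mul_of_nonneg_left e1 (by positivity)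
  have hsgn : ∀ t b, (ε:ℝ) * ((zt c ε zC t).im - b * (zt c ε zC t).re)
      = (Y - c.w * c.a * t) - (ε * b) * (X + c.w * t) := by
    intro t b
    rw [mul_sub, him, hre]; ring
  have hcmp1 : ∀ t b, 0 ≤ t → (ε:ℝ) * b < G t →
      0 < (ε:ℝ) * ((zt c ε zC t).im - b * (zt c ε zC t).re) := by
    intro t b ht h
    rw [hsgn]
    simp only [hG] at h
    rw [lt_div_iff₀ (hrepos t ht)] at h
    linarith
  have hcmp2 : ∀ t b, 0 ≤ t → G t < (ε:ℝ) * b →
      (ε:ℝ) * ((zt c ε zC t).im - b * (zt c ε zC t).re) < 0 := by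
    intro t b ht h
    rw [hsgn]
    simp only [hG] at h
    rw [div_lt_iff₀ (hrepos t ht)] at h
    linarith
  -- bounds at the ends
  have hG0 : 4 * c.τ ≤ G 0 := by
    simp only [hG, mul_zero, sub_zero, add_zero]
    rw [le_div_iff₀ (by linarith)]
    nlinarith
  have hG1 : G 1 ≤ -(4 * c.τ) := by
    simp only [hG, mul_one]
    rw [div_le_iff₀ (by linarith)]
    have e1 : (c.a + 2 * c.τ) * X ≤ (c.a + 2 * c.τ) * (c.w * (1 - c.κ)) :=
      mul_le_mul_of_nonneg_left hX1 (by positivity)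
    have e2 : (c.a + 2 * c.τ) * (c.w * (1 - c.κ)) = c.w * c.a - c.w * (c.a * c.κ)
        + 2 * c.τ * c.w * (1 - c.κ) := by ring
    rw [← hτκ] at e2
    have e3 : 0 < c.τ * c.w := by positivity
    have e4 : 2 * c.τ * c.w * (1 - c.κ) ≤ 2 * (c.τ * c.w) := by nlinarith
    have e5 : 4 * c.τ * (X + c.w) ≤ 8 * (c.τ * c.w) := by nlinarith
    nlinarith
  -- window in the `G` scale
  obtain ⟨A, B, hAB, hA, hB, hwin⟩ : ∃ A B : ℝ, B - A = hi - lo ∧ -(4 * c.τ) ≤ A ∧ B ≤ 4 * c.τ ∧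
      (∀ v u, A ≤ v → v < u → u ≤ B → ∃ lo' hi', lo ≤ lo' ∧ lo' < hi' ∧ hi' ≤ hi ∧
        hi' - lo' = u - v ∧ ∀ b, lo' ≤ b → b ≤ hi' → v ≤ ε * b ∧ ε * b ≤ u) := by
    rcases hε with rfl | rfl
    · refine ⟨lo, hi, rfl, by linarith, hhi, ?_⟩
      intro v u h1 h2 h3
      refine ⟨v, u, h1, h2, h3, rfl, ?_⟩
      intro b h4 h5
      push_cast
      constructor <;> linarith
    · refine ⟨-hi, -lo, by ring, by linarith, by linarith, ?_⟩
      intro v u h1 h2 h3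
      refine ⟨-u, -v, by linarith, by linarith, by linarith, by ring, ?_⟩
      intro b h4 h5
      push_cast
      constructor <;> linarith
  obtain ⟨n, hn, hnB, hnA⟩ := hit_real (A := A) (B := B) hN hC0 hC1 hdec (by linarith)
    (by linarith) (by rw [hAB]; exact hw)
  obtain ⟨f1, f2, f3⟩ := hf n hn
  have hn0 : (0:ℝ) ≤ n / N := by positivity
  have hn1 : ((n:ℝ) + 1) / N ≤ 1 := by
    rw [div_le_one hNr]; exact_mod_cast hn
  have hκN : 0 < c.κ / N := by positivity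
  -- values of `G` on the frozen piece
  have hmon : ∀ t t', 0 ≤ t → t ≤ t' → t' ≤ 1 → G t' ≤ G t := by
    intro t t' h1 h2 h3
    rcases h2.eq_or_lt with h | h
    · rw [h]
    · have := (hdec t t' h1 h h3).1
      have : 0 ≤ C0 c * (t' - t) := by
        apply mul_nonneg hC0.le; linarith
      linarith
  have g1 : G (fx n) ≤ B := (hmon _ _ hn0 f1 (by linarith)).trans hnB
  have g2 : A ≤ G (fy n) := hnA.trans (hmon _ _ (by linarith) f3 hn1)
  have g3 := (hdec (fx n) (fy n) (by linarith) (by linarith) (by linarith)).1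
  have g4 : C0 c * (c.κ / N) ≤ C0 c * (fy n - fx n) :=
    mul_le_mul_of_nonneg_left (by linarith) hC0.le
  have g5 : 0 < C0 c * (c.κ / N) := by positivity
  set u := G (fx n) with hu
  set v := G (fy n) with hv
  obtain ⟨lo', hi', q1, q2, q3, q4, q5⟩ := hwin (v + (u - v) / 3) (u - (u - v) / 3)
    (by linarith) (by linarith) (by linarith)
  refine ⟨n, hn, lo', hi', q1, q2, q3, ?_, ?_⟩
  · rw [q4]
    have : C0 c * c.κ / (3 * N) = C0 c * (c.κ / N) / 3 := by field_simp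
    rw [this]; linarith
  · intro b hb1 hb2
    obtain ⟨r1, r2⟩ := q5 b hb1 hb2
    exact ⟨hcmp1 _ _ (by linarith) (by linarith), hcmp2 _ _ (by linarith) (by linarith)⟩
end SecY13

section SecY14
def Mn (c : Cst) : ℕ := c.M.toNat

lemma Mn_eq (c : Cst) : ((Mn c : ℕ) : ℤ) = c.M := by
  unfold Mn; have := c.hM6; omega

lemma Mn_eq' (c : Cst) : ((Mn c : ℕ) : ℝ) = c.M := by exact_mod_cast Mn_eq c

noncomputable def bp (N j : ℕ) (x : ℝ) : ℝ := j + x / (N : ℝ) ^ (j + 1)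

lemma bp_lt {N j : ℕ} (hN : 0 < N) {x y : ℝ} : bp N j x < bp N j y ↔ x < y := by
  have : (0:ℝ) < (N:ℝ) ^ (j + 1) := by positivity
  unfold bp
  rw [add_lt_add_iff_left, div_lt_div_iff_of_pos_right this]

lemma bp_inj {N j : ℕ} (hN : 0 < N) {x y : ℝ} (h : bp N j x = bp N j y) : x = y := by
  rcases lt_trichotomy x y with h1 | h1 | h1
  · exact absurd h (ne_of_lt ((bp_lt hN).2 h1))
  · exact h1
  · exact absurd h (ne_of_gt ((bp_lt hN).2 h1))

lemma bp_zero (N j : ℕ) : bp N j 0 = j := by simp [bp]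

lemma bp_top {N : ℕ} (hN : 0 < N) (j : ℕ) : bp N j (N ^ (j + 1) : ℕ) = j + 1 := by
  have : (0:ℝ) < (N:ℝ) ^ (j + 1) := by positivity
  unfold bp; push_cast; rw [div_self this.ne']

lemma le_bp {N : ℕ} (hN : 0 < N) (j : ℕ) {x : ℝ} (hx : 0 ≤ x) : (j:ℝ) ≤ bp N j x := by
  rw [← bp_zero N j]
  rcases hx.eq_or_lt with rfl | h
  · exact le_rfl
  · exact ((bp_lt hN).2 h).le

lemma bp_lt_top {N : ℕ} (hN : 0 < N) (j : ℕ) {x : ℝ} (hx : x < (N ^ (j + 1) : ℕ)) :
    bp N j x < j + 1 := by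
  rw [← bp_top hN j]; exact (bp_lt hN).2 hx

lemma bp_le_top {N : ℕ} (hN : 0 < N) (j : ℕ) {x : ℝ} (hx : x ≤ (N ^ (j + 1) : ℕ)) :
    bp N j x ≤ j + 1 := by
  rcases hx.eq_or_lt with h | h
  · rw [h, bp_top hN]
  · exact (bp_lt_top hN j h).le

lemma bp_side {N : ℕ} (hN : 0 < N) {j j' : ℕ} {x x' : ℝ} (h0 : 0 ≤ x) (h1 : x < (N ^ (j + 1) : ℕ))
    (h0' : 0 ≤ x') (h1' : x' < (N ^ (j' + 1) : ℕ)) (h : bp N j x = bp N j' x') : j = j' := by
  have a1 := le_bp hN j h0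
  have a2 := bp_lt_top hN j h1
  have a3 := le_bp hN j' h0'
  have a4 := bp_lt_top hN j' h1'
  have b1 : (j:ℝ) < j' + 1 := by linarith
  have b2 : (j':ℝ) < j + 1 := by linarith
  have c1 : j < j' + 1 := by exact_mod_cast b1
  have c2 : j' < j + 1 := by exact_mod_cast b2
  omega

noncomputable def SS (c : Cst) (N : ℕ) : Finset ℝ :=
  insert (c.M : ℝ) ((Finset.range (Mn c)).biUnion fun j =>
    (Finset.range (N ^ (j + 1))).biUnion fun n => {bp N j n, bp N j (n + c.κ)})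

lemma mem_SS {c : Cst} {N : ℕ} {s : ℝ} : s ∈ SS c N ↔ s = c.M ∨
    ∃ j < Mn c, ∃ n < N ^ (j + 1), s = bp N j n ∨ s = bp N j (n + c.κ) := by
  simp [SS]

noncomputable def II (c : Cst) (N : ℕ) : Finset (Σ _ : ℕ, ℕ) :=
  (Finset.Icc 2 (Mn c - 3)).sigma fun j =>
    Finset.Ico ⌈c.κ * (N ^ (j + 1) : ℕ)⌉₊ ⌊(1 - c.κ) * (N ^ (j + 1) : ℕ)⌋₊

noncomputable def AA (c : Cst) (N : ℕ) : Finset (ℝ × ℝ) :=
  (II c N).image fun q => (bp N q.1 (q.2 + c.κ), bp N q.1 (q.2 + 1))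

lemma mem_AA {c : Cst} {N : ℕ} (hN : 0 < N) {x y : ℝ} (h : (x, y) ∈ AA c N) :
    ∃ j n : ℕ, 2 ≤ j ∧ j + 3 ≤ Mn c ∧ n < N ^ (j + 1) ∧ c.κ * (N ^ (j + 1) : ℕ) ≤ n ∧
      (n:ℝ) + 1 ≤ (1 - c.κ) * (N ^ (j + 1) : ℕ) ∧ x = bp N j (n + c.κ) ∧ y = bp N j (n + 1) := by
  have hκ := c.hκ0
  have hκ1 := c.hκ1
  simp only [AA, II, Finset.mem_image, Finset.mem_sigma, Finset.mem_Icc, Finset.mem_Ico,
    Prod.mk.injEq] at h
  obtain ⟨⟨j, n⟩, ⟨⟨h1, h2⟩, h3, h4⟩, h5, h6⟩ := h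
  simp only at h1 h2 h3 h4 h5 h6
  have hM := c.hM6
  have hM' : 6 ≤ Mn c := by have := Mn_eq c; omega
  have k1 : c.κ * (N ^ (j + 1) : ℕ) ≤ n := (Nat.le_ceil _).trans (by exact_mod_cast h3)
  have k2 : (n:ℝ) + 1 ≤ (1 - c.κ) * (N ^ (j + 1) : ℕ) := by
    have h7 : ((n + 1 : ℕ) : ℝ) ≤ (⌊(1 - c.κ) * (N ^ (j + 1) : ℕ)⌋₊ : ℕ) := by
      exact_mod_cast h4
    push_cast at h7
    refine h7.trans ?_
    have := Nat.floor_le (a := (1 - c.κ) * (N ^ (j + 1) : ℕ))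
      (mul_nonneg (by linarith) (Nat.cast_nonneg _))
    push_cast at this
    exact_mod_cast this
  have hpos : (0:ℝ) < (N ^ (j + 1) : ℕ) := by positivity
  refine ⟨j, n, h1, by omega, ?_, k1, k2, h5.symm, h6.symm⟩
  have : (n:ℝ) < (N ^ (j + 1) : ℕ) := by nlinarith
  exact_mod_cast this

lemma bp_mem {c : Cst} {N : ℕ} {j n : ℕ} (hj : j < Mn c) (hn : n < N ^ (j + 1)) :
    bp N j n ∈ SS c N ∧ bp N j (n + c.κ) ∈ SS c N :=
  ⟨mem_SS.2 (Or.inr ⟨j, hj, n, hn, Or.inl rfl⟩), mem_SS.2 (Or.inr ⟨j, hj, n, hn, Or.inr rfl⟩)⟩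

lemma int_mem {c : Cst} {N : ℕ} (hN : 0 < N) {j : ℕ} (hj : j ≤ Mn c) : (j:ℝ) ∈ SS c N := by
  rcases hj.eq_or_lt with h | h
  · rw [mem_SS]; left; rw [h, Mn_eq']
  · rw [← bp_zero N j]
    have := (bp_mem (c := c) (N := N) h (n := 0) (by positivity)).1
    exact_mod_cast this

lemma bp_mem' {c : Cst} {N : ℕ} (hN : 0 < N) {j n : ℕ} (hj : j < Mn c) (hn : n < N ^ (j + 1)) :
    bp N j (n + 1) ∈ SS c N := by
  rcases (show n + 1 ≤ N ^ (j+1) from hn).eq_or_lt with h | h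
  · have := bp_top hN j
    rw [← h] at this
    push_cast at this
    rw [this]
    have := int_mem (c := c) (N := N) hN (j := j + 1) (by omega)
    exact_mod_cast this
  · have := (bp_mem (c := c) hj h).1
    exact_mod_cast this

lemma SS_dom {c : Cst} {N : ℕ} (hN : 0 < N) : ∀ s ∈ SS c N, 0 ≤ s ∧ s ≤ c.M := by
  intro s hs
  have hκ := c.hκ0
  have hκ1 := c.hκ1
  have hM : (6:ℝ) ≤ c.M := by exact_mod_cast c.hM6
  rw [mem_SS] at hs
  rcases hs with rfl | ⟨j, hj, n, hn, hs⟩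
  · constructor <;> linarith
  · have hj' : (j:ℝ) + 1 ≤ c.M := by rw [← Mn_eq']; exact_mod_cast hj
    have hn' : (n:ℝ) + 1 ≤ (N ^ (j+1) : ℕ) := by exact_mod_cast hn
    have hj0 : (0:ℝ) ≤ j := Nat.cast_nonneg _
    have hn0 : (0:ℝ) ≤ n := Nat.cast_nonneg _
    rcases hs with rfl | rfl
    · have a1 := le_bp hN j hn0
      have a2 := bp_lt_top hN j (x := n) (by linarith)
      constructor <;> linarith
    · have a1 := le_bp hN j (x := n + c.κ) (by linarith)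
      have a2 := bp_lt_top hN j (x := n + c.κ) (by linarith)
      constructor <;> linarith

lemma cell {c : Cst} {N : ℕ} (hN : 0 < N) {j n : ℕ} (hj : j < Mn c) (hn : n < N ^ (j + 1)) {s : ℝ}
    (hs : s ∈ SS c N) (h1 : bp N j n < s) (h2 : s < bp N j (n + 1)) : s = bp N j (n + c.κ) := by
  have hκ := c.hκ0
  have hκ1 := c.hκ1
  have hn' : (n:ℝ) + 1 ≤ (N ^ (j+1) : ℕ) := by exact_mod_cast hn
  have hn0 : (0:ℝ) ≤ n := Nat.cast_nonneg _
  have b1 := le_bp hN j hn0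
  have b2 := bp_le_top hN j hn'
  rw [mem_SS] at hs
  rcases hs with rfl | ⟨j', hj', n', hn'', hs⟩
  · exfalso
    have hj' : (j:ℝ) + 1 ≤ c.M := by rw [← Mn_eq']; exact_mod_cast hj
    linarith
  · have hn1' : (n':ℝ) + 1 ≤ (N ^ (j'+1) : ℕ) := by exact_mod_cast hn''
    have hn0' : (0:ℝ) ≤ n' := Nat.cast_nonneg _
    have hside : ∀ x : ℝ, 0 ≤ x → x < (N ^ (j'+1) : ℕ) → s = bp N j' x → j' = j := by
      intro x hx0 hx1 hx
      have a1 := le_bp hN j' hx0
      have a2 := bp_lt_top hN j' hx1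
      have b3 : (j':ℝ) < j + 1 := by linarith
      have b4 : (j:ℝ) < j' + 1 := by linarith
      have c1 : j' < j + 1 := by exact_mod_cast b3
      have c2 : j < j' + 1 := by exact_mod_cast b4
      omega
    rcases hs with hs | hs
    · exfalso
      have := hside n' hn0' (by linarith) hs
      subst this
      rw [hs, bp_lt hN] at h1 h2
      have c1 : n < n' := by exact_mod_cast h1
      have c2 : n' < n + 1 := by exact_mod_cast h2
      omega
    · have := hside (n' + c.κ) (by linarith) (by linarith) hs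
      subst this
      rw [hs, bp_lt hN] at h1 h2
      have c1 : (n:ℝ) < n' + 1 := by linarith
      have c2 : (n':ℝ) < n + 1 := by linarith
      have c3 : n < n' + 1 := by exact_mod_cast c1
      have c4 : n' < n + 1 := by exact_mod_cast c2
      have : n' = n := by omega
      rw [hs, this]

lemma AA_props {c : Cst} {N : ℕ} (hN : 0 < N) : ∀ x y, (x, y) ∈ AA c N → x ∈ SS c N ∧ y ∈ SS c N ∧
    x < y ∧ (∀ s ∈ SS c N, s ≤ x ∨ y ≤ s) ∧ 2 ≤ ⌊x⌋ ∧ ⌊x⌋ ≤ c.M - 3 ∧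
    (⌊x⌋:ℝ) + c.κ ≤ x ∧ y ≤ ⌊x⌋ + 1 - c.κ ∧
    ∃ j n : ℕ, ⌊x⌋ = j ∧ 2 ≤ j ∧ j + 3 ≤ Mn c ∧ x = bp N j (n + c.κ) ∧ y = bp N j (n + 1) := by
  intro x y h
  have hκ := c.hκ0
  have hκ1 := c.hκ1
  obtain ⟨j, n, h1, h2, h3, h4, h5, rfl, rfl⟩ := mem_AA hN h
  have hpos : (0:ℝ) < (N:ℝ) ^ (j + 1) := by positivity
  have hn0 : (0:ℝ) ≤ n := Nat.cast_nonneg _
  have hn' : (n:ℝ) + 1 ≤ (N ^ (j+1) : ℕ) := by exact_mod_cast h3
  have a1 := le_bp hN j (x := n + c.κ) (by linarith)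
  have a2 := bp_lt_top hN j (x := n + c.κ) (by linarith)
  have hfl : ⌊bp N j (n + c.κ)⌋ = (j:ℤ) := by
    rw [Int.floor_eq_iff]; push_cast; exact ⟨a1, a2⟩
  have hM := Mn_eq c
  refine ⟨(bp_mem (by omega) h3).2, bp_mem' hN (by omega) h3, (bp_lt hN).2 (by linarith), ?_,
    by rw [hfl]; omega, by rw [hfl]; omega, ?_, ?_, ⟨j, n, hfl, h1, h2, rfl, rfl⟩⟩
  · intro s hs
    by_contra hc
    push Not at hc
    have := cell hN (j := j) (n := n) (by omega) h3 hs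
      (lt_trans ((bp_lt hN).2 (by linarith)) hc.1) hc.2
    linarith [hc.1]
  · rw [hfl]
    unfold bp
    push_cast at h4 ⊢
    have : c.κ ≤ (n + c.κ) / (N:ℝ) ^ (j + 1) := by
      rw [le_div_iff₀ hpos]; linarith
    linarith
  · rw [hfl]
    unfold bp
    push_cast at h5 ⊢
    have : (n + 1) / (N:ℝ) ^ (j + 1) ≤ 1 - c.κ := by
      rw [div_le_iff₀ hpos]; linarith
    linarith

/-- the frozen pieces -/
lemma frozen_props {c : Cst} {N : ℕ} (hN : 0 < N) {j n : ℕ} (hj : j < Mn c)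
    (hn : n < N ^ (j + 1)) :
    bp N j n ∈ exS c (SS c N) ∧ bp N j (n + c.κ) ∈ exS c (SS c N) ∧
    bp N j n < bp N j (n + c.κ) ∧ (j:ℝ) ≤ bp N j n ∧ bp N j (n + c.κ) ≤ j + 1 ∧
    (∀ s ∈ exS c (SS c N), s ≤ bp N j n ∨ bp N j (n + c.κ) ≤ s) ∧
    ¬ exA (AA c N) (bp N j n) (bp N j (n + c.κ)) := by
  have hκ := c.hκ0
  have hκ1 := c.hκ1
  have hn0 : (0:ℝ) ≤ n := Nat.cast_nonneg _
  have hn' : (n:ℝ) + 1 ≤ (N ^ (j+1) : ℕ) := by exact_mod_cast hn
  have a1 := le_bp hN j hn0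
  have a2 := bp_lt_top hN j (x := n + c.κ) (by linarith)
  have hj0 : (0:ℝ) ≤ j := Nat.cast_nonneg _
  have hj' : (j:ℝ) + 1 ≤ c.M := by rw [← Mn_eq']; exact_mod_cast hj
  obtain ⟨m1, m2⟩ := bp_mem (c := c) hj hn
  refine ⟨Or.inl m1, Or.inl m2, (bp_lt hN).2 (by linarith), a1, a2.le, ?_, ?_⟩
  · intro s hs
    rcases hs with hs | rfl | rfl
    · by_contra hc
      push Not at hc
      have := cell hN hj hn hs hc.1 (lt_trans hc.2 ((bp_lt hN).2 (by linarith)))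
      linarith [hc.2]
    · left; linarith
    · right; linarith
  · intro h
    obtain ⟨j', n', g1, g2, g3, g4, g5, g6, g7⟩ := mem_AA hN h
    have hn0' : (0:ℝ) ≤ n' := Nat.cast_nonneg _
    have hn1' : (n':ℝ) + 1 ≤ (N ^ (j'+1) : ℕ) := by exact_mod_cast g3
    have := bp_side hN hn0 (by linarith) (by linarith) (by linarith) g6
    subst this
    have := bp_inj hN g6
    have e1 : (n':ℝ) < n := by linarith
    have e2 : (n:ℝ) < n' + 1 := by linarith
    have e3 : n' < n := by exact_mod_cast e1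
    have e4 : n < n' + 1 := by exact_mod_cast e2
    omega
end SecY14

section SecY15
/-- geometry of a vertex of a copy, relative to the corners of its side -/
lemma corner_fwd {c : Cst} {G : Gad} (hG : Good c G) {x y : ℝ} {j : ℤ} (hj : ⌊x⌋ = j)
    (hj2 : 2 ≤ j) (hjM : j ≤ c.M - 3) (hxy : x < y) (hx : (j:ℝ) + c.κ ≤ x)
    (hy : y ≤ j + 1 - c.κ) (i : G.ι) :
    SD c (eps j) (Qc c (j + 1) - (Qc c x + (Qc c y - Qc c x) * G.pos i)) ∧
    c.w * c.κ ≤ (Qc c (j + 1) - (Qc c x + (Qc c y - Qc c x) * G.pos i)).re ∧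
    (Qc c (j + 1) - (Qc c x + (Qc c y - Qc c x) * G.pos i)).re ≤ c.w * (1 - c.κ) ∧
    SD c (eps j) ((Qc c x + (Qc c y - Qc c x) * G.pos i) - Qc c j) ∧
    c.w * c.κ ≤ ((Qc c x + (Qc c y - Qc c x) * G.pos i) - Qc c j).re ∧
    ((Qc c x + (Qc c y - Qc c x) * G.pos i) - Qc c j).re ≤ c.w * (1 - c.κ) := by
  have hκ := c.hκ0
  have hw := c.hw0
  have hm1 : (2:ℝ) ≤ j := by exact_mod_cast hj2
  have hm2 : (j:ℝ) ≤ c.M - 3 := by exact_mod_cast hjM
  obtain ⟨t1, t2, t3, t4⟩ := hG.thin i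
  have hd : Qc c y - Qc c x = dir c (eps j) (y - x) :=
    Qc_lin c (by omega) (by omega) (by linarith) (by linarith) (by linarith) (by linarith)
  have g1 := dir_props c (eps_v j) (sub_pos.2 hxy) t1 t3
  have g2 := dir_props c (eps_v j) (sub_pos.2 hxy) (ζ := 1 - G.pos i) (by simp; linarith) t4
  rw [← hd] at g1 g2
  have hr : ∀ s : ℝ, 0 ≤ s → s ≤ c.M → (Qc c s).re = c.κ + c.w * s := fun s h0 h1 => Qc_re c h0 h1
  have e1 : Qc c (j + 1) - (Qc c x + (Qc c y - Qc c x) * G.pos i)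
      = (Qc c (j + 1) - Qc c y) + (Qc c y - Qc c x) * (1 - G.pos i) := by ring
  have e2 : (Qc c x + (Qc c y - Qc c x) * G.pos i) - Qc c j
      = (Qc c y - Qc c x) * G.pos i + (Qc c x - Qc c j) := by ring
  have q1 := Comb.Qc_side (c := c) (j := j) (by omega) (by omega) (s := y) (s' := (j:ℝ)+1)
    (by linarith) (by linarith) le_rfl
  have q2 := Comb.Qc_side (c := c) (j := j) (by omega) (by omega) (s := (j:ℝ)) (s' := x)
    le_rfl (by linarith) (by linarith)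
  have s1 : (Qc c x).re + (Qc c y - Qc c x).re = (Qc c y).re := by simp
  have s2 : ((Qc c y - Qc c x) * (1 - G.pos i)).re + ((Qc c y - Qc c x) * G.pos i).re
      = (Qc c y - Qc c x).re := by
    rw [← Complex.add_re]; congr 1; ring
  refine ⟨?_, ?_, ?_, ?_, ?_, ?_⟩
  · rw [e1]; exact q1.add g2.2.2
  · rw [e1, Complex.add_re, Complex.sub_re, hr _ (by linarith) (by linarith),
      hr y (by linarith) (by linarith)]
    nlinarith [g2.1]
  · rw [Complex.sub_re, Complex.add_re, hr _ (by linarith) (by linarith),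
      hr x (by linarith) (by linarith)]
    nlinarith [g1.1]
  · rw [e2]; exact g1.2.2.add q2
  · rw [e2, Complex.add_re, Complex.sub_re, hr _ (by linarith) (by linarith),
      hr j (by linarith) (by linarith)]
    nlinarith [g1.1]
  · have : ((Qc c y - Qc c x) * G.pos i).re ≤ (Qc c y - Qc c x).re := by linarith [g2.1]
    rw [Complex.sub_re, Complex.add_re, hr _ (by linarith) (by linarith)]
    rw [hr j (by linarith) (by linarith)]
    rw [Complex.sub_re, hr _ (by linarith) (by linarith), hr _ (by linarith) (by linarith)] at this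
    nlinarith

lemma window {c : Cst} {G : Gad} (hG : Good c G) {N : ℕ} (hN : 0 < N)
    (ha : ∀ i, 2 * C1 c / N ≤ G.hi i - G.lo i) (hb : 6 * C1 c ≤ C0 c * c.κ * N)
    {x y : ℝ} (hA : (x, y) ∈ AA c N) (i : G.ι) :
    ∃ lo' hi', G.lo i ≤ lo' ∧ lo' < hi' ∧ hi' ≤ G.hi i ∧ ∀ b, lo' ≤ b → b ≤ hi' →
      Crs (exS c (SS c N)) (exA (AA c N)) (Qc c) (eps ⌊x⌋) ⌊x⌋
        (Qc c x + (Qc c y - Qc c x) * G.pos i) b ∧
      Crs (ngS (exS c (SS c N))) (ngA (exA (AA c N))) (ngQ (Qc c)) (eps ⌊x⌋) (-⌊x⌋ - 1)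
        (-(Qc c x + (Qc c y - Qc c x) * G.pos i)) b := by
  have hκ := c.hκ0
  have hκ1 := c.hκ1
  have hC0 := C0_pos c
  have hC1 := C1_pos c
  obtain ⟨a1, a2, a3, a4, a5, a6, a7, a8, j, n, hfl, hj2, hjM, hx, hy⟩ := AA_props hN x y hA
  rw [hfl] at a5 a6 a7 a8 ⊢
  obtain ⟨w1, w2, w3⟩ := hG.win i
  obtain ⟨c1, c2, c3, c4, c5, c6⟩ := corner_fwd hG hfl a5 a6 a3 a7 a8 i
  set p := Qc c x + (Qc c y - Qc c x) * G.pos i with hp
  have hMn := Mn_eq c
  obtain ⟨j0, rfl⟩ : ∃ j0, j = j0 + 1 := ⟨j - 1, by omega⟩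
  -- sizes
  have hN1 : (1:ℝ) ≤ N := by exact_mod_cast hN
  have hNr : (0:ℝ) < N := by linarith
  set N1 : ℕ := N ^ (j0 + 1) with hN1d
  set N2 : ℕ := N ^ (j0 + 2 + 1) with hN2d
  have hN1pos : 0 < N1 := by positivity
  have hN2pos : 0 < N2 := by positivity
  have hN1r : (0:ℝ) < N1 := by exact_mod_cast hN1pos
  have hN2r : (0:ℝ) < N2 := by exact_mod_cast hN2pos
  have hNN1 : (N:ℝ) ≤ N1 := by
    rw [hN1d]; push_cast
    calc (N:ℝ) = N ^ 1 := (pow_one _).symm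
      _ ≤ _ := pow_le_pow_right₀ hN1 (by omega)
  have hN2e : (N2:ℝ) = N * N * N1 := by rw [hN1d, hN2d]; push_cast; ring
  -- coarse side
  have hw1 : 2 * C1 c / N1 ≤ G.hi i - G.lo i :=
    le_trans (div_le_div_of_nonneg_left (by positivity) hNr hNN1) (ha i)
  obtain ⟨m, hm, lo1, hi1, p1, p2, p3, p4, p5⟩ := hit c (eps_v ((j0 + 1 : ℕ) : ℤ)) c4 c5 c6 hN1pos
    (fun m => ((m:ℝ) + 1 - c.κ) / N1) (fun m => ((m:ℝ) + 1) / N1) (by
      intro m hm
      refine ⟨?_, ?_, le_rfl⟩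
      · apply div_le_div_of_nonneg_right _ hN1r.le; linarith
      · rw [← add_div]; apply div_le_div_of_nonneg_right _ hN1r.le; linarith)
    w1 w3 hw1
  -- fine side
  have hw2 : 2 * C1 c / N2 ≤ hi1 - lo1 := by
    refine le_trans ?_ p4
    rw [div_le_div_iff₀ hN2r (by positivity), hN2e]
    have e1 : 6 * C1 c ≤ C0 c * c.κ * (N * N) := by
      refine hb.trans (mul_le_mul_of_nonneg_left ?_ (by positivity))
      nlinarith
    have := mul_le_mul_of_nonneg_right e1 hN1r.le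
    nlinarith
  obtain ⟨m', hm', lo2, hi2, r1, r2, r3, r4, r5⟩ := hit c (eps_v ((j0 + 1 : ℕ) : ℤ)) c1 c2 c3 hN2pos
    (fun m => (m:ℝ) / N2) (fun m => ((m:ℝ) + c.κ) / N2) (by
      intro m hm
      refine ⟨le_rfl, ?_, ?_⟩
      · rw [← add_div]
      · apply div_le_div_of_nonneg_right _ hN2r.le; linarith)
    (by linarith) (by linarith) hw2
  refine ⟨lo2, hi2, by linarith, r2, by linarith, ?_⟩
  intro b hb1 hb2
  have hjr : ((((j0 + 1 : ℕ) : ℤ)) : ℝ) = (j0:ℝ) + 1 := by push_cast; ring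
  constructor
  · -- forward crossing
    obtain ⟨f1, f2, f3, f4, f5, f6, f7⟩ := frozen_props (c := c) hN (j := j0 + 2) (n := m')
      (by omega) hm'
    obtain ⟨k1, k2⟩ := r5 b hb1 hb2
    have hjr2 : (((j0 + 2 : ℕ)) : ℝ) = (j0:ℝ) + 2 := by push_cast; ring
    have hz : ∀ t : ℝ, 0 ≤ t → t ≤ 1 → bp N (j0 + 2) (t * N2) = (j0:ℝ) + 2 + t := by
      intro t _ _
      unfold bp
      rw [hN2d]; push_cast
      have : (0:ℝ) < (N:ℝ) ^ (j0 + 2 + 1) := by positivity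
      field_simp
    have hq : ∀ t : ℝ, 0 ≤ t → t ≤ 1 → Qc c ((j0:ℝ) + 2 + t) - p
        = zt c (eps ((j0 + 1 : ℕ) : ℤ)) (Qc c ((((j0 + 1 : ℕ) : ℤ) : ℝ) + 1) - p) t := by
      intro t ht0 ht1
      have h1 := Qc_lin c (j := (j0:ℤ) + 2) (by omega) (by omega) (s := (j0:ℝ) + 2)
        (t := (j0:ℝ) + 2 + t) (by push_cast; linarith) (by push_cast; linarith)
        (by push_cast; linarith) (by push_cast; linarith)
      have h2 : eps ((j0:ℤ) + 2) = - eps ((j0 + 1 : ℕ) : ℤ) := by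
        rw [← eps_s]; push_cast; congr 1
      rw [h2] at h1
      unfold zt
      rw [hjr, show (j0:ℝ) + 1 + 1 = j0 + 2 by ring]
      rw [show (j0:ℝ) + 2 + t - (j0 + 2) = t by ring] at h1
      rw [← h1]; ring
    have hm'' : (m':ℝ) + 1 ≤ N2 := by exact_mod_cast hm'
    have hm0 : (0:ℝ) ≤ m' := Nat.cast_nonneg _
    have b1 : bp N (j0 + 2) m' = (j0:ℝ) + 2 + m' / N2 := by
      rw [← hz _ (by positivity) (by rw [div_le_one hN2r]; linarith), div_mul_cancel₀ _ hN2r.ne']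
    have b2 : bp N (j0 + 2) (m' + c.κ) = (j0:ℝ) + 2 + (m' + c.κ) / N2 := by
      rw [← hz _ (by positivity) (by rw [div_le_one hN2r]; linarith), div_mul_cancel₀ _ hN2r.ne']
    refine ⟨_, _, f1, f2, f3, ?_, ?_, f6, f7, ?_, ?_⟩
    · rw [hjr2] at f4; rw [hjr]; linarith
    · rw [hjr2] at f5; rw [hjr]; linarith
    · rw [b1, hq _ (by positivity) (by rw [div_le_one hN2r]; linarith)]; exact k1
    · rw [b2, hq _ (by positivity) (by rw [div_le_one hN2r]; linarith)]; exact k2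
  · -- backward crossing
    set n' : ℕ := N1 - 1 - m with hn'
    have hn'lt : n' < N1 := by omega
    have hn'r : (n':ℝ) = N1 - 1 - m := by
      rw [hn']; rw [Nat.cast_sub (by omega), Nat.cast_sub (by omega)]; push_cast; ring
    obtain ⟨f1, f2, f3, f4, f5, f6, f7⟩ := frozen_props (c := c) hN (j := j0) (n := n')
      (by omega) hn'lt
    obtain ⟨k1, k2⟩ := p5 b (by linarith) (by linarith)
    have hm'' : (m:ℝ) + 1 ≤ N1 := by exact_mod_cast hm
    have hm0 : (0:ℝ) ≤ m := Nat.cast_nonneg _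
    have hq : ∀ t : ℝ, 0 ≤ t → t ≤ 1 → -Qc c ((j0:ℝ) + 1 - t) - -p
        = zt c (eps ((j0 + 1 : ℕ) : ℤ)) (p - Qc c (((j0 + 1 : ℕ) : ℤ) : ℝ)) t := by
      intro t ht0 ht1
      have h1 := Qc_lin c (j := (j0:ℤ)) (by omega) (by omega) (s := (j0:ℝ) + 1 - t)
        (t := (j0:ℝ) + 1) (by push_cast; linarith) (by push_cast; linarith)
        (by push_cast; linarith) (by push_cast; linarith)
      have h2 : eps ((j0:ℤ)) = - eps ((j0 + 1 : ℕ) : ℤ) := by
        push_cast; rw [eps_s, neg_neg]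
      rw [h2, show (j0:ℝ) + 1 - (j0 + 1 - t) = t by ring] at h1
      unfold zt
      rw [hjr, ← h1]; ring
    have hbp : ∀ t : ℝ, bp N j0 (N1 - t * N1) = (j0:ℝ) + 1 - t := by
      intro t
      unfold bp
      rw [hN1d]; push_cast
      have : (0:ℝ) < (N:ℝ) ^ (j0 + 1) := by positivity
      field_simp
      ring
    have b1 : bp N j0 n' = (j0:ℝ) + 1 - (m + 1) / N1 := by
      rw [← hbp, div_mul_cancel₀ _ hN1r.ne', hn'r]; congr 1; ring
    have b2 : bp N j0 (n' + c.κ) = (j0:ℝ) + 1 - (m + 1 - c.κ) / N1 := by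
      rw [← hbp, div_mul_cancel₀ _ hN1r.ne', hn'r]; congr 1; ring
    refine ⟨-bp N j0 (n' + c.κ), -bp N j0 n', ?_, ?_, by linarith, ?_, ?_, ?_, ?_, ?_, ?_⟩
    · show - -bp N j0 (n' + c.κ) ∈ exS c (SS c N)
      rw [neg_neg]; exact f2
    · show - -bp N j0 n' ∈ exS c (SS c N)
      rw [neg_neg]; exact f1
    · push_cast; linarith
    · push_cast; linarith
    · intro s hs
      rcases f6 (-s) hs with h | h
      · right; linarith
      · left; linarith
    · intro h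
      apply f7
      have h' : exA (AA c N) (- -bp N j0 n') (- -bp N j0 (n' + c.κ)) := h
      rwa [neg_neg, neg_neg] at h'
    · simp only [ngQ]
      rw [neg_neg, b2, hq _ (by apply div_nonneg _ hN1r.le; linarith)
        (by rw [div_le_one hN1r]; linarith)]
      exact k1
    · simp only [ngQ]
      rw [neg_neg, b1, hq _ (by positivity) (by rw [div_le_one hN1r]; linarith)]
      exact k2
end SecY15

section SecY16
noncomputable def ell (c : Cst) : ℝ := c.w * Real.sqrt (1 + c.a ^ 2)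

lemma ell_pos (c : Cst) : 0 < ell c := by
  have := c.hw0
  unfold ell
  have : 0 < Real.sqrt (1 + c.a ^ 2) := Real.sqrt_pos.2 (by positivity)
  positivity

lemma norm_dir (c : Cst) {ε : ℤ} (hε : ε = 1 ∨ ε = -1) {r : ℝ} (hr : 0 ≤ r) :
    ‖dir c ε r‖ = ell c * r := by
  have hw := c.hw0
  have h1 : Complex.normSq (dir c ε r) = (c.w * r) ^ 2 * (1 + c.a ^ 2) := by
    rw [Complex.normSq_apply]
    simp only [dir]
    rcases hε with rfl | rfl <;> push_cast <;> ring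
  rw [Complex.norm_def, h1, Real.sqrt_mul (by positivity), Real.sqrt_sq (by positivity)]
  unfold ell; ring

noncomputable def mu (c : Cst) (N : ℕ) (s : ℝ) : ℝ :=
  ∑ π ∈ AA c N, max 0 (min s π.2 - π.1)

noncomputable def FT (c : Cst) (N : ℕ) (L : ℝ) (s : ℝ) : ℝ :=
  if s < 0 then 0 else if s ≤ c.M then c.κ + ell c * (s + (L - 1) * mu c N s)
    else 2 * c.κ + ell c * (c.M + (L - 1) * mu c N c.M)

lemma FT_mid {c : Cst} {N : ℕ} {L s : ℝ} (h0 : 0 ≤ s) (h1 : s ≤ c.M) :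
    FT c N L s = c.κ + ell c * (s + (L - 1) * mu c N s) := by
  unfold FT; rw [if_neg (not_lt.2 h0), if_pos h1]

lemma mu_zero {c : Cst} {N : ℕ} (hN : 0 < N) : mu c N 0 = 0 := by
  apply Finset.sum_eq_zero
  rintro ⟨x, y⟩ h
  obtain ⟨a1, a2, a3, _⟩ := AA_props hN x y h
  have := SS_dom hN x a1
  simp only
  rw [min_eq_left (by linarith), max_eq_left (by linarith)]

lemma mu_frozen {c : Cst} {N : ℕ} (hN : 0 < N) {s s' : ℝ} (hss : s < s') (hs : s ∈ SS c N)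
    (hs' : s' ∈ SS c N) (hcon : ∀ r ∈ SS c N, r ≤ s ∨ s' ≤ r) (hA : (s, s') ∉ AA c N) :
    mu c N s' = mu c N s := by
  apply Finset.sum_congr rfl
  rintro ⟨x, y⟩ h
  obtain ⟨a1, a2, a3, a4, _⟩ := AA_props hN x y h
  simp only
  rcases hcon x a1 with h1 | h1
  · rcases hcon y a2 with h2 | h2
    · rw [min_eq_right h2, min_eq_right (by linarith)]
    · exfalso
      have e1 : s ≤ x := (a4 s hs).resolve_right (by push Not; linarith)
      have e2 : y ≤ s' := (a4 s' hs').resolve_left (by push Not; linarith)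
      have e3 := le_antisymm h1 e1
      have e4 := le_antisymm h2 e2
      subst e3 e4
      exact hA h
  · rw [max_eq_left, max_eq_left]
    · have := min_le_left s y; linarith
    · have := min_le_left s' y; linarith

lemma mu_act {c : Cst} {N : ℕ} (hN : 0 < N) {x y : ℝ} (hA : (x, y) ∈ AA c N) :
    mu c N y = mu c N x + (y - x) := by
  obtain ⟨b1, b2, b3, b4, _⟩ := AA_props hN x y hA
  unfold mu
  rw [← Finset.add_sum_erase _ _ hA, ← Finset.add_sum_erase _ _ hA]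
  have e1 : max 0 (min y (x, y).2 - (x, y).1) = y - x := by
    simp only; rw [min_self, max_eq_right (by linarith)]
  have e2 : max 0 (min x (x, y).2 - (x, y).1) = 0 := by
    simp only; rw [min_eq_left b3.le, sub_self, max_self]
  rw [e1, e2]
  have e3 : ∑ π ∈ (AA c N).erase (x, y), max 0 (min y π.2 - π.1)
      = ∑ π ∈ (AA c N).erase (x, y), max 0 (min x π.2 - π.1) := by
    apply Finset.sum_congr rfl
    rintro ⟨x', y'⟩ h
    rw [Finset.mem_erase] at h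
    obtain ⟨hne, h⟩ := h
    obtain ⟨a1, a2, a3, a4, _⟩ := AA_props hN x' y' h
    simp only
    rcases b4 x' a1 with h1 | h1
    · rcases b4 y' a2 with h2 | h2
      · rw [min_eq_right h2, min_eq_right (by linarith)]
      · exfalso
        have e1 : x ≤ x' := (a4 x b1).resolve_right (by push Not; linarith)
        have e2 : y' ≤ y := (a4 y b2).resolve_left (by push Not; linarith)
        apply hne
        rw [le_antisymm h1 e1, le_antisymm e2 h2]
    · rw [max_eq_left, max_eq_left]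
      · have := min_le_left x y'; linarith
      · have := min_le_left y y'; linarith
  rw [e3]; ring

lemma FT_act {c : Cst} {N : ℕ} (hN : 0 < N) (L : ℝ) {x y : ℝ} (hA : (x, y) ∈ AA c N) :
    FT c N L y = FT c N L x + ‖Qc c y - Qc c x‖ * L := by
  obtain ⟨b1, b2, b3, b4, b5, b6, b7, b8, _⟩ := AA_props hN x y hA
  have hκ := c.hκ0
  have d1 := SS_dom hN x b1
  have d2 := SS_dom hN y b2
  rw [FT_mid d1.1 d1.2, FT_mid d2.1 d2.2, mu_act hN hA,
    Qc_lin c (j := ⌊x⌋) (by omega) (by omega) (by linarith) (by linarith) (by linarith)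
      (by linarith), norm_dir c (eps_v _) (by linarith)]
  ring

lemma FT_frozen {c : Cst} {N : ℕ} (hN : 0 < N) (L : ℝ) : ∀ s ∈ exS c (SS c N),
    ∀ s' ∈ exS c (SS c N), s < s' → (∀ r ∈ exS c (SS c N), r ≤ s ∨ s' ≤ r) →
    (s, s') ∉ AA c N → |FT c N L s' - FT c N L s| ≤ ‖Qc c s' - Qc c s‖ := by
  intro s hs s' hs' hss hcon hA
  have hκ := c.hκ0
  have hM6 : (6:ℝ) ≤ c.M := by exact_mod_cast c.hM6
  have hMn := Mn_eq c
  have h0 : (0:ℝ) ∈ SS c N := by
    have := int_mem (c := c) hN (j := 0) (by omega)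
    exact_mod_cast this
  have hMS : (c.M:ℝ) ∈ SS c N := mem_SS.2 (Or.inl rfl)
  rcases hs with hs | rfl | rfl
  · have d1 := SS_dom hN s hs
    rcases hs' with hs' | rfl | rfl
    · have d2 := SS_dom hN s' hs'
      have hcon' : ∀ r ∈ SS c N, r ≤ s ∨ s' ≤ r := fun r hr => hcon r (Or.inl hr)
      rw [FT_mid d1.1 d1.2, FT_mid d2.1 d2.2, mu_frozen hN hss hs hs' hcon' hA]
      -- same side
      have hsM : s < c.M := by linarith
      have hf1 := Int.floor_le s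
      have hf2 := Int.lt_floor_add_one s
      have hf0 : 0 ≤ ⌊s⌋ := Int.floor_nonneg.2 d1.1
      have hfM : ⌊s⌋ < c.M := by rw [Int.floor_lt]; exact hsM
      have hint : ((⌊s⌋ + 1 : ℤ) : ℝ) ∈ SS c N := by
        have := int_mem (c := c) hN (j := (⌊s⌋ + 1).toNat) (by omega)
        have h3 : (((⌊s⌋ + 1).toNat : ℕ) : ℤ) = ⌊s⌋ + 1 := by omega
        have h4 : (((⌊s⌋ + 1).toNat : ℕ) : ℝ) = ((⌊s⌋ + 1 : ℤ) : ℝ) := by exact_mod_cast h3
        rwa [h4] at this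
      have hs'1 : s' ≤ ⌊s⌋ + 1 := by
        have := (hcon' _ hint).resolve_left (by push_cast; push Not; exact hf2)
        push_cast at this
        exact this
      rw [Qc_lin c (j := ⌊s⌋) hf0 hfM hf1 hf2.le (by linarith) hs'1,
        norm_dir c (eps_v _) (by linarith)]
      have hl := ell_pos c
      rw [show c.κ + ell c * (s' + (L - 1) * mu c N s) - (c.κ + ell c * (s + (L - 1) * mu c N s))
        = ell c * (s' - s) by ring, abs_of_nonneg (mul_nonneg hl.le (by linarith))]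
    · linarith
    · have hsM : s = c.M := by
        have := (hcon _ (Or.inl hMS)).resolve_right (by push Not; linarith)
        linarith
      subst hsM
      rw [FT_mid d1.1 le_rfl]
      unfold FT
      rw [if_neg (by push Not; linarith), if_neg (by push Not; linarith)]
      have h1 : (Qc c (c.M + 1) - Qc c c.M).re = c.κ := by
        rw [Qc_right, Complex.sub_re, Qc_re c (by linarith) le_rfl]
        have := c.hM
        simp; linarith
      have h2 := Complex.re_le_norm (Qc c (c.M + 1) - Qc c c.M)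
      rw [h1] at h2
      rw [show 2 * c.κ + ell c * (c.M + (L - 1) * mu c N c.M)
        - (c.κ + ell c * (c.M + (L - 1) * mu c N c.M)) = c.κ by ring, abs_of_pos hκ]
      exact h2
  · have hs0 : s' = 0 := by
      have h1 := (hcon 0 (Or.inl h0)).resolve_left (by norm_num)
      rcases hs' with hs' | rfl | rfl
      · have := (SS_dom hN s' hs').1; linarith
      · linarith
      · linarith
    subst hs0
    rw [FT_mid le_rfl (by linarith), mu_zero hN]
    unfold FT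
    rw [if_pos (by norm_num)]
    have h1 : (Qc c 0 - Qc c (-1)).re = c.κ := by
      rw [Qc_left, Complex.sub_re, Qc_re c le_rfl (by linarith)]; simp
    have h2 := Complex.re_le_norm (Qc c 0 - Qc c (-1))
    rw [h1] at h2
    rw [show c.κ + ell c * (0 + (L - 1) * 0) - 0 = c.κ by ring, abs_of_pos hκ]
    exact h2
  · exfalso
    rcases hs' with hs' | rfl | rfl
    · have := (SS_dom hN s' hs').2; linarith
    · linarith
    · linarith

section mk
variable {c : Cst} {G : Gad} (hG : Good c G) {N : ℕ} (hN : 0 < N)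
    (ha : ∀ i, 2 * C1 c / N ≤ G.hi i - G.lo i) (hb : 6 * C1 c ≤ C0 c * c.κ * N)

open Classical in
noncomputable def wlo (x y : ℝ) (i : G.ι) : ℝ :=
  if h : (x, y) ∈ AA c N then (window hG hN ha hb h i).choose else 0

open Classical in
noncomputable def whi (x y : ℝ) (i : G.ι) : ℝ :=
  if h : (x, y) ∈ AA c N then (window hG hN ha hb h i).choose_spec.choose else 0

lemma w_spec {x y : ℝ} (h : (x, y) ∈ AA c N) (i : G.ι) :
    G.lo i ≤ wlo hG hN ha hb x y i ∧ wlo hG hN ha hb x y i < whi hG hN ha hb x y i ∧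
    whi hG hN ha hb x y i ≤ G.hi i ∧ ∀ b, wlo hG hN ha hb x y i ≤ b → b ≤ whi hG hN ha hb x y i →
      Crs (exS c (SS c N)) (exA (AA c N)) (Qc c) (eps ⌊x⌋) ⌊x⌋
        (Qc c x + (Qc c y - Qc c x) * G.pos i) b ∧
      Crs (ngS (exS c (SS c N))) (ngA (exA (AA c N))) (ngQ (Qc c)) (eps ⌊x⌋) (-⌊x⌋ - 1)
        (-(Qc c x + (Qc c y - Qc c x) * G.pos i)) b := by
  unfold wlo whi
  rw [dif_pos h, dif_pos h]
  exact (window hG hN ha hb h i).choose_spec.choose_spec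

noncomputable def mkComb : Comb c G where
  S := SS c N
  A := AA c N
  lo := wlo hG hN ha hb
  hi := whi hG hN ha hb
  Ft := FT c N G.L
  L := 2 * c.κ + ell c * (c.M + (G.L - 1) * mu c N c.M)
  S01 := by
    intro j h0 h1
    have hM := Mn_eq c
    have := int_mem (c := c) hN (j := j.toNat) (by omega)
    have h3 : ((j.toNat : ℕ) : ℤ) = j := by omega
    have h4 : ((j.toNat : ℕ) : ℝ) = (j : ℝ) := by exact_mod_cast h3
    rwa [h4] at this
  Sdom := SS_dom hN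
  Ax := by
    intro x y h
    obtain ⟨a1, a2, a3, a4, a5, a6, a7, a8, _⟩ := AA_props hN x y h
    exact ⟨a1, a2, a3, a4, a5, a6, a7, a8⟩
  win := by
    intro x y h i
    obtain ⟨h1, h2, h3, _⟩ := w_spec hG hN ha hb h i
    exact ⟨h1, h2, h3⟩
  crsP := fun x y h i b h1 h2 _ => ((w_spec hG hN ha hb h i).2.2.2 b h1 h2).1
  crsN := fun x y h i b h1 h2 _ => ((w_spec hG hN ha hb h i).2.2.2 b h1 h2).2
  Ft0 := by unfold FT; rw [if_pos (by norm_num)]
  Ft1 := by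
    have hM6 : (6:ℝ) ≤ c.M := by exact_mod_cast c.hM6
    unfold FT
    rw [if_neg (by push Not; linarith), if_neg (by push Not; linarith)]
  Ftf := FT_frozen hN G.L
  Fta := fun x y h => FT_act hN G.L h

end mk

lemma mu_M {c : Cst} {N : ℕ} (hN : 0 < N) (hNκ : 2 ≤ c.κ * N) :
    ((c.M:ℝ) - 4) * ((1 - c.κ) * (1 - 3 * c.κ)) ≤ mu c N c.M := by
  have hκ := c.hκ0
  have hκ1 := c.hκ1
  have hM6 := c.hM6
  have hMn := Mn_eq c
  have h1 : mu c N c.M = ∑ q ∈ II c N, (1 - c.κ) / ((N:ℝ) ^ (q.1 + 1)) := by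
    unfold mu AA
    rw [Finset.sum_image]
    · apply Finset.sum_congr rfl
      rintro ⟨j, n⟩ hq
      have hA : (bp N j (n + c.κ), bp N j (n + 1)) ∈ AA c N := by
        unfold AA
        exact Finset.mem_image.2 ⟨⟨j, n⟩, hq, rfl⟩
      obtain ⟨a1, a2, a3, _⟩ := AA_props hN _ _ hA
      have d2 := SS_dom hN _ a2
      simp only
      rw [min_eq_right d2.2, max_eq_right (by linarith)]
      unfold bp; ring
    · rintro ⟨j, n⟩ hq ⟨j', n'⟩ hq' h
      simp only [Prod.mk.injEq] at h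
      have hA : (bp N j (n + c.κ), bp N j (n + 1)) ∈ AA c N := by
        unfold AA
        exact Finset.mem_image.2 ⟨⟨j, n⟩, hq, rfl⟩
      simp only [II, Finset.coe_sigma, Set.mem_sigma_iff, Finset.mem_coe, Finset.mem_Icc,
        Finset.mem_Ico] at hq hq'
      have hb : ∀ j n : ℕ, n < ⌊(1 - c.κ) * (N ^ (j + 1) : ℕ)⌋₊ → (n:ℝ) + 1 ≤ (N ^ (j+1) : ℕ) := by
        intro j n h
        have h7 : ((n + 1 : ℕ) : ℝ) ≤ (⌊(1 - c.κ) * (N ^ (j + 1) : ℕ)⌋₊ : ℕ) := by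
          exact_mod_cast h
        have h8 := Nat.floor_le (a := (1 - c.κ) * (N ^ (j + 1) : ℕ))
          (mul_nonneg (by linarith) (Nat.cast_nonneg _))
        have h9 : (0:ℝ) ≤ (N ^ (j+1) : ℕ) := Nat.cast_nonneg _
        push_cast at h7 h8 h9 ⊢
        nlinarith
      have b1 := hb j n hq.2.2
      have b2 := hb j' n' hq'.2.2
      have hn0 : (0:ℝ) ≤ n := Nat.cast_nonneg _
      have hn0' : (0:ℝ) ≤ n' := Nat.cast_nonneg _
      have := bp_side hN (by linarith) (by linarith) (by linarith) (by linarith) h.1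
      subst this
      have h3 := bp_inj hN h.1
      have h4 : (n:ℝ) = n' := by linarith
      have h5 : n = n' := by exact_mod_cast h4
      rw [h5]
  rw [h1, II, Finset.sum_sigma]
  have h2 : ∀ j ∈ Finset.Icc 2 (Mn c - 3), (1 - c.κ) * (1 - 3 * c.κ) ≤
      ∑ n ∈ Finset.Ico ⌈c.κ * (N ^ (j + 1) : ℕ)⌉₊ ⌊(1 - c.κ) * (N ^ (j + 1) : ℕ)⌋₊,
        (1 - c.κ) / ((N:ℝ) ^ (j + 1)) := by
    intro j _
    rw [Finset.sum_const, Nat.card_Ico, nsmul_eq_mul]
    have hpos : (0:ℝ) < (N:ℝ) ^ (j + 1) := by positivity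
    have e1 := Nat.ceil_lt_add_one (a := c.κ * (N ^ (j + 1) : ℕ)) (by positivity)
    have e2 := Nat.lt_floor_add_one ((1 - c.κ) * (N ^ (j + 1) : ℕ))
    have e3 : ((⌊(1 - c.κ) * (N ^ (j + 1) : ℕ)⌋₊ : ℕ) : ℝ) - (⌈c.κ * (N ^ (j + 1) : ℕ)⌉₊ : ℕ)
        ≤ ((⌊(1 - c.κ) * (N ^ (j + 1) : ℕ)⌋₊ - ⌈c.κ * (N ^ (j + 1) : ℕ)⌉₊ : ℕ) : ℝ) := by
      have := Nat.sub_le_iff_le_add.1 (le_refl
        (⌊(1 - c.κ) * (N ^ (j + 1) : ℕ)⌋₊ - ⌈c.κ * (N ^ (j + 1) : ℕ)⌉₊))
      have h4 : ((⌊(1 - c.κ) * (N ^ (j + 1) : ℕ)⌋₊ : ℕ) : ℝ) ≤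
        (((⌊(1 - c.κ) * (N ^ (j + 1) : ℕ)⌋₊ - ⌈c.κ * (N ^ (j + 1) : ℕ)⌉₊)
          + ⌈c.κ * (N ^ (j + 1) : ℕ)⌉₊ : ℕ) : ℝ) := by exact_mod_cast this
      push_cast at h4 ⊢
      linarith
    have hNpow : (N:ℝ) ≤ (N:ℝ) ^ (j + 1) := by
      have hN1 : (1:ℝ) ≤ N := by exact_mod_cast hN
      calc (N:ℝ) = N ^ 1 := (pow_one _).symm
        _ ≤ _ := pow_le_pow_right₀ hN1 (by omega)
    push_cast at e1 e2 e3
    have e4 : (1 - 3 * c.κ) * (N:ℝ) ^ (j + 1) ≤
        ((⌊(1 - c.κ) * (N ^ (j + 1) : ℕ)⌋₊ - ⌈c.κ * (N ^ (j + 1) : ℕ)⌉₊ : ℕ) : ℝ) := by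
      push_cast
      have : 2 ≤ c.κ * (N:ℝ) ^ (j + 1) := hNκ.trans (mul_le_mul_of_nonneg_left hNpow hκ.le)
      linarith
    rw [mul_div_assoc', le_div_iff₀ hpos]
    have := mul_le_mul_of_nonneg_right e4 (show 0 ≤ 1 - c.κ by linarith)
    linarith
  have h3 := Finset.card_nsmul_le_sum _ _ _ h2
  refine le_trans (le_of_eq ?_) h3
  rw [Nat.card_Icc, nsmul_eq_mul]
  congr 1
  have h4 : ((Mn c - 3 + 1 - 2 : ℕ) : ℤ) = c.M - 4 := by omega
  have h5 : ((Mn c - 3 + 1 - 2 : ℕ) : ℝ) = ((c.M - 4 : ℤ) : ℝ) := by exact_mod_cast h4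
  rw [h5]; push_cast; ring

/-- one step of the construction -/
theorem step {c : Cst} (hgrow : 1 ≤ ell c * ((c.M - 4) * ((1 - c.κ) * (1 - 3 * c.κ))))
    {G : Gad} (hG : Good c G) (hL : 1 ≤ G.L) :
    ∃ G' : Gad, Good c G' ∧ G.L + (2 * c.κ + ell c * c.M - 1) ≤ G'.L ∧
      ∃ i j : G'.ι, G'.F j - G'.F i = G'.L - 2 * c.κ ∧ ‖G'.pos j - G'.pos i‖ ≤ 1 := by
  have hκ := c.hκ0
  have hC0 := C0_pos c
  have hC1 := C1_pos c
  have hell := ell_pos c
  -- a lower bound for the windows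
  have := G.fin
  obtain ⟨ω, hω, hωi⟩ : ∃ ω : ℝ, 0 < ω ∧ ∀ i, ω ≤ G.hi i - G.lo i := by
    rcases isEmpty_or_nonempty G.ι with h | h
    · exact ⟨1, one_pos, fun i => (h.false i).elim⟩
    · obtain ⟨i0, hi0⟩ := Finite.exists_min (fun i => G.hi i - G.lo i)
      exact ⟨G.hi i0 - G.lo i0, sub_pos.2 (hG.win i0).2.1, hi0⟩
  obtain ⟨N, hNb⟩ := exists_nat_ge (max (2 * C1 c / ω) (max (6 * C1 c / (C0 c * c.κ)) (2 / c.κ)))
  have k1 : 2 * C1 c / ω ≤ N := (le_max_left _ _).trans hNb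
  have k2 : 6 * C1 c / (C0 c * c.κ) ≤ N := ((le_max_left _ _).trans (le_max_right _ _)).trans hNb
  have k3 : 2 / c.κ ≤ N := ((le_max_right _ _).trans (le_max_right _ _)).trans hNb
  have hNr : (0:ℝ) < N := lt_of_lt_of_le (by positivity) k3
  have hN : 0 < N := by exact_mod_cast hNr
  have ha : ∀ i, 2 * C1 c / N ≤ G.hi i - G.lo i := by
    intro i
    refine le_trans ?_ (hωi i)
    rw [div_le_iff₀ hω] at k1
    rw [div_le_iff₀ hNr]; linarith
  have hb : 6 * C1 c ≤ C0 c * c.κ * N := by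
    rw [div_le_iff₀ (by positivity)] at k2
    linarith
  have hNκ : 2 ≤ c.κ * N := by
    rw [div_le_iff₀ hκ] at k3; linarith
  set C := mkComb hG hN ha hb with hC
  refine ⟨C.gad, C.good_comp hG, ?_, ?_⟩
  · show G.L + (2 * c.κ + ell c * c.M - 1) ≤ 2 * c.κ + ell c * (c.M + (G.L - 1) * mu c N c.M)
    have h1 := mu_M hN hNκ
    have h2 : 1 ≤ ell c * mu c N c.M := hgrow.trans (mul_le_mul_of_nonneg_left h1 hell.le)
    have h3 := mul_le_mul_of_nonneg_left h2 (show 0 ≤ G.L - 1 by linarith)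
    nlinarith
  · have hM6 : (6:ℝ) ≤ c.M := by exact_mod_cast c.hM6
    have h0 : (0:ℝ) ∈ C.S := by
      have := C.S01 0 le_rfl (by have := c.hM6; omega)
      exact_mod_cast this
    have hM : (c.M:ℝ) ∈ C.S := C.S01 c.M (by have := c.hM6; omega) le_rfl
    refine ⟨Sum.inl ⟨0, h0⟩, Sum.inl ⟨c.M, hM⟩, ?_, ?_⟩
    · show FT c N G.L c.M - FT c N G.L 0
        = 2 * c.κ + ell c * (c.M + (G.L - 1) * mu c N c.M) - 2 * c.κ
      rw [FT_mid (by linarith) le_rfl, FT_mid le_rfl (by linarith), mu_zero hN]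
      ring
    · show ‖Qc c c.M - Qc c 0‖ ≤ 1
      have e1 : Qc c c.M - Qc c 0 = ((1 - 2 * c.κ : ℝ) : ℂ) := by
        have h1 := tri_even (j := c.M) c.hMe (s := c.M) le_rfl (by linarith)
        have h2 := tri_even (j := 0) (by simp) (s := 0) (by simp) (by simp)
        simp only [Int.cast_zero, sub_zero] at h2
        apply Complex.ext
        · rw [Complex.sub_re, Qc_re c (by linarith) le_rfl, Qc_re c le_rfl (by linarith)]
          have := c.hM
          simp; linarith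
        · simp only [Qc, Complex.sub_im]
          rw [cl_id c.M (by linarith) le_rfl, cl_id c.M le_rfl (by linarith), h1, h2]
          simp
      rw [e1, Complex.norm_real, Real.norm_eq_abs]
      have := c.hκ1
      rw [abs_of_nonneg (by linarith)]
      linarith
end SecY16

section SecY17
/-- the trivial gadget -/
def gad0 : Gad where
  ι := Empty
  fin := inferInstance
  pos := fun i => i.elim
  d := fun i => i.elim
  lo := fun i => i.elim
  hi := fun i => i.elim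
  F := fun i => i.elim
  L := 1

lemma good0 (c : Cst) : Good c gad0 where
  win := fun i => i.elim
  thin := fun i => i.elim
  inj := fun i => i.elim
  compP := fun i => i.elim
  compN := fun i => i.elim
  claim := by
    intro W θ ρ e z0 _ v f v' f' hv hv' _ _ hne _
    left
    rcases hv with ⟨i, _⟩ | ⟨rfl, rfl⟩ | ⟨rfl, hf⟩
    · exact i.elim
    · rcases hv' with ⟨i, _⟩ | ⟨rfl, rfl⟩ | ⟨rfl, hf'⟩
      · exact i.elim
      · exact absurd rfl hne
      · have : f' = 1 := hf'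
        rw [this]; simp
    · have h1 : f = 1 := hf
      rcases hv' with ⟨i, _⟩ | ⟨rfl, rfl⟩ | ⟨rfl, hf'⟩
      · exact i.elim
      · rw [h1]; simp
      · exact absurd rfl hne

lemma iterate {c : Cst} (hgrow : 1 ≤ ell c * ((c.M - 4) * ((1 - c.κ) * (1 - 3 * c.κ))))
    (hδ : 0 < 2 * c.κ + ell c * c.M - 1) (n : ℕ) :
    ∃ G : Gad, Good c G ∧ 1 + n * (2 * c.κ + ell c * c.M - 1) ≤ G.L := by
  induction n with
  | zero => exact ⟨gad0, good0 c, by show (1:ℝ) + (0:ℕ) * _ ≤ 1; simp⟩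
  | succ n ih =>
    obtain ⟨G, hG, hL⟩ := ih
    obtain ⟨G', hG', hL', _⟩ := step hgrow hG (by
      have : 0 ≤ (n:ℝ) * (2 * c.κ + ell c * c.M - 1) := by positivity
      linarith)
    exact ⟨G', hG', by push_cast; linarith⟩

lemma tan_le {α : ℝ} (h0 : 0 < α) (h1 : α ≤ Real.pi / 12) : 0 < Real.tan α ∧ Real.tan α ≤ 3 / 10 := by
  have hpi := Real.pi_pos
  have hpos : 0 < Real.tan α := Real.tan_pos_of_pos_of_lt_pi_div_two h0 (by linarith)
  refine ⟨hpos, ?_⟩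
  have hmono : Real.tan α ≤ Real.tan (Real.pi / 12) := by
    rcases h1.eq_or_lt with h | h
    · rw [h]
    · exact (Real.tan_lt_tan_of_lt_of_lt_pi_div_two (by linarith) (by linarith) h).le
  refine hmono.trans ?_
  by_contra hc
  push Not at hc
  have h2 : Real.tan (Real.pi / 12) < 1 := by
    rw [← Real.tan_pi_div_four]
    exact Real.tan_lt_tan_of_lt_of_lt_pi_div_two (by linarith) (by linarith) (by linarith)
  have h3 := Real.tan_two_mul (x := Real.pi / 12)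
  rw [show 2 * (Real.pi / 12) = Real.pi / 6 by ring, Real.tan_pi_div_six] at h3
  set t := Real.tan (Real.pi / 12)
  have ht : 0 < 1 - t ^ 2 := by nlinarith
  rw [eq_div_iff ht.ne'] at h3
  have h4 : (1 / Real.sqrt 3) ≤ 0.6 := by
    rw [div_le_iff₀ (by positivity)]
    have : (1.7:ℝ) ≤ Real.sqrt 3 := by
      apply Real.le_sqrt_of_sq_le; norm_num
    linarith
  have h5 : (1 / Real.sqrt 3) * (1 - t ^ 2) ≤ 0.6 * (1 - t ^ 2) :=
    mul_le_mul_of_nonneg_right h4 ht.le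
  nlinarith

lemma exists_cst (k : ℕ) (hk : 2 ≤ k) : ∃ c : Cst, c.k = k ∧
    1 ≤ ell c * ((c.M - 4) * ((1 - c.κ) * (1 - 3 * c.κ))) ∧ 0 < 2 * c.κ + ell c * c.M - 1 := by
  have hpi := Real.pi_pos
  have hk' : (2:ℝ) ≤ k := by exact_mod_cast hk
  set α : ℝ := Real.pi / (6 * k) with hα
  have hα0 : 0 < α := by positivity
  have hα1 : α ≤ Real.pi / 12 := by
    apply div_le_div_of_nonneg_left hpi.le (by norm_num) (by linarith)
  obtain ⟨ha0, ha1⟩ := tan_le hα0 hα1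
  set a := Real.tan α with ha
  set s := Real.sqrt (1 + a ^ 2) with hs
  have hs1 : 1 < s := by
    rw [hs]; apply Real.lt_sqrt_of_sq_lt; nlinarith
  set κ : ℝ := min (1/16) ((s - 1) / (10 * s)) with hκ
  have hκ0 : 0 < κ := by
    rw [hκ]; apply lt_min (by norm_num); apply div_pos (by linarith) (by linarith)
  have hκ1 : κ ≤ 1/16 := min_le_left _ _
  have hκ2 : κ * (10 * s) ≤ s - 1 := by
    rw [← le_div_iff₀ (by linarith)]; exact min_le_right _ _
  set τ : ℝ := a * κ / 64 with hτ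
  have hτ0 : 0 < τ := by positivity
  obtain ⟨m, hm⟩ := exists_nat_ge (max 3 (max (1 / κ) (1 / (τ * κ))))
  have m1 : (3:ℝ) ≤ m := (le_max_left _ _).trans hm
  have m2 : 1 / κ ≤ m := ((le_max_left _ _).trans (le_max_right _ _)).trans hm
  have m3 : 1 / (τ * κ) ≤ m := ((le_max_right _ _).trans (le_max_right _ _)).trans hm
  have m1' : 3 ≤ m := by exact_mod_cast m1
  rw [div_le_iff₀ hκ0] at m2
  rw [div_le_iff₀ (by positivity)] at m3
  have hMr : (((2 * m : ℕ) : ℤ) : ℝ) = 2 * m := by push_cast; ring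
  have hM0 : (0:ℝ) < 2 * m := by linarith
  set w : ℝ := (1 - 2 * κ) / (2 * m) with hw
  have hw0 : 0 < w := by
    rw [hw]; apply div_pos (by linarith) hM0
  let c : Cst :=
    { k := k
      M := ((2 * m : ℕ) : ℤ)
      α := α
      a := a
      κ := κ
      τ := τ
      w := w
      T := (a + τ) / (1 - a * τ)
      hk := hk
      hα := hα
      ha := ha
      ha0 := ha0
      ha1 := ha1
      hκ0 := hκ0
      hκ1 := hκ1
      hτ := by rw [hτ]; ring
      hw0 := hw0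
      hw := by
        rw [hw, div_le_iff₀ hM0]
        have : 0 < τ * κ := by positivity
        nlinarith
      hM := by rw [hMr, hw]; field_simp
      hM6 := by push_cast; omega
      hMe := by exact_mod_cast even_two_mul m
      hT := rfl }
  refine ⟨c, rfl, ?_, ?_⟩
  · show 1 ≤ w * s * (((((2 * m : ℕ) : ℤ) : ℝ) - 4) * ((1 - κ) * (1 - 3 * κ)))
    rw [hMr]
    have e1 : w * (2 * m - 4) = (1 - 2 * κ) * (1 - 2 / m) := by
      rw [hw]; field_simp; ring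
    have e2 : 1 - 4 * κ ≤ 1 - 2 / (m:ℝ) := by
      have : 2 / (m:ℝ) ≤ 2 * κ := by
        rw [div_le_iff₀ (by linarith)]; nlinarith
      linarith
    have e3 : (1 - 10 * κ) ≤ (1 - 2 * κ) * (1 - 2 / m) * ((1 - κ) * (1 - 3 * κ)) := by
      have f1 : (1 - 2 * κ) * (1 - 4 * κ) ≤ (1 - 2 * κ) * (1 - 2 / m) :=
        mul_le_mul_of_nonneg_left e2 (by linarith)
      have f2 : 1 - 6 * κ ≤ (1 - 2 * κ) * (1 - 4 * κ) := by nlinarith
      have f3 : 1 - 4 * κ ≤ (1 - κ) * (1 - 3 * κ) := by nlinarith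
      have f4 : (1 - 6 * κ) * (1 - 4 * κ) ≤ (1 - 2 * κ) * (1 - 2 / m) * ((1 - κ) * (1 - 3 * κ)) :=
        mul_le_mul (f2.trans f1) f3 (by linarith) (by linarith)
      nlinarith
    have e4 : w * s * ((2 * m - 4) * ((1 - κ) * (1 - 3 * κ)))
        = s * ((1 - 2 * κ) * (1 - 2 / m) * ((1 - κ) * (1 - 3 * κ))) := by
      rw [← e1]; ring
    rw [e4]
    have e5 : s * (1 - 10 * κ) ≤ s * ((1 - 2 * κ) * (1 - 2 / m) * ((1 - κ) * (1 - 3 * κ))) :=
      mul_le_mul_of_nonneg_left e3 (by linarith)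
    nlinarith
  · show 0 < 2 * κ + w * s * (((2 * m : ℕ) : ℤ) : ℝ) - 1
    rw [hMr]
    have e1 : w * s * (2 * m) = (1 - 2 * κ) * s := by rw [hw]; field_simp
    rw [e1]
    nlinarith

lemma Ut_one (c : Cst) : Ut c 1 0 = 1 := by
  unfold Ut; simp

/-- edges of the Yao-Yao graph are nearest and not killed -/
lemma edge_nn {k : ℕ} {P : Finset ℂ} {θ : ℂ → ℝ} {lt : ℂ × ℂ → ℂ × ℂ → Prop} {v u : ℂ}
    (h : YaoYaoEdge k P θ lt v u) :
    NN k (P : Set ℂ) θ v u ∧ ¬ Killed k (P : Set ℂ) θ v u := by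
  obtain ⟨⟨hv, hu, hne, hnear⟩, hkeep⟩ := h
  constructor
  · intro w hw hwv hc
    by_cases hwu : w = u
    · rw [hwu]
    · have := hnear w hw hwv hwu hc
      have h1 : dist v u ≤ dist v w := by
        rcases this with h | h
        · exact h.le
        · exact h.1.le
      rwa [dist_comm v u, dist_comm v w, dist_eq_norm, dist_eq_norm] at h1
  · rintro ⟨w, hw, hwu, hS, hc, hlt⟩
    have hY : YaoEdge k P θ lt w u := by
      refine ⟨hw, hu, hwu.symm, ?_⟩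
      intro w' hw' h1 h2 h3
      left
      have := hS w' hw' h1 h2 h3
      show dist w u < dist w w'
      rw [dist_comm w u, dist_comm w w', dist_eq_norm, dist_eq_norm]
      exact this
    have hwv : w ≠ v := by
      rintro rfl; exact lt_irrefl _ hlt
    have := hkeep w hY hwv hc
    have h1 : dist v u ≤ dist w u := by
      rcases this with h | h
      · exact h.le
      · exact h.1.le
    rw [dist_eq_norm, dist_eq_norm] at h1
    linarith

lemma le_walkLength {P : Finset ℂ} {G : SimpleGraph {p : ℂ // p ∈ P}} (Φ : ℂ → ℝ)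
    (h : ∀ u v : {p : ℂ // p ∈ P}, G.Adj u v → |Φ u.1 - Φ v.1| ≤ dist u.1 v.1) :
    ∀ {u v : {p : ℂ // p ∈ P}} (p : G.Walk u v), |Φ u.1 - Φ v.1| ≤ walkLength p := by
  intro u v p
  induction p with
  | nil => simp [walkLength]
  | cons hadj p ih =>
    rename_i u x v
    have h1 := h u x hadj
    have h3 : walkLength (SimpleGraph.Walk.cons hadj p) = dist u.1 x.1 + walkLength p := by
      simp [walkLength]
    have h2 : |Φ u.1 - Φ v.1| ≤ |Φ u.1 - Φ x.1| + |Φ x.1 - Φ v.1| := by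
      have := abs_add_le (Φ u.1 - Φ x.1) (Φ x.1 - Φ v.1)
      rwa [sub_add_sub_cancel] at this
    linarith

/-- **Main theorem.**  For every `k ≥ 2` and every `t` there are a finite point set `P` and an
orientation of the cones at each point such that, whatever rule is used to break ties, the Yao-Yao
graph `YY_k(P)` is not a `t`-spanner. -/
theorem main (k : ℕ) (hk : 2 ≤ k) (t : ℝ) :
    ∃ (P : Finset ℂ) (θ : ℂ → ℝ), ∀ lt : ℂ × ℂ → ℂ × ℂ → Prop,
      ¬ IsSpanner t (YaoYao k P θ lt) := by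
  obtain ⟨c, rfl, hgrow, hδ⟩ := exists_cst k hk
  set δ := 2 * c.κ + ell c * c.M - 1 with hδd
  obtain ⟨n, hn⟩ := exists_nat_gt ((|t| + 1) / δ)
  rw [div_lt_iff₀ hδ] at hn
  obtain ⟨G0, hG0, hL0⟩ := iterate hgrow hδ n
  have hnδ : 0 ≤ (n:ℝ) * δ := by positivity
  obtain ⟨G, hG, hL, i0, j0, hF, hdist⟩ := step hgrow hG0 (by linarith)
  have hκ1 := c.hκ1
  have := G.fin
  classical
  set P : Finset ℂ := (Set.finite_range G.pos).toFinset with hP
  have hmem : ∀ p, p ∈ P ↔ ∃ i, G.pos i = p := by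
    intro p; rw [hP, Set.Finite.mem_toFinset]; rfl
  set θ : ℂ → ℝ := fun p => if h : ∃ i, G.pos i = p then
    ((0 + (3 + G.d h.choose) : ℤ) : ℝ) * c.α + Real.arctan (G.lo h.choose) else 0 with hθ
  set Φ : ℂ → ℝ := fun p => if h : ∃ i, G.pos i = p then G.F h.choose else 0 with hΦ
  have hch : ∀ i (h : ∃ i', G.pos i' = G.pos i), h.choose = i := fun i h => hG.inj h.choose_spec
  have hθi : ∀ i, θ (G.pos i) = ((0 + (3 + G.d i) : ℤ) : ℝ) * c.α + Real.arctan (G.lo i) := by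
    intro i
    have h : ∃ i', G.pos i' = G.pos i := ⟨i, rfl⟩
    simp only [hθ]
    rw [dif_pos h, hch i h]
  have hΦi : ∀ i, Φ (G.pos i) = G.F i := by
    intro i
    have h : ∃ i', G.pos i' = G.pos i := ⟨i, rfl⟩
    simp only [hΦ]
    rw [dif_pos h, hch i h]
  have hplace : Placed c G (P : Set ℂ) θ 1 0 0 := by
    refine ⟨one_pos, ?_, ?_, ?_⟩
    · intro i
      rw [Ut_one, zero_add, one_mul]
      exact ⟨(hmem _).2 ⟨i, rfl⟩, G.lo i, le_rfl, (hG.win i).2.1.le, hθi i⟩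
    · intro v hv hW
      exfalso
      rw [Ut_one, zero_add, one_mul] at hW
      obtain ⟨i, hi⟩ := (hmem _).1 hW
      have ht := hG.thin i
      rw [hi] at ht
      rcases hv with rfl | rfl
      · simpa using ht.1
      · simpa using ht.2.1
    · intro o ho
      left
      obtain ⟨i, hi⟩ := (hmem _).1 ho
      exact ⟨G.pos i, G.F i, Or.inl ⟨i, rfl, rfl⟩, by rw [Ut_one, zero_add, one_mul, hi]⟩
  refine ⟨P, θ, ?_⟩
  intro lt hsp
  have hedge : ∀ v u : ℂ, YaoYaoEdge c.k P θ lt v u → v ≠ u → |Φ v - Φ u| ≤ dist v u := by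
    intro v u h hne
    obtain ⟨h1, h2⟩ := edge_nn h
    obtain ⟨i, rfl⟩ := (hmem _).1 h.1.1
    obtain ⟨j, rfl⟩ := (hmem _).1 h.1.2.1
    have hcl := hG.claim _ θ 1 0 0 hplace (G.pos i) (G.F i) (G.pos j) (G.F j)
      (Or.inl ⟨i, rfl, rfl⟩) (Or.inl ⟨j, rfl, rfl⟩)
    rw [Ut_one] at hcl
    simp only [zero_add, one_mul] at hcl
    rw [hΦi, hΦi, dist_eq_norm]
    exact (hcl h.1.1 h.1.2.1 hne h1).resolve_right h2
  have hadj : ∀ u v : {p : ℂ // p ∈ P}, (YaoYao c.k P θ lt).Adj u v →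
      |Φ u.1 - Φ v.1| ≤ dist u.1 v.1 := by
    intro u v h
    unfold YaoYao at h
    rw [SimpleGraph.fromRel_adj] at h
    obtain ⟨hne, h | h⟩ := h
    · exact hedge _ _ h (fun h => hne (Subtype.ext h))
    · rw [abs_sub_comm, dist_comm]
      exact hedge _ _ h (fun h => hne (Subtype.ext h.symm))
  obtain ⟨p, hp⟩ := hsp ⟨G.pos i0, (hmem _).2 ⟨i0, rfl⟩⟩ ⟨G.pos j0, (hmem _).2 ⟨j0, rfl⟩⟩
  have h1 := le_walkLength Φ hadj p
  simp only at h1 hp
  rw [hΦi, hΦi, abs_sub_comm, hF] at h1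
  have h2 : t * dist (G.pos i0) (G.pos j0) ≤ |t| := by
    rw [dist_comm, dist_eq_norm]
    calc t * ‖G.pos j0 - G.pos i0‖ ≤ |t| * ‖G.pos j0 - G.pos i0‖ :=
          mul_le_mul_of_nonneg_right (le_abs_self t) (norm_nonneg _)
      _ ≤ |t| * 1 := mul_le_mul_of_nonneg_left hdist (abs_nonneg t)
      _ = |t| := mul_one _
  have h3 := le_abs_self (G.L - 2 * c.κ)
  linarith
end SecY17

end Pool.Agent.Helper759.YaoYao
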